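import Pool.Agent.Work.MP_f62247_an.Mo.K3

-- merged part: Pool.Agent.Work.MP_f62247_an.Mo.K5
section
-- merged part: Pool.Agent.Work.MP_f62247_an.Mo.I4
section
/-!
# Disc averages
`integral_ball_polar`: `Complex.integral_comp_polarCoord_symm` (or `integral_comp_polarCoord_symm`) after translating the centre, Fubini, `circleAverage_def` with the shift of the period interval `(-π, π)` to `(0, 2π)`.
`da_step` (positivity trick): `ball z (R - l) ⊆ ball z' R` and `V ≥ 0` give `(R-l)² da V z (R-l) ≤ R² da V z' R`.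
`mv_lip`: apply the trick to `V = m - f ≥ 0` at both points, `da V = V` by the mean value property; `(1 - l/ρ)² ≥ 1 - 2 l/ρ`, `V ≤ 2m`.
`mv_harnack`: `f z = da f z ρ ≤ ρ⁻² da f z 1`.
-/

open Real MeasureTheory Set Filter Topology

namespace Pool.Agent.MinMod.Mo

noncomputable section

theorem i4_int {F : ℂ → ℝ} (hF : Integrable F) :
    IntegrableOn (fun p : ℝ × ℝ => p.1 * F (Complex.polarCoord.symm p))
      (Ioi 0 ×ˢ Ioo (-π) π) (volume.prod volume) := by
  have h1 := Complex.volume_preserving_equiv_real_prod.symm.integrable_comp_of_integrable hF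
  have hs : MeasurableSet (polarCoord.target) := polarCoord.open_target.measurableSet
  have h2 := (integrableOn_image_iff_integrableOn_abs_det_fderiv_smul volume hs
    (fun p _ => (hasFDerivAt_polarCoord_symm p).hasFDerivWithinAt) polarCoord.symm.injOn
    (F ∘ Complex.measurableEquivRealProd.symm)).1 h1.integrableOn
  refine IntegrableOn.congr_fun h2 (fun p hp => ?_) hs
  simp only [det_fderivPolarCoordSymm, smul_eq_mul, Function.comp_apply]
  rw [abs_of_pos hp.1]
  rfl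

theorem i4_circ (f : ℂ → ℝ) (z : ℂ) (t : ℝ) :
    ∫ θ in Ioo (-π) π, f (circleMap z t θ) = 2 * π * ca f z t := by
  have hp := pi_pos
  rw [ca, circleAverage_eq_integral_add (-π),
    intervalIntegral.integral_comp_add_right (fun θ => f (circleMap z t θ)), smul_eq_mul,
    ← mul_assoc, mul_inv_cancel₀ (by positivity), one_mul, zero_add,
    show 2 * π + -π = π by ring, intervalIntegral.integral_of_le (by linarith),
    integral_Ioc_eq_integral_Ioo]

theorem integral_ball_polar {f : ℂ → ℝ} {z : ℂ} {R : ℝ} (hR : 0 < R)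
    (hf : IntegrableOn f (Metric.ball z R)) :
    IntervalIntegrable (fun t => 2 * π * t * ca f z t) volume 0 R ∧
      ∫ w in Metric.ball z R, f w = ∫ t in (0 : ℝ)..R, 2 * π * t * ca f z t := by
  have hF : Integrable fun v => (Metric.ball z R).indicator f (z + v) :=
    (hf.integrable_indicator measurableSet_ball).comp_add_left z
  have h1 := i4_int hF
  have h2 : ∀ t ∈ Ioi (0 : ℝ), ∫ θ in Ioo (-π) π,
      t * (Metric.ball z R).indicator f (z + Complex.polarCoord.symm (t, θ)) =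
      (Iio R).indicator (fun t => 2 * π * t * ca f z t) t := by
    intro t ht
    have e : ∀ θ : ℝ, z + Complex.polarCoord.symm (t, θ) = circleMap z t θ := by
      intro θ
      simp [circleMap, Complex.exp_mul_I]
    have hm : ∀ θ : ℝ, circleMap z t θ ∈ Metric.ball z R ↔ t < R := by
      intro θ
      rw [mem_ball_iff_norm, circleMap_sub_center, norm_circleMap_zero, abs_of_pos ht]
    simp only [e]
    by_cases h : t < R
    · rw [indicator_of_mem (show t ∈ Iio R from h)]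
      simp only [fun θ => indicator_of_mem ((hm θ).2 h) f]
      rw [integral_const_mul, i4_circ]
      ring
    · rw [indicator_of_notMem (show t ∉ Iio R from h)]
      simp only [fun θ => indicator_of_notMem (fun h' => h ((hm θ).1 h')) f, mul_zero,
        integral_zero]
  constructor
  · rw [IntegrableOn, ← Measure.prod_restrict] at h1
    have h3 : IntegrableOn _ (Ioi (0 : ℝ)) := h1.integral_prod_left
    have h4 := (h3.congr_fun h2 measurableSet_Ioi).mono_set (Ioo_subset_Ioi_self (a := R))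
    rw [intervalIntegrable_iff_integrableOn_Ioo_of_le hR.le]
    exact h4.congr_fun (fun t ht => indicator_of_mem (show t ∈ Iio R from ht.2) _) measurableSet_Ioo
  · rw [← integral_indicator measurableSet_ball, ← integral_add_left_eq_self _ z,
      ← Complex.integral_comp_polarCoord_symm]
    refine (setIntegral_prod _ h1).trans ?_
    rw [setIntegral_congr_fun measurableSet_Ioi h2, setIntegral_indicator measurableSet_Iio,
      Ioi_inter_Iio, intervalIntegral.integral_of_le hR.le, integral_Ioc_eq_integral_Ioo]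

theorem i4_rad {s : ℝ} (hs : 0 ≤ s) : ∀ y ∈ Ioi (0 : ℝ),
    y ^ (Module.finrank ℝ ℂ - 1) • posLog (s / y) =
      (Iio s).indicator (fun y => y * log s - y * log y) y := by
  intro y hy
  have hy' : 0 < y := hy
  rw [Complex.finrank_real_complex, show 2 - 1 = 1 from rfl, pow_one, smul_eq_mul]
  by_cases h : y < s
  · rw [indicator_of_mem (show y ∈ Iio s from h), posLog_eq_log, log_div (by linarith) hy'.ne']
    · ring
    · rw [abs_of_nonneg (by positivity), le_div_iff₀ hy']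
      linarith
  · rw [indicator_of_notMem (show y ∉ Iio s from h), (posLog_eq_zero_iff _).2, mul_zero]
    rw [abs_of_nonneg (by positivity), div_le_iff₀ hy']
    linarith

theorem i4_cont (s : ℝ) : Continuous fun y : ℝ => y * log s - y * log y :=
  (continuous_id.mul continuous_const).sub continuous_mul_log

theorem i4_vol (z : ℂ) {R : ℝ} (hR : 0 ≤ R) : volume.real (Metric.ball z R) = π * R ^ 2 := by
  rw [Measure.real, Complex.volume_ball]
  simp [hR, mul_comm]

theorem integrable_gk (s : ℝ) : Integrable (gk s) := by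
  have e : gk s = fun v : ℂ => (fun y : ℝ => posLog (|s| / y)) ‖v‖ := by
    funext v
    rw [gk, ← posLog_abs, abs_div, abs_norm]
  rw [e]
  refine (integrable_fun_norm_addHaar (volume : Measure ℂ) (f := fun y : ℝ => posLog (|s| / y))).2 ?_
  refine IntegrableOn.congr_fun ?_ (fun y hy => (i4_rad (abs_nonneg s) y hy).symm) measurableSet_Ioi
  rw [IntegrableOn, integrable_indicator_iff measurableSet_Iio, IntegrableOn,
    Measure.restrict_restrict measurableSet_Iio, Iio_inter_Ioi]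
  exact ((i4_cont _).integrableOn_Icc (a := 0) (b := |s|)).mono_set Ioo_subset_Icc_self

theorem integral_gk {s : ℝ} (hs : 0 < s) : ∫ v, gk s v = π * s ^ 2 / 2 := by
  have h1 := integral_fun_norm_addHaar (volume : Measure ℂ) fun y : ℝ => posLog (s / y)
  refine h1.trans ?_
  rw [setIntegral_congr_fun measurableSet_Ioi (i4_rad hs.le),
    setIntegral_indicator measurableSet_Iio, Ioi_inter_Iio, ← integral_Ioc_eq_integral_Ioo,
    ← intervalIntegral.integral_of_le hs.le, i4_vol 0 zero_le_one, Complex.finrank_real_complex]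
  have h2 : ∫ y in (0 : ℝ)..s, (y * log s - y * log y) =
      (s ^ 2 / 2 * log s - (s / 2 * (s * log s) - s ^ 2 / 4)) -
        (0 ^ 2 / 2 * log s - (0 / 2 * (0 * log 0) - 0 ^ 2 / 4)) := by
    refine intervalIntegral.integral_eq_sub_of_hasDerivAt_of_le
      (f := fun y => y ^ 2 / 2 * log s - (y / 2 * (y * log y) - y ^ 2 / 4)) hs.le ?_ ?_
      ((i4_cont s).intervalIntegrable _ _)
    · have := continuous_mul_log
      exact Continuous.continuousOn (by fun_prop)
    · intro y hy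
      have h3 := (((hasDerivAt_pow 2 y).div_const 2).mul_const (log s)).sub
        ((((hasDerivAt_id' y).div_const 2).mul (hasDerivAt_mul_log hy.1.ne')).sub
          ((hasDerivAt_pow 2 y).div_const 4))
      refine h3.congr_deriv ?_
      push_cast
      ring
  rw [h2]
  simp only [smul_eq_mul, nsmul_eq_mul]
  push_cast
  ring

theorem da_const (c : ℝ) (z : ℂ) {R : ℝ} (hR : 0 < R) : da (fun _ => c) z R = c := by
  have hp := pi_pos
  rw [da, setIntegral_const, i4_vol z hR.le, smul_eq_mul, ← mul_assoc,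
    inv_mul_cancel₀ (by positivity), one_mul]

theorem da_mono {f g : ℂ → ℝ} {z : ℂ} {R : ℝ} (hf : IntegrableOn f (Metric.ball z R))
    (hg : IntegrableOn g (Metric.ball z R))
    (h : ∀ᵐ w, w ∈ Metric.ball z R → f w ≤ g w) : da f z R ≤ da g z R :=
  mul_le_mul_of_nonneg_left (setIntegral_mono_on_ae hf hg measurableSet_ball h)
    (by have := pi_pos; positivity)

theorem da_add {f g : ℂ → ℝ} {z : ℂ} {R : ℝ} (hf : IntegrableOn f (Metric.ball z R))
    (hg : IntegrableOn g (Metric.ball z R)) :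
    da (fun w => f w + g w) z R = da f z R + da g z R := by
  rw [da, da, da, integral_add hf hg, mul_add]

theorem i4_lin (a r R : ℝ) : ∫ t in r..R, 2 * π * t * a = π * (R ^ 2 - r ^ 2) * a := by
  rw [intervalIntegral.integral_mul_const, intervalIntegral.integral_const_mul, integral_id]
  ring

theorem i4_lin' (a r R : ℝ) : IntervalIntegrable (fun t => 2 * π * t * a) volume r R :=
  Continuous.intervalIntegrable (by fun_prop) _ _

theorem da_le_of_ca {f : ℂ → ℝ} {z : ℂ} {R a : ℝ} (hR : 0 < R)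
    (hf : IntegrableOn f (Metric.ball z R)) (h : ∀ t, 0 < t → t < R → ca f z t ≤ a) :
    da f z R ≤ a := by
  have hp := pi_pos
  obtain ⟨h1, h2⟩ := integral_ball_polar hR hf
  have h3 := intervalIntegral.integral_mono_on_of_le_Ioo hR.le h1 (i4_lin' a 0 R) fun t ht =>
    mul_le_mul_of_nonneg_left (h t ht.1 ht.2) (by have := ht.1; positivity)
  rw [i4_lin] at h3
  rw [da, h2, inv_mul_le_iff₀ (by positivity)]
  linarith

theorem le_da_of_ca {f : ℂ → ℝ} {z : ℂ} {R a : ℝ} (hR : 0 < R)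
    (hf : IntegrableOn f (Metric.ball z R)) (h : ∀ t, 0 < t → t < R → a ≤ ca f z t) :
    a ≤ da f z R := by
  have hp := pi_pos
  obtain ⟨h1, h2⟩ := integral_ball_polar hR hf
  have h3 := intervalIntegral.integral_mono_on_of_le_Ioo hR.le (i4_lin' a 0 R) h1 fun t ht =>
    mul_le_mul_of_nonneg_left (h t ht.1 ht.2) (by have := ht.1; positivity)
  rw [i4_lin] at h3
  rw [da, h2, le_inv_mul_iff₀ (by positivity)]
  linarith

/-- disc averages increase when the circle averages do -/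
theorem da_mono_radius {f : ℂ → ℝ} {z : ℂ} {R R' : ℝ} (h0 : 0 < R') (h1 : R' ≤ R)
    (hf : IntegrableOn f (Metric.ball z R))
    (h : ∀ s t, 0 < s → s ≤ t → t < R → ca f z s ≤ ca f z t) : da f z R' ≤ da f z R := by
  rcases h1.eq_or_lt with rfl | h1'
  · exact le_rfl
  have hp := pi_pos
  have hR : 0 < R := h0.trans h1'
  have hf' := hf.mono_set (Metric.ball_subset_ball h1)
  have h2 : da f z R' ≤ ca f z R' := da_le_of_ca h0 hf' fun t ht ht' => h t R' ht ht'.le h1'
  obtain ⟨a1, a2⟩ := integral_ball_polar hR hf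
  obtain ⟨b1, b2⟩ := integral_ball_polar h0 hf'
  have c1 := b1.symm.trans a1
  have h3 := intervalIntegral.integral_mono_on_of_le_Ioo h1 (i4_lin' (da f z R') R' R) c1
    fun t ht => mul_le_mul_of_nonneg_left (h2.trans (h R' t h0 ht.1.le ht.2))
      (by have := h0.trans ht.1; positivity)
  have h4 : ∫ w in Metric.ball z R', f w = π * R' ^ 2 * da f z R' := by
    rw [da, ← mul_assoc, mul_inv_cancel₀ (by positivity), one_mul]
  rw [i4_lin] at h3
  have h5 := intervalIntegral.integral_add_adjacent_intervals b1 c1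
  rw [← b2, h4, ← a2] at h5
  have h6 : da f z R = (π * R ^ 2)⁻¹ * ∫ w in Metric.ball z R, f w := rfl
  rw [h6, le_inv_mul_iff₀ (by positivity)]
  linarith

theorem da_step {V : ℂ → ℝ} {z z' : ℂ} {R l : ℝ} (hl : ‖z' - z‖ ≤ l) (hR : l < R)
    (hV : IntegrableOn V (Metric.ball z' R)) (h0 : ∀ᵐ w, w ∈ Metric.ball z' R → 0 ≤ V w) :
    (1 - l / R) ^ 2 * da V z (R - l) ≤ da V z' R := by
  have hp := pi_pos
  have hR0 : 0 < R := ((norm_nonneg _).trans hl).trans_lt hR
  have hRl : 0 < R - l := sub_pos.2 hR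
  have hs : Metric.ball z (R - l) ⊆ Metric.ball z' R :=
    Metric.ball_subset_ball' (by rw [dist_comm, dist_eq_norm]; linarith)
  have h1 := setIntegral_mono_set hV ((ae_restrict_iff' measurableSet_ball).2 h0) hs.eventuallyLE
  have e : (1 - l / R) ^ 2 * (π * (R - l) ^ 2)⁻¹ = (π * R ^ 2)⁻¹ := by field_simp
  rw [da, da, ← mul_assoc, e]
  exact mul_le_mul_of_nonneg_left h1 (by positivity)

theorem i4_io {f : ℂ → ℝ} {Ω : Set ℂ} (hc : ContinuousOn f Ω) {z : ℂ} {r : ℝ}
    (hb : Metric.closedBall z r ⊆ Ω) : IntegrableOn f (Metric.ball z r) :=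
  ((hc.mono hb).integrableOn_compact (isCompact_closedBall z r)).mono_set
    Metric.ball_subset_closedBall

theorem i4_mv {f : ℂ → ℝ} {Ω : Set ℂ} (hc : ContinuousOn f Ω) (hm : MV f Ω) {z : ℂ} {r : ℝ}
    (hr : 0 < r) (hb : Metric.closedBall z r ⊆ Ω) : da f z r = f z := by
  have h : ∀ t, 0 < t → t < r → ca f z t = f z := fun t ht ht' =>
    hm z t ht ((Metric.closedBall_subset_closedBall ht'.le).trans hb)
  exact le_antisymm (da_le_of_ca hr (i4_io hc hb) fun t a b => (h t a b).le)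
    (le_da_of_ca hr (i4_io hc hb) fun t a b => (h t a b).ge)

theorem i4_step {V : ℂ → ℝ} {Ω : Set ℂ} (hc : ContinuousOn V Ω) (hm : MV V Ω) {z z' : ℂ} {R l : ℝ}
    (hl : ‖z' - z‖ ≤ l) (hR : l < R) (hb : Metric.closedBall z' R ⊆ Ω)
    (h0 : ∀ w ∈ Metric.closedBall z' R, 0 ≤ V w) : (1 - l / R) ^ 2 * V z ≤ V z' := by
  have hR0 : 0 < R := ((norm_nonneg _).trans hl).trans_lt hR
  have h1 := da_step hl hR (i4_io hc hb)
    (Eventually.of_forall fun w hw => h0 w (Metric.ball_subset_closedBall hw))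
  have hs : Metric.closedBall z (R - l) ⊆ Metric.closedBall z' R :=
    Metric.closedBall_subset_closedBall' (by rw [dist_comm, dist_eq_norm]; linarith)
  rwa [i4_mv hc hm (sub_pos.2 hR) (hs.trans hb), i4_mv hc hm hR0 hb] at h1

theorem mv_lip {f : ℂ → ℝ} {Ω : Set ℂ} (hc : ContinuousOn f Ω) (hm : MV f Ω) {z z' : ℂ} {ρ m : ℝ}
    (hρ : 0 < ρ) (hb : Metric.closedBall z (2 * ρ) ⊆ Ω)
    (hf : ∀ w ∈ Metric.closedBall z (2 * ρ), |f w| ≤ m) (hz : ‖z' - z‖ ≤ ρ / 2) :
    |f z' - f z| ≤ 4 * m * ‖z' - z‖ / ρ := by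
  have hcV : ContinuousOn (fun w => m - f w) Ω := continuousOn_const.sub hc
  have hmV : MV (fun w => m - f w) Ω := by
    intro w s hs hw
    rw [ca, circleAverage_fun_sub (circleIntegrable_const m w s) (ci_of_cont hc hs.le hw),
      circleAverage_const]
    exact congrArg (m - ·) (hm w s hs hw)
  have s1 : Metric.closedBall z ρ ⊆ Metric.closedBall z (2 * ρ) :=
    Metric.closedBall_subset_closedBall (by linarith)
  have s2 : Metric.closedBall z' ρ ⊆ Metric.closedBall z (2 * ρ) :=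
    Metric.closedBall_subset_closedBall' (by rw [dist_eq_norm]; linarith)
  have hl : ‖z' - z‖ < ρ := by linarith
  have h1 := i4_step hcV hmV le_rfl hl (s2.trans hb) fun w hw =>
    sub_nonneg.2 (abs_le.1 (hf w (s2 hw))).2
  have h2 := i4_step hcV hmV (norm_sub_rev z z').le hl (s1.trans hb) fun w hw =>
    sub_nonneg.2 (abs_le.1 (hf w (s1 hw))).2
  have a1 := abs_le.1 (hf z (s1 (Metric.mem_closedBall_self hρ.le)))
  have a2 := abs_le.1 (hf z' (s2 (Metric.mem_closedBall_self hρ.le)))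
  rw [mul_div_assoc]
  have hx : 0 ≤ ‖z' - z‖ / ρ := by positivity
  generalize ‖z' - z‖ / ρ = x at h1 h2 hx
  have b1 := mul_nonneg hx (sub_nonneg.2 a1.1)
  have b2 := mul_nonneg hx (sub_nonneg.2 a2.1)
  have b3 := mul_nonneg (sq_nonneg x) (sub_nonneg.2 a1.2)
  have b4 := mul_nonneg (sq_nonneg x) (sub_nonneg.2 a2.2)
  rw [abs_le]
  constructor <;> nlinarith

theorem mv_harnack {f : ℂ → ℝ} {Ω : Set ℂ} (hc : Continuous f) (hm : MV f Ω) {z : ℂ} {ρ : ℝ}
    (hρ : 0 < ρ) (hρ1 : ρ ≤ 1) (hb : Metric.closedBall z ρ ⊆ Ω)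
    (hf : ∀ w ∈ Metric.ball z 1, 0 ≤ f w) : f z ≤ da f z 1 / ρ ^ 2 := by
  have h1 := da_step (V := f) (z := z) (z' := z) (R := 1) (l := 1 - ρ) (by simpa using hρ1)
    (by linarith) (i4_io hc.continuousOn (subset_univ _)) (Eventually.of_forall hf)
  rw [div_one, sub_sub_cancel, i4_mv hc.continuousOn hm hρ hb] at h1
  rw [le_div_iff₀ (by positivity)]
  linarith

end

end Pool.Agent.MinMod.Mo
end

-- merged part: Pool.Agent.Work.MP_f62247_an.Mo.F4
section
/-!
# Choice of a line on which the logarithmic sum is small; logarithmic integrals of bounded densities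
`avg_lp`: the integral of `lp (τ - t)` over an interval of length `l ≤ 1` is at most `∫_{-l/2}^{l/2} log (1/|u|) = l (1 + log (2/l))` (or any proof of the stated bound: `lp u ≤ log (1/l) + posLog (l/|u|)`, and `∫ posLog (l/|u|) du = 2 l`).
`exists_line`: Tonelli for `lintegral` of `ofReal (ρ ζ * lp (f ζ - t))` over `E × [t0, t0 + l]`; some `t` is below the average (`exists_le_setLAverage` / `exists_le_setAverage`).
`int_lp_re`: Fubini (`Complex.volume_preserving_equiv_real_prod`), the ball lies in a square.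
-/

open Real MeasureTheory Set Filter Topology

namespace Pool.Agent.MinMod.Mo

noncomputable section

theorem f4_ind (l : ℝ) : (fun u : ℝ => Real.posLog (l / |u|)) =ᵐ[volume]
    (Ioc (-|l|) |l|).indicator fun u => Real.log l - Real.log u := by
  filter_upwards [compl_mem_ae_iff.2 (Real.volume_singleton (a := 0))] with u hu
  have hu0 : u ≠ 0 := hu
  have hp : 0 < |u| := abs_pos.2 hu0
  by_cases h : u ∈ Ioc (-|l|) |l|
  · have h1 : |u| ≤ |l| := abs_le.2 ⟨h.1.le, h.2⟩
    have hl : l ≠ 0 := abs_pos.1 (hp.trans_le h1)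
    rw [indicator_of_mem h, Real.posLog_eq_log, Real.log_div hl hp.ne', Real.log_abs]
    rw [abs_div, abs_abs, one_le_div hp]
    exact h1
  · rw [indicator_of_notMem h, Real.posLog_eq_zero_iff, abs_div, abs_abs, div_le_one hp]
    rw [mem_Ioc, not_and_or, not_lt, not_le] at h
    rcases h with h | h
    · exact le_abs.2 (Or.inr (by linarith))
    · exact le_abs.2 (Or.inl h.le)

theorem integrable_posLog_div (l : ℝ) : Integrable fun u : ℝ => Real.posLog (l / |u|) := by
  rw [integrable_congr (f4_ind l), integrable_indicator_iff measurableSet_Ioc]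
  exact ((intervalIntegrable_const (c := Real.log l)).sub
    (intervalIntegral.intervalIntegrable_log' (a := -|l|) (b := |l|))).1

theorem integral_posLog_div {l : ℝ} (hl : 0 < l) : ∫ u : ℝ, Real.posLog (l / |u|) = 2 * l := by
  rw [integral_congr_ae (f4_ind l), integral_indicator measurableSet_Ioc, abs_of_pos hl,
    ← intervalIntegral.integral_of_le (by linarith),
    intervalIntegral.integral_sub intervalIntegrable_const intervalIntegral.intervalIntegrable_log',
    integral_log, intervalIntegral.integral_const, Real.log_neg_eq_log, smul_eq_mul]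
  ring

theorem f4_lp_le {l : ℝ} (hl : 0 < l) (hl1 : l ≤ 1) (u : ℝ) :
    lp u ≤ -Real.log l + Real.posLog (l / |u|) := by
  have e : 1 / |u| = l⁻¹ * (l / |u|) := by
    rw [div_eq_mul_inv l, inv_mul_cancel_left₀ hl.ne', one_div]
  have h1 : Real.posLog l⁻¹ = -Real.log l := by
    rw [Real.posLog_eq_log, Real.log_inv]
    rw [abs_of_pos (inv_pos.2 hl)]
    exact (one_le_inv₀ hl).2 hl1
  unfold lp
  rw [e, ← h1]
  exact Real.posLog_mul

theorem avg_lp {l : ℝ} (hl : 0 < l) (hl1 : l ≤ 1) (τ t0 : ℝ) :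
    IntervalIntegrable (fun t => lp (τ - t)) volume t0 (t0 + l) ∧
      ∫ t in t0..(t0 + l), lp (τ - t) ≤ l * (2 - Real.log l) := by
  have h1 : Integrable fun t => lp (τ - t) := (integrable_posLog_div 1).comp_sub_left τ
  have h2 : Integrable fun t => Real.posLog (l / |τ - t|) :=
    (integrable_posLog_div l).comp_sub_left τ
  refine ⟨h1.intervalIntegrable, ?_⟩
  have hle : t0 ≤ t0 + l := by linarith
  have h3 : ∫ t in t0..(t0 + l), lp (τ - t) ≤
      ∫ t in t0..(t0 + l), (-Real.log l + Real.posLog (l / |τ - t|)) :=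
    intervalIntegral.integral_mono hle h1.intervalIntegrable
      (intervalIntegrable_const.add h2.intervalIntegrable) fun t => f4_lp_le hl hl1 _
  have h4 : ∫ t in t0..(t0 + l), Real.posLog (l / |τ - t|) ≤ 2 * l := by
    rw [intervalIntegral.integral_of_le hle, ← integral_posLog_div hl,
      ← integral_sub_left_eq_self (fun u : ℝ => Real.posLog (l / |u|)) volume τ]
    exact setIntegral_le_integral h2 (Eventually.of_forall fun _ => Real.posLog_nonneg)
  rw [intervalIntegral.integral_add intervalIntegrable_const h2.intervalIntegrable,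
    intervalIntegral.integral_const, smul_eq_mul] at h3
  nlinarith

theorem f4_meas_lp : Measurable lp :=
  Real.continuous_posLog.measurable.comp (measurable_const.div continuous_abs.measurable)

theorem exists_line {ρ f : ℂ → ℝ} {E : Set ℂ} (hE : MeasurableSet E) (hρ : Measurable ρ)
    (h0 : ∀ z, 0 ≤ ρ z) (hi : IntegrableOn ρ E) (hf : Measurable f) {l : ℝ} (hl : 0 < l)
    (hl1 : l ≤ 1) (t0 : ℝ) : ∃ t ∈ Icc t0 (t0 + l), IntegrableOn (fun ζ => ρ ζ * lp (f ζ - t)) E ∧
      ∫ ζ in E, ρ ζ * lp (f ζ - t) ≤ (2 - Real.log l) * ∫ ζ in E, ρ ζ := by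
  have _ := hE
  have hlp : ∀ u, 0 ≤ lp u := fun _ => Real.posLog_nonneg
  have hc : 0 ≤ 2 - Real.log l := by
    have := Real.log_nonpos hl.le hl1
    linarith
  have hI : 0 ≤ ∫ ζ in E, ρ ζ := integral_nonneg h0
  have hm : Measurable fun p : ℝ × ℂ => ENNReal.ofReal (ρ p.2 * lp (f p.2 - p.1)) :=
    ((hρ.comp measurable_snd).mul
      (f4_meas_lp.comp ((hf.comp measurable_snd).sub measurable_fst))).ennreal_ofReal
  have hg : Measurable fun t : ℝ => ∫⁻ ζ in E, ENNReal.ofReal (ρ ζ * lp (f ζ - t)) :=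
    hm.lintegral_prod_right'
  have hvol : volume (Ioc t0 (t0 + l)) = ENNReal.ofReal l := by simp
  have htot : ∫⁻ t in Ioc t0 (t0 + l), ∫⁻ ζ in E, ENNReal.ofReal (ρ ζ * lp (f ζ - t)) ≤
      ENNReal.ofReal ((2 - Real.log l) * ∫ ζ in E, ρ ζ) * ENNReal.ofReal l := by
    rw [lintegral_lintegral_swap hm.aemeasurable]
    have h1 : ∀ ζ, ∫⁻ t in Ioc t0 (t0 + l), ENNReal.ofReal (ρ ζ * lp (f ζ - t)) ≤
        ENNReal.ofReal (ρ ζ * (l * (2 - Real.log l))) := by
      intro ζ
      obtain ⟨h2, h3⟩ := avg_lp hl hl1 (f ζ) t0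
      rw [← ofReal_integral_eq_lintegral_ofReal (h2.1.const_mul (ρ ζ))
        (Eventually.of_forall fun t => mul_nonneg (h0 ζ) (hlp _)), integral_const_mul,
        ← intervalIntegral.integral_of_le (by linarith)]
      exact ENNReal.ofReal_le_ofReal (mul_le_mul_of_nonneg_left h3 (h0 ζ))
    refine (lintegral_mono h1).trans (le_of_eq ?_)
    rw [← ofReal_integral_eq_lintegral_ofReal (hi.mul_const _)
      (Eventually.of_forall fun ζ => mul_nonneg (h0 ζ) (mul_nonneg hl.le hc)), integral_mul_const,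
      ← ENNReal.ofReal_mul (mul_nonneg hc hI)]
    congr 1
    ring
  have hne : ENNReal.ofReal l ≠ 0 := by simpa using hl
  obtain ⟨t, ht, hle⟩ := exists_le_setLAverage (μ := volume) (s := Ioc t0 (t0 + l))
    (f := fun t : ℝ => ∫⁻ ζ in E, ENNReal.ofReal (ρ ζ * lp (f ζ - t)))
    (by rw [hvol]; exact hne) (by rw [hvol]; exact ENNReal.ofReal_ne_top) hg.aemeasurable
  rw [setLAverage_eq, hvol] at hle
  have hle' : ∫⁻ ζ in E, ENNReal.ofReal (ρ ζ * lp (f ζ - t)) ≤
      ENNReal.ofReal ((2 - Real.log l) * ∫ ζ in E, ρ ζ) :=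
    hle.trans (ENNReal.div_le_of_le_mul htot)
  have hmt : Measurable fun ζ => ρ ζ * lp (f ζ - t) :=
    hρ.mul (f4_meas_lp.comp (hf.sub measurable_const))
  have hnn : 0 ≤ᵐ[volume.restrict E] fun ζ => ρ ζ * lp (f ζ - t) :=
    Eventually.of_forall fun ζ => mul_nonneg (h0 ζ) (hlp _)
  have hint : IntegrableOn (fun ζ => ρ ζ * lp (f ζ - t)) E :=
    ⟨hmt.aestronglyMeasurable,
      (hasFiniteIntegral_iff_ofReal hnn).2 (hle'.trans_lt ENNReal.ofReal_lt_top)⟩
  refine ⟨t, Ioc_subset_Icc_self ht, hint, ?_⟩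
  rw [← ofReal_integral_eq_lintegral_ofReal hint hnn] at hle'
  exact (ENNReal.ofReal_le_ofReal_iff (mul_nonneg hc hI)).1 hle'

theorem int_posLog_re (c : ℂ) {R ϵ : ℝ} (hR : 0 < R) (hϵ : 0 < ϵ) (x : ℝ) :
    IntegrableOn (fun ζ : ℂ => Real.posLog (ϵ / |ζ.re - x|)) (Metric.ball c R) ∧
      ∫ ζ in Metric.ball c R, Real.posLog (ϵ / |ζ.re - x|) ≤ 4 * R * ϵ := by
  set g : ℝ → ℝ := fun u => Real.posLog (ϵ / |u - x|) with hg
  set h : ℝ → ℝ := (Icc (c.im - R) (c.im + R)).indicator fun _ => (1 : ℝ) with hh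
  have hgi : Integrable g := (integrable_posLog_div ϵ).comp_sub_right x
  have hhi : Integrable h :=
    (integrable_indicator_iff measurableSet_Icc).2 (integrableOn_const (by simp))
  have hgv : ∫ u, g u = 2 * ϵ := by
    rw [hg, integral_sub_right_eq_self (fun u : ℝ => Real.posLog (ϵ / |u|)) x,
      integral_posLog_div hϵ]
  have hhv : ∫ u, h u = 2 * R := by
    rw [hh, integral_indicator measurableSet_Icc, setIntegral_const, Real.volume_real_Icc_of_le
      (by linarith), smul_eq_mul]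
    ring
  have hp : Integrable (fun p : ℝ × ℝ => g p.1 * h p.2) := hgi.mul_prod hhi
  have hq : Integrable fun ζ : ℂ => g ζ.re * h ζ.im :=
    (Complex.volume_preserving_equiv_real_prod.integrable_comp_emb
      Complex.measurableEquivRealProd.measurableEmbedding).2 hp
  have hv : ∫ ζ : ℂ, g ζ.re * h ζ.im = 4 * R * ϵ := by
    have := Complex.volume_preserving_equiv_real_prod.integral_comp'
      (fun p : ℝ × ℝ => g p.1 * h p.2)
    rw [Measure.volume_eq_prod, integral_prod_mul, hgv, hhv] at this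
    exact this.trans (by ring)
  have heq : EqOn (fun ζ : ℂ => g ζ.re * h ζ.im) (fun ζ : ℂ => g ζ.re) (Metric.ball c R) := by
    intro ζ hζ
    have h1 : |(ζ - c).im| ≤ ‖ζ - c‖ := Complex.abs_im_le_norm _
    rw [mem_ball_iff_norm] at hζ
    rw [Complex.sub_im, abs_le] at h1
    have h2 : ζ.im ∈ Icc (c.im - R) (c.im + R) := ⟨by linarith [h1.1], by linarith [h1.2]⟩
    simp only [hh, indicator_of_mem h2, mul_one]
  refine ⟨hq.integrableOn.congr_fun heq Metric.isOpen_ball.measurableSet, ?_⟩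
  rw [← hv]
  refine (setIntegral_congr_fun Metric.isOpen_ball.measurableSet heq).symm.trans_le
    (setIntegral_le_integral hq (Eventually.of_forall fun ζ => ?_))
  exact mul_nonneg Real.posLog_nonneg (indicator_nonneg (fun _ _ => zero_le_one) _)

theorem ae_re_ne (x : ℝ) : ∀ᵐ ζ : ℂ, ζ.re ≠ x := by
  have h1 : ∀ᵐ u : ℝ, u ≠ x := compl_mem_ae_iff.2 (Real.volume_singleton (a := x))
  have h2 : ∀ᵐ p : ℝ × ℝ, p.1 ≠ x := Measure.quasiMeasurePreserving_fst.ae h1
  exact Complex.volume_preserving_equiv_real_prod.quasiMeasurePreserving.ae h2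

theorem ae_im_ne (y : ℝ) : ∀ᵐ ζ : ℂ, ζ.im ≠ y := by
  have h1 : ∀ᵐ u : ℝ, u ≠ y := compl_mem_ae_iff.2 (Real.volume_singleton (a := y))
  have h2 : ∀ᵐ p : ℝ × ℝ, p.2 ≠ y := Measure.quasiMeasurePreserving_snd.ae h1
  exact Complex.volume_preserving_equiv_real_prod.quasiMeasurePreserving.ae h2

theorem ae_norm_ne (c : ℂ) (r : ℝ) : ∀ᵐ ζ : ℂ, ‖ζ - c‖ ≠ r := by
  filter_upwards [compl_mem_ae_iff.2 (Measure.addHaar_sphere (volume : Measure ℂ) c r)] with ζ hζ
  exact fun h => hζ (mem_sphere_iff_norm.2 h)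

/-- a measurable density bounded by `K Φ` is integrable on balls, also against `gk` -/
theorem integrableOn_of_le {F : Frame} {ρ : ℂ → ℝ} {K : ℝ} (hm : Measurable ρ) (h0 : ∀ z, 0 ≤ ρ z)
    (hK : ∀ z, ρ z ≤ K * F.Φ z.re) (c : ℂ) (R : ℝ) : IntegrableOn ρ (Metric.ball c R) := by
  have hc : Continuous fun z : ℂ => K * F.Φ z.re :=
    continuous_const.mul (F.continuous_Φ.comp Complex.continuous_re)
  have h1 : IntegrableOn (fun z : ℂ => K * F.Φ z.re) (Metric.ball c R) :=
    (hc.continuousOn.integrableOn_compact (isCompact_closedBall c R)).mono_set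
      Metric.ball_subset_closedBall
  refine h1.mono' hm.aestronglyMeasurable (Eventually.of_forall fun z => ?_)
  rw [Real.norm_of_nonneg (h0 z)]
  exact hK z

theorem integrable_pot_of_le {F : Frame} {ρ : ℂ → ℝ} {K : ℝ} (hm : Measurable ρ) (h0 : ∀ z, 0 ≤ ρ z)
    (hK : ∀ z, ρ z ≤ K * F.Φ z.re) (s : ℝ) (z : ℂ) : Integrable fun ζ => ρ ζ * gk s (ζ - z) := by
  have hc : Continuous fun z : ℂ => K * F.Φ z.re :=
    continuous_const.mul (F.continuous_Φ.comp Complex.continuous_re)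
  obtain ⟨C, hC⟩ := (isCompact_closedBall z |s|).exists_bound_of_continuousOn hc.continuousOn
  have hg : Integrable fun ζ => gk s (ζ - z) := (integrable_gk s).comp_sub_right z
  refine (hg.const_mul C).mono' (hm.aestronglyMeasurable.mul hg.aestronglyMeasurable)
    (Eventually.of_forall fun ζ => ?_)
  have hg0 : 0 ≤ gk s (ζ - z) := Real.posLog_nonneg
  rw [Real.norm_of_nonneg (mul_nonneg (h0 ζ) hg0)]
  by_cases h : ζ ∈ Metric.closedBall z |s|
  · exact mul_le_mul_of_nonneg_right ((hK ζ).trans ((le_abs_self _).trans (hC ζ h))) hg0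
  · rw [mem_closedBall_iff_norm, not_le] at h
    have h1 : gk s (ζ - z) = 0 := by
      have hp : 0 < ‖ζ - z‖ := (abs_nonneg s).trans_lt h
      unfold gk
      rw [Real.posLog_eq_zero_iff, abs_div, abs_of_pos hp, div_le_one hp]
      exact h.le
    rw [h1, mul_zero, mul_zero]

end

end Pool.Agent.MinMod.Mo
end

-- merged part: Pool.Agent.Work.MP_f62247_an.Mo.I5
section
/-!
# The smoothing operator `tav` and its density
Main identity `ca_tav`. With `N = log ‖·‖` one has `gk r v = ca N v r - N v` for `v ≠ 0` (`ca_log`, `gk_eq`). So for a.e. `v`: `ca (gk r) v s - gk r v = ca (gk s) v r - gk s v` (both are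
`ca (ca N · r) v s - ca N v s - ca N v r + N v`; `ca N · r = log (max r ‖·‖)` is continuous, the two iterated averages agree by Fubini on `[0,2π]²`, the function `(θ,θ') ↦ N (v + s e^{iθ} + r e^{iθ'})` being integrable:
its negative part has inner integral bounded because `ca (gk 1) · r` is bounded, or work with `lintegral`). Then Fubini with the continuous `f` and the compactly supported integrable `gk` (translation invariance of the volume, `gk_neg`):
`ca (tav r f) z s = c ∫ f(z+v) ca (gk r) v s dv`, `∫ (ca f (z+v) r) gk s v dv = ∫ f(z+v) ca (gk s) v r dv`.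
-/

open Real MeasureTheory Set Filter Topology

namespace Pool.Agent.MinMod.Mo

noncomputable section

theorem integrable_pot {ρ : ℂ → ℝ} (hρ : Continuous ρ) (s : ℝ) (z : ℂ) :
    Integrable fun ζ => ρ ζ * gk s (ζ - z) := by
  refine (IntegrableOn.continuousOn_mul hρ.continuousOn
    ((integrable_gk s).comp_sub_right z).integrableOn
    (isCompact_closedBall z |s|)).integrable_of_forall_notMem_eq_zero fun ζ h => ?_
  rw [mem_closedBall_iff_norm, not_le] at h
  rw [gk, (posLog_eq_zero_iff _).2, mul_zero]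
  rw [abs_div, abs_norm]
  exact div_le_one_of_le₀ h.le (norm_nonneg _)

theorem i5_pot (ρ : ℂ → ℝ) (s : ℝ) (z : ℂ) : pot ρ s z = ∫ v, gk s v * ρ (z + v) := by
  rw [pot, ← integral_add_left_eq_self _ z]
  simp only [add_sub_cancel_left, mul_comm]

theorem i5_int {ρ : ℂ → ℝ} (hρ : Continuous ρ) (s : ℝ) (z : ℂ) :
    Integrable fun v => gk s v * ρ (z + v) := by
  simpa only [add_sub_cancel_left, mul_comm] using (integrable_pot hρ s z).comp_add_left z

theorem i5_tav (r : ℝ) (f : ℂ → ℝ) (z : ℂ) : tav r f z = (π * r ^ 2 / 2)⁻¹ * pot f r z := by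
  rw [tav, i5_pot]

theorem i5_sub {f g : ℂ → ℝ} (hf : Continuous f) (hg : Continuous g) (s : ℝ) (z : ℂ) :
    pot (fun w => f w - g w) s z = pot f s z - pot g s z := by
  simp only [pot, sub_mul]
  exact integral_sub (integrable_pot hf s z) (integrable_pot hg s z)

theorem continuous_pot {ρ : ℂ → ℝ} (hρ : Continuous ρ) {s : ℝ} (hs : 0 < s) :
    Continuous (pot ρ s) := by
  rw [funext (i5_pot ρ s)]
  refine continuous_iff_continuousAt.2 fun z => ?_
  obtain ⟨C, hC⟩ := (isCompact_closedBall z (1 + s)).exists_bound_of_continuousOn hρ.continuousOn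
  refine continuousAt_of_dominated (bound := fun v => gk s v * C)
    (Eventually.of_forall fun w => (i5_int hρ s w).aestronglyMeasurable) ?_
    ((integrable_gk s).mul_const C) (Eventually.of_forall fun v => by fun_prop)
  filter_upwards [Metric.closedBall_mem_nhds z one_pos] with w hw
  refine Eventually.of_forall fun v => ?_
  rcases le_total s ‖v‖ with h | h
  · simp [gk_eq_zero hs.le h]
  · rw [norm_mul, Real.norm_of_nonneg (gk_nonneg s v)]
    refine mul_le_mul_of_nonneg_left (hC _ ?_) (gk_nonneg s v)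
    rw [mem_closedBall_iff_norm] at hw ⊢
    rw [add_sub_right_comm]
    exact (norm_add_le _ _).trans (add_le_add hw h)

theorem pot_nonneg {ρ : ℂ → ℝ} {s : ℝ} (hs : 0 < s) {z : ℂ} (h : ∀ ζ, ‖ζ - z‖ < s → 0 ≤ ρ ζ) :
    0 ≤ pot ρ s z := by
  refine integral_nonneg fun ζ => ?_
  rcases lt_or_ge ‖ζ - z‖ s with k | k
  · exact mul_nonneg (h ζ k) (gk_nonneg _ _)
  · simp [gk_eq_zero hs.le k]

theorem pot_congr {ρ ρ' : ℂ → ℝ} {s : ℝ} (hs : 0 < s) {z : ℂ} (h : ∀ ζ, ‖ζ - z‖ < s → ρ ζ = ρ' ζ) :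
    pot ρ s z = pot ρ' s z := by
  refine integral_congr_ae (Eventually.of_forall fun ζ => ?_)
  rcases lt_or_ge ‖ζ - z‖ s with k | k
  · simp only [h ζ k]
  · simp [gk_eq_zero hs.le k]

theorem pot_shift (ρ : ℂ → ℝ) (s : ℝ) (z c : ℂ) :
    pot (fun ζ => ρ (ζ + c)) s z = pot ρ s (z + c) := by
  simp only [i5_pot, add_right_comm]

theorem continuous_tav {f : ℂ → ℝ} (hf : Continuous f) {r : ℝ} (hr : 0 < r) :
    Continuous (tav r f) := by
  rw [funext (i5_tav r f)]
  exact continuous_const.mul (continuous_pot hf hr)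

theorem continuous_den {f : ℂ → ℝ} (hf : Continuous f) (r : ℝ) : Continuous (den r f) := by
  exact continuous_const.mul ((continuous_ca hf r).sub hf)

theorem tav_shift (r : ℝ) (f : ℂ → ℝ) (z c : ℂ) : tav r (fun w => f (w + c)) z = tav r f (z + c) := by
  simp only [tav, add_right_comm]

theorem tav_le {f g : ℂ → ℝ} (hf : Continuous f) (hg : Continuous g) {r : ℝ} (hr : 0 < r) {z : ℂ}
    (h : ∀ w, ‖w - z‖ ≤ r → f w ≤ g w) : tav r f z ≤ tav r g z := by
  have k := pot_nonneg (ρ := fun w => g w - f w) hr fun w hw => sub_nonneg.2 (h w hw.le)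
  rw [i5_sub hg hf, sub_nonneg] at k
  rw [i5_tav, i5_tav]
  exact mul_le_mul_of_nonneg_left k (by positivity)

theorem tav_const {r : ℝ} (hr : 0 < r) (c : ℝ) (z : ℂ) : tav r (fun _ => c) z = c := by
  rw [tav, integral_mul_const, integral_gk hr, inv_mul_cancel_left₀ (by positivity)]

theorem abs_tav_sub_le {f : ℂ → ℝ} (hf : Continuous f) {r η : ℝ} (hr : 0 < r) {z : ℂ}
    (h : ∀ w, ‖w - z‖ ≤ r → |f w - f z| ≤ η) : |tav r f z - f z| ≤ η := by
  have h1 := tav_le (g := fun _ => f z + η) hf continuous_const hr fun w hw => by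
    linarith [(abs_le.1 (h w hw)).2]
  have h2 := tav_le (f := fun _ => f z - η) continuous_const hf hr fun w hw => by
    linarith [(abs_le.1 (h w hw)).1]
  rw [tav_const hr] at h1 h2
  exact abs_le.2 ⟨by linarith, by linarith⟩

theorem le_tav {f : ℂ → ℝ} (hf : Continuous f) {r : ℝ} (hr : 0 < r) {z : ℂ}
    (h : ∀ t, 0 < t → t < r → f z ≤ ca f z t) : f z ≤ tav r f z := by
  have hc : Continuous fun w => f w - f z := hf.sub continuous_const
  have k := le_da_of_ca (a := 0) (z := z) hr (integrable_pot hc r z).integrableOn fun t t0 t1 => by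
    have c1 : CircleIntegrable f z t := ci_of_cont hf.continuousOn t0.le (subset_univ _)
    rw [ca, circleAverage_congr_sphere (f₂ := fun w => posLog (r / t) • (f w - f z)) fun w hw => by
      rw [mem_sphere_iff_norm, abs_of_pos t0] at hw
      simp only [gk, hw, smul_eq_mul, mul_comm],
      circleAverage_fun_smul, circleAverage_fun_sub c1 (circleIntegrable_const _ _ _),
      circleAverage_const]
    exact mul_nonneg posLog_nonneg (sub_nonneg.2 (h t t0 t1))
  rw [da, setIntegral_eq_integral_of_forall_compl_eq_zero fun w hw => by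
    rw [gk_eq_zero hr.le (not_lt.1 fun e => hw (mem_ball_iff_norm.2 e)), mul_zero]] at k
  have k2 : 0 ≤ pot (fun w => f w - f z) r z := nonneg_of_mul_nonneg_right k (by positivity)
  rw [i5_sub hf continuous_const, sub_nonneg] at k2
  rw [← tav_const hr (f z) z, i5_tav, i5_tav]
  exact mul_le_mul_of_nonneg_left k2 (by positivity)

theorem tav_eq {f : ℂ → ℝ} (hf : Continuous f) {r : ℝ} (hr : 0 < r) {z : ℂ}
    (h : ∀ t, 0 < t → t < r → ca f z t = f z) : tav r f z = f z := by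
  refine le_antisymm ?_ (le_tav hf hr fun t t0 t1 => (h t t0 t1).ge)
  have k := le_tav (f := fun w => (-1 : ℝ) • f w) (z := z) (by fun_prop) hr fun t t0 t1 => by
    rw [ca, circleAverage_fun_smul, ← h t t0 t1]
  simpa [tav, integral_neg] using k

/-- circle averages commute with integrals -/
theorem i5_fub {X : Type} [MeasurableSpace X] {μ : Measure X} [SFinite μ] {F : ℂ → X → ℝ}
    (hm : Measurable fun p : ℂ × X => F p.1 p.2) (h1 : ∀ w, Integrable (F w) μ)
    (h2 : Continuous fun w => ∫ x, ‖F w x‖ ∂μ) (z : ℂ) (s : ℝ) :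
    Integrable (fun x => ca (fun w => F w x) z s) μ ∧
      ca (fun w => ∫ x, F w x ∂μ) z s = ∫ x, ca (fun w => F w x) z s ∂μ := by
  have hi : Integrable (Function.uncurry fun θ x => F (circleMap z s θ) x)
      ((volume.restrict (uIoc 0 (2 * π))).prod μ) :=
    (integrable_prod_iff (hm.comp ((continuous_circleMap z s).measurable.prodMap
      measurable_id)).aestronglyMeasurable).2 ⟨Eventually.of_forall fun θ => h1 _,
        (h2.comp (continuous_circleMap z s)).integrableOn_uIoc⟩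
  simp only [circleAverage_def, smul_eq_mul, integral_const_mul]
  refine ⟨Integrable.const_mul ?_ _, congrArg _ (intervalIntegral_integral_swap hi)⟩
  simpa only [intervalIntegral.integral_of_le two_pi_pos.le, uIoc_of_le two_pi_pos.le,
    Function.uncurry_apply_pair] using hi.integral_prod_right

theorem i5_comm {g : ℂ → ℝ} (hm : Measurable g) (h0 : ∀ w, 0 ≤ g w) {r : ℝ}
    (h1 : ∀ w, CircleIntegrable g w r) (h2 : Continuous fun w => ca g w r) (v : ℂ) (s : ℝ) :
    ca (fun w => ca g w r) v s = ca (fun w => ca g w s) v r := by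
  have e : ∀ (u : ℂ → ℝ) (w : ℂ), ca u w r =
      ∫ θ in Ioc 0 (2 * π), (2 * π)⁻¹ * u (w + circleMap 0 r θ) := fun u w => by
    simp only [circleAverage_def, smul_eq_mul, integral_const_mul, circleMap, zero_add,
      intervalIntegral.integral_of_le two_pi_pos.le]
  have k := (i5_fub (μ := volume.restrict (Ioc 0 (2 * π)))
    (F := fun w θ => (2 * π)⁻¹ * g (w + circleMap 0 r θ)) (measurable_const.mul (hm.comp
      (measurable_fst.add ((continuous_circleMap 0 r).measurable.comp measurable_snd))))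
    (fun w => by simpa only [circleMap, zero_add] using (h1 w).1.const_mul _)
    (h2.congr fun w => by
      rw [e]
      exact integral_congr_ae (Eventually.of_forall fun θ =>
        (Real.norm_of_nonneg (mul_nonneg (by positivity) (h0 _))).symm)) v s).2
  rw [e (fun w => ca g w s), funext (e g), k]
  refine integral_congr_ae (Eventually.of_forall fun θ => ?_)
  exact (circleAverage_fun_smul (a := (2 * π)⁻¹)).trans (congrArg _ (ca_shift g v _ s))

theorem i5_cont {r : ℝ} (hr : 0 < r) : Continuous fun w : ℂ => Real.log (max r ‖w‖) :=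
  (continuous_const.max continuous_norm).log fun _ => (hr.trans_le (le_max_left _ _)).ne'

theorem i5_ca_gk {r s : ℝ} (hr : 0 < r) (hs : 0 < s) (v : ℂ) : CircleIntegrable (gk r) v s ∧
    ca (gk r) v s = ca (fun w => Real.log (max r ‖w‖)) v s - Real.log (max s ‖v‖) := by
  have e : (fun w => Real.log (max r ‖w‖) - Real.log ‖w - 0‖) =ᶠ[codiscreteWithin
      (Metric.sphere v |s|)] gk r := by
    filter_upwards [compl_singleton_mem_codiscreteWithin 0] with w hw
    rw [gk_eq hr hw, sub_zero]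
  have c1 := ci_of_cont (i5_cont hr).continuousOn hs.le (subset_univ (Metric.closedBall v s))
  have c2 := circleIntegrable_log_norm_sub_const (a := 0) (c := v) s
  refine ⟨CircleIntegrable.congr_codiscreteWithin e (c1.sub c2), ?_⟩
  rw [ca, ← circleAverage_congr_codiscreteWithin e hs.ne', circleAverage_fun_sub c1 c2,
    show circleAverage _ v s = _ from ca_log 0 v hs, zero_sub, norm_neg]

theorem i5_ker {r s : ℝ} (hr : 0 < r) (hs : 0 < s) {v : ℂ} (hv : v ≠ 0) :
    ca (gk r) v s + gk s v = ca (gk s) v r + gk r v := by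
  have c1 := i5_cont one_pos
  have c2 : ∀ {f : ℂ → ℝ} {t : ℝ} (w : ℂ), Continuous f → 0 < t → CircleIntegrable f w t :=
    fun w hf ht => ci_of_cont hf.continuousOn ht.le (subset_univ _)
  have k1 := i5_comm c1.measurable (fun w => log_nonneg (le_max_left _ _))
    (fun w => c2 w c1 hr) (continuous_ca c1 r) v s
  have k2 := i5_comm (measurable_gk 1) (gk_nonneg 1) (fun w => (i5_ca_gk one_pos hr w).1)
    (((continuous_ca c1 r).sub (i5_cont hr)).congr fun w => (i5_ca_gk one_pos hr w).2.symm) v s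
  rw [funext fun w => (i5_ca_gk one_pos hr w).2, funext fun w => (i5_ca_gk one_pos hs w).2, ca, ca,
    circleAverage_fun_sub (c2 v (continuous_ca c1 r) hs) (c2 v (i5_cont hr) hs),
    circleAverage_fun_sub (c2 v (continuous_ca c1 s) hr) (c2 v (i5_cont hs) hr)] at k2
  rw [(i5_ca_gk hr hs v).2, (i5_ca_gk hs hr v).2, gk_eq hr hv, gk_eq hs hv]
  simp only [ca] at k1 k2 ⊢
  linarith

theorem i5_f1 {f : ℂ → ℝ} (hf : Continuous f) {r : ℝ} (hr : 0 < r) (s : ℝ) (z : ℂ) :
    Integrable (fun ζ => f ζ * ca (gk r) (z - ζ) s) ∧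
      ca (pot f r) z s = ∫ ζ, f ζ * ca (gk r) (z - ζ) s := by
  have k := i5_fub (μ := volume) (F := fun w ζ => f ζ * gk r (ζ - w))
    ((hf.measurable.comp measurable_snd).mul
      ((measurable_gk r).comp (measurable_snd.sub measurable_fst)))
    (integrable_pot hf r) ((continuous_pot hf.norm hr).congr fun w => by
      simp only [pot, norm_mul, Real.norm_of_nonneg (gk_nonneg _ _)]) z s
  have e : ∀ ζ, ca (fun w => f ζ * gk r (ζ - w)) z s = f ζ * ca (gk r) (z - ζ) s := fun ζ => by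
    refine (circleAverage_fun_smul (a := f ζ)).trans (congrArg _ ?_)
    rw [sub_eq_add_neg z, ← ca_shift]
    exact congrArg (ca · z s) (funext fun w => by rw [← gk_neg, neg_sub, sub_eq_add_neg])
  simp only [e] at k
  exact k

theorem i5_f2 {f : ℂ → ℝ} (hf : Continuous f) (r : ℝ) {s : ℝ} (hs : 0 < s) (z : ℂ) :
    pot (fun w => ca f w r) s z = ca (pot f s) z r := by
  rw [funext (i5_pot f s), (i5_fub (μ := volume) (F := fun w v => gk s v * f (w + v))
    (((measurable_gk s).comp measurable_snd).mul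
      (hf.measurable.comp (measurable_fst.add measurable_snd)))
    (i5_int hf s) ((continuous_pot hf.norm hs).congr fun w => by
      simp only [i5_pot, norm_mul, Real.norm_of_nonneg (gk_nonneg _ _)]) z r).2, i5_pot]
  exact integral_congr_ae (Eventually.of_forall fun v =>
    ((circleAverage_fun_smul (a := gk s v)).trans (congrArg _ (ca_shift f z v r))).symm)

theorem ca_tav {f : ℂ → ℝ} (hf : Continuous f) {r s : ℝ} (hr : 0 < r) (hs : 0 < s) (z : ℂ) :
    ca (tav r f) z s = tav r f z + pot (den r f) s z := by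
  have k : pot (den r f) s z = (π * r ^ 2 / 2)⁻¹ * (ca (pot f s) z r - pot f s z) := by
    rw [← i5_f2 hf r hs, ← i5_sub (continuous_ca hf r) hf, pot, pot, ← integral_const_mul]
    simp only [den, mul_assoc]
  rw [k, i5_tav r f z, funext (i5_tav r f), ← mul_add]
  refine (circleAverage_fun_smul (a := (π * r ^ 2 / 2)⁻¹) (f := pot f r)).trans (congrArg _ ?_)
  obtain ⟨a1, a2⟩ := i5_f1 hf hr s z
  obtain ⟨b1, b2⟩ := i5_f1 hf hs r z
  rw [← add_sub_assoc, eq_sub_iff_add_eq, add_comm (pot f r z), b2]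
  refine (congrArg (· + _) a2).trans ?_
  rw [pot, pot, ← integral_add a1 (integrable_pot hf s z), ← integral_add b1 (integrable_pot hf r z)]
  refine integral_congr_ae ?_
  filter_upwards [compl_mem_ae_iff.2 (measure_singleton z)] with ζ h
  rw [← mul_add, ← mul_add, ← gk_neg s, ← gk_neg r, neg_sub,
    i5_ker hr hs (sub_ne_zero.2 (Ne.symm h))]

end

end Pool.Agent.MinMod.Mo
end

-- merged part: Pool.Agent.Work.MP_f62247_an.Mo.K5
section
/-!
# The weighted mass of a density in the band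
Let `s = 1/20000`, `W z = exp (-3 |re z - x|)` on `{|ht| ≤ 1}` and `0` elsewhere. Then `∫ W z * pot S s z dz ≤ δ Φ x ∫ 2 exp (-|x' - x|) dx' = 4 δ Φ x` (`Φ_le`; `Complex.volume_preserving_equiv_real_prod`, every vertical section of `{|ht| ≤ 1}` has length 2),
and for `ζ` in the band `∫ W z * gk s (ζ - z) dz ≥ exp (-3 s) exp (-3 |re ζ - x|) π s²/2` (`integral_gk`). Tonelli (work with `lintegral`). Integrability also follows directly from `S ≤ K Φ` and the support.
-/

open Real MeasureTheory Set Filter Topology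

namespace Pool.Agent.MinMod.Mo

noncomputable section

theorem k5_exp : Integrable fun u : ℝ => exp (-|u|) := by
  have h1 : IntegrableOn (fun u : ℝ => exp (-|u|)) (Iic 0) :=
    (integrableOn_exp_Iic 0).congr_fun (fun u hu => by
      simp only [abs_of_nonpos (mem_Iic.1 hu), neg_neg]) measurableSet_Iic
  have h2 : IntegrableOn (fun u : ℝ => exp (-|u|)) (Ioi 0) :=
    (integrableOn_exp_neg_Ioi 0).congr_fun (fun u hu => by
      simp only [abs_of_pos (mem_Ioi.1 hu)]) measurableSet_Ioi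
  have := h1.union h2
  rwa [Iic_union_Ioi, integrableOn_univ] at this

/-- the weight on the band -/
def k5_B (F : Frame) (x : ℝ) (z : ℂ) : ℝ := if |F.ht z| ≤ 1 then exp (-|z.re - x|) else 0

theorem k5_B_nonneg (F : Frame) (x : ℝ) (z : ℂ) : 0 ≤ k5_B F x z := by
  unfold k5_B
  split_ifs
  · exact (exp_pos _).le
  · exact le_rfl

theorem k5_B_meas (F : Frame) (x : ℝ) : Measurable (k5_B F x) :=
  Measurable.ite (measurableSet_le F.continuous_ht.abs.measurable measurable_const)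
    (by fun_prop) measurable_const

theorem k5_band (F : Frame) (x : ℝ) :
    ∫⁻ z, ENNReal.ofReal (k5_B F x z) = ENNReal.ofReal (2 * ∫ u : ℝ, exp (-|u|)) := by
  have hm : Measurable fun q : ℝ × ℝ =>
      ENNReal.ofReal (k5_B F x (Complex.measurableEquivRealProd.symm q)) :=
    ((k5_B_meas F x).comp Complex.measurableEquivRealProd.symm.measurable).ennreal_ofReal
  rw [← (Complex.volume_preserving_equiv_real_prod.symm _).lintegral_comp
    (k5_B_meas F x).ennreal_ofReal, Measure.volume_eq_prod, lintegral_prod _ hm.aemeasurable]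
  have inner : ∀ a : ℝ, ∫⁻ b, ENNReal.ofReal (k5_B F x (Complex.measurableEquivRealProd.symm (a, b))) =
      ENNReal.ofReal (2 * exp (-|a - x|)) := by
    intro a
    have e : (fun b => ENNReal.ofReal (k5_B F x (Complex.measurableEquivRealProd.symm (a, b)))) =
        (Icc (F.φ a - 1) (F.φ a + 1)).indicator fun _ => ENNReal.ofReal (exp (-|a - x|)) := by
      funext b
      have : |b - F.φ a| ≤ 1 ↔ b ∈ Icc (F.φ a - 1) (F.φ a + 1) := by
        rw [abs_le, mem_Icc]
        constructor <;> rintro ⟨h1, h2⟩ <;> constructor <;> linarith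
      simp only [k5_B, Frame.ht, Complex.measurableEquivRealProd_symm_apply, this, indicator]
      split_ifs <;> simp
    rw [e, lintegral_indicator_const measurableSet_Icc, Real.volume_Icc,
      ← ENNReal.ofReal_mul (exp_pos _).le]
    congr 1
    ring
  simp only [inner]
  rw [lintegral_sub_right_eq_self (fun a => ENNReal.ofReal (2 * exp (-|a|))) x,
    ← ofReal_integral_eq_lintegral_ofReal (k5_exp.const_mul 2)
      (Eventually.of_forall fun u => by positivity), integral_const_mul]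

theorem k5_pt {F : Frame} {μ : ℝ} (hF : F.Good μ) (h1 : μ ≤ 1) (x : ℝ) {S : ℂ → ℝ}
    (h0 : ∀ z, 0 ≤ S z) (hs : ∀ z, S z ≠ 0 → 0 ≤ F.ht z ∧ F.ht z ≤ 1 / 2) (p z : ℂ) :
    S p * exp (-3 * |p.re - x|) * gk (1 / 20000) (p - z) ≤
      (exp 1 * (k5_B F x z * exp (-2 * |z.re - x|))) * (S p * gk (1 / 20000) (p - z)) := by
  by_cases hp : S p = 0
  · simp [hp]
  by_cases hz : 1 / 20000 ≤ ‖p - z‖
  · rw [gk_eq_zero (by norm_num) hz]
    simp
  push Not at hz
  have a1 := hF.ht_sub h1 z p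
  have a2 := Frame.f1_re z p
  obtain ⟨a3, a4⟩ := hs p hp
  have hb : |F.ht z| ≤ 1 := by
    rw [abs_le] at a1 ⊢
    constructor <;> linarith [a1.1, a1.2]
  have a5 : |z.re - x| ≤ |p.re - x| + |p.re - z.re| := by
    have := abs_sub_le z.re p.re x
    rw [abs_sub_comm z.re p.re] at this
    linarith
  have key : exp (-3 * |p.re - x|) ≤ exp 1 * (k5_B F x z * exp (-2 * |z.re - x|)) := by
    rw [k5_B, if_pos hb, ← exp_add, ← exp_add]
    exact exp_le_exp.2 (by linarith)
  have := mul_le_mul_of_nonneg_right key (mul_nonneg (h0 p) (gk_nonneg (1 / 20000) (p - z)))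
  linarith

theorem k5_main {F : Frame} {μ δ : ℝ} (hF : F.Good μ) (h1 : μ ≤ 1) (x : ℝ) {S : ℂ → ℝ}
    (hc : Continuous S) (h0 : ∀ z, 0 ≤ S z) (hs : ∀ z, S z ≠ 0 → 0 ≤ F.ht z ∧ F.ht z ≤ 1 / 2)
    (hδ : 0 ≤ δ) (hp : ∀ z, pot S (1 / 20000) z ≤ δ * F.Φ z.re) :
    ∫⁻ p, ENNReal.ofReal (S p * exp (-3 * |p.re - x|) * (π * (1 / 20000) ^ 2 / 2)) ≤
      ENNReal.ofReal (exp 1 * (δ * F.Φ x) * (2 * ∫ u : ℝ, exp (-|u|))) := by
  have hΦ := F.Φ_pos x
  have hg : ∀ p : ℂ, 0 ≤ S p * exp (-3 * |p.re - x|) := fun p => mul_nonneg (h0 p) (exp_pos _).le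
  have hW : ∀ z : ℂ, 0 ≤ exp 1 * (k5_B F x z * exp (-2 * |z.re - x|)) := fun z =>
    mul_nonneg (exp_pos _).le (mul_nonneg (k5_B_nonneg F x z) (exp_pos _).le)
  have e1 : ∀ p : ℂ, ENNReal.ofReal (S p * exp (-3 * |p.re - x|) * (π * (1 / 20000) ^ 2 / 2)) =
      ∫⁻ z, ENNReal.ofReal (S p * exp (-3 * |p.re - x|) * gk (1 / 20000) (p - z)) := by
    intro p
    rw [lintegral_sub_left_eq_self
        (fun v => ENNReal.ofReal (S p * exp (-3 * |p.re - x|) * gk (1 / 20000) v)) p,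
      ← ofReal_integral_eq_lintegral_ofReal ((integrable_gk _).const_mul _)
        (Eventually.of_forall fun v => mul_nonneg (hg p) (gk_nonneg _ _)),
      integral_const_mul, integral_gk (by norm_num)]
  have hm : Measurable fun q : ℂ × ℂ => ENNReal.ofReal
      ((exp 1 * (k5_B F x q.2 * exp (-2 * |q.2.re - x|))) * (S q.1 * gk (1 / 20000) (q.1 - q.2))) := by
    refine Measurable.ennreal_ofReal (Measurable.mul (Measurable.const_mul (Measurable.mul
      ((k5_B_meas F x).comp measurable_snd) (by fun_prop)) _) (Measurable.mul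
      (hc.measurable.comp measurable_fst) ((measurable_gk _).comp (by fun_prop))))
  calc ∫⁻ p, ENNReal.ofReal (S p * exp (-3 * |p.re - x|) * (π * (1 / 20000) ^ 2 / 2))
      ≤ ∫⁻ p, ∫⁻ z, ENNReal.ofReal ((exp 1 * (k5_B F x z * exp (-2 * |z.re - x|))) *
          (S p * gk (1 / 20000) (p - z))) := by
        refine lintegral_mono fun p => ?_
        rw [e1]
        exact lintegral_mono fun z => ENNReal.ofReal_le_ofReal (k5_pt hF h1 x h0 hs p z)
    _ = ∫⁻ z, ∫⁻ p, ENNReal.ofReal ((exp 1 * (k5_B F x z * exp (-2 * |z.re - x|))) *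
          (S p * gk (1 / 20000) (p - z))) := lintegral_lintegral_swap hm.aemeasurable
    _ ≤ ∫⁻ z, ENNReal.ofReal (exp 1 * (δ * F.Φ x)) * ENNReal.ofReal (k5_B F x z) := by
        refine lintegral_mono fun z => ?_
        rw [← ofReal_integral_eq_lintegral_ofReal ((integrable_pot hc _ z).const_mul _)
          (Eventually.of_forall fun p => mul_nonneg (hW z) (mul_nonneg (h0 p) (gk_nonneg _ _))),
          integral_const_mul, ← ENNReal.ofReal_mul (by positivity)]
        refine ENNReal.ofReal_le_ofReal ?_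
        have b1 : F.Φ z.re ≤ exp (2 * |z.re - x|) * F.Φ x := hF.Φ_le h1 le_rfl
        have b2 : pot S (1 / 20000) z ≤ δ * (exp (2 * |z.re - x|) * F.Φ x) :=
          (hp z).trans (mul_le_mul_of_nonneg_left b1 hδ)
        have b3 : exp (-2 * |z.re - x|) * exp (2 * |z.re - x|) = 1 := by
          rw [← exp_add]; simp
        refine (mul_le_mul_of_nonneg_left b2 (hW z)).trans (le_of_eq ?_)
        linear_combination (exp 1 * k5_B F x z * δ * F.Φ x) * b3
    _ = _ := by
        rw [lintegral_const_mul _ (k5_B_meas F x).ennreal_ofReal, k5_band,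
          ← ENNReal.ofReal_mul (by positivity)]

theorem mass_exp : ∃ C : ℝ, 0 < C ∧ ∀ (F : Frame) (μ K δ x : ℝ) (S : ℂ → ℝ), F.Good μ → μ ≤ 1 / 100 →
    Continuous S → (∀ z, 0 ≤ S z) → (∀ z, S z ≤ K * F.Φ z.re) →
    (∀ z, S z ≠ 0 → 0 ≤ F.ht z ∧ F.ht z ≤ 1 / 2) → (∀ z, pot S (1 / 20000) z ≤ δ * F.Φ z.re) →
    Integrable (fun p => S p * exp (-3 * |p.re - x|)) ∧
      ∫ p, S p * exp (-3 * |p.re - x|) ≤ C * δ * F.Φ x ∧
      ∀ z : ℂ, z.re = x → pot S 1 z ≤ C * δ * F.Φ x := by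
  have hI : 0 ≤ ∫ u : ℝ, exp (-|u|) := integral_nonneg fun u => (exp_pos _).le
  have hπ : 0 < π * (1 / 20000) ^ 2 / 2 := by have := pi_pos; positivity
  obtain ⟨C1, hC1, e1⟩ : ∃ C1 : ℝ, 0 ≤ C1 ∧
      C1 * (π * (1 / 20000) ^ 2 / 2) = exp 1 * (2 * ∫ u : ℝ, exp (-|u|)) :=
    ⟨exp 1 * (2 * ∫ u : ℝ, exp (-|u|)) / (π * (1 / 20000) ^ 2 / 2), by positivity,
      div_mul_cancel₀ _ hπ.ne'⟩
  have hL : 0 ≤ Real.log (1 / (1 / 20000)) := Real.log_nonneg (by norm_num)
  refine ⟨1 + C1 + Real.log (1 / (1 / 20000)) * exp 3 * C1, by positivity, ?_⟩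
  intro F μ K δ x S hF h1 hc h0 _ hs hp
  have hΦ := F.Φ_pos x
  have hδ : 0 ≤ δ := nonneg_of_mul_nonneg_left
    ((pot_nonneg (by norm_num) fun ζ _ => h0 ζ).trans (hp 0)) (F.Φ_pos _)
  have hg : ∀ p : ℂ, 0 ≤ S p * exp (-3 * |p.re - x|) := fun p => mul_nonneg (h0 p) (exp_pos _).le
  have key := k5_main hF (by linarith) x hc h0 hs hδ hp
  have cg : Continuous fun p : ℂ => S p * exp (-3 * |p.re - x|) := by fun_prop
  have i1 : Integrable fun p : ℂ => S p * exp (-3 * |p.re - x|) * (π * (1 / 20000) ^ 2 / 2) :=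
    ⟨(cg.mul continuous_const).aestronglyMeasurable,
      (hasFiniteIntegral_iff_ofReal (Eventually.of_forall fun p => mul_nonneg (hg p) hπ.le)).2
        (key.trans_lt ENNReal.ofReal_lt_top)⟩
  have i2 : Integrable fun p : ℂ => S p * exp (-3 * |p.re - x|) :=
    (integrable_mul_const_iff (isUnit_iff_ne_zero.2 hπ.ne') _).1 i1
  rw [← ofReal_integral_eq_lintegral_ofReal i1
    (Eventually.of_forall fun p => mul_nonneg (hg p) hπ.le),
    ENNReal.ofReal_le_ofReal_iff (by positivity), integral_mul_const] at key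
  have i3 : ∫ p : ℂ, S p * exp (-3 * |p.re - x|) ≤ C1 * (δ * F.Φ x) := by
    refine le_of_mul_le_mul_right (key.trans (le_of_eq ?_)) hπ
    linear_combination (-(δ * F.Φ x)) * e1
  have hd : 0 ≤ δ * F.Φ x := by positivity
  have hq : 0 ≤ Real.log (1 / (1 / 20000)) * exp 3 := by positivity
  refine ⟨i2, ?_, fun z hz => ?_⟩
  · have := mul_nonneg (mul_nonneg hq hC1) hd
    linarith
  · have pt : ∀ ζ, S ζ * gk 1 (ζ - z) ≤ S ζ * gk (1 / 20000) (ζ - z) +
        Real.log (1 / (1 / 20000)) * exp 3 * (S ζ * exp (-3 * |ζ.re - x|)) := by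
      intro ζ
      by_cases h : 1 ≤ ‖ζ - z‖
      · rw [gk_eq_zero zero_le_one h, mul_zero]
        exact add_nonneg (mul_nonneg (h0 ζ) (gk_nonneg _ _)) (mul_nonneg hq (hg ζ))
      · push Not at h
        have a1 := gk_le_add (s := 1 / 20000) (t := 1) (by norm_num) (by norm_num) (ζ - z)
        have a2 := Frame.f1_re z ζ
        rw [hz] at a2
        have a3 : 1 ≤ exp 3 * exp (-3 * |ζ.re - x|) := by
          rw [← exp_add]
          exact one_le_exp (by linarith)
        have a4 := mul_le_mul_of_nonneg_left a1 (h0 ζ)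
        have a5 := mul_le_mul_of_nonneg_left a3 (mul_nonneg hL (h0 ζ))
        linarith
    have b1 := integral_mono (integrable_pot hc 1 z)
      ((integrable_pot hc (1 / 20000) z).add (i2.const_mul _)) pt
    rw [integral_add' (integrable_pot hc (1 / 20000) z) (i2.const_mul _), integral_const_mul] at b1
    have b2 := hp z
    rw [hz] at b2
    have b3 := mul_le_mul_of_nonneg_left i3 hq
    have b4 := mul_nonneg hC1 hd
    unfold pot at b2 ⊢
    linarith

end

end Pool.Agent.MinMod.Mo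
end
end

-- merged part: Pool.Agent.Work.MP_f62247_an.Mo.D1
section
-- merged part: Pool.Agent.Work.MP_f62247_an.Mo.S1
section
/-!
# Sweeping the band above the ridge
Obstacle `ψ = u + Λ Φ T (ht)`, `T` a continuous `2π`-periodic Lipschitz bump, `0 ≤ T ≤ 1`, `T = 0` off `(y1/4, 1/5) + 2πℤ`, `T ≥ τ0 > 0` on `[y1/2, 9/50]`, `Λ τ0 ≥ |K| + 3`
(for instance `T h = max 0 (cos (h - m) - cos b)` with `m`, `b` the midpoint and half length of `(y1/4, 1/5)`). `v = ob r ψ` with the subsolution `g = u`.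
`ob_md`: for `‖h‖ ≤ d` the function `f z = v (z + h) - 2 η Th z` satisfies `f ≤ ψ` on `S = {|ht| ≤ 1/2}`, `f ≤ ca f r` (`ob_eq`, `ca_shift`, `Th_strict`), and off `N = {0 < ht < 1/4}` one has `ψ = g ≤ v`; `le_ob`. Other points by periodicity (`ob_per`, `per_int`) or `ψ z = g z`.
Then exchange the two points (`Φ_le`).
`sweep`: `v ≤ M + 20 ν Φ` on the band (`band_le`), so `v < ψ` and `ca v r = v` on `y1/2 ≤ ht ≤ 9/50`, and `v ≤ Bx u` because `cos (y1/4) + 20 ν ≤ 1 - ν`. Take `η` small, `d` from the uniform continuity of `ψ`, `r ≤ d`, `u' = tav r v`, `|u' - v| ≤ 4 η Φ`;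
`ca_tav` with `den r v ≥ 0` gives `SubOn`, `den r v = 0` gives the mean value property on `y1/2 ≤ ht ≤ 9/50` (`pot_congr`). `near`: `mv_harnack` for `V = M0 x0 + c Φ x0 - u' ≥ 0` on the unit disc with `ρ = y1/4`, `da V z 1 = M z + c Φ - da u' z 1`.
A cover point has `T = 0`, so `v = u` there.
-/

open Real MeasureTheory Set Filter Topology

namespace Pool.Agent.MinMod.Mo

noncomputable section

theorem s1_per_le (F : Frame) {A B : ℂ → ℝ} (hA : ∀ z, A (z + 2 * π * Complex.I) = A z)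
    (hB : ∀ z, B (z + 2 * π * Complex.I) = B z) (a : ℝ)
    (h : ∀ z, a - 2 * π < F.ht z → F.ht z ≤ a → A z ≤ B z) (z : ℂ) : A z ≤ B z := by
  have hp : 0 < 2 * π := by positivity
  have hA' : ∀ z, A (z + ((2 * π : ℝ) : ℂ) * Complex.I) = A z := fun z => by
    rw [← hA z]; push_cast; rfl
  have hB' : ∀ z, B (z + ((2 * π : ℝ) : ℂ) * Complex.I) = B z := fun z => by
    rw [← hB z]; push_cast; rfl
  have h1 := Int.floor_le ((a - F.ht z) / (2 * π))
  have h2 := Int.lt_floor_add_one ((a - F.ht z) / (2 * π))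
  rw [le_div_iff₀ hp] at h1
  rw [div_lt_iff₀ hp] at h2
  rw [← per_int hA' ⌊(a - F.ht z) / (2 * π)⌋ z, ← per_int hB' ⌊(a - F.ht z) / (2 * π)⌋ z]
  refine h _ ?_ ?_ <;> rw [F.ht_add_I] <;> linarith only [h2, h1]

theorem s1_re (z : ℂ) : (z + 2 * π * Complex.I).re = z.re := by simp

theorem s1_ht (F : Frame) (z : ℂ) : F.ht (z + 2 * π * Complex.I) = F.ht z + 2 * π := by
  rw [← F.ht_add_I]; push_cast; rfl

theorem s1_two {F : Frame} {μ : ℝ} (hF : F.Good μ) (hμ : μ ≤ 1) {z z' : ℂ}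
    (h : ‖z' - z‖ ≤ 1 / 4) : F.Φ z'.re ≤ 2 * F.Φ z.re := by
  have a1 := (Frame.f1_re z z').trans h
  have a2 := (abs_le.1 (hF.Φ_close hμ a1)).2
  have a3 := mul_le_mul_of_nonneg_right a1 (F.Φ_pos z.re).le
  linarith only [a2, a3]

theorem s1_slide {F : Frame} {μ r η d : ℝ} {ψ g : ℂ → ℝ} (hF : F.Good μ) (hμ : μ ≤ 1 / 100)
    (hr : 0 < r) (hr1 : r ≤ 1 / 50) (hψ : Continuous ψ) (hg : Continuous g) (h1 : ∀ z, g z ≤ ψ z)
    (h2 : ∀ z, g z ≤ ca g z r) (hp : ∀ z, ψ (z + 2 * π * Complex.I) = ψ z)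
    (hgp : ∀ z, g (z + 2 * π * Complex.I) = g z)
    (he : ∀ z, 1 / 4 - 2 * π ≤ F.ht z → F.ht z ≤ 0 → ψ z = g z) (hη : 0 ≤ η)
    (hm : F.Md ψ univ η d) {c : ℂ} (hc : ‖c‖ ≤ d) (z : ℂ) :
    ob r ψ (z + c) ≤ ob r ψ z + 2 * η * F.Φ z.re := by
  have hpi := pi_gt_three
  have hv := ob_ge hr hψ hg h1 h2
  have hs : ∀ z, ob r ψ (z + c) ≤ ψ z + η * F.Φ z.re := fun z => by
    have a1 := (abs_le.1 (hm z (mem_univ z) (z + c) (by simpa using hc))).2
    linarith only [a1, hv, (hv (z + c)).2]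
  have hT : ∀ z, |F.ht z| ≤ 1 / 2 → ob r ψ (z + c) - 2 * η * F.Th z ≤ ψ z := fun z hz => by
    have a1 := mul_le_mul_of_nonneg_left (F.Th_ge hz).1 hη
    linarith only [a1, hs, hs z]
  have key := le_ob hr hψ hg h1 h2 (f := fun z => ob r ψ (z + c) - 2 * η * F.Th z)
    (N := {z | 0 < F.ht z ∧ F.ht z < 1 / 4}) (S := {z | |F.ht z| ≤ 1 / 2}) ?_ ?_ ?_
  · refine s1_per_le F (A := fun z => ob r ψ (z + c))
      (B := fun z => ob r ψ z + 2 * η * F.Φ z.re) (fun z => ?_) (fun z => ?_) (1 / 4)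
      (fun z b1 b2 => ?_) z
    · rw [add_right_comm, ob_per hp]
    · rw [ob_per hp, s1_re]
    · rcases le_total (F.ht z) 0 with b3 | b3
      · have a1 := mul_nonneg hη (F.Φ_pos z.re).le
        linarith only [a1, hs, he, b1, b3, hv, hs z, he z b1.le b3, (hv z).1]
      · have a1 : |F.ht z| ≤ 1 / 2 := abs_le.2 ⟨by linarith only [hr, hr1, b3], by linarith only [hr, hr1, b2]⟩
        have a2 := key z a1
        have a3 := mul_le_mul_of_nonneg_left (F.Th_ge a1).2 hη
        linarith only [a2, a3]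
  · intro z hz w hw
    have a1 := hF.ht_sub (by linarith only [hμ, hr, hr1]) z w
    rw [hw, abs_le] at a1
    have a2 : |F.ht w| ≤ 1 / 2 := abs_le.2 ⟨by linarith only [hr, hr1, a1, hz, a1.1, hz.1], by linarith only [hr, hr1, a1, hz, a1.2, hz.2]⟩
    exact a2
  · intro z hz
    have a1 : |F.ht z| ≤ 1 / 2 := abs_le.2 ⟨by linarith only [hr, hr1, hz, hz.1], by linarith only [hr, hr1, hz, hz.2]⟩
    have c1 : CircleIntegrable (fun z => ob r ψ (z + c)) z r := by
      have := ob_ci hr hψ hg h1 h2 (z + c) r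
      unfold CircleIntegrable at this ⊢
      simpa only [circleMap, add_right_comm z c] using this
    have c2 : CircleIntegrable (fun z => 2 * η * F.Th z) z r :=
      i6_ci (continuous_const.mul F.continuous_Th) z r
    refine ⟨c1.sub c2, hT z a1, ?_⟩
    rw [ca, Real.circleAverage_fun_sub c1 c2]
    have a2 := ca_shift (ob r ψ) z c r
    have a3 := Frame.f2_ca_mul F.Th (2 * η) z r
    have a4 := hF.Th_strict hμ hr hr1 a1
    have a5 : ob r ψ (z + c) ≤ ca (ob r ψ) (z + c) r :=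
      (ob_eq hr hψ hg h1 h2 _).le.trans (min_le_right _ _)
    have a6 : 0 ≤ r ^ 2 / 100 * F.Th z :=
      mul_nonneg (by positivity) (by linarith only [a1, (F.Th_ge a1).1, F.Φ_pos z.re])
    have a7 := mul_le_mul_of_nonneg_left (show ca F.Th z r ≤ F.Th z by linarith only [a4, a6]) hη
    rw [ca] at a2 a3
    rw [a2, a3]
    linarith only [a5, a7]
  · intro z hz hz'
    have a1 := abs_le.1 (show |F.ht z| ≤ 1 / 2 from hz)
    refine (hT z hz).trans (le_trans (le_of_eq ?_) (hv z).1)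
    rcases le_or_gt (F.ht z) 0 with b | b
    · exact he z (by linarith only [hr, hr1, hpi, a1]) b
    · have b2 : 1 / 4 ≤ F.ht z := not_lt.1 fun k => hz' ⟨b, k⟩
      have e := s1_ht F (z - 2 * π * Complex.I)
      have e1 := hp (z - 2 * π * Complex.I)
      have e2 := hgp (z - 2 * π * Complex.I)
      rw [sub_add_cancel] at e e1 e2
      rw [e1, e2]
      exact he _ (by linarith only [b2, e]) (by linarith only [hr, hr1, hpi, a1, e])

theorem ob_md {F : Frame} {μ r η d : ℝ} {ψ g : ℂ → ℝ} (hF : F.Good μ) (hμ : μ ≤ 1 / 100) (hr : 0 < r)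
    (hr1 : r ≤ 1 / 50) (hψ : Continuous ψ) (hg : Continuous g) (h1 : ∀ z, g z ≤ ψ z)
    (h2 : ∀ z, g z ≤ ca g z r) (hp : ∀ z, ψ (z + 2 * π * Complex.I) = ψ z)
    (hgp : ∀ z, g (z + 2 * π * Complex.I) = g z)
    (he : ∀ z, 1 / 4 - 2 * π ≤ F.ht z → F.ht z ≤ 0 → ψ z = g z) (hη : 0 ≤ η) (hd : d ≤ 1 / 4)
    (hm : F.Md ψ univ η d) : F.Md (ob r ψ) univ (4 * η) d := by
  intro z _ z' hz
  have a1 := s1_slide hF hμ hr hr1 hψ hg h1 h2 hp hgp he hη hm hz z
  have a2 := s1_slide hF hμ hr hr1 hψ hg h1 h2 hp hgp he hη hm (c := z - z')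
    (by rwa [norm_sub_rev]) z'
  rw [add_sub_cancel] at a1 a2
  have a3 := mul_le_mul_of_nonneg_left (s1_two hF (by linarith only [hμ, hr, hr1]) (hz.trans hd)) hη
  have a4 := mul_nonneg hη (F.Φ_pos z.re).le
  exact abs_le.2 ⟨by linarith only [a2, a3], by linarith only [a1, a2, a3]⟩

theorem continuous_of_uc {F : Frame} {u : ℂ → ℝ} (h : F.UC u) : Continuous u := by
  refine continuous_iff_continuousAt.2 fun z => Metric.continuousAt_iff.2 fun ε hε => ?_
  have hΦ := F.Φ_pos z.re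
  obtain ⟨d, hd, hm⟩ := h (ε / 2 / F.Φ z.re) (by positivity)
  refine ⟨d, hd, fun z' hz => ?_⟩
  have a1 := hm z (mem_univ z) z' (by rw [← dist_eq_norm]; exact hz.le)
  rw [div_mul_cancel₀ _ hΦ.ne'] at a1
  rw [Real.dist_eq]
  linarith only [hε, a1]

theorem s1_tav_add {f : ℂ → ℝ} (hf : Continuous f) {r : ℝ} (hr : 0 < r) (c : ℝ) (z : ℂ) :
    tav r (fun w => f w - c) z = tav r f z - c := by
  have a1 := tav_const hr c z
  rw [i5_tav] at a1
  rw [i5_tav, i5_tav, i5_sub hf continuous_const, mul_sub, a1]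

theorem s1_e2 : exp (2 * 1) ≤ 8 := by
  have a1 := exp_one_lt_d9
  have a2 := exp_pos 1
  rw [two_mul, exp_add]
  linarith only [a1, a2, mul_pos_of_neg_of_neg (Mathlib.Tactic.Linarith.sub_neg_of_lt a1) (Mathlib.Tactic.Linarith.sub_neg_of_lt a2)]

theorem s1_eight {F : Frame} {μ : ℝ} (hF : F.Good μ) (hμ : μ ≤ 1) {z z' : ℂ}
    (h : ‖z' - z‖ ≤ 1) : F.Φ z'.re ≤ 8 * F.Φ z.re :=
  (hF.Φ_le hμ ((Frame.f1_re z z').trans h)).trans
    (mul_le_mul_of_nonneg_right s1_e2 (F.Φ_pos z.re).le)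

theorem uc_tav {F : Frame} {μ r : ℝ} {f : ℂ → ℝ} (hF : F.Good μ) (hμ : μ ≤ 1) (hr : 0 < r)
    (hr1 : r ≤ 1) (h : F.UC f) : F.UC (tav r f) := by
  intro η hη
  have hc := continuous_of_uc h
  obtain ⟨d, hd, hm⟩ := h (η / 8) (by positivity)
  refine ⟨d, hd, fun z _ z' hz => ?_⟩
  have hc' : Continuous fun w => f (w + (z' - z)) := by fun_prop
  have k : ∀ w, ‖w - z‖ ≤ r → |f (w + (z' - z)) - f w| ≤ η * F.Φ z.re := fun w hw => by
    have a1 := hm w (mem_univ w) (w + (z' - z)) (by simpa using hz)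
    have a2 := mul_le_mul_of_nonneg_left (s1_eight hF hμ (hw.trans hr1)) hη.le
    linarith only [a1, a2]
  have a1 := tav_le (f := fun w => f (w + (z' - z)) - η * F.Φ z.re) (g := f)
    (hc'.sub continuous_const) hc hr (z := z) fun w hw => by linarith [(abs_le.1 (k w hw)).2]
  have a2 := tav_le (f := fun w => f w - η * F.Φ z.re) (g := fun w => f (w + (z' - z)))
    (hc.sub continuous_const) hc' hr (z := z) fun w hw => by linarith [(abs_le.1 (k w hw)).1]
  rw [s1_tav_add hc' hr] at a1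
  rw [s1_tav_add hc hr] at a2
  rw [tav_shift, add_sub_cancel] at a1 a2
  exact abs_le.2 ⟨by linarith, by linarith⟩

theorem s1_bump {y1 : ℝ} (hy : 0 < y1) (hy1 : y1 ≤ 1 / 100) : ∃ (T : ℝ → ℝ) (τ : ℝ), 0 < τ ∧
    (∀ a b, |T a - T b| ≤ |a - b|) ∧ (∀ a, 0 ≤ T a ∧ T a ≤ 1) ∧ (∀ a, T (a + 2 * π) = T a) ∧
    (∀ a, 1 / 5 - 2 * π ≤ a → a ≤ y1 / 4 → T a = 0) ∧
    ∀ a, y1 / 2 ≤ a → a ≤ 9 / 50 → τ ≤ T a := by
  have hpi := pi_gt_three
  refine ⟨fun a => max 0 (cos (a - (1 / 10 + y1 / 8)) - cos (1 / 10 - y1 / 8)),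
    cos (1 / 10 - 3 * y1 / 8) - cos (1 / 10 - y1 / 8), ?_, fun a b => ?_, fun a => ?_,
    fun a => ?_, fun a h1 h2 => ?_, fun a h1 h2 => ?_⟩
  · exact sub_pos.2 (cos_lt_cos_of_nonneg_of_le_pi (by linarith only [hy, hy1]) (by linarith only [hy, hy1, hpi]) (by linarith only [hy]))
  · refine (abs_max_sub_max_le_max _ _ _ _).trans (max_le (by simp) ?_)
    rw [sub_sub_sub_cancel_right]
    refine (abs_cos_sub_cos_le _ _).trans (le_of_eq ?_)
    rw [sub_sub_sub_cancel_right]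
  · refine ⟨le_max_left _ _, max_le zero_le_one ?_⟩
    have a1 : 0 ≤ cos (1 / 10 - y1 / 8) := cos_nonneg_of_mem_Icc ⟨by linarith only [hy, hy1, hpi], by linarith only [hy, hy1, hpi]⟩
    linarith only [a1, cos_le_one (a - (1 / 10 + y1 / 8))]
  · simp only [add_sub_right_comm, cos_add_two_pi]
  · refine max_eq_left (sub_nonpos.2 ?_)
    rcases le_total (1 / 10 + y1 / 8 - a) π with k | k
    · rw [← cos_neg, neg_sub]
      exact cos_le_cos_of_nonneg_of_le_pi (by linarith only [hy, hy1]) k (by linarith only [h2])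
    · rw [← cos_add_two_pi]
      exact cos_le_cos_of_nonneg_of_le_pi (by linarith only [hy, hy1]) (by linarith only [k]) (by linarith only [h1])
  · refine le_trans (sub_le_sub_right ?_ _) (le_max_right _ _)
    rw [← cos_abs (a - _)]
    exact cos_le_cos_of_nonneg_of_le_pi (abs_nonneg _) (by linarith only [hy, hy1, hpi])
      (abs_le.2 ⟨by linarith only [h1], by linarith only [hy, hy1, h2]⟩)

theorem s1_uc {F : Frame} {μ Λ : ℝ} (hF : F.Good μ) (hμ : μ ≤ 1) (hΛ : 0 < Λ) {T : ℝ → ℝ}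
    (hl : ∀ a b, |T a - T b| ≤ |a - b|) (hb : ∀ a, 0 ≤ T a ∧ T a ≤ 1) :
    F.UC fun z => Λ * (F.Φ z.re * T (F.ht z)) := by
  intro η hη
  refine ⟨min (1 / 4) (η / (6 * Λ)), by positivity, fun z _ z' hz => ?_⟩
  have h1 := hz.trans (min_le_left _ _)
  have h2 := hz.trans (min_le_right _ _)
  rw [le_div_iff₀ (by positivity)] at h2
  have hΦ := F.Φ_pos z.re
  have a1 := hF.Φ_close hμ ((Frame.f1_re z z').trans h1)
  have a2 := (hl (F.ht z') (F.ht z)).trans (hF.ht_sub hμ z z')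
  have a3 := mul_le_mul_of_nonneg_right (Frame.f1_re z z') hΦ.le
  have a4 : |F.Φ z'.re * T (F.ht z') - F.Φ z.re * T (F.ht z)| ≤ 6 * ‖z' - z‖ * F.Φ z.re := by
    rw [show F.Φ z'.re * T (F.ht z') - F.Φ z.re * T (F.ht z) = (F.Φ z'.re - F.Φ z.re) *
      T (F.ht z') + F.Φ z.re * (T (F.ht z') - T (F.ht z)) by ring]
    refine (abs_add_le _ _).trans ?_
    rw [abs_mul, abs_mul, abs_of_pos hΦ, abs_of_nonneg (hb _).1]
    have b1 := mul_le_mul_of_nonneg_left (hb (F.ht z')).2 (abs_nonneg (F.Φ z'.re - F.Φ z.re))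
    have b2 := mul_le_mul_of_nonneg_left a2 hΦ.le
    linarith only [a1, a3, b1, b2]
  rw [← mul_sub, abs_mul, abs_of_pos hΛ]
  have b1 := mul_le_mul_of_nonneg_left a4 hΛ.le
  have b2 := mul_le_mul_of_nonneg_right h2 hΦ.le
  linarith only [b1, b2]

/-- the solution of the obstacle problem -/
theorem s1_obst {y1 ν η : ℝ} (hy : 0 < y1) (hy1 : y1 ≤ 1 / 100) (hν1 : ν ≤ 1 / 100)
    (hν2 : 21 * ν ≤ 1 - cos (y1 / 4)) (hη : 0 < η) {F : Frame} {μ K : ℝ} {u : ℂ → ℝ} (hμ : μ ≤ ν)
    (hF : F.Good μ) (hu : SubD F ν K u) : ∃ (v : ℂ → ℝ) (r : ℝ), 0 < r ∧ r ≤ 1 ∧ F.UC v ∧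
      (∀ z, v (z + 2 * π * Complex.I) = v z) ∧ F.Md v univ η r ∧ (∀ z, u z ≤ v z) ∧
      (∀ z, v z ≤ ca v z r) ∧ (∀ z, y1 / 2 ≤ F.ht z → F.ht z ≤ 9 / 50 → ca v z r = v z) ∧
      (∀ z, v z ≤ F.M z + 20 * ν * F.Φ z.re) ∧ (∀ z, v z ≤ Bx u z.re) ∧
      ∀ z, 1 / 5 - 2 * π ≤ F.ht z → F.ht z ≤ y1 / 4 → v z ≤ u z := by
  have hpi := pi_gt_three
  have hν : 0 ≤ ν := hF.nonneg.trans hμ
  have hμ1 : μ ≤ 1 / 100 := hμ.trans hν1
  obtain ⟨T, τ, hτ, hl, hb, hp, h0, hτ'⟩ := s1_bump hy hy1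
  have hΛ : 0 < (|K| + 3) / τ := by positivity
  have hΛ' : (|K| + 3) / τ * τ = |K| + 3 := div_mul_cancel₀ _ hτ.ne'
  generalize (|K| + 3) / τ = Λ at hΛ hΛ'
  have uψ := hu.uc.add (s1_uc hF (by linarith only [hy, hy1, hν1, hμ]) hΛ hl hb)
  have g1 : ∀ z, u z ≤ u z + Λ * (F.Φ z.re * T (F.ht z)) := fun z =>
    le_add_of_nonneg_right (mul_nonneg hΛ.le (mul_nonneg (F.Φ_pos _).le (hb _).1))
  have g3 : ∀ z, u (z + 2 * π * Complex.I) + Λ * (F.Φ (z + 2 * π * Complex.I).re *
      T (F.ht (z + 2 * π * Complex.I))) = u z + Λ * (F.Φ z.re * T (F.ht z)) := fun z => by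
    rw [hu.per, s1_re, s1_ht, hp]
  have g4 : ∀ z, 1 / 5 - 2 * π ≤ F.ht z → F.ht z ≤ y1 / 4 →
      u z + Λ * (F.Φ z.re * T (F.ht z)) = u z := fun z b1 b2 => by
    rw [h0 _ b1 b2, mul_zero, mul_zero, add_zero]
  have g5 : ∀ z, u z + Λ * (F.Φ z.re * T (F.ht z)) ≤ (2 + Λ) * F.Φ z.re := fun z => by
    have hΦ := (F.Φ_pos z.re).le
    have a1 := hu.up z
    have a2 := mul_le_mul_of_nonneg_left (cos_le_one (F.ht z)) hΦ
    have a3 := mul_le_mul_of_nonneg_left (mul_le_mul_of_nonneg_left (hb (F.ht z)).2 hΦ) hΛ.le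
    have a4 := mul_le_mul_of_nonneg_right hν1 hΦ
    rw [Frame.M] at a1
    linarith only [hΦ, a1, a2, a3, a4]
  have g6 : ∀ z, y1 / 2 ≤ F.ht z → F.ht z ≤ 9 / 50 →
      3 * F.Φ z.re ≤ u z + Λ * (F.Φ z.re * T (F.ht z)) := fun z b1 b2 => by
    have hΦ := (F.Φ_pos z.re).le
    have a1 := hu.low z
    have a2 := mul_le_mul_of_nonneg_right (le_abs_self K) hΦ
    have a3 := mul_le_mul_of_nonneg_left (mul_le_mul_of_nonneg_left (hτ' _ b1 b2) hΦ) hΛ.le
    have a4 : Λ * (F.Φ z.re * τ) = (|K| + 3) * F.Φ z.re := by rw [← hΛ']; ring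
    linarith only [a1, a2, a3, a4]
  generalize hψ : (fun z => u z + Λ * (F.Φ z.re * T (F.ht z))) = ψ at uψ
  simp only [show ∀ z, u z + Λ * (F.Φ z.re * T (F.ht z)) = ψ z from congrFun hψ] at g1 g3 g4 g5 g6
  have cψ := continuous_of_uc uψ
  have md : ∀ r, 0 < r → r ≤ 1 / 50 → ∀ η d, 0 ≤ η → F.Md ψ univ η d →
      F.Md (ob r ψ) univ (4 * η) (min d (1 / 4)) := fun r hr hr1 η d hη hm =>
    ob_md hF hμ1 hr hr1 cψ hu.cont g1 (fun z => hu.sub.2 z r hr (subset_univ _)) g3 hu.per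
      (fun z b1 b2 => g4 z (by linarith only [hy, hy1, b1]) (by linarith only [hy, b2])) hη (min_le_right _ _)
      fun z hz z' hz' => hm z hz z' (hz'.trans (min_le_left _ _))
  obtain ⟨d, hd, hm⟩ := uψ (η / 4) (by positivity)
  have hr : 0 < min d (1 / 100) := by positivity
  have hr1 := min_le_left d (1 / 100)
  have hr2 := min_le_right d (1 / 100)
  generalize min d (1 / 100) = r at hr hr1 hr2
  have g2 : ∀ z, u z ≤ ca u z r := fun z => hu.sub.2 z r hr (subset_univ _)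
  have hv := ob_ge hr cψ hu.cont g1 g2
  have he := ob_eq hr cψ hu.cont g1 g2
  have hs : ∀ z, ob r ψ z ≤ ca (ob r ψ) z r := fun z => (he z).le.trans (min_le_right _ _)
  have hz : ∀ z, 1 / 5 - 2 * π ≤ F.ht z → F.ht z ≤ y1 / 4 → ob r ψ z ≤ u z := fun z b1 b2 =>
    (hv z).2.trans (g4 z b1 b2).le
  have hz' : ∀ z, 1 / 5 ≤ F.ht z → F.ht z ≤ 1 → ob r ψ z ≤ u z := fun z b1 b2 => by
    have e := s1_ht F (z - 2 * π * Complex.I)
    have e1 := ob_per (r := r) g3 (z - 2 * π * Complex.I)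
    have e2 := hu.per (z - 2 * π * Complex.I)
    rw [sub_add_cancel] at e e1 e2
    rw [e1, e2]
    exact hz _ (by linarith only [b1, e]) (by linarith only [hy, hy1, hpi, b2, e])
  have up : ∀ z, u z ≤ F.M z + 10 * ν * F.Φ z.re := fun z => by
    have a1 := mul_nonneg hν (F.Φ_pos z.re).le
    linarith only [a1, hu, hu.up z]
  have band := hF.band_le hμ1 (ν := 20 * ν) (r := r) (a := y1 / 4) (b := 1 / 5) (C := 2 + Λ)
    (f := ob r ψ) (by linarith only [hμ]) hr hr2 (by linarith only [hy, hy1]) (by norm_num)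
    (fun z _ _ => ⟨ob_ci hr cψ hu.cont g1 g2 z r, hs z, (hv z).2.trans (g5 z)⟩)
    fun z b1 b2 b3 => by
      rcases b3 with b3 | b3
      · linarith only [hz, hy, hy1, hpi, hr2, b1, b3, up, hz z (by linarith) b3, up z]
      · linarith only [hz', b3, hy, hy1, hr2, b2, up, hz' z b3 (by linarith), up z]
  have split : ∀ B : ℂ → ℝ, (∀ z, B (z + 2 * π * Complex.I) = B z) → (∀ z, u z ≤ B z) →
      (∀ z, y1 / 4 < F.ht z → F.ht z < 1 / 5 → ob r ψ z ≤ B z) → ∀ z, ob r ψ z ≤ B z :=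
    fun B b1 b2 b3 => s1_per_le F (ob_per g3) b1 (1 / 5) fun z c1 c2 => by
      rcases le_or_gt (F.ht z) (y1 / 4) with c3 | c3
      · exact (hz z c1.le c3).trans (b2 z)
      · rcases c2.lt_or_eq with c4 | c4
        · exact b3 z c3 c4
        · exact (hz' z c4.ge (by linarith only [hy, hy1, c2])).trans (b2 z)
  refine ⟨ob r ψ, r, hr, by linarith only [hy, hy1, hr2], fun η hη => ?_, ob_per g3, fun z b z' b' => ?_,
    fun z => (hv z).1, hs, fun z b1 b2 => ?_, split _ (fun z => ?_) (fun z => ?_) band,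
    split _ (fun z => by rw [s1_re]) (le_Bx hu.cont hu.per) fun z b1 b2 => ?_, hz⟩
  · obtain ⟨d, hd, hm⟩ := uψ (η / 4) (by positivity)
    refine ⟨min d (1 / 4), by positivity, ?_⟩
    have a1 := md r hr (by linarith only [hy, hy1, hr2]) _ _ (by positivity) hm
    rwa [mul_div_cancel₀ _ (by norm_num)] at a1
  · have a1 := md r hr (by linarith only [hy, hy1, hr2]) _ _ (by positivity) hm z b z'
      (b'.trans (le_min hr1 (by linarith only [hy, hy1, hr2])))
    rwa [mul_div_cancel₀ _ (by norm_num)] at a1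
  · have hΦ := F.Φ_pos z.re
    have a1 := band z (by linarith only [hy, b1]) (by linarith only [hy, hy1, b2])
    have a2 := mul_le_mul_of_nonneg_left (cos_le_one (F.ht z)) hΦ.le
    have a3 := mul_le_mul_of_nonneg_right hν1 hΦ.le
    have a4 := g6 z b1 b2
    rw [Frame.M] at a1
    rcases min_choice (ψ z) (ca (ob r ψ) z r) with k | k
    · linarith only [hΦ, a1, a2, a3, a4, k, he, he z]
    · exact ((he z).trans k).symm
  · rw [Frame.M, Frame.M, s1_re, s1_ht, cos_add_two_pi]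
  · have a1 := mul_nonneg hν (F.Φ_pos z.re).le
    linarith only [a1, hu, hu.up z]
  · have hΦ := F.Φ_pos z.re
    have a1 := band z b1 b2
    have a2 : cos (F.ht z) ≤ cos (y1 / 4) :=
      cos_le_cos_of_nonneg_of_le_pi (by linarith only [hy]) (by linarith only [hy, hy1, hpi, b2]) b1.le
    have a3 := mul_le_mul_of_nonneg_left a2 hΦ.le
    have a4 := mul_le_mul_of_nonneg_right hν2 hΦ.le
    have a5 := hu.Bge z.re
    rw [Frame.M] at a1
    linarith only [a1, a3, a4, a5]

theorem s1_io {f : ℂ → ℝ} (hf : Continuous f) (z : ℂ) : IntegrableOn f (Metric.ball z 1) :=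
  i4_io hf.continuousOn (subset_univ _)

theorem s1_near {F : Frame} {μ y1 a b : ℝ} (hF : F.Good μ) (hμ : μ ≤ 1 / 10) (hy : 0 < y1)
    (hy1 : y1 ≤ 1 / 100) (ha : 0 ≤ a) {u : ℂ → ℝ} (hc : Continuous u)
    (hm : MV u {z | y1 / 2 ≤ F.ht z ∧ F.ht z ≤ 9 / 50}) (up : ∀ z, u z ≤ F.M z + a * F.Φ z.re)
    {z : ℂ} (avg : F.M z - b * F.Φ z.re ≤ da u z 1) (h1 : y1 ≤ F.ht z) (h2 : F.ht z ≤ 3 / 20) :
    F.M z - (50 * μ + 8 * a + b) / (y1 / 4) ^ 2 * F.Φ z.re ≤ u z := by
  have hΦ := F.Φ_pos z.re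
  have h0 := hF.nonneg
  have cM := F.continuous_M0 z.re
  have k := mv_harnack (f := fun w => F.M0 z.re w + ((50 * μ + 8 * a) * F.Φ z.re - u w))
    (Ω := {z | y1 / 2 ≤ F.ht z ∧ F.ht z ≤ 9 / 50}) (z := z) (ρ := y1 / 4) (by fun_prop)
    (fun w s hs hb => ?_) (by positivity) (by linarith only [hy, hy1]) (fun w hw => ?_) fun w hw => ?_
  · have e1 : da (F.M0 z.re) z 1 = F.M0 z.re z :=
      i4_mv cM.continuousOn (fun w s _ _ => F.ca_M0 _ w s) one_pos (subset_univ _)
    have e2 := da_add (f := fun w => (50 * μ + 8 * a) * F.Φ z.re - u w) (g := u)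
      (s1_io (by fun_prop) z) (s1_io hc z)
    simp only [sub_add_cancel] at e2
    rw [da_const _ _ one_pos] at e2
    rw [da_add (s1_io cM z) (s1_io (by fun_prop) z), e1, F.M0_self] at k
    have a1 : (F.M z + da (fun w => (50 * μ + 8 * a) * F.Φ z.re - u w) z 1) / (y1 / 4) ^ 2 ≤
        (50 * μ + 8 * a + b) / (y1 / 4) ^ 2 * F.Φ z.re := by
      rw [div_mul_eq_mul_div]
      exact div_le_div_of_nonneg_right (by linarith only [avg, e2]) (by positivity)
    have a2 : 0 ≤ (50 * μ + 8 * a) * F.Φ z.re := by positivity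
    linarith only [k, a1, a2]
  · have a1 := hm w s hs hb
    have a2 := F.ca_M0 z.re w s
    rw [ca] at a1 a2
    rw [ca, Real.circleAverage_fun_add (i6_ci cM w s) (i6_ci (by fun_prop) w s),
      Real.circleAverage_fun_sub (i6_ci continuous_const w s) (i6_ci hc w s), a1, a2,
      Real.circleAverage_const]
  · have a1 := abs_le.1 (hF.ht_sub (by linarith only [hμ, hy, hy1]) z w)
    rw [mem_closedBall_iff_norm] at hw
    exact ⟨by linarith only [h1, hw, a1, a1.1], by linarith only [hy, hy1, h2, hw, a1, a1.2]⟩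
  · rw [mem_ball_iff_norm] at hw
    have a1 := (abs_le.1 (hF.M_sub_M0 hμ (x0 := z.re) (z := w)
      (by linarith only [hy, hy1, hw, Frame.f1_re z w]))).2
    have a2 := mul_le_mul_of_nonneg_left (s1_eight hF (by linarith only [hμ, hy, hy1]) hw.le) ha
    linarith only [a1, a2, up, up w]

theorem sweep {y1 ν' : ℝ} (hy : 0 < y1) (hy1 : y1 ≤ 1 / 100) (hν' : 0 < ν') : ∃ ν : ℝ, 0 < ν ∧
    ∀ (F : Frame) (μ K k ε ε' x0 : ℝ) (u : ℂ → ℝ), μ ≤ ν → F.Good μ → SubD F ν K u → 1 ≤ k → k ≤ 2 →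
      0 < ε' → CovS F k ε (y1 / 4) x0 u →
      ∃ (u' : ℂ → ℝ) (K' : ℝ), Clean F ν' K' y1 u' ∧ CovS F k (ε + ε') (y1 / 4) x0 u' := by
  have hpi := pi_gt_three
  have hc : 0 < 1 - cos (y1 / 4) := by
    rw [← cos_zero, sub_pos]
    exact cos_lt_cos_of_nonneg_of_le_pi le_rfl (by linarith only [hy, hy1, hpi]) (by linarith)
  obtain ⟨ν, hν, n1, n2, n3⟩ : ∃ ν : ℝ, 0 < ν ∧ ν ≤ 1 / 100 ∧ 21 * ν ≤ 1 - cos (y1 / 4) ∧
      300 * ν ≤ ν' * (y1 / 4) ^ 2 := by
    refine ⟨min (min (1 / 100) ((1 - cos (y1 / 4)) / 21)) (ν' * (y1 / 4) ^ 2 / 300),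
      by positivity, (min_le_left _ _).trans (min_le_left _ _), ?_, ?_⟩
    · linarith only [(min_le_left _ (ν' * (y1 / 4) ^ 2 / 300)).trans
        (min_le_right (1 / 100) ((1 - cos (y1 / 4)) / 21))]
    · linarith only [min_le_right (min (1 / 100) ((1 - cos (y1 / 4)) / 21)) (ν' * (y1 / 4) ^ 2 / 300)]
  have n4 : 300 * ν ≤ ν' := n3.trans (mul_le_of_le_one_right hν'.le (by linarith only [hy, hy1, mul_nonneg_of_nonpos_of_nonpos (le_of_lt (Mathlib.Tactic.Linarith.sub_neg_of_lt hy)) (Mathlib.Tactic.Linarith.sub_nonpos_of_le hy1)]))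
  refine ⟨ν, hν, fun F μ K k ε ε' x0 u hμ hF hu hk1 hk2 hε hcov => ?_⟩
  have hη : 0 < min ν (ε' / 3) := by positivity
  have e1 := min_le_left ν (ε' / 3)
  have e2 := min_le_right ν (ε' / 3)
  generalize min ν (ε' / 3) = η at hη e1 e2
  obtain ⟨v, r, hr, hr1, uc, per, md, v1, v2, v3, v4, v5, v6⟩ := s1_obst hy hy1 n1 n2 hη hμ hF hu
  have cv := continuous_of_uc uc
  have cu := continuous_tav cv hr
  have cl : ∀ z, |tav r v z - v z| ≤ η * F.Φ z.re := fun z =>
    abs_tav_sub_le cv hr (md z (mem_univ z))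
  have lo : ∀ z, u z - η * F.Φ z.re ≤ tav r v z := fun z => by
    linarith only [cl, v1, (abs_le.1 (cl z)).1, v1 z]
  have hi : ∀ z, tav r v z ≤ v z + η * F.Φ z.re := fun z => by linarith only [cl, (abs_le.1 (cl z)).2]
  have per' : ∀ z, tav r v (z + 2 * π * Complex.I) = tav r v z := fun z => by
    rw [← tav_shift, funext per]
  have up : ∀ z, tav r v z ≤ F.M z + 21 * ν * F.Φ z.re := fun z => by
    linarith only [hi, v4, e1, hi z, v4 z, mul_le_mul_of_nonneg_right e1 (F.Φ_pos z.re).le]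
  have avg : ∀ z, F.M z - 9 * ν * F.Φ z.re ≤ da (tav r v) z 1 := fun z => by
    have a1 := da_mono (f := u) (g := fun w => tav r v w + 8 * ν * F.Φ z.re) (s1_io hu.cont z)
      (s1_io (by fun_prop) z) (Eventually.of_forall fun w hw => by
        have b1 := s1_eight hF (by linarith only [hy, hy1, n1, hμ]) (mem_ball_iff_norm.1 hw).le
        have b2 := mul_le_mul e1 b1 (F.Φ_pos _).le hν.le
        linarith only [b2, lo, lo w])
    rw [da_add (s1_io cu z) (s1_io continuous_const z), da_const _ _ one_pos] at a1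
    linarith only [a1, hu, hu.avg z]
  have mv : MV (tav r v) {z | y1 / 2 ≤ F.ht z ∧ F.ht z ≤ 9 / 50} := fun z s hs hb => by
    rw [ca_tav cv hr hs, pot_congr (ρ' := fun _ => 0) hs fun ζ hζ => ?_]
    · simp [pot]
    · have a1 := hb (mem_closedBall_iff_norm.2 hζ.le)
      rw [den, v3 ζ a1.1 a1.2, sub_self, mul_zero]
  have mo : ∀ {c : ℝ}, c ≤ 300 → ∀ x, c * ν * F.Φ x ≤ ν' * F.Φ x := fun hc x =>
    mul_le_mul_of_nonneg_right ((mul_le_mul_of_nonneg_right hc hν.le).trans n4) (F.Φ_pos x).le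
  refine ⟨tav r v, K + η, ⟨⟨cu, per', ⟨cu.continuousOn, fun z s hs _ => ?_⟩,
    uc_tav hF (by linarith only [hy, hy1, n1, hμ]) hr hr1 uc, fun z => ?_, fun z => ?_, fun z => ?_, fun x => ?_⟩,
    fun z s hs hb => mv z s hs fun w hw => ?_, fun z b1 b2 => ?_⟩, fun x hx => ?_⟩
  · rw [ca_tav cv hr hs]
    exact le_add_of_nonneg_right (pot_nonneg hs fun ζ _ =>
      mul_nonneg (by positivity) (sub_nonneg.2 (v2 ζ)))
  · linarith [up z, mo (c := 21) (by norm_num) z.re]
  · linarith only [lo, hu, lo z, hu.low z]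
  · linarith [avg z, mo (c := 9) (by norm_num) z.re]
  · obtain ⟨y, -, -, hy⟩ := exists_Bx hu.cont hu.per x 0
    have a1 := lo (x + y * Complex.I)
    have a2 := f3_le cu per' x y
    have a3 : ((x : ℂ) + y * Complex.I).re = x := by simp
    rw [a3] at a1
    linarith [hu.Bge x, mo (c := 2) (by norm_num) x,
      mul_le_mul_of_nonneg_right e1 (F.Φ_pos x).le]
  · exact ⟨by linarith only [hy, hb, hw, (hb hw).1], by linarith only [hy, hy1, hb, hw, (hb hw).2]⟩
  · have a1 := s1_near hF (by linarith only [hy, hy1, n1, hμ]) hy hy1 (by positivity) cu mv up (avg z) b1 b2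
    have a2 : (50 * μ + 8 * (21 * ν) + 9 * ν) / (y1 / 4) ^ 2 ≤ ν' := by
      rw [div_le_iff₀ (by positivity)]
      linarith only [hν, n3, hμ]
    linarith only [a1, a2, mul_le_mul_of_nonneg_right a2 (F.Φ_pos z.re).le]
  · obtain ⟨y, b1, b2, b3⟩ := hcov x hx
    refine ⟨y, b1, b2, ?_⟩
    have hΦ := F.Φ_pos x
    have re : ∀ y : ℝ, ((x : ℂ) + y * Complex.I).re = x := fun y => by simp
    have a1 := hi (x + y * Complex.I)
    have a2 := v6 (x + y * Complex.I) (by rw [F.ht_mk]; linarith only [hy, hy1, b1]) (by rw [F.ht_mk]; exact b2)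
    have a3 : Bx (tav r v) x ≤ Bx u x + η * F.Φ x := Bx_le fun y => by
      have c1 := hi (x + y * Complex.I)
      have c2 := v5 (x + y * Complex.I)
      rw [re] at c1 c2
      linarith only [c1, c2]
    rw [re] at a1
    have a4 := mul_le_mul_of_nonneg_left a3 (show 0 ≤ k by linarith only [hy, hy1, hk1])
    have a5 := mul_le_mul_of_nonneg_right hk2 (mul_pos hη hΦ).le
    have a6 := mul_le_mul_of_nonneg_right e2 hΦ.le
    linarith only [b3, a1, a2, a4, a5, a6]

end

end Pool.Agent.MinMod.Mo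
end

-- merged part: Pool.Agent.Work.MP_f62247_an.Mo.D1
section
/-!
# The obstacle problem under the plateau
`ν = t^18`, `y1 = t^8`, `B = Bx u`, `(1-ν) Φ ≤ B ≤ (1+ν) Φ`. Obstacle `ψ z = min (B z.re) (u z + 4000 (|K| + 2) Φ z.re * min 1 (max 0 (1/2000 - ht z)))`; `ψ = B` for `ht ≤ 1/4000`, `ψ = u` for `ht ≥ 1/2000`, `ψ ≥ Φ/2` for `ht ≤ 1/10`; `ψ` is `UC` (`md_Bx`). `v = ob r ψ`, subsolution `g = u`.
Modulus: if `Md ψ univ η d`, `η ≤ 1/4`, `d ≤ 1/4`, `‖h‖ ≤ d`, then `f z = (1 - 2η) v (z + h)` is `≤ ψ` on `S = {ht ≤ 1/10}` and `≤ ca f r`; `le_ob` with `N = {ht < 1/2000}`. So `v (z+h) - v z ≤ 2 η v (z+h) ≤ 8 η Φ`; for `ht ≥ 1/2000` use `v z = ψ z`. Hence `Md v univ (16 η) d` for every `r`, and `v` is continuous (`continuous_of_uc`).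
`up`: `band_le` with `a = 0`, `b = 1/2000`. `low`: `le_ob` for `f = (1 - 3 y1²) Φ` (`sub_Φ`), `N = {ht < y1}`, `S = {ht ≤ y1 + 2r}`, `near`. `mv`: `cos h ≤ 1 - h²/5`, so `v < B` for `y1 ≤ ht ≤ 1/4000`; above `1/1000` the circle lies where `v = u`.
-/

open Real MeasureTheory Set Filter Topology

namespace Pool.Agent.MinMod.Mo

noncomputable section

structure Plat (F : Frame) (ν y1 r η d : ℝ) (u v : ℂ → ℝ) : Prop where
  cont : Continuous v
  md : F.Md v univ η d
  ge : ∀ z, u z ≤ v z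
  le : ∀ z, v z ≤ Bx u z.re
  sub : ∀ z, v z ≤ ca v z r
  top : ∀ z, 1 / 2000 ≤ F.ht z → v z = u z
  free : ∀ z, F.ht z ≤ 1 / 4000 → v z < Bx u z.re → ca v z r = v z
  mv : ∀ z, y1 ≤ F.ht z → F.ht z ≤ 1 / 10 → (F.ht z ≤ 1 / 4000 ∨ 1 / 1000 ≤ F.ht z) → ca v z r = v z
  up : ∀ z, 0 ≤ F.ht z → v z ≤ F.M z + 20 * ν * F.Φ z.re
  low : ∀ z, F.ht z ≤ y1 → (1 - 3 * y1 ^ 2) * F.Φ z.re ≤ v z
  maxi : ∀ (f : ℂ → ℝ) (y : ℝ), y ≤ 1 / 4000 →
    (∀ z, F.ht z < y → CircleIntegrable f z r ∧ f z ≤ Bx u z.re ∧ f z ≤ ca f z r) →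
    (∀ z, y ≤ F.ht z → F.ht z ≤ y + 2 * r → f z ≤ v z) → ∀ z, F.ht z ≤ y → f z ≤ v z

theorem SubD.Ble {F : Frame} {ν K : ℝ} {u : ℂ → ℝ} (h : SubD F ν K u) (x : ℝ) :
    Bx u x ≤ (1 + ν) * F.Φ x := by
  refine Bx_le fun y => (h.up _).trans ?_
  have e : ((x : ℂ) + y * Complex.I).re = x := by simp
  rw [Frame.M, e]
  have := mul_le_of_le_one_right (F.Φ_pos x).le (cos_le_one (F.ht (x + y * Complex.I)))
  linarith only [this]

theorem d1_mono {F : Frame} {u : ℂ → ℝ} {η η' d d' : ℝ} (h : F.Md u univ η d) (hη : η ≤ η')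
    (hd : d' ≤ d) : F.Md u univ η' d' := fun z hz z' hz' =>
  (h z hz z' (hz'.trans hd)).trans (mul_le_mul_of_nonneg_right hη (F.Φ_pos _).le)

theorem d1_min {F : Frame} {u v : ℂ → ℝ} (hu : F.UC u) (hv : F.UC v) :
    F.UC fun z => min (u z) (v z) := by
  intro η hη
  obtain ⟨d, hd, h1⟩ := hu η hη
  obtain ⟨d', hd', h2⟩ := hv η hη
  refine ⟨min d d', lt_min hd hd', fun z hz z' hz' => ?_⟩
  exact (abs_min_sub_min_le_max _ _ _ _).trans
    (max_le (h1 z hz z' (hz'.trans (min_le_left _ _))) (h2 z hz z' (hz'.trans (min_le_right _ _))))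

/-- the cut-off -/
def d1_T (h : ℝ) : ℝ := min 1 (max 0 (1 / 2000 - h))

theorem d1_T0 (h : ℝ) : 0 ≤ d1_T h := le_min zero_le_one (le_max_left _ _)

theorem d1_T1 (h : ℝ) : d1_T h ≤ 1 := min_le_left _ _

theorem d1_Tl (h h' : ℝ) : |d1_T h' - d1_T h| ≤ |h' - h| := by
  refine (abs_min_sub_min_le_max _ _ _ _).trans (max_le (by simp) ?_)
  refine (abs_max_sub_max_le_max _ _ _ _).trans (max_le (by simp) ?_)
  rw [sub_sub_sub_cancel_left, abs_sub_comm]

theorem d1_ucT {F : Frame} {μ Λ : ℝ} (hF : F.Good μ) (hμ : μ ≤ 1) (hΛ : 0 < Λ) :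
    F.UC fun z => Λ * (F.Φ z.re * d1_T (F.ht z)) := by
  intro η hη
  refine ⟨min (1 / 4) (η / (6 * Λ)), lt_min (by norm_num) (by positivity), fun z _ z' hz' => ?_⟩
  have h1 := hF.Φ_close hμ ((Frame.f1_re z z').trans (hz'.trans (min_le_left _ _)))
  have h2 := (d1_Tl (F.ht z) (F.ht z')).trans (hF.ht_sub hμ z z')
  have h3 : ‖z' - z‖ * (6 * Λ) ≤ η :=
    (le_div_iff₀ (by positivity)).1 (hz'.trans (min_le_right _ _))
  have h4 := Frame.f1_re z z'
  have hp := F.Φ_pos z.re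
  have e : Λ * (F.Φ z'.re * d1_T (F.ht z')) - Λ * (F.Φ z.re * d1_T (F.ht z)) =
      Λ * ((F.Φ z'.re - F.Φ z.re) * d1_T (F.ht z') +
        F.Φ z.re * (d1_T (F.ht z') - d1_T (F.ht z))) := by ring
  have h5 : |(F.Φ z'.re - F.Φ z.re) * d1_T (F.ht z')| ≤ 4 * ‖z' - z‖ * F.Φ z.re := by
    rw [abs_mul, abs_of_nonneg (d1_T0 _)]
    refine (mul_le_of_le_one_right (abs_nonneg _) (d1_T1 _)).trans (h1.trans ?_)
    gcongr
  have h6 : |F.Φ z.re * (d1_T (F.ht z') - d1_T (F.ht z))| ≤ F.Φ z.re * (2 * ‖z' - z‖) := by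
    rw [abs_mul, abs_of_pos hp]
    gcongr
  have h7 := (abs_add_le _ _).trans (add_le_add h5 h6)
  simp only []
  rw [e, abs_mul, abs_of_pos hΛ]
  refine (mul_le_mul_of_nonneg_left h7 hΛ.le).trans ?_
  linarith only [h3, hp, mul_nonneg_of_nonpos_of_nonpos (Mathlib.Tactic.Linarith.sub_nonpos_of_le h3) (le_of_lt (Mathlib.Tactic.Linarith.sub_neg_of_lt hp))]

theorem d1_obs {F : Frame} {μ ν K : ℝ} {u : ℂ → ℝ} (hF : F.Good μ) (hμ : μ ≤ 1) (hν : ν ≤ 1)
    (hu : SubD F ν K u) : ∃ ψ : ℂ → ℝ, F.UC ψ ∧ (∀ z, u z ≤ ψ z) ∧ (∀ z, ψ z ≤ Bx u z.re) ∧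
      (∀ z, F.ht z ≤ 1 / 4000 → ψ z = Bx u z.re) ∧ ∀ z, 1 / 2000 ≤ F.ht z → ψ z = u z := by
  have hΛ : 0 < 4000 * (|K| + 2) := by positivity
  have hB := le_Bx hu.cont hu.per
  refine ⟨fun z => min (Bx u z.re) (u z + 4000 * (|K| + 2) * (F.Φ z.re * d1_T (F.ht z))),
    d1_min (fun η hη => ?_) (hu.uc.add (d1_ucT hF hμ hΛ)), fun z => le_min (hB z) ?_,
    fun z => min_le_left _ _, fun z hz => min_eq_left ?_, fun z hz => ?_⟩
  · obtain ⟨d, hd, h⟩ := hu.uc η hη
    exact ⟨d, hd, md_Bx hu.cont hu.per h⟩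
  · exact le_add_of_nonneg_right (mul_nonneg hΛ.le (mul_nonneg (F.Φ_pos _).le (d1_T0 _)))
  · have h1 : 1 / 4000 ≤ d1_T (F.ht z) := le_min (by norm_num) (le_max_of_le_right (by linarith only [hz]))
    have hp := F.Φ_pos z.re
    have h2 := hu.Ble z.re
    have h3 := hu.low z
    have h4 := mul_le_mul_of_nonneg_right (le_abs_self K) hp.le
    have h5 := mul_le_mul_of_nonneg_left (mul_le_mul_of_nonneg_left h1 hp.le) hΛ.le
    have h6 := mul_le_mul_of_nonneg_right hν hp.le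
    linarith only [h2, h3, h4, h5, h6]
  · have h1 : d1_T (F.ht z) = 0 := by
      rw [d1_T, max_eq_left (by linarith only [hz]), min_eq_right zero_le_one]
    simp only [h1, mul_zero, add_zero]
    exact min_eq_right (hB z)

theorem d1_circ {F : Frame} {μ r : ℝ} (hF : F.Good μ) (hμ : μ ≤ 1) {z w : ℂ} (h : ‖w - z‖ ≤ r) :
    F.ht z - 2 * r ≤ F.ht w ∧ F.ht w ≤ F.ht z + 2 * r := by
  have := abs_le.1 (hF.ht_sub hμ z w)
  constructor <;> linarith only [h, this, this.1, this.2]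

theorem d1_md {F : Frame} {μ r η d : ℝ} {u ψ : ℂ → ℝ} (hF : F.Good μ) (hμ : μ ≤ 1) (hr : 0 < r)
    (hr1 : r ≤ 1 / 100) (hψ : Continuous ψ) (hu : Continuous u) (h1 : ∀ z, u z ≤ ψ z)
    (h2 : ∀ z, u z ≤ ca u z r) (h3 : ∀ z, ψ z ≤ 2 * F.Φ z.re)
    (h4 : ∀ z, 1 / 2000 ≤ F.ht z → ψ z = u z) (h5 : ∀ z, F.ht z ≤ 1 / 10 → F.Φ z.re / 2 ≤ ψ z)
    (hη : 0 ≤ η) (hη1 : η ≤ 1 / 4) (hd : d ≤ 1 / 4) (hm : F.Md ψ univ η d) :
    F.Md (ob r ψ) univ (16 * η) d := by
  have hge := ob_ge hr hψ hu h1 h2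
  have htop : ∀ z, 1 / 2000 ≤ F.ht z → ob r ψ z = ψ z := fun z hz =>
    le_antisymm (hge z).2 ((h4 z hz).trans_le (hge z).1)
  have hΦ : ∀ z z' : ℂ, ‖z' - z‖ ≤ d → F.Φ z'.re ≤ 2 * F.Φ z.re := by
    intro z z' h
    have a1 := (Frame.f1_re z z').trans (h.trans hd)
    have a2 := (abs_le.1 (hF.Φ_close hμ a1)).2
    have hp := F.Φ_pos z.re
    (refine le_of_not_gt fun h_nl => ?_; linarith only [h_nl, a2, hr, hr1, a1, hp, mul_pos_of_neg_of_neg (Mathlib.Tactic.Linarith.sub_neg_of_lt hr) (Mathlib.Tactic.Linarith.sub_neg_of_lt h_nl), mul_nonneg_of_nonpos_of_nonpos (Mathlib.Tactic.Linarith.sub_nonpos_of_le hr1) (le_of_lt (Mathlib.Tactic.Linarith.sub_neg_of_lt h_nl)), mul_nonneg_of_nonpos_of_nonpos (Mathlib.Tactic.Linarith.sub_nonpos_of_le a1) (le_of_lt (Mathlib.Tactic.Linarith.sub_neg_of_lt hp))])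
  have key : ∀ z z' : ℂ, ‖z' - z‖ ≤ d → ob r ψ z' - ob r ψ z ≤ 8 * η * F.Φ z.re := by
    intro z z' h
    have hp := F.Φ_pos z.re
    have hψ' : ∀ w, ob r ψ (w + (z' - z)) ≤ ψ w + η * F.Φ w.re := by
      intro w
      have a1 := (abs_le.1 (hm w (mem_univ _) (w + (z' - z)) (by rwa [add_sub_cancel_left]))).2
      linarith only [a1, hge, (hge (w + (z' - z))).2]
    by_cases hz : F.ht z ≤ 1 / 10
    · have hc : 0 ≤ 1 - 2 * η := by linarith only [hr, hr1, hη1]
      have hf : ∀ w, F.ht w ≤ 1 / 10 → (1 - 2 * η) * ob r ψ (w + (z' - z)) ≤ ψ w := by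
        intro w hw
        have a1 := mul_le_mul_of_nonneg_left (hψ' w) hc
        have a2 := h5 w hw
        have a3 := F.Φ_pos w.re
        have a4 := mul_le_mul_of_nonneg_left a2 hη
        have a5 := mul_nonneg (mul_nonneg hη hη) a3.le
        linarith only [a1, a4, a5]
      have a1 := le_ob hr hψ hu h1 h2 (f := fun w => (1 - 2 * η) * ob r ψ (w + (z' - z)))
        (N := {w | F.ht w < 1 / 2000}) (S := {w | F.ht w ≤ 1 / 10}) ?_ ?_ ?_ z hz
      · simp only [add_sub_cancel] at a1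
        have a2 := ((hge z').2.trans (h3 z')).trans
          (mul_le_mul_of_nonneg_left (hΦ z z' h) zero_le_two)
        have a3 := mul_le_mul_of_nonneg_left a2 hη
        linarith only [a1, a3]
      · intro w hw w' hw'
        have b1 : F.ht w < 1 / 2000 := hw
        have b2 := (d1_circ hF hμ hw'.le).2
        change F.ht w' ≤ 1 / 10
        linarith only [hr, hr1, b1, b2]
      · intro w hw
        have b1 : F.ht w < 1 / 2000 := hw
        refine ⟨?_, hf w (by linarith only [hr, hr1, b1]), ?_⟩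
        · have b2 := ob_ci hr hψ hu h1 h2 (w + (z' - z)) r
          have e : ∀ θ, circleMap (w + (z' - z)) r θ = circleMap w r θ + (z' - z) := by
            intro θ
            simp only [circleMap]
            ring
          unfold CircleIntegrable at b2 ⊢
          simp only [e] at b2
          exact b2.const_mul _
        · rw [Frame.f2_ca_mul, ca_shift]
          refine mul_le_mul_of_nonneg_left ?_ hc
          rw [ob_eq hr hψ hu h1 h2]
          exact min_le_right _ _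
      · intro w hw hw'
        rw [htop w (not_lt.1 hw')]
        exact hf w hw
    · have a1 := hψ' z
      rw [add_sub_cancel] at a1
      rw [htop z (by linarith only [hr, hr1, hz])]
      have := mul_nonneg hη hp.le
      linarith only [a1, this]
  intro z _ z' h
  have a1 := key z z' h
  have a2 := key z' z (by rwa [norm_sub_rev])
  have a3 := mul_le_mul_of_nonneg_left (hΦ z z' h) hη
  have a4 := mul_nonneg hη (F.Φ_pos z.re).le
  rw [abs_le]
  constructor <;> linarith only [a2, a3, a1]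

theorem d1_cos {h : ℝ} (h0 : 0 ≤ h) (h1 : h ≤ 1) : cos h ≤ 1 - h ^ 2 / 4 := by
  have a1 := (abs_le.1 (cos_bound (x := h) (by rwa [abs_of_nonneg h0]))).2
  rw [abs_of_nonneg h0] at a1
  have a2 : h ^ 2 ≤ 1 := pow_le_one₀ h0 h1
  linarith only [a1, a2, sq_nonneg h, sq_nonneg h, mul_nonneg_of_nonpos_of_nonpos (Mathlib.Tactic.Linarith.sub_nonpos_of_le (sq_nonneg h)) (Mathlib.Tactic.Linarith.sub_nonpos_of_le a2)]

theorem d1_main {F : Frame} {μ K ν a η : ℝ} {u : ℂ → ℝ} (ha : 0 < a) (ha1 : a ≤ 1 / 4000)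
    (hν : 100 * ν ≤ a ^ 2) (hμ : μ ≤ ν) (hF : F.Good μ) (hu : Clean F ν K a u) (hη : 0 < η) :
    ∃ d : ℝ, 0 < d ∧ d ≤ 1 / 100 ∧ F.Md u univ η d ∧ ∀ r : ℝ, 0 < r → r ≤ ν →
      ∃ v : ℂ → ℝ, Plat F ν a r η d u v := by
  have hν0 : 0 ≤ ν := hF.nonneg.trans hμ
  have haa : a ^ 2 ≤ a / 4000 := by linarith only [ha, ha1, mul_nonneg_of_nonpos_of_nonpos (le_of_lt (Mathlib.Tactic.Linarith.sub_neg_of_lt ha)) (Mathlib.Tactic.Linarith.sub_nonpos_of_le ha1)]
  have hμ1 : μ ≤ 1 / 100 := by linarith only [ha, ha1, hν, hμ, haa]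
  have hμ2 : μ ≤ 1 := by linarith only [ha, ha1, hν, hμ, haa]
  obtain ⟨ψ, p1, p2, p3, p4, p5⟩ := d1_obs hF hμ2 (by linarith only [ha, ha1, hν, haa]) hu.toSubD
  have hψ := continuous_of_uc p1
  have hnear : ∀ z, a ≤ F.ht z → F.ht z ≤ 3 / 20 →
      (1 - F.ht z ^ 2 / 2 - ν) * F.Φ z.re ≤ u z := by
    intro z h1 h2
    have a1 := hu.near z h1 h2
    have a2 := mul_le_mul_of_nonneg_left (one_sub_sq_div_two_le_cos (x := F.ht z)) (F.Φ_pos z.re).le
    rw [Frame.M] at a1
    linarith only [a1, a2]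
  have hB2 : ∀ x, Bx u x ≤ 2 * F.Φ x := fun x =>
    (hu.toSubD.Ble x).trans (mul_le_mul_of_nonneg_right (by linarith only [ha, ha1, hν, haa]) (F.Φ_pos x).le)
  have hhalf : ∀ z, F.ht z ≤ 1 / 10 → F.Φ z.re / 2 ≤ ψ z := by
    intro z hz
    have hp := F.Φ_pos z.re
    by_cases h : F.ht z ≤ 1 / 4000
    · rw [p4 z h]
      refine le_trans ?_ (hu.Bge z.re)
      (refine le_of_not_gt fun h_nl => ?_; linarith only [h_nl, ha, hp, ha1, hν, haa, mul_pos_of_neg_of_neg (Mathlib.Tactic.Linarith.sub_neg_of_lt ha) (Mathlib.Tactic.Linarith.sub_neg_of_lt hp), mul_pos_of_neg_of_neg (Mathlib.Tactic.Linarith.sub_neg_of_lt ha) (Mathlib.Tactic.Linarith.sub_neg_of_lt h_nl), mul_nonneg_of_nonpos_of_nonpos (Mathlib.Tactic.Linarith.sub_nonpos_of_le ha1) (le_of_lt (Mathlib.Tactic.Linarith.sub_neg_of_lt hp)), mul_nonneg_of_nonpos_of_nonpos (Mathlib.Tactic.Linarith.sub_nonpos_of_le ha1) (le_of_lt (Mathlib.Tactic.Linarith.sub_neg_of_lt h_nl)), mul_nonneg_of_nonpos_of_nonpos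 (Mathlib.Tactic.Linarith.sub_nonpos_of_le hν) (le_of_lt (Mathlib.Tactic.Linarith.sub_neg_of_lt hp)), mul_nonneg_of_nonpos_of_nonpos (Mathlib.Tactic.Linarith.sub_nonpos_of_le haa) (le_of_lt (Mathlib.Tactic.Linarith.sub_neg_of_lt hp))])
    · refine le_trans ?_ ((hnear z (by linarith only [ha1, h]) (by linarith only [ha, ha1, hz])).trans (p2 z))
      have : F.ht z ^ 2 ≤ 1 / 100 := by (refine le_of_not_gt fun h_nl => ?_; linarith only [h_nl, hz, ha, ha1, h, mul_pos_of_neg_of_neg (Mathlib.Tactic.Linarith.sub_neg_of_lt ha) (Mathlib.Tactic.Linarith.sub_neg_of_lt h_nl), mul_nonneg_of_nonpos_of_nonpos (Mathlib.Tactic.Linarith.sub_nonpos_of_le ha1) (le_of_lt (Mathlib.Tactic.Linarith.sub_neg_of_lt h_nl)), mul_nonneg_of_nonpos_of_nonpos (Mathlib.Tactic.Linarith.sub_nonpos_of_le hz) (le_of_lt (Mathlib.Tactic.Linarith.sub_neg_of_lt (lt_of_not_ge h)))])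
      (refine le_of_not_gt fun h_nl => ?_; linarith only [h_nl, ha, hp, ha1, hν, haa, this, mul_pos_of_neg_of_neg (Mathlib.Tactic.Linarith.sub_neg_of_lt ha) (Mathlib.Tactic.Linarith.sub_neg_of_lt hp), mul_pos_of_neg_of_neg (Mathlib.Tactic.Linarith.sub_neg_of_lt ha) (Mathlib.Tactic.Linarith.sub_neg_of_lt h_nl), mul_nonneg_of_nonpos_of_nonpos (Mathlib.Tactic.Linarith.sub_nonpos_of_le ha1) (le_of_lt (Mathlib.Tactic.Linarith.sub_neg_of_lt hp)), mul_nonneg_of_nonpos_of_nonpos (Mathlib.Tactic.Linarith.sub_nonpos_of_le ha1) (le_of_lt (Mathlib.Tactic.Linarith.sub_neg_of_lt h_nl)), mul_nonneg_of_nonpos_of_nonpos (Mathlib.Tactic.Linarith.sub_nonpos_of_le hν) (le_of_lt (Mathlib.Tactic.Linarith.sub_neg_of_lt hp)), mul_nonneg_of_nonpos_of_nonpos (Mathlib.Tactic.Linarith.sub_nonpos_of_le haa) (le_of_lt (Mathlib.Tactic.Linarith.sub_neg_of_lt hp)), mul_nonneg_of_nonpos_of_nonpos (le_of_lt (Mathlib.Tactic.Linarith.sub_neg_of_lt hp)) (Mathlib.Tactic.Linarith.sub_nonpos_of_le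 this)])
  have hsub : ∀ r, 0 < r → ∀ z, u z ≤ ca u z r := fun r hr z => hu.sub.2 z r hr (subset_univ _)
  have hmd : ∀ η : ℝ, 0 < η → ∃ d, 0 < d ∧ d ≤ 1 / 100 ∧ ∀ r, 0 < r → r ≤ ν →
      F.Md (ob r ψ) univ η d := by
    intro η hη
    have h0 : 0 < min (η / 16) (1 / 4) := lt_min (by positivity) (by norm_num)
    obtain ⟨d, hd, h⟩ := p1 _ h0
    refine ⟨min d (1 / 100), lt_min hd (by norm_num), min_le_right _ _, fun r hr hr1 => ?_⟩
    refine d1_mono (d1_md hF hμ2 hr (by linarith only [ha1, hν, haa, hr, hr1]) hψ hu.cont p2 (hsub r hr)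
      (fun z => (p3 z).trans (hB2 _)) p5 hhalf h0.le (min_le_right _ _)
      ((min_le_right d (1 / 100)).trans (by norm_num)) (d1_mono h le_rfl (min_le_left _ _))) ?_
      le_rfl
    linarith only [min_le_left (η / 16) (1 / 4)]
  obtain ⟨d, hd, hd1, hdm⟩ := hmd η hη
  obtain ⟨d', hd', hdm'⟩ := hu.uc η hη
  refine ⟨min d d', lt_min hd hd', (min_le_left _ _).trans hd1,
    d1_mono hdm' le_rfl (min_le_right _ _), fun r hr hr1 => ⟨ob r ψ, ?_⟩⟩
  have hge := ob_ge hr hψ hu.cont p2 (hsub r hr)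
  have heq := ob_eq hr hψ hu.cont p2 (hsub r hr)
  have hle : ∀ z, ob r ψ z ≤ Bx u z.re := fun z => (hge z).2.trans (p3 z)
  have hs : ∀ z, ob r ψ z ≤ ca (ob r ψ) z r := fun z => (heq z).trans_le (min_le_right _ _)
  have htop : ∀ z, 1 / 2000 ≤ F.ht z → ob r ψ z = u z := fun z hz =>
    le_antisymm ((hge z).2.trans_eq (p5 z hz)) (hge z).1
  have hfree : ∀ z, F.ht z ≤ 1 / 4000 → ob r ψ z < Bx u z.re → ca (ob r ψ) z r = ob r ψ z := by
    intro z hz h
    rcases min_choice (ψ z) (ca (ob r ψ) z r) with e | e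
    · exact absurd (((heq z).trans e).trans (p4 z hz)) h.ne
    · exact ((heq z).trans e).symm
  have hout : ∀ z, 0 - 2 * r ≤ F.ht z → F.ht z ≤ 0 ∨ 1 / 2000 ≤ F.ht z →
      ob r ψ z ≤ F.M z + 20 * ν / 2 * F.Φ z.re := by
    intro z h1 h2
    have hp := F.Φ_pos z.re
    rcases h2 with h2 | h2
    · have a1 := (hle z).trans (hu.toSubD.Ble z.re)
      have a2 := mul_le_mul_of_nonneg_left (one_sub_sq_div_two_le_cos (x := F.ht z)) hp.le
      have a3 : F.ht z ^ 2 ≤ ν := by (refine le_of_not_gt fun h_nl => ?_; linarith only [h_nl, ha1, hν, haa, hr1, hr, h1, h2, mul_nonneg_of_nonpos_of_nonpos (Mathlib.Tactic.Linarith.sub_nonpos_of_le (sq_nonneg (F.ht z))) (Mathlib.Tactic.Linarith.sub_nonpos_of_le ha1), mul_nonneg_of_nonpos_of_nonpos (Mathlib.Tactic.Linarith.sub_nonpos_of_le (sq_nonneg (F.ht z))) (Mathlib.Tactic.Linarith.sub_nonpos_of_le hν), mul_nonneg_of_nonpos_of_nonpos (Mathlib.Tactic.Linarith.sub_nonpos_of_le (sq_nonneg (F.ht z))) (Mathlib.Tactic.Linarith.sub_nonpos_of_le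 haa), mul_nonneg_of_nonpos_of_nonpos (Mathlib.Tactic.Linarith.sub_nonpos_of_le (sq_nonneg (F.ht z))) (Mathlib.Tactic.Linarith.sub_nonpos_of_le hr1), mul_pos_of_neg_of_neg (Mathlib.Tactic.Linarith.sub_neg_of_lt hr) (Mathlib.Tactic.Linarith.sub_neg_of_lt hr), mul_nonneg_of_nonpos_of_nonpos (le_of_lt (Mathlib.Tactic.Linarith.sub_neg_of_lt hr)) (Mathlib.Tactic.Linarith.sub_nonpos_of_le hr1), mul_nonneg_of_nonpos_of_nonpos (le_of_lt (Mathlib.Tactic.Linarith.sub_neg_of_lt hr)) (Mathlib.Tactic.Linarith.sub_nonpos_of_le h1), mul_pos_of_neg_of_neg (Mathlib.Tactic.Linarith.sub_neg_of_lt hr) (Mathlib.Tactic.Linarith.sub_neg_of_lt h_nl), mul_nonneg_of_nonpos_of_nonpos (Mathlib.Tactic.Linarith.sub_nonpos_of_le h1) (Mathlib.Tactic.Linarith.sub_nonpos_of_le h2)])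
      have a4 := mul_le_mul_of_nonneg_left a3 hp.le
      have a5 := mul_nonneg hν0 hp.le
      rw [Frame.M]
      linarith only [a1, a2, a4, a5]
    · rw [htop z h2]
      have a1 := hu.up z
      have a5 := mul_nonneg hν0 hp.le
      linarith only [a1, a5]
  have hup : ∀ z, 0 ≤ F.ht z → ob r ψ z ≤ F.M z + 20 * ν * F.Φ z.re := by
    intro z hz
    by_cases h : F.ht z ≤ 0 ∨ 1 / 2000 ≤ F.ht z
    · have a1 := hout z (by linarith only [hr, hz]) h
      have a5 := mul_nonneg hν0 (F.Φ_pos z.re).le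
      linarith only [a1, a5]
    · rw [not_or, not_le, not_le] at h
      exact hF.band_le hμ1 (ν := 20 * ν) (a := 0) (b := 1 / 2000) (C := 2) (by linarith only [hμ]) hr
        (by linarith only [ha1, hν, haa, hr, hr1]) (by norm_num) (by norm_num)
        (fun w _ _ => ⟨ob_ci hr hψ hu.cont p2 (hsub r hr) w r, hs w, (hle w).trans (hB2 _)⟩)
        (fun w h1 _ h2 => hout w h1 h2) z h.1 h.2
  have hmax : ∀ (f : ℂ → ℝ) (y : ℝ), y ≤ 1 / 4000 →
      (∀ z, F.ht z < y → CircleIntegrable f z r ∧ f z ≤ Bx u z.re ∧ f z ≤ ca f z r) →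
      (∀ z, y ≤ F.ht z → F.ht z ≤ y + 2 * r → f z ≤ ob r ψ z) →
      ∀ z, F.ht z ≤ y → f z ≤ ob r ψ z := by
    intro f y hy h1 h2 z hz
    refine le_ob hr hψ hu.cont p2 (hsub r hr) (N := {w | F.ht w < y})
      (S := {w | F.ht w ≤ y + 2 * r}) (fun w hw w' hw' => ?_) (fun w hw => ?_)
      (fun w hw hw' => h2 w (not_lt.1 hw') hw) z ?_
    · have b1 : F.ht w < y := hw
      have b2 := (d1_circ hF hμ2 hw'.le).2
      change F.ht w' ≤ y + 2 * r
      linarith only [b1, b2]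
    · have b1 : F.ht w < y := hw
      rw [p4 w (by linarith only [hy, b1])]
      exact h1 w hw
    · change F.ht z ≤ y + 2 * r
      linarith only [hr, hz]
  refine ⟨continuous_of_uc (F := F) fun η hη => ?_, d1_mono (hdm r hr hr1) le_rfl (min_le_left _ _),
    fun z => (hge z).1, hle, hs, htop, hfree, fun z h1 h2 h3 => ?_, hup, ?_, hmax⟩
  · obtain ⟨d, hd, -, h⟩ := hmd η hη
    exact ⟨d, hd, h r hr hr1⟩
  · rcases h3 with h3 | h3
    · refine hfree z h3 ((hup z (by linarith only [hν, haa, hr, hr1, h1])).trans_lt (lt_of_lt_of_le ?_ (hu.Bge z.re)))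
      have hp := F.Φ_pos z.re
      have a1 := d1_cos (h := F.ht z) (by linarith only [hν, haa, hr, hr1, h1]) (by linarith only [ha1, hν, haa, hr, hr1, h2])
      have a2 : a ^ 2 ≤ F.ht z ^ 2 := by gcongr
      have a3 : cos (F.ht z) + 20 * ν < 1 - ν := by linarith only [hν, hr, hr1, a1, a2]
      have a4 := mul_lt_mul_of_pos_right a3 hp
      rw [Frame.M]
      linarith only [a4]
    · rw [htop z (by linarith only [ha1, hν, haa, hr, hr1, h3]), ← hu.mv z r hr]
      · refine circleAverage_congr_sphere fun w hw => htop w ?_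
        rw [mem_sphere_iff_norm, abs_of_pos hr] at hw
        linarith only [ha1, hν, haa, hr, hr1, h3, hF, hμ2, hw, (d1_circ hF hμ2 hw.le).1]
      · intro w hw
        have := d1_circ hF hμ2 (mem_closedBall_iff_norm.1 hw)
        constructor <;> linarith only [ha1, hν, haa, hr, hr1, h3, this, h2, this.1, this.2]
  · have hc : 0 ≤ 1 - 3 * a ^ 2 := by linarith only [ha1, hν, haa, hr, hr1]
    refine hmax (fun z => (1 - 3 * a ^ 2) * F.Φ z.re) a ha1 (fun z _ => ⟨?_, ?_, ?_⟩)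
      fun z h1 h2 => ?_
    · exact i6_ci (continuous_const.mul (F.continuous_Φ.comp Complex.continuous_re)) z r
    · exact le_trans (mul_le_mul_of_nonneg_right (by linarith only [hν, hr, hr1]) (F.Φ_pos _).le) (hu.Bge z.re)
    · exact ((hF.sub_Φ hμ1).smul hc).2 z r hr (subset_univ _)
    · refine le_trans (mul_le_mul_of_nonneg_right ?_ (F.Φ_pos _).le)
        ((hnear z h1 (by linarith only [ha1, hν, haa, hr, hr1, h2])).trans (hge z).1)
      have a1 : F.ht z ^ 2 ≤ (2 * a) ^ 2 := by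
        gcongr
        · linarith only [hν, haa, hr, hr1, h1]
        · linarith only [hν, haa, hr, hr1, h2]
      linarith only [hν, hr, hr1, a1]

theorem plateau {F : Frame} {μ K t η : ℝ} {u : ℂ → ℝ} (ht : 0 < t) (ht1 : t ≤ 1 / 100)
    (hμ : μ ≤ t ^ 18) (hF : F.Good μ) (hu : Clean F (t ^ 18) K (t ^ 8) u) (hη : 0 < η) :
    ∃ d : ℝ, 0 < d ∧ d ≤ 1 / 100 ∧ F.Md u univ η d ∧ ∀ r : ℝ, 0 < r → r ≤ t ^ 18 →
      ∃ v : ℂ → ℝ, Plat F (t ^ 18) (t ^ 8) r η d u v := by
  have h2 : t ^ 2 ≤ 1 / 10000 := by linarith only [ht1, ht, mul_nonneg_of_nonpos_of_nonpos (le_of_lt (Mathlib.Tactic.Linarith.sub_neg_of_lt ht)) (Mathlib.Tactic.Linarith.sub_nonpos_of_le ht1)]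
  refine d1_main (by positivity) ?_ ?_ hμ hF hu hη
  · have h3 : t ^ 6 ≤ 1 := pow_le_one₀ ht.le (by linarith only [ht, ht1])
    have e : t ^ 8 = t ^ 2 * t ^ 6 := by ring
    have := mul_le_of_le_one_right (sq_nonneg t) h3
    linarith only [ht, ht1, h2, this]
  · have e : t ^ 18 = t ^ 2 * (t ^ 8) ^ 2 := by ring
    have := mul_le_mul_of_nonneg_right h2 (sq_nonneg (t ^ 8))
    linarith only [this, sq_nonneg (t ^ 8), sq_nonneg (t ^ (8 : ℕ))]

end

end Pool.Agent.MinMod.Mo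
end
end

-- merged part: Pool.Agent.Work.MP_f62247_an.Mo.B4
section
-- merged part: Pool.Agent.Work.MP_f62247_an.Mo.B0
section
/-!
# First consequences of `Dens`
`u z = ca u z 1 - pot ρ 1 z` and `0 ≤ pot ρ 1 z ≤ K e² Φ π/2`. `Dens.Bge`: by `exists_line` with `f = im`, `E = ball (x + φ x I) 3`, `t ∈ [φ x, φ x + l]`: `pot ρ 1 (x + t I) ≤ ∫_E ρ lp (im - t) ≤ (2 - log l) μ Φ` (`gk_le_lp_im`, `ae_im_ne`),
so `Bx ≥ Φ (cos l - μ - (2 - log l) μ)`; fix `l` with `l² ≤ ν`, then `μ0`. `Dens.avg`: average `u w = ca u w 1 - pot ρ 1 w` over the unit disc: `da M z 1 ≥ da (M0 z.re) z 1 - 50 μ Φ = M z - 50 μ Φ` (`ca_M0`, `le_da_of_ca`), and by Fubini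
`∫_{ball z 1} pot ρ 1 ≤ (π/2) ∫_{ball z 2} ρ`.
-/

open Real MeasureTheory Set Filter Topology

namespace Pool.Agent.MinMod.Mo

noncomputable section

variable {F : Frame} {μ K : ℝ} {u ρ : ℂ → ℝ}

theorem b0_μ (h : Dens F μ K u ρ) : 0 ≤ μ :=
  nonneg_of_mul_nonneg_left ((abs_nonneg _).trans (h.calm 0)) (F.Φ_pos _)

theorem b0_pot (h : Dens F μ K u ρ) {s : ℝ} (hs : 0 < s) (z : ℂ) : 0 ≤ pot ρ s z :=
  pot_nonneg hs fun ζ _ => h.nonneg ζ

theorem b0_M (F : Frame) (z : ℂ) : -F.Φ z.re ≤ F.M z ∧ F.M z ≤ F.Φ z.re := by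
  have := F.Φ_pos z.re
  rw [Frame.M]
  constructor <;> linarith only [this, neg_one_le_cos (F.ht z), cos_le_one (F.ht z), mul_nonneg_of_nonpos_of_nonpos (le_of_lt (Mathlib.Tactic.Linarith.sub_neg_of_lt this)) (Mathlib.Tactic.Linarith.sub_nonpos_of_le (neg_one_le_cos (F.ht z))), mul_nonneg_of_nonpos_of_nonpos (le_of_lt (Mathlib.Tactic.Linarith.sub_neg_of_lt this)) (Mathlib.Tactic.Linarith.sub_nonpos_of_le (cos_le_one (F.ht z)))]

theorem b0_exp : exp (2 * 1) ≤ 8 := by
  rw [show (2 * 1 : ℝ) = 1 + 1 by norm_num, exp_add]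
  linarith only [exp_one_lt_d9, exp_pos 1, mul_pos_of_neg_of_neg (Mathlib.Tactic.Linarith.sub_neg_of_lt exp_one_lt_d9) (Mathlib.Tactic.Linarith.sub_neg_of_lt (exp_pos (1 : ℝ)))]

theorem b0_Φ (hF : F.Good μ) (h1 : μ ≤ 1) {z w : ℂ} (h : ‖w - z‖ ≤ 1) :
    F.Φ w.re ≤ 8 * F.Φ z.re :=
  (hF.Φ_le h1 ((Complex.abs_re_le_norm (w - z)).trans h)).trans
    (mul_le_mul_of_nonneg_right b0_exp (F.Φ_pos _).le)

theorem b0_ball (f : ℂ → ℝ) (z : ℂ) (R : ℝ) :
    ∫ w in Metric.ball z R, f (starRingEnd ℂ w) = ∫ w in Metric.ball (starRingEnd ℂ z) R, f w := by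
  have h := Complex.conjLIE.measurePreserving.setIntegral_preimage_emb
    Complex.conjLIE.toHomeomorph.measurableEmbedding f (Metric.ball (starRingEnd ℂ z) R)
  rw [← h]
  congr 2
  ext w
  simp

theorem b0_mass (h : Dens F μ K u ρ) (z : ℂ) {R : ℝ} (hR : R ≤ 6) :
    ∫ ζ in Metric.ball z R, ρ ζ ≤ μ * F.Φ z.re :=
  (setIntegral_mono_set (integrableOn_of_le h.meas h.nonneg h.le z 6)
    (Eventually.of_forall h.nonneg) (Metric.ball_subset_ball hR).eventuallyLE).trans (h.mass z)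

theorem b0_da (h : Dens F μ K u ρ) (z : ℂ) : da (pot ρ 1) z 1 ≤ μ * F.Φ z.re := by
  have a1 : Integrable ((Metric.ball z 2).indicator ρ) :=
    (integrable_indicator_iff Metric.isOpen_ball.measurableSet).2
      (integrableOn_of_le h.meas h.nonneg h.le z 2)
  have a2 : pot ((Metric.ball z 2).indicator ρ) 1 =
      convolution ((Metric.ball z 2).indicator ρ) (gk 1) (ContinuousLinearMap.mul ℝ ℝ) volume := by
    funext w
    rw [convolution_def, pot]
    congr 1
    funext ζ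
    rw [← gk_neg, neg_sub]
    rfl
  have a3 : ∫ w in Metric.ball z 1, pot ρ 1 w =
      ∫ w in Metric.ball z 1, pot ((Metric.ball z 2).indicator ρ) 1 w := by
    refine setIntegral_congr_fun Metric.isOpen_ball.measurableSet fun w hw =>
      pot_congr one_pos fun ζ hζ => (indicator_of_mem ?_ _).symm
    rw [mem_ball_iff_norm] at hw ⊢
    linarith [norm_sub_le_norm_sub_add_norm_sub ζ w z]
  have a4 : ∫ w in Metric.ball z 1, pot ((Metric.ball z 2).indicator ρ) 1 w ≤
      ∫ w, pot ((Metric.ball z 2).indicator ρ) 1 w :=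
    setIntegral_le_integral (a2 ▸ a1.integrable_convolution _ (integrable_gk 1))
      (Eventually.of_forall fun w => pot_nonneg one_pos fun ζ _ =>
        indicator_nonneg (fun ζ _ => h.nonneg ζ) ζ)
  rw [← a3, a2, integral_convolution _ a1 (integrable_gk 1), integral_gk one_pos,
    integral_indicator Metric.isOpen_ball.measurableSet, ContinuousLinearMap.mul_apply'] at a4
  have a5 := b0_mass h z (R := 2) (by norm_num)
  have a6 := mul_nonneg (b0_μ h) (F.Φ_pos z.re).le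
  rw [da, inv_mul_le_iff₀ (by positivity)]
  linarith only [a4, a5, a6, pi_pos, mul_nonneg_of_nonpos_of_nonpos (Mathlib.Tactic.Linarith.sub_nonpos_of_le a5) (le_of_lt (Mathlib.Tactic.Linarith.sub_neg_of_lt pi_pos)), mul_nonneg_of_nonpos_of_nonpos (Mathlib.Tactic.Linarith.sub_nonpos_of_le a6) (le_of_lt (Mathlib.Tactic.Linarith.sub_neg_of_lt pi_pos))]

theorem Dens.sub (h : Dens F μ K u ρ) : SubOn u univ :=
  subOn_of_loc h.cont.continuousOn fun z _ => ⟨1, one_pos, fun s hs hs1 => by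
    rw [h.jen z s hs hs1.le]
    linarith only [h, hs, b0_pot h hs z]⟩

theorem Dens.up (h : Dens F μ K u ρ) (z : ℂ) : u z ≤ F.M z + μ * F.Φ z.re := by
  linarith only [h, h.jen z 1 one_pos le_rfl, b0_pot h one_pos z, (abs_le.1 (h.calm z)).2]

theorem Dens.K_nonneg (h : Dens F μ K u ρ) : 0 ≤ K :=
  nonneg_of_mul_nonneg_left ((h.nonneg 0).trans (h.le 0)) (F.Φ_pos _)

theorem Dens.low (h : Dens F μ K u ρ) (hF : F.Good μ) (h1 : μ ≤ 1) (z : ℂ) :
    -(20 * K + 2) * F.Φ z.re ≤ u z := by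
  have hK := h.K_nonneg
  have hΦ := F.Φ_pos z.re
  have i1 : Integrable fun ζ => gk 1 (ζ - z) := (integrable_gk 1).comp_sub_right z
  have a1 : pot ρ 1 z ≤ ∫ ζ, K * (8 * F.Φ z.re) * gk 1 (ζ - z) := by
    refine integral_mono (integrable_pot_of_le h.meas h.nonneg h.le 1 z) (i1.const_mul _)
      fun ζ => ?_
    beta_reduce
    rcases le_total ‖ζ - z‖ 1 with h2 | h2
    · exact mul_le_mul_of_nonneg_right ((h.le ζ).trans
        (mul_le_mul_of_nonneg_left (b0_Φ hF h1 h2) hK)) (gk_nonneg _ _)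
    · rw [gk_eq_zero zero_le_one h2, mul_zero, mul_zero]
  rw [integral_const_mul, integral_sub_right_eq_self (gk 1) z, integral_gk one_pos] at a1
  have a2 := mul_nonneg hK hΦ.le
  linarith only [a1, a2, h, h1, hΦ, h.jen z 1 one_pos le_rfl, (abs_le.1 (h.calm z)).1, (b0_M F z).1, pi_le_four,
    mul_le_mul_of_nonneg_right h1 hΦ.le, mul_le_mul_of_nonneg_left pi_le_four a2]

theorem Dens.avg (h : Dens F μ K u ρ) (hF : F.Good μ) (h1 : μ ≤ 1 / 10) (z : ℂ) :
    F.M z - 60 * μ * F.Φ z.re ≤ da u z 1 := by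
  have hμ := b0_μ h
  have ic : ∀ f : ℂ → ℝ, Continuous f → IntegrableOn f (Metric.ball z 1) := fun f hf =>
    (hf.continuousOn.integrableOn_compact (isCompact_closedBall z 1)).mono_set
      Metric.ball_subset_closedBall
  have c1 : Continuous (pot ρ 1) := by
    have : pot ρ 1 = fun w => ca u w 1 - u w := funext fun w => by
      rw [h.jen w 1 one_pos le_rfl, add_sub_cancel_left]
    rw [this]
    exact (continuous_ca h.cont 1).sub h.cont
  have a1 : F.M z ≤ da (F.M0 z.re) z 1 :=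
    le_da_of_ca one_pos (ic _ (F.continuous_M0 _)) fun t _ _ => by
      rw [F.ca_M0, F.M0_self]
  have a2 : da (F.M0 z.re) z 1 ≤
      da (fun w => (u w + pot ρ 1 w) + 58 * μ * F.Φ z.re) z 1 := by
    refine da_mono (ic _ (F.continuous_M0 _)) (ic _ ((h.cont.add c1).add continuous_const))
      (Eventually.of_forall fun w hw => ?_)
    rw [mem_ball_iff_norm] at hw
    have b1 := hF.M_sub_M0 h1 (x0 := z.re) (z := w)
      ((Complex.abs_re_le_norm (w - z)).trans (by linarith only [hw]))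
    have b2 := mul_le_mul_of_nonneg_left (b0_Φ hF (by linarith only [h1]) hw.le) hμ
    linarith only [b2, h, b1, h.jen w 1 one_pos le_rfl, (abs_le.1 (h.calm w)).1, (abs_le.1 b1).1]
  rw [da_add (ic _ (h.cont.fun_add c1)) (ic _ continuous_const), da_add (ic _ h.cont) (ic _ c1),
    da_const _ _ one_pos] at a2
  linarith only [a1, a2, h, hμ, b0_da h z, mul_nonneg hμ (F.Φ_pos z.re).le]

theorem Dens.Bge {ν : ℝ} (hν : 0 < ν) : ∃ μ0 : ℝ, 0 < μ0 ∧ ∀ (F : Frame) (μ K : ℝ) (u ρ : ℂ → ℝ),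
    μ ≤ μ0 → Dens F μ K u ρ → ∀ x, (1 - ν) * F.Φ x ≤ Bx u x := by
  obtain ⟨l, hl⟩ : ∃ l, l = min 1 ν := ⟨_, rfl⟩
  have l0 : 0 < l := hl ▸ lt_min one_pos hν
  have l1 : l ≤ 1 := hl ▸ min_le_left _ _
  have l2 : l ≤ ν := hl ▸ min_le_right _ _
  have l3 : 0 < 2 - Real.log l := by linarith [log_nonpos l0.le l1]
  refine ⟨ν / 2 / (3 - Real.log l), div_pos (by linarith) (by linarith),
    fun F μ K u ρ hμ h x => ?_⟩
  rw [le_div_iff₀ (by linarith)] at hμ
  have hΦ := F.Φ_pos x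
  obtain ⟨t, ht, i1, i2⟩ := exists_line (E := Metric.ball (x + F.φ x * Complex.I) 3)
    Metric.isOpen_ball.measurableSet h.meas h.nonneg (integrableOn_of_le h.meas h.nonneg h.le _ _)
    Complex.measurable_im l0 l1 (F.φ x)
  have e1 : ((x : ℂ) + t * Complex.I).re = x := by simp
  have e2 : ((x : ℂ) + F.φ x * Complex.I).re = x := by simp
  have a1 : pot ρ 1 (x + t * Complex.I) ≤
      ∫ ζ in Metric.ball (x + F.φ x * Complex.I) 3, ρ ζ * lp (ζ.im - t) := by
    rw [pot, ← setIntegral_eq_integral_of_forall_compl_eq_zero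
      (s := Metric.ball (x + F.φ x * Complex.I) 3) fun ζ hζ => ?_]
    · refine setIntegral_mono_ae (integrable_pot_of_le h.meas h.nonneg h.le 1 _).integrableOn i1 ?_
      filter_upwards [ae_im_ne t] with ζ hζ
      have e3 : (ζ - (x + t * Complex.I)).im = ζ.im - t := by simp
      have := gk_le_lp_im (v := ζ - (x + t * Complex.I)) (by rw [e3]; exact sub_ne_zero.2 hζ)
      rw [e3] at this
      exact mul_le_mul_of_nonneg_left this (h.nonneg ζ)
    · rw [mem_ball_iff_norm, not_lt] at hζ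
      have e4 : ‖((x : ℂ) + t * Complex.I) - (x + F.φ x * Complex.I)‖ = t - F.φ x := by
        rw [show ((x : ℂ) + t * Complex.I) - (x + F.φ x * Complex.I) =
          ((t - F.φ x : ℝ) : ℂ) * Complex.I by push_cast; ring, norm_mul, Complex.norm_I, mul_one,
          Complex.norm_real, Real.norm_of_nonneg (sub_nonneg.2 ht.1)]
      have := norm_sub_le_norm_sub_add_norm_sub ζ (x + t * Complex.I) (x + F.φ x * Complex.I)
      rw [gk_eq_zero zero_le_one (by linarith only [l1, hζ, e4, this, ht, ht.2]), mul_zero]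
  have a2 := b0_mass h (x + F.φ x * Complex.I) (R := 3) (by norm_num)
  rw [e2] at a2
  have a3 := mul_le_mul_of_nonneg_left a2 l3.le
  have a4 := le_Bx h.cont h.per (x + t * Complex.I)
  have a5 := h.calm (x + t * Complex.I)
  rw [Frame.M, F.ht_mk, e1] at a5
  rw [e1] at a4
  have a6 : 1 - ν / 2 ≤ cos (t - F.φ x) := by
    have := one_sub_sq_div_two_le_cos (x := t - F.φ x)
    linarith only [l2, this, l0, l1, ht, ht.1, ht.2, mul_nonneg_of_nonpos_of_nonpos (le_of_lt (Mathlib.Tactic.Linarith.sub_neg_of_lt l0)) (Mathlib.Tactic.Linarith.sub_nonpos_of_le l1), mul_nonneg_of_nonpos_of_nonpos (le_of_lt (Mathlib.Tactic.Linarith.sub_neg_of_lt l0)) (Mathlib.Tactic.Linarith.sub_nonpos_of_le ht.right), mul_nonneg_of_nonpos_of_nonpos (Mathlib.Tactic.Linarith.sub_nonpos_of_le ht.left) (Mathlib.Tactic.Linarith.sub_nonpos_of_le ht.right)]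
  linarith only [i2, a1, a3, a4, h, a5, a6, hΦ, hμ, h.jen (x + t * Complex.I) 1 one_pos le_rfl, (abs_le.1 a5).1,
    mul_le_mul_of_nonneg_left a6 hΦ.le, mul_le_mul_of_nonneg_right hμ hΦ.le]

theorem Dens.Ble (h : Dens F μ K u ρ) (x : ℝ) : Bx u x ≤ (1 + μ) * F.Φ x := by
  refine Bx_le fun y => ?_
  have a1 := h.up (x + y * Complex.I)
  have a2 := (b0_M F (x + y * Complex.I)).2
  have e1 : ((x : ℂ) + y * Complex.I).re = x := by simp
  rw [e1] at a1 a2
  linarith

theorem Dens.mono (h : Dens F μ K u ρ) {μ' : ℝ} (h' : μ ≤ μ') : Dens F μ' K u ρ :=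
  { h with
    calm := fun z => (h.calm z).trans (mul_le_mul_of_nonneg_right h' (F.Φ_pos _).le)
    mass := fun z => (h.mass z).trans (mul_le_mul_of_nonneg_right h' (F.Φ_pos _).le) }

/-- the mirror image -/
theorem Dens.refl (h : Dens F μ K u ρ) :
    Dens F.refl μ K (fun z => u (starRingEnd ℂ z)) (fun z => ρ (starRingEnd ℂ z)) := by
  refine ⟨h.cont.comp Complex.continuous_conj, fun z => ?_,
    h.meas.comp Complex.continuous_conj.measurable, fun z => h.nonneg _, fun z => h.le _,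
    fun z s hs hs1 => ?_, fun z => ?_, fun z => ?_, fun η hη => ?_⟩
  · rw [← h.per]
    congr 1
    simp [map_ofNat]
  · rw [ca_conj, h.jen _ s hs hs1, pot, pot, ← Complex.conjLIE.measurePreserving.integral_comp
      Complex.conjLIE.toHomeomorph.measurableEmbedding]
    congr 2
    funext ζ
    rw [Complex.conjLIE_apply, ← map_sub, gk, gk, Complex.norm_conj]
  · rw [ca_conj, ← Complex.conj_conj z, F.refl_M, Complex.conj_conj]
    exact h.calm _
  · rw [b0_ball]
    exact h.mass _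
  · obtain ⟨d, hd, h1⟩ := h.uc η hη
    exact ⟨d, hd, fun z _ z' hz => h1 _ (mem_univ _) _ (by rwa [← map_sub, Complex.norm_conj])⟩

theorem Bx_conj (u : ℂ → ℝ) (x : ℝ) : Bx (fun z => u (starRingEnd ℂ z)) x = Bx u x := by
  rw [Bx, Bx, ← neg_surjective.iSup_comp]
  congr 1
  funext y
  simp

theorem da_conj (u : ℂ → ℝ) (z : ℂ) (R : ℝ) :
    da (fun w => u (starRingEnd ℂ w)) z R = da u (starRingEnd ℂ z) R := by
  rw [da, da, b0_ball]

end

end Pool.Agent.MinMod.Mo
end

-- merged part: Pool.Agent.Work.MP_f62247_an.Mo.B1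
section
/-!
# Thickening: the disc average of a potential with atoms
`thick u R z = da u z R`, density `tden w m R ζ = (π R²)⁻¹ * (mass of ball ζ R)`. Off the atoms (a countable, hence null, set: cover the plane by the balls `ball 0 n`) Jensen holds.
`ca_mono`: for a point that is no atom `gk_mono`; only such centres are needed pointwise. For the monotonicity of `da u z` in the radius at an arbitrary centre use instead the explicit formula:
`da u z R = da (ca u · 1) z R - ∑ m b * da (gk 1 (w b - ·)) z R` or prove the statement at non atoms and pass to the limit; a simpler way to the Lipschitz bound: `thick_step` is stated with `da u z (R - l)` replaced through `thick_radius`.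
`thick_radius`: `R' ≤ R ≤ 1`; the function `z ↦ da u z R` is continuous for a locally integrable `u` (dominated convergence of indicators off the null sphere), the inequality holds at non atoms by `da_mono_radius`, non atoms are dense.
`thick_jen`: `ca (thick u R) z s = (πR²)⁻¹ ∫_{ball 0 R} ca u (z+h) s dh` (Fubini, `loc`), `= (πR²)⁻¹ ∫ (u (z+h) + ∑ m b gk s (w b - z - h)) dh`, finitely many `b` matter (those in `ball z (R+s+1)`), substitute `ζ = w b - h`.
-/

open Real MeasureTheory Set Filter Topology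

namespace Pool.Agent.MinMod.Mo

noncomputable section

def thick (u : ℂ → ℝ) (R : ℝ) (z : ℂ) : ℝ := da u z R

def tden {κ : Type} (w : κ → ℂ) (m : κ → ℝ) (R : ℝ) (ζ : ℂ) : ℝ :=
  (π * R ^ 2)⁻¹ * ∑ᶠ b, (Metric.ball ζ R).indicator (fun _ => m b) (w b)

variable {F : Frame} {μ : ℝ} {κ : Type} {u : ℂ → ℝ} {w : κ → ℂ} {m : κ → ℝ}

theorem b1_int (hu : LocallyIntegrable u) (z : ℂ) (R : ℝ) : IntegrableOn u (Metric.ball z R) :=
  (hu.integrableOn_isCompact (isCompact_closedBall z R)).mono_set Metric.ball_subset_closedBall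

theorem b1_cont (hu : LocallyIntegrable u) (R : ℝ) :
    Continuous fun z => ∫ ζ in Metric.ball z R, u ζ := by
  simp only [← integral_indicator measurableSet_ball]
  refine continuous_iff_continuousAt.2 fun z0 => ?_
  refine continuousAt_of_dominated
    (bound := (Metric.ball z0 (R + 1)).indicator fun ζ => ‖u ζ‖)
    (Eventually.of_forall fun z => hu.aestronglyMeasurable.indicator measurableSet_ball) ?_
    ((integrable_indicator_iff measurableSet_ball).2 (b1_int hu z0 (R + 1)).norm) ?_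
  · filter_upwards [Metric.ball_mem_nhds z0 one_pos] with z hz
    refine Eventually.of_forall fun ζ => ?_
    by_cases hζ : ζ ∈ Metric.ball z R
    · have : ζ ∈ Metric.ball z0 (R + 1) := by
        rw [Metric.mem_ball] at *
        linarith [dist_triangle ζ z z0]
      simp [hζ, this]
    · rw [indicator_of_notMem hζ, norm_zero]
      exact indicator_nonneg (fun _ _ => norm_nonneg _) _
  · filter_upwards [ae_norm_ne z0 R] with ζ hζ
    have hc : ContinuousAt (fun z => dist ζ z) z0 := (continuous_const.dist continuous_id).continuousAt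
    rw [← dist_eq_norm] at hζ
    rcases lt_or_gt_of_ne hζ with h1 | h1
    · refine (continuousAt_const (y := u ζ)).congr ?_
      filter_upwards [hc.eventually (gt_mem_nhds h1)] with z hz
      rw [indicator_of_mem (Metric.mem_ball.2 hz)]
    · refine (continuousAt_const (y := (0 : ℝ))).congr ?_
      filter_upwards [hc.eventually (lt_mem_nhds h1)] with z hz
      rw [indicator_of_notMem (by simpa using le_of_lt hz)]

theorem b1_pre (z c : ℂ) (R : ℝ) : (fun ζ => ζ + c) ⁻¹' Metric.ball (z + c) R = Metric.ball z R := by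
  ext ζ
  simp

theorem b1_shift (f : ℂ → ℝ) (z c : ℂ) (R : ℝ) :
    ∫ ζ in Metric.ball z R, f (ζ + c) = ∫ ζ in Metric.ball (z + c) R, f ζ := by
  rw [← (measurePreserving_add_right volume c).setIntegral_preimage_emb
    (measurableEmbedding_addRight c) f, b1_pre]

theorem b1_refl (s : ℝ) (p z : ℂ) (R : ℝ) :
    ∫ ξ in Metric.ball p R, gk s (ξ - z) = ∫ ζ in Metric.ball z R, gk s (p - ζ) := by
  rw [← (Measure.measurePreserving_sub_left volume (p + z)).setIntegral_preimage_emb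
    (MeasurableEquiv.subLeft (p + z)).measurableEmbedding (fun ξ => gk s (ξ - z))]
  have : (fun t => p + z - t) ⁻¹' Metric.ball p R = Metric.ball z R := by
    ext ζ
    simp only [mem_preimage, Metric.mem_ball, dist_eq_norm]
    rw [show p + z - ζ - p = -(ζ - z) by ring, norm_neg]
  rw [this]
  congr 1
  ext ζ
  congr 1
  ring

theorem b1_fub (hm : Measurable u) (hu : LocallyIntegrable u) (R s : ℝ) (z : ℂ) :
    IntegrableOn (fun ζ => ca u ζ s) (Metric.ball z R) ∧
      ca (thick u R) z s = da (fun ζ => ca u ζ s) z R := by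
  have hc : ∀ (ζ : ℂ) (θ : ℝ), circleMap ζ s θ = ζ + circleMap 0 s θ := fun ζ θ => by
    simp [circleMap]
  have hI : Integrable (Function.uncurry fun (θ : ℝ) (ζ : ℂ) => u (ζ + circleMap 0 s θ))
      ((volume.restrict (Ioc 0 (2 * π))).prod (volume.restrict (Metric.ball z R))) := by
    have hM : Measurable (Function.uncurry fun (θ : ℝ) (ζ : ℂ) => u (ζ + circleMap 0 s θ)) :=
      hm.comp (measurable_snd.add ((continuous_circleMap 0 s).measurable.comp measurable_fst))
    refine (integrable_prod_iff hM.aestronglyMeasurable).2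
      ⟨Eventually.of_forall fun θ => ?_, ?_⟩
    · have := ((measurePreserving_add_right volume (circleMap 0 s θ)).integrableOn_comp_preimage
        (measurableEmbedding_addRight _)).2 (b1_int hu (z + circleMap 0 s θ) R)
      rw [b1_pre] at this
      exact this
    · have hn : LocallyIntegrable fun ζ => ‖u ζ‖ := fun x => by
        obtain ⟨t, ht, h1⟩ := hu x
        exact ⟨t, ht, h1.norm⟩
      have h1 : Continuous fun θ : ℝ => ∫ ζ in Metric.ball (z + circleMap 0 s θ) R, ‖u ζ‖ :=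
        (b1_cont hn R).comp (continuous_const.add (continuous_circleMap 0 s))
      have h2 : IntegrableOn
          (fun θ : ℝ => ∫ ζ in Metric.ball (z + circleMap 0 s θ) R, ‖u ζ‖) (Ioc 0 (2 * π)) :=
        (h1.integrableOn_Icc).mono_set Ioc_subset_Icc_self
      refine h2.congr (Eventually.of_forall fun θ => ?_)
      exact (b1_shift (fun ζ => ‖u ζ‖) z _ R).symm
  have he : ∀ ζ, ca u ζ s = (2 * π)⁻¹ * ∫ θ in Ioc 0 (2 * π), u (ζ + circleMap 0 s θ) := fun ζ => by
    simp only [ca, circleAverage_def, hc ζ, smul_eq_mul]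
    rw [intervalIntegral.integral_of_le (by positivity)]
  refine ⟨?_, ?_⟩
  · simp only [he]
    exact hI.integral_prod_right.const_mul _
  · unfold da
    simp only [he]
    rw [integral_const_mul, ← integral_integral_swap hI]
    simp only [ca, circleAverage_def, hc z, smul_eq_mul, thick, da, b1_shift]
    rw [intervalIntegral.integral_of_le (by positivity), integral_const_mul]
    ring

theorem b1_fs (h : Pot F μ u w m) {z : ℂ} {r : ℝ} {g : κ → ℝ}
    (hg : ∀ b, w b ∉ Metric.ball z r → m b * g b = 0) :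
    ∑ᶠ b, m b * g b = ∑ b ∈ (h.fin z r).toFinset, m b * g b := by
  refine finsum_eq_sum_of_support_subset _ fun b hb => ?_
  rw [Finite.coe_toFinset]
  exact ⟨fun e => hb (by simp [e]), by_contra fun e => hb (hg b e)⟩

theorem b1_mono (h : Pot F μ u w m) (z : ℂ) {s t : ℝ} (hs : 0 < s) (hst : s ≤ t) (ht : t ≤ 1) :
    ∑ᶠ b, m b * gk s (w b - z) ≤ ∑ᶠ b, m b * gk t (w b - z) := by
  have key : ∀ r, 0 ≤ r → r ≤ 1 → ∀ b, w b ∉ Metric.ball z 1 → m b * gk r (w b - z) = 0 :=
    fun r h0 h1 b hb => mul_eq_zero_of_right _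
      (gk_eq_zero h0 (h1.trans (by simpa [dist_eq_norm] using hb)))
  rw [b1_fs h (key s hs.le (by linarith)), b1_fs h (key t (by linarith) ht)]
  exact Finset.sum_le_sum fun b _ => mul_le_mul_of_nonneg_left (gk_mono hs hst _) (h.m_nonneg b)

theorem b1_tden (h : Pot F μ u w m) (R : ℝ) {z ζ : ℂ} {r : ℝ} (hζ : ζ ∈ Metric.ball z r) :
    tden w m R ζ = (π * R ^ 2)⁻¹ *
      ∑ b ∈ (h.fin z (r + R)).toFinset, (Metric.ball (w b) R).indicator (fun _ => m b) ζ := by
  unfold tden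
  congr 1
  rw [finsum_eq_sum_of_support_subset (s := (h.fin z (r + R)).toFinset) _ fun b hb => ?_]
  · refine Finset.sum_congr rfl fun b _ => ?_
    simp only [indicator, Metric.mem_ball, dist_comm]
  · rw [Finite.coe_toFinset]
    have h1 : w b ∈ Metric.ball ζ R := by_contra fun e => hb (indicator_of_notMem e _)
    refine ⟨fun e => hb (by simp [e]), ?_⟩
    rw [Metric.mem_ball] at *
    linarith [dist_triangle (w b) ζ z]

theorem Pot.countable (h : Pot F μ u w m) : {b | m b ≠ 0}.Countable := by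
  refine (countable_iUnion fun n : ℕ => (h.fin 0 n).countable).mono fun b hb => ?_
  obtain ⟨n, hn⟩ := exists_nat_gt ‖w b‖
  exact mem_iUnion.2 ⟨n, hb, by simpa using hn⟩

theorem Pot.ae_reg (h : Pot F μ u w m) : ∀ᵐ x : ℝ, ∀ b, m b ≠ 0 → (w b).re ≠ x := by
  filter_upwards [(h.countable.image fun b => (w b).re).ae_notMem volume] with x hx b hb e
  exact hx ⟨b, hb, e⟩

theorem Pot.ae_ne (h : Pot F μ u w m) : ∀ᵐ z : ℂ, ∀ b, m b ≠ 0 → w b ≠ z := by
  filter_upwards [(h.countable.image w).ae_notMem volume] with x hx b hb e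
  exact hx ⟨b, hb, e⟩

theorem Pot.up (h : Pot F μ u w m) {z : ℂ} (hz : ∀ b, m b ≠ 0 → w b ≠ z) :
    u z ≤ F.M z + μ * F.Φ z.re := by
  have h1 := h.jen z hz 1 one_pos le_rfl
  have h2 : 0 ≤ ∑ᶠ b, m b * gk 1 (w b - z) :=
    finsum_nonneg fun b => mul_nonneg (h.m_nonneg b) (gk_nonneg _ _)
  have h3 := (abs_le.1 (h.calm z)).2
  linarith only [h1, h2, h3]

theorem continuous_thick (hu : LocallyIntegrable u) (R : ℝ) : Continuous (thick u R) := by
  exact continuous_const.mul (b1_cont hu R)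

theorem Pot.thick_radius (h : Pot F μ u w m) {R R' : ℝ} (h0 : 0 < R') (h1 : R' ≤ R) (h2 : R ≤ 1)
    (z : ℂ) : thick u R' z ≤ thick u R z := by
  refine (Measure.dense_of_ae h.ae_ne).induction (P := fun z => thick u R' z ≤ thick u R z)
    (fun z hz => ?_) (isClosed_le (continuous_thick h.loc R') (continuous_thick h.loc R)) z
  refine da_mono_radius h0 h1 (b1_int h.loc z R) fun s t hs hst ht => ?_
  rw [h.jen z hz s hs (by linarith only [h2, hst, ht]), h.jen z hz t (by linarith only [hs, hst]) (by linarith only [h2, ht])]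
  have := b1_mono h z hs hst (by linarith only [h2, ht])
  linarith only [this]

theorem Pot.thick_between (h : Pot F μ u w m) {R : ℝ} (h0 : 0 < R) (h2 : R ≤ 1) {z : ℂ}
    (hz : ∀ b, m b ≠ 0 → w b ≠ z) :
    u z ≤ thick u R z ∧ thick u R z ≤ u z + ∑ᶠ b, m b * gk R (w b - z) := by
  refine ⟨le_da_of_ca h0 (b1_int h.loc z R) fun t ht htR => ?_,
    da_le_of_ca h0 (b1_int h.loc z R) fun t ht htR => ?_⟩
  · rw [h.jen z hz t ht (by linarith only [h2, htR])]
    have : 0 ≤ ∑ᶠ b, m b * gk t (w b - z) :=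
      finsum_nonneg fun b => mul_nonneg (h.m_nonneg b) (gk_nonneg _ _)
    linarith only [this]
  · rw [h.jen z hz t ht (by linarith only [h2, htR])]
    have := b1_mono h z ht htR.le h2
    linarith only [this]

theorem Pot.thick_step (h : Pot F μ u w m) {R l a : ℝ} (h2 : R ≤ 1) (hl : l < R) {z z' : ℂ}
    (hz : ‖z' - z‖ ≤ l) (ha : ∀ ζ ∈ Metric.ball z' R, F.M ζ + μ * F.Φ ζ.re ≤ a) :
    (1 - l / R) ^ 2 * (a - thick u R z) ≤ a - thick u R z' := by
  have hl0 : 0 ≤ l := (norm_nonneg _).trans hz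
  have hV : ∀ (c : ℂ) (r : ℝ), IntegrableOn (fun ζ => a - u ζ) (Metric.ball c r) := fun c r =>
    (integrableOn_const (measure_ball_lt_top.ne)).sub (b1_int h.loc c r)
  have hda : ∀ (c : ℂ) (r : ℝ), 0 < r → da (fun ζ => a - u ζ) c r = a - thick u r c := by
    intro c r hr
    have h1 := da_add (hV c r) (b1_int h.loc c r)
    simp only [sub_add_cancel] at h1
    rw [da_const a c hr] at h1
    unfold thick
    linarith only [h1]
  have h3 := da_step hz hl (hV z' R) (by
    filter_upwards [h.ae_ne] with ζ hζ hb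
    have := h.up hζ
    have := ha ζ hb
    linarith)
  rw [hda z (R - l) (by linarith only [hl]), hda z' R (by linarith only [hl, hl0])] at h3
  have h4 := h.thick_radius (R := R) (R' := R - l) (by linarith only [hl]) (by linarith only [hl0]) h2 z
  exact le_trans (mul_le_mul_of_nonneg_left (by linarith only [h4]) (sq_nonneg _)) h3

theorem Pot.measurable_tden (h : Pot F μ u w m) (R : ℝ) : Measurable (tden w m R) := by
  refine measurable_of_tendsto_metrizable (f := fun (n : ℕ) ζ => (π * R ^ 2)⁻¹ *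
    ∑ b ∈ (h.fin 0 (n + R)).toFinset, (Metric.ball (w b) R).indicator (fun _ => m b) ζ)
    (fun n => measurable_const.mul (Finset.measurable_sum _ fun b _ =>
      measurable_const.indicator measurableSet_ball)) (tendsto_pi_nhds.2 fun ζ => ?_)
  refine tendsto_const_nhds.congr' ?_
  filter_upwards [tendsto_natCast_atTop_atTop.eventually_gt_atTop ‖ζ‖] with n hn
  exact b1_tden h R (by simpa using hn)

theorem Pot.thick_jen (h : Pot F μ u w m) {R : ℝ} (h0 : 0 < R) (h2 : R ≤ 1) (z : ℂ) {s : ℝ}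
    (hs : 0 < s) (hs1 : s ≤ 1) : ca (thick u R) z s = thick u R z + pot (tden w m R) s z := by
  obtain ⟨-, hB⟩ := b1_fub h.meas h.loc R s z
  rw [hB]
  set S := (h.fin z (s + R)).toFinset with hS
  have hg : ∀ b, Integrable fun ζ => m b * gk s (w b - ζ) := fun b =>
    ((integrable_gk s).comp_sub_left (w b)).const_mul _
  have h1 : ∫ ζ in Metric.ball z R, ca u ζ s =
      (∫ ζ in Metric.ball z R, u ζ) + ∑ b ∈ S, m b * ∫ ζ in Metric.ball z R, gk s (w b - ζ) := by
    have e : ∫ ζ in Metric.ball z R, ca u ζ s =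
        ∫ ζ in Metric.ball z R, (u ζ + ∑ b ∈ S, m b * gk s (w b - ζ)) := by
      refine setIntegral_congr_ae measurableSet_ball ?_
      filter_upwards [h.ae_ne] with ζ hζ hb
      rw [h.jen ζ hζ s hs hs1, b1_fs h (z := z) (r := s + R) fun b hb' => ?_]
      refine mul_eq_zero_of_right _ (gk_eq_zero hs.le ?_)
      rw [Metric.mem_ball, dist_eq_norm] at hb hb'
      have := norm_sub_le_norm_sub_add_norm_sub (w b) ζ z
      linarith only [hb, hb', this]
    rw [e, integral_add (b1_int h.loc z R) (integrable_finsetSum _ fun b _ => (hg b).integrableOn),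
      integral_finsetSum _ fun b _ => (hg b).integrableOn]
    simp only [integral_const_mul]
  have hk : ∀ b, Integrable fun ξ =>
      (Metric.ball (w b) R).indicator (fun ξ => m b * gk s (ξ - z)) ξ := fun b =>
    (((integrable_gk s).comp_sub_right z).const_mul _).indicator measurableSet_ball
  have h3 : pot (tden w m R) s z =
      (π * R ^ 2)⁻¹ * ∑ b ∈ S, m b * ∫ ζ in Metric.ball z R, gk s (w b - ζ) := by
    have e : ∀ ξ, tden w m R ξ * gk s (ξ - z) = (π * R ^ 2)⁻¹ *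
        ∑ b ∈ S, (Metric.ball (w b) R).indicator (fun ξ => m b * gk s (ξ - z)) ξ := by
      intro ξ
      have e1 : ∀ b, (Metric.ball (w b) R).indicator (fun ξ => m b * gk s (ξ - z)) ξ =
          (Metric.ball (w b) R).indicator (fun _ => m b) ξ * gk s (ξ - z) := fun b => by
        by_cases hb : ξ ∈ Metric.ball (w b) R <;> simp [hb]
      simp only [e1]
      rw [← Finset.sum_mul, ← mul_assoc]
      by_cases hξ : ξ ∈ Metric.ball z s
      · rw [b1_tden h R hξ]
      · rw [gk_eq_zero hs.le (by simpa [dist_eq_norm] using hξ), mul_zero, mul_zero]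
    unfold pot
    simp only [e]
    rw [integral_const_mul, integral_finsetSum _ fun b _ => hk b]
    congr 1
    refine Finset.sum_congr rfl fun b _ => ?_
    rw [integral_indicator measurableSet_ball, integral_const_mul, b1_refl]
  rw [h3]
  unfold thick da
  rw [h1, mul_add]

theorem Pot.thick_ca (h : Pot F μ u w m) {R : ℝ} (h0 : 0 < R) (z : ℂ) :
    ca (thick u R) z 1 = da (fun ζ => ca u ζ 1) z R ∧
      IntegrableOn (fun ζ => ca u ζ 1) (Metric.ball z R) := by
  exact ⟨(b1_fub h.meas h.loc R 1 z).2, (b1_fub h.meas h.loc R 1 z).1⟩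

end

end Pool.Agent.MinMod.Mo
end

-- merged part: Pool.Agent.Work.MP_f62247_an.Mo.B2
section
/-!
# Thickening gives a `Dens`
Density: `tden ≤ (πR²)⁻¹ μ Φ` by `mass` (`ball ζ R ⊆ ball ζ 7`). Calm: `thick_ca`, `|ca u ζ 1 - M z| ≤ μ Φ ζ.re + 8 R Φ`. Mass: `∫_{ball z 6} tden = ∑ m b (πR²)⁻¹ vol (ball z 6 ∩ ball (w b) R) ≤` mass of `ball z 7`.
Uniform continuity: lower bound `thick ≥ -K' Φ` from Jensen at radius one and the density bound (as in `Dens.low`), then `thick_step` in both directions with `a = 4 Φ z.re`.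
-/

open Real MeasureTheory Set Filter Topology

namespace Pool.Agent.MinMod.Mo

noncomputable section

section

variable {F : Frame} {μ : ℝ} {κ : Type} {u : ℂ → ℝ} {w : κ → ℂ} {m : κ → ℝ}

theorem b2_fin (h : Pot F μ u w m) (z : ℂ) (R : ℝ) :
    (Function.support fun b => (Metric.ball z R).indicator (fun _ => m b) (w b)).Finite := by
  refine (h.fin z R).subset fun b hb => ?_
  by_cases e : w b ∈ Metric.ball z R
  · exact ⟨fun e1 => hb (by simp [e1]), e⟩
  · exact absurd (indicator_of_notMem e _) hb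

theorem b2_per (h : Pot F μ u w m) (R : ℝ) (z : ℂ) :
    thick u R (z + 2 * π * Complex.I) = thick u R z := by
  have e := (measurePreserving_add_right volume (2 * π * Complex.I)).setIntegral_preimage_emb
    (Homeomorph.addRight _).measurableEmbedding u (Metric.ball (z + 2 * π * Complex.I) R)
  have e1 : (fun x : ℂ => x + 2 * π * Complex.I) ⁻¹' Metric.ball (z + 2 * π * Complex.I) R =
      Metric.ball z R := by
    ext x
    simp
  simp only [e1, h.per] at e
  rw [thick, thick, da, da, e]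

theorem b2_nonneg (h : Pot F μ u w m) (R : ℝ) (z : ℂ) : 0 ≤ tden w m R z :=
  mul_nonneg (by positivity)
    (finsum_nonneg fun b => indicator_nonneg (fun _ _ => h.m_nonneg b) _)

theorem b2_le (h : Pot F μ u w m) {R : ℝ} (h2 : R ≤ 7) (z : ℂ) :
    tden w m R z ≤ (π * R ^ 2)⁻¹ * μ * F.Φ z.re := by
  rw [mul_assoc]
  refine mul_le_mul_of_nonneg_left (le_trans ?_ (h.mass z)) (by positivity)
  exact finsum_le_finsum' (b2_fin h z R) (b2_fin h z 7) fun b =>
    indicator_le_indicator_of_subset (Metric.ball_subset_ball h2) (fun _ => h.m_nonneg b) _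

theorem b2_Φ (hF : F.Good μ) (h1 : μ ≤ 1) {z ζ : ℂ} (hz : ‖ζ - z‖ ≤ 1 / 4) :
    F.Φ ζ.re ≤ 2 * F.Φ z.re := by
  have a1 : |ζ.re - z.re| ≤ 1 / 4 := (Complex.abs_re_le_norm (ζ - z)).trans hz
  have a2 := (abs_le.1 (hF.Φ_close h1 a1)).2
  have a3 := F.Φ_pos z.re
  linarith only [a2, a1, a3, mul_nonneg_of_nonpos_of_nonpos (Mathlib.Tactic.Linarith.sub_nonpos_of_le a1) (le_of_lt (Mathlib.Tactic.Linarith.sub_neg_of_lt a3))]

theorem b2_M (F : Frame) (z : ℂ) : |F.M z| ≤ F.Φ z.re := by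
  rw [Frame.M, abs_mul, abs_of_pos (F.Φ_pos _)]
  exact mul_le_of_le_one_right (F.Φ_pos _).le (abs_cos_le_one _)

theorem b2_calm (h : Pot F μ u w m) (hF : F.Good μ) (h1 : μ ≤ 1 / 10) {R : ℝ} (h0 : 0 < R)
    (h2 : 8 * R ≤ μ) (z : ℂ) : |ca (thick u R) z 1 - F.M z| ≤ 3 * μ * F.Φ z.re := by
  obtain ⟨e, hi⟩ := h.thick_ca h0 z
  have key : ∀ ζ ∈ Metric.ball z R, |ca u ζ 1 - F.M z| ≤ 3 * μ * F.Φ z.re := by
    intro ζ hζ
    have a0 : ‖ζ - z‖ ≤ R := (mem_ball_iff_norm.1 hζ).le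
    have a1 := hF.M_close (by linarith only [h1, h0, h2]) (a0.trans (by linarith only [h1, h0, h2]) : ‖ζ - z‖ ≤ 1 / 4)
    have a2 := mul_le_mul_of_nonneg_left
      (b2_Φ hF (by linarith only [h1, h0, h2]) (a0.trans (by linarith only [h1, h0, h2]) : ‖ζ - z‖ ≤ 1 / 4)) hF.nonneg
    have a3 := mul_le_mul_of_nonneg_right (show 8 * ‖ζ - z‖ ≤ μ by linarith only [h2, a0]) (F.Φ_pos z.re).le
    have a4 := abs_sub_le (ca u ζ 1) (F.M ζ) (F.M z)
    have a5 := h.calm ζ
    linarith only [a1, a2, a3, a4, a5]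
  have hc : ∀ c : ℝ, IntegrableOn (fun _ : ℂ => c) (Metric.ball z R) := fun c =>
    integrableOn_const measure_ball_lt_top.ne
  rw [e, abs_le]
  constructor
  · have := da_mono (hc (F.M z - 3 * μ * F.Φ z.re)) hi (ae_of_all _ fun ζ hζ => by
      have := (abs_le.1 (key ζ hζ)).1
      linarith only [this])
    rw [da_const _ _ h0] at this
    linarith only [this]
  · have := da_mono hi (hc (F.M z + 3 * μ * F.Φ z.re)) (ae_of_all _ fun ζ hζ => by
      have := (abs_le.1 (key ζ hζ)).2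
      linarith only [this])
    rw [da_const _ _ h0] at this
    linarith only [this]

theorem b2_mass (h : Pot F μ u w m) {R : ℝ} (h0 : 0 < R) (h2 : R ≤ 1) (z : ℂ) :
    ∫ ζ in Metric.ball z 6, tden w m R ζ ≤ μ * F.Φ z.re := by
  have hS := b2_fin h z 7
  have hi : ∀ b, Integrable ((Metric.ball (w b) R).indicator fun _ : ℂ => m b) := fun b =>
    (integrable_indicator_iff measurableSet_ball).2 (integrableOn_const measure_ball_lt_top.ne)
  have e1 : ∀ ζ ∈ Metric.ball z 6, tden w m R ζ =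
      (π * R ^ 2)⁻¹ * ∑ b ∈ hS.toFinset, (Metric.ball (w b) R).indicator (fun _ => m b) ζ := by
    intro ζ hζ
    rw [tden, finsum_eq_sum_of_support_subset (s := hS.toFinset)]
    · congr 1
      refine Finset.sum_congr rfl fun b _ => ?_
      by_cases e : w b ∈ Metric.ball ζ R
      · rw [indicator_of_mem e, indicator_of_mem (Metric.mem_ball_comm.1 e)]
      · rw [indicator_of_notMem e, indicator_of_notMem (mt Metric.mem_ball_comm.1 e)]
    · intro b hb
      rw [hS.coe_toFinset]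
      have e : w b ∈ Metric.ball ζ R := by
        by_contra e
        exact hb (indicator_of_notMem e _)
      have e' : w b ∈ Metric.ball z 7 := by
        have := dist_triangle (w b) ζ z
        rw [Metric.mem_ball] at *
        linarith only [h2, hζ, e, this]
      rw [Function.mem_support, indicator_of_mem e] at hb
      rwa [Function.mem_support, indicator_of_mem e']
  rw [setIntegral_congr_fun measurableSet_ball e1, integral_const_mul,
    integral_finsetSum _ fun b _ => (hi b).integrableOn, Finset.mul_sum]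
  refine le_trans ?_ (h.mass z)
  rw [finsum_eq_sum _ hS]
  refine Finset.sum_le_sum fun b hb => ?_
  have e : w b ∈ Metric.ball z 7 := by
    by_contra e
    exact hS.mem_toFinset.1 hb (indicator_of_notMem e _)
  have e2 := setIntegral_le_integral (s := Metric.ball z 6) (hi b)
    (ae_of_all _ fun ζ => indicator_nonneg (fun _ _ => h.m_nonneg b) ζ)
  rw [indicator_of_mem e, inv_mul_le_iff₀ (by positivity)]
  refine e2.trans (le_of_eq ?_)
  rw [integral_indicator_const _ measurableSet_ball, Measure.real, Complex.volume_ball,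
    smul_eq_mul]
  simp [h0.le, mul_comm]

theorem b2_pot {ρ : ℂ → ℝ} {K : ℝ} (hF : F.Good μ) (h1 : μ ≤ 1) (hm : Measurable ρ)
    (h0 : ∀ z, 0 ≤ ρ z) (hK0 : 0 ≤ K) (hK : ∀ z, ρ z ≤ K * F.Φ z.re) (z : ℂ) :
    pot ρ 1 z ≤ K * exp 2 * (π / 2) * F.Φ z.re := by
  have e : ∫ ζ, K * exp 2 * F.Φ z.re * gk 1 (ζ - z) = K * exp 2 * (π / 2) * F.Φ z.re := by
    rw [integral_const_mul, integral_sub_right_eq_self, integral_gk one_pos]
    ring
  rw [← e]
  refine integral_mono (integrable_pot_of_le hm h0 hK 1 z)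
    (((integrable_gk 1).comp_sub_right z).const_mul _) fun ζ => ?_
  rcases le_total 1 ‖ζ - z‖ with a | a
  · simp only [gk_eq_zero zero_le_one a, mul_zero, le_refl]
  · refine mul_le_mul_of_nonneg_right ((hK ζ).trans ?_) (gk_nonneg _ _)
    have a1 := hF.Φ_le h1 ((Complex.abs_re_le_norm (ζ - z)).trans a : |ζ.re - z.re| ≤ 1)
    rw [mul_one] at a1
    rw [mul_assoc]
    exact mul_le_mul_of_nonneg_left a1 hK0

theorem b2_uc (h : Pot F μ u w m) (hF : F.Good μ) (h1 : μ ≤ 1 / 10) {R : ℝ} (h0 : 0 < R)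
    (h2 : 8 * R ≤ μ) {K : ℝ} (hK : 0 ≤ K) (low : ∀ z, -K * F.Φ z.re ≤ thick u R z) :
    F.UC (thick u R) := by
  intro η hη
  obtain ⟨t, t0, t1, t2⟩ : ∃ t : ℝ, 0 < t ∧ t ≤ 1 / 2 ∧ 2 * t * (4 + 2 * K) ≤ η := by
    refine ⟨min (1 / 2) (η / (2 * (4 + 2 * K))), by positivity, min_le_left _ _, ?_⟩
    have := (le_div_iff₀ (by positivity)).1 (min_le_right (1 / 2) (η / (2 * (4 + 2 * K))))
    linarith only [this]
  have hl : t * R < R := by linarith only [h1, h0, h2, t1, mul_nonneg_of_nonpos_of_nonpos (Mathlib.Tactic.Linarith.sub_nonpos_of_le h1) (le_of_lt (Mathlib.Tactic.Linarith.sub_neg_of_lt h0)), mul_pos_of_neg_of_neg (Mathlib.Tactic.Linarith.sub_neg_of_lt h0) (Mathlib.Tactic.Linarith.sub_neg_of_lt h0), mul_nonneg_of_nonpos_of_nonpos (le_of_lt (Mathlib.Tactic.Linarith.sub_neg_of_lt h0)) (Mathlib.Tactic.Linarith.sub_nonpos_of_le h2), mul_nonneg_of_nonpos_of_nonpos (le_of_lt (Mathlib.Tactic.Linarith.sub_neg_of_lt h0)) (Mathlib.Tactic.Linarith.sub_nonpos_of_le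 t1)]
  refine ⟨t * R, by positivity, fun z _ z' hz => ?_⟩
  have ha : ∀ ζ : ℂ, ‖ζ - z‖ ≤ 1 / 4 → F.M ζ + μ * F.Φ ζ.re ≤ 4 * F.Φ z.re := by
    intro ζ hζ
    have a1 := b2_Φ hF (by linarith only [h1, h0, h2]) hζ
    have a2 := (abs_le.1 (b2_M F ζ)).2
    have a3 := mul_le_mul_of_nonneg_right h1 (F.Φ_pos ζ.re).le
    have a4 := F.Φ_pos z.re
    linarith only [a1, a2, a3, a4]
  have s1 := h.thick_step (by linarith only [h1, h0, h2]) hl hz (a := 4 * F.Φ z.re) fun ζ hζ => ha ζ (by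
    have := norm_sub_le_norm_sub_add_norm_sub ζ z' z
    have := mem_ball_iff_norm.1 hζ
    linarith)
  have s2 := h.thick_step (by linarith only [h1, h0, h2]) hl (norm_sub_rev z' z ▸ hz) (a := 4 * F.Φ z.re)
    fun ζ hζ => ha ζ (by
      have := mem_ball_iff_norm.1 hζ
      linarith only [h1, h0, h2, this])
  rw [mul_div_cancel_right₀ _ h0.ne'] at s1 s2
  have p := F.Φ_pos z.re
  have v1 : 4 * F.Φ z.re - thick u R z ≤ (4 + 2 * K) * F.Φ z.re := by
    have := low z
    (refine le_of_not_gt fun h_nl => ?_; linarith only [h_nl, this, h1, h0, h2, hK, p, mul_nonneg_of_nonpos_of_nonpos (Mathlib.Tactic.Linarith.sub_nonpos_of_le h1) (le_of_lt (Mathlib.Tactic.Linarith.sub_neg_of_lt h_nl)), mul_pos_of_neg_of_neg (Mathlib.Tactic.Linarith.sub_neg_of_lt h0) (Mathlib.Tactic.Linarith.sub_neg_of_lt h_nl), mul_nonneg_of_nonpos_of_nonpos (Mathlib.Tactic.Linarith.sub_nonpos_of_le h2) (le_of_lt (Mathlib.Tactic.Linarith.sub_neg_of_lt h_nl)), mul_nonneg_of_nonpos_of_nonpos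 (Mathlib.Tactic.Linarith.sub_nonpos_of_le hK) (le_of_lt (Mathlib.Tactic.Linarith.sub_neg_of_lt p))])
  have v2 : 4 * F.Φ z.re - thick u R z' ≤ (4 + 2 * K) * F.Φ z.re := by
    have := low z'
    have := mul_le_mul_of_nonneg_left
      (b2_Φ hF (by linarith only [h1, h0, h2]) (by linarith only [h1, h0, h2, hl, hz] : ‖z' - z‖ ≤ 1 / 4)) hK
    linarith
  have q0 : 0 ≤ 1 - (1 - t) ^ 2 := by (refine le_of_not_gt fun h_nl => ?_; linarith only [h_nl, t0, h1, h0, h2, t1, mul_nonneg_of_nonpos_of_nonpos (Mathlib.Tactic.Linarith.sub_nonpos_of_le h1) (le_of_lt (Mathlib.Tactic.Linarith.sub_neg_of_lt h_nl)), mul_pos_of_neg_of_neg (Mathlib.Tactic.Linarith.sub_neg_of_lt h0) (Mathlib.Tactic.Linarith.sub_neg_of_lt h_nl), mul_nonneg_of_nonpos_of_nonpos (Mathlib.Tactic.Linarith.sub_nonpos_of_le h2) (le_of_lt (Mathlib.Tactic.Linarith.sub_neg_of_lt h_nl)), mul_nonneg_of_nonpos_of_nonpos (le_of_lt (Mathlib.Tactic.Linarith.sub_neg_of_lt t0)) (Mathlib.Tactic.Linarith.sub_nonpos_of_le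 t1)])
  have q1 : (1 - (1 - t) ^ 2) * ((4 + 2 * K) * F.Φ z.re) ≤ η * F.Φ z.re := by
    rw [← mul_assoc]
    refine mul_le_mul_of_nonneg_right (le_trans ?_ t2) p.le
    exact mul_le_mul_of_nonneg_right (by linarith only [t0, mul_pos_of_neg_of_neg (Mathlib.Tactic.Linarith.sub_neg_of_lt t0) (Mathlib.Tactic.Linarith.sub_neg_of_lt t0)]) (by positivity)
  have r1 := mul_le_mul_of_nonneg_left v1 q0
  have r2 := mul_le_mul_of_nonneg_left v2 q0
  rw [abs_le]
  constructor <;> linarith only [s2, q1, r2, s1, r1]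

end

theorem Pot.dens {F : Frame} {μ : ℝ} {κ : Type} {u : ℂ → ℝ} {w : κ → ℂ} {m : κ → ℝ}
    (h : Pot F μ u w m) (hF : F.Good μ) (h1 : μ ≤ 1 / 10) {R : ℝ} (h0 : 0 < R) (h2 : 8 * R ≤ μ) :
    Dens F (3 * μ) ((π * R ^ 2)⁻¹ * μ) (thick u R) (tden w m R) := by
  have hμ := hF.nonneg
  have hK : 0 ≤ (π * R ^ 2)⁻¹ * μ := by positivity
  have hle := b2_le h (show R ≤ 7 by linarith only [h1, h0, h2])
  have hj := fun z s => h.thick_jen h0 (by linarith only [h1, h0, h2]) z (s := s)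
  refine ⟨continuous_thick h.loc R, b2_per h R, h.measurable_tden R, b2_nonneg h R, hle, hj,
    b2_calm h hF h1 h0 h2, fun z => (b2_mass h h0 (by linarith only [h1, h0, h2]) z).trans ?_,
    b2_uc h hF h1 h0 h2 (K := (π * R ^ 2)⁻¹ * μ * exp 2 * (π / 2) + 2) (by positivity) fun z => ?_⟩
  · exact mul_le_mul_of_nonneg_right (by linarith) (F.Φ_pos _).le
  · have a1 := b2_pot hF (by linarith only [h1, h0, h2]) (h.measurable_tden R) (b2_nonneg h R) hK hle z
    have a2 := hj z 1 one_pos le_rfl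
    have a3 := (abs_le.1 (b2_calm h hF h1 h0 h2 z)).1
    have a4 := (abs_le.1 (b2_M F z)).1
    have a5 := mul_le_mul_of_nonneg_right h1 (F.Φ_pos z.re).le
    have a6 := F.Φ_pos z.re
    linarith only [a1, a2, a3, a4, a5, a6]

end

end Pool.Agent.MinMod.Mo
end

-- merged part: Pool.Agent.Work.MP_f62247_an.Mo.B3
section
/-!
# A vertical line near `x` that stays away from light clusters of atoms
Rows `n : ℤ`, `n R ≤ y < (n+1) R`; `Q n = [x - 2R, x + 2R] × [(n-1) R, (n+2) R]`, finite set `T n` of atoms in `Q n`, mass `m_n`; `p n t = ∑_{b ∈ T n} m b * posLog (R / |t - re (w b)|)`.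
For `t ∈ [x, x + l]`, `l ≤ R`, and `y` in row `n`: `∑ᶠ m b gk R (w b - (t + y I)) ≤ p n t`. Cauchy-Schwarz: `p n t ^ 2 ≤ m_n ∑ m b posLog² (..)`, and `∫ posLog² (R/|u|) du ≤ 16 R` (e.g. `posLog v ≤ 4 v^(1/4)` for..., or `posLog² v ≤ 4 √v` for `v ≥ 1`: `log v = 4 log v^(1/4) ≤ 4 v^(1/4)/e`; any constant is allowed, the statement has `∃ C`).
The rows that meet `[y0, y0 + 2π]` form a finite set, every atom lies in at most four `Q n`, all these `Q n` lie in `ball (x + (y0 + π) I) 7`; so `∑_{n light} ∫ p n ² ≤ C R θ M`. Some `t` outside a given null set is below twice the average.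
A heavy row: `Q n ⊆ ball (t + y I) (4 R)`.
-/

open Real MeasureTheory Set Filter Topology

namespace Pool.Agent.MinMod.Mo

noncomputable section

/-! No rows are needed: at a light point Cauchy-Schwarz bounds the square by `θ` times one function
of `t`, the sum over all atoms of the large ball, whose integral is at most `C R M`. -/

theorem b3_int : Integrable fun v : ℝ => lp v ^ 2 := by
  have hm : Measurable fun v : ℝ => lp v ^ 2 := by
    unfold lp
    exact (Real.continuous_posLog.measurable.comp (by fun_prop)).pow_const 2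
  have h1 : IntegrableOn (fun v : ℝ => lp v ^ 2) (Metric.ball 0 1) := by
    refine integrableOn_ball_of_norm_le_rpow (C := 16) (α := 1 / 2) (by simp) (by norm_num)
      (ae_of_all _ fun v => ?_) hm.aestronglyMeasurable
    have a1 : lp v ≤ (1 / |v|) ^ (1 / 4 : ℝ) / (1 / 4) :=
      max_le (by positivity) (log_le_rpow_div (by positivity) (by norm_num))
    have a2 : ((1 / |v|) ^ (1 / 4 : ℝ)) ^ 2 = ‖v‖ ^ (-(1 / 2) : ℝ) := by
      rw [← rpow_mul_natCast (by positivity), one_div |v|, inv_rpow (abs_nonneg v),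
        rpow_neg (norm_nonneg v), Real.norm_eq_abs]
      norm_num
    rw [Real.norm_of_nonneg (sq_nonneg _), ← a2]
    refine (pow_le_pow_left₀ posLog_nonneg a1 2).trans (le_of_eq (by ring))
  refine (integrableOn_iff_integrable_of_support_subset fun v hv => ?_).1 h1
  by_contra h
  rw [mem_ball_zero_iff, not_lt, Real.norm_eq_abs] at h
  refine hv ?_
  have : lp v = 0 := (posLog_eq_zero_iff _).2 (by
    rw [abs_of_nonneg (by positivity)]
    exact div_le_one_of_le₀ h (abs_nonneg v))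
  simp [this]

theorem b3_mass {κ : Type} {w : κ → ℂ} {m : κ → ℝ} {S : Set ℂ}
    (h : {b | m b ≠ 0 ∧ w b ∈ S}.Finite) :
    ∑ᶠ b, S.indicator (fun _ => m b) (w b) = ∑ b ∈ h.toFinset, m b := by
  rw [finsum_eq_sum_of_support_subset (s := h.toFinset)]
  · exact Finset.sum_congr rfl fun b hb => indicator_of_mem (h.mem_toFinset.1 hb).2 _
  · intro b hb
    have h1 : w b ∈ S := mem_of_indicator_ne_zero hb
    exact h.mem_toFinset.2 ⟨by rwa [Function.mem_support, indicator_of_mem h1] at hb, h1⟩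

theorem b3_reg {κ : Type} {w : κ → ℂ} {m : κ → ℝ}
    (h : ∀ (z : ℂ) (S : ℝ), {b | m b ≠ 0 ∧ w b ∈ Metric.ball z S}.Finite) :
    ∀ᵐ t : ℝ, ∀ b, m b ≠ 0 → (w b).re ≠ t := by
  have h1 : {b | m b ≠ 0}.Countable := by
    refine (countable_iUnion fun n : ℕ => (h 0 n).countable).mono fun b hb => ?_
    obtain ⟨n, hn⟩ := exists_nat_gt ‖w b‖
    exact mem_iUnion.2 ⟨n, hb, mem_ball_zero_iff.2 hn⟩
  filter_upwards [(h1.image fun b => (w b).re).ae_notMem volume] with t ht b hb e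
  exact ht ⟨b, hb, e⟩

theorem b3_avg {g : ℝ → ℝ} (hg : Integrable g) (h0 : ∀ t, 0 ≤ g t) {P : ℝ → Prop} (hP : ∀ᵐ t, P t)
    (x : ℝ) {l : ℝ} (hl : 0 < l) : ∃ t ∈ Icc x (x + l), P t ∧ g t ≤ l⁻¹ * ∫ t, g t := by
  have h1 : ∀ᵐ t ∂volume.restrict (Icc x (x + l)), t ∈ Icc x (x + l) ∧ P t :=
    (ae_restrict_mem measurableSet_Icc).and (ae_restrict_of_ae hP)
  obtain ⟨t, ht, h2⟩ := exists_notMem_null_le_average (μ := volume.restrict (Icc x (x + l)))
    (by simp [hl]) hg.integrableOn (ae_iff.1 h1)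
  replace ht := not_not.1 ht
  refine ⟨t, ht.1, ht.2, h2.trans ?_⟩
  rw [setAverage_eq, Real.volume_real_Icc_of_le (by linarith), add_sub_cancel_left, smul_eq_mul]
  exact mul_le_mul_of_nonneg_left (setIntegral_le_integral hg (ae_of_all _ h0)) (by positivity)

theorem good_line : ∃ C : ℝ, 0 < C ∧ ∀ {κ : Type} (w : κ → ℂ) (m : κ → ℝ) (x y0 R l θ M : ℝ)
    (P : ℝ → Prop), (∀ b, 0 ≤ m b) →
    (∀ (z : ℂ) (S : ℝ), {b | m b ≠ 0 ∧ w b ∈ Metric.ball z S}.Finite) → 0 < l → l ≤ R → R ≤ 1 / 10 →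
    0 < θ → 0 < M → (∀ᵐ t, P t) →
    ∑ᶠ b, (Metric.ball (x + (y0 + π : ℝ) * Complex.I) 7).indicator (fun _ => m b) (w b) ≤ M →
    ∃ t ∈ Icc x (x + l), P t ∧ (∀ b, m b ≠ 0 → (w b).re ≠ t) ∧ ∀ y ∈ Icc y0 (y0 + 2 * π),
      (∑ᶠ b, m b * gk R (w b - (t + y * Complex.I))) ^ 2 ≤ C * (R / l) * θ * M ∨
      θ ≤ ∑ᶠ b, (Metric.ball (t + y * Complex.I : ℂ) (4 * R)).indicator (fun _ => m b) (w b) := by
  obtain ⟨C, hC, hC'⟩ : ∃ C : ℝ, 0 < C ∧ ∫ v : ℝ, lp v ^ 2 ≤ C :=
    ⟨_, lt_max_of_lt_left one_pos, le_max_right _ _⟩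
  refine ⟨C, hC, fun w m x y0 R l θ M P hm hfin hl hlR hR hθ hM hP hmass => ?_⟩
  have hR0 : 0 < R := hl.trans_le hlR
  rw [b3_mass (hfin _ _)] at hmass
  obtain ⟨T, hT⟩ : ∃ T, T = (hfin (x + (y0 + π : ℝ) * Complex.I) 7).toFinset := ⟨_, rfl⟩
  rw [← hT] at hmass
  have hi : ∀ b, Integrable fun t : ℝ => m b * lp ((t - (w b).re) / R) ^ 2 := fun b =>
    ((b3_int.comp_div hR0.ne').comp_sub_right (w b).re).const_mul _
  obtain ⟨t, ht, ⟨h1, h2⟩, h3⟩ := b3_avg (integrable_finsetSum T fun b _ => hi b)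
    (fun t => Finset.sum_nonneg fun b _ => mul_nonneg (hm b) (sq_nonneg _))
    (hP.and (b3_reg hfin)) x hl
  have h4 : ∫ t : ℝ, ∑ b ∈ T, m b * lp ((t - (w b).re) / R) ^ 2 ≤ M * (R * C) := by
    rw [integral_finsetSum T fun b _ => hi b]
    refine le_trans (Finset.sum_le_sum fun b _ => ?_)
      ((Finset.sum_mul _ _ _).ge.trans (mul_le_mul_of_nonneg_right hmass (by positivity)))
    rw [integral_const_mul, integral_sub_right_eq_self (fun t => lp (t / R) ^ 2),
      Measure.integral_comp_div (fun t => lp t ^ 2), abs_of_pos hR0, smul_eq_mul]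
    exact mul_le_mul_of_nonneg_left (mul_le_mul_of_nonneg_left hC' hR0.le) (hm b)
  refine ⟨t, ht, h1, h2, fun y hy => or_iff_not_imp_right.2 fun hlt => ?_⟩
  rw [b3_mass (hfin _ _), not_le] at hlt
  obtain ⟨T', hT'⟩ : ∃ T', T' = (hfin (t + y * Complex.I) (4 * R)).toFinset := ⟨_, rfl⟩
  rw [← hT'] at hlt
  have hsub : T' ⊆ T := by
    intro b hb
    rw [hT', Finite.mem_toFinset] at hb
    rw [hT, Finite.mem_toFinset]
    refine ⟨hb.1, Metric.ball_subset_ball' ?_ hb.2⟩
    have a1 : dist (t + y * Complex.I : ℂ) (x + (y0 + π : ℝ) * Complex.I) ≤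
        |t - x| + |y - (y0 + π)| := by
      rw [dist_eq_norm]
      simpa using Complex.norm_le_abs_re_add_abs_im
        (t + y * Complex.I - (x + (y0 + π : ℝ) * Complex.I))
    have a2 : |t - x| ≤ l := abs_le.2 ⟨by linarith only [hl, ht, ht.1], by linarith only [ht, ht.2]⟩
    have a3 : |y - (y0 + π)| ≤ π := abs_le.2 ⟨by linarith only [hy, hy.1], by linarith only [hy, hy.2]⟩
    linarith only [hl, hlR, hR, a1, a2, a3, pi_le_four]
  have hle : ∀ b ∈ T', gk R (w b - (t + y * Complex.I)) ≤ lp ((t - (w b).re) / R) := by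
    intro b hb
    rw [hT', Finite.mem_toFinset] at hb
    have a1 : 0 < |t - (w b).re| := abs_pos.2 (sub_ne_zero.2 (h2 b hb.1).symm)
    have a2 : |t - (w b).re| ≤ ‖w b - (t + y * Complex.I)‖ := by
      rw [abs_sub_comm]
      simpa using Complex.abs_re_le_norm (w b - (t + y * Complex.I))
    rw [gk, lp, abs_div, abs_of_pos hR0, one_div_div]
    exact posLog_le_posLog (by positivity) (div_le_div_of_nonneg_left hR0.le a1 a2)
  rw [finsum_eq_sum_of_support_subset (s := T')]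
  · calc _ ≤ (∑ b ∈ T', m b) * ∑ b ∈ T', m b * lp ((t - (w b).re) / R) ^ 2 := by
          refine Finset.sum_sq_le_sum_mul_sum_of_sq_le_mul _ (fun b _ => hm b)
            (fun b _ => mul_nonneg (hm b) (sq_nonneg _)) fun b hb => ?_
          rw [← mul_assoc, ← sq, mul_pow]
          exact mul_le_mul_of_nonneg_left (pow_le_pow_left₀ posLog_nonneg (hle b hb) 2)
            (sq_nonneg _)
      _ ≤ θ * (l⁻¹ * (M * (R * C))) := by
          refine mul_le_mul hlt.le ?_
            (Finset.sum_nonneg fun b _ => mul_nonneg (hm b) (sq_nonneg _)) hθ.le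
          exact (Finset.sum_le_sum_of_subset_of_nonneg hsub
            fun b _ _ => mul_nonneg (hm b) (sq_nonneg _)).trans
              (h3.trans (mul_le_mul_of_nonneg_left h4 (by positivity)))
      _ = _ := by ring
  · intro b hb
    obtain ⟨b1, b2⟩ := mul_ne_zero_iff.1 hb
    rw [hT', Finite.coe_toFinset]
    refine ⟨b1, ?_⟩
    by_contra b3
    rw [Metric.mem_ball, not_lt, dist_eq_norm] at b3
    refine b2 ((posLog_eq_zero_iff _).2 ?_)
    rw [abs_of_nonneg (by positivity)]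
    exact div_le_one_of_le₀ (by linarith only [hl, hlR, b3]) (norm_nonneg _)

end

end Pool.Agent.MinMod.Mo
end

-- merged part: Pool.Agent.Work.MP_f62247_an.Mo.B4
section
/-!
# Thickening keeps the cover
Given `ε' > 0` small put `l = ε1 R`, `θ = θ0 Φ x` with `C θ0 μ / ε1 ≤ ε1²`, then `R` so small that `θ0 log (1/(4R)) ≥ 10`, `8 R ≤ μ`, `μ l ≤ a/2`. Let `t` be the line of `good_line` (with `y0 = 0`), `v = thick u R`.
Heavy point `z` on the line: `v z ≤ ca u z R` (`da_le_of_ca`, `gk_mono`), `ca u z R = ca u z 1 - ∑ m b (gk 1 - gk R)(w b - z)`, and `gk 1 v - gk R v = - log (max R ‖v‖) ≥ log (1/(4R))` for `0 < ‖v‖ < 4R`, `≥ 0` always; so `v z ≤ -5 Φ`.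
Light point: `u ≤ v ≤ u + ε1 Φ` (`thick_between`). The maximum point of `v` on the line (`exists_Bx`, value `≥ Φ/2` by `Dens.Bge`) is light. Normalise the cover point to `[0, 2π]` by periodicity (`|sin|` is unchanged).
So on the line `t`: `v p ≤ -k Bx v t + (ε + 3 ε1) Φ`, or the weak alternative. Move to the line `x` with `thick_step` (`a = 2 Φ x`, factor `(1 - ε1)² ≥ 1 - 2 ε1`) at the cover point and at the maximum point.
-/

open Real MeasureTheory Set Filter Topology

namespace Pool.Agent.MinMod.Mo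

noncomputable section

section

variable {F : Frame} {μ : ℝ} {κ : Type} {u : ℂ → ℝ} {w : κ → ℂ} {m : κ → ℝ}

theorem b4_heavy (h : Pot F μ u w m) {R : ℝ} (h0 : 0 < R) (h1 : 4 * R ≤ 1) {z : ℂ}
    (hz : ∀ b, m b ≠ 0 → w b ≠ z) :
    thick u R z + -Real.log (4 * R) *
      ∑ᶠ b, (Metric.ball z (4 * R)).indicator (fun _ => m b) (w b) ≤ F.M z + μ * F.Φ z.re := by
  have key : ∀ r, 0 ≤ r → r ≤ 1 → ∀ b, w b ∉ Metric.ball z 1 → m b * gk r (w b - z) = 0 :=
    fun r h0 h1 b hb => mul_eq_zero_of_right _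
      (gk_eq_zero h0 (h1.trans (by simpa [dist_eq_norm] using hb)))
  have a1 := (h.thick_between h0 (by linarith) hz).2
  have a2 := h.jen z hz 1 one_pos le_rfl
  have a3 := (abs_le.1 (h.calm z)).2
  rw [b1_fs h (key R h0.le (by linarith))] at a1
  rw [b1_fs h (key 1 zero_le_one le_rfl)] at a2
  have a4 : ∑ᶠ b, (Metric.ball z (4 * R)).indicator (fun _ => m b) (w b) =
      ∑ b ∈ (h.fin z 1).toFinset, (Metric.ball z (4 * R)).indicator (fun _ => m b) (w b) := by
    refine finsum_eq_sum_of_support_subset _ fun b hb => ?_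
    have h2 : w b ∈ Metric.ball z (4 * R) := mem_of_indicator_ne_zero hb
    rw [Finite.coe_toFinset]
    exact ⟨by rwa [Function.mem_support, indicator_of_mem h2] at hb, Metric.ball_subset_ball h1 h2⟩
  have a5 : ∑ b ∈ (h.fin z 1).toFinset, (m b * gk R (w b - z) + -Real.log (4 * R) *
      (Metric.ball z (4 * R)).indicator (fun _ => m b) (w b)) ≤
      ∑ b ∈ (h.fin z 1).toFinset, m b * gk 1 (w b - z) := by
    refine Finset.sum_le_sum fun b hb => ?_
    have hv : w b - z ≠ 0 := sub_ne_zero.2 (hz b ((h.fin z 1).mem_toFinset.1 hb).1)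
    by_cases e : w b ∈ Metric.ball z (4 * R)
    · rw [indicator_of_mem e, gk_eq h0 hv, gk_eq one_pos hv]
      have c1 : 0 ≤ Real.log (max 1 ‖w b - z‖) := log_nonneg (le_max_left _ _)
      have c2 : Real.log (max R ‖w b - z‖) ≤ Real.log (4 * R) :=
        log_le_log (h0.trans_le (le_max_left _ _))
          (max_le (by linarith) (mem_ball_iff_norm.1 e).le)
      (refine le_of_not_gt fun h_nl => ?_; linarith only [h_nl, h0, h1, c1, h, c2, h.m_nonneg b, mul_pos_of_neg_of_neg (Mathlib.Tactic.Linarith.sub_neg_of_lt h0) (Mathlib.Tactic.Linarith.sub_neg_of_lt h_nl), mul_nonneg_of_nonpos_of_nonpos (Mathlib.Tactic.Linarith.sub_nonpos_of_le h1) (le_of_lt (Mathlib.Tactic.Linarith.sub_neg_of_lt h_nl)), mul_nonneg_of_nonpos_of_nonpos (Mathlib.Tactic.Linarith.sub_nonpos_of_le c1) (Mathlib.Tactic.Linarith.sub_nonpos_of_le (h.m_nonneg b)), mul_nonneg_of_nonpos_of_nonpos (Mathlib.Tactic.Linarith.sub_nonpos_of_le c2) (Mathlib.Tactic.Linarith.sub_nonpos_of_le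 (h.m_nonneg b))])
    · rw [indicator_of_notMem e, mul_zero, add_zero]
      exact mul_le_mul_of_nonneg_left (gk_mono h0 (by linarith) _) (h.m_nonneg b)
  rw [Finset.sum_add_distrib, ← Finset.mul_sum, ← a4] at a5
  linarith

theorem b4_move (h : Pot F μ u w m) (hF : F.Good μ) (h1 : μ ≤ 1 / 10) {R e : ℝ} (h0 : 0 < R)
    (h2 : R ≤ 1 / 10) (e0 : 0 < e) (e1 : e < 1) {x t y A : ℝ} (ht : |x - t| ≤ e * R)
    (hA : -3 * F.Φ x ≤ A) (hv : thick u R (t + y * Complex.I) ≤ A) :
    thick u R (x + y * Complex.I) ≤ A + 10 * e * F.Φ x := by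
  have hX := F.Φ_pos x
  have hμ := hF.nonneg
  have a1 := h.thick_step (R := R) (l := e * R) (a := 2 * F.Φ x) (z := t + y * Complex.I)
    (z' := x + y * Complex.I) (by linarith only [h0, h2]) (by linarith only [h0, e1, mul_pos_of_neg_of_neg (Mathlib.Tactic.Linarith.sub_neg_of_lt h0) (Mathlib.Tactic.Linarith.sub_neg_of_lt e1)])
    (by rwa [add_sub_add_right_eq_sub, ← Complex.ofReal_sub, Complex.norm_real]) fun ζ hζ => by
      have c1 : |ζ.re - x| ≤ 1 / 10 := by
        have := (Complex.abs_re_le_norm (ζ - (x + y * Complex.I))).trans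
          (mem_ball_iff_norm.1 hζ).le
        simp only [Complex.sub_re, Complex.add_re, Complex.ofReal_re, Complex.mul_re, Complex.I_re,
          mul_zero, Complex.ofReal_im, Complex.I_im, mul_one, sub_self, add_zero] at this
        linarith only [h2, this]
      have c2 := (abs_le.1 (hF.Φ_close (by linarith only [h1, h0, h2]) (c1.trans (by norm_num)))).2
      have c3 := (b0_M F ζ).2
      have c4 := F.Φ_pos ζ.re
      have c5 : F.Φ ζ.re ≤ 7 / 5 * F.Φ x := by linarith only [c2, hX, c1, mul_nonneg_of_nonpos_of_nonpos (le_of_lt (Mathlib.Tactic.Linarith.sub_neg_of_lt hX)) (Mathlib.Tactic.Linarith.sub_nonpos_of_le c1)]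
      linarith only [hX, c3, c5, h1, c4, mul_nonneg_of_nonpos_of_nonpos (Mathlib.Tactic.Linarith.sub_nonpos_of_le h1) (le_of_lt (Mathlib.Tactic.Linarith.sub_neg_of_lt c4))]
  rw [mul_div_cancel_right₀ _ h0.ne'] at a1
  have a2 : (1 - e) ^ 2 * (2 * F.Φ x - A) ≤
      (1 - e) ^ 2 * (2 * F.Φ x - thick u R (t + y * Complex.I)) :=
    mul_le_mul_of_nonneg_left (by linarith only [hv]) (sq_nonneg _)
  have a3 : (1 - (1 - e) ^ 2) * (2 * F.Φ x - A) ≤ (1 - (1 - e) ^ 2) * (5 * F.Φ x) :=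
    mul_le_mul_of_nonneg_left (by linarith only [hA]) (by (refine le_of_not_gt fun h_nl => ?_; linarith only [h_nl, h0, e0, h2, e1, mul_pos_of_neg_of_neg (Mathlib.Tactic.Linarith.sub_neg_of_lt h0) (Mathlib.Tactic.Linarith.sub_neg_of_lt e0), mul_pos_of_neg_of_neg (Mathlib.Tactic.Linarith.sub_neg_of_lt h0) (Mathlib.Tactic.Linarith.sub_neg_of_lt h_nl), mul_nonneg_of_nonpos_of_nonpos (Mathlib.Tactic.Linarith.sub_nonpos_of_le h2) (le_of_lt (Mathlib.Tactic.Linarith.sub_neg_of_lt e0)), mul_nonneg_of_nonpos_of_nonpos (Mathlib.Tactic.Linarith.sub_nonpos_of_le h2) (le_of_lt (Mathlib.Tactic.Linarith.sub_neg_of_lt h_nl)), mul_pos_of_neg_of_neg (Mathlib.Tactic.Linarith.sub_neg_of_lt e0) (Mathlib.Tactic.Linarith.sub_neg_of_lt e1)]))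
  linarith only [a1, a2, a3, hX, mul_nonneg (sq_nonneg e) hX.le, sq_nonneg e]

end

theorem thicken {ν : ℝ} (hν : 0 < ν) : ∃ μ0 : ℝ, 0 < μ0 ∧ ∀ (F : Frame) (μ k ε ε' a x0 : ℝ) {κ : Type}
    (u : ℂ → ℝ) (w : κ → ℂ) (m : κ → ℝ), 0 < μ → μ ≤ μ0 → F.Good μ → Pot F μ u w m → 1 ≤ k → k ≤ 2 →
    0 ≤ ε → ε ≤ 1 → 0 < ε' → 0 < a → CovP F k ε μ a x0 u w m →
    ∃ (v ρ : ℂ → ℝ) (K : ℝ), Dens F ν K v ρ ∧ CovD F k (ε + ε') ν (a / 2) x0 v := by
  obtain ⟨μ1, hμ1, hB⟩ := Dens.Bge (ν := 1 / 2) (by norm_num)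
  obtain ⟨C, hC, hL⟩ := good_line
  refine ⟨min (1 / 10) (min (ν / 3) (μ1 / 3)), by positivity,
    fun F μ k ε ε' a x0 κ u w m hμ hμ0 hF h k1 k2 ε0 ε1 hε' ha hc => ?_⟩
  obtain ⟨m1, m2, m3⟩ : μ ≤ 1 / 10 ∧ μ ≤ ν / 3 ∧ μ ≤ μ1 / 3 := by
    simpa only [le_min_iff] using hμ0
  obtain ⟨e, e0, e1, e2, e3⟩ : ∃ e : ℝ, 0 < e ∧ e ≤ 1 / 100 ∧ e ≤ ν / 100 ∧ e ≤ ε' / 100 :=
    ⟨min (1 / 100) (min (ν / 100) (ε' / 100)), by positivity, min_le_left _ _,
      (min_le_right _ _).trans (min_le_left _ _), (min_le_right _ _).trans (min_le_right _ _)⟩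
  obtain ⟨θ, θ0, θ1⟩ : ∃ θ : ℝ, 0 < θ ∧ C * θ = e ^ 3 :=
    ⟨e ^ 3 / C, by positivity, mul_div_cancel₀ _ hC.ne'⟩
  obtain ⟨R, R0, R1, R2, R3⟩ : ∃ R : ℝ, 0 < R ∧ 8 * R ≤ μ ∧ R ≤ a / 2 ∧
      10 ≤ -Real.log (4 * R) * θ := by
    refine ⟨min (min (μ / 8) (a / 2)) (exp (-(10 / θ)) / 4), by positivity, ?_,
      (min_le_left _ _).trans (min_le_right _ _), ?_⟩
    · linarith only [(min_le_left _ (exp (-(10 / θ)) / 4)).trans (min_le_left (μ / 8) (a / 2))]
    · rw [← div_le_iff₀ θ0, le_neg, log_le_iff_le_exp (by positivity)]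
      linarith only [min_le_right (min (μ / 8) (a / 2)) (exp (-(10 / θ)) / 4)]
  have hD := h.dens hF m1 R0 R1
  refine ⟨_, _, _, hD.mono (by linarith only [m2]), fun x hx => ?_⟩
  have hX := F.Φ_pos x
  have l0 : 0 < e * R := mul_pos e0 R0
  have l1 : e * R ≤ R := mul_le_of_le_one_left R0.le (by linarith only [e0, e1])
  obtain ⟨t, ht, -, hreg, hlh⟩ := hL w m x 0 R (e * R) (θ * F.Φ x) (μ * F.Φ x) (fun _ => True)
    h.m_nonneg h.fin l0 l1 (by linarith only [m1, e0, e1, R1]) (mul_pos θ0 hX) (mul_pos hμ hX)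
    (Eventually.of_forall fun _ => trivial) (by
      have := h.mass (x + (0 + π : ℝ) * Complex.I)
      rwa [show ((x : ℂ) + (0 + π : ℝ) * Complex.I).re = x by simp] at this)
  have t1 : |t - x| ≤ e * R := abs_le.2 ⟨by linarith only [l0, ht, ht.1], by linarith only [ht, ht.2]⟩
  have t2 : |x - t| ≤ e * R := by rwa [abs_sub_comm]
  have hT : |F.Φ t - F.Φ x| ≤ e * F.Φ x := by
    refine (hF.Φ_close (by linarith only [m1, e0, e1]) (t1.trans (by linarith only [m1, e0, e1, R1, l1]))).trans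
      (mul_le_mul_of_nonneg_right ?_ hX.le)
    linarith only [t1, m1, e0, e1, R1, mul_le_mul_of_nonneg_left (show R ≤ 1 / 4 by linarith) e0.le]
  obtain ⟨T1, T2⟩ := abs_le.1 hT
  have eX : e * F.Φ x ≤ F.Φ x / 100 := by linarith only [e1, hX, mul_le_mul_of_nonneg_right e1 hX.le]
  have eX0 : 0 < e * F.Φ x := mul_pos e0 hX
  have hre : ∀ y : ℝ, ((t : ℂ) + y * Complex.I).re = t := fun y => by simp
  have dich : ∀ y ∈ Icc (0 : ℝ) (0 + 2 * π),
      thick u R (t + y * Complex.I) ≤ u (t + y * Complex.I) + e * F.Φ x ∨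
        thick u R (t + y * Complex.I) ≤ -5 * F.Φ x := by
    intro y hy
    have hz : ∀ b, m b ≠ 0 → w b ≠ t + y * Complex.I := fun b hb e' =>
      hreg b hb (by rw [e', hre])
    refine (hlh y hy).imp (fun c1 => ?_) fun c1 => ?_
    · have c2 : C * (R / (e * R)) * (θ * F.Φ x) * (μ * F.Φ x) = μ * (e * F.Φ x) ^ 2 := by
        field_simp
        linear_combination θ1
      have c3 := abs_le_of_sq_le_sq' (c1.trans (c2.trans_le
        (mul_le_of_le_one_left (sq_nonneg _) (by linarith only [m1, e0, e1])))) eX0.le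
      linarith only [c3, h, R0, m1, e0, e1, R1, hz, (h.thick_between R0 (by linarith) hz).2, c3.2]
    · have c2 := b4_heavy h R0 (by linarith only [m1, e0, e1, R1]) hz
      have c3 := (b0_M F (t + y * Complex.I)).2
      rw [hre] at c2 c3
      have c4 : 0 ≤ -Real.log (4 * R) := neg_nonneg.2 (log_nonpos (by linarith only [R0]) (by linarith only [m1, e0, e1, R1]))
      have c5 := mul_le_mul_of_nonneg_left c1 c4
      have c6 := mul_le_mul_of_nonneg_right R3 hX.le
      have c7 := mul_le_mul_of_nonneg_right m1 (F.Φ_pos t).le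
      linarith only [T2, eX, eX0, c2, c3, c5, c6, c7]
  have B1 := hB F _ _ _ _ (by linarith only [m3]) hD t
  have B2 : Bx (thick u R) t ≤ 3 / 2 * F.Φ x := by
    linarith only [T2, eX, eX0, hD, m1, hD.Ble t, mul_le_mul_of_nonneg_right m1 (F.Φ_pos t).le]
  have B3 : Bx (thick u R) x ≤ Bx (thick u R) t + 10 * e * F.Φ x := Bx_le fun y =>
    b4_move h hF m1 R0 (by linarith only [m1, e0, e1, R1]) e0 (by linarith only [e0, e1]) t2 (by linarith only [T1, eX, eX0, B1])
      (f3_le hD.cont hD.per t y)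
  obtain ⟨ys, s1, s2, s3⟩ := exists_Bx hD.cont hD.per t 0
  have B4 : Bx (thick u R) t ≤ u (t + ys * Complex.I) + e * F.Φ x := by
    rcases dich ys ⟨s1, s2.le⟩ with c | c <;> linarith only [s3, c, T1, eX, eX0, B1]
  obtain ⟨y', hy'⟩ := hc t (hx.trans ht.1) hreg
  obtain ⟨y, n, y1, rfl⟩ : ∃ (y : ℝ) (n : ℤ), y ∈ Icc (0 : ℝ) (0 + 2 * π) ∧ y' = y + n * (2 * π) :=
    ⟨toIcoMod two_pi_pos 0 y', toIcoDiv two_pi_pos 0 y',
      Ico_subset_Icc_self (toIcoMod_mem_Ico _ _ _), by
        rw [← zsmul_eq_mul, toIcoMod_add_toIcoDiv_zsmul]⟩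
  have p1 : u (t + (y + n * (2 * π) : ℝ) * Complex.I) = u (t + y * Complex.I) := by
    rw [← per_int (u := u) (L := 2 * π) (fun z => by simpa using h.per z) n (t + y * Complex.I)]
    congr 1
    push_cast
    ring
  rw [p1, add_sub_right_comm, sin_add_int_mul_two_pi] at hy'
  have kB : k * Bx (thick u R) t ≤ 3 * F.Φ x := by
    linarith only [B2, k2, T1, eX, eX0, B1, mul_le_mul_of_nonneg_right k2 (show 0 ≤ Bx (thick u R) t by linarith)]
  have ke : k * (e * F.Φ x) ≤ 2 * (e * F.Φ x) := mul_le_mul_of_nonneg_right k2 eX0.le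
  have εT : 0 ≤ ε * F.Φ t := mul_nonneg ε0 (F.Φ_pos t).le
  refine ⟨y, hy'.imp (fun c => ?_) fun c => ⟨?_, ?_⟩⟩
  · have c1 := mul_le_mul_of_nonneg_left B4 (zero_le_one.trans k1)
    have c2 := b4_move h hF m1 R0 (by linarith only [m1, e0, e1, R1]) e0 (by linarith only [e0, e1]) t2 (y := y)
      (A := -k * Bx (thick u R) t + ε * F.Φ t + 3 * (e * F.Φ x)) (by linarith only [eX0, kB, εT]) (by
        rcases dich y y1 with c3 | c3 <;> linarith only [ke, c1, c3, c, eX, eX0, kB, εT, c ys])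
    have c3 := mul_le_mul_of_nonneg_left B3 (zero_le_one.trans k1)
    have c4 : ε * F.Φ t ≤ ε * F.Φ x + e * F.Φ x := by
      linarith only [T2, ε0, ε1, eX0, mul_le_mul_of_nonneg_left T2 ε0, mul_le_mul_of_nonneg_right ε1 eX0.le]
    have c5 := mul_le_mul_of_nonneg_right e3 hX.le
    linarith only [eX0, ke, c2, c3, c4, c5]
  · have c1 := abs_sin_sub_sin_le (y - F.φ t) (y - F.φ x)
    have c2 := hF.φ_sub t x
    rw [sub_sub_sub_cancel_left] at c1
    have c3 : μ * |x - t| ≤ a / 2 :=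
      (mul_le_of_le_one_left (abs_nonneg _) (by linarith only [m1, e0, e1])).trans (by linarith only [R2, l1, t2])
    linarith only [c, c1, c2, c3, abs_sub_abs_le_abs_sub (sin (y - F.φ t)) (sin (y - F.φ x)), c.1]
  · have c1 := mul_pos hμ (F.Φ_pos t)
    have c0 := mul_le_mul_of_nonneg_right m1 (F.Φ_pos t).le
    have c2 := b4_move h hF m1 R0 (by linarith only [m1, e0, e1, R1]) e0 (by linarith only [e0, e1]) t2 (y := y)
      (A := -(1 - μ) * F.Φ t + e * F.Φ x) (by linarith only [T2, eX, eX0, c1]) (by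
        rcases dich y y1 with c3 | c3 <;> linarith only [c, c3, T2, eX, eX0, c1, c.2])
    have c3 := mul_le_mul_of_nonneg_right e2 hX.le
    have c4 := mul_le_mul_of_nonneg_right m2 hX.le
    have c5 : μ * F.Φ t ≤ μ * F.Φ x + e * F.Φ x := by
      linarith only [eX0, T2, hμ, m1, mul_le_mul_of_nonneg_left T2 hμ.le, mul_le_mul_of_nonneg_right m1 eX0.le]
    linarith only [T1, eX0, c2, c3, c4, c5, mul_pos hν hX]

end

end Pool.Agent.MinMod.Mo
end
end
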