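import Pool.Agent.Work.MP_f62247_an.SL

-- merged part: Pool.Agent.Work.MP_f62247_an.Mo.I6
section
-- merged part: Pool.Agent.Work.MP_f62247_an.Mo.Defs
section
/-!
Definitions for the monotonicity of the minimum modulus constant (see Mo/PROOF.md).
The plane is the universal cover of the cylinder, `z = x + i y`, `r = e^x`.
-/

open Real MeasureTheory Set Filter Topology

namespace Pool.Agent.MinMod.Mo

noncomputable section

/-! ## averages, subharmonic functions -/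

/-- circle average -/
abbrev ca (f : ℂ → ℝ) (z : ℂ) (s : ℝ) : ℝ := Real.circleAverage f z s

/-- `log₊ (s / |v|)` -/
def gk (s : ℝ) (v : ℂ) : ℝ := Real.posLog (s / ‖v‖)

/-- `log₊ (1 / |t|)` -/
def lp (t : ℝ) : ℝ := Real.posLog (1 / |t|)

/-- continuous and subharmonic on `Ω` -/
def SubOn (u : ℂ → ℝ) (Ω : Set ℂ) : Prop :=
  ContinuousOn u Ω ∧ ∀ z s, 0 < s → Metric.closedBall z s ⊆ Ω → u z ≤ ca u z s

/-- sub-mean value inequality at `z` for small circles -/
def LocSub (u : ℂ → ℝ) (z : ℂ) : Prop := ∃ r, 0 < r ∧ ∀ s, 0 < s → s < r → u z ≤ ca u z s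

/-- mean value property on `Ω` -/
def MV (u : ℂ → ℝ) (Ω : Set ℂ) : Prop :=
  ∀ z s, 0 < s → Metric.closedBall z s ⊆ Ω → ca u z s = u z

/-- disc average -/
def da (f : ℂ → ℝ) (z : ℂ) (R : ℝ) : ℝ := (π * R ^ 2)⁻¹ * ∫ w in Metric.ball z R, f w

/-- average with the logarithmic weight -/
def tav (r : ℝ) (f : ℂ → ℝ) (z : ℂ) : ℝ := (π * r ^ 2 / 2)⁻¹ * ∫ v, gk r v * f (z + v)

/-- the Riesz density of `tav r f` -/
def den (r : ℝ) (f : ℂ → ℝ) (z : ℂ) : ℝ := (π * r ^ 2 / 2)⁻¹ * (ca f z r - f z)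

/-- the Jensen term of a density -/
def pot (ρ : ℂ → ℝ) (s : ℝ) (z : ℂ) : ℝ := ∫ ζ, ρ ζ * gk s (ζ - z)

/-- iteration for the obstacle problem -/
def obIt (r : ℝ) (ψ : ℂ → ℝ) : ℕ → ℂ → ℝ
  | 0 => ψ
  | n + 1 => fun z => min (ψ z) (ca (obIt r ψ n) z r)

/-- the largest `r`-subharmonic minorant of `ψ` -/
def ob (r : ℝ) (ψ : ℂ → ℝ) (z : ℂ) : ℝ := ⨅ n, obIt r ψ n z

/-- supremum on a vertical line -/
def Bx (u : ℂ → ℝ) (x : ℝ) : ℝ := ⨆ y : ℝ, u (x + y * Complex.I)

/-- `f` has lower exponential type `lam` -/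
def LoType (f : ℝ → ℝ) (lam : ℝ) : Prop :=
  ∀ σ : ℝ, 0 < σ → (∀ᶠ x in atTop, exp ((lam - σ) * x) ≤ f x) ∧
    ∃ᶠ x in atTop, f x ≤ exp ((lam + σ) * x)

/-! ## frames -/

/-- size `exp ψ` and direction `φ` of the ridge, with two derivatives -/
structure Frame where
  ψ : ℝ → ℝ
  ψ1 : ℝ → ℝ
  ψ2 : ℝ → ℝ
  φ : ℝ → ℝ
  φ1 : ℝ → ℝ
  φ2 : ℝ → ℝ
  dψ : ∀ x, HasDerivAt ψ (ψ1 x) x
  dψ1 : ∀ x, HasDerivAt ψ1 (ψ2 x) x
  cψ2 : Continuous ψ2
  dφ : ∀ x, HasDerivAt φ (φ1 x) x
  dφ1 : ∀ x, HasDerivAt φ1 (φ2 x) x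
  cφ2 : Continuous φ2

namespace Frame

variable (F : Frame)

def Good (μ : ℝ) : Prop :=
  ∀ x, |F.ψ1 x - 1| ≤ μ ∧ |F.ψ2 x| ≤ μ ∧ |F.φ1 x| ≤ μ ∧ |F.φ2 x| ≤ μ

def Φ (x : ℝ) : ℝ := exp (F.ψ x)

/-- height above the ridge -/
def ht (z : ℂ) : ℝ := z.im - F.φ z.re

/-- the model -/
def M (z : ℂ) : ℝ := F.Φ z.re * cos (F.ht z)

/-- the barrier -/
def Th (z : ℂ) : ℝ := F.Φ z.re * cos (2 * F.ht z)

/-- the local harmonic model -/
def M0 (x0 : ℝ) (z : ℂ) : ℝ := F.Φ x0 * exp (z.re - x0) * cos (z.im - F.φ x0)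

def Xi (z : ℂ) : ℝ := F.Φ z.re * max 0 (1 / 40 - F.ht z) ^ 3

/-- the mirror image of a frame -/
def refl : Frame where
  ψ := F.ψ
  ψ1 := F.ψ1
  ψ2 := F.ψ2
  φ := fun x => -F.φ x
  φ1 := fun x => -F.φ1 x
  φ2 := fun x => -F.φ2 x
  dψ := F.dψ
  dψ1 := F.dψ1
  cψ2 := F.cψ2
  dφ := fun x => (F.dφ x).neg
  dφ1 := fun x => (F.dφ1 x).neg
  cφ2 := F.cφ2.neg

/-- relative modulus of continuity at the points of `S` -/
def Md (u : ℂ → ℝ) (S : Set ℂ) (η d : ℝ) : Prop :=
  ∀ z ∈ S, ∀ z' : ℂ, ‖z' - z‖ ≤ d → |u z' - u z| ≤ η * F.Φ z.re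

/-- relative uniform continuity -/
def UC (u : ℂ → ℝ) : Prop := ∀ η, 0 < η → ∃ d, 0 < d ∧ F.Md u univ η d

end Frame

/-! ## the data handed from one stage to the next -/

/-- a potential with atoms `w b` of mass `m b` -/
structure Pot (F : Frame) (μ : ℝ) {κ : Type} (u : ℂ → ℝ) (w : κ → ℂ) (m : κ → ℝ) : Prop where
  m_nonneg : ∀ b, 0 ≤ m b
  fin : ∀ (z : ℂ) (R : ℝ), {b | m b ≠ 0 ∧ w b ∈ Metric.ball z R}.Finite
  meas : Measurable u
  loc : LocallyIntegrable u
  ci : ∀ z s, CircleIntegrable u z s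
  per : ∀ z, u (z + 2 * π * Complex.I) = u z
  jen : ∀ z, (∀ b, m b ≠ 0 → w b ≠ z) → ∀ s, 0 < s → s ≤ 1 →
    ca u z s = u z + ∑ᶠ b, m b * gk s (w b - z)
  calm : ∀ z, |ca u z 1 - F.M z| ≤ μ * F.Φ z.re
  mass : ∀ z, ∑ᶠ b, (Metric.ball z 7).indicator (fun _ => m b) (w b) ≤ μ * F.Φ z.re

/-- cover for `Pot` -/
def CovP (F : Frame) (k ε μ a x0 : ℝ) {κ : Type} (u : ℂ → ℝ) (w : κ → ℂ) (m : κ → ℝ) : Prop :=
  ∀ x, x0 ≤ x → (∀ b, m b ≠ 0 → (w b).re ≠ x) → ∃ y : ℝ,
    (∀ y' : ℝ, u (x + y * Complex.I) + k * u (x + y' * Complex.I) ≤ ε * F.Φ x) ∨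
      (a ≤ |sin (y - F.φ x)| ∧ u (x + y * Complex.I) ≤ -(1 - μ) * F.Φ x)

/-- a potential with a bounded density -/
structure Dens (F : Frame) (μ K : ℝ) (u ρ : ℂ → ℝ) : Prop where
  cont : Continuous u
  per : ∀ z, u (z + 2 * π * Complex.I) = u z
  meas : Measurable ρ
  nonneg : ∀ z, 0 ≤ ρ z
  le : ∀ z, ρ z ≤ K * F.Φ z.re
  jen : ∀ z s, 0 < s → s ≤ 1 → ca u z s = u z + pot ρ s z
  calm : ∀ z, |ca u z 1 - F.M z| ≤ μ * F.Φ z.re
  mass : ∀ z, ∫ ζ in Metric.ball z 6, ρ ζ ≤ μ * F.Φ z.re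
  uc : F.UC u

/-- cover for `Dens` -/
def CovD (F : Frame) (k ε μ a x0 : ℝ) (u : ℂ → ℝ) : Prop :=
  ∀ x, x0 ≤ x → ∃ y : ℝ, u (x + y * Complex.I) ≤ -k * Bx u x + ε * F.Φ x ∨
    (a ≤ |sin (y - F.φ x)| ∧ u (x + y * Complex.I) ≤ -(1 - μ) * F.Φ x)

/-- a calm subharmonic function -/
structure SubD (F : Frame) (ν K : ℝ) (u : ℂ → ℝ) : Prop where
  cont : Continuous u
  per : ∀ z, u (z + 2 * π * Complex.I) = u z
  sub : SubOn u univ
  uc : F.UC u
  up : ∀ z, u z ≤ F.M z + ν * F.Φ z.re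
  low : ∀ z, -K * F.Φ z.re ≤ u z
  avg : ∀ z, F.M z - ν * F.Φ z.re ≤ da u z 1
  Bge : ∀ x, (1 - ν) * F.Φ x ≤ Bx u x

/-- cover by points whose height avoids `(a, 1/2)` -/
def CovS (F : Frame) (k ε a x0 : ℝ) (u : ℂ → ℝ) : Prop :=
  ∀ x, x0 ≤ x → ∃ y : ℝ, 1 / 2 - 2 * π ≤ y - F.φ x ∧ y - F.φ x ≤ a ∧
    u (x + y * Complex.I) ≤ -k * Bx u x + ε * F.Φ x

/-- harmonic above the ridge -/
structure Clean (F : Frame) (ν K y1 : ℝ) (u : ℂ → ℝ) : Prop extends SubD F ν K u where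
  mv : MV u {z | y1 ≤ F.ht z ∧ F.ht z ≤ 3 / 20}
  near : ∀ z, y1 ≤ F.ht z → F.ht z ≤ 3 / 20 → F.M z - ν * F.Φ z.re ≤ u z

/-- the subharmonic function on the wider cylinder -/
structure Wide (F : Frame) (k ε L x0 : ℝ) (G : ℂ → ℝ) : Prop where
  cont : Continuous G
  sub : SubOn G univ
  per : ∀ z, G (z + L * Complex.I) = G z
  bd : ∃ K, ∀ z, |G z| ≤ K * F.Φ z.re
  cov : ∃ (Bt : ℝ → ℝ) (d : ℝ), 0 < d ∧ ∀ x, x0 ≤ x → F.Φ x / 4 ≤ Bt x ∧ Bt x ≤ 2 * F.Φ x ∧
    (∀ ζ : ℂ, |ζ.re - x| ≤ d → G ζ ≤ Bt x + ε * F.Φ x) ∧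
    ∃ p : ℂ, p.re = x ∧ ∀ ζ : ℂ, ‖ζ - p‖ ≤ d → G ζ ≤ -k * Bt x + ε * F.Φ x

/-! ## infinite weighted configurations -/

structure ICfg (ι : Type) where
  c : ℂ
  m : ι → ℝ
  ξ : ι → ℝ
  η : ι → ℝ

namespace ICfg

variable {ι : Type} (Y : ICfg ι)

def ζ (a : ι) : ℂ := Y.ξ a + Y.η a * Complex.I

structure Valid (H : ℝ) : Prop where
  nonneg : ∀ a, 0 ≤ Y.m a
  right : ∀ a, Y.m a ≠ 0 → H ≤ Y.ξ a
  fin : ∀ X : ℝ, {a | Y.m a ≠ 0 ∧ Y.ξ a ≤ X}.Finite
  sum : Summable fun a => Y.m a * exp (-2 * Y.ξ a)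

def U (x θ : ℝ) : ℝ :=
  (Y.c * Complex.exp (x + θ * Complex.I)).re + ∑' a, Y.m a * nk (x - Y.ξ a) (θ - Y.η a)

def W (x : ℝ) : ℝ := ∑' a, Y.m a * w0 (x - Y.ξ a)

def cc (y : ℝ) : ℂ := Y.c + ∑' a, if Y.ξ a < y then (Y.m a : ℂ) * Complex.exp (-Y.ζ a) else 0

def A (x : ℝ) : ℝ := ‖Y.cc x‖ * exp x

def Reg (x : ℝ) : Prop := ∀ a, Y.m a ≠ 0 → Y.ξ a ≠ x

def Calm (μ : ℝ) : Prop := ∀ x : ℝ, 0 < ‖Y.cc x‖ ∧ Y.W x ≤ μ * Y.A x

def Cov (k ε μ a x0 : ℝ) : Prop :=
  ∀ x, x0 ≤ x → Y.Reg x → ∃ y : ℝ, (∀ y' : ℝ, Y.U x y + k * Y.U x y' ≤ ε * Y.A x) ∨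
    (a * ‖Y.cc x‖ ≤ |(Y.cc x * Complex.exp (y * Complex.I)).im| ∧ Y.U x y ≤ -(1 - μ) * Y.A x)

/-- the function on the plane -/
def u (z : ℂ) : ℝ := Y.U z.re z.im

/-- the atoms in the plane -/
def w (b : ι × ℤ) : ℂ := Y.ζ b.1 + b.2 * (2 * π * Complex.I)

def mw (b : ι × ℤ) : ℝ := Y.m b.1

end ICfg

end

end Pool.Agent.MinMod.Mo
end

-- merged part: Pool.Agent.Work.MP_f62247_an.Mo.I3
section
/-!
# Algebra of subharmonic functions, harmonic examples, Jensen for the kernels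
All elementary: `circleAverage_mono`, `circleAverage_fun_add`, `ContinuousOn.circleIntegrable`. `ca_log`: `circleAverage_log_norm_sub_const_eq_log_radius_add_posLog` or rescale `circleAverage_log_norm_sub_const_eq_posLog`.
`ca_lg`: `1 - exp (κ (w - p)) = -(κ (w - p)) * E (κ (w - p))` with `E = dslope exp 0` entire and without zeros in `‖·‖ < 2π` (`Complex.exp_eq_one_iff`); the log of the norm of a zero free analytic function has the mean value property
(`AnalyticOnNhd.circleAverage_log_norm_of_ne_zero` or Jensen); the identity of logs holds off one point (`circleAverage_congr_codiscreteWithin`).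
-/

open Real MeasureTheory Set Filter Topology

namespace Pool.Agent.MinMod.Mo

noncomputable section

theorem gk_nonneg (s : ℝ) (v : ℂ) : 0 ≤ gk s v := by
  exact posLog_nonneg

theorem gk_neg (s : ℝ) (v : ℂ) : gk s (-v) = gk s v := by
  rw [gk, gk, norm_neg]

theorem gk_eq_zero {s : ℝ} {v : ℂ} (hs : 0 ≤ s) (h : s ≤ ‖v‖) : gk s v = 0 := by
  refine (posLog_eq_zero_iff _).2 ?_
  rw [abs_of_nonneg (by positivity)]
  exact div_le_one_of_le₀ h (norm_nonneg _)

theorem gk_mono {s t : ℝ} (hs : 0 < s) (h : s ≤ t) (v : ℂ) : gk s v ≤ gk t v := by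
  exact posLog_le_posLog (by positivity) (div_le_div_of_nonneg_right h (norm_nonneg _))

theorem gk_le_add {s t : ℝ} (hs : 0 < s) (h : s ≤ t) (v : ℂ) :
    gk t v ≤ gk s v + Real.log (t / s) := by
  have e : t / ‖v‖ = s / ‖v‖ * (t / s) := by
    rw [div_mul_div_comm, mul_comm ‖v‖ s, mul_div_mul_left _ _ hs.ne']
  have h1 : 1 ≤ |t / s| := ((one_le_div hs).2 h).trans (le_abs_self _)
  rw [gk, gk, e, ← posLog_eq_log h1]
  exact posLog_mul

theorem gk_eq {s : ℝ} (hs : 0 < s) {v : ℂ} (hv : v ≠ 0) :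
    gk s v = Real.log (max s ‖v‖) - Real.log ‖v‖ := by
  have h0 : 0 < ‖v‖ := norm_pos_iff.2 hv
  rcases le_total s ‖v‖ with h | h
  · rw [gk_eq_zero hs.le h, max_eq_right h, sub_self]
  · rw [max_eq_left h, gk, posLog_eq_log (((one_le_div h0).2 h).trans (le_abs_self _)),
      Real.log_div hs.ne' h0.ne']

theorem gk_le_lp_re {v : ℂ} (h : v.re ≠ 0) : gk 1 v ≤ lp v.re := by
  exact posLog_le_posLog (by positivity)
    (one_div_le_one_div_of_le (abs_pos.2 h) (Complex.abs_re_le_norm v))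

theorem gk_le_lp_im {v : ℂ} (h : v.im ≠ 0) : gk 1 v ≤ lp v.im := by
  exact posLog_le_posLog (by positivity)
    (one_div_le_one_div_of_le (abs_pos.2 h) (Complex.abs_im_le_norm v))

theorem measurable_gk (s : ℝ) : Measurable (gk s) := by
  exact continuous_posLog.measurable.comp (measurable_const.div measurable_norm)

theorem measurable_lp : Measurable lp := by
  exact continuous_posLog.measurable.comp (measurable_const.div continuous_abs.measurable)

theorem ci_of_cont {u : ℂ → ℝ} {Ω : Set ℂ} (h : ContinuousOn u Ω) {z : ℂ} {s : ℝ} (hs : 0 ≤ s)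
    (hb : Metric.closedBall z s ⊆ Ω) : CircleIntegrable u z s := by
  exact (h.mono (Metric.sphere_subset_closedBall.trans hb)).circleIntegrable hs

theorem ca_shift (f : ℂ → ℝ) (z c : ℂ) (s : ℝ) : ca (fun w => f (w + c)) z s = ca f (z + c) s := by
  have e : ∀ θ, circleMap z s θ + c = circleMap (z + c) s θ := fun θ => by
    simp only [circleMap]
    ring
  simp only [ca, circleAverage_def, e]

theorem ca_scale (f : ℂ → ℝ) (z : ℂ) (s α : ℝ) :
    ca (fun w => f (α * w)) z s = ca f (α * z) (α * s) := by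
  have e : ∀ θ, α * circleMap z s θ = circleMap (α * z) (α * s) θ := fun θ => by
    simp only [circleMap]
    push_cast
    ring
  simp only [ca, circleAverage_def, e]

theorem ca_conj (f : ℂ → ℝ) (z : ℂ) (s : ℝ) :
    ca (fun w => f (starRingEnd ℂ w)) z s = ca f (starRingEnd ℂ z) s := by
  have e : ∀ θ, starRingEnd ℂ (circleMap z s θ) = circleMap (starRingEnd ℂ z) s (-θ) := fun θ => by
    simp [circleMap, ← Complex.exp_conj]
  simp only [ca, circleAverage_def, e]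
  rw [intervalIntegral.integral_comp_neg fun θ => f (circleMap (starRingEnd ℂ z) s θ)]
  have t : Function.Periodic (fun θ => f (circleMap (starRingEnd ℂ z) s θ)) (2 * π) :=
    fun x => by simp only [periodic_circleMap _ _ x]
  congr 1
  simpa using t.intervalIntegral_add_eq (-(2 * π)) 0

theorem continuous_ca {f : ℂ → ℝ} (hf : Continuous f) (s : ℝ) : Continuous fun z => ca f z s := by
  simp only [ca, circleAverage_def]
  refine continuous_const.mul ?_
  refine intervalIntegral.continuous_parametric_intervalIntegral_of_continuous' ?_ _ _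
  refine hf.comp ?_
  simp only [circleMap]
  fun_prop

theorem ca_le_of_le {f g : ℂ → ℝ} {z : ℂ} {s : ℝ} (hs : 0 ≤ s) (hf : CircleIntegrable f z s)
    (hg : CircleIntegrable g z s) (h : ∀ w, ‖w - z‖ = s → f w ≤ g w) : ca f z s ≤ ca g z s := by
  refine circleAverage_mono hf hg fun w hw => h w ?_
  rwa [mem_sphere_iff_norm, abs_of_nonneg hs] at hw

theorem SubOn.mono {u : ℂ → ℝ} {Ω Ω' : Set ℂ} (h : SubOn u Ω) (hs : Ω' ⊆ Ω) : SubOn u Ω' := by
  exact ⟨h.1.mono hs, fun z s h0 hb => h.2 z s h0 (hb.trans hs)⟩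

theorem SubOn.add {u v : ℂ → ℝ} {Ω : Set ℂ} (hu : SubOn u Ω) (hv : SubOn v Ω) :
    SubOn (fun z => u z + v z) Ω := by
  refine ⟨hu.1.add hv.1, fun z s h0 hb => ?_⟩
  rw [ca, circleAverage_fun_add (ci_of_cont hu.1 h0.le hb) (ci_of_cont hv.1 h0.le hb)]
  exact add_le_add (hu.2 z s h0 hb) (hv.2 z s h0 hb)

theorem SubOn.smul {u : ℂ → ℝ} {Ω : Set ℂ} (hu : SubOn u Ω) {c : ℝ} (hc : 0 ≤ c) :
    SubOn (fun z => c * u z) Ω := by
  refine ⟨continuousOn_const.mul hu.1, fun z s h0 hb => ?_⟩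
  have e : ca (fun z => c * u z) z s = c * ca u z s := circleAverage_fun_smul (a := c)
  rw [e]
  exact mul_le_mul_of_nonneg_left (hu.2 z s h0 hb) hc

theorem SubOn.max {u v : ℂ → ℝ} {Ω : Set ℂ} (hu : SubOn u Ω) (hv : SubOn v Ω) :
    SubOn (fun z => max (u z) (v z)) Ω := by
  have hc : ContinuousOn (fun z => Max.max (u z) (v z)) Ω := hu.1.sup hv.1
  refine ⟨hc, fun z s h0 hb => max_le ((hu.2 z s h0 hb).trans ?_) ((hv.2 z s h0 hb).trans ?_)⟩
  · exact ca_le_of_le h0.le (ci_of_cont hu.1 h0.le hb) (ci_of_cont hc h0.le hb)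
      fun _ _ => le_max_left _ _
  · exact ca_le_of_le h0.le (ci_of_cont hv.1 h0.le hb) (ci_of_cont hc h0.le hb)
      fun _ _ => le_max_right _ _

theorem SubOn.locSub {u : ℂ → ℝ} {Ω : Set ℂ} (hu : SubOn u Ω) {z : ℂ} (hz : Ω ∈ 𝓝 z) :
    LocSub u z := by
  obtain ⟨r, hr, hb⟩ := Metric.mem_nhds_iff.1 hz
  exact ⟨r, hr, fun s h0 hs => hu.2 z s h0 ((Metric.closedBall_subset_ball hs).trans hb)⟩

theorem SubOn.shift {u : ℂ → ℝ} {Ω : Set ℂ} (hu : SubOn u Ω) (c : ℂ) :
    SubOn (fun z => u (z + c)) {z | z + c ∈ Ω} := by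
  refine ⟨hu.1.comp (continuous_id.add continuous_const).continuousOn fun _ h => h,
    fun z s h0 hb => ?_⟩
  rw [ca_shift]
  refine hu.2 _ s h0 fun w hw => ?_
  have : w - c ∈ Metric.closedBall z s := by
    rw [mem_closedBall_iff_norm] at hw ⊢
    rwa [sub_sub, add_comm c]
  simpa using hb this

theorem SubOn.scale {u : ℂ → ℝ} (hu : SubOn u univ) {α : ℝ} (hα : 0 < α) :
    SubOn (fun z => u (α * z)) univ := by
  refine ⟨hu.1.comp (continuous_const.mul continuous_id).continuousOn fun _ _ => trivial,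
    fun z s h0 _ => ?_⟩
  rw [ca_scale]
  exact hu.2 _ _ (mul_pos hα h0) (subset_univ _)

theorem i3_ci {f : ℂ → ℝ} {z : ℂ} {r s : ℝ} (h : ∀ w ∈ Metric.ball z r, ContinuousAt f w)
    (h0 : 0 < s) (hs : s < r) : CircleIntegrable f z s :=
  ci_of_cont (continuousOn_of_forall_continuousAt h) h0.le (Metric.closedBall_subset_ball hs)

/-- gluing: `g` touches `f` from above at `z` -/
theorem LocSub.of_le {f g : ℂ → ℝ} {z : ℂ} (hf : LocSub f z) (he : g z ≤ f z)
    (hle : ∀ᶠ w in 𝓝 z, f w ≤ g w) (cf : ∀ᶠ w in 𝓝 z, ContinuousAt f w)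
    (cg : ∀ᶠ w in 𝓝 z, ContinuousAt g w) : LocSub g z := by
  obtain ⟨r, hr, h⟩ := hf
  obtain ⟨t, ht, hb⟩ := Metric.eventually_nhds_iff_ball.1 (hle.and (cf.and cg))
  refine ⟨min r t, lt_min hr ht, fun s h0 hs => he.trans ((h s h0 (lt_min_iff.1 hs).1).trans ?_)⟩
  have h1 := (lt_min_iff.1 hs).2
  exact ca_le_of_le h0.le (i3_ci (fun w hw => (hb w hw).2.1) h0 h1)
    (i3_ci (fun w hw => (hb w hw).2.2) h0 h1)
    fun w hw => (hb w (mem_ball_iff_norm.2 (hw.trans_lt h1))).1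

theorem LocSub.congr {f g : ℂ → ℝ} {z : ℂ} (hf : LocSub f z) (he : f =ᶠ[𝓝 z] g) : LocSub g z := by
  obtain ⟨r, hr, h⟩ := hf
  obtain ⟨t, ht, hb⟩ := Metric.eventually_nhds_iff_ball.1 he
  refine ⟨min r t, lt_min hr ht, fun s h0 hs => ?_⟩
  have e : ca f z s = ca g z s := circleAverage_congr_sphere fun w hw => hb w (by
    rw [abs_of_pos h0] at hw
    exact Metric.sphere_subset_ball (lt_min_iff.1 hs).2 hw)
  rw [← e, ← he.self_of_nhds]
  exact h s h0 (lt_min_iff.1 hs).1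

theorem LocSub.add {f g : ℂ → ℝ} {z : ℂ} (hf : LocSub f z) (hg : LocSub g z)
    (cf : ∀ᶠ w in 𝓝 z, ContinuousAt f w) (cg : ∀ᶠ w in 𝓝 z, ContinuousAt g w) :
    LocSub (fun w => f w + g w) z := by
  obtain ⟨r, hr, h⟩ := hf
  obtain ⟨r', hr', h'⟩ := hg
  obtain ⟨t, ht, hb⟩ := Metric.eventually_nhds_iff_ball.1 (cf.and cg)
  refine ⟨min (min r r') t, lt_min (lt_min hr hr') ht, fun s h0 hs => ?_⟩
  obtain ⟨h1, h2⟩ := lt_min_iff.1 hs
  rw [ca, circleAverage_fun_add (i3_ci (fun w hw => (hb w hw).1) h0 h2)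
    (i3_ci (fun w hw => (hb w hw).2) h0 h2)]
  exact add_le_add (h s h0 (lt_min_iff.1 h1).1) (h' s h0 (lt_min_iff.1 h1).2)

theorem ca_re {G : ℂ → ℂ} {z : ℂ} {s : ℝ} (hs : 0 ≤ s)
    (hG : ∀ w ∈ Metric.closedBall z s, DifferentiableAt ℂ G w) :
    ca (fun w => (G w).re) z s = (G z).re := by
  have hc : ContinuousOn G (Metric.closedBall z s) :=
    continuousOn_of_forall_continuousAt fun w hw => (hG w hw).continuousAt
  have h1 : circleAverage G z s = G z := by
    refine circleAverage_of_differentiable_on_off_countable countable_empty ?_ fun w hw => ?_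
    · rwa [abs_of_nonneg hs]
    · rw [abs_of_nonneg hs] at hw
      exact hG w (Metric.ball_subset_closedBall hw.1)
  rw [← h1]
  exact Complex.reCLM.circleAverage_comp_comm
    ((hc.mono Metric.sphere_subset_closedBall).circleIntegrable hs)

theorem ca_log_norm {G : ℂ → ℂ} {z : ℂ} {s : ℝ} (hs : 0 ≤ s)
    (hG : ∀ w ∈ Metric.closedBall z s, AnalyticAt ℂ G w ∧ G w ≠ 0) :
    ca (fun w => Real.log ‖G w‖) z s = Real.log ‖G z‖ := by
  refine InnerProductSpace.HarmonicOnNhd.circleAverage_eq fun w hw => ?_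
  rw [abs_of_nonneg hs] at hw
  exact (hG w hw).1.harmonicAt_log_norm (hG w hw).2

theorem ca_log (p z : ℂ) {s : ℝ} (hs : 0 < s) :
    ca (fun w => Real.log ‖w - p‖) z s = Real.log (max s ‖p - z‖) := by
  rw [ca, circleAverage_log_norm_sub_const_eq_log_radius_add_posLog hs.ne',
    posLog_eq_log_max_one (by positivity), ← Real.log_mul hs.ne' (by positivity),
    mul_max_of_nonneg _ _ hs.le, mul_one, mul_inv_cancel_left₀ hs.ne', norm_sub_rev]

theorem i3_lg (κ : ℝ) (p w : ℂ) : lg (κ * (w.re - p.re)) (κ * (w.im - p.im)) =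
    Real.log ‖1 - Complex.exp (κ * (w - p))‖ := by
  rw [lg]
  congr 4
  apply Complex.ext <;> simp

/-- the zero free factor -/
def i3_E (κ : ℝ) (v : ℂ) : ℂ := κ * dslope Complex.exp 0 (κ * v)

theorem i3_diff (κ : ℝ) : Differentiable ℂ (i3_E κ) := by
  have h : Differentiable ℂ (dslope Complex.exp 0) :=
    differentiableOn_univ.1 ((Complex.differentiableOn_dslope univ_mem).2
      Complex.differentiable_exp.differentiableOn)
  exact (h.comp (differentiable_id.const_mul _)).const_mul _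

theorem i3_mul (κ : ℝ) (v : ℂ) : v * i3_E κ v = Complex.exp (κ * v) - 1 := by
  have h := sub_smul_dslope Complex.exp 0 (κ * v)
  rw [sub_zero, smul_eq_mul, Complex.exp_zero] at h
  rw [← h, i3_E]
  ring

theorem i3_ne {κ : ℝ} (hκ : 0 < κ) {v : ℂ} (h : κ * ‖v‖ < 2 * π) : i3_E κ v ≠ 0 := by
  rcases eq_or_ne v 0 with rfl | hv
  · simp [i3_E, hκ.ne']
  intro h0
  have h1 := i3_mul κ v
  rw [h0, mul_zero, eq_comm, sub_eq_zero, Complex.exp_eq_one_iff] at h1
  obtain ⟨n, hn⟩ := h1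
  have h2 := congrArg norm hn
  have h3 : n ≠ 0 := by
    rintro rfl
    simp [hκ.ne', hv] at hn
  have h4 : (1 : ℝ) ≤ |(n : ℝ)| := by exact_mod_cast Int.one_le_abs h3
  simp [abs_of_pos hκ, abs_of_pos pi_pos] at h2
  nlinarith [pi_pos]

theorem i3_log {κ : ℝ} (hκ : 0 < κ) {v : ℂ} (hv : v ≠ 0) (h : κ * ‖v‖ < 2 * π) :
    Real.log ‖1 - Complex.exp (κ * v)‖ = Real.log ‖v‖ + Real.log ‖i3_E κ v‖ := by
  rw [norm_sub_rev, ← i3_mul, norm_mul,
    Real.log_mul (norm_ne_zero_iff.2 hv) (norm_ne_zero_iff.2 (i3_ne hκ h))]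

theorem ci_lg (κ : ℝ) (p z : ℂ) (s : ℝ) :
    CircleIntegrable (fun w => lg (κ * (w.re - p.re)) (κ * (w.im - p.im))) z s := by
  simp only [i3_lg]
  exact MeromorphicOn.circleIntegrable_log_norm fun w _ => AnalyticAt.meromorphicAt (by fun_prop)

theorem ca_lg {κ s : ℝ} {p z : ℂ} (hκ : 0 < κ) (hs : 0 < s) (hz : z ≠ p)
    (h : κ * (‖z - p‖ + s) < 2 * π) :
    ca (fun w => lg (κ * (w.re - p.re)) (κ * (w.im - p.im))) z s =
      lg (κ * (z.re - p.re)) (κ * (z.im - p.im)) + gk s (p - z) := by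
  have h1 : ∀ w ∈ Metric.closedBall z s, κ * ‖w - p‖ < 2 * π := fun w hw => by
    refine lt_of_le_of_lt (mul_le_mul_of_nonneg_left ?_ hκ.le) h
    have := norm_sub_le_norm_sub_add_norm_sub w z p
    linarith [mem_closedBall_iff_norm.1 hw]
  have h2 : Differentiable ℂ fun w => i3_E κ (w - p) :=
    (i3_diff κ).comp (differentiable_id.sub_const p)
  have h3 : ca (fun w => Real.log ‖1 - Complex.exp (κ * (w - p))‖) z s =
      ca (fun w => Real.log ‖w - p‖ + Real.log ‖i3_E κ (w - p)‖) z s := by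
    refine circleAverage_congr_codiscreteWithin ?_ hs.ne'
    filter_upwards [self_mem_codiscreteWithin _, compl_singleton_mem_codiscreteWithin p]
      with w hw hp
    rw [abs_of_pos hs] at hw
    exact i3_log hκ (sub_ne_zero.2 hp) (h1 w (Metric.sphere_subset_closedBall hw))
  have h4 := ca_log p z hs
  have h5 := ca_log_norm hs.le fun w hw => ⟨h2.analyticAt w, i3_ne hκ (h1 w hw)⟩
  simp only [i3_lg]
  rw [h3, ca, circleAverage_fun_add (circleIntegrable_log_norm_sub_const s)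
    (MeromorphicOn.circleIntegrable_log_norm fun w _ => (h2.analyticAt w).meromorphicAt),
    i3_log hκ (sub_ne_zero.2 hz) (h1 z (Metric.mem_closedBall_self hs.le)),
    gk_eq hs (sub_ne_zero.2 hz.symm), norm_sub_rev p z]
  rw [norm_sub_rev p z] at h4
  linarith

/-- `lg` is the logarithm of the distance up to a bounded term -/
theorem lg_sub_log {κ : ℝ} (hκ : 0 < κ) : ∃ C : ℝ, ∀ v : ℂ, v ≠ 0 → κ * ‖v‖ ≤ 5 →
    |lg (κ * v.re) (κ * v.im) - Real.log ‖v‖| ≤ C := by
  have h1 : ∀ v : ℂ, κ * ‖v‖ ≤ 5 → κ * ‖v‖ < 2 * π := fun v h => by linarith [pi_gt_three]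
  have h2 : ∀ v ∈ Metric.closedBall (0 : ℂ) (5 / κ), κ * ‖v‖ ≤ 5 := fun v hv => by
    rwa [mem_closedBall_zero_iff, le_div_iff₀' hκ] at hv
  obtain ⟨C, hC⟩ := (isCompact_closedBall (0 : ℂ) (5 / κ)).exists_bound_of_continuousOn
    (f := fun v => Real.log ‖i3_E κ v‖) ((i3_diff κ).continuous.norm.continuousOn.log
      fun v hv => norm_ne_zero_iff.2 (i3_ne hκ (h1 v (h2 v hv))))
  refine ⟨C, fun v hv h => ?_⟩
  have h3 := i3_lg κ 0 v
  simp only [Complex.zero_re, Complex.zero_im, sub_zero] at h3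
  rw [h3, i3_log hκ hv (h1 v h), add_sub_cancel_left]
  exact hC v (by rwa [mem_closedBall_zero_iff, le_div_iff₀' hκ])

end

end Pool.Agent.MinMod.Mo
end

-- merged part: Pool.Agent.Work.MP_f62247_an.Mo.I1
section
/-!
# Local sub-mean value property implies the global one
Maximum principle: let `u` be continuous on the closed ball, `LocSub` at every point of the open ball, `u ≤ 0` on the sphere. If the maximum `m > 0` over the closed ball is attained,
take among the maximum points one farthest from the centre (compact set); it is interior, on a small circle around it `u ≤ m` with strict inequality on an open arc (the outward point), so the average is `< m`.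
Global inequality: for a closed ball `closedBall z s ⊆ Ω` approximate `θ ↦ u (z + s e^{iθ})` uniformly by a trigonometric polynomial (`span_fourier_closure_eq_top`, or Stone-Weierstrass on the sphere with the star subalgebra
generated by the coordinate); it is the restriction of `Re P(w)` for a complex polynomial `P` in `w - z` (on the circle `conj (w - z) ^ n` and `(w - z) ^ n` have conjugate values; the real part of `a * conj (w-z)^n` is the real part of `conj a * (w-z)^n`).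
`Re P` has the mean value property (`DiffContOnCl.circleAverage`, `ContinuousLinearMap.circleAverage_comp_comm`), so `u - Re P - ε` is `LocSub` and `≤ 0` on the sphere.
Alternative: the Poisson integral of Mathlib (`Analysis/Complex/Poisson.lean`, `differentiableOn_circleAverage_herglotzRieszKernel_smul`).
-/

open Real MeasureTheory Set Filter Topology

namespace Pool.Agent.MinMod.Mo

noncomputable section

theorem i1_sub {c z : ℂ} {R s : ℝ} (h : s ≤ R - dist z c) :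
    Metric.sphere z s ⊆ Metric.closedBall c R :=
  Metric.sphere_subset_closedBall.trans (Metric.closedBall_subset_closedBall' (by linarith))

theorem i1_lt {u : ℂ → ℝ} {z : ℂ} {s m : ℝ} (hs : 0 < s) (hc : ContinuousOn u (Metric.sphere z s))
    (h : ∀ w ∈ Metric.sphere z s, u w ≤ m) (h' : u (z + s) < m) : ca u z s < m := by
  have h1 := intervalIntegral.integral_lt_integral_of_continuousOn_of_le_of_exists_lt two_pi_pos
    (hc.comp_continuous (continuous_circleMap z s) (circleMap_mem_sphere z hs.le)).continuousOn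
    (continuousOn_const (c := m)) (fun θ _ => h _ (circleMap_mem_sphere z hs.le θ))
    ⟨0, left_mem_Icc.2 two_pi_pos.le, by simpa [circleMap] using h'⟩
  exact (mul_lt_mul_of_pos_left h1 (inv_pos.2 two_pi_pos)).trans_eq (circleAverage_const m z s)

theorem max_principle {u : ℂ → ℝ} {c : ℂ} {R : ℝ} (hR : 0 < R)
    (hc : ContinuousOn u (Metric.closedBall c R)) (hs : ∀ z ∈ Metric.ball c R, LocSub u z)
    (hb : ∀ z ∈ Metric.sphere c R, u z ≤ 0) : ∀ z ∈ Metric.closedBall c R, u z ≤ 0 := by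
  obtain ⟨z₀, h0, h1⟩ := (isCompact_closedBall c R).exists_isMaxOn
    (Metric.nonempty_closedBall.2 hR.le) hc
  obtain ⟨z₁, ⟨h2, h3⟩, h4⟩ := ((isCompact_closedBall c R).of_isClosed_subset
    (hc.preimage_isClosed_of_isClosed Metric.isClosed_closedBall (isClosed_singleton (x := u z₀)))
    inter_subset_left).exists_isMaxOn ⟨z₀, h0, rfl⟩ Complex.continuous_re.continuousOn
  replace h3 : u z₁ = u z₀ := h3
  rcases (Metric.mem_closedBall.1 h2).eq_or_lt with h5 | h5
  · exact fun z hz => (h1 hz).trans (h3 ▸ hb z₁ h5)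
  obtain ⟨r, r0, hr⟩ := hs z₁ h5
  have s0 : 0 < min (r / 2) (R - dist z₁ c) := lt_min (half_pos r0) (sub_pos.2 h5)
  have h6 := i1_sub (min_le_right (r / 2) (R - dist z₁ c))
  have h7 := h6 (show z₁ + (min (r / 2) (R - dist z₁ c) : ℝ) ∈ _ by
    rw [mem_sphere_iff_norm, add_sub_cancel_left, Complex.norm_of_nonneg s0.le])
  refine absurd (h3 ▸ hr _ s0 ((min_le_left _ _).trans_lt (half_lt_self r0))) (not_le.2
    (i1_lt s0 (hc.mono h6) (fun w hw => h1 (h6 hw)) (lt_of_le_of_ne (h1 h7) fun e => ?_)))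
  have h8 : (z₁ + (min (r / 2) (R - dist z₁ c) : ℝ)).re ≤ z₁.re := h4 ⟨h7, e⟩
  rw [Complex.add_re, Complex.ofReal_re] at h8
  linarith

theorem i1_pow (n : ℕ) (x : AddCircle (1 : ℝ)) : fourier n x = fourier 1 x ^ n := by
  induction n with
  | zero => simp
  | succ n ih => rw [Nat.cast_succ, fourier_add, ih, pow_succ]

theorem i1_span {g : C(AddCircle (1 : ℝ), ℂ)} (hg : g ∈ Submodule.span ℂ (range (@fourier 1))) :
    ∃ P Q : ℂ → ℂ, Differentiable ℂ P ∧ Differentiable ℂ Q ∧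
      ∀ x, g x = P (fourier 1 x) + (starRingEnd ℂ) (Q (fourier 1 x)) := by
  induction hg using Submodule.span_induction with
  | mem g hg =>
    obtain ⟨n, rfl⟩ := hg
    obtain ⟨n, rfl | rfl⟩ := n.eq_nat_or_neg
    · exact ⟨(· ^ n), 0, by fun_prop, differentiable_const _, fun x => by
        rw [i1_pow, Pi.zero_apply, map_zero, add_zero]⟩
    · exact ⟨0, (· ^ n), differentiable_const _, by fun_prop, fun x => by
        rw [fourier_neg, i1_pow, Pi.zero_apply, zero_add]⟩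
  | zero => exact ⟨0, 0, differentiable_const _, differentiable_const _, fun x => by simp⟩
  | add g g' _ _ h h' =>
    obtain ⟨P, Q, a1, a2, a3⟩ := h
    obtain ⟨P', Q', b1, b2, b3⟩ := h'
    exact ⟨P + P', Q + Q', a1.add b1, a2.add b2, fun x => by
      rw [ContinuousMap.add_apply, a3, b3, Pi.add_apply, Pi.add_apply, map_add, add_add_add_comm]⟩
  | smul a g _ h =>
    obtain ⟨P, Q, a1, a2, a3⟩ := h
    exact ⟨fun w => a * P w, fun w => (starRingEnd ℂ) a * Q w, a1.const_mul _, a2.const_mul _,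
      fun x => by rw [ContinuousMap.smul_apply, a3, smul_eq_mul, map_mul, Complex.conj_conj, mul_add]⟩

theorem i1_approx {u : ℂ → ℝ} {c : ℂ} {R ε : ℝ} (hR : 0 < R)
    (hc : ContinuousOn u (Metric.sphere c R)) (hε : 0 < ε) :
    ∃ P : ℂ → ℂ, Differentiable ℂ P ∧ ∀ w ∈ Metric.sphere c R, |u w - (P w).re| < ε := by
  have h1 : ∀ x : AddCircle (1 : ℝ), c + R * fourier 1 x ∈ Metric.sphere c R := fun x => by
    rw [mem_sphere_iff_norm, add_sub_cancel_left, norm_mul, fourier_one, Circle.norm_coe, mul_one,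
      Complex.norm_of_nonneg hR.le]
  let f : C(AddCircle (1 : ℝ), ℂ) := ⟨fun x => u (c + R * fourier 1 x),
    Complex.continuous_ofReal.comp (hc.comp_continuous (by fun_prop) h1)⟩
  have h2 : f ∈ (Submodule.span ℂ (range (@fourier 1))).topologicalClosure :=
    (span_fourier_closure_eq_top (T := 1)).ge Submodule.mem_top
  obtain ⟨g, h3, h4⟩ := Metric.mem_closure_iff.1 h2 ε hε
  obtain ⟨P, Q, a1, a2, a3⟩ := i1_span h3
  refine ⟨fun w => P ((w - c) / R) + Q ((w - c) / R), by fun_prop, fun w hw => ?_⟩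
  obtain ⟨θ, rfl⟩ : w ∈ range (circleMap c R) := by rwa [range_circleMap, abs_of_pos hR]
  have h5 : circleMap c R θ = c + R * fourier 1 ((θ / (2 * π) : ℝ) : AddCircle (1 : ℝ)) := by
    have : (π : ℂ) ≠ 0 := Complex.ofReal_ne_zero.2 pi_ne_zero
    rw [fourier_coe_apply, circleMap]
    congr 3
    push_cast
    field_simp
  have h6 := (Complex.abs_re_le_norm _).trans_lt
    ((ContinuousMap.dist_apply_le_dist (f := f) (g := g) ((θ / (2 * π) : ℝ) : AddCircle (1 : ℝ))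
      ).trans_lt h4 |>.trans_eq' (dist_eq_norm _ _))
  simp only [h5, add_sub_cancel_left, mul_div_cancel_left₀ _ (Complex.ofReal_ne_zero.2 hR.ne')]
  rw [a3] at h6
  simpa [f] using h6

theorem i1_ci {P : ℂ → ℂ} (hP : Differentiable ℂ P) (ε : ℝ) (z : ℂ) (s : ℝ) :
    CircleIntegrable (fun w => (P w).re + ε) z s :=
  ((Complex.continuous_re.comp hP.continuous).add continuous_const).continuousOn.circleIntegrable'

theorem i1_mv {P : ℂ → ℂ} (hP : Differentiable ℂ P) (ε : ℝ) (z : ℂ) (s : ℝ) :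
    ca (fun w => (P w).re + ε) z s = (P z).re + ε := by
  have h : Differentiable ℂ fun w => P w + ε := hP.add_const _
  have h1 := Complex.reCLM.circleAverage_comp_comm (c := z) (R := s)
    h.continuous.continuousOn.circleIntegrable'
  rw [h.diffContOnCl.circleAverage] at h1
  exact h1

theorem i1_maj {u : ℂ → ℝ} {c : ℂ} {R ε : ℝ} (hR : 0 < R)
    (hc : ContinuousOn u (Metric.closedBall c R)) (hs : ∀ z ∈ Metric.ball c R, LocSub u z)
    (hε : 0 < ε) : ∃ P : ℂ → ℂ, Differentiable ℂ P ∧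
      (∀ w ∈ Metric.closedBall c R, u w ≤ (P w).re + ε) ∧ (P c).re + ε ≤ ca u c R + 2 * ε := by
  have hc' := hc.mono Metric.sphere_subset_closedBall
  obtain ⟨P, h1, h2⟩ := i1_approx hR hc' hε
  refine ⟨P, h1, fun w hw => sub_nonpos.1 (max_principle (u := fun w => u w - ((P w).re + ε)) hR
    (hc.sub ((Complex.continuous_re.comp h1.continuous).add continuous_const).continuousOn)
    (fun z hz => ?_) (fun z hz => by linarith [(abs_lt.1 (h2 z hz)).2]) w hw), ?_⟩
  · obtain ⟨r, r0, hr⟩ := hs z hz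
    refine ⟨min r (R - dist z c), lt_min r0 (sub_pos.2 hz), fun s s0 s1 => ?_⟩
    have h3 := circleAverage_fun_sub ((hc.mono (i1_sub (lt_min_iff.1 s1).2.le)).circleIntegrable
      s0.le) (i1_ci h1 ε z s)
    have h4 := i1_mv h1 ε z s
    have h5 := hr s s0 (lt_min_iff.1 s1).1
    unfold ca at *
    linarith
  · have h3 := circleAverage_mono (i1_ci h1 (-ε) c R) (hc'.circleIntegrable hR.le) fun z hz => by
      linarith [(abs_lt.1 (h2 z (abs_of_pos hR ▸ hz))).1]
    have h4 := i1_mv h1 (-ε) c R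
    unfold ca at *
    linarith

theorem subOn_of_loc {u : ℂ → ℝ} {Ω : Set ℂ} (hc : ContinuousOn u Ω) (hs : ∀ z ∈ Ω, LocSub u z) :
    SubOn u Ω := by
  refine ⟨hc, fun z s s0 h => le_of_forall_pos_le_add fun ε hε => ?_⟩
  obtain ⟨P, -, h2, h3⟩ := i1_maj s0 (hc.mono h)
    (fun w hw => hs w (h (Metric.ball_subset_closedBall hw))) (half_pos hε)
  linarith [h2 z (Metric.mem_closedBall_self s0.le)]

/-- circle averages of a subharmonic function increase with the radius -/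
theorem SubOn.ca_mono {u : ℂ → ℝ} {Ω : Set ℂ} (h : SubOn u Ω) {z : ℂ} {s t : ℝ} (hs : 0 < s)
    (hst : s ≤ t) (hb : Metric.closedBall z t ⊆ Ω) : ca u z s ≤ ca u z t := by
  refine le_of_forall_pos_le_add fun ε hε => ?_
  obtain ⟨P, h1, h2, h3⟩ := i1_maj (hs.trans_le hst) (h.1.mono hb) (fun w hw =>
    ⟨t - dist w z, sub_pos.2 hw, fun r r0 r1 => h.2 w r r0
      ((Metric.closedBall_subset_closedBall' (by linarith)).trans hb)⟩) (half_pos hε)
  have h4 : Metric.sphere z s ⊆ Metric.closedBall z t := i1_sub (by simpa using hst)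
  have h5 := circleAverage_mono ((h.1.mono (h4.trans hb)).circleIntegrable hs.le)
    (i1_ci h1 (ε / 2) z s) fun w hw => h2 w (h4 (abs_of_pos hs ▸ hw))
  have h6 := i1_mv h1 (ε / 2) z s
  unfold ca at *
  linarith

end

end Pool.Agent.MinMod.Mo
end

-- merged part: Pool.Agent.Work.MP_f62247_an.Mo.I6
section
/-!
# The obstacle problem for one circle average, and a maximum principle
`g` is a continuous subsolution below `ψ`. By induction `obIt n` is continuous (`continuous_ca`), `g ≤ obIt (n+1) ≤ obIt n ≤ ψ`; so `obIt n z → ob z` (`tendsto_atTop_ciInf`), `ob` is measurable and between `g` and `ψ`,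
dominated convergence on the circle gives `ob_eq`. `le_ob`: induction on `n`: `f ≤ obIt n` on `S`. `mp_r`: let `N` be the supremum of `f / Θ` over `G`; if `N > 0` then `f ≤ N Θ` on `S`, so
`f z ≤ ca f z r ≤ N (1 - θ) Θ z` on `G`, hence `N ≤ (1-θ) N`.
-/

open Real MeasureTheory Set Filter Topology

namespace Pool.Agent.MinMod.Mo

noncomputable section

variable {r : ℝ} {ψ g : ℂ → ℝ}

theorem i6_ci {u : ℂ → ℝ} (h : Continuous u) (z : ℂ) (s : ℝ) : CircleIntegrable u z s :=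
  (h.comp (continuous_circleMap z s)).intervalIntegrable _ _

theorem i6_cont (hψ : Continuous ψ) (n : ℕ) : Continuous (obIt r ψ n) := by
  induction n with
  | zero => exact hψ
  | succ n ih => exact hψ.min (continuous_ca ih r)

theorem i6_ge (hr : 0 < r) (hψ : Continuous ψ) (hg : Continuous g) (h1 : ∀ z, g z ≤ ψ z)
    (h2 : ∀ z, g z ≤ ca g z r) (n : ℕ) : ∀ z, g z ≤ obIt r ψ n z := by
  induction n with
  | zero => exact h1
  | succ n ih =>
    exact fun z => le_min (h1 z) ((h2 z).trans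
      (ca_le_of_le hr.le (i6_ci hg z r) (i6_ci (i6_cont hψ n) z r) fun w _ => ih w))

theorem i6_succ (hr : 0 < r) (hψ : Continuous ψ) (n : ℕ) :
    ∀ z, obIt r ψ (n + 1) z ≤ obIt r ψ n z := by
  induction n with
  | zero => exact fun z => min_le_left _ _
  | succ n ih =>
    exact fun z => min_le_min le_rfl (ca_le_of_le hr.le (i6_ci (i6_cont hψ _) z r)
      (i6_ci (i6_cont hψ n) z r) fun w _ => ih w)

theorem i6_anti (hr : 0 < r) (hψ : Continuous ψ) (z : ℂ) : Antitone fun n => obIt r ψ n z :=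
  antitone_nat_of_succ_le fun n => i6_succ hr hψ n z

theorem i6_bdd (hr : 0 < r) (hψ : Continuous ψ) (hg : Continuous g) (h1 : ∀ z, g z ≤ ψ z)
    (h2 : ∀ z, g z ≤ ca g z r) (z : ℂ) : BddBelow (range fun n => obIt r ψ n z) :=
  ⟨g z, by
    rintro _ ⟨n, rfl⟩
    exact i6_ge hr hψ hg h1 h2 n z⟩

theorem i6_le (hr : 0 < r) (hψ : Continuous ψ) (hg : Continuous g) (h1 : ∀ z, g z ≤ ψ z)
    (h2 : ∀ z, g z ≤ ca g z r) (n : ℕ) (z : ℂ) : ob r ψ z ≤ obIt r ψ n z :=
  ciInf_le (i6_bdd hr hψ hg h1 h2 z) n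

theorem i6_lim (hr : 0 < r) (hψ : Continuous ψ) (hg : Continuous g) (h1 : ∀ z, g z ≤ ψ z)
    (h2 : ∀ z, g z ≤ ca g z r) (z : ℂ) :
    Tendsto (fun n => obIt r ψ n z) atTop (𝓝 (ob r ψ z)) :=
  tendsto_atTop_ciInf (i6_anti hr hψ z) (i6_bdd hr hψ hg h1 h2 z)

theorem i6_abs {a b x : ℝ} (h1 : a ≤ x) (h2 : x ≤ b) : ‖x‖ ≤ |a| + |b| := by
  rw [Real.norm_eq_abs, abs_le]
  constructor
  · linarith [neg_abs_le a, abs_nonneg b]
  · linarith [le_abs_self b, abs_nonneg a]

theorem ob_ge (hr : 0 < r) (hψ : Continuous ψ) (hg : Continuous g) (h1 : ∀ z, g z ≤ ψ z)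
    (h2 : ∀ z, g z ≤ ca g z r) (z : ℂ) : g z ≤ ob r ψ z ∧ ob r ψ z ≤ ψ z :=
  ⟨le_ciInf fun n => i6_ge hr hψ hg h1 h2 n z, i6_le hr hψ hg h1 h2 0 z⟩

theorem ob_ci (hr : 0 < r) (hψ : Continuous ψ) (hg : Continuous g) (h1 : ∀ z, g z ≤ ψ z)
    (h2 : ∀ z, g z ≤ ca g z r) (z : ℂ) (s : ℝ) : CircleIntegrable (ob r ψ) z s := by
  have hm : Measurable (ob r ψ) :=
    measurable_of_tendsto_metrizable (fun n => (i6_cont (r := r) hψ n).measurable)
      (tendsto_pi_nhds.2 (i6_lim hr hψ hg h1 h2))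
  refine IntervalIntegrable.mono_fun' (i6_ci (hg.abs.add hψ.abs) z s)
    (hm.comp (continuous_circleMap z s).measurable).aestronglyMeasurable
    (Eventually.of_forall fun t => ?_)
  exact i6_abs (ob_ge hr hψ hg h1 h2 _).1 (ob_ge hr hψ hg h1 h2 _).2

theorem ob_eq (hr : 0 < r) (hψ : Continuous ψ) (hg : Continuous g) (h1 : ∀ z, g z ≤ ψ z)
    (h2 : ∀ z, g z ≤ ca g z r) (z : ℂ) : ob r ψ z = min (ψ z) (ca (ob r ψ) z r) := by
  have h3 : Tendsto (fun n => ca (obIt r ψ n) z r) atTop (𝓝 (ca (ob r ψ) z r)) := by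
    simp only [ca, Real.circleAverage_def]
    refine Tendsto.const_smul ?_ _
    refine intervalIntegral.tendsto_integral_filter_of_dominated_convergence
      (fun t => |g (circleMap z r t)| + |ψ (circleMap z r t)|)
      (Eventually.of_forall fun n =>
        ((i6_cont hψ n).comp (continuous_circleMap z r)).aestronglyMeasurable)
      (Eventually.of_forall fun n => Eventually.of_forall fun t _ => ?_)
      (i6_ci (hg.abs.add hψ.abs) z r)
      (Eventually.of_forall fun t _ => i6_lim hr hψ hg h1 h2 _)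
    exact i6_abs (i6_ge hr hψ hg h1 h2 n _) (i6_anti hr hψ _ (Nat.zero_le n))
  exact tendsto_nhds_unique ((i6_lim hr hψ hg h1 h2 z).comp (tendsto_add_atTop_nat 1))
    (tendsto_const_nhds.min h3)

theorem ob_per {c : ℂ} (hp : ∀ z, ψ (z + c) = ψ z) (z : ℂ) : ob r ψ (z + c) = ob r ψ z := by
  have h : ∀ n z, obIt r ψ n (z + c) = obIt r ψ n z := fun n => by
    induction n with
    | zero => exact hp
    | succ n ih =>
      intro z
      change min _ _ = min _ _
      rw [hp, ← ca_shift, funext ih]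
  simp only [ob, h]

/-- maximality -/
theorem le_ob (hr : 0 < r) (hψ : Continuous ψ) (hg : Continuous g) (h1 : ∀ z, g z ≤ ψ z)
    (h2 : ∀ z, g z ≤ ca g z r) {f : ℂ → ℝ} {N S : Set ℂ}
    (hN : ∀ z ∈ N, ∀ w, ‖w - z‖ = r → w ∈ S)
    (hf : ∀ z ∈ N, CircleIntegrable f z r ∧ f z ≤ ψ z ∧ f z ≤ ca f z r)
    (hS : ∀ z ∈ S, z ∉ N → f z ≤ ob r ψ z) : ∀ z ∈ S, f z ≤ ob r ψ z := by
  have h : ∀ n, ∀ z ∈ S, f z ≤ obIt r ψ n z := fun n => by
    induction n with
    | zero =>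
      intro z hz
      by_cases hz' : z ∈ N
      · exact (hf z hz').2.1
      · exact (hS z hz hz').trans (i6_le hr hψ hg h1 h2 _ z)
    | succ n ih =>
      intro z hz
      by_cases hz' : z ∈ N
      · exact le_min (hf z hz').2.1 ((hf z hz').2.2.trans (ca_le_of_le hr.le (hf z hz').1
          (i6_ci (i6_cont hψ n) z r) fun w hw => ih w (hN z hz' w hw)))
      · exact (hS z hz hz').trans (i6_le hr hψ hg h1 h2 _ z)
  exact fun z hz => le_ciInf fun n => h n z hz

theorem mp_r (hr : 0 < r) {f Θ : ℂ → ℝ} {G S : Set ℂ} {θ C : ℝ} (hθ : 0 < θ) (hθ1 : θ ≤ 1)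
    (hG : ∀ z ∈ G, ∀ w, ‖w - z‖ = r → w ∈ S) (hΘ : Continuous Θ) (hpos : ∀ z ∈ G ∪ S, 0 < Θ z)
    (hs : ∀ z ∈ G, ca Θ z r ≤ (1 - θ) * Θ z)
    (hf : ∀ z ∈ G, CircleIntegrable f z r ∧ f z ≤ ca f z r ∧ f z ≤ C * Θ z)
    (hS : ∀ z ∈ S, z ∉ G → f z ≤ 0) : ∀ z ∈ G, f z ≤ 0 := by
  have h0 : 0 ≤ 1 - θ := sub_nonneg.2 hθ1
  have h : ∀ n : ℕ, ∀ z ∈ G, f z ≤ (1 - θ) ^ n * |C| * Θ z := fun n => by
    induction n with
    | zero =>
      intro z hz
      rw [pow_zero, one_mul]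
      exact (hf z hz).2.2.trans
        (mul_le_mul_of_nonneg_right (le_abs_self C) (hpos z (Or.inl hz)).le)
    | succ n ih =>
      intro z hz
      have hc : 0 ≤ (1 - θ) ^ n * |C| := mul_nonneg (pow_nonneg h0 n) (abs_nonneg C)
      have e1 : ca f z r ≤ ca (fun w => ((1 - θ) ^ n * |C|) • Θ w) z r := by
        refine ca_le_of_le hr.le (hf z hz).1 (i6_ci (hΘ.fun_const_smul _) z r) fun w hw => ?_
        by_cases hw' : w ∈ G
        · exact ih w hw'
        · exact (hS w (hG z hz w hw) hw').trans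
            (mul_nonneg hc (hpos w (Or.inr (hG z hz w hw))).le)
      rw [ca, ca, Real.circleAverage_fun_smul, smul_eq_mul] at e1
      have e2 := mul_le_mul_of_nonneg_left (hs z hz) hc
      calc f z ≤ _ := (hf z hz).2.1
        _ ≤ _ := e1
        _ ≤ _ := e2
        _ = _ := by ring
  intro z hz
  have h1 : Tendsto (fun n : ℕ => (1 - θ) ^ n * |C| * Θ z) atTop (𝓝 (0 * |C| * Θ z)) :=
    ((tendsto_pow_atTop_nhds_zero_of_lt_one h0 (by linarith)).mul_const _).mul_const _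
  rw [zero_mul, zero_mul] at h1
  exact ge_of_tendsto' h1 fun n => h n z hz

end

end Pool.Agent.MinMod.Mo
end
end

-- merged part: Pool.Agent.Work.MP_f62247_an.Mo.F2
section
-- merged part: Pool.Agent.Work.MP_f62247_an.Mo.F1
section
/-!
# Elementary facts on frames
Mean value inequality (`Convex.norm_image_sub_le_of_norm_hasDerivWithin_le` or `abs_sub_le_of_deriv`) for `ψ x - x` and `φ`. `M_sub_M0`: `|e^a cos b - e^a' cos b'| ≤ |e^a - e^a'| + e^a' |b - b'|`.
`M0 x0 z = Re (Φ x0 * exp (z - x0 - i φ x0))`, use `ca_re`. `LoType` lemmas: constants are absorbed by `exp (σ x)`.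
-/

open Real MeasureTheory Set Filter Topology

namespace Pool.Agent.MinMod.Mo

noncomputable section

namespace Frame

variable {F : Frame} {μ : ℝ}

theorem Φ_pos (F : Frame) (x : ℝ) : 0 < F.Φ x := exp_pos _

theorem f1_mvt {f f' : ℝ → ℝ} {C : ℝ} (hd : ∀ x, HasDerivAt f (f' x) x) (hb : ∀ x, |f' x| ≤ C)
    (x x' : ℝ) : |f x' - f x| ≤ C * |x' - x| :=
  Convex.norm_image_sub_le_of_norm_hasDerivWithin_le (s := univ)
    (fun x _ => (hd x).hasDerivWithinAt) (fun x _ => hb x) convex_univ (mem_univ x) (mem_univ x')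

theorem f1_cos {a a' b b' : ℝ} (ha : 0 ≤ a) :
    |a' * cos b' - a * cos b| ≤ |a' - a| + a * |b' - b| := by
  have e : a' * cos b' - a * cos b = (a' - a) * cos b' + a * (cos b' - cos b) := by ring
  rw [e]
  refine (abs_add_le _ _).trans (add_le_add ?_ ?_)
  · rw [abs_mul]
    exact mul_le_of_le_one_right (abs_nonneg _) (abs_cos_le_one _)
  · rw [abs_mul, abs_of_nonneg ha]
    exact mul_le_mul_of_nonneg_left (abs_cos_sub_cos_le _ _) ha

theorem f1_re (z z' : ℂ) : |z'.re - z.re| ≤ ‖z' - z‖ := by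
  rw [← Complex.sub_re]
  exact Complex.abs_re_le_norm _

theorem f1_im (z z' : ℂ) : |z'.im - z.im| ≤ ‖z' - z‖ := by
  rw [← Complex.sub_im]
  exact Complex.abs_im_le_norm _

theorem Good.mono {μ' : ℝ} (h : F.Good μ) (h' : μ ≤ μ') : F.Good μ' :=
  fun x => ⟨(h x).1.trans h', (h x).2.1.trans h', (h x).2.2.1.trans h', (h x).2.2.2.trans h'⟩

theorem Good.nonneg (h : F.Good μ) : 0 ≤ μ :=
  (abs_nonneg _).trans (h 0).1

theorem Good.refl (h : F.Good μ) : F.refl.Good μ :=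
  fun x => ⟨(h x).1, (h x).2.1, (abs_neg (F.φ1 x)).le.trans (h x).2.2.1,
    (abs_neg (F.φ2 x)).le.trans (h x).2.2.2⟩

theorem continuous_φ (F : Frame) : Continuous F.φ :=
  continuous_iff_continuousAt.2 fun x => (F.dφ x).continuousAt

theorem continuous_Φ (F : Frame) : Continuous F.Φ :=
  continuous_exp.comp (continuous_iff_continuousAt.2 fun x => (F.dψ x).continuousAt)

theorem continuous_ht (F : Frame) : Continuous F.ht :=
  Complex.continuous_im.sub (F.continuous_φ.comp Complex.continuous_re)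

theorem continuous_M (F : Frame) : Continuous F.M :=
  (F.continuous_Φ.comp Complex.continuous_re).mul (continuous_cos.comp F.continuous_ht)

theorem continuous_Th (F : Frame) : Continuous F.Th :=
  (F.continuous_Φ.comp Complex.continuous_re).mul
    (continuous_cos.comp (continuous_const.mul F.continuous_ht))

theorem continuous_M0 (F : Frame) (x0 : ℝ) : Continuous (F.M0 x0) := by
  unfold M0
  fun_prop

theorem continuous_Xi (F : Frame) : Continuous F.Xi :=
  (F.continuous_Φ.comp Complex.continuous_re).mul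
    ((continuous_const.max (continuous_const.sub F.continuous_ht)).pow 3)

theorem Good.ψ_sub (h : F.Good μ) (x x' : ℝ) : |F.ψ x' - F.ψ x - (x' - x)| ≤ μ * |x' - x| := by
  have h1 := f1_mvt (f := fun x => F.ψ x - x) (f' := fun x => F.ψ1 x - 1)
    (fun x => (F.dψ x).sub (hasDerivAt_id x)) (fun x => (h x).1) x x'
  have e : F.ψ x' - F.ψ x - (x' - x) = F.ψ x' - x' - (F.ψ x - x) := by ring
  rw [e]
  exact h1

theorem Good.φ_sub (h : F.Good μ) (x x' : ℝ) : |F.φ x' - F.φ x| ≤ μ * |x' - x| :=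
  f1_mvt F.dφ (fun x => (h x).2.2.1) x x'

theorem Good.Φ_le (h : F.Good μ) (h1 : μ ≤ 1) {x x' s : ℝ} (hs : |x' - x| ≤ s) :
    F.Φ x' ≤ exp (2 * s) * F.Φ x := by
  have h2 := (abs_le.1 (h.ψ_sub x x')).2
  have h3 : μ * |x' - x| ≤ |x' - x| := mul_le_of_le_one_left (abs_nonneg _) h1
  have h4 := le_abs_self (x' - x)
  unfold Φ
  rw [← exp_add]
  exact exp_le_exp.2 (by linarith only [hs, h2, h3, h4])

/-- growth to the right and decay to the left -/
theorem Good.Φ_grow (h : F.Good μ) {x x' : ℝ} (hx : x ≤ x') :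
    exp ((1 - μ) * (x' - x)) * F.Φ x ≤ F.Φ x' ∧ F.Φ x' ≤ exp ((1 + μ) * (x' - x)) * F.Φ x := by
  have h2 := abs_le.1 (h.ψ_sub x x')
  rw [abs_of_nonneg (sub_nonneg.2 hx)] at h2
  unfold Φ
  rw [← exp_add, ← exp_add]
  exact ⟨exp_le_exp.2 (by linarith [h2.1]), exp_le_exp.2 (by linarith [h2.2])⟩

theorem Good.Φ_close (h : F.Good μ) (h1 : μ ≤ 1) {x x' : ℝ} (hs : |x' - x| ≤ 1 / 4) :
    |F.Φ x' - F.Φ x| ≤ 4 * |x' - x| * F.Φ x := by
  have h2 := h.ψ_sub x x'
  have h3 : μ * |x' - x| ≤ |x' - x| := mul_le_of_le_one_left (abs_nonneg _) h1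
  have h4 : |F.ψ x' - F.ψ x| ≤ 2 * |x' - x| := by
    have h5 := abs_add_le (F.ψ x' - F.ψ x - (x' - x)) (x' - x)
    rw [sub_add_cancel] at h5
    linarith only [h2, h3, h5]
  have h5 := abs_exp_sub_one_le (x := F.ψ x' - F.ψ x) (by linarith only [hs, h4])
  have e : F.Φ x' - F.Φ x = (exp (F.ψ x' - F.ψ x) - 1) * F.Φ x := by
    unfold Φ
    rw [sub_mul, ← exp_add, sub_add_cancel, one_mul]
  rw [e, abs_mul, abs_of_pos (F.Φ_pos x)]
  exact mul_le_mul_of_nonneg_right (by linarith only [h4, h5]) (F.Φ_pos x).le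

theorem Good.ht_sub (h : F.Good μ) (h1 : μ ≤ 1) (z z' : ℂ) : |F.ht z' - F.ht z| ≤ 2 * ‖z' - z‖ := by
  have h2 := h.φ_sub z.re z'.re
  have h3 : μ * |z'.re - z.re| ≤ |z'.re - z.re| := mul_le_of_le_one_left (abs_nonneg _) h1
  have e : F.ht z' - F.ht z = (z'.im - z.im) - (F.φ z'.re - F.φ z.re) := by
    unfold ht
    ring
  rw [e]
  have h4 := abs_sub (z'.im - z.im) (F.φ z'.re - F.φ z.re)
  linarith only [h2, h3, h4, f1_re z z', f1_im z z']

theorem ht_add_I (F : Frame) (z : ℂ) (t : ℝ) : F.ht (z + t * Complex.I) = F.ht z + t := by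
  simp [ht]
  ring

theorem ht_mk (F : Frame) (x y : ℝ) : F.ht (x + y * Complex.I) = y - F.φ x := by
  simp [ht]

theorem Good.M_close (h : F.Good μ) (h1 : μ ≤ 1) {z z' : ℂ} (hs : ‖z' - z‖ ≤ 1 / 4) :
    |F.M z' - F.M z| ≤ 8 * ‖z' - z‖ * F.Φ z.re := by
  have h2 := h.Φ_close h1 ((f1_re z z').trans hs)
  have h3 := h.ht_sub h1 z z'
  have h4 := F.Φ_pos z.re
  have h5 : 4 * |z'.re - z.re| * F.Φ z.re ≤ 4 * ‖z' - z‖ * F.Φ z.re :=
    mul_le_mul_of_nonneg_right (by linarith only [f1_re z z']) h4.le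
  have h6 := mul_le_mul_of_nonneg_left h3 h4.le
  have h7 : 0 ≤ ‖z' - z‖ * F.Φ z.re := mul_nonneg (norm_nonneg _) h4.le
  refine (f1_cos h4.le).trans ?_
  linarith only [h2, h5, h6, h7]

theorem Good.M_sub_M0 (h : F.Good μ) (h1 : μ ≤ 1 / 10) {x0 : ℝ} {z : ℂ} (hz : |z.re - x0| ≤ 2) :
    |F.M z - F.M0 x0 z| ≤ 50 * μ * F.Φ x0 := by
  have h0 := h.nonneg
  have hm : μ * |z.re - x0| ≤ μ * 2 := mul_le_mul_of_nonneg_left hz h0
  have h2 := (h.ψ_sub x0 z.re).trans hm
  have h3 := (h.φ_sub x0 z.re).trans hm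
  have h4 := F.Φ_pos x0
  have hE : 0 < F.Φ x0 * exp (z.re - x0) := mul_pos h4 (exp_pos _)
  have h5 : exp (z.re - x0) ≤ 8 := by
    have h6 : exp (z.re - x0) ≤ exp (1 + 1) := exp_le_exp.2 (by linarith only [hz, le_abs_self (z.re - x0)])
    rw [exp_add] at h6
    have h7 := exp_one_lt_d9
    have h8 := exp_pos 1
    linarith only [h6, h7, h8, mul_pos_of_neg_of_neg (Mathlib.Tactic.Linarith.sub_neg_of_lt h7) (Mathlib.Tactic.Linarith.sub_neg_of_lt h8)]
  have h6 := abs_exp_sub_one_le (x := F.ψ z.re - F.ψ x0 - (z.re - x0)) (by linarith only [h1, h2])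
  have e : F.Φ z.re - F.Φ x0 * exp (z.re - x0) =
      (exp (F.ψ z.re - F.ψ x0 - (z.re - x0)) - 1) * (F.Φ x0 * exp (z.re - x0)) := by
    unfold Φ
    rw [sub_mul, one_mul, ← exp_add, ← exp_add]
    congr 2
    ring
  have e2 : F.ht z - (z.im - F.φ x0) = -(F.φ z.re - F.φ x0) := by
    unfold ht
    ring
  refine (f1_cos hE.le).trans ?_
  rw [e, e2, abs_neg, abs_mul, abs_of_pos hE]
  have h7 : |exp (F.ψ z.re - F.ψ x0 - (z.re - x0)) - 1| * (F.Φ x0 * exp (z.re - x0)) ≤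
      4 * μ * (F.Φ x0 * exp (z.re - x0)) := mul_le_mul_of_nonneg_right (by linarith only [h2, h6]) hE.le
  have h8 := mul_le_mul_of_nonneg_left h3 hE.le
  have h9 : μ * (F.Φ x0 * exp (z.re - x0)) ≤ μ * (F.Φ x0 * 8) :=
    mul_le_mul_of_nonneg_left (mul_le_mul_of_nonneg_left h5 h4.le) h0
  have h10 : 0 ≤ μ * F.Φ x0 := mul_nonneg h0 h4.le
  linarith only [h7, h8, h9, h10]

theorem M0_self (F : Frame) (z : ℂ) : F.M0 z.re z = F.M z := by
  simp [M0, M, ht]

theorem ca_M0 (F : Frame) (x0 : ℝ) (z : ℂ) (s : ℝ) : ca (F.M0 x0) z s = F.M0 x0 z := by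
  have e : F.M0 x0 = fun w : ℂ =>
      ((F.Φ x0 : ℂ) * Complex.exp (w - x0 - F.φ x0 * Complex.I)).re := by
    funext w
    simp [M0, Complex.exp_re, mul_assoc]
  have h1 := ca_re (G := fun w : ℂ => (F.Φ x0 : ℂ) * Complex.exp (w - x0 - F.φ x0 * Complex.I))
    (z := z) (abs_nonneg s) (fun w _ => by fun_prop)
  rw [e]
  exact Real.circleAverage_abs_radius.symm.trans h1

theorem Good.uc_Φ (h : F.Good μ) (h1 : μ ≤ 1) : F.UC fun z => F.Φ z.re := by
  intro η hη
  refine ⟨min (1 / 4) (η / 4), lt_min (by norm_num) (by linarith only [hη]), fun z _ z' hz => ?_⟩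
  have h2 := (f1_re z z').trans hz
  refine (h.Φ_close h1 (h2.trans (min_le_left _ _))).trans ?_
  exact mul_le_mul_of_nonneg_right (by linarith only [h2, h2.trans (min_le_right _ _)]) (F.Φ_pos _).le

theorem Good.uc_M (h : F.Good μ) (h1 : μ ≤ 1) : F.UC F.M := by
  intro η hη
  refine ⟨min (1 / 4) (η / 8), lt_min (by norm_num) (by linarith only [hη]), fun z _ z' hz => ?_⟩
  refine (h.M_close h1 (hz.trans (min_le_left _ _))).trans ?_
  exact mul_le_mul_of_nonneg_right (by linarith only [hz, hz.trans (min_le_right _ _)]) (F.Φ_pos _).le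

theorem UC.add {u v : ℂ → ℝ} (hu : F.UC u) (hv : F.UC v) : F.UC fun z => u z + v z := by
  intro η hη
  obtain ⟨d, hd, h1⟩ := hu (η / 2) (by linarith only [hη])
  obtain ⟨d', hd', h2⟩ := hv (η / 2) (by linarith)
  refine ⟨min d d', lt_min hd hd', fun z hz z' hz' => ?_⟩
  have h3 := h1 z hz z' (hz'.trans (min_le_left _ _))
  have h4 := h2 z hz z' (hz'.trans (min_le_right _ _))
  have e : u z' + v z' - (u z + v z) = (u z' - u z) + (v z' - v z) := by ring
  show |u z' + v z' - (u z + v z)| ≤ η * F.Φ z.re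
  rw [e]
  linarith only [h3, h4, abs_add_le (u z' - u z) (v z' - v z)]

theorem refl_ht (F : Frame) (z : ℂ) : F.refl.ht (starRingEnd ℂ z) = -F.ht z := by
  show (starRingEnd ℂ z).im - -F.φ (starRingEnd ℂ z).re = -(z.im - F.φ z.re)
  rw [Complex.conj_im, Complex.conj_re]
  ring

theorem refl_M (F : Frame) (z : ℂ) : F.refl.M (starRingEnd ℂ z) = F.M z := by
  show F.Φ (starRingEnd ℂ z).re * cos (F.refl.ht (starRingEnd ℂ z)) = F.Φ z.re * cos (F.ht z)
  rw [refl_ht, cos_neg, Complex.conj_re]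

theorem Good.type_ge (h : F.Good μ) {lam : ℝ} (ho : LoType F.Φ lam) : 1 - μ ≤ lam := by
  by_contra hlt
  have hσ : 0 < (1 - μ - lam) / 2 := by linarith only [hlt, not_le.1 hlt]
  obtain ⟨x, h1, h2, h3⟩ := ((ho _ hσ).2.and_eventually ((eventually_ge_atTop 0).and
    (eventually_gt_atTop (-F.ψ 0 / ((1 - μ - lam) / 2))))).exists
  have h4 := (h.Φ_grow h2).1.trans h1
  unfold Φ at h4
  rw [← exp_add, exp_le_exp] at h4
  rw [div_lt_iff₀ hσ] at h3
  linarith only [h3, h4]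

end Frame

theorem LoType.of_comp {f g : ℝ → ℝ} {lam c C : ℝ} (h : LoType f lam) (hc : 0 < c) (hC : 0 < C)
    (hfg : ∀ᶠ x in atTop, c * f x ≤ g x ∧ g x ≤ C * f x) : LoType g lam := by
  intro σ hσ
  have hσ' : 0 < σ / 2 := by linarith only [hσ]
  obtain ⟨h1, h2⟩ := h _ hσ'
  constructor
  · filter_upwards [h1, hfg, eventually_ge_atTop (-Real.log c / (σ / 2))] with x a1 a2 a3
    rw [div_le_iff₀ hσ'] at a3
    refine le_trans ?_ ((mul_le_mul_of_nonneg_left a1 hc.le).trans a2.1)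
    calc exp ((lam - σ) * x) ≤ exp (Real.log c + (lam - σ / 2) * x) := exp_le_exp.2 (by linarith only [a3])
      _ = c * exp ((lam - σ / 2) * x) := by rw [exp_add, exp_log hc]
  · refine (h2.and_eventually (hfg.and (eventually_ge_atTop (Real.log C / (σ / 2))))).mono ?_
    rintro x ⟨a1, a2, a3⟩
    rw [div_le_iff₀ hσ'] at a3
    refine (a2.2.trans (mul_le_mul_of_nonneg_left a1 hC.le)).trans ?_
    calc C * exp ((lam + σ / 2) * x) = exp (Real.log C + (lam + σ / 2) * x) := by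
          rw [exp_add, exp_log hC]
      _ ≤ exp ((lam + σ) * x) := exp_le_exp.2 (by linarith only [a3])

end

end Pool.Agent.MinMod.Mo
end

-- merged part: Pool.Agent.Work.MP_f62247_an.Mo.F3
section
/-!
# Supremum on vertical lines, periodisation
`Bx`: a continuous periodic function attains its supremum on `[0, 2π]` (`IsCompact.exists_isMaxOn`, `Function.Periodic.exists_mem_Ico₀`). Continuity of `Bx u`: `IsCompact.continuous_sSup` or uniform continuity on compact sets.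
`periodise`: put `n z = ⌊(ht z - h0) / L⌋`, `P z = G (z - n z * L * I)`. Near any `z0`, with `n0 = n z0`, `P z = G (z - n0 L I)` for all `z` with `z - n0 L I ∈ Ω` (cases `n z = n0 - 1, n0, n0 + 1`, seam hypothesis; `ht_add_I`), and this set is open.
Hence `P` is continuous and `LocSub` (translate with `ca_shift`), `subOn_of_loc`.
-/

open Real MeasureTheory Set Filter Topology

namespace Pool.Agent.MinMod.Mo

noncomputable section

theorem f3_max {u : ℂ → ℝ} (hc : Continuous u) (hp : ∀ z, u (z + 2 * π * Complex.I) = u z)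
    (x a : ℝ) : ∃ y : ℝ, a ≤ y ∧ y < a + 2 * π ∧
      ∀ y' : ℝ, u (x + y' * Complex.I) ≤ u (x + y * Complex.I) := by
  have hg : Function.Periodic (fun y : ℝ => u (x + y * Complex.I)) (2 * π) := fun y => by
    simp only
    rw [← hp (x + y * Complex.I)]
    congr 1
    push_cast
    ring
  have hgc : Continuous fun y : ℝ => u (x + y * Complex.I) := by fun_prop
  obtain ⟨y0, -, h0⟩ := (isCompact_Icc (a := a) (b := a + 2 * π)).exists_isMaxOn
    ⟨a, left_mem_Icc.2 (by linarith [two_pi_pos])⟩ hgc.continuousOn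
  obtain ⟨y, hy, e⟩ := hg.exists_mem_Ico two_pi_pos y0 a
  refine ⟨y, hy.1, hy.2, fun y' => ?_⟩
  obtain ⟨y1, hy1, e1⟩ := hg.exists_mem_Ico two_pi_pos y' a
  exact e1.trans_le ((h0 (Ico_subset_Icc_self hy1)).trans_eq e)

theorem f3_le {u : ℂ → ℝ} (hc : Continuous u) (hp : ∀ z, u (z + 2 * π * Complex.I) = u z)
    (x y : ℝ) : u (x + y * Complex.I) ≤ Bx u x := by
  obtain ⟨y0, -, -, h⟩ := f3_max hc hp x 0
  exact le_ciSup (f := fun y : ℝ => u (x + y * Complex.I))
    ⟨_, by rintro _ ⟨y', rfl⟩; exact h y'⟩ y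

theorem exists_Bx {u : ℂ → ℝ} (hc : Continuous u) (hp : ∀ z, u (z + 2 * π * Complex.I) = u z)
    (x a : ℝ) : ∃ y : ℝ, a ≤ y ∧ y < a + 2 * π ∧ Bx u x = u (x + y * Complex.I) := by
  obtain ⟨y, h1, h2, h⟩ := f3_max hc hp x a
  exact ⟨y, h1, h2, le_antisymm (ciSup_le h) (f3_le hc hp x y)⟩

theorem le_Bx {u : ℂ → ℝ} (hc : Continuous u) (hp : ∀ z, u (z + 2 * π * Complex.I) = u z) (z : ℂ) :
    u z ≤ Bx u z.re := by
  simpa using f3_le hc hp z.re z.im

theorem Bx_le {u : ℂ → ℝ} {x b : ℝ} (h : ∀ y : ℝ, u (x + y * Complex.I) ≤ b) : Bx u x ≤ b := by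
  exact ciSup_le h

theorem continuous_Bx {u : ℂ → ℝ} (hc : Continuous u) (hp : ∀ z, u (z + 2 * π * Complex.I) = u z) :
    Continuous (Bx u) := by
  have e : Bx u = fun x : ℝ => sSup ((fun y : ℝ => u (x + y * Complex.I)) '' Icc 0 (0 + 2 * π)) := by
    funext x
    obtain ⟨y, h1, h2, h⟩ := exists_Bx hc hp x 0
    refine Eq.symm (IsGreatest.csSup_eq (And.intro ⟨y, ⟨h1, h2.le⟩, h.symm⟩ ?_))
    rintro _ ⟨y', -, rfl⟩
    exact f3_le hc hp x y'
  rw [e]
  exact isCompact_Icc.continuous_sSup (f := fun (x y : ℝ) => u (x + y * Complex.I))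
    (hc.comp (by fun_prop : Continuous fun p : ℝ × ℝ => (p.1 : ℂ) + p.2 * Complex.I))

theorem sub_Bx {u : ℂ → ℝ} (hs : SubOn u univ) (hp : ∀ z, u (z + 2 * π * Complex.I) = u z) :
    SubOn (fun z => Bx u z.re) univ := by
  have hc : Continuous u := continuousOn_univ.1 hs.1
  have hB : Continuous fun z : ℂ => Bx u z.re := (continuous_Bx hc hp).comp Complex.continuous_re
  refine ⟨hB.continuousOn, fun z s h0 _ => ?_⟩
  obtain ⟨y, -, -, h⟩ := exists_Bx hc hp z.re 0
  have e : (z.re : ℂ) + y * Complex.I = z + ((y - z.im : ℝ) : ℂ) * Complex.I := by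
    apply Complex.ext <;> simp
  simp only
  rw [h, e]
  refine (hs.2 _ s h0 (subset_univ _)).trans ?_
  rw [← ca_shift]
  refine ca_le_of_le h0.le
    (ci_of_cont (Ω := univ) (hc.comp (by fun_prop)).continuousOn h0.le (subset_univ _))
    (ci_of_cont hB.continuousOn h0.le (subset_univ _)) fun w _ => ?_
  simpa using le_Bx hc hp (w + ((y - z.im : ℝ) : ℂ) * Complex.I)

theorem md_Bx {F : Frame} {u : ℂ → ℝ} (hc : Continuous u) (hp : ∀ z, u (z + 2 * π * Complex.I) = u z)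
    {η d : ℝ} (h : F.Md u univ η d) : F.Md (fun z => Bx u z.re) univ η d := by
  intro z _ z' hz
  have key : ∀ y : ℝ, |u (z'.re + y * Complex.I) - u (z.re + y * Complex.I)| ≤ η * F.Φ z.re := by
    intro y
    have h1 : ‖((z'.re : ℂ) + y * Complex.I) - (z.re + y * Complex.I)‖ ≤ d := by
      rw [add_sub_add_right_eq_sub, ← Complex.ofReal_sub, Complex.norm_real, ← Complex.sub_re]
      exact (Complex.abs_re_le_norm _).trans hz
    simpa using h _ (mem_univ _) _ h1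
  obtain ⟨y, -, -, e⟩ := exists_Bx hc hp z.re 0
  obtain ⟨y', -, -, e'⟩ := exists_Bx hc hp z'.re 0
  have a1 := abs_le.1 (key y)
  have a2 := abs_le.1 (key y')
  have a3 := f3_le hc hp z'.re y
  have a4 := f3_le hc hp z.re y'
  simp only
  rw [abs_le]
  constructor <;> linarith only [e, a1, a3, e', a2, a4, a1.1, a2.2]

theorem per_int {u : ℂ → ℝ} {L : ℝ} (hp : ∀ z, u (z + L * Complex.I) = u z) (n : ℤ) (z : ℂ) :
    u (z + (n * L : ℝ) * Complex.I) = u z := by
  have h : Function.Periodic u (L * Complex.I) := hp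
  rw [← h.int_mul n z]
  congr 1
  push_cast
  ring

theorem periodise (F : Frame) {G : ℂ → ℝ} {L h0 d : ℝ} (hd : 0 < d) (hL : 2 * d < L)
    (hc : ContinuousOn G {z | h0 - d < F.ht z ∧ F.ht z < h0 + L + d})
    (hs : ∀ z, h0 - d < F.ht z → F.ht z < h0 + L + d → LocSub G z)
    (he : ∀ z, |F.ht z - h0| < d → G (z + L * Complex.I) = G z) :
    ∃ P : ℂ → ℝ, Continuous P ∧ SubOn P univ ∧ (∀ z, P (z + L * Complex.I) = P z) ∧
      ∀ z, h0 - d < F.ht z → F.ht z < h0 + L + d → P z = G z := by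
  have hL0 : 0 < L := by linarith
  set c : ℤ → ℂ := fun m => ((-(m * L) : ℝ) : ℂ) * Complex.I with hcdef
  have hht : ∀ (m : ℤ) z, F.ht (z + c m) = F.ht z - m * L := fun m z => by
    rw [hcdef, F.ht_add_I, sub_eq_add_neg]
  have hcs : ∀ (m : ℤ) z, z + c (m + 1) + L * Complex.I = z + c m := fun m z => by
    simp only [hcdef]
    push_cast
    ring
  set n : ℂ → ℤ := fun z => ⌊(F.ht z - h0) / L⌋ with hn
  have n1 : ∀ z, n z * L ≤ F.ht z - h0 := fun z => (le_div_iff₀ hL0).1 (Int.floor_le _)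
  have n2 : ∀ z, F.ht z - h0 < (n z + 1) * L := fun z =>
    (div_lt_iff₀ hL0).1 (Int.lt_floor_add_one _)
  have key : ∀ (m : ℤ) z, h0 - d < F.ht (z + c m) → F.ht (z + c m) < h0 + L + d →
      G (z + c (n z)) = G (z + c m) := by
    intro m z h1 h2
    rw [hht] at h1 h2
    have a1 := n1 z
    have a2 := n2 z
    have b1 : n z < m + 2 := by
      have : (n z : ℝ) < m + 2 := lt_of_mul_lt_mul_right (by linarith only [hd, hL, h2, a1]) hL0.le
      exact_mod_cast this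
    have b2 : m < n z + 2 := by
      have : (m : ℝ) < n z + 2 := lt_of_mul_lt_mul_right (by linarith only [hd, hL, h1, a2]) hL0.le
      exact_mod_cast this
    obtain e | e | e : n z = m ∨ n z = m + 1 ∨ m = n z + 1 := by omega
    · rw [e]
    · rw [e] at a1 ⊢
      rw [← hcs m z, he]
      rw [hht, abs_lt]
      push_cast at a1 ⊢
      constructor <;> linarith only [hd, a1, h2]
    · rw [e] at h1 ⊢
      rw [← hcs (n z) z, he]
      rw [hht, abs_lt]
      push_cast at h1 ⊢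
      constructor <;> linarith only [h1, a2]
  have m1 : ∀ z, h0 - d < F.ht (z + c (n z)) := fun z => by
    have := n1 z
    rw [hht]
    linarith
  have m2 : ∀ z, F.ht (z + c (n z)) < h0 + L + d := fun z => by
    have := n2 z
    rw [hht]
    linarith
  have hΩ : IsOpen {z | h0 - d < F.ht z ∧ F.ht z < h0 + L + d} :=
    (isOpen_lt continuous_const F.continuous_ht).inter (isOpen_lt F.continuous_ht continuous_const)
  have hev : ∀ z0, (fun z => G (z + c (n z0))) =ᶠ[𝓝 z0] fun z => G (z + c (n z)) := by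
    intro z0
    have h1 : ∀ᶠ z in 𝓝 z0, z + c (n z0) ∈ {z | h0 - d < F.ht z ∧ F.ht z < h0 + L + d} :=
      (continuous_add_const _).continuousAt.eventually_mem (hΩ.mem_nhds ⟨m1 z0, m2 z0⟩)
    exact h1.mono fun z hz => (key _ z hz.1 hz.2).symm
  have hP : Continuous fun z => G (z + c (n z)) := by
    refine continuous_iff_continuousAt.2 fun z0 => ContinuousAt.congr ?_ (hev z0)
    exact ContinuousAt.comp (f := fun z => z + c (n z0))
      (hc.continuousAt (hΩ.mem_nhds ⟨m1 z0, m2 z0⟩)) (continuous_add_const _).continuousAt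
  refine ⟨fun z => G (z + c (n z)), hP, subOn_of_loc hP.continuousOn fun z0 _ => ?_, fun z => ?_,
    fun z h1 h2 => ?_⟩
  · refine LocSub.congr ?_ (hev z0)
    obtain ⟨r, hr, h⟩ := hs _ (m1 z0) (m2 z0)
    exact ⟨r, hr, fun s s0 s1 => by rw [ca_shift]; exact h s s0 s1⟩
  · have e : z + L * Complex.I + c (n z + 1) = z + c (n z) := by rw [add_right_comm, hcs]
    have := key (n z + 1) (z + L * Complex.I) (e ▸ m1 z) (e ▸ m2 z)
    rwa [e] at this
  · have e : z + c 0 = z := by simp [hcdef]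
    have := key 0 z (e.symm ▸ h1) (e.symm ▸ h2)
    rwa [e] at this

end

end Pool.Agent.MinMod.Mo
end

-- merged part: Pool.Agent.Work.MP_f62247_an.Mo.I2
section
/-!
# A Laplacian criterion
`f x y` is the value at `x + i y`. Symmetrise the circle average by the reflections `θ ↦ -θ`, `θ ↦ π - θ`, `θ ↦ π + θ` (or write `θ ∈ [0, 2π]` and use periodicity): with `a = s cos θ`, `b = s sin θ`,
`f(x+a,y+b) + f(x+a,y-b) - 2 f(x+a,y) = b² fyy(x+a, y*)` and `f(x+a,y) + f(x-a,y) - 2 f(x,y) = a² fxx(x*, y)` (second differences, mean value theorem twice; only a lower bound is needed: the function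
`t ↦ g t - c t²/2` is convex when `g'' ≥ c`). So four times the average minus `4 f(x,y)` is at least `s² (fxx + fyy - 2ε)` at the centre. No mixed derivative is needed.
The non-strict version: add `ε * ‖z‖²` (Laplacian `4ε`, `ca (‖·‖²) z s = ‖z‖² + s²`), use `subOn_of_loc`, let `ε → 0`. Continuity of `fun z => f z.re z.im` is a hypothesis.
-/

open Real MeasureTheory Set Filter Topology

namespace Pool.Agent.MinMod.Mo

noncomputable section

theorem i2_mono {h h' : ℝ → ℝ} {b : ℝ} (hb : 0 ≤ b) (hd : ∀ t ∈ Icc 0 b, HasDerivAt h (h' t) t)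
    (hp : ∀ t ∈ Icc 0 b, 0 ≤ h' t) : h 0 ≤ h b :=
  monotoneOn_of_deriv_nonneg (convex_Icc 0 b)
    (fun t ht => (hd t ht).continuousAt.continuousWithinAt)
    (fun t ht => (hd t (interior_subset ht)).differentiableAt.differentiableWithinAt)
    (fun t ht => (hd t (interior_subset ht)).deriv ▸ hp t (interior_subset ht))
    (left_mem_Icc.2 hb) (right_mem_Icc.2 hb) hb

theorem i2_sec {g g1 g2 : ℝ → ℝ} {x a c : ℝ}
    (d1 : ∀ t, t ^ 2 ≤ a ^ 2 → HasDerivAt g (g1 (x + t)) (x + t))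
    (d2 : ∀ t, t ^ 2 ≤ a ^ 2 → HasDerivAt g1 (g2 (x + t)) (x + t))
    (hc : ∀ t, t ^ 2 ≤ a ^ 2 → c ≤ g2 (x + t)) :
    2 * g x + c * a ^ 2 ≤ g (x + a) + g (x - a) := by
  have m : ∀ t ∈ Icc 0 |a|, t ^ 2 ≤ a ^ 2 := fun t ht =>
    sq_abs a ▸ pow_le_pow_left₀ ht.1 ht.2 2
  have k1 : ∀ t ∈ Icc 0 |a|, HasDerivAt (fun t => g1 (x + t) - g1 (x - t) - 2 * c * t)
      (g2 (x + t) + g2 (x + -t) - 2 * c) t := fun t ht => by
    have b1 := (d2 t (m t ht)).comp_const_add x t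
    have b2 := (show HasDerivAt g1 (g2 (x + -t)) (x - t) from
      sub_eq_add_neg x t ▸ d2 (-t) (by rw [neg_sq]; exact m t ht)).comp_const_sub x t
    exact ((b1.fun_sub b2).fun_sub ((hasDerivAt_id' t).const_mul (2 * c))).congr_deriv (by ring)
  have k2 : ∀ t ∈ Icc 0 |a|, 0 ≤ g1 (x + t) - g1 (x - t) - 2 * c * t := fun t ht => by
    have := i2_mono ht.1 (fun u hu => k1 u ⟨hu.1, hu.2.trans ht.2⟩) fun u hu => by
      have hu' := m u ⟨hu.1, hu.2.trans ht.2⟩
      linarith only [hc, hu', hc u hu', hc (-u) (by rwa [neg_sq])]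
    simpa using this
  have k3 : ∀ t ∈ Icc 0 |a|, HasDerivAt (fun t => g (x + t) + g (x - t) - c * t ^ 2)
      (g1 (x + t) - g1 (x - t) - 2 * c * t) t := fun t ht => by
    have b1 := (d1 t (m t ht)).comp_const_add x t
    have b2 := (show HasDerivAt g (g1 (x - t)) (x - t) from
      sub_eq_add_neg x t ▸ d1 (-t) (by rw [neg_sq]; exact m t ht)).comp_const_sub x t
    exact ((b1.fun_add b2).fun_sub ((hasDerivAt_pow 2 t).const_mul c)).congr_deriv
      (by push_cast; ring)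
  have k4 := i2_mono (abs_nonneg a) k3 k2
  simp only [add_zero, sub_zero, sq_abs] at k4
  rcases abs_choice a with h | h
  · rw [h] at k4
    linarith
  · rw [h, sub_neg_eq_add, ← sub_eq_add_neg] at k4
    linarith

theorem i2_re (z : ℂ) (s θ : ℝ) : (circleMap z s θ).re = z.re + s * cos θ := by
  simp [circleMap, Complex.exp_ofReal_mul_I_re]

theorem i2_im (z : ℂ) (s θ : ℝ) : (circleMap z s θ).im = z.im + s * sin θ := by
  simp [circleMap, Complex.exp_ofReal_mul_I_im]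

theorem i2_add {G : ℝ → ℝ} (h : Function.Periodic G (2 * π)) (η : ℝ) :
    ∫ θ in (0 : ℝ)..2 * π, G (η + θ) = ∫ θ in (0 : ℝ)..2 * π, G θ := by
  rw [intervalIntegral.integral_comp_add_left, add_zero, h.intervalIntegral_add_eq η 0, zero_add]

theorem i2_sub {G : ℝ → ℝ} (h : Function.Periodic G (2 * π)) (η : ℝ) :
    ∫ θ in (0 : ℝ)..2 * π, G (η - θ) = ∫ θ in (0 : ℝ)..2 * π, G θ := by
  have := h.intervalIntegral_add_eq (η - 2 * π) 0
  rw [sub_add_cancel, zero_add] at this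
  rw [intervalIntegral.integral_comp_sub_left, sub_zero, this]

theorem locSub_of_lap {f fx fy fxx fyy : ℝ → ℝ → ℝ} {Ω : Set ℂ} (hΩ : IsOpen Ω)
    (hc : ContinuousOn (fun z : ℂ => f z.re z.im) Ω)
    (h1 : ∀ z ∈ Ω, HasDerivAt (fun x => f x z.im) (fx z.re z.im) z.re)
    (h2 : ∀ z ∈ Ω, HasDerivAt (fun x => fx x z.im) (fxx z.re z.im) z.re)
    (h3 : ∀ z ∈ Ω, HasDerivAt (fun y => f z.re y) (fy z.re z.im) z.im)
    (h4 : ∀ z ∈ Ω, HasDerivAt (fun y => fy z.re y) (fyy z.re z.im) z.im)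
    (c1 : ContinuousOn (fun z : ℂ => fxx z.re z.im) Ω)
    (c2 : ContinuousOn (fun z : ℂ => fyy z.re z.im) Ω)
    {z : ℂ} (hz : z ∈ Ω) (hp : 0 < fxx z.re z.im + fyy z.re z.im) :
    LocSub (fun z : ℂ => f z.re z.im) z := by
  obtain ⟨c, hc0⟩ : ∃ c, c = (fxx z.re z.im - fyy z.re z.im) / 2 := ⟨_, rfl⟩
  have hn := hΩ.mem_nhds hz
  have e1 : ∀ᶠ w in 𝓝 z, c < fxx w.re w.im :=
    (c1.continuousAt hn).eventually (lt_mem_nhds (show c < fxx z.re z.im by linarith only [hp, hc0]))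
  have e2 : ∀ᶠ w in 𝓝 z, -c < fyy w.re w.im :=
    (c2.continuousAt hn).eventually (lt_mem_nhds (show -c < fyy z.re z.im by linarith))
  obtain ⟨r, hr, hb⟩ := Metric.eventually_nhds_iff.1 (e1.and (e2.and hn))
  refine ⟨r, hr, fun s hs hsr => ?_⟩
  have hm : ∀ p q : ℝ, p ^ 2 + q ^ 2 ≤ s ^ 2 → dist (⟨z.re + p, z.im + q⟩ : ℂ) z < r := by
    intro p q h
    rw [Complex.dist_eq_re_im]
    refine lt_of_le_of_lt (Real.sqrt_le_iff.2 ⟨hs.le, ?_⟩) hsr
    simpa using h
  have hv : ∀ p q : ℝ, p ^ 2 + q ^ 2 ≤ s ^ 2 →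
      2 * f (z.re + p) z.im + -c * q ^ 2 ≤ f (z.re + p) (z.im + q) + f (z.re + p) (z.im - q) :=
    fun p q h => i2_sec (g := f (z.re + p)) (g1 := fy (z.re + p)) (g2 := fyy (z.re + p))
      (fun t ht => h3 _ (hb (hm p t (by linarith))).2.2)
      (fun t ht => h4 _ (hb (hm p t (by linarith))).2.2)
      fun t ht => (hb (hm p t (by linarith))).2.1.le
  have hh : ∀ p : ℝ, p ^ 2 ≤ s ^ 2 →
      2 * f z.re z.im + c * p ^ 2 ≤ f (z.re + p) z.im + f (z.re - p) z.im := fun p h =>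
    i2_sec (g := fun x => f x z.im) (g1 := fun x => fx x z.im) (g2 := fun x => fxx x z.im)
      (fun t ht => by simpa using h1 _ (hb (hm t 0 (by linarith))).2.2)
      (fun t ht => by simpa using h2 _ (hb (hm t 0 (by linarith))).2.2)
      fun t ht => by simpa using (hb (hm t 0 (by linarith))).1.le
  have hs2 : ∀ θ : ℝ, (s * cos θ) ^ 2 + (s * sin θ) ^ 2 = s ^ 2 := fun θ => by
    linear_combination s ^ 2 * cos_sq_add_sin_sq θ
  let G : ℝ → ℝ := fun θ => f (z.re + s * cos θ) (z.im + s * sin θ)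
  have cG : Continuous G := by
    have a : Continuous fun θ : ℝ => (⟨z.re + s * cos θ, z.im + s * sin θ⟩ : ℂ) := by
      simp only [Complex.mk_eq_add_mul_I]
      fun_prop
    exact hc.comp_continuous a fun θ => (hb (hm _ _ (hs2 θ).le)).2.2
  have pG : Function.Periodic G (2 * π) := fun θ => by simp only [G, cos_add_two_pi, sin_add_two_pi]
  have eG : ca (fun z : ℂ => f z.re z.im) z s = (2 * π)⁻¹ * ∫ θ in (0 : ℝ)..2 * π, G θ := by
    simp only [ca, circleAverage_def, smul_eq_mul, i2_re, i2_im, G]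
  have hle : ∀ θ : ℝ, 4 * f z.re z.im + 2 * c * s ^ 2 * cos θ ^ 2 - 2 * c * s ^ 2 * sin θ ^ 2 ≤
      G θ + G (π + θ) + G (0 - θ) + G (π - θ) := fun θ => by
    have a1 := hv (s * cos θ) (s * sin θ) (hs2 θ).le
    have a2 := hv (-(s * cos θ)) (s * sin θ) (by rw [neg_sq]; exact (hs2 θ).le)
    have a3 := hh (s * cos θ) (by linarith only [hs2, hs2 θ, sq_nonneg (s * sin θ)])
    simp only [G, zero_add, cos_neg, sin_neg, add_comm π, cos_add_pi,
      sin_add_pi, mul_neg, sub_eq_add_neg, neg_neg, mul_pow] at a1 a2 a3 ⊢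
    linarith only [a1, a2, a3]
  have hi := intervalIntegral.integral_mono (μ := volume) two_pi_pos.le
    (Continuous.intervalIntegrable (by fun_prop) _ _)
    (Continuous.intervalIntegrable (by fun_prop) _ _) hle
  rw [intervalIntegral.integral_add (Continuous.intervalIntegrable (by fun_prop) _ _)
      (Continuous.intervalIntegrable (by fun_prop) _ _),
    intervalIntegral.integral_add (Continuous.intervalIntegrable (by fun_prop) _ _)
      (Continuous.intervalIntegrable (by fun_prop) _ _),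
    intervalIntegral.integral_add (Continuous.intervalIntegrable (by fun_prop) _ _)
      (Continuous.intervalIntegrable (by fun_prop) _ _),
    intervalIntegral.integral_sub (Continuous.intervalIntegrable (by fun_prop) _ _)
      (Continuous.intervalIntegrable (by fun_prop) _ _),
    intervalIntegral.integral_add (Continuous.intervalIntegrable (by fun_prop) _ _)
      (Continuous.intervalIntegrable (by fun_prop) _ _),
    i2_add pG, i2_sub pG, i2_sub pG, intervalIntegral.integral_const_mul,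
    intervalIntegral.integral_const_mul, intervalIntegral.integral_const_mul, integral_cos_sq,
    integral_sin_sq, intervalIntegral.integral_const] at hi
  simp only [sin_two_pi, sin_zero, mul_zero, zero_mul, sub_zero, zero_add, smul_eq_mul] at hi
  rw [eG, ← div_eq_inv_mul, le_div_iff₀ two_pi_pos]
  linarith only [hi]

theorem ca_normSq (c z : ℂ) (s : ℝ) : ca (fun w => ‖w - c‖ ^ 2) z s = ‖z - c‖ ^ 2 + s ^ 2 := by
  have e : ∀ θ : ℝ, ‖circleMap z s θ - c‖ ^ 2 = ‖z - c‖ ^ 2 + s ^ 2 +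
      (2 * s * (z.re - c.re) * cos θ + 2 * s * (z.im - c.im) * sin θ) := fun θ => by
    simp only [Complex.sq_norm, Complex.normSq_apply, Complex.sub_re, Complex.sub_im, i2_re, i2_im]
    linear_combination s ^ 2 * cos_sq_add_sin_sq θ
  simp only [ca, circleAverage_def, smul_eq_mul, e]
  rw [intervalIntegral.integral_add (Continuous.intervalIntegrable (by fun_prop) _ _)
      (Continuous.intervalIntegrable (by fun_prop) _ _),
    intervalIntegral.integral_add (f := fun θ => 2 * s * (z.re - c.re) * cos θ)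
      (Continuous.intervalIntegrable (by fun_prop) _ _)
      (Continuous.intervalIntegrable (by fun_prop) _ _),
    intervalIntegral.integral_const_mul, intervalIntegral.integral_const_mul, integral_cos,
    integral_sin, intervalIntegral.integral_const]
  simp only [sin_two_pi, sin_zero, cos_two_pi, cos_zero, sub_self, mul_zero, add_zero, sub_zero,
    smul_eq_mul]
  exact inv_mul_cancel_left₀ two_pi_pos.ne' _

theorem subOn_of_lap {f fx fy fxx fyy : ℝ → ℝ → ℝ} {Ω : Set ℂ} (hΩ : IsOpen Ω)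
    (hc : ContinuousOn (fun z : ℂ => f z.re z.im) Ω)
    (h1 : ∀ z ∈ Ω, HasDerivAt (fun x => f x z.im) (fx z.re z.im) z.re)
    (h2 : ∀ z ∈ Ω, HasDerivAt (fun x => fx x z.im) (fxx z.re z.im) z.re)
    (h3 : ∀ z ∈ Ω, HasDerivAt (fun y => f z.re y) (fy z.re z.im) z.im)
    (h4 : ∀ z ∈ Ω, HasDerivAt (fun y => fy z.re y) (fyy z.re z.im) z.im)
    (c1 : ContinuousOn (fun z : ℂ => fxx z.re z.im) Ω)
    (c2 : ContinuousOn (fun z : ℂ => fyy z.re z.im) Ω)
    (hp : ∀ z ∈ Ω, 0 ≤ fxx z.re z.im + fyy z.re z.im) :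
    SubOn (fun z : ℂ => f z.re z.im) Ω := by
  refine ⟨hc, fun z s hs hb => le_of_forall_pos_le_add fun δ hδ => ?_⟩
  obtain ⟨ε, hε, hεs⟩ : ∃ ε : ℝ, 0 < ε ∧ ε * s ^ 2 = δ :=
    ⟨δ / s ^ 2, by positivity, div_mul_cancel₀ _ (by positivity)⟩
  have hc' : ContinuousOn (fun z : ℂ => f z.re z.im + ε * (z.re ^ 2 + z.im ^ 2)) Ω :=
    hc.add (Continuous.continuousOn (by fun_prop))
  have key : SubOn (fun z : ℂ => f z.re z.im + ε * (z.re ^ 2 + z.im ^ 2)) Ω := by
    refine subOn_of_loc hc' fun w hw => locSub_of_lap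
      (f := fun x y => f x y + ε * (x ^ 2 + y ^ 2)) (fx := fun x y => fx x y + ε * (2 * x))
      (fy := fun x y => fy x y + ε * (2 * y)) (fxx := fun x y => fxx x y + ε * 2)
      (fyy := fun x y => fyy x y + ε * 2) hΩ hc' (fun v hv => ?_) (fun v hv => ?_)
      (fun v hv => ?_) (fun v hv => ?_) (c1.add continuousOn_const) (c2.add continuousOn_const) hw
      (by linarith [hp w hw])
    · exact ((h1 v hv).fun_add
        (((hasDerivAt_pow 2 v.re).add_const (v.im ^ 2)).const_mul ε)).congr_deriv (by simp)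
    · exact ((h2 v hv).fun_add
        (((hasDerivAt_id' v.re).const_mul 2).const_mul ε)).congr_deriv (by simp)
    · exact ((h3 v hv).fun_add
        (((hasDerivAt_pow 2 v.im).const_add (v.re ^ 2)).const_mul ε)).congr_deriv (by simp)
    · exact ((h4 v hv).fun_add
        (((hasDerivAt_id' v.im).const_mul 2).const_mul ε)).congr_deriv (by simp)
  have h := key.2 z s hs hb
  have e : ∀ w : ℂ, w.re ^ 2 + w.im ^ 2 = ‖w - 0‖ ^ 2 := fun w => by
    rw [sub_zero, Complex.sq_norm, Complex.normSq_apply]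
    ring
  have hsp : Metric.sphere z |s| ⊆ Ω := by
    rw [abs_of_pos hs]
    exact Metric.sphere_subset_closedBall.trans hb
  simp only [e, ca] at h
  rw [circleAverage_fun_add (hc.mono hsp).circleIntegrable'
    (Continuous.continuousOn (by fun_prop)).circleIntegrable'] at h
  have h' : circleAverage (fun w : ℂ => ε * ‖w - 0‖ ^ 2) z s = ε * (‖z - 0‖ ^ 2 + s ^ 2) := by
    rw [← ca_normSq]
    exact circleAverage_fun_smul (a := ε)
  rw [h'] at h
  change f z.re z.im ≤ circleAverage (fun z : ℂ => f z.re z.im) z s + δ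
  linarith

end

end Pool.Agent.MinMod.Mo
end

-- merged part: Pool.Agent.Work.MP_f62247_an.Mo.F2
section
/-!
# Barriers
All by `subOn_of_lap` with `f x y` an explicit expression in `Φ x = exp (ψ x)` and `h = y - φ x`. For `f = Φ g(h)`:
`fx = Φ (ψ1 g - φ1 g')`, `fxx = Φ ((ψ2 + ψ1²) g - (2 ψ1 φ1 + φ2) g' + φ1² g'')`, `fyy = Φ g''`. It pays to prove one lemma for a general `g` with `g' = g1`, `g1' = g2`, `g2` continuous.
`Th_strict`: the function `w ↦ -Th w - Th z * ‖w - z‖² / 100` is subharmonic on the open ball of radius `> r` (or on `{|ht| < 3/5} ∩ ball z (1/5)`): the Laplacian of `Th` is `≤ -2 Th` where `|h| ≤ 3/5`, `cos (6/5) ≥ 1/4`; use `ca_normSq`.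
`Φ_strict`: `w ↦ Φ w.re - Φ z.re * ‖w - z‖² / 8` near `z`. `(max 0 t)^3` has derivative `3 (max 0 t)^2`, whose derivative is `6 max 0 t`.
-/

open Real MeasureTheory Set Filter Topology

namespace Pool.Agent.MinMod.Mo

noncomputable section

namespace Frame

variable {F : Frame} {μ : ℝ}

theorem f2_dΦ (F : Frame) (x : ℝ) : HasDerivAt F.Φ (F.Φ x * F.ψ1 x) x := (F.dψ x).exp

theorem f2_cψ1 (F : Frame) : Continuous F.ψ1 :=
  continuous_iff_continuousAt.2 fun x => (F.dψ1 x).continuousAt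

theorem f2_cφ1 (F : Frame) : Continuous F.φ1 :=
  continuous_iff_continuousAt.2 fun x => (F.dφ1 x).continuousAt

/-- the Laplacian criterion for `Φ g(h) - κ ‖z - c‖²` -/
theorem f2_sub (F : Frame) {g g1 g2 : ℝ → ℝ} (d1 : ∀ t, HasDerivAt g (g1 t) t)
    (d2 : ∀ t, HasDerivAt g1 (g2 t) t) (c2 : Continuous g2) (κ : ℝ) (c : ℂ) {Ω : Set ℂ}
    (hΩ : IsOpen Ω)
    (hp : ∀ z ∈ Ω, 4 * κ ≤ F.Φ z.re * ((F.ψ2 z.re + F.ψ1 z.re ^ 2) * g (F.ht z) -
      (2 * F.ψ1 z.re * F.φ1 z.re + F.φ2 z.re) * g1 (F.ht z) + (F.φ1 z.re ^ 2 + 1) * g2 (F.ht z))) :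
    SubOn (fun z => F.Φ z.re * g (F.ht z) - κ * ‖z - c‖ ^ 2) Ω := by
  have cg : Continuous g := continuous_iff_continuousAt.2 fun t => (d1 t).continuousAt
  have cg1 : Continuous g1 := continuous_iff_continuousAt.2 fun t => (d2 t).continuousAt
  have cΦ := F.continuous_Φ
  have cφ := F.continuous_φ
  have cψ1 := F.f2_cψ1
  have cφ1 := F.f2_cφ1
  have cψ2 := F.cψ2
  have cφ2 := F.cφ2
  have e : (fun z : ℂ => F.Φ z.re * g (F.ht z) - κ * ‖z - c‖ ^ 2) = fun z : ℂ =>
      F.Φ z.re * g (z.im - F.φ z.re) - κ * ((z.re - c.re) ^ 2 + (z.im - c.im) ^ 2) := by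
    funext z
    rw [Complex.sq_norm, Complex.normSq_apply, Complex.sub_re, Complex.sub_im, ht]
    ring
  rw [e]
  refine subOn_of_lap
    (f := fun x y => F.Φ x * g (y - F.φ x) - κ * ((x - c.re) ^ 2 + (y - c.im) ^ 2))
    (fx := fun x y => F.Φ x * (F.ψ1 x * g (y - F.φ x) - F.φ1 x * g1 (y - F.φ x)) -
      κ * (2 * (x - c.re)))
    (fy := fun x y => F.Φ x * g1 (y - F.φ x) - κ * (2 * (y - c.im)))
    (fxx := fun x y => F.Φ x * ((F.ψ2 x + F.ψ1 x ^ 2) * g (y - F.φ x) -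
      (2 * F.ψ1 x * F.φ1 x + F.φ2 x) * g1 (y - F.φ x) + F.φ1 x ^ 2 * g2 (y - F.φ x)) - 2 * κ)
    (fyy := fun x y => F.Φ x * g2 (y - F.φ x) - 2 * κ) hΩ (by fun_prop) ?_ ?_ ?_ ?_
    (by fun_prop) (by fun_prop) ?_
  · intro z _
    have a1 := (d1 (z.im - F.φ z.re)).comp z.re ((F.dφ z.re).const_sub z.im)
    have a2 : HasDerivAt (fun x : ℝ => (x - c.re) ^ 2 + (z.im - c.im) ^ 2) (2 * (z.re - c.re))
        z.re := by
      simpa using (((hasDerivAt_id z.re).sub_const c.re).pow 2).add_const ((z.im - c.im) ^ 2)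
    refine (((F.f2_dΦ z.re).mul a1).sub (a2.const_mul κ)).congr_deriv ?_
    simp only [Function.comp]
    ring
  · intro z _
    have a1 := (d1 (z.im - F.φ z.re)).comp z.re ((F.dφ z.re).const_sub z.im)
    have a3 := (d2 (z.im - F.φ z.re)).comp z.re ((F.dφ z.re).const_sub z.im)
    have a2 : HasDerivAt (fun x : ℝ => 2 * (x - c.re)) 2 z.re := by
      simpa using ((hasDerivAt_id z.re).sub_const c.re).const_mul 2
    refine (((F.f2_dΦ z.re).mul (((F.dψ1 z.re).mul a1).sub ((F.dφ1 z.re).mul a3))).sub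
      (a2.const_mul κ)).congr_deriv ?_
    simp only [Function.comp, Pi.sub_apply, Pi.mul_apply]
    ring
  · intro z _
    have a1 := (d1 (z.im - F.φ z.re)).comp z.im ((hasDerivAt_id z.im).sub_const (F.φ z.re))
    have a2 : HasDerivAt (fun y : ℝ => (z.re - c.re) ^ 2 + (y - c.im) ^ 2) (2 * (z.im - c.im))
        z.im := by
      simpa using (((hasDerivAt_id z.im).sub_const c.im).pow 2).const_add ((z.re - c.re) ^ 2)
    refine ((a1.const_mul (F.Φ z.re)).sub (a2.const_mul κ)).congr_deriv ?_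
    ring
  · intro z _
    have a1 := (d2 (z.im - F.φ z.re)).comp z.im ((hasDerivAt_id z.im).sub_const (F.φ z.re))
    have a2 : HasDerivAt (fun y : ℝ => 2 * (y - c.im)) 2 z.im := by
      simpa using ((hasDerivAt_id z.im).sub_const c.im).const_mul 2
    refine ((a1.const_mul (F.Φ z.re)).sub (a2.const_mul κ)).congr_deriv ?_
    ring
  · intro z hz
    have := hp z hz
    rw [ht] at this
    linarith only [this]

theorem f2_ci {u : ℂ → ℝ} (hu : Continuous u) (z : ℂ) (s : ℝ) : CircleIntegrable u z s :=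
  hu.continuousOn.circleIntegrable'

theorem f2_ca_mul (u : ℂ → ℝ) (κ : ℝ) (z : ℂ) (s : ℝ) :
    ca (fun w => κ * u w) z s = κ * ca u z s :=
  Real.circleAverage_fun_smul (a := κ) (f := u)

theorem f2_ca {u : ℂ → ℝ} (hu : Continuous u) (κ : ℝ) (z : ℂ) (s : ℝ) :
    ca (fun w => u w - κ * ‖w - z‖ ^ 2) z s = ca u z s - κ * s ^ 2 := by
  rw [ca, Real.circleAverage_fun_sub (f2_ci hu z s) (f2_ci (by fun_prop) z s)]
  have := f2_ca_mul (fun w => ‖w - z‖ ^ 2) κ z s
  rw [ca_normSq] at this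
  simp only [ca] at this
  rw [this]
  simp

theorem Good.f2_AB (h : F.Good μ) (h1 : μ ≤ 1 / 100) (x : ℝ) :
    |F.ψ2 x + F.ψ1 x ^ 2 - 1| ≤ 4 * μ ∧ |2 * F.ψ1 x * F.φ1 x + F.φ2 x| ≤ 4 * μ ∧
      F.φ1 x ^ 2 ≤ μ := by
  obtain ⟨a1, a2, a3, a4⟩ := h x
  have h0 := h.nonneg
  rw [abs_le] at a1 a2 a3 a4
  refine ⟨abs_le.2 ⟨by linarith only [a1, a2, h1, mul_nonneg_of_nonpos_of_nonpos (Mathlib.Tactic.Linarith.sub_nonpos_of_le h1) (Mathlib.Tactic.Linarith.sub_nonpos_of_le a1.left), mul_nonneg_of_nonpos_of_nonpos (Mathlib.Tactic.Linarith.sub_nonpos_of_le a1.left) (Mathlib.Tactic.Linarith.sub_nonpos_of_le a1.left), mul_nonneg_of_nonpos_of_nonpos (Mathlib.Tactic.Linarith.sub_nonpos_of_le a1.right) (Mathlib.Tactic.Linarith.sub_nonpos_of_le a1.right)], by linarith only [a1, a2, h1, mul_nonneg_of_nonpos_of_nonpos (Mathlib.Tactic.Linarith.sub_nonpos_of_le h1) (Mathlib.Tactic.Linarith.sub_nonpos_of_le a1.left), mul_nonneg_of_nonpos_of_nonpos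 (Mathlib.Tactic.Linarith.sub_nonpos_of_le h1) (Mathlib.Tactic.Linarith.sub_nonpos_of_le a1.right), mul_nonneg_of_nonpos_of_nonpos (Mathlib.Tactic.Linarith.sub_nonpos_of_le a1.left) (Mathlib.Tactic.Linarith.sub_nonpos_of_le a1.right)]⟩, abs_le.2 ⟨by linarith only [a1, a3, a4, h1, mul_nonneg_of_nonpos_of_nonpos (Mathlib.Tactic.Linarith.sub_nonpos_of_le h1) (Mathlib.Tactic.Linarith.sub_nonpos_of_le a1.left), mul_nonneg_of_nonpos_of_nonpos (Mathlib.Tactic.Linarith.sub_nonpos_of_le h1) (Mathlib.Tactic.Linarith.sub_nonpos_of_le a3.left), mul_nonneg_of_nonpos_of_nonpos (Mathlib.Tactic.Linarith.sub_nonpos_of_le a1.left) (Mathlib.Tactic.Linarith.sub_nonpos_of_le a1.right), mul_nonneg_of_nonpos_of_nonpos (Mathlib.Tactic.Linarith.sub_nonpos_of_le a1.left) (Mathlib.Tactic.Linarith.sub_nonpos_of_le a3.left), mul_nonneg_of_nonpos_of_nonpos (Mathlib.Tactic.Linarith.sub_nonpos_of_le a1.right) (Mathlib.Tactic.Linarith.sub_nonpos_of_le a1.right)],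 by linarith only [a1, a3, a4, h1, mul_nonneg_of_nonpos_of_nonpos (Mathlib.Tactic.Linarith.sub_nonpos_of_le h1) (Mathlib.Tactic.Linarith.sub_nonpos_of_le a1.left), mul_nonneg_of_nonpos_of_nonpos (Mathlib.Tactic.Linarith.sub_nonpos_of_le h1) (Mathlib.Tactic.Linarith.sub_nonpos_of_le a3.right), mul_nonneg_of_nonpos_of_nonpos (Mathlib.Tactic.Linarith.sub_nonpos_of_le a1.left) (Mathlib.Tactic.Linarith.sub_nonpos_of_le a1.right), mul_nonneg_of_nonpos_of_nonpos (Mathlib.Tactic.Linarith.sub_nonpos_of_le a1.left) (Mathlib.Tactic.Linarith.sub_nonpos_of_le a3.right), mul_nonneg_of_nonpos_of_nonpos (Mathlib.Tactic.Linarith.sub_nonpos_of_le a1.right) (Mathlib.Tactic.Linarith.sub_nonpos_of_le a1.right)]⟩, by linarith only [h1, a1, a3, sq_nonneg (F.φ1 x), mul_nonneg_of_nonpos_of_nonpos (Mathlib.Tactic.Linarith.sub_nonpos_of_le h1) (Mathlib.Tactic.Linarith.sub_nonpos_of_le a1.left), mul_nonneg_of_nonpos_of_nonpos (Mathlib.Tactic.Linarith.sub_nonpos_of_le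 h1) (Mathlib.Tactic.Linarith.sub_nonpos_of_le a1.right), mul_nonneg_of_nonpos_of_nonpos (Mathlib.Tactic.Linarith.sub_nonpos_of_le a3.left) (Mathlib.Tactic.Linarith.sub_nonpos_of_le a3.right)]⟩

theorem f2_cos {t : ℝ} (ht : |t| ≤ 3 / 5) : 1 / 4 ≤ cos (2 * t) := by
  have := Real.one_sub_sq_div_two_le_cos (x := 2 * t)
  rw [abs_le] at ht
  linarith only [this, ht, mul_nonneg_of_nonpos_of_nonpos (Mathlib.Tactic.Linarith.sub_nonpos_of_le ht.left) (Mathlib.Tactic.Linarith.sub_nonpos_of_le ht.right)]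

/-- the Laplacian of `-cos (2 h)` relative to `Φ` -/
theorem f2_lap {A B P t μ : ℝ} (h1 : μ ≤ 1 / 100) (hA : |A - 1| ≤ 4 * μ) (hB : |B| ≤ 4 * μ)
    (hP : 0 ≤ P) (ht : |t| ≤ 3 / 5) :
    3 / 5 ≤ A * (-cos (2 * t)) - B * (2 * sin (2 * t)) + (P + 1) * (4 * cos (2 * t)) := by
  have c1 := f2_cos ht
  have c2 : B * sin (2 * t) ≤ 4 * μ := by
    refine (le_abs_self _).trans ?_
    rw [abs_mul]
    have := mul_le_mul hB (abs_sin_le_one (2 * t)) (abs_nonneg _) ((abs_nonneg _).trans hB)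
    linarith only [this]
  rw [abs_le] at hA
  linarith only [h1, hA, c1, c2, hP, mul_nonneg hP (by linarith : (0 : ℝ) ≤ cos (2 * t)), mul_nonneg_of_nonpos_of_nonpos (Mathlib.Tactic.Linarith.sub_nonpos_of_le h1) (Mathlib.Tactic.Linarith.sub_nonpos_of_le c1), mul_nonneg_of_nonpos_of_nonpos (Mathlib.Tactic.Linarith.sub_nonpos_of_le hA.right) (Mathlib.Tactic.Linarith.sub_nonpos_of_le c1)]

theorem f2_dpos (n : ℕ) (t : ℝ) :
    HasDerivAt (fun t : ℝ => max 0 t ^ (n + 2)) ((n + 2 : ℕ) * max 0 t ^ (n + 1)) t := by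
  rcases lt_trichotomy t 0 with ht | rfl | ht
  · have e : (fun t : ℝ => max 0 t ^ (n + 2)) =ᶠ[𝓝 t] fun _ => 0 := by
      filter_upwards [Iio_mem_nhds ht] with s hs
      rw [max_eq_left (le_of_lt hs)]
      simp
    rw [max_eq_left ht.le]
    simpa using (hasDerivAt_const t (0 : ℝ)).congr_of_eventuallyEq e
  · have a1 : HasDerivWithinAt (fun t : ℝ => max 0 t ^ (n + 2)) 0 (Iic 0) 0 :=
      (hasDerivWithinAt_const (0 : ℝ) (Iic 0) (0 : ℝ)).congr
        (fun s hs => by rw [max_eq_left hs]; simp) (by simp)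
    have a2 : HasDerivWithinAt (fun t : ℝ => max 0 t ^ (n + 2)) 0 (Ici 0) 0 := by
      have := (hasDerivAt_pow (n + 2) (0 : ℝ)).hasDerivWithinAt (s := Ici 0)
      refine (this.congr (fun s hs => by rw [max_eq_right hs]) (by simp)).congr_deriv ?_
      simp
    have := a1.union a2
    rw [Iic_union_Ici, hasDerivWithinAt_univ] at this
    simpa using this
  · have e : (fun t : ℝ => max 0 t ^ (n + 2)) =ᶠ[𝓝 t] fun t => t ^ (n + 2) := by
      filter_upwards [Ioi_mem_nhds ht] with s hs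
      rw [max_eq_right (le_of_lt hs)]
    rw [max_eq_right ht.le]
    simpa using (hasDerivAt_pow (n + 2) t).congr_of_eventuallyEq e

theorem f2_dcos (t : ℝ) : HasDerivAt (fun t : ℝ => cos (2 * t)) (-(2 * sin (2 * t))) t := by
  refine (((hasDerivAt_id t).const_mul 2).cos).congr_deriv ?_
  simp only [id]
  ring

theorem f2_dsin (t : ℝ) : HasDerivAt (fun t : ℝ => sin (2 * t)) (2 * cos (2 * t)) t := by
  refine (((hasDerivAt_id t).const_mul 2).sin).congr_deriv ?_
  simp only [id]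
  ring

theorem Good.f2_near (h : F.Good μ) (h1 : μ ≤ 1 / 100) {z w : ℂ} {s : ℝ} (hs : s ≤ 1 / 4)
    (hw : ‖w - z‖ ≤ s) : F.Φ z.re ≤ (1 + 4 * s) * F.Φ w.re := by
  have a1 : |z.re - w.re| ≤ s := by
    have := Complex.abs_re_le_norm (z - w)
    rw [Complex.sub_re, norm_sub_rev] at this
    linarith only [hw, this]
  have a2 := h.Φ_close (by linarith only [h1]) (a1.trans hs)
  have a3 := F.Φ_pos w.re
  have a4 := le_abs_self (F.Φ z.re - F.Φ w.re)
  linarith only [a2, a4, a1, a3, mul_nonneg_of_nonpos_of_nonpos (Mathlib.Tactic.Linarith.sub_nonpos_of_le a1) (le_of_lt (Mathlib.Tactic.Linarith.sub_neg_of_lt a3))]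

theorem Good.Th_strict (h : F.Good μ) (h1 : μ ≤ 1 / 100) {z : ℂ} {r : ℝ} (hr : 0 < r)
    (hr1 : r ≤ 1 / 50) (hz : |F.ht z| ≤ 1 / 2) : ca F.Th z r ≤ (1 - r ^ 2 / 100) * F.Th z := by
  have hΦ := F.Φ_pos z.re
  have hT : F.Th z ≤ F.Φ z.re := by
    have := mul_le_mul_of_nonneg_left (cos_le_one (2 * F.ht z)) hΦ.le
    rwa [mul_one] at this
  have hs := F.f2_sub (g := fun t => -cos (2 * t)) (g1 := fun t => 2 * sin (2 * t))
    (g2 := fun t => 4 * cos (2 * t)) (fun t => (f2_dcos t).neg.congr_deriv (by ring))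
    (fun t => ((f2_dsin t).const_mul 2).congr_deriv (by ring)) (by fun_prop) (F.Th z / 100) z
    (Metric.isOpen_ball (x := z) (ε := 1 / 25)) fun w hw => by
      have hw' : ‖w - z‖ ≤ 1 / 25 := by
        rw [mem_ball_iff_norm] at hw
        exact hw.le
      obtain ⟨a1, a2, -⟩ := h.f2_AB h1 w.re
      have a3 := h.ht_sub (by linarith only [h1, hr, hr1]) z w
      have a4 : |F.ht w| ≤ 3 / 5 := by
        rw [abs_le] at a3 hz ⊢
        constructor <;> linarith only [hr, hr1, hz, hw', a3, a3.1, a3.2, hz.1, hz.2]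
      have a5 := f2_lap h1 a1 a2 (sq_nonneg (F.φ1 w.re)) a4
      have a6 := h.f2_near h1 (by norm_num) hw'
      have a7 := mul_le_mul_of_nonneg_left a5 (F.Φ_pos w.re).le
      have a8 := F.Φ_pos w.re
      linarith only [hT, a6, a7, a8]
  have h2 := hs.2 z r hr (Metric.closedBall_subset_ball (by linarith only [hr, hr1]))
  have e : (fun w : ℂ => F.Φ w.re * -cos (2 * F.ht w)) = fun w => (-1) * F.Th w := by
    funext w
    rw [Th]
    ring
  have cT := F.continuous_Th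
  rw [f2_ca (u := fun w : ℂ => F.Φ w.re * -cos (2 * F.ht w)) (by rw [e]; fun_prop), e,
    f2_ca_mul] at h2
  simp only [sub_self, norm_zero] at h2
  have e2 : F.Φ z.re * -cos (2 * F.ht z) = -F.Th z := by
    rw [Th]
    ring
  rw [e2] at h2
  linarith only [h2]

theorem Th_ge (F : Frame) {z : ℂ} (hz : |F.ht z| ≤ 1 / 2) :
    F.Φ z.re / 2 ≤ F.Th z ∧ F.Th z ≤ F.Φ z.re := by
  have hΦ := F.Φ_pos z.re
  have a1 := Real.one_sub_sq_div_two_le_cos (x := 2 * F.ht z)
  have a2 := cos_le_one (2 * F.ht z)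
  rw [abs_le] at hz
  have a3 : 1 / 2 ≤ cos (2 * F.ht z) := by linarith only [a1, hz, mul_nonneg_of_nonpos_of_nonpos (Mathlib.Tactic.Linarith.sub_nonpos_of_le hz.left) (Mathlib.Tactic.Linarith.sub_nonpos_of_le hz.right)]
  rw [Th]
  constructor <;> linarith only [hΦ, a3, a2, mul_nonneg_of_nonpos_of_nonpos (le_of_lt (Mathlib.Tactic.Linarith.sub_neg_of_lt hΦ)) (Mathlib.Tactic.Linarith.sub_nonpos_of_le a3), mul_nonneg_of_nonpos_of_nonpos (le_of_lt (Mathlib.Tactic.Linarith.sub_neg_of_lt hΦ)) (Mathlib.Tactic.Linarith.sub_nonpos_of_le a2)]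

theorem Good.super_M (h : F.Good μ) (h1 : μ ≤ 1 / 100) {ν : ℝ} (hν : 20 * μ ≤ ν) :
    SubOn (fun z => -(F.M z + ν * F.Th z)) {z | |F.ht z| < 3 / 5} := by
  have h0 := h.nonneg
  have hs := F.f2_sub (g := fun t => -(cos t + ν * cos (2 * t)))
    (g1 := fun t => sin t + ν * (2 * sin (2 * t))) (g2 := fun t => cos t + ν * (4 * cos (2 * t)))
    (fun t => (((hasDerivAt_cos t).add ((f2_dcos t).const_mul ν)).neg).congr_deriv (by ring))
    (fun t => ((hasDerivAt_sin t).add (((f2_dsin t).const_mul 2).const_mul ν)).congr_deriv (by ring))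
    (by fun_prop) 0 0 (Ω := {z | |F.ht z| < 3 / 5})
    (isOpen_lt F.continuous_ht.abs continuous_const) fun w hw => by
      obtain ⟨a1, a2, a3⟩ := h.f2_AB h1 w.re
      have a5 := f2_lap h1 a1 a2 (sq_nonneg (F.φ1 w.re)) (le_of_lt hw)
      rw [mul_zero]
      refine mul_nonneg (F.Φ_pos _).le ?_
      set A := F.ψ2 w.re + F.ψ1 w.re ^ 2
      set B := 2 * F.ψ1 w.re * F.φ1 w.re + F.φ2 w.re
      have hP := sq_nonneg (F.φ1 w.re)
      set P := F.φ1 w.re ^ 2
      have b1 : B * sin (F.ht w) ≤ 4 * μ := by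
        refine (le_abs_self _).trans ?_
        rw [abs_mul]
        have := mul_le_mul a2 (abs_sin_le_one (F.ht w)) (abs_nonneg _) (by linarith only [h0])
        linarith only [this]
      have b2 : (A - 1 - P) * cos (F.ht w) ≤ 5 * μ := by
        refine (le_abs_self _).trans ?_
        rw [abs_mul]
        have b3 : |A - 1 - P| ≤ 5 * μ := by
          rw [abs_le] at a1 ⊢
          constructor <;> linarith only [a1, a3, h0, hP, a1.1, a1.2]
        have := mul_le_mul b3 (abs_cos_le_one (F.ht w)) (abs_nonneg _) (by linarith only [h0])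
        linarith only [this]
      have b4 := mul_le_mul_of_nonneg_left a5 (by linarith only [hν, h0] : 0 ≤ ν)
      linarith only [hν, h0, b1, b2, b4]
  convert hs using 2 with w
  rw [M, Th]
  ring

theorem Good.sub_Φ (h : F.Good μ) (h1 : μ ≤ 1 / 100) : SubOn (fun z => F.Φ z.re) univ := by
  have hs := F.f2_sub (g := fun _ => 1) (g1 := fun _ => 0) (g2 := fun _ => 0)
    (fun t => hasDerivAt_const t 1) (fun t => hasDerivAt_const t 0) continuous_const 0 0
    isOpen_univ fun w _ => by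
      obtain ⟨a1, -, -⟩ := h.f2_AB h1 w.re
      rw [mul_zero]
      refine mul_nonneg (F.Φ_pos _).le ?_
      rw [abs_le] at a1
      linarith only [h1, a1, a1.1]
  simpa using hs

theorem Good.Φ_strict (h : F.Good μ) (h1 : μ ≤ 1 / 100) (z : ℂ) {r : ℝ} (hr : 0 < r)
    (hr1 : r ≤ 1 / 10) : (1 + r ^ 2 / 8) * F.Φ z.re ≤ ca (fun w => F.Φ w.re) z r := by
  have hs := F.f2_sub (g := fun _ => 1) (g1 := fun _ => 0) (g2 := fun _ => 0)
    (fun t => hasDerivAt_const t 1) (fun t => hasDerivAt_const t 0) continuous_const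
    (F.Φ z.re / 8) z (Metric.isOpen_ball (x := z) (ε := 1 / 9)) fun w hw => by
      have hw' : ‖w - z‖ ≤ 1 / 9 := by
        rw [mem_ball_iff_norm] at hw
        exact hw.le
      obtain ⟨a1, -, -⟩ := h.f2_AB h1 w.re
      have a6 := h.f2_near h1 (by norm_num) hw'
      have a8 := F.Φ_pos w.re
      rw [abs_le] at a1
      (refine le_of_not_gt fun h_nl => ?_; linarith only [h_nl, a6, h1, a8, hr, hr1, a1, a1.1, mul_nonneg_of_nonpos_of_nonpos (Mathlib.Tactic.Linarith.sub_nonpos_of_le h1) (le_of_lt (Mathlib.Tactic.Linarith.sub_neg_of_lt a8)), mul_pos_of_neg_of_neg (Mathlib.Tactic.Linarith.sub_neg_of_lt hr) (Mathlib.Tactic.Linarith.sub_neg_of_lt a8), mul_pos_of_neg_of_neg (Mathlib.Tactic.Linarith.sub_neg_of_lt hr) (Mathlib.Tactic.Linarith.sub_neg_of_lt h_nl), mul_nonneg_of_nonpos_of_nonpos (Mathlib.Tactic.Linarith.sub_nonpos_of_le hr1) (le_of_lt (Mathlib.Tactic.Linarith.sub_neg_of_lt a8)), mul_nonneg_of_nonpos_of_nonpos (Mathlib.Tactic.Linarith.sub_nonpos_of_le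 hr1) (le_of_lt (Mathlib.Tactic.Linarith.sub_neg_of_lt h_nl)), mul_nonneg_of_nonpos_of_nonpos (Mathlib.Tactic.Linarith.sub_nonpos_of_le a1.left) (le_of_lt (Mathlib.Tactic.Linarith.sub_neg_of_lt a8))])
  have h2 := hs.2 z r hr (Metric.closedBall_subset_ball (by linarith only [hr, hr1]))
  have cΦ := F.continuous_Φ
  simp only [mul_one] at h2
  rw [f2_ca (u := fun w : ℂ => F.Φ w.re) (by fun_prop)] at h2
  simp only [sub_self, norm_zero] at h2
  linarith only [h2]

theorem Good.sub_Xi (h : F.Good μ) (h1 : μ ≤ 1 / 100) :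
    SubOn (fun z => 10 * F.Φ z.re - F.Xi z) {z | -(1 / 2) < F.ht z} := by
  have d0 : ∀ t : ℝ, HasDerivAt (fun t : ℝ => 1 / 40 - t) (-1) t := fun t =>
    (hasDerivAt_id t).const_sub _
  have hs := F.f2_sub (g := fun t => 10 - max 0 (1 / 40 - t) ^ 3)
    (g1 := fun t => 3 * max 0 (1 / 40 - t) ^ 2) (g2 := fun t => -(6 * max 0 (1 / 40 - t)))
    (fun t => (((f2_dpos 1 (1 / 40 - t)).comp t (d0 t)).const_sub 10).congr_deriv (by
      push_cast; ring))
    (fun t => (((f2_dpos 0 (1 / 40 - t)).comp t (d0 t)).const_mul 3).congr_deriv (by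
      push_cast; ring))
    (by fun_prop) 0 0 (Ω := {z | -(1 / 2) < F.ht z})
    (isOpen_lt continuous_const F.continuous_ht) fun w hw => by
      obtain ⟨a1, a2, a3⟩ := h.f2_AB h1 w.re
      rw [mul_zero]
      refine mul_nonneg (F.Φ_pos _).le ?_
      have hw' : -(1 / 2) < F.ht w := hw
      have p0 : 0 ≤ max 0 (1 / 40 - F.ht w) := le_max_left _ _
      have p1 : max 0 (1 / 40 - F.ht w) ≤ 1 := max_le zero_le_one (by linarith only [hw'])
      set p := max 0 (1 / 40 - F.ht w)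
      have p2 : p ^ 2 ≤ 1 := pow_le_one₀ p0 p1
      have p3 : p ^ 3 ≤ 1 := pow_le_one₀ p0 p1
      have p4 : 0 ≤ p ^ 2 := sq_nonneg p
      rw [abs_le] at a1 a2
      set A := F.ψ2 w.re + F.ψ1 w.re ^ 2
      set B := 2 * F.ψ1 w.re * F.φ1 w.re + F.φ2 w.re
      set P := F.φ1 w.re ^ 2
      have b1 : 24 / 25 * 9 ≤ A * (10 - p ^ 3) :=
        mul_le_mul (by linarith only [h1, a1, a1.1]) (by linarith only [p3]) (by norm_num) (by linarith only [h1, a1, a1.1])
      have b2 : B * p ^ 2 ≤ 1 / 25 * 1 :=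
        (mul_le_mul_of_nonneg_right (by linarith only [h1, a2, a2.2]) p4).trans
          (mul_le_mul_of_nonneg_left p2 (by norm_num))
      have b3 : (P + 1) * p ≤ 101 / 100 * 1 :=
        mul_le_mul (by linarith only [h1, a3]) p1 p0 (by norm_num)
      linarith only [b1, b2, b3]
  convert hs using 2 with w
  rw [Xi]
  ring

/-- maximum principle on a band around the ridge -/
theorem Good.band_le (h : F.Good μ) (h1 : μ ≤ 1 / 100) {ν r a b C : ℝ} (hν : 20 * μ ≤ ν) (hr : 0 < r)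
    (hr1 : r ≤ 1 / 100) (ha : -(2 / 5) ≤ a) (hb : b ≤ 2 / 5) {f : ℂ → ℝ}
    (hf : ∀ z, a < F.ht z → F.ht z < b →
      CircleIntegrable f z r ∧ f z ≤ ca f z r ∧ f z ≤ C * F.Φ z.re)
    (ho : ∀ z, a - 2 * r ≤ F.ht z → F.ht z ≤ b + 2 * r → F.ht z ≤ a ∨ b ≤ F.ht z →
      f z ≤ F.M z + ν / 2 * F.Φ z.re) :
    ∀ z, a < F.ht z → F.ht z < b → f z ≤ F.M z + ν * F.Φ z.re := by
  have h0 := h.nonneg
  have hν0 : 0 ≤ ν := by linarith only [hν, h0]
  have cM := F.continuous_M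
  have cT := F.continuous_Th
  have hin : ∀ z, a - 2 * r ≤ F.ht z → F.ht z ≤ b + 2 * r → |F.ht z| ≤ 1 / 2 := fun z h2 h3 =>
    abs_le.2 ⟨by linarith only [hr, hr1, ha, h2], by linarith only [hr, hr1, hb, h3]⟩
  have key := mp_r (r := r) hr (f := fun z => f z + -(F.M z + ν * F.Th z)) (Θ := F.Th)
    (G := {z | a < F.ht z ∧ F.ht z < b}) (S := {z | a - 2 * r ≤ F.ht z ∧ F.ht z ≤ b + 2 * r})
    (θ := r ^ 2 / 100) (C := 2 * (|C| + 1)) (by positivity) (by linarith only [hr, hr1, mul_nonneg_of_nonpos_of_nonpos (le_of_lt (Mathlib.Tactic.Linarith.sub_neg_of_lt hr)) (Mathlib.Tactic.Linarith.sub_nonpos_of_le hr1)]) ?_ cT ?_ ?_ ?_ ?_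
  · intro z h2 h3
    have a1 := key z ⟨h2, h3⟩
    have a2 := (F.Th_ge (hin z (by linarith only [hr, h2]) (by linarith only [hr, h3]))).2
    have a3 := mul_le_mul_of_nonneg_left a2 hν0
    linarith only [a1, a3]
  · intro z hz w hw
    have a1 := h.ht_sub (by linarith only [h1, hr, hr1]) z w
    rw [hw, abs_le] at a1
    exact ⟨by linarith only [a1, hz, a1.1, hz.1], by linarith only [a1, hz, a1.2, hz.2]⟩
  · intro z hz
    have a1 : |F.ht z| ≤ 1 / 2 := by
      rcases hz with hz | hz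
      · exact hin z (by linarith only [hr, hz, hz.1]) (by linarith only [hr, hz, hz.2])
      · exact hin z hz.1 hz.2
    have := F.Φ_pos z.re
    linarith only [this, a1, (F.Th_ge a1).1]
  · intro z hz
    exact h.Th_strict h1 hr (by linarith only [hr, hr1]) (hin z (by linarith only [hr, hz, hz.1]) (by linarith only [hr, hz, hz.2]))
  · intro z hz
    obtain ⟨b1, b2, b3⟩ := hf z hz.1 hz.2
    have ci : CircleIntegrable (fun z => -(F.M z + ν * F.Th z)) z r := f2_ci (by fun_prop) z r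
    refine ⟨b1.add ci, ?_, ?_⟩
    · rw [ca, Real.circleAverage_fun_add b1 ci]
      refine add_le_add b2 ((h.super_M h1 hν).2 z r hr fun w hw => ?_)
      have a1 := h.ht_sub (by linarith only [h1, hr, hr1]) z w
      rw [mem_closedBall_iff_norm] at hw
      rw [abs_le] at a1
      have a2 : |F.ht w| < 3 / 5 :=
        abs_lt.2 ⟨by linarith only [hr, hr1, ha, hw, a1, hz, a1.1, hz.1], by linarith only [hr, hr1, hb, hw, a1, hz, a1.2, hz.2]⟩
      exact a2
    · have hΦ := F.Φ_pos z.re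
      have a1 := (F.Th_ge (hin z (by linarith only [hr, hz, hz.1]) (by linarith only [hr, hz, hz.2]))).1
      have a2 : -F.Φ z.re ≤ F.M z := by
        have := mul_le_mul_of_nonneg_left (neg_one_le_cos (F.ht z)) hΦ.le
        rw [M]
        linarith only [this]
      have a3 : C * F.Φ z.re ≤ |C| * F.Φ z.re := mul_le_mul_of_nonneg_right (le_abs_self C) hΦ.le
      have a4 := mul_le_mul_of_nonneg_left a1 (by positivity : 0 ≤ 2 * (|C| + 1))
      have a5 : 0 ≤ ν * F.Th z := mul_nonneg hν0 (by linarith only [hΦ, a1])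
      linarith only [b3, a2, a3, a4, a5]
  · intro z hz hz'
    have a1 := ho z hz.1 hz.2 (by
      by_contra hcon
      rw [not_or, not_le, not_le] at hcon
      exact hz' hcon)
    have a2 := mul_le_mul_of_nonneg_left (F.Th_ge (hin z hz.1 hz.2)).1 hν0
    linarith only [a1, a2]

end Frame

end

end Pool.Agent.MinMod.Mo
end
end

-- merged part: Pool.Agent.Work.MP_f62247_an.Mo.K1
section
/-!
# The Green function of the strip `0 < α < π` and its derivative in the pole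
With `c = cosh σ`: `‖1 - e^(σ + iθ)‖² = 2 e^σ (c - cos θ)`, so `Gs σ α γ = (log (c - cos (α+γ)) - log (c - cos (α-γ))) / 2` when both arguments are positive, and `cos (α-γ) - cos (α+γ) = 2 sin α sin γ` gives
`0 ≤ Gs ≤ sin α sin γ / (c - cos (α-γ))`. The derivative in `γ` is `sin α (c cos γ - cos α) / ((c - cos (α+γ)) (c - cos (α-γ)))`. `Ha = w Gs (a - κ w) - (Gs a - Gs (a - κ w))`, mean value theorem on `[a - κ w, a] ⊆ [1/200, 1/10]`.
`Ha_abs`: `c - cos (α+γ) ≥ c - cos (α-γ) ≥ m c` with an absolute `m > 0` (if `|σ| ≥ 1/2` then `c ≥ 1 + σ²/2 ≥ 9/8`; if `α ≤ 1/1000` then `1/250 ≤ |α-γ| ≤ 1/10`), numerator `≤ 2 c`.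
`Ha_neg`: for `|σ| = 1`, `3/2 ≤ c ≤ 8/5`, `cos γ ≥ 199/200`, `|cos (α±γ) - cos α| ≤ 1/10`, the quotient is `≥ 3/10`; for `|σ| ≤ 2`, `α ≥ 3`: `cos α ≤ -9/10`, `c ≤ 4`, quotient `≥ (9/10) / (c+1)`. The term `w Gs` is `≤ w sin α / 5 ≤ w κ sin α / 250`.
`Gs_log`: `lg_sub_log` with `κ = 1` for the second term; the first is bounded since `1/200 ≤ α + γ ≤ π + 1/10`.
-/

open Real MeasureTheory Set Filter Topology

namespace Pool.Agent.MinMod.Mo

noncomputable section

/-- Green function of the strip with pole at `i γ` -/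
def Gs (σ α γ : ℝ) : ℝ := lg σ (α + γ) - lg σ (α - γ)

def Ha (w κ σ α a : ℝ) : ℝ := -Gs σ α a + (1 + w) * Gs σ α (a - κ * w)

theorem lg_cosh {σ θ : ℝ} (h : 0 < cosh σ - cos θ) :
    lg σ θ = (σ + Real.log 2 + Real.log (cosh σ - cos θ)) / 2 := by
  have h1 : ‖1 - Complex.exp (σ + θ * Complex.I)‖ ^ 2 = exp σ * 2 * (cosh σ - cos θ) := by
    have hre : (Complex.exp (σ + θ * Complex.I)).re = exp σ * cos θ := by simp [Complex.exp_re]
    have him : (Complex.exp (σ + θ * Complex.I)).im = exp σ * sin θ := by simp [Complex.exp_im]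
    have he : exp σ * exp (-σ) = 1 := by rw [← exp_add, add_neg_cancel, exp_zero]
    rw [Complex.sq_norm, Complex.normSq_apply, Complex.sub_re, Complex.sub_im, hre, him,
      Complex.one_re, Complex.one_im, cosh_eq]
    linear_combination exp σ ^ 2 * sin_sq_add_cos_sq θ - he
  have h2 : Real.log (‖1 - Complex.exp (σ + θ * Complex.I)‖ ^ 2) =
      σ + Real.log 2 + Real.log (cosh σ - cos θ) := by
    rw [h1, Real.log_mul (by positivity) h.ne', Real.log_mul (exp_pos σ).ne' two_ne_zero, log_exp]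
  rw [Real.log_pow] at h2
  rw [lg]
  push_cast at h2
  linarith only [h2]

theorem Gs_pi (σ γ : ℝ) : Gs σ π γ = 0 := by
  have h : ∀ θ : ℝ, lg σ θ = Real.log (‖1 - Complex.exp (σ + θ * Complex.I)‖ ^ 2) / 2 := by
    intro θ
    rw [Real.log_pow, lg]
    push_cast
    ring
  have h1 : ∀ θ : ℝ, ‖1 - Complex.exp (σ + θ * Complex.I)‖ ^ 2 =
      1 - 2 * exp σ * cos θ + exp σ ^ 2 := by
    intro θ
    have hre : (Complex.exp (σ + θ * Complex.I)).re = exp σ * cos θ := by simp [Complex.exp_re]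
    have him : (Complex.exp (σ + θ * Complex.I)).im = exp σ * sin θ := by simp [Complex.exp_im]
    rw [Complex.sq_norm, Complex.normSq_apply, Complex.sub_re, Complex.sub_im, hre, him,
      Complex.one_re, Complex.one_im]
    linear_combination exp σ ^ 2 * sin_sq_add_cos_sq θ
  rw [Gs, h, h, h1, h1, cos_pi_sub, add_comm π γ, cos_add_pi, sub_self]

theorem Ha_pi (w κ σ a : ℝ) : Ha w κ σ π a = 0 := by
  rw [Ha, Gs_pi, Gs_pi]
  ring

/-- the derivative of the Green function in the pole, divided by `sin α` -/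
def k1_q (σ α γ : ℝ) : ℝ :=
  (cosh σ * cos γ - cos α) / ((cosh σ - cos (α + γ)) * (cosh σ - cos (α - γ)))

theorem k1_diff (α γ : ℝ) : cos (α - γ) - cos (α + γ) = 2 * sin α * sin γ := by
  rw [cos_sub, cos_add]
  ring

theorem k1_le {σ α γ : ℝ} (h0 : 0 ≤ α) (h1 : α ≤ π) (hγ : 0 ≤ γ) (hγ1 : γ ≤ 1 / 10) :
    cosh σ - cos (α - γ) ≤ cosh σ - cos (α + γ) := by
  have h2 := sin_nonneg_of_nonneg_of_le_pi h0 h1
  have h3 := sin_nonneg_of_nonneg_of_le_pi hγ (by linarith only [h0, h1, hγ1, pi_gt_three])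
  have h4 := k1_diff α γ
  linarith only [h4, h2, h3, mul_nonneg h2 h3]

theorem k1_Gs {σ α γ : ℝ} (hp : 0 < cosh σ - cos (α + γ)) (hm : 0 < cosh σ - cos (α - γ)) :
    Gs σ α γ = (Real.log (cosh σ - cos (α + γ)) - Real.log (cosh σ - cos (α - γ))) / 2 := by
  rw [Gs, lg_cosh hp, lg_cosh hm]
  ring

theorem k1_Gs_bd {σ α γ : ℝ} (h0 : 0 ≤ α) (h1 : α ≤ π) (hγ : 0 ≤ γ) (hγ1 : γ ≤ 1 / 10)
    (hm : 0 < cosh σ - cos (α - γ)) :
    0 ≤ Gs σ α γ ∧ Gs σ α γ ≤ sin α / 10 / (cosh σ - cos (α - γ)) := by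
  have hle := k1_le (σ := σ) h0 h1 hγ hγ1
  have hp : 0 < cosh σ - cos (α + γ) := hm.trans_le hle
  rw [k1_Gs hp hm]
  refine ⟨by linarith only [hm, hle, Real.log_le_log hm hle], ?_⟩
  have h2 := Real.log_le_sub_one_of_pos (div_pos hp hm)
  rw [Real.log_div hp.ne' hm.ne'] at h2
  have h3 : (cosh σ - cos (α + γ)) / (cosh σ - cos (α - γ)) - 1 =
      2 * (sin α * sin γ / (cosh σ - cos (α - γ))) := by
    field_simp
    linarith only [k1_diff α γ]
  have h4 : sin α * sin γ / (cosh σ - cos (α - γ)) ≤ sin α / 10 / (cosh σ - cos (α - γ)) := by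
    refine div_le_div_of_nonneg_right ?_ hm.le
    have h5 := sin_nonneg_of_nonneg_of_le_pi h0 h1
    have h6 := sin_le hγ
    linarith only [hγ1, h5, h6, mul_nonneg_of_nonpos_of_nonpos (Mathlib.Tactic.Linarith.sub_nonpos_of_le hγ1) (Mathlib.Tactic.Linarith.sub_nonpos_of_le h5), mul_nonneg_of_nonpos_of_nonpos (Mathlib.Tactic.Linarith.sub_nonpos_of_le h5) (Mathlib.Tactic.Linarith.sub_nonpos_of_le h6)]
  linarith only [h2, h3, h4]

theorem k1_deriv {σ α γ : ℝ} (hp : 0 < cosh σ - cos (α + γ)) (hm : 0 < cosh σ - cos (α - γ)) :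
    HasDerivAt (fun t => (Real.log (cosh σ - cos (α + t)) - Real.log (cosh σ - cos (α - t))) / 2)
      (sin α * k1_q σ α γ) γ := by
  have a1 : HasDerivAt (fun t => cosh σ - cos (α + t)) (sin (α + γ)) γ := by
    have := (((hasDerivAt_id γ).const_add α).cos).const_sub (cosh σ)
    simpa using this
  have a2 : HasDerivAt (fun t => cosh σ - cos (α - t)) (-sin (α - γ)) γ := by
    have := (((hasDerivAt_id γ).const_sub α).cos).const_sub (cosh σ)
    simpa using this
  have a3 := ((a1.log hp.ne').sub (a2.log hm.ne')).div_const 2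
  refine a3.congr_deriv ?_
  rw [k1_q]
  field_simp
  rw [sin_add, sin_sub, cos_add, cos_sub]
  linear_combination (-2 * sin α * cos α) * sin_sq_add_cos_sq γ

/-- the mean value form of `Ha` -/
theorem k1_mvt {w κ σ α a : ℝ} (hw : 0 < w) (hκ : 50 ≤ κ) (hκw : κ * w ≤ 1 / 200)
    (ha : 1 / 100 ≤ a) (ha1 : a ≤ 1 / 10) (h0 : 0 ≤ α) (h1 : α ≤ π)
    (hm : ∀ γ, 1 / 200 ≤ γ → γ ≤ 1 / 10 → 0 < cosh σ - cos (α - γ)) :
    ∃ ξ, 1 / 200 ≤ ξ ∧ ξ ≤ 1 / 10 ∧
      Ha w κ σ α a = w * Gs σ α (a - κ * w) - κ * w * (sin α * k1_q σ α ξ) := by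
  have hpos : 0 < κ * w := by positivity
  have hp : ∀ γ, 1 / 200 ≤ γ → γ ≤ 1 / 10 → 0 < cosh σ - cos (α + γ) := fun γ g0 g1 =>
    (hm γ g0 g1).trans_le (k1_le h0 h1 (by linarith only [hκw, hpos, g0]) g1)
  have hd : ∀ γ ∈ Icc (a - κ * w) a, HasDerivAt
      (fun t => (Real.log (cosh σ - cos (α + t)) - Real.log (cosh σ - cos (α - t))) / 2)
      (sin α * k1_q σ α γ) γ := fun γ hγ =>
    k1_deriv (hp γ (by linarith only [hκw, ha, hγ, hγ.1]) (by linarith only [ha1, hγ, hγ.2]))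
      (hm γ (by linarith only [hκw, ha, hγ, hγ.1]) (by linarith only [ha1, hγ, hγ.2]))
  obtain ⟨ξ, hξ, he⟩ := exists_hasDerivAt_eq_slope
    (fun t => (Real.log (cosh σ - cos (α + t)) - Real.log (cosh σ - cos (α - t))) / 2)
    (fun γ => sin α * k1_q σ α γ) (show a - κ * w < a by linarith only [hpos])
    (fun γ hγ => (hd γ hγ).continuousAt.continuousWithinAt)
    (fun γ hγ => hd γ (Ioo_subset_Icc_self hγ))
  refine ⟨ξ, by linarith only [hκw, ha, hξ, hξ.1], by linarith only [ha1, hξ, hξ.2], ?_⟩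
  rw [← k1_Gs (hp a (by linarith only [hκw, ha, hpos]) ha1) (hm a (by linarith only [hκw, ha, hpos]) ha1),
    ← k1_Gs (hp (a - κ * w) (by linarith only [hκw, ha]) (by linarith only [ha1, hpos]))
      (hm (a - κ * w) (by linarith only [hκw, ha]) (by linarith only [ha1, hpos])), sub_sub_cancel, eq_div_iff hpos.ne'] at he
  rw [Ha]
  linear_combination he

theorem k1_cosh_one : 77 / 50 ≤ cosh (1 : ℝ) ∧ cosh (1 : ℝ) ≤ 31 / 20 := by
  rw [cosh_eq]
  constructor <;>
    linarith only [exp_one_gt_d9, exp_one_lt_d9, exp_neg_one_gt_d9, exp_neg_one_lt_d9]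

theorem k1_cosh_two : cosh (2 : ℝ) ≤ 4 := by
  have h := cosh_two_mul (1 : ℝ)
  have h2 := cosh_sq (1 : ℝ)
  obtain ⟨h3, h4⟩ := k1_cosh_one
  rw [mul_one] at h
  linarith only [h, h2, h4, h3, mul_nonneg_of_nonpos_of_nonpos (Mathlib.Tactic.Linarith.sub_nonpos_of_le h3) (Mathlib.Tactic.Linarith.sub_nonpos_of_le h4)]

theorem k1_cosh_half : 11 / 10 ≤ cosh (1 / 2 : ℝ) := by
  have h := cosh_two_mul (1 / 2 : ℝ)
  have h2 := cosh_sq (1 / 2 : ℝ)
  obtain ⟨h3, h4⟩ := k1_cosh_one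
  have h5 := one_le_cosh (1 / 2 : ℝ)
  norm_num at h
  by_contra hc
  rw [not_le] at hc
  linarith only [h2, h3, h, hc, h5, mul_nonneg_of_nonpos_of_nonpos (Mathlib.Tactic.Linarith.sub_nonpos_of_le h5) (le_of_lt (Mathlib.Tactic.Linarith.sub_neg_of_lt hc))]

theorem k1_cos {t : ℝ} (h0 : 1 / 250 ≤ |t|) (h1 : |t| ≤ π) : cos t ≤ 1 - 1 / 500000 := by
  have h2 := cos_le_one_sub_mul_cos_sq h1
  have h3 : (1 / 250 : ℝ) ^ 2 ≤ t ^ 2 := by
    rw [← sq_abs t]
    gcongr
  have h4 : (1 / 8 : ℝ) ≤ 2 / π ^ 2 := by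
    rw [div_le_div_iff₀ (by norm_num) (by positivity)]
    linarith only [h0, h1, pi_lt_four, pi_pos, mul_nonneg_of_nonpos_of_nonpos (Mathlib.Tactic.Linarith.sub_nonpos_of_le h0) (le_of_lt (Mathlib.Tactic.Linarith.sub_neg_of_lt pi_lt_four)), mul_nonneg_of_nonpos_of_nonpos (Mathlib.Tactic.Linarith.sub_nonpos_of_le h1) (le_of_lt (Mathlib.Tactic.Linarith.sub_neg_of_lt pi_lt_four))]
  linarith only [h2, h3, h4, mul_nonneg_of_nonpos_of_nonpos (Mathlib.Tactic.Linarith.sub_nonpos_of_le (sq_nonneg ((1 : ℝ) * t))) (Mathlib.Tactic.Linarith.sub_nonpos_of_le h4)]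

theorem k1_low {σ α γ : ℝ} (h0 : 0 ≤ α) (g0 : 1 / 200 ≤ γ) (g1 : γ ≤ 1 / 10)
    (h : 1 / 2 ≤ |σ| ∨ α ≤ 1 / 1000) : cosh σ / 500000 ≤ cosh σ - cos (α - γ) := by
  rcases h with h | h
  · have h2 : cosh (1 / 2 : ℝ) ≤ cosh σ := cosh_le_cosh.2 (by rwa [abs_of_pos (by norm_num)])
    linarith only [h2, k1_cosh_half, cos_le_one (α - γ)]
  · have h2 : |α - γ| = γ - α := by rw [abs_of_nonpos (by linarith only [g0, h])]; ring
    have h3 := k1_cos (t := α - γ) (by rw [h2]; linarith only [g0, h]) (by rw [h2]; linarith only [h0, g1, pi_gt_three])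
    linarith only [h3, one_le_cosh σ]

theorem Ha_abs : ∃ C : ℝ, 0 < C ∧ ∀ w κ σ α a : ℝ, 0 < w → 50 ≤ κ → κ ≤ 100 → κ * w ≤ 1 / 200 →
    1 / 100 ≤ a → a ≤ 1 / 10 → 0 ≤ α → α ≤ π → (1 / 2 ≤ |σ| ∨ α ≤ 1 / 1000) →
    |Ha w κ σ α a| ≤ C * w * sin α / cosh σ := by
  refine ⟨50000 + 200 * 500000 ^ 2, by norm_num, ?_⟩
  intro w κ σ α a hw hκ hκ1 hκw ha ha1 h0 h1 h
  have hc := cosh_pos σ
  have hc1 := one_le_cosh σ
  have hs := sin_nonneg_of_nonneg_of_le_pi h0 h1
  have hm : ∀ γ, 1 / 200 ≤ γ → γ ≤ 1 / 10 → 0 < cosh σ - cos (α - γ) := fun γ g0 g1 =>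
    lt_of_lt_of_le (by positivity) (k1_low h0 g0 g1 h)
  have hpos : 0 < κ * w := by positivity
  obtain ⟨ξ, x0, x1, he⟩ := k1_mvt hw hκ hκw ha ha1 h0 h1 hm
  obtain ⟨b0, b1⟩ := k1_Gs_bd (σ := σ) (γ := a - κ * w) h0 h1 (by linarith only [hκw, ha, hpos]) (by linarith only [ha1, hpos])
    (hm _ (by linarith only [hκw, ha]) (by linarith only [ha1, hpos]))
  have b2 : sin α / 10 / (cosh σ - cos (α - (a - κ * w))) ≤ sin α / 10 / (cosh σ / 500000) :=
    div_le_div_of_nonneg_left (by positivity) (by positivity)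
      (k1_low h0 (by linarith only [hκw, ha]) (by linarith only [ha1, hpos]) h)
  have b3 : sin α / 10 / (cosh σ / 500000) = 50000 * (sin α / cosh σ) := by
    field_simp
    ring
  have l1 := k1_low (σ := σ) h0 x0 x1 h
  have l2 := l1.trans (k1_le (σ := σ) h0 h1 (by linarith only [hκw, hpos, x0]) x1)
  have q1 : |k1_q σ α ξ| ≤ 2 * cosh σ / (cosh σ / 500000 * (cosh σ / 500000)) := by
    rw [k1_q, abs_div, abs_of_pos (mul_pos (lt_of_lt_of_le (by positivity) l2) (hm ξ x0 x1))]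
    refine div_le_div₀ (by positivity) ?_ (by positivity)
      (mul_le_mul l2 l1 (by positivity) (le_trans (by positivity) l2))
    rw [abs_le]
    constructor <;>
      linarith only [hc1, hc, cos_le_one ξ, neg_one_le_cos ξ, cos_le_one α, neg_one_le_cos α, mul_nonneg_of_nonpos_of_nonpos (le_of_lt (Mathlib.Tactic.Linarith.sub_neg_of_lt hc)) (Mathlib.Tactic.Linarith.sub_nonpos_of_le (neg_one_le_cos ξ)), mul_nonneg_of_nonpos_of_nonpos (le_of_lt (Mathlib.Tactic.Linarith.sub_neg_of_lt hc)) (Mathlib.Tactic.Linarith.sub_nonpos_of_le (cos_le_one ξ))]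
  have q2 : 2 * cosh σ / (cosh σ / 500000 * (cosh σ / 500000)) = 2 * 500000 ^ 2 / cosh σ := by
    field_simp
  have q3 : |κ * w * (sin α * k1_q σ α ξ)| ≤ 100 * w * (sin α * (2 * 500000 ^ 2 / cosh σ)) := by
    rw [abs_mul, abs_mul (sin α), abs_of_pos hpos, abs_of_nonneg hs, ← q2]
    gcongr
  have q4 : |w * Gs σ α (a - κ * w)| ≤ w * (50000 * (sin α / cosh σ)) := by
    rw [abs_of_nonneg (mul_nonneg hw.le b0)]
    gcongr
    linarith only [b1, b2, b3]
  rw [he]
  refine (abs_sub _ _).trans ((add_le_add q4 q3).trans (le_of_eq ?_))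
  field_simp
  ring

theorem Ha_neg {w κ σ α a : ℝ} (hw : 0 < w) (hκ : 50 ≤ κ) (hκw : κ * w ≤ 1 / 200)
    (ha : 1 / 100 ≤ a) (ha1 : a ≤ 1 / 10) (h0 : 0 ≤ α) (h1 : α ≤ π)
    (h : |σ| = 1 ∨ (|σ| ≤ 2 ∧ 3 ≤ α)) : Ha w κ σ α a ≤ -(1 / 10) * w * κ * sin α := by
  have hc1 := one_le_cosh σ
  have hs := sin_nonneg_of_nonneg_of_le_pi h0 h1
  have hpos : 0 < κ * w := by positivity
  have key : ∀ γ, 1 / 200 ≤ γ → γ ≤ 1 / 10 →
      1 / 2 ≤ cosh σ - cos (α - γ) ∧ 9 / 50 ≤ k1_q σ α γ := by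
    intro γ g0 g1
    have c1 : 199 / 200 ≤ cos γ := by (refine le_of_not_gt fun h_nl => ?_; linarith only [h_nl, g1, hκw, hpos, g0, one_sub_sq_div_two_le_cos (x := γ), mul_nonneg_of_nonpos_of_nonpos (Mathlib.Tactic.Linarith.sub_nonpos_of_le hκw) (le_of_lt (Mathlib.Tactic.Linarith.sub_neg_of_lt h_nl)), mul_pos_of_neg_of_neg (Mathlib.Tactic.Linarith.sub_neg_of_lt hpos) (Mathlib.Tactic.Linarith.sub_neg_of_lt h_nl), mul_nonneg_of_nonpos_of_nonpos (Mathlib.Tactic.Linarith.sub_nonpos_of_le g0) (Mathlib.Tactic.Linarith.sub_nonpos_of_le g1)])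
    have c2 := abs_cos_sub_cos_le (α + γ) α
    have c3 := abs_cos_sub_cos_le (α - γ) α
    rw [add_sub_cancel_left, abs_of_pos (show 0 < γ by linarith only [hκw, hpos, g0]), abs_le] at c2
    rw [sub_sub_cancel_left, abs_neg, abs_of_pos (show 0 < γ by linarith only [hκw, hpos, g0]), abs_le] at c3
    have hle := k1_le (σ := σ) h0 h1 (by linarith only [hκw, hpos, g0]) g1
    have c4 : 199 / 200 * cosh σ ≤ cosh σ * cos γ := by linarith only [c1, hc1, mul_nonneg_of_nonpos_of_nonpos (Mathlib.Tactic.Linarith.sub_nonpos_of_le hc1) (Mathlib.Tactic.Linarith.sub_nonpos_of_le c1)]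
    rcases h with h | ⟨h, h3⟩
    · have e : cosh σ = cosh 1 := by rw [← cosh_abs, h]
      obtain ⟨k1, k2⟩ := k1_cosh_one
      rw [← e] at k1 k2
      have d1 : 1 / 2 ≤ cosh σ - cos (α - γ) := by linarith only [hκw, hpos, k1, cos_le_one (α - γ)]
      refine ⟨d1, ?_⟩
      rw [k1_q, le_div_iff₀ (mul_pos (by linarith only [hκw, hpos, g1, c2, c3, d1]) (by linarith only [hκw, hpos, d1]))]
      have d2 : (cosh σ - cos (α + γ)) * (cosh σ - cos (α - γ)) ≤
          (cosh σ - cos α + 1 / 10) * (cosh σ - cos α + 1 / 10) :=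
        mul_le_mul (by linarith only [g1, c2, c2.1]) (by linarith only [g1, c3, c3.1]) (by linarith only [hκw, hpos, d1])
          (by linarith only [hκw, hpos, g1, c3, d1, cos_le_one α])
      have d3 : 1 / 2 ≤ cosh σ - cos α := by linarith only [hκw, hpos, k1, cos_le_one α]
      have d4 : cosh σ - cos α ≤ 13 / 5 := by linarith only [hκw, hpos, k2, neg_one_le_cos α]
      linarith only [hκw, hpos, c4, k2, d2, d3, d4, mul_nonneg (sub_nonneg.2 d3) (sub_nonneg.2 d4)]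
    · have k2 : cosh σ ≤ 4 :=
        (cosh_le_cosh.2 (by rwa [abs_of_pos (show (0 : ℝ) < 2 by norm_num)])).trans k1_cosh_two
      have k3 : cos α ≤ -(9 / 10) := by
        have m1 := one_sub_sq_div_two_le_cos (x := π - α)
        rw [cos_pi_sub] at m1
        linarith only [hκw, h3, m1, hw, hκ, hpos, h1, pi_lt_d2, mul_nonneg_of_nonpos_of_nonpos (le_of_lt (Mathlib.Tactic.Linarith.sub_neg_of_lt hw)) (Mathlib.Tactic.Linarith.sub_nonpos_of_le hκ), mul_nonneg_of_nonpos_of_nonpos (le_of_lt (Mathlib.Tactic.Linarith.sub_neg_of_lt hw)) (Mathlib.Tactic.Linarith.sub_nonpos_of_le hκw), mul_pos_of_neg_of_neg (Mathlib.Tactic.Linarith.sub_neg_of_lt hw) (Mathlib.Tactic.Linarith.sub_neg_of_lt hpos), mul_nonneg_of_nonpos_of_nonpos (Mathlib.Tactic.Linarith.sub_nonpos_of_le h1) (Mathlib.Tactic.Linarith.sub_nonpos_of_le h3), mul_nonneg_of_nonpos_of_nonpos (Mathlib.Tactic.Linarith.sub_nonpos_of_le h1) (le_of_lt (Mathlib.Tactic.Linarith.sub_neg_of_lt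 pi_lt_d2))]
      have d1 : 1 / 2 ≤ cosh σ - cos (α - γ) := by linarith only [hκw, hc1, hpos, g1, c3, k3, c3.2]
      refine ⟨d1, ?_⟩
      rw [k1_q, le_div_iff₀ (mul_pos (by linarith only [hκw, hc1, hpos, g1, c2, k3]) (by linarith only [hκw, hc1, hpos, g1, c3, k3]))]
      have d2 : (cosh σ - cos (α + γ)) * (cosh σ - cos (α - γ)) ≤ (cosh σ + 1) * 5 :=
        mul_le_mul (by linarith only [neg_one_le_cos (α + γ)]) (by linarith only [k2, neg_one_le_cos (α - γ)])
          (by linarith only [hκw, hc1, hpos, g1, c3, k3]) (by linarith only [hκw, hc1, hpos])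
      linarith only [hκw, hc1, hpos, c4, k3, d2]
  have hm : ∀ γ, 1 / 200 ≤ γ → γ ≤ 1 / 10 → 0 < cosh σ - cos (α - γ) := fun γ g0 g1 =>
    lt_of_lt_of_le (by norm_num) (key γ g0 g1).1
  obtain ⟨ξ, x0, x1, he⟩ := k1_mvt hw hκ hκw ha ha1 h0 h1 hm
  obtain ⟨-, b1⟩ := k1_Gs_bd (σ := σ) (γ := a - κ * w) h0 h1 (by linarith only [hκw, ha, hpos]) (by linarith only [ha1, hpos])
    (hm _ (by linarith only [hκw, ha]) (by linarith only [ha1, hpos]))
  have b2 : sin α / 10 / (cosh σ - cos (α - (a - κ * w))) ≤ sin α / 10 / (1 / 2) :=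
    div_le_div_of_nonneg_left (by positivity) (by positivity)
      (key _ (by linarith only [hκw, ha]) (by linarith only [ha1, hpos])).1
  have b3 : w * Gs σ α (a - κ * w) ≤ w * (sin α / 5) := by
    gcongr
    linarith only [b1, b2]
  have b4 : κ * w * (sin α * (9 / 50)) ≤ κ * w * (sin α * k1_q σ α ξ) := by
    gcongr
    exact (key ξ x0 x1).2
  have b5 : 50 * (w * sin α) ≤ κ * (w * sin α) := by gcongr
  have b6 : 0 ≤ w * sin α := by positivity
  rw [he]
  linarith only [b3, b4, b5, b6]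

theorem Gs_log : ∃ C : ℝ, 0 < C ∧ ∀ σ α γ : ℝ, |σ| ≤ 1 → 0 ≤ α → α ≤ π → 1 / 200 ≤ γ → γ ≤ 1 / 10 →
    (σ ≠ 0 ∨ α ≠ γ) → |Gs σ α γ + Real.log ‖(σ : ℂ) + (α - γ : ℝ) * Complex.I‖| ≤ C := by
  obtain ⟨C, hC⟩ := lg_sub_log (κ := 1) one_pos
  refine ⟨|C| + 500010, by positivity, ?_⟩
  intro σ α γ hσ h0 h1 g0 g1 hne
  have hre : ((σ : ℂ) + (α - γ : ℝ) * Complex.I).re = σ := by simp
  have him : ((σ : ℂ) + (α - γ : ℝ) * Complex.I).im = α - γ := by simp
  have hv : (σ : ℂ) + (α - γ : ℝ) * Complex.I ≠ 0 := by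
    intro hz
    rw [hz] at hre him
    rcases hne with h | h
    · exact h hre.symm
    · exact h (by simp at him; linarith only [him])
  have hn : 1 * ‖(σ : ℂ) + (α - γ : ℝ) * Complex.I‖ ≤ 5 := by
    have n1 := Complex.norm_le_abs_re_add_abs_im ((σ : ℂ) + (α - γ : ℝ) * Complex.I)
    rw [hre, him] at n1
    have n2 : |α - γ| ≤ 4 := by
      rw [abs_le]
      constructor <;> linarith only [h0, g1, h1, g0, pi_lt_four]
    linarith only [hσ, n1, n2]
  have h2 := hC _ hv hn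
  rw [hre, him, one_mul, one_mul] at h2
  have hc1 := one_le_cosh σ
  have hc2 : cosh σ ≤ 31 / 20 :=
    (cosh_le_cosh.2 (by rwa [abs_one])).trans k1_cosh_one.2
  have h3 : cos (α + γ) ≤ 1 - 1 / 500000 := by
    rcases le_total (α + γ) π with h | h
    · exact k1_cos (by rw [abs_of_pos (by linarith only [h0, g0])]; linarith only [h0, g0])
        (by rwa [abs_of_pos (by linarith only [h0, g0])])
    · linarith only [h0, g0, h, h1, g1, cos_nonpos_of_pi_div_two_le_of_le (x := α + γ) (by linarith [pi_pos])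
        (by linarith [pi_gt_three])]
  have h4 : 1 / 500000 ≤ cosh σ - cos (α + γ) := by linarith only [hc1, h3]
  have h5 : 0 < cosh σ - cos (α + γ) := by linarith only [hc1, h3]
  have h6 := Real.log_le_sub_one_of_pos h5
  have h7 := Real.one_sub_inv_le_log_of_pos h5
  have h8 : (cosh σ - cos (α + γ))⁻¹ ≤ 500000 := by
    rw [inv_le_comm₀ h5 (by norm_num)]
    linarith only [hc1, h3]
  have h9 := Real.log_le_sub_one_of_pos (show (0 : ℝ) < 2 by norm_num)
  have h10 := Real.log_nonneg (show (1 : ℝ) ≤ 2 by norm_num)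
  rw [Gs, lg_cosh h5, abs_le]
  rw [abs_le] at h2 hσ
  constructor <;> linarith only [hσ, h2, h7, h8, h10, hc2, h6, h9, le_abs_self C, neg_one_le_cos (α + γ), h2.1, h2.2, hσ.1, hσ.2]

end

end Pool.Agent.MinMod.Mo
end

-- merged part: Pool.Agent.Work.MP_f62247_an.Mo.K3
section
-- merged part: Pool.Agent.Work.MP_f62247_an.Mo.K2
section
/-!
# The kernel: definitions and inequalities
`κ = kp t ∈ [62, 63]`, `κ (1/20 + 2 t²) = π`. `geo`: `al = κ (ht z + 2 t²) + κ (φ z.re - φ p.re)`, `|κ (φ z.re - φ p.re)| ≤ μ |sg| ≤ t²` (`φ_sub`; `- log t ≤ 1/t`), `ta = π - al - κ t² + κ (φ z.re - φ p.re)`.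
Put `θ = π - min al π`. `seam1`: `Fk ≤ - w κ (sin θ / 10 - t θ)` (`Ha_neg`); for `θ ≤ π/2`: `sin θ ≥ 2θ/π`, `qf ta ≤ 2 θ`; for `π/2 ≤ θ ≤ 3`: `sin θ ≥ 1/10`.. (`sin θ = sin (π - θ) ≥ (2/π)(π - 3) ≥ 9/100`), `qf ≤ 1.01`; for `θ ≥ 3`: `ta ≥ 2.99`, `sin (1.1 ta) ≤ -(2/π)(1.1 ta - π) ≤ -9/100`.
`seam2`: `cosh sg ≥ t⁻² / 2`, so `|Ha| ≤ 2 C w t² θ`, `Fk ≥ w θ (κ t - 2 C t²)`; `Hc ≤ 0` unless `1.1 ta ≥ π`, then `θ ≥ 2` and `Hc ≤ w κ e^{1.1} t^{2.2} / 200 ≤ w t²`.
`ridge`: `al ≤ 200 t²`, `ta ∈ [3.1, π]`, `qf ta ∈ [-1, 0]`. `bound`: cases `|sg| ≤ 1, al ≤ π` (`Gs_log`, `sg + i (al - a0) = κ (z - p)`, `gk 1 v = - log ‖v‖` for `0 < ‖v‖ ≤ 1`), `|sg| ≤ 1, al > π` (`‖z - p‖ ≥ 3/63`), `|sg| > 1` (`Ha_abs`, `t ≤ exp (-|sg|/2)` when `|sg| ≤ -2 log t`).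
-/

open Real MeasureTheory Set Filter Topology

namespace Pool.Agent.MinMod.Mo

noncomputable section

def kp (t : ℝ) : ℝ := π / (1 / 20 + 2 * t ^ 2)

def sg (t : ℝ) (p z : ℂ) : ℝ := kp t * (z.re - p.re)

def al (F : Frame) (t : ℝ) (p z : ℂ) : ℝ := kp t * (z.im - F.φ p.re + 2 * t ^ 2)

def ta (F : Frame) (t : ℝ) (z : ℂ) : ℝ := kp t * (1 / 20 - t ^ 2 - F.ht z)

def qf (τ : ℝ) : ℝ := sin (11 / 10 * max τ 0) + max τ 0 ^ 2 / 2000

/-- the near part of the kernel -/
def Fk (F : Frame) (t w : ℝ) (p z : ℂ) : ℝ :=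
  Ha w (kp t) (sg t p z) (min (al F t p z) π) (al F t p p) + w * kp t * t * (π - min (al F t p z) π)

/-- the far part of the kernel -/
def Hc (F : Frame) (t w : ℝ) (p z : ℂ) : ℝ :=
  -(w * kp t / 200 * exp (-(11 / 10) * (|sg t p z| - 1)) * qf (ta F t z))

def Hk (F : Frame) (t w : ℝ) (p z : ℂ) : ℝ :=
  if |sg t p z| ≤ 1 then Fk F t w p z
  else if |sg t p z| ≤ -2 * Real.log t then min (Fk F t w p z) (Hc F t w p z) else Hc F t w p z

structure KH (F : Frame) (μ t w : ℝ) (p : ℂ) : Prop where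
  tpos : 0 < t
  tle : t ≤ 1 / 10000
  wpos : 0 < w
  wle : w ≤ t ^ 8
  mu : μ ≤ t ^ 18
  good : F.Good μ
  lo : 1 / 4000 ≤ F.ht p
  hi : F.ht p ≤ 1 / 1000

variable {F : Frame} {μ t w : ℝ} {p z : ℂ}

theorem k2_kp (t : ℝ) : kp t * (1 / 20 + 2 * t ^ 2) = π :=
  div_mul_cancel₀ _ (by positivity)

theorem k2_pos (t : ℝ) : 0 < kp t := div_pos pi_pos (by positivity)

theorem k2_sq (h0 : 0 < t) (h1 : t ≤ 1 / 10000) : t ^ 2 ≤ t / 10000 := by linarith only [h0, h1, mul_nonneg_of_nonpos_of_nonpos (le_of_lt (Mathlib.Tactic.Linarith.sub_neg_of_lt h0)) (Mathlib.Tactic.Linarith.sub_nonpos_of_le h1)]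

theorem k2_pow (h0 : 0 < t) (h1 : t ≤ 1 / 10000) {m n : ℕ} (h : m ≤ n) : t ^ n ≤ t ^ m :=
  pow_le_pow_of_le_one h0.le (by linarith only [h0, h1]) h

theorem k2_sin {θ : ℝ} (h0 : 0 ≤ θ) (h1 : θ ≤ π / 2) : 5 / 8 * θ ≤ sin θ := by
  refine le_trans (mul_le_mul_of_nonneg_right ?_ h0) (mul_le_sin h0 h1)
  rw [le_div_iff₀ pi_pos]
  linarith only [pi_lt_d2]

theorem k2_qf_ge (τ : ℝ) : -1 ≤ qf τ := by
  have := neg_one_le_sin (11 / 10 * max τ 0)
  have := sq_nonneg (max τ 0)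
  unfold qf
  linarith

theorem k2_qf_le {τ : ℝ} (h : τ ≤ π) : qf τ ≤ 101 / 100 := by
  have h1 := sin_le_one (11 / 10 * max τ 0)
  have h2 : max τ 0 ≤ 4 := max_le (h.trans pi_le_four) (by norm_num)
  have h3 := le_max_right τ 0
  unfold qf
  linarith only [h1, h2, h3, mul_nonneg_of_nonpos_of_nonpos (Mathlib.Tactic.Linarith.sub_nonpos_of_le h2) (Mathlib.Tactic.Linarith.sub_nonpos_of_le h3)]

theorem k2_qf_neg {τ : ℝ} (h0 : 299 / 100 ≤ τ) (h : τ ≤ π) : qf τ ≤ -(8 / 100) := by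
  have p1 := pi_gt_d2
  have p2 := pi_lt_d4
  have h1 := k2_sin (θ := 11 / 10 * τ - π) (by linarith only [h0, p1, p2]) (by linarith only [h, p1, p2])
  rw [sin_sub_pi] at h1
  unfold qf
  rw [max_eq_left (by linarith only [h0, p1, p2])]
  linarith only [h0, p1, p2, h1, h, mul_nonneg_of_nonpos_of_nonpos (Mathlib.Tactic.Linarith.sub_nonpos_of_le h0) (Mathlib.Tactic.Linarith.sub_nonpos_of_le h), mul_nonneg_of_nonpos_of_nonpos (Mathlib.Tactic.Linarith.sub_nonpos_of_le h0) (le_of_lt (Mathlib.Tactic.Linarith.sub_neg_of_lt p2))]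

theorem k2_log (h0 : 0 < t) (h1 : t ≤ 1 / 10000) : 1 ≤ -2 * Real.log t := by
  linarith only [h0, h1, Real.log_le_sub_one_of_pos h0]

theorem k2_sg (t : ℝ) (p z : ℂ) : |sg t p z| = kp t * |p.re - z.re| := by
  rw [sg, abs_mul, abs_of_pos (k2_pos t), abs_sub_comm]

theorem k2_cosh (σ : ℝ) : exp |σ| / 2 ≤ cosh σ := by
  rw [← cosh_abs, cosh_eq]
  linarith only [exp_pos (-|σ|)]

theorem kp_mem (h0 : 0 < t) (h1 : t ≤ 1 / 10000) : 62 ≤ kp t ∧ kp t ≤ 63 := by
  have := k2_sq h0 h1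
  unfold kp
  rw [le_div_iff₀ (by positivity), div_le_iff₀ (by positivity)]
  constructor
  · linarith only [h0, h1, this, pi_gt_d2]
  · linarith only [pi_lt_d2, sq_nonneg t]

theorem KH.a0 (h : KH F μ t w p) :
    1 / 100 ≤ al F t p p ∧ al F t p p ≤ 1 / 10 ∧ kp t * w ≤ 1 / 200 := by
  obtain ⟨k1, k2⟩ := kp_mem h.tpos h.tle
  have h1 := k2_sq h.tpos h.tle
  have h2 := h.wle.trans (k2_pow h.tpos h.tle (by norm_num : 2 ≤ 8))
  have h3 := h.lo
  have h4 := h.hi
  have h5 := h.tle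
  have h6 := h.wpos
  have h7 := sq_nonneg t
  have e : al F t p p = kp t * (F.ht p + 2 * t ^ 2) := rfl
  rw [e]
  refine ⟨by linarith only [k1, h1, h2, h3, h5, h6, mul_nonneg_of_nonpos_of_nonpos (Mathlib.Tactic.Linarith.sub_nonpos_of_le (sq_nonneg t)) (Mathlib.Tactic.Linarith.sub_nonpos_of_le k1), mul_nonneg_of_nonpos_of_nonpos (Mathlib.Tactic.Linarith.sub_nonpos_of_le k1) (Mathlib.Tactic.Linarith.sub_nonpos_of_le h3)], by linarith only [k2, h1, h2, h4, h5, h6, k1, mul_nonneg_of_nonpos_of_nonpos (Mathlib.Tactic.Linarith.sub_nonpos_of_le (sq_nonneg t)) (Mathlib.Tactic.Linarith.sub_nonpos_of_le k2), mul_nonneg_of_nonpos_of_nonpos (Mathlib.Tactic.Linarith.sub_nonpos_of_le k1) (Mathlib.Tactic.Linarith.sub_nonpos_of_le h4)], by linarith only [h1, h2, h5, h6, k2, k1, mul_nonneg_of_nonpos_of_nonpos (Mathlib.Tactic.Linarith.sub_nonpos_of_le (sq_nonneg t)) (Mathlib.Tactic.Linarith.sub_nonpos_of_le k2), mul_nonneg_of_nonpos_of_nonpos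 (Mathlib.Tactic.Linarith.sub_nonpos_of_le k1) (Mathlib.Tactic.Linarith.sub_nonpos_of_le h2)]⟩

theorem KH.geo (h : KH F μ t w p) (hs : |sg t p z| ≤ 1 - 2 * Real.log t) :
    |al F t p z - kp t * (F.ht z + 2 * t ^ 2)| ≤ t ^ 2 ∧
      |ta F t z - (π - al F t p z - kp t * t ^ 2)| ≤ t ^ 2 := by
  have h0 := h.tpos
  have h1 : |kp t * (F.φ z.re - F.φ p.re)| ≤ t ^ 2 := by
    have a1 := mul_le_mul_of_nonneg_left (h.good.φ_sub p.re z.re) (k2_pos t).le
    have a2 : 1 - 2 * Real.log t ≤ 2 * t⁻¹ := by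
      have := Real.log_le_sub_one_of_pos (inv_pos.2 h0)
      rw [Real.log_inv] at this
      linarith only [this]
    have a3 : μ * |sg t p z| ≤ t ^ 4 * (2 * t⁻¹) :=
      mul_le_mul (h.mu.trans (k2_pow h0 h.tle (by norm_num))) (hs.trans a2) (abs_nonneg _)
        (by positivity)
    have a4 : t ^ 4 * (2 * t⁻¹) = 2 * t * t ^ 2 := by field_simp
    have a5 := mul_le_mul_of_nonneg_right (by linarith only [h0, h, h.tle] : 2 * t ≤ 1) (sq_nonneg t)
    rw [k2_sg, abs_sub_comm] at a3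
    rw [abs_mul, abs_of_pos (k2_pos t)]
    linarith only [a1, a3, a4, a5]
  constructor
  · convert h1 using 2
    simp only [al, Frame.ht]
    ring
  · convert h1 using 2
    rw [← k2_kp t]
    simp only [al, ta, Frame.ht]
    ring

theorem ta_lt (h0 : 0 < t) (hz : -t ^ 2 < F.ht z) : ta F t z < π := by
  rw [← k2_kp t]
  exact mul_lt_mul_of_pos_left (by linarith only [hz, sq_nonneg t]) (k2_pos t)

theorem Fk_eq_zero (hz : π ≤ al F t p z) : Fk F t w p z = 0 := by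
  rw [Fk, min_eq_right hz, Ha_pi, sub_self, mul_zero, add_zero]

theorem Hc_eq_zero (hz : ta F t z ≤ 0) : Hc F t w p z = 0 := by
  simp [Hc, qf, max_eq_right hz]

theorem KH.k2_al (h : KH F μ t w p) (hz : -t ^ 2 < F.ht z)
    (hs : |sg t p z| ≤ 1 - 2 * Real.log t) :
    0 ≤ al F t p z ∧ max (ta F t z) 0 ≤ π - min (al F t p z) π := by
  obtain ⟨g1, g2⟩ := h.geo hs
  obtain ⟨k1, k2⟩ := kp_mem h.tpos h.tle
  have h1 := sq_nonneg t
  have h2 := (abs_le.1 g1).1
  have h3 := (abs_le.1 g2).2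
  refine ⟨by linarith only [hz, h2, k1, sq_nonneg t, mul_nonneg_of_nonpos_of_nonpos (Mathlib.Tactic.Linarith.sub_nonpos_of_le (sq_nonneg t)) (Mathlib.Tactic.Linarith.sub_nonpos_of_le k1), mul_nonneg_of_nonpos_of_nonpos (le_of_lt (Mathlib.Tactic.Linarith.sub_neg_of_lt hz)) (Mathlib.Tactic.Linarith.sub_nonpos_of_le k1)], max_le ?_ (sub_nonneg.2 (min_le_right _ _))⟩
  have := min_le_left (al F t p z) π
  linarith only [h3, this, k1, sq_nonneg t, mul_nonneg_of_nonpos_of_nonpos (Mathlib.Tactic.Linarith.sub_nonpos_of_le (sq_nonneg t)) (Mathlib.Tactic.Linarith.sub_nonpos_of_le k1)]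

theorem KH.k2_neg (h : KH F μ t w p) (h0 : 0 ≤ al F t p z)
    (hs : |sg t p z| = 1 ∨ (|sg t p z| ≤ 2 ∧ 3 ≤ min (al F t p z) π)) :
    Fk F t w p z ≤ w * kp t * (t * (π - min (al F t p z) π) -
      sin (π - min (al F t p z) π) / 10) := by
  obtain ⟨a1, a2, a3⟩ := h.a0
  have := Ha_neg h.wpos (by linarith only [h, (kp_mem h.tpos h.tle).1]) a3 a1 a2
    (le_min h0 pi_pos.le) (min_le_right _ _) hs
  rw [Fk, sin_pi_sub]
  linarith only [this]

theorem KH.Fk_nonpos (h : KH F μ t w p) (hs : |sg t p z| ≤ 2) (ha : 3 ≤ al F t p z) :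
    Fk F t w p z ≤ 0 := by
  have h3 : 3 ≤ min (al F t p z) π := le_min ha pi_gt_three.le
  have h4 := min_le_right (al F t p z) π
  refine (h.k2_neg (by linarith only [ha]) (Or.inr ⟨hs, h3⟩)).trans
    (mul_nonpos_of_nonneg_of_nonpos (mul_pos h.wpos (k2_pos t)).le ?_)
  have h5 := k2_sin (θ := π - min (al F t p z) π) (by linarith) (by linarith only [h3, pi_lt_d2])
  have h6 := mul_le_mul_of_nonneg_right h.tle (sub_nonneg.2 h4)
  linarith only [h4, h5, h6]

theorem KH.seam1 (h : KH F μ t w p) (hz : -t ^ 2 < F.ht z) (hs : |sg t p z| = 1) :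
    Fk F t w p z ≤ Hc F t w p z := by
  have hs' : |sg t p z| ≤ 1 - 2 * Real.log t := by linarith [k2_log h.tpos h.tle]
  obtain ⟨h0, h1⟩ := h.k2_al hz hs'
  have h2 := ta_lt h.tpos hz
  have h4 := min_le_right (al F t p z) π
  have h5 : 0 ≤ min (al F t p z) π := le_min h0 pi_pos.le
  have h6 := mul_le_mul_of_nonneg_right h.tle (sub_nonneg.2 h4)
  have p1 := pi_gt_d2
  have p2 := pi_lt_d2
  have key : qf (ta F t z) ≤ 20 * sin (π - min (al F t p z) π) -
      200 * (t * (π - min (al F t p z) π)) := by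
    rcases le_total (π - min (al F t p z) π) (π / 2) with c1 | c1
    · have b1 := k2_sin (sub_nonneg.2 h4) c1
      have b2 := le_max_right (ta F t z) 0
      have b3 := sin_le (x := 11 / 10 * max (ta F t z) 0) (by positivity)
      unfold qf
      linarith only [h1, h4, h6, b1, b3, b2, h5, p2, mul_nonneg_of_nonpos_of_nonpos (Mathlib.Tactic.Linarith.sub_nonpos_of_le h1) (Mathlib.Tactic.Linarith.sub_nonpos_of_le h4), mul_nonneg_of_nonpos_of_nonpos (Mathlib.Tactic.Linarith.sub_nonpos_of_le h1) (Mathlib.Tactic.Linarith.sub_nonpos_of_le b2), mul_nonneg_of_nonpos_of_nonpos (Mathlib.Tactic.Linarith.sub_nonpos_of_le h4) (Mathlib.Tactic.Linarith.sub_nonpos_of_le h5), mul_nonneg_of_nonpos_of_nonpos (Mathlib.Tactic.Linarith.sub_nonpos_of_le h4) (le_of_lt (Mathlib.Tactic.Linarith.sub_neg_of_lt p2))]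
    rw [sin_pi_sub]
    rcases le_total (π - min (al F t p z) π) 3 with c2 | c2
    · have b1 := k2_sin h5 (by linarith only [c1])
      have b2 := k2_qf_le h2.le
      linarith only [h6, p1, p2, c2, b1, b2]
    · have b1 : min (al F t p z) π = al F t p z := by
        rcases min_choice (al F t p z) π with e | e
        · exact e
        · linarith only [p1, p2, c1, e]
      have b2 := (abs_le.1 (h.geo hs').2).1
      have b3 := mul_le_mul_of_nonneg_right (kp_mem h.tpos h.tle).2 (sq_nonneg t)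
      have b4 := k2_sq h.tpos h.tle
      have b5 := k2_qf_neg (τ := ta F t z) (by linarith only [p1, p2, c2, b1, b2, b3, b4, h, h.tle]) h2.le
      have b6 := sin_nonneg_of_nonneg_of_le_pi h5 h4
      linarith only [h5, h6, p1, p2, b5, b6]
  refine (h.k2_neg h0 (Or.inl hs)).trans ?_
  have := mul_le_mul_of_nonneg_left key (mul_pos h.wpos (k2_pos t)).le
  rw [Hc, hs, sub_self, mul_zero, exp_zero]
  linarith only [this]

theorem k2_Ha : ∃ C : ℝ, 0 < C ∧ ∀ (F : Frame) (μ t w : ℝ) (p z : ℂ), KH F μ t w p →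
    0 ≤ al F t p z → (1 / 2 ≤ |sg t p z| ∨ min (al F t p z) π ≤ 1 / 1000) →
    |Fk F t w p z - w * kp t * t * (π - min (al F t p z) π)| ≤
      C * w * sin (min (al F t p z) π) * exp (-|sg t p z|) := by
  obtain ⟨C, C0, hC⟩ := Ha_abs
  refine ⟨2 * C, by positivity, fun F μ t w p z h h0 hs => ?_⟩
  obtain ⟨a1, a2, a3⟩ := h.a0
  obtain ⟨k1, k2⟩ := kp_mem h.tpos h.tle
  have h5 : 0 ≤ min (al F t p z) π := le_min h0 pi_pos.le
  have h1 := hC w (kp t) _ _ _ h.wpos (by linarith only [k1]) (by linarith only [k2]) a3 a1 a2 h5 (min_le_right _ _) hs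
  have h2 := sin_nonneg_of_nonneg_of_le_pi h5 (min_le_right _ _)
  have h3 := h.wpos
  rw [Fk, add_sub_cancel_right]
  refine h1.trans ((div_le_div_of_nonneg_left (by positivity) (by positivity)
    (k2_cosh _)).trans (le_of_eq ?_))
  rw [exp_neg]
  field_simp

theorem KH.k2_Hc (h : KH F μ t w p) (hz : -t ^ 2 < F.ht z) :
    |Hc F t w p z| ≤ 3 * w * exp (-|sg t p z|) := by
  have k2 := (kp_mem h.tpos h.tle).2
  have k0 := k2_pos t
  have w0 := h.wpos
  have h1 : |qf (ta F t z)| ≤ 101 / 100 :=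
    abs_le.2 ⟨by linarith only [k2_qf_ge (ta F t z)], k2_qf_le (ta_lt h.tpos hz).le⟩
  have h2 : exp (-(11 / 10) * (|sg t p z| - 1)) ≤ 9 * exp (-|sg t p z|) := by
    have a1 : exp (-(11 / 10) * (|sg t p z| - 1)) ≤ exp 1 * exp 1 * exp (-|sg t p z|) := by
      rw [← exp_add, ← exp_add]
      exact exp_le_exp.2 (by linarith only [abs_nonneg (sg t p z)])
    have a2 : exp 1 * exp 1 ≤ 3 * 3 :=
      mul_le_mul exp_one_lt_three.le exp_one_lt_three.le (exp_pos _).le (by norm_num)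
    have := mul_le_mul_of_nonneg_right a2 (exp_pos (-|sg t p z|)).le
    linarith only [a1, this]
  rw [Hc, abs_neg, abs_mul, abs_of_pos (by positivity)]
  calc _ ≤ w * 63 / 200 * (9 * exp (-|sg t p z|)) * (101 / 100) := by gcongr
    _ ≤ _ := by linarith only [w0, mul_pos w0 (exp_pos (-|sg t p z|))]

theorem KH.k2_exp (h : KH F μ t w p) : exp (-|sg t p z| / 2) ≤ exp (-3 * |p.re - z.re|) := by
  have := mul_le_mul_of_nonneg_right (kp_mem h.tpos h.tle).1 (abs_nonneg (p.re - z.re))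
  rw [k2_sg]
  exact exp_le_exp.2 (by linarith only [this, abs_nonneg (p.re - z.re)])

theorem KH.k2_exp' (h : KH F μ t w p) : exp (-|sg t p z|) ≤ exp (-3 * |p.re - z.re|) :=
  (exp_le_exp.2 (by linarith only [abs_nonneg (sg t p z)])).trans h.k2_exp

theorem KH.k2_half (h : KH F μ t w p) (hs : |sg t p z| ≤ 1) :
    1 / 2 ≤ exp (-3 * |p.re - z.re|) := by
  have := mul_le_mul_of_nonneg_right (kp_mem h.tpos h.tle).1 (abs_nonneg (p.re - z.re))
  rw [k2_sg] at hs
  linarith only [hs, this, add_one_le_exp (-3 * |p.re - z.re|)]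

theorem KH.k2_lin (h : KH F μ t w p) (h0 : 0 ≤ al F t p z) :
    0 ≤ w * kp t * t * (π - min (al F t p z) π) ∧
      w * kp t * t * (π - min (al F t p z) π) ≤ 200 * (w * t) := by
  have k2 := (kp_mem h.tpos h.tle).2
  have k0 := k2_pos t
  have w0 := h.wpos
  have t0 := h.tpos
  have h4 := sub_nonneg.2 (min_le_right (al F t p z) π)
  have h5 : π - min (al F t p z) π ≤ 63 / 20 := by linarith only [h0, le_min h0 pi_pos.le, pi_lt_d2]
  refine ⟨by positivity, ?_⟩
  calc _ ≤ w * 63 * t * (63 / 20) := by gcongr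
    _ ≤ _ := by linarith only [w0, t0, mul_pos w0 t0]

theorem KH.seam2 : ∃ t0 : ℝ, 0 < t0 ∧ ∀ (F : Frame) (μ t w : ℝ) (p z : ℂ), KH F μ t w p → t ≤ t0 →
    -t ^ 2 < F.ht z → |sg t p z| = -2 * Real.log t → Hc F t w p z ≤ Fk F t w p z := by
  obtain ⟨C, C0, hC⟩ := k2_Ha
  refine ⟨1 / C, by positivity, fun F μ t w p z h ht hz hs => ?_⟩
  have t0 := h.tpos
  have w0 := h.wpos
  have l1 := k2_log t0 h.tle
  obtain ⟨h0, h1⟩ := h.k2_al hz (by linarith)
  have h2 := (abs_le.1 (hC F μ t w p z h h0 (Or.inl (by linarith only [hs, l1])))).1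
  have h3 := (le_abs_self _).trans (h.k2_Hc hz)
  have e : exp (-|sg t p z|) = t ^ 2 := by
    rw [hs, ← Real.exp_log (pow_pos t0 2), Real.log_pow]
    congr 1
    push_cast
    ring
  rw [e] at h2 h3
  have h4 := sub_nonneg.2 (min_le_right (al F t p z) π)
  have h5 := sin_le h4
  rw [sin_pi_sub] at h5
  generalize π - min (al F t p z) π = θ at *
  have h6 : C * w * sin (min (al F t p z) π) * t ^ 2 ≤ w * t * θ :=
    calc _ ≤ C * w * θ * t ^ 2 := by gcongr
      _ = C * t * (w * t * θ) := by ring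
      _ ≤ 1 * (w * t * θ) := by
        gcongr
        exact (le_div_iff₀' C0).1 ht
      _ = _ := one_mul _
  have h7 : 0 ≤ w * t * θ := by positivity
  have h8 := mul_le_mul_of_nonneg_right (kp_mem t0 h.tle).1 h7
  rcases le_total θ 2 with c | c
  · have b1 := le_max_right (ta F t z) 0
    have b2 := sin_nonneg_of_nonneg_of_le_pi (x := 11 / 10 * max (ta F t z) 0) (by positivity)
      (by linarith only [h1, c, pi_gt_three])
    have b3 : 0 ≤ qf (ta F t z) := add_nonneg b2 (by positivity)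
    have k0 := k2_pos t
    have b4 : Hc F t w p z ≤ 0 := neg_nonpos.2 (by positivity)
    linarith only [h2, h6, h7, h8, b4]
  · have b1 := mul_le_mul_of_nonneg_left c (mul_pos w0 t0).le
    have b2 := mul_le_mul_of_nonneg_left h.tle (mul_pos w0 t0).le
    have b3 := mul_pos w0 t0
    linarith only [h3, h2, h6, h8, b1, b2, b3]

theorem KH.ridge : ∃ t0 : ℝ, 0 < t0 ∧ ∀ (F : Frame) (μ t w : ℝ) (p z : ℂ), KH F μ t w p → t ≤ t0 →
    -t ^ 2 < F.ht z → F.ht z ≤ t ^ 6 →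
    0 ≤ Hk F t w p z ∧ Hk F t w p z ≤ 100 * w * exp (-3 * |p.re - z.re|) := by
  obtain ⟨C, C0, hC⟩ := k2_Ha
  refine ⟨1 / (2 * C), by positivity, fun F μ t w p z h ht hz hz' => ?_⟩
  have t0 := h.tpos
  have t1 := h.tle
  have w0 := h.wpos
  have l1 := k2_log t0 t1
  obtain ⟨k1, k2⟩ := kp_mem t0 t1
  have s1 := k2_sq t0 t1
  have s2 := hz'.trans (k2_pow t0 t1 (by norm_num : 2 ≤ 6))
  have s3 := sq_nonneg t
  have c0 : 0 ≤ Hc F t w p z := by
    have a1 : π - 4 * (63 * t ^ 2) ≤ ta F t z := by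
      rw [← k2_kp t, ta]
      linarith only [s2, k2, hz, mul_nonneg_of_nonpos_of_nonpos (Mathlib.Tactic.Linarith.sub_nonpos_of_le (sq_nonneg t)) (Mathlib.Tactic.Linarith.sub_nonpos_of_le k2), mul_nonneg_of_nonpos_of_nonpos (le_of_lt (Mathlib.Tactic.Linarith.sub_neg_of_lt hz)) (Mathlib.Tactic.Linarith.sub_nonpos_of_le k2)]
    have a2 := k2_qf_neg (τ := ta F t z) (by linarith only [hz, t1, s1, s2, a1, pi_gt_d2]) (ta_lt t0 hz).le
    exact neg_nonneg.2 (mul_nonpos_of_nonneg_of_nonpos (by positivity) (by linarith only [hz, t1, s1, s2, a2]))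
  have c1 : Hc F t w p z ≤ 100 * w * exp (-3 * |p.re - z.re|) :=
    (le_abs_self _).trans ((h.k2_Hc hz).trans (by
      have := h.k2_exp' (z := z)
      gcongr
      norm_num))
  have f : |sg t p z| ≤ 1 - 2 * Real.log t → 0 ≤ Fk F t w p z ∧ Fk F t w p z ≤ w := by
    intro hs
    have h0 := (h.k2_al hz hs).1
    have a1 : al F t p z ≤ 200 * t ^ 2 := by
      have := (abs_le.1 (h.geo hs).1).2
      linarith only [s2, this, k2, hz, t0, t1, mul_nonneg_of_nonpos_of_nonpos (Mathlib.Tactic.Linarith.sub_nonpos_of_le (sq_nonneg t)) (Mathlib.Tactic.Linarith.sub_nonpos_of_le k2), mul_pos_of_neg_of_neg (Mathlib.Tactic.Linarith.sub_neg_of_lt hz) (Mathlib.Tactic.Linarith.sub_neg_of_lt t0), mul_nonneg_of_nonpos_of_nonpos (le_of_lt (Mathlib.Tactic.Linarith.sub_neg_of_lt hz)) (Mathlib.Tactic.Linarith.sub_nonpos_of_le t1), mul_nonneg_of_nonpos_of_nonpos (le_of_lt (Mathlib.Tactic.Linarith.sub_neg_of_lt hz)) (Mathlib.Tactic.Linarith.sub_nonpos_of_le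 k2)]
    have a2 := min_le_left (al F t p z) π
    have a3 := hC F μ t w p z h h0 (Or.inr (by linarith only [hz, t1, s1, s2, a1, a2]))
    have a4 := sin_le (le_min h0 pi_pos.le)
    have a5 : exp (-|sg t p z|) ≤ 1 := exp_le_one_iff.2 (neg_nonpos.2 (abs_nonneg _))
    have a6 : C * w * sin (min (al F t p z) π) * exp (-|sg t p z|) ≤ 100 * (w * t) :=
      calc _ ≤ C * w * (200 * t ^ 2) * 1 := by
            gcongr
            linarith only [a1, a2, a4]
        _ = 2 * C * t * (100 * (w * t)) := by ring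
        _ ≤ 1 * (100 * (w * t)) := by
          gcongr
          exact (le_div_iff₀' (by positivity)).1 ht
        _ = _ := one_mul _
    have a7 : w * 62 * t * 3 ≤ w * kp t * t * (π - min (al F t p z) π) := by
      gcongr
      linarith only [hz, t1, s1, s2, a1, a2, pi_gt_d2]
    have a8 := (h.k2_lin h0).2
    have a9 := abs_le.1 (a3.trans a6)
    have b1 := mul_le_mul_of_nonneg_left t1 w0.le
    have b2 := mul_pos w0 t0
    constructor <;> linarith only [a7, a9, b2, a8, b1, a9.1, a9.2]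
  unfold Hk
  split_ifs with h1 h2
  · have a1 := f (by linarith only [hz, t1, l1, s1, s2, h1])
    have a2 := mul_le_mul_of_nonneg_left (h.k2_half h1) w0.le
    exact ⟨a1.1, by linarith only [w0, a1, a2, a1.2]⟩
  · exact ⟨le_min (f (by linarith only [hz, t1, s1, s2, h2])).1 c0, (min_le_right _ _).trans c1⟩
  · exact ⟨c0, c1⟩

theorem KH.top (h : KH F μ t w p) (hz : 1 / 15 ≤ F.ht z) : Hk F t w p z = 0 := by
  have s3 := sq_nonneg t
  have c0 : Hc F t w p z = 0 :=
    Hc_eq_zero (mul_nonpos_of_nonneg_of_nonpos (k2_pos t).le (by linarith only [hz, s3]))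
  have f : |sg t p z| ≤ 1 - 2 * Real.log t → Fk F t w p z = 0 := fun hs => Fk_eq_zero (by
    have a1 := (abs_le.1 (h.geo hs).1).1
    have a2 := (kp_mem h.tpos h.tle).1
    have a3 := k2_sq h.tpos h.tle
    have a4 := h.tle
    linarith only [hz, a1, a2, pi_lt_d2, sq_nonneg t, mul_nonneg_of_nonpos_of_nonpos (Mathlib.Tactic.Linarith.sub_nonpos_of_le (sq_nonneg t)) (Mathlib.Tactic.Linarith.sub_nonpos_of_le a2), mul_nonneg_of_nonpos_of_nonpos (Mathlib.Tactic.Linarith.sub_nonpos_of_le hz) (Mathlib.Tactic.Linarith.sub_nonpos_of_le a2)])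
  have l1 := k2_log h.tpos h.tle
  unfold Hk
  split_ifs with h1 h2
  · exact f (by linarith only [l1, h1])
  · rw [f (by linarith only [h2]), c0, min_self]
  · exact c0

theorem k2_gk {v : ℂ} (hv : 1 / 63 ≤ ‖v‖) : gk 1 v ≤ 1701 * exp (-3 * |v.re|) := by
  rcases le_total 1 ‖v‖ with h | h
  · rw [gk_eq_zero one_pos.le h]
    positivity
  · have h0 : 0 < ‖v‖ := by linarith only [hv]
    have a1 : gk 1 v ≤ 63 := by
      rw [gk_eq one_pos (norm_pos_iff.1 h0), max_eq_left h, Real.log_one, zero_sub, ← Real.log_inv]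
      have := Real.log_le_sub_one_of_pos (inv_pos.2 h0)
      have : ‖v‖⁻¹ ≤ 63 := by
        rw [inv_le_comm₀ h0 (by norm_num)]
        linarith only [hv]
      linarith
    have a2 : 1 ≤ exp 1 ^ 3 * exp (-3 * |v.re|) := by
      rw [← exp_nat_mul, ← exp_add]
      refine one_le_exp ?_
      push_cast
      linarith only [h, Complex.abs_re_le_norm v]
    have a3 : exp 1 ^ 3 ≤ 3 ^ 3 := pow_le_pow_left₀ (exp_pos _).le exp_one_lt_three.le 3
    have a4 := mul_le_mul_of_nonneg_right a3 (exp_pos (-3 * |v.re|)).le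
    linarith only [a1, a2, a4]

theorem k2_abs {H a b w E c : ℝ} (w0 : 0 < w) (w1 : w ≤ 1) (hH : |H| ≤ c * E) (a0 : 0 ≤ a)
    (b0 : 0 ≤ b) (a1 : a ≤ 1701 * E) (b1 : b ≤ 1701 * E) :
    |H + a - (1 + w) * b| ≤ (c + 5103) * E := by
  have h1 := abs_le.1 hH
  have h2 := mul_le_mul_of_nonneg_right w1 b0
  have h3 := mul_nonneg w0.le b0
  rw [abs_le]
  constructor <;> linarith only [a0, a1, b1, h1, h2, b0, h3, h1.1, h1.2]

theorem k2_near {C κ σ α γ : ℝ} {v : ℂ} (hκ : 62 ≤ κ) (hv : v ≠ 0) (h1 : |σ| ≤ 1) (h2 : |α - γ| ≤ 4)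
    (e1 : σ = -(κ * v.re)) (e2 : α - γ = -(κ * v.im))
    (h : (σ ≠ 0 ∨ α ≠ γ) → |Gs σ α γ + Real.log ‖(σ : ℂ) + (α - γ : ℝ) * Complex.I‖| ≤ C) :
    |Gs σ α γ + Real.log κ - gk 1 v| ≤ C := by
  have k0 : 0 < κ := by linarith
  have e : (σ : ℂ) + (α - γ : ℝ) * Complex.I = -(κ * v) := by
    rw [e2, e1]
    apply Complex.ext <;> simp
  have hne : σ ≠ 0 ∨ α ≠ γ := by
    by_contra hc
    push Not at hc
    rw [hc.1, hc.2] at e
    simp [k0.ne', hv] at e
  have n1 : ‖v‖ ≤ 1 := by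
    rw [e1, abs_neg, abs_mul, abs_of_pos k0] at h1
    rw [e2, abs_neg, abs_mul, abs_of_pos k0] at h2
    have a1 := mul_le_mul_of_nonneg_right hκ (abs_nonneg v.re)
    have a2 := mul_le_mul_of_nonneg_right hκ (abs_nonneg v.im)
    linarith only [h1, h2, a1, a2, Complex.norm_le_abs_re_add_abs_im v]
  have := h hne
  rw [e, norm_neg, norm_mul, Complex.norm_real, Real.norm_of_nonneg k0.le,
    Real.log_mul k0.ne' (norm_ne_zero_iff.2 hv)] at this
  rw [gk_eq one_pos hv, max_eq_left n1, Real.log_one, zero_sub, sub_neg_eq_add, add_assoc]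
  exact this

theorem KH.bound : ∃ C : ℝ, 0 < C ∧ ∀ (F : Frame) (μ t w : ℝ) (p z : ℂ), KH F μ t w p →
    -t ^ 2 < F.ht z → z ≠ p → z ≠ p - w * Complex.I →
    |Hk F t w p z + gk 1 (p - z) - (1 + w) * gk 1 (p - (z + w * Complex.I))| ≤
      C * exp (-3 * |p.re - z.re|) := by
  obtain ⟨C, C0, hC⟩ := k2_Ha
  obtain ⟨D, D0, hD⟩ := Gs_log
  refine ⟨C + 6 * D + 600 + 5103, by positivity, fun F μ t w p z h hz n1 n2 => ?_⟩
  have t0 := h.tpos
  have t1 := h.tle
  have w0 := h.wpos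
  have w1 : w ≤ 1 := h.wle.trans (pow_le_one₀ t0.le (by linarith only [t0, t1]))
  have l1 := k2_log t0 t1
  obtain ⟨k1, k2⟩ := kp_mem t0 t1
  obtain ⟨a1, a2, a3⟩ := h.a0
  have E0 := exp_pos (-3 * |p.re - z.re|)
  have r1 : (p - z).re = p.re - z.re := Complex.sub_re _ _
  have r2 : (p - (z + w * Complex.I)).re = p.re - z.re := by simp
  have far : ∀ H : ℝ, |H| ≤ (C + 6 * D + 600) * exp (-3 * |p.re - z.re|) → 1 / 63 ≤ ‖p - z‖ →
      1 / 63 ≤ ‖p - (z + w * Complex.I)‖ →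
      |H + gk 1 (p - z) - (1 + w) * gk 1 (p - (z + w * Complex.I))| ≤
        (C + 6 * D + 600 + 5103) * exp (-3 * |p.re - z.re|) := fun H hH b1 b2 =>
    k2_abs w0 w1 hH (gk_nonneg _ _) (gk_nonneg _ _) (r1 ▸ k2_gk b1) (r2 ▸ k2_gk b2)
  have c1 : |Hc F t w p z| ≤ 3 * exp (-3 * |p.re - z.re|) :=
    (h.k2_Hc hz).trans (by
      have := h.k2_exp' (z := z)
      gcongr
      linarith only [w1])
  have hCE := mul_pos C0 E0
  have hDE := mul_pos D0 E0
  by_cases h1 : |sg t p z| ≤ 1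
  · rw [Hk, if_pos h1]
    have h0 := (h.k2_al hz (by linarith only [t0, t1, l1, h1])).1
    have e0 : al F t p z - al F t p p = -(kp t * (p - z).im) := by
      simp only [al, Complex.sub_im]
      ring
    rcases le_total π (al F t p z) with c | c
    · have b1 : 1 / 63 ≤ -(p - z).im := by
        by_contra hc
        have := mul_le_mul_of_nonneg_left (not_le.1 hc).le (k2_pos t).le
        linarith only [t0, t1, k2, a2, e0, c, this, pi_gt_three]
      rw [Fk_eq_zero c]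
      refine far 0 (by rw [abs_zero]; positivity)
        (b1.trans ((neg_le_abs _).trans (Complex.abs_im_le_norm _)))
        (le_trans ?_ ((neg_le_abs _).trans (Complex.abs_im_le_norm _)))
      simp only [Complex.sub_im, Complex.add_im, Complex.mul_im, Complex.ofReal_re, Complex.I_im,
        Complex.ofReal_im, Complex.I_re] at b1 ⊢
      linarith only [w0, b1]
    · have kw := mul_pos (k2_pos t) w0
      have p4 := pi_le_four
      have b1 := k2_near (v := p - z) k1 (sub_ne_zero.2 n1.symm) h1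
        (abs_le.2 ⟨by linarith only [t0, t1, a2, h0], by linarith only [t0, t1, a1, c, p4]⟩) (by rw [sg, r1]; ring) e0
        (hD _ _ _ h1 h0 c (by linarith only [t0, t1, a1]) a2)
      have b2 := k2_near (v := p - (z + w * Complex.I)) (γ := al F t p p - kp t * w) k1
        (fun e => n2 (by linear_combination -e)) h1
        (abs_le.2 ⟨by linarith only [t0, t1, a2, h0, kw], by linarith only [t0, t1, a1, a3, c, p4]⟩) (by rw [sg, r2]; ring)
        (by simp [al]; ring) (hD _ _ _ h1 h0 c (by linarith only [a1, a3]) (by linarith only [a2, kw]))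
      have b3 := h.k2_lin h0
      have b4 : 0 ≤ Real.log (kp t) := Real.log_nonneg (by linarith only [t0, t1, k1])
      have b5 : Real.log (kp t) ≤ 62 := by linarith only [k2, Real.log_le_sub_one_of_pos (k2_pos t)]
      have b6 := mul_le_mul_of_nonneg_left (h.k2_half h1)
        (by positivity : 0 ≤ C + 6 * D + 600 + 5103)
      have b7 := mul_le_mul w1 b5 b4 one_pos.le
      have b8 := mul_nonneg w0.le b4
      have b9 := mul_le_mul w1 t1 t0.le one_pos.le
      have d1 := mul_le_mul_of_nonneg_left (abs_le.1 b2).1 w0.le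
      have d2 := mul_le_mul_of_nonneg_left (abs_le.1 b2).2 w0.le
      have d3 := mul_le_mul_of_nonneg_right w1 D0.le
      rw [min_eq_left c] at b3
      rw [Fk, min_eq_left c, Ha, abs_le]
      constructor <;> linarith only [C0, t0, t1, b3, b6, b7, d1, d3, b1, b2, b8, b9, d2, b3.1, b3.2, (abs_le.1 b1).1, (abs_le.1 b1).2, (abs_le.1 b2).1,
        (abs_le.1 b2).2]
  · have b1 : 1 / 63 ≤ |p.re - z.re| := by
      have := mul_le_mul_of_nonneg_right k2 (abs_nonneg (p.re - z.re))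
      rw [k2_sg] at h1
      linarith only [h1, this, not_le.1 h1]
    refine far _ ?_ (b1.trans (r1 ▸ Complex.abs_re_le_norm _))
      (b1.trans (r2 ▸ Complex.abs_re_le_norm _))
    rw [Hk, if_neg h1]
    split_ifs with h2
    · have h0 := (h.k2_al hz (by linarith only [t0, t1, h2])).1
      have b2 := hC F μ t w p z h h0 (Or.inl (by linarith only [t0, t1, h1, not_le.1 h1]))
      have b3 : C * w * sin (min (al F t p z) π) * exp (-|sg t p z|) ≤
          C * 1 * 1 * exp (-3 * |p.re - z.re|) := by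
        have := h.k2_exp' (z := z)
        have := sin_le_one (min (al F t p z) π)
        have := sin_nonneg_of_nonneg_of_le_pi (le_min h0 pi_pos.le) (min_le_right (al F t p z) π)
        gcongr
      have b4 : t ≤ exp (-3 * |p.re - z.re|) := by
        refine le_trans ?_ h.k2_exp
        rw [← Real.log_le_iff_le_exp t0]
        linarith only [h2]
      have b5 := h.k2_lin h0
      have b6 := mul_le_mul_of_nonneg_right w1 t0.le
      have b7 := abs_le.1 (b2.trans b3)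
      rcases min_choice (Fk F t w p z) (Hc F t w p z) with e | e <;> rw [e]
      · rw [abs_le]
        constructor <;> linarith only [E0, hDE, b5, b7, b4, b6, b5.1, b5.2, b7.1, b7.2]
      · linarith only [E0, c1, hCE, hDE]
    · linarith only [E0, c1, hCE, hDE]

theorem k2_meas_lg {X : Type} [MeasurableSpace X] {f g : X → ℝ} (hf : Measurable f)
    (hg : Measurable g) : Measurable fun x => lg (f x) (g x) := by
  unfold lg
  fun_prop

theorem measurable_Hk (F : Frame) (t w : ℝ) : Measurable fun q : ℂ × ℂ => Hk F t w q.1 q.2 := by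
  have hφ := F.continuous_φ
  have hh := F.continuous_ht
  have m1 : Measurable fun q : ℂ × ℂ => sg t q.1 q.2 := by
    unfold sg
    fun_prop
  have m2 : Measurable fun q : ℂ × ℂ => min (al F t q.1 q.2) π := by
    unfold al
    fun_prop
  have m3 : Measurable fun q : ℂ × ℂ => al F t q.1 q.1 := by
    unfold al
    fun_prop
  have m4 : Measurable fun q : ℂ × ℂ => Fk F t w q.1 q.2 :=
    (((k2_meas_lg m1 (m2.add m3)).sub (k2_meas_lg m1 (m2.sub m3))).neg.add
      (((k2_meas_lg m1 (m2.add (m3.sub_const _))).sub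
        (k2_meas_lg m1 (m2.sub (m3.sub_const _)))).const_mul _)).add
      ((m2.const_sub π).const_mul _)
  have m5 : Measurable fun q : ℂ × ℂ => Hc F t w q.1 q.2 := by
    unfold Hc qf ta
    fun_prop
  exact Measurable.ite (measurableSet_le m1.abs measurable_const) m4
    (Measurable.ite (measurableSet_le m1.abs measurable_const) (m4.min m5) m5)

end

end Pool.Agent.MinMod.Mo
end

-- merged part: Pool.Agent.Work.MP_f62247_an.Mo.K3
section
/-!
# The two parts of the kernel are superharmonic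
`lg s θ = log ‖1 - exp (s + i θ)‖` is continuous at `(s, θ)` unless `s = 0` and `θ ∈ 2πℤ`. For `sg = 0` one has `z.re = p.re`, `0 < min al π ≤ π`, and `min al π ± γ ∈ 2πℤ` (with `γ = a0` or `a0 - κ w`, both in `[1/200, 1/10]`) forces `al = γ`, i.e. `z = p` or `z = p - w I`.
`Fk_loc`: if `al < π`, near `z` the function `Fk` is a sum of terms `log ‖1 - exp (κ (ζ - q))‖` with `q` fixed (`ca_log_norm` on small discs) and of an affine function of `ζ.im` (`ca_re`); if `al > π` it vanishes near `z`; if `al = π` then `Fk z = 0` and `Fk ≤ 0` near `z` (`Fk_nonpos`).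
`Hc_loc`: near `z` the sign of `sg` is constant. If `ta > 0`: `locSub_of_lap` for `f x y = E x * q (κ (1/20 - t² - y + φ x))`, `E x = exp (a (x - p.re) + 11/10)`, `a = ∓ 11/10 κ`, `q τ = sin (1.1 τ) + τ²/2000`;
`fxx + fyy = E κ² (1.21 q + q'' + (2 (a/κ) φ1 + φ2/κ) q' + φ1² q'')`, `1.21 q + q'' ≥ 1/1000`, `|q'|, |q''| ≤ 2` for `0 ≤ τ ≤ 4`. If `ta < 0` it vanishes near `z`; if `ta = 0` then `Hc z = 0` and `qf ≥ 0` on `(-∞, 1]`.
-/

open Real MeasureTheory Set Filter Topology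

namespace Pool.Agent.MinMod.Mo

noncomputable section

variable {F : Frame} {μ t w : ℝ} {p z : ℂ}

theorem continuous_Hc (F : Frame) (t w : ℝ) (p : ℂ) : Continuous (Hc F t w p) := by
  have hh := F.continuous_ht
  unfold Hc qf ta sg
  fun_prop

theorem k3_ne {s θ : ℝ} (h : s ≠ 0 ∨ (θ ≠ 0 ∧ |θ| < 2 * π)) :
    1 - Complex.exp (s + θ * Complex.I) ≠ 0 := by
  intro h0
  rw [sub_eq_zero, eq_comm, Complex.exp_eq_one_iff] at h0
  obtain ⟨n, hn⟩ := h0
  have h1 := congrArg Complex.re hn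
  have h2 := congrArg Complex.im hn
  simp at h1 h2
  rcases h with h | ⟨h3, h4⟩
  · exact h h1
  · have h5 : n ≠ 0 := by
      rintro rfl
      simp at h2
      exact h3 h2
    have h6 : (1 : ℝ) ≤ |(n : ℝ)| := by exact_mod_cast Int.one_le_abs h5
    rw [h2, abs_mul, abs_of_pos two_pi_pos] at h4
    linarith only [h4, h6, pi_pos, mul_nonneg_of_nonpos_of_nonpos (Mathlib.Tactic.Linarith.sub_nonpos_of_le h6) (le_of_lt (Mathlib.Tactic.Linarith.sub_neg_of_lt pi_pos))]

theorem KH.k3_nz (h : KH F μ t w p) (hz : -t ^ 2 < F.ht z) (h1 : z ≠ p)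
    (h2 : z ≠ p - w * Complex.I) {γ : ℝ} (hγ : γ = al F t p p ∨ γ = al F t p p - kp t * w) :
    1 - Complex.exp (sg t p z + (min (al F t p z) π + γ : ℝ) * Complex.I) ≠ 0 ∧
      1 - Complex.exp (sg t p z + (min (al F t p z) π - γ : ℝ) * Complex.I) ≠ 0 := by
  by_cases hs : sg t p z = 0
  swap
  · exact ⟨k3_ne (Or.inl hs), k3_ne (Or.inl hs)⟩
  obtain ⟨a1, a2, a3⟩ := h.a0
  have k0 := k2_pos t
  have kw := mul_pos k0 h.wpos
  have p3 := pi_gt_three
  have e1 : z.re = p.re := sub_eq_zero.1 ((mul_eq_zero.1 hs).resolve_left k0.ne')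
  have b1 : 0 < al F t p z := by
    refine mul_pos k0 ?_
    rw [Frame.ht, e1] at hz
    linarith only [hz, sq_nonneg t]
  have b2 : 0 < min (al F t p z) π := lt_min b1 pi_pos
  have b3 := min_le_right (al F t p z) π
  have g1 : 0 < γ ∧ γ ≤ 1 / 10 := by
    rcases hγ with rfl | rfl <;> constructor <;> linarith only [a1, a3, kw, a2]
  refine ⟨k3_ne (Or.inr ⟨by linarith only [b2, g1, g1.1], abs_lt.2 ⟨by linarith only [a3, kw, p3, b2, g1, g1.1], by linarith only [a3, kw, p3, b3, g1, g1.2]⟩⟩),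
    k3_ne (Or.inr ⟨fun h0 => ?_, abs_lt.2 ⟨by linarith only [a3, kw, p3, b2, g1, g1.2], by linarith only [a3, kw, p3, b3, g1, g1.1]⟩⟩)⟩
  have e2 : al F t p z = γ := by
    rcases min_choice (al F t p z) π with e | e <;> linarith only [h0, e, a3, kw, p3, g1, g1.2]
  rcases hγ with e | e
  · refine h1 (Complex.ext e1 ?_)
    have : kp t * z.im = kp t * p.im := by
      simp only [al] at e e2
      linarith only [e2, e]
    exact mul_left_cancel₀ k0.ne' this
  · refine h2 (Complex.ext (by simpa using e1) ?_)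
    have : kp t * z.im = kp t * (p.im - w) := by
      simp only [al] at e e2
      linarith only [e2, e]
    simpa using mul_left_cancel₀ k0.ne' this

theorem k3_lgc {f g : ℂ → ℝ} (hf : Continuous f) (hg : Continuous g)
    (h : 1 - Complex.exp (f z + g z * Complex.I) ≠ 0) :
    ContinuousAt (fun ζ => lg (f ζ) (g ζ)) z := by
  have h1 : Continuous fun ζ => ‖1 - Complex.exp (f ζ + g ζ * Complex.I)‖ := by fun_prop
  exact h1.continuousAt.log (norm_ne_zero_iff.2 h)

theorem k3_sg (t : ℝ) (p : ℂ) : Continuous (sg t p) := by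
  unfold sg
  fun_prop

theorem k3_al (F : Frame) (t : ℝ) (p : ℂ) : Continuous (al F t p) := by
  unfold al
  fun_prop

theorem k3_ta (F : Frame) (t : ℝ) : Continuous (ta F t) := by
  have hh := F.continuous_ht
  unfold ta
  fun_prop

theorem KH.continuousAt_Fk (h : KH F μ t w p) (hz : -t ^ 2 < F.ht z) (h1 : z ≠ p)
    (h2 : z ≠ p - w * Complex.I) : ContinuousAt (Fk F t w p) z := by
  have m1 := k3_sg t p
  have m2 : Continuous fun ζ => min (al F t p ζ) π := (k3_al F t p).min continuous_const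
  have n1 := h.k3_nz hz h1 h2 (Or.inl rfl)
  have n2 := h.k3_nz hz h1 h2 (Or.inr rfl)
  exact (((k3_lgc m1 (m2.add continuous_const) n1.1).sub
    (k3_lgc m1 (m2.sub continuous_const) n1.2)).neg.add
      (continuousAt_const.mul ((k3_lgc m1 (m2.add continuous_const) n2.1).sub
        (k3_lgc m1 (m2.sub continuous_const) n2.2)))).add
      (continuous_const.mul (continuous_const.sub m2)).continuousAt

theorem k3_loc {f : ℂ → ℝ} (h : InnerProductSpace.HarmonicAt f z) : LocSub f z := by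
  obtain ⟨r, hr, hb⟩ := Metric.eventually_nhds_iff_ball.1 h.eventually
  refine ⟨r, hr, fun s h0 hs => le_of_eq (Eq.symm ?_)⟩
  refine InnerProductSpace.HarmonicOnNhd.circleAverage_eq fun v hv => hb v ?_
  rw [abs_of_pos h0] at hv
  exact Metric.closedBall_subset_ball hs hv

theorem k3_zero (z : ℂ) : LocSub (fun _ => 0) z :=
  k3_loc (InnerProductSpace.harmonicAt_const 0)

theorem k3_lgh {c : ℝ}
    (h : 1 - Complex.exp (sg t p z + (al F t p z + c : ℝ) * Complex.I) ≠ 0) :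
    InnerProductSpace.HarmonicAt (fun ζ => lg (sg t p ζ) (al F t p ζ + c)) z := by
  have e : ∀ ζ : ℂ, (sg t p ζ : ℂ) + (al F t p ζ + c : ℝ) * Complex.I =
      kp t * ζ + (sg t p 0 + (al F t p 0 + c : ℝ) * Complex.I) := fun ζ => by
    apply Complex.ext
    · simp [sg, al, -Complex.ofReal_pow]
      ring
    · simp [sg, al, -Complex.ofReal_pow]
      ring
  rw [e] at h
  simp only [lg]
  rw [show (fun ζ => Real.log ‖1 - Complex.exp (sg t p ζ + (al F t p ζ + c : ℝ) * Complex.I)‖) =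
    fun ζ => Real.log ‖1 - Complex.exp (kp t * ζ + (sg t p 0 + (al F t p 0 + c : ℝ) * Complex.I))‖
    from funext fun ζ => by rw [e ζ]]
  exact AnalyticAt.harmonicAt_log_norm (f := fun ζ => 1 - Complex.exp (kp t * ζ +
    (sg t p 0 + (al F t p 0 + c : ℝ) * Complex.I))) (by fun_prop) h

theorem k3_alh (F : Frame) (t : ℝ) (p z : ℂ) : InnerProductSpace.HarmonicAt (al F t p) z := by
  have e : al F t p = fun ζ : ℂ => (kp t * ζ + (al F t p 0 : ℝ) * Complex.I).im := by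
    funext ζ
    simp [al, -Complex.ofReal_pow]
    ring
  rw [e]
  exact AnalyticAt.harmonicAt_im (by fun_prop)

theorem KH.Fk_loc (h : KH F μ t w p) (hz : -t ^ 2 < F.ht z) (h1 : z ≠ p)
    (h2 : z ≠ p - w * Complex.I) (hs : |sg t p z| < 2 ∨ al F t p z < π) :
    LocSub (fun ζ => -Fk F t w p ζ) z := by
  have m1 := k3_sg t p
  have m2 := k3_al F t p
  rcases lt_or_ge (al F t p z) π with c | c
  · have n1 := h.k3_nz hz h1 h2 (Or.inl rfl)
    have n2 := h.k3_nz hz h1 h2 (Or.inr rfl)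
    rw [min_eq_left c.le, sub_eq_add_neg (al F t p z)] at n1 n2
    have H := ((((k3_lgh n1.1).sub (k3_lgh n1.2)).neg.add
      (((k3_lgh n2.1).sub (k3_lgh n2.2)).const_smul (c := 1 + w))).add
        (((InnerProductSpace.harmonicAt_const π).sub (k3_alh F t p z)).const_smul
          (c := w * kp t * t))).neg
    refine (k3_loc H).congr ?_
    filter_upwards [m2.continuousAt.eventually_lt continuousAt_const c] with ζ hζ
    simp only [Fk, Ha, Gs, min_eq_left hζ.le, sub_eq_add_neg, Pi.add_apply, Pi.neg_apply,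
      Pi.smul_apply, smul_eq_mul]
  · have s2 := hs.resolve_right (not_lt.2 c)
    refine (k3_zero z).of_le (by rw [Fk_eq_zero c, neg_zero]) ?_
      (Eventually.of_forall fun _ => continuousAt_const) ?_
    · filter_upwards [m1.abs.continuousAt.eventually_lt continuousAt_const s2,
        continuousAt_const.eventually_lt m2.continuousAt (pi_gt_three.trans_le c)] with ζ b1 b2
      exact neg_nonneg.2 (h.Fk_nonpos b1.le b2.le)
    · filter_upwards [continuousAt_const.eventually_lt F.continuous_ht.continuousAt hz,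
        eventually_ne_nhds h1, eventually_ne_nhds h2] with ζ b1 b2 b3
      exact (h.continuousAt_Fk b1 b2 b3).neg

/-- the profile and its two derivatives -/
def k3_q (τ : ℝ) : ℝ := sin (11 / 10 * τ) + τ ^ 2 / 2000

def k3_q1 (τ : ℝ) : ℝ := 11 / 10 * cos (11 / 10 * τ) + τ / 1000

def k3_q2 (τ : ℝ) : ℝ := -(121 / 100) * sin (11 / 10 * τ) + 1 / 1000

theorem k3_dq (τ : ℝ) : HasDerivAt k3_q (k3_q1 τ) τ := by
  have h := (((hasDerivAt_id τ).const_mul (11 / 10)).sin).add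
    ((hasDerivAt_pow 2 τ).div_const 2000)
  refine h.congr_deriv ?_
  simp only [k3_q1, id]
  push_cast
  ring

theorem k3_dq1 (τ : ℝ) : HasDerivAt k3_q1 (k3_q2 τ) τ := by
  have h := (((hasDerivAt_id τ).const_mul (11 / 10)).cos.const_mul (11 / 10)).add
    ((hasDerivAt_id τ).div_const 1000)
  refine h.congr_deriv ?_
  simp only [k3_q2, id]
  ring

theorem k3_lap (F : Frame) {c a b κ d : ℝ} (hc : 0 < c)
    (hp : 0 < a * a * k3_q (κ * (d - F.ht z)) +
      (2 * a * κ * F.φ1 z.re + κ * F.φ2 z.re) * k3_q1 (κ * (d - F.ht z)) +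
        κ ^ 2 * (F.φ1 z.re ^ 2 + 1) * k3_q2 (κ * (d - F.ht z))) :
    LocSub (fun ζ => c * exp (a * ζ.re + b) * k3_q (κ * (d - F.ht ζ))) z := by
  have c0 := F.continuous_φ
  have c1 : Continuous F.φ1 := continuous_iff_continuousAt.2 fun x => (F.dφ1 x).continuousAt
  have c2 := F.cφ2
  have dx : ∀ x y, HasDerivAt (fun x => κ * (d - (y - F.φ x))) (κ * F.φ1 x) x := fun x y => by
    simpa using (((F.dφ x).const_sub y).const_sub d).const_mul κ
  have dy : ∀ x y, HasDerivAt (fun y => κ * (d - (y - F.φ x))) (-κ) y := fun x y => by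
    simpa using (((hasDerivAt_id y).sub_const (F.φ x)).const_sub d).const_mul κ
  have dE : ∀ x, HasDerivAt (fun x => c * exp (a * x + b)) (c * exp (a * x + b) * a) x := fun x => by
    simpa [mul_assoc] using ((((hasDerivAt_id x).const_mul a).add_const b).exp).const_mul c
  refine locSub_of_lap (Ω := univ)
    (f := fun x y => c * exp (a * x + b) * k3_q (κ * (d - (y - F.φ x))))
    (fx := fun x y => c * exp (a * x + b) * (a * k3_q (κ * (d - (y - F.φ x))) +
      κ * F.φ1 x * k3_q1 (κ * (d - (y - F.φ x)))))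
    (fy := fun x y => c * exp (a * x + b) * (-κ * k3_q1 (κ * (d - (y - F.φ x)))))
    (fxx := fun x y => c * exp (a * x + b) * (a * a * k3_q (κ * (d - (y - F.φ x))) +
      (2 * a * κ * F.φ1 x + κ * F.φ2 x) * k3_q1 (κ * (d - (y - F.φ x))) +
        κ ^ 2 * F.φ1 x ^ 2 * k3_q2 (κ * (d - (y - F.φ x)))))
    (fyy := fun x y => c * exp (a * x + b) * (κ ^ 2 * k3_q2 (κ * (d - (y - F.φ x)))))
    isOpen_univ ?_ (fun ζ _ => ?_) (fun ζ _ => ?_) (fun ζ _ => ?_) (fun ζ _ => ?_) ?_ ?_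
    (mem_univ z) ?_
  · unfold k3_q
    fun_prop
  · refine ((dE ζ.re).mul ((k3_dq _).comp ζ.re (dx ζ.re ζ.im))).congr_deriv ?_
    simp only [Function.comp]
    ring
  · refine ((dE ζ.re).mul ((((k3_dq _).comp ζ.re (dx ζ.re ζ.im)).const_mul a).add
      (((F.dφ1 ζ.re).const_mul κ).mul ((k3_dq1 _).comp ζ.re (dx ζ.re ζ.im))))).congr_deriv ?_
    simp only [Function.comp, Pi.add_apply, Pi.mul_apply]
    ring
  · refine (((k3_dq _).comp ζ.im (dy ζ.re ζ.im)).const_mul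
      (c * exp (a * ζ.re + b))).congr_deriv ?_
    ring
  · refine ((((k3_dq1 _).comp ζ.im (dy ζ.re ζ.im)).const_mul (-κ)).const_mul
      (c * exp (a * ζ.re + b))).congr_deriv ?_
    ring
  · unfold k3_q k3_q1 k3_q2
    fun_prop
  · unfold k3_q2
    fun_prop
  · have := mul_pos (mul_pos hc (exp_pos (a * z.re + b))) hp
    simp only [Frame.ht] at this
    linarith only [this]

theorem k3_pos {e κ τ f g : ℝ} (he : |e| = 11 / 10) (hκ : 62 ≤ κ) (h0 : 0 ≤ τ) (h1 : τ ≤ 4)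
    (hf : |f| ≤ 1 / 100000) (hg : |g| ≤ 1 / 100000) :
    0 < e * κ * (e * κ) * k3_q τ + (2 * (e * κ) * κ * f + κ * g) * k3_q1 τ +
      κ ^ 2 * (f ^ 2 + 1) * k3_q2 τ := by
  have q1 : |k3_q1 τ| ≤ 2 := by
    have := neg_one_le_cos (11 / 10 * τ)
    have := cos_le_one (11 / 10 * τ)
    rw [k3_q1, abs_le]
    constructor <;> linarith
  have q2 : -2 ≤ k3_q2 τ := by
    have := sin_le_one (11 / 10 * τ)
    rw [k3_q2]
    linarith only [this]
  have e2 : e * e = 121 / 100 := by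
    rw [← abs_mul_abs_self, he]
    norm_num
  have a1 : 1 / 1000 ≤ e * e * k3_q τ + k3_q2 τ := by
    rw [e2, k3_q, k3_q2]
    linarith only [sq_nonneg τ]
  have a2 : |e * f * k3_q1 τ| ≤ 11 / 10 * (1 / 100000) * 2 := by
    rw [abs_mul, abs_mul, he]
    gcongr
  have a3 : |g * k3_q1 τ| ≤ 1 / 100000 * 2 := by
    rw [abs_mul]
    gcongr
  have a4 : f ^ 2 ≤ (1 / 100000) ^ 2 := sq_le_sq' (abs_le.1 hf).1 (abs_le.1 hf).2
  have a5 := mul_le_mul_of_nonneg_left q2 (sq_nonneg f)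
  have a6 : 1 / 2000 ≤ e * e * k3_q τ + k3_q2 τ + 2 * (e * f * k3_q1 τ) + f ^ 2 * k3_q2 τ := by
    linarith only [a1, a4, a5, a2, (abs_le.1 a2).1]
  have a7 := mul_le_mul hκ a6 (by norm_num) (by linarith only [hκ])
  have a8 := mul_pos (by linarith only [hκ] : 0 < κ) (by linarith only [a7, a3, (abs_le.1 a3).1] : 0 < κ *
    (e * e * k3_q τ + k3_q2 τ + 2 * (e * f * k3_q1 τ) + f ^ 2 * k3_q2 τ) + g * k3_q1 τ)
  linarith only [a8]

theorem KH.Hc_loc (h : KH F μ t w p) (hz : -t ^ 2 < F.ht z) (hs : sg t p z ≠ 0) :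
    LocSub (fun ζ => -Hc F t w p ζ) z := by
  have m1 := k3_sg t p
  have m2 := k3_ta F t
  have k0 := k2_pos t
  have w0 := h.wpos
  rcases le_or_gt (ta F t z) 0 with c | c
  · refine (k3_zero z).of_le (by rw [Hc_eq_zero c, neg_zero]) ?_
      (Eventually.of_forall fun _ => continuousAt_const)
      (Eventually.of_forall fun _ => (continuous_Hc F t w p).neg.continuousAt)
    filter_upwards [m2.continuousAt.eventually_lt continuousAt_const (c.trans_lt one_pos)] with ζ b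
    have b1 := le_max_right (ta F t ζ) 0
    have b2 : max (ta F t ζ) 0 ≤ 1 := max_le b.le one_pos.le
    have b3 := sin_nonneg_of_nonneg_of_le_pi (x := 11 / 10 * max (ta F t ζ) 0) (by positivity)
      (by linarith only [b2, pi_gt_three])
    have b4 : 0 ≤ qf (ta F t ζ) := add_nonneg b3 (by positivity)
    rw [Hc, neg_neg]
    positivity
  · obtain ⟨e, he, hn⟩ : ∃ e : ℝ, |e| = 11 / 10 ∧
        ∀ᶠ ζ in 𝓝 z, -(11 / 10) * |sg t p ζ| = e * sg t p ζ := by
      rcases hs.lt_or_gt with s | s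
      · refine ⟨11 / 10, abs_of_pos (by norm_num), ?_⟩
        filter_upwards [m1.continuousAt.eventually_lt continuousAt_const s] with ζ b
        rw [abs_of_neg b]
        ring
      · refine ⟨-(11 / 10), by rw [abs_neg, abs_of_pos (by norm_num)], ?_⟩
        filter_upwards [continuousAt_const.eventually_lt m1.continuousAt s] with ζ b
        rw [abs_of_pos b]
    have u1 : μ ≤ 1 / 100000 := by
      have := h.mu.trans (k2_pow h.tpos h.tle (by norm_num : 2 ≤ 18))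
      linarith only [this, h, k2_sq h.tpos h.tle, h.tle]
    have H := k3_lap F (z := z) (c := w * kp t / 200) (a := e * kp t)
      (b := 11 / 10 - e * kp t * p.re) (κ := kp t) (d := 1 / 20 - t ^ 2) (by positivity)
      (k3_pos he (kp_mem h.tpos h.tle).1 c.le ((ta_lt h.tpos hz).le.trans pi_le_four)
        ((h.good z.re).2.2.1.trans u1) ((h.good z.re).2.2.2.trans u1))
    refine H.congr ?_
    filter_upwards [hn, continuousAt_const.eventually_lt m2.continuousAt c] with ζ b1 b2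
    have e1 : -(11 / 10) * (|sg t p ζ| - 1) = e * kp t * ζ.re + (11 / 10 - e * kp t * p.re) := by
      rw [mul_sub, b1, sg]
      ring
    rw [Hc, neg_neg, e1, qf, max_eq_left b2.le]
    rfl

end

end Pool.Agent.MinMod.Mo
end
end
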