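import Pool.Agent.Work.MP_f62247_an.Mo.B4
import Pool.Agent.Work.MP_f62247_an.Mo.K3

-- merged part: Pool.Agent.Work.MP_f62247_an.Mo.C1
section
/-!
# Green function of a disc and Green potentials
`dd c r z = r² - ‖z - c‖²`. Identity: `‖r² - (z-c) conj (w-c)‖² = r² ‖z-w‖² + dd z * dd w`, so `Gd = log ‖r² - (z-c) conj (w-c)‖ - log r - log ‖z-w‖` for `z ≠ w`; the first term is the log of the norm of a zero free analytic function of `z` on the
closed disc when `‖w - c‖ < r` (`ca_log_norm`, `ca_log`, `gk_eq`). `log (1+t) ≤ t`, `log (1+t) ≥ t/2` for `0 ≤ t ≤ 1`, `‖r² - ..‖ ≤ 2 r²`.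
Potentials: `Gd ≤ log 4 + lp (re z - re ζ)` a.e. (`gk_le_lp_re`, `ae_re_ne`, `int_posLog_re`) gives integrability, also jointly on circle × plane (Fubini for `gp_ca`) and ball × plane (`gp_avg`: `∫_{ball z 1} Gd(·, w) ≤ π log 4 + π/2`).
`gp_md`: the first term is Lipschitz in `z` on the closed disc with constant `≤ 4 / h0` (`‖r² - (z-c) conj (w-c)‖ ≥ r (r - ‖w-c‖) ≥ h0 / 4`), and
`|log ‖z-w‖ - log ‖z'-w‖| ≤ ‖z - z'‖ / ϵ + posLog (ϵ/|re z - re w|) + posLog (ϵ/|re z' - re w|)` (truncate at `ϵ`).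
-/

open Real MeasureTheory Set Filter Topology

namespace Pool.Agent.MinMod.Mo

noncomputable section

def dd (c : ℂ) (r : ℝ) (z : ℂ) : ℝ := r ^ 2 - ‖z - c‖ ^ 2

def Gd (c : ℂ) (r : ℝ) (z w : ℂ) : ℝ :=
  1 / 2 * Real.log (1 + dd c r z * dd c r w / (r ^ 2 * ‖z - w‖ ^ 2))

/-- Green potential of the density `f` on `E`, moved by `τ` -/
def gp (c : ℂ) (r : ℝ) (E : Set ℂ) (f : ℂ → ℝ) (τ : ℂ → ℂ) (z : ℂ) : ℝ :=
  ∫ ζ in E, f ζ * Gd c r z (τ ζ)

structure GpH (c : ℂ) (r h0 Kf : ℝ) (E : Set ℂ) (f : ℂ → ℝ) (τ : ℂ → ℂ) : Prop where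
  r1 : 1 ≤ r
  r2 : r ≤ 2
  hpos : 0 < h0
  mE : MeasurableSet E
  sub : E ⊆ Metric.ball c 3
  mf : Measurable f
  f0 : ∀ ζ ∈ E, 0 ≤ f ζ
  fK : ∀ ζ ∈ E, f ζ ≤ Kf
  K0 : 0 ≤ Kf
  mτ : Measurable τ
  re : ∀ ζ, (τ ζ).re = ζ.re
  ins : ∀ ζ ∈ E, h0 ≤ dd c r (τ ζ)

variable {c : ℂ} {r h0 Kf : ℝ} {E : Set ℂ} {f : ℂ → ℝ} {τ : ℂ → ℂ} {z w : ℂ}

theorem c1_dd (hz : ‖z - c‖ ≤ r) : 0 ≤ dd c r z :=
  sub_nonneg.2 (pow_le_pow_left₀ (norm_nonneg _) hz 2)

theorem c1_lt (hr : 0 < r) (h : 0 < dd c r w) : ‖w - c‖ < r :=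
  lt_of_pow_lt_pow_left₀ 2 hr.le (sub_pos.1 h)

theorem c1_low (hz : ‖z - c‖ ≤ r) (w : ℂ) :
    r * (r - ‖w - c‖) ≤ ‖(r : ℂ) ^ 2 - (z - c) * starRingEnd ℂ (w - c)‖ := by
  refine le_trans ?_ (norm_sub_norm_le _ _)
  rw [norm_pow, Complex.norm_real, Real.norm_eq_abs, sq_abs, norm_mul, Complex.norm_conj]
  linarith [mul_le_mul_of_nonneg_right hz (norm_nonneg (w - c))]

theorem c1_eq (hr : 0 < r) (hz : ‖z - c‖ ≤ r) (hw : ‖w - c‖ < r) (hne : z ≠ w) : Gd c r z w =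
    Real.log ‖(r : ℂ) ^ 2 - (z - c) * starRingEnd ℂ (w - c)‖ - Real.log r - Real.log ‖z - w‖ := by
  have h1 := (mul_pos hr (sub_pos.2 hw)).trans_le (c1_low hz w)
  have h2 := norm_pos_iff.2 (sub_ne_zero.2 hne)
  have h3 : ‖(r : ℂ) ^ 2 - (z - c) * starRingEnd ℂ (w - c)‖ ^ 2 =
      r ^ 2 * ‖z - w‖ ^ 2 + dd c r z * dd c r w := by
    simp only [dd, Complex.sq_norm, Complex.normSq_apply]
    simp [sq]
    ring
  rw [Gd, one_add_div (by positivity), ← h3, ← mul_pow, ← div_pow, Real.log_pow,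
    Real.log_div h1.ne' (by positivity), Real.log_mul hr.ne' h2.ne']
  push_cast
  ring

theorem c1_gk {s : ℝ} (hs : 0 ≤ s) {v : ℂ} (hv : v.re ≠ 0) : gk s v ≤ Real.posLog (s / |v.re|) :=
  Real.posLog_le_posLog (by positivity)
    (div_le_div_of_nonneg_left hs (abs_pos.2 hv) (Complex.abs_re_le_norm v))

theorem c1_log {m a b : ℝ} (hm : 0 < m) (ha : m ≤ a) (hb : m ≤ b) :
    |Real.log a - Real.log b| ≤ |a - b| / m := by
  have key : ∀ a b : ℝ, m ≤ a → m ≤ b → Real.log a - Real.log b ≤ |a - b| / m := fun a b ha hb => by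
    have h1 := hm.trans_le ha
    have h2 := hm.trans_le hb
    rw [← Real.log_div h1.ne' h2.ne']
    refine (Real.log_le_sub_one_of_pos (div_pos h1 h2)).trans ?_
    rw [div_sub_one h2.ne']
    exact div_le_div₀ (abs_nonneg _) (le_abs_self _) hm hb
  exact abs_sub_le_iff.2 ⟨key a b ha hb, abs_sub_comm a b ▸ key b a hb ha⟩

theorem c1_meas {α : Type} [MeasurableSpace α] {a b : α → ℂ} (ha : Measurable a)
    (hb : Measurable b) : Measurable fun x => Gd c r (a x) (b x) := by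
  unfold Gd dd
  fun_prop

theorem c1_vol (c : ℂ) {R : ℝ} (hR : 0 ≤ R) : volume.real (Metric.ball c R) = π * R ^ 2 := by
  simp [Measure.real, Complex.volume_ball, hR, mul_comm]

theorem c1_dom (h : GpH c r h0 Kf E f τ) {g : ℂ → ℝ} (hg : Measurable g) {a ϵ : ℝ} (ha : 0 ≤ a)
    (hϵ : 0 < ϵ) (x x' : ℝ) (hb : ∀ ζ ∈ E, ζ.re ≠ x → ζ.re ≠ x' →
      |g ζ| ≤ a + Real.posLog (ϵ / |ζ.re - x|) + Real.posLog (ϵ / |ζ.re - x'|)) :
    IntegrableOn (fun ζ => f ζ * g ζ) E ∧ |∫ ζ in E, f ζ * g ζ| ≤ (36 * a + 24 * ϵ) * Kf := by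
  obtain ⟨i1, j1⟩ := int_posLog_re c three_pos hϵ x
  obtain ⟨i2, j2⟩ := int_posLog_re c three_pos hϵ x'
  have i0 : IntegrableOn (fun _ : ℂ => a) (Metric.ball c 3) :=
    integrableOn_const measure_ball_lt_top.ne
  have i3 : IntegrableOn (fun ζ : ℂ => Kf * (a + Real.posLog (ϵ / |ζ.re - x|) +
      Real.posLog (ϵ / |ζ.re - x'|))) (Metric.ball c 3) := ((i0.add i1).add i2).const_mul Kf
  have b : ∀ᵐ ζ ∂volume.restrict E, ‖f ζ * g ζ‖ ≤ Kf * (a + Real.posLog (ϵ / |ζ.re - x|) +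
      Real.posLog (ϵ / |ζ.re - x'|)) := by
    filter_upwards [ae_restrict_mem h.mE, ae_restrict_of_ae (ae_re_ne x),
      ae_restrict_of_ae (ae_re_ne x')] with ζ h1 h2 h3
    rw [Real.norm_eq_abs, abs_mul, abs_of_nonneg (h.f0 ζ h1)]
    exact mul_le_mul (h.fK ζ h1) (hb ζ h1 h2 h3) (abs_nonneg _) h.K0
  refine ⟨(i3.mono_set h.sub).mono' (h.mf.mul hg).aestronglyMeasurable b,
    (norm_integral_le_of_norm_le (i3.mono_set h.sub) b).trans ((setIntegral_mono_set i3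
      (Eventually.of_forall fun ζ => mul_nonneg h.K0 (add_nonneg (add_nonneg ha Real.posLog_nonneg)
        Real.posLog_nonneg)) h.sub.eventuallyLE).trans ?_)⟩
  rw [integral_const_mul, integral_add (f := fun ζ : ℂ => a + Real.posLog (ϵ / |ζ.re - x|))
    (i0.add i1) i2, integral_add i0 i1, setIntegral_const, c1_vol c three_pos.le, smul_eq_mul,
    mul_comm Kf]
  refine mul_le_mul_of_nonneg_right ?_ h.K0
  linarith only [j1, j2, ha, mul_le_mul_of_nonneg_right Real.pi_le_four ha]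

theorem Gd_nonneg (hz : 0 ≤ dd c r z) (hw : 0 ≤ dd c r w) : 0 ≤ Gd c r z w :=
  mul_nonneg (by norm_num) (Real.log_nonneg (le_add_of_nonneg_right (by positivity)))

theorem Gd_le_lin (hz : 0 ≤ dd c r z) (hw : 0 ≤ dd c r w) :
    Gd c r z w ≤ dd c r z * dd c r w / (2 * r ^ 2 * ‖z - w‖ ^ 2) := by
  have := Real.log_le_sub_one_of_pos
    (by positivity : 0 < 1 + dd c r z * dd c r w / (r ^ 2 * ‖z - w‖ ^ 2))
  rw [mul_assoc 2, mul_comm 2, ← div_div, Gd]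
  linarith only [this]

theorem Gd_ge_lin (hz : 0 ≤ dd c r z) (hw : 0 ≤ dd c r w)
    (h : dd c r z * dd c r w ≤ r ^ 2 * ‖z - w‖ ^ 2) :
    dd c r z * dd c r w / (4 * r ^ 2 * ‖z - w‖ ^ 2) ≤ Gd c r z w := by
  have h1 : 0 ≤ dd c r z * dd c r w / (r ^ 2 * ‖z - w‖ ^ 2) := by positivity
  have h2 := div_le_one_of_le₀ h (by positivity)
  have h3 := Real.le_log_one_add_of_nonneg h1
  rw [mul_assoc 4, mul_comm 4, ← div_div, Gd]
  generalize dd c r z * dd c r w / (r ^ 2 * ‖z - w‖ ^ 2) = x at h1 h2 h3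
  have : x / 2 ≤ 2 * x / (x + 2) := by
    rw [div_le_div_iff₀ two_pos (by positivity)]
    linarith only [h1, h2, mul_nonneg_of_nonpos_of_nonpos (Mathlib.Tactic.Linarith.sub_nonpos_of_le h1) (Mathlib.Tactic.Linarith.sub_nonpos_of_le h2)]
  linarith only [h3, this]

theorem Gd_le_log (hr : 0 < r) (hr2 : r ≤ 2) (hz : 0 ≤ dd c r z) (hw : 0 ≤ dd c r w) :
    Gd c r z w ≤ gk 1 (w - z) + 2 := by
  rcases eq_or_ne z w with rfl | hne
  · simp [Gd, gk]
  have h0 := norm_pos_iff.2 (sub_ne_zero.2 hne)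
  have h1 : dd c r z * dd c r w ≤ r ^ 2 * 4 :=
    mul_le_mul (sub_le_self _ (sq_nonneg _)) ((sub_le_self _ (sq_nonneg _)).trans (by linarith only [hr2, hr, mul_nonneg_of_nonpos_of_nonpos (le_of_lt (Mathlib.Tactic.Linarith.sub_neg_of_lt hr)) (Mathlib.Tactic.Linarith.sub_nonpos_of_le hr2)]))
      hw (sq_nonneg _)
  have h2 : dd c r z * dd c r w / (r ^ 2 * ‖z - w‖ ^ 2) ≤ 4 * (1 / ‖z - w‖) ^ 2 := by
    rw [div_le_iff₀ (by positivity)]
    exact h1.trans_eq (by field_simp)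
  have h3 := pow_le_pow_left₀ (by positivity) (le_max_right 1 (1 / ‖z - w‖)) 2
  have h4 := one_le_pow₀ (n := 2) (le_max_left 1 (1 / ‖z - w‖))
  have h5 := Real.log_le_log (by positivity)
    (by linarith only [h2, h3, h4] : 1 + dd c r z * dd c r w / (r ^ 2 * ‖z - w‖ ^ 2) ≤ 5 * max 1 (1 / ‖z - w‖) ^ 2)
  have h6 := Real.log_le_sub_one_of_pos (by norm_num : (0 : ℝ) < 5)
  rw [Real.log_mul (by norm_num) (by positivity), Real.log_pow] at h5
  rw [Gd, gk, Real.posLog_eq_log_max_one (by positivity), norm_sub_rev w]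
  push_cast at h5
  linarith only [h5, h6]

theorem Gd_ge_log (hr : 0 < r) {t : ℝ} (ht : 0 < t) (hz : 0 ≤ dd c r z) (hw : 0 ≤ dd c r w)
    (h : r ^ 2 * t ^ 2 ≤ dd c r z * dd c r w) : gk t (w - z) ≤ Gd c r z w := by
  rcases eq_or_ne z w with rfl | hne
  · simp [Gd, gk]
  have h0 := norm_pos_iff.2 (sub_ne_zero.2 hne)
  refine max_le (Gd_nonneg hz hw) ?_
  have h2 : (t / ‖z - w‖) ^ 2 ≤ dd c r z * dd c r w / (r ^ 2 * ‖z - w‖ ^ 2) := by
    rw [le_div_iff₀ (by positivity)]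
    exact le_of_eq_of_le (by field_simp) h
  have h3 := Real.log_le_log (by positivity) (h2.trans (le_add_of_nonneg_left zero_le_one))
  rw [Real.log_pow] at h3
  rw [Gd, norm_sub_rev w]
  push_cast at h3
  linarith only [h3]

theorem dd_ge_dist (hr : 1 ≤ r) (hr2 : r ≤ 2) (hz : ‖z - c‖ ≤ r) :
    r - ‖z - c‖ ≤ dd c r z ∧ dd c r z ≤ 4 * (r - ‖z - c‖) := by
  have := norm_nonneg (z - c)
  unfold dd
  constructor <;> linarith only [hr, hz, this, hr2, mul_nonneg_of_nonpos_of_nonpos (Mathlib.Tactic.Linarith.sub_nonpos_of_le hr) (Mathlib.Tactic.Linarith.sub_nonpos_of_le hz), mul_nonneg_of_nonpos_of_nonpos (Mathlib.Tactic.Linarith.sub_nonpos_of_le hz) (Mathlib.Tactic.Linarith.sub_nonpos_of_le this), mul_nonneg_of_nonpos_of_nonpos (Mathlib.Tactic.Linarith.sub_nonpos_of_le hr2) (Mathlib.Tactic.Linarith.sub_nonpos_of_le hz), mul_nonneg_of_nonpos_of_nonpos (Mathlib.Tactic.Linarith.sub_nonpos_of_le hz) (Mathlib.Tactic.Linarith.sub_nonpos_of_le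 hz)]

theorem ca_Gd (hr : 0 < r) (hw : ‖w - c‖ < r) {s : ℝ} (hs : 0 < s)
    (hb : Metric.closedBall z s ⊆ Metric.closedBall c r) (hne : z ≠ w) :
    CircleIntegrable (fun ζ => Gd c r ζ w) z s ∧
      ca (fun ζ => Gd c r ζ w) z s = Gd c r z w - gk s (w - z) := by
  have h1 : ∀ ζ ∈ Metric.closedBall z s, ‖ζ - c‖ ≤ r := fun ζ hζ => mem_closedBall_iff_norm.1 (hb hζ)
  have e : (fun ζ => Real.log ‖(r : ℂ) ^ 2 - (ζ - c) * starRingEnd ℂ (w - c)‖ - Real.log r -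
      Real.log ‖ζ - w‖) =ᶠ[codiscreteWithin (Metric.sphere z |s|)] fun ζ => Gd c r ζ w := by
    filter_upwards [compl_singleton_mem_codiscreteWithin w, self_mem_codiscreteWithin _]
      with ζ h2 h3
    rw [abs_of_pos hs] at h3
    exact (c1_eq hr (h1 ζ (Metric.sphere_subset_closedBall h3)) hw h2).symm
  have i1 : CircleIntegrable
      (fun ζ => Real.log ‖(r : ℂ) ^ 2 - (ζ - c) * starRingEnd ℂ (w - c)‖) z s :=
    MeromorphicOn.circleIntegrable_log_norm fun _ _ => by fun_prop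
  have i2 : CircleIntegrable (fun ζ => Real.log ‖(r : ℂ) ^ 2 - (ζ - c) * starRingEnd ℂ (w - c)‖ -
      Real.log r) z s := i1.sub (circleIntegrable_const (Real.log r) z s)
  have i3 := circleIntegrable_log_norm_sub_const (a := w) (c := z) s
  refine ⟨(i2.sub i3).congr_codiscreteWithin e, ?_⟩
  have e1 := ca_log_norm (G := fun ζ => (r : ℂ) ^ 2 - (ζ - c) * starRingEnd ℂ (w - c)) hs.le
    fun ζ hζ => ⟨by fun_prop, norm_pos_iff.1
      ((mul_pos hr (sub_pos.2 hw)).trans_le (c1_low (h1 ζ hζ) w))⟩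
  have e2 := ca_log w z hs
  unfold ca at e1 e2 ⊢
  rw [← circleAverage_congr_codiscreteWithin e hs.ne', circleAverage_fun_sub i2 i3,
    circleAverage_fun_sub i1 (circleIntegrable_const _ _ _), circleAverage_const, e1, e2,
    c1_eq hr (h1 z (Metric.mem_closedBall_self hs.le)) hw hne, gk_eq hs (sub_ne_zero.2 hne.symm),
    norm_sub_rev z w]
  ring

theorem c1_gp (h : GpH c r h0 Kf E f τ) (hz : ‖z - c‖ ≤ r) :
    IntegrableOn (fun ζ => f ζ * Gd c r z (τ ζ)) E ∧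
      |gp c r E f τ z| ≤ (36 * 2 + 24 * 1) * Kf := by
  refine c1_dom h (c1_meas measurable_const h.mτ) two_pos.le one_pos z.re z.re fun ζ hζ h1 _ => ?_
  have h2 := h.hpos.le.trans (h.ins ζ hζ)
  have h3 := Gd_le_log (one_pos.trans_le h.r1) h.r2 (c1_dd hz) h2
  have h4 := c1_gk zero_le_one (v := τ ζ - z) (by rw [Complex.sub_re, h.re]; exact sub_ne_zero.2 h1)
  rw [Complex.sub_re, h.re] at h4
  rw [abs_of_nonneg (Gd_nonneg (c1_dd hz) h2)]
  linarith only [h3, h4, Real.posLog_nonneg (x := 1 / |ζ.re - z.re|)]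

theorem GpH.integrable (h : GpH c r h0 Kf E f τ) (hz : ‖z - c‖ ≤ r) :
    IntegrableOn (fun ζ => f ζ * Gd c r z (τ ζ)) E :=
  (c1_gp h hz).1

theorem GpH.integrable_gk (h : GpH c r h0 Kf E f τ) {s : ℝ} (hs : 0 < s) (z : ℂ) :
    IntegrableOn (fun ζ => f ζ * gk s (τ ζ - z)) E := by
  refine (c1_dom h ((measurable_gk s).comp (h.mτ.sub_const z)) le_rfl hs z.re z.re
    fun ζ _ h1 _ => ?_).1
  have h4 := c1_gk hs.le (v := τ ζ - z) (by rw [Complex.sub_re, h.re]; exact sub_ne_zero.2 h1)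
  rw [Complex.sub_re, h.re] at h4
  rw [Function.comp, abs_of_nonneg (gk_nonneg _ _)]
  linarith only [h4, Real.posLog_nonneg (x := s / |ζ.re - z.re|)]

theorem GpH.integrable_f (h : GpH c r h0 Kf E f τ) : IntegrableOn f E := by
  simpa using (c1_dom h (g := fun _ => 1) measurable_const zero_le_one one_pos 0 0
    fun ζ _ _ _ => by linarith only [abs_one (α := ℝ), Real.posLog_nonneg (x := 1 / |ζ.re - 0|)]).1

theorem GpH.nonneg (h : GpH c r h0 Kf E f τ) (hz : ‖z - c‖ ≤ r) : 0 ≤ gp c r E f τ z :=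
  setIntegral_nonneg h.mE fun ζ hζ =>
    mul_nonneg (h.f0 ζ hζ) (Gd_nonneg (c1_dd hz) (h.hpos.le.trans (h.ins ζ hζ)))

theorem gp_sphere (hz : ‖z - c‖ = r) : gp c r E f τ z = 0 := by
  simp [gp, Gd, dd, hz]

theorem c1_prod (h : GpH c r h0 Kf E f τ) {α : Type} [MeasurableSpace α] (ν : Measure α)
    [IsFiniteMeasure ν] {γ : α → ℂ} (hγ : Measurable γ) (hb : ∀ᵐ x ∂ν, ‖γ x - c‖ ≤ r) :
    Integrable (Function.uncurry fun x ζ => f ζ * Gd c r (γ x) (τ ζ))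
      (ν.prod (volume.restrict E)) := by
  have m0 : Measurable fun p : α × ℂ => Gd c r (γ p.1) (τ p.2) :=
    c1_meas (a := fun p : α × ℂ => γ p.1) (b := fun p : α × ℂ => τ p.2)
      (hγ.comp measurable_fst) (h.mτ.comp measurable_snd)
  have m1 : Measurable fun p : α × ℂ => f p.2 := h.mf.comp measurable_snd
  have m : AEStronglyMeasurable (fun p : α × ℂ => f p.2 * Gd c r (γ p.1) (τ p.2))
      (ν.prod (volume.restrict E)) := (m1.mul m0).aestronglyMeasurable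
  refine (integrable_prod_iff m).2 ⟨hb.mono fun x hx => (h.integrable hx :),
    Integrable.of_bound m.norm.integral_prod_right' ((36 * 2 + 24 * 1) * Kf)
      (hb.mono fun x hx => ?_)⟩
  have e : ∫ ζ in E, ‖f ζ * Gd c r (γ x) (τ ζ)‖ = gp c r E f τ (γ x) :=
    setIntegral_congr_fun h.mE fun ζ hζ => abs_of_nonneg
      (mul_nonneg (h.f0 ζ hζ) (Gd_nonneg (c1_dd hx) (h.hpos.le.trans (h.ins ζ hζ))))
  simp only [e]
  exact (c1_gp h hx).2

theorem GpH.ca_eq (h : GpH c r h0 Kf E f τ) {s : ℝ} (hs : 0 < s)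
    (hb : Metric.closedBall z s ⊆ Metric.closedBall c r) :
    ca (gp c r E f τ) z s = gp c r E f τ z - ∫ ζ in E, f ζ * gk s (τ ζ - z) := by
  have hr := one_pos.trans_le h.r1
  have : IsFiniteMeasure (volume.restrict (uIoc (0 : ℝ) (2 * π))) :=
    isFiniteMeasure_restrict.2 measure_Ioc_lt_top.ne
  have i := c1_prod h (volume.restrict (uIoc (0 : ℝ) (2 * π))) (measurable_circleMap z s)
    (Eventually.of_forall fun θ => mem_closedBall_iff_norm.1
      (hb (circleMap_mem_closedBall z hs.le θ)))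
  have hz := mem_closedBall_iff_norm.1 (hb (Metric.mem_closedBall_self hs.le))
  unfold gp
  rw [← integral_sub (h.integrable hz) (h.integrable_gk hs z), ca, circleAverage_def,
    intervalIntegral_integral_swap i, ← integral_smul]
  refine integral_congr_ae ?_
  filter_upwards [ae_restrict_mem h.mE, ae_restrict_of_ae (ae_re_ne z.re)] with ζ h1 h2
  have := (ca_Gd hr (c1_lt hr (h.hpos.trans_le (h.ins ζ h1))) hs hb
    fun e => h2 (by rw [e, h.re])).2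
  rw [← mul_sub, ← this, ca, circleAverage_def, intervalIntegral.integral_const_mul, smul_eq_mul,
    smul_eq_mul, mul_left_comm]

theorem GpH.le (h : GpH c r h0 Kf E f τ) (hz : ‖z - c‖ ≤ r) : gp c r E f τ z ≤ 100 * Kf := by
  linarith [(abs_le.1 (c1_gp h hz).2).2, h.K0]

theorem GpH.avg (h : GpH c r h0 Kf E f τ) (z : ℂ) :
    IntegrableOn ((Metric.ball c r).indicator (gp c r E f τ)) (Metric.ball z 1) ∧
      da ((Metric.ball c r).indicator (gp c r E f τ)) z 1 ≤ 3 * ∫ ζ in E, f ζ := by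
  have hr := one_pos.trans_le h.r1
  have : IsFiniteMeasure (volume.restrict (Metric.ball z 1)) :=
    isFiniteMeasure_restrict.2 measure_ball_lt_top.ne
  set ν := (volume.restrict (Metric.ball z 1)).restrict (Metric.ball c r) with hν
  have b : ∀ᵐ y ∂ν, ‖y - c‖ ≤ r := (ae_restrict_mem measurableSet_ball).mono fun y hy =>
    (mem_ball_iff_norm.1 hy).le
  have i := c1_prod h ν measurable_id b
  refine ⟨(integrable_indicator_iff measurableSet_ball).2 i.integral_prod_left, ?_⟩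
  have l1 : ν ≤ volume.restrict (Metric.ball z 1) := Measure.restrict_le_self
  have l2 : ν ≤ volume := l1.trans Measure.restrict_le_self
  have key : ∀ w, 0 ≤ dd c r w → ∫ y, Gd c r y w ∂ν ≤ π * 3 := fun w hw => by
    have i1 := (Mo.integrable_gk 1).comp_sub_left w
    have h1 := integral_mono_of_nonneg (b.mono fun y hy => Gd_nonneg (c1_dd hy) hw)
      ((i1.mono_measure l2).add (integrable_const 2))
      (b.mono fun y hy => Gd_le_log hr h.r2 (c1_dd hy) hw)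
    have h2 := integral_mono_measure l2 (Eventually.of_forall fun y => gk_nonneg 1 (w - y)) i1
    have h3 := integral_mono_measure l1 (f := fun _ => (2 : ℝ))
      (Eventually.of_forall fun _ => zero_le_two) (integrable_const 2)
    rw [integral_sub_left_eq_self _ volume, integral_gk one_pos] at h2
    rw [setIntegral_const (s := Metric.ball z 1), c1_vol z zero_le_one, smul_eq_mul] at h3
    rw [integral_add' (i1.mono_measure l2) (integrable_const 2)] at h1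
    linarith only [h1, h2, h3, Real.pi_pos]
  rw [da, integral_indicator measurableSet_ball, inv_mul_le_iff₀ (by positivity), one_pow, mul_one,
    ← mul_assoc, ← integral_const_mul]
  refine (integral_integral_swap i).trans_le (integral_mono_ae i.integral_prod_right
    (h.integrable_f.const_mul _) ((ae_restrict_mem h.mE).mono fun ζ hζ => ?_))
  beta_reduce
  rw [integral_const_mul, mul_comm (π * 3)]
  exact mul_le_mul_of_nonneg_left (key _ (h.hpos.le.trans (h.ins ζ hζ))) (h.f0 ζ hζ)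

theorem gp_md {h0 η : ℝ} (hh : 0 < h0) (hη : 0 < η) : ∃ d : ℝ, 0 < d ∧ ∀ (c : ℂ) (r Kf : ℝ) (E : Set ℂ)
    (f : ℂ → ℝ) (τ : ℂ → ℂ), GpH c r h0 Kf E f τ → ∀ z z' : ℂ, ‖z - c‖ ≤ r → ‖z' - c‖ ≤ r →
    ‖z' - z‖ ≤ d → |gp c r E f τ z' - gp c r E f τ z| ≤ η * Kf := by
  refine ⟨η / (72 * (8 / h0 + 48 / η)), by positivity, fun c r Kf E f τ h z z' hz hz' hd => ?_⟩
  have hr := one_pos.trans_le h.r1
  have hϵ : 0 < η / 48 := by positivity
  unfold gp
  rw [← integral_sub (h.integrable hz') (h.integrable hz)]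
  simp only [← mul_sub]
  refine (c1_dom h (g := fun ζ => Gd c r z' (τ ζ) - Gd c r z (τ ζ))
    ((c1_meas measurable_const h.mτ).sub (c1_meas measurable_const h.mτ)) (a := η / 72) (by positivity) hϵ z.re z'.re fun ζ hζ h1 h2 => ?_).2.trans_eq (by ring)
  rw [← h.re] at h1 h2 ⊢
  have hw := h.ins ζ hζ
  generalize τ ζ = w at h1 h2 hw ⊢
  have w1 := c1_lt hr (hh.trans_le hw)
  have w2 : h0 / 4 ≤ r * (r - ‖w - c‖) := by
    have := (dd_ge_dist h.r1 h.r2 w1.le).2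
    linarith only [hh, h, hr, hw, this, h.r1, mul_nonneg_of_nonpos_of_nonpos (le_of_lt (Mathlib.Tactic.Linarith.sub_neg_of_lt hh)) (Mathlib.Tactic.Linarith.sub_nonpos_of_le h.r1), mul_nonneg_of_nonpos_of_nonpos (le_of_lt (Mathlib.Tactic.Linarith.sub_neg_of_lt hr)) (Mathlib.Tactic.Linarith.sub_nonpos_of_le hw), mul_nonneg_of_nonpos_of_nonpos (le_of_lt (Mathlib.Tactic.Linarith.sub_neg_of_lt hr)) (Mathlib.Tactic.Linarith.sub_nonpos_of_le this)]
  have n1 : w ≠ z := fun e => h1 (by rw [e])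
  have n2 : w ≠ z' := fun e => h2 (by rw [e])
  have a1 := c1_log (by positivity) (w2.trans (c1_low hz' w)) (w2.trans (c1_low hz w))
  have a2 := c1_log hϵ (le_max_left _ ‖w - z'‖) (le_max_left _ ‖w - z‖)
  have b1 := abs_norm_sub_norm_le ((r : ℂ) ^ 2 - (z' - c) * starRingEnd ℂ (w - c))
    ((r : ℂ) ^ 2 - (z - c) * starRingEnd ℂ (w - c))
  rw [sub_sub_sub_cancel_left, ← sub_mul, sub_sub_sub_cancel_right, norm_mul, Complex.norm_conj,
    norm_sub_rev z] at b1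
  have b2 := (abs_max_sub_max_le_abs _ _ (η / 48)).trans (abs_norm_sub_norm_le (w - z') (w - z))
  rw [sub_sub_sub_cancel_left, norm_sub_rev z, max_comm, max_comm ‖w - z‖] at b2
  have b3 := mul_le_mul_of_nonneg_left (w1.le.trans h.r2) (norm_nonneg (z' - z))
  have c1 := abs_le.1 (a1.trans (div_le_div_of_nonneg_right (b1.trans b3) (by positivity)))
  have c2 := abs_le.1 (a2.trans (div_le_div_of_nonneg_right b2 hϵ.le))
  have c3 : ‖z' - z‖ * 2 / (h0 / 4) + ‖z' - z‖ / (η / 48) ≤ η / 72 := by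
    rw [le_div_iff₀ (by positivity)] at hd
    rw [le_div_iff₀ (by norm_num)]
    exact le_of_eq_of_le (by field_simp; ring) hd
  have g1 := gk_eq hϵ (sub_ne_zero.2 n1)
  have g2 := gk_eq hϵ (sub_ne_zero.2 n2)
  have g3 := c1_gk hϵ.le (v := w - z) (sub_ne_zero.2 h1)
  have g4 := c1_gk hϵ.le (v := w - z') (sub_ne_zero.2 h2)
  rw [Complex.sub_re] at g3 g4
  rw [c1_eq hr hz w1 n1.symm, c1_eq hr hz' w1 n2.symm, norm_sub_rev z w, norm_sub_rev z' w, abs_le]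
  constructor <;>
    linarith only [c1, c2, c3, g1, g2, g3, g4, gk_nonneg (η / 48) (w - z), gk_nonneg (η / 48) (w - z'), c1.1, c1.2, c2.1, c2.2]

end

end Pool.Agent.MinMod.Mo
end

-- merged part: Pool.Agent.Work.MP_f62247_an.Mo.C2
section
/-!
# Relocation of the dips: definitions, choice of the lines, geometry
Cells have width `l = a^5/10`. `exists_sel`: apply `exists_line` with `E = ball (cen j) 4` and `f = re`, `im`, `im`, `‖· - cen j‖`, intervals of length `l/2`, `a/2`, `a/2`, `a^5/4`; `ball (cen j) 3 ⊆ ball (cen (j+1)) 4`; the mass of `ball (cen j) 4` is at most `μ Φ (j l)`;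
`6 (2 - log (a^5/20)) e μ ≤ a^16` when `μ ≤ a^18` and `a` is small (`-log a ≤ 1/√a`.. or `- log a ≤ 2/√a`; simply `a * (-log a) → 0`).
Geometry: Pythagoras, `‖ζ - cen j‖² = (re - j l)² + (im - φ (j l) - m0)²`, `m0 - a = r0 - a/2`, `π - a - m0 = r0 - a + a^5`; `|φ x - φ (j l)| ≤ μ |x - j l|`.
-/

open Real MeasureTheory Set Filter Topology

namespace Pool.Agent.MinMod.Mo

noncomputable section

/-- the chosen lines and radii -/
structure Sel where
  xs : ℤ → ℝ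
  lo : ℤ → ℝ
  hi : ℤ → ℝ
  rs : ℤ → ℝ

def cl (a : ℝ) : ℝ := a ^ 5 / 10

def cr0 (a : ℝ) : ℝ := (π - a ^ 5 - a / 2) / 2

def cen (F : Frame) (a : ℝ) (j : ℤ) : ℂ :=
  (j * cl a : ℝ) + (F.φ (j * cl a) + (π - a ^ 5 + a / 2) / 2 : ℝ) * Complex.I

/-- projection to the curve below the valley -/
def tgt (F : Frame) (a : ℝ) (ζ : ℂ) : ℂ := (ζ.re : ℝ) + (F.φ ζ.re + π - 2 * a ^ 5 : ℝ) * Complex.I

/-- truncated logarithm -/
def lq (h0 t : ℝ) : ℝ := Real.posLog (1 / max |t| h0)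

namespace Sel

variable (S : Sel) (F : Frame) (a h0 : ℝ) (ρ : ℂ → ℝ)

def rect (j : ℤ) : Set ℂ :=
  {ζ | S.xs j ≤ ζ.re ∧ ζ.re < S.xs (j + 1) ∧ S.lo j ≤ ζ.im ∧ ζ.im ≤ S.hi j}

def disc (j : ℤ) : Set ℂ := Metric.ball (cen F a j) (S.rs j)

def d (j : ℤ) (z : ℂ) : ℝ := dd (cen F a j) (S.rs j) z

def lam (j : ℤ) (ζ : ℂ) : ℝ :=
  1 + lp (ζ.re - S.xs j) + lp (ζ.re - S.xs (j + 1)) + lp (ζ.im - S.lo j) + lp (ζ.im - S.hi j) +
    lp (‖ζ - cen F a j‖ - S.rs j)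

def kq (j : ℤ) (ζ : ℂ) : ℝ :=
  S.d F a j ζ * (1 + lq h0 (ζ.re - S.xs j) + lq h0 (ζ.re - S.xs (j + 1)) + lq h0 (ζ.im - S.lo j) +
    lq h0 (ζ.im - S.hi j))

def kept (j : ℤ) : Set ℂ := {ζ | h0 ≤ S.d F a j ζ} \ ⋃ i, S.rect i

def mass (j : ℤ) : ℝ := ∫ ζ in S.rect j, ρ ζ

def P (j : ℤ) : ℂ → ℝ := gp (cen F a j) (S.rs j) (S.rect j) ρ id

def q (j : ℤ) : ℂ → ℝ := gp (cen F a j) (S.rs j) (S.rect j) ρ (tgt F a)

def s (j : ℤ) : ℂ → ℝ :=
  gp (cen F a j) (S.rs j) (S.kept F a h0 j) (fun ζ => ρ ζ * S.kq F a h0 j ζ) id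

def corr (j : ℤ) : ℂ → ℝ := (S.disc F a j).indicator fun z =>
  S.P F a ρ j z - a ^ 7 * S.q F a ρ j z -
    S.mass ρ j / (a ^ 13 * F.Φ (j * cl a)) * S.s F a h0 ρ j z

def tot (z : ℂ) : ℝ := ∑ᶠ j, S.corr F a h0 ρ j z

structure Ok : Prop where
  xs : ∀ j : ℤ, j * cl a ≤ S.xs j ∧ S.xs j ≤ j * cl a + cl a / 2
  lo : ∀ j : ℤ, F.φ (j * cl a) + a ≤ S.lo j ∧ S.lo j ≤ F.φ (j * cl a) + 3 * a / 2
  hi : ∀ j : ℤ, F.φ (j * cl a) + π - 3 * a / 2 ≤ S.hi j ∧ S.hi j ≤ F.φ (j * cl a) + π - a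
  rs : ∀ j : ℤ, cr0 a ≤ S.rs j ∧ S.rs j ≤ cr0 a + a ^ 5 / 4
  int : ∀ j : ℤ, IntegrableOn (fun ζ => ρ ζ * S.lam F a j ζ) (Metric.ball (cen F a j) 3)
  small : ∀ j : ℤ, ∫ ζ in Metric.ball (cen F a j) 3, ρ ζ * S.lam F a j ζ ≤ a ^ 16 * F.Φ (j * cl a)

end Sel

/-- standing assumptions of this part -/
structure CH (F : Frame) (μ K a h0 : ℝ) (u ρ : ℂ → ℝ) (S : Sel) : Prop where
  apos : 0 < a
  ale : a ≤ 1 / 100
  hpos : 0 < h0
  hle : h0 ≤ a ^ 6
  mu : μ ≤ a ^ 18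
  good : F.Good μ
  dens : Dens F μ K u ρ
  ok : S.Ok F a ρ

theorem c2_re (F : Frame) (a : ℝ) (j : ℤ) : (cen F a j).re = j * cl a := by
  simp only [cen, Complex.add_re, Complex.mul_re, Complex.ofReal_re, Complex.ofReal_im,
    Complex.I_re, Complex.I_im]
  ring

theorem c2_im (F : Frame) (a : ℝ) (j : ℤ) :
    (cen F a j).im = F.φ (j * cl a) + (π - a ^ 5 + a / 2) / 2 := by
  simp only [cen, Complex.add_im, Complex.mul_im, Complex.ofReal_re, Complex.ofReal_im,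
    Complex.I_re, Complex.I_im]
  ring

theorem c2_tre (F : Frame) (a : ℝ) (ζ : ℂ) : (tgt F a ζ).re = ζ.re := by
  simp only [tgt, Complex.add_re, Complex.mul_re, Complex.ofReal_re, Complex.ofReal_im,
    Complex.I_re, Complex.I_im]
  ring

theorem c2_tim (F : Frame) (a : ℝ) (ζ : ℂ) : (tgt F a ζ).im = F.φ ζ.re + π - 2 * a ^ 5 := by
  simp only [tgt, Complex.add_im, Complex.mul_im, Complex.ofReal_re, Complex.ofReal_im,
    Complex.I_re, Complex.I_im]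
  ring

theorem c2_norm {z c : ℂ} {x y : ℝ} (h1 : |z.re - c.re| ≤ x) (h2 : |z.im - c.im| ≤ y) :
    ‖z - c‖ ≤ x + y :=
  (Complex.norm_le_abs_re_add_abs_im _).trans (add_le_add h1 h2)

theorem c2_num {a : ℝ} (h0 : 0 < a) (h1 : a ≤ 1 / 100) :
    0 < a ^ 5 ∧ a ^ 5 ≤ a / 100 ∧ a ^ 6 ≤ a ^ 5 / 100 ∧ a ^ 18 ≤ a ^ 5 / 100 := by
  have k : ∀ n m : ℕ, n < m → a ^ m ≤ a ^ n / 100 := fun n m h => by
    have h2 : a ^ m ≤ a ^ (n + 1) := pow_le_pow_of_le_one h0.le (by linarith only [h0, h1]) h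
    have h3 := mul_le_mul_of_nonneg_left h1 (pow_pos h0 n).le
    rw [pow_succ] at h2
    linarith only [h2, h3]
  exact ⟨pow_pos h0 5, by simpa using k 1 5 (by norm_num), k 5 6 (by norm_num),
    k 5 18 (by norm_num)⟩

theorem c2_lp (t : ℝ) : 0 ≤ lp t := Real.posLog_nonneg

theorem c2_int {F : Frame} {μ K : ℝ} {u ρ : ℂ → ℝ} (h : Dens F μ K u ρ) (c : ℂ) (R : ℝ) :
    IntegrableOn ρ (Metric.ball c R) := integrableOn_of_le h.meas h.nonneg h.le c R

theorem c2_mass {F : Frame} {μ K : ℝ} {u ρ : ℂ → ℝ} (h : Dens F μ K u ρ) {c : ℂ} {E : Set ℂ}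
    (hE : E ⊆ Metric.ball c 6) : ∫ ζ in E, ρ ζ ≤ μ * F.Φ c.re :=
  (setIntegral_mono_set (c2_int h c 6) (Eventually.of_forall h.nonneg) hE.eventuallyLE).trans
    (h.mass c)

theorem c2_line {F : Frame} {μ K a : ℝ} {u ρ : ℂ → ℝ} (h : Dens F μ K u ρ) (h0 : 0 < a) (c : ℂ)
    {f : ℂ → ℝ} (hf : Measurable f) {l : ℝ} (hl : a ^ 5 / 20 ≤ l) (hl1 : l ≤ 1) (t0 : ℝ) :
    ∃ t, (t0 ≤ t ∧ t ≤ t0 + l) ∧ ∀ E ⊆ Metric.ball c 4,
      IntegrableOn (fun ζ => ρ ζ * lp (f ζ - t)) E ∧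
        ∫ ζ in E, ρ ζ * lp (f ζ - t) ≤ (21 + 5 / a) * (μ * F.Φ c.re) := by
  have h1 : 0 < a ^ 5 / 20 := by positivity
  obtain ⟨t, t1, t2, t3⟩ := exists_line (E := Metric.ball c 4) measurableSet_ball h.meas h.nonneg
    (c2_int h c 4) hf (h1.trans_le hl) hl1 t0
  refine ⟨t, t1, fun E hE => ⟨t2.mono_set hE, ?_⟩⟩
  have h2 : 2 - Real.log l ≤ 21 + 5 / a := by
    have h3 := Real.log_le_log h1 hl
    have h4 := Real.log_le_sub_one_of_pos (inv_pos.2 h0)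
    have h5 := Real.log_le_sub_one_of_pos (show (0 : ℝ) < 20 by norm_num)
    rw [Real.log_div (by positivity) (by norm_num), Real.log_pow] at h3
    rw [Real.log_inv] at h4
    rw [div_eq_mul_inv]
    push_cast at h3
    linarith only [h3, h4, h5]
  refine (setIntegral_mono_set t2 (Eventually.of_forall fun ζ => mul_nonneg (h.nonneg ζ) (c2_lp _))
    hE.eventuallyLE).trans (t3.trans ?_)
  exact mul_le_mul h2 (c2_mass h (Metric.ball_subset_ball (by norm_num)))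
    (integral_nonneg h.nonneg) (by positivity)

theorem exists_sel : ∃ a0 : ℝ, 0 < a0 ∧ ∀ (F : Frame) (μ K a : ℝ) (u ρ : ℂ → ℝ), 0 < a → a ≤ a0 →
    μ ≤ a ^ 18 → F.Good μ → Dens F μ K u ρ → ∃ S : Sel, S.Ok F a ρ := by
  refine ⟨1 / 100, by norm_num, fun F μ K a u ρ h0 h1 hμ hF h => ?_⟩
  obtain ⟨n1, n2, -, n4⟩ := c2_num h0 h1
  have m0 := hF.nonneg
  choose xs x1 x2 using fun j : ℤ => c2_line h h0 (cen F a j) Complex.measurable_re
    (l := cl a / 2) (by unfold cl; linarith only []) (by unfold cl; linarith only [h1, n1, n2]) (j * cl a)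
  choose lo l1 l2 using fun j : ℤ => c2_line h h0 (cen F a j) Complex.measurable_im
    (l := a / 2) (by linarith only [n1, n2]) (by linarith only [h1, n1, n2]) (F.φ (j * cl a) + a)
  choose hi i1 i2 using fun j : ℤ => c2_line h h0 (cen F a j) Complex.measurable_im
    (l := a / 2) (by linarith only [n1, n2]) (by linarith only [h1, n1, n2]) (F.φ (j * cl a) + π - 3 * a / 2)
  choose rs r1 r2 using fun j : ℤ => c2_line h h0 (cen F a j)
    (f := fun ζ => ‖ζ - cen F a j‖) (by fun_prop)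
    (l := a ^ 5 / 4) (by linarith only [n1]) (by linarith only [h1, n1, n2]) (cr0 a)
  have hl : ∀ j : ℤ, |((j + 1 : ℤ) : ℝ) * cl a - j * cl a| ≤ 1 / 4 := fun j => by
    rw [show ((j + 1 : ℤ) : ℝ) * cl a - j * cl a = a ^ 5 / 10 by push_cast; unfold cl; ring,
      abs_of_pos (by linarith only [n1])]
    linarith only [h1, n1, n2]
  have b1 : ∀ j : ℤ, Metric.ball (cen F a j) 3 ⊆ Metric.ball (cen F a j) 4 := fun j =>
    Metric.ball_subset_ball (by norm_num)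
  have b2 : ∀ j : ℤ, Metric.ball (cen F a j) 3 ⊆ Metric.ball (cen F a (j + 1)) 4 := fun j => by
    refine Metric.ball_subset ?_
    have h2 := (hF.φ_sub (j * cl a) (((j + 1 : ℤ) : ℝ) * cl a)).trans
      (mul_le_mul (show μ ≤ 1 by linarith only [h1, hμ, n1, n2, n4]) (hl j) (abs_nonneg _) zero_le_one)
    have h3 : ‖cen F a (j + 1) - cen F a j‖ ≤ 1 / 4 + 1 * (1 / 4) := c2_norm
      (by rw [c2_re, c2_re]; exact hl j) (by rw [c2_im, c2_im, add_sub_add_right_eq_sub]; exact h2)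
    rw [dist_comm, dist_eq_norm]
    linarith only [h1, n1, n2, h3]
  have key : ∀ j : ℤ, IntegrableOn (fun ζ => ρ ζ * Sel.lam ⟨xs, lo, hi, rs⟩ F a j ζ)
      (Metric.ball (cen F a j) 3) ∧ ∫ ζ in Metric.ball (cen F a j) 3,
        ρ ζ * Sel.lam ⟨xs, lo, hi, rs⟩ F a j ζ ≤ a ^ 16 * F.Φ (j * cl a) := fun j => by
    obtain ⟨a1, c1⟩ := x2 j _ (b1 j)
    obtain ⟨a2, c2⟩ := x2 (j + 1) _ (b2 j)
    obtain ⟨a3, c3⟩ := l2 j _ (b1 j)
    obtain ⟨a4, c4⟩ := i2 j _ (b1 j)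
    obtain ⟨a5, c5⟩ := r2 j _ (b1 j)
    have a0 := c2_int h (cen F a j) 3
    have c0 := c2_mass h (Metric.ball_subset_ball (x := cen F a j) (show (3 : ℝ) ≤ 6 by norm_num))
    simp only [Sel.lam, mul_add, mul_one]
    have s1 := a0.fun_add a1
    have s2 := s1.fun_add a2
    have s3 := s2.fun_add a3
    have s4 := s3.fun_add a4
    refine ⟨s4.fun_add a5, ?_⟩
    rw [integral_add s4 a5, integral_add s3 a4, integral_add s2 a3, integral_add s1 a2,
      integral_add a0 a1]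
    rw [c2_re] at c0 c1 c2 c3 c4 c5
    have p := F.Φ_pos (j * cl a)
    have e1 : F.Φ (((j + 1 : ℤ) : ℝ) * cl a) ≤ 3 * F.Φ (j * cl a) := by
      refine (hF.Φ_le (by linarith only [h1, hμ, n1, n2, n4]) (hl j)).trans (mul_le_mul_of_nonneg_right ?_ p.le)
      exact (Real.exp_le_exp.2 (by norm_num)).trans Real.exp_one_lt_three.le
    have e2 : 0 ≤ 5 / a := by positivity
    have e3 := mul_le_mul_of_nonneg_left (mul_le_mul_of_nonneg_left e1 m0)
      (show 0 ≤ 21 + 5 / a by linarith only [h1, n1, n2, e2])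
    have e4 : 8 * (21 + 5 / a) * μ ≤ a ^ 16 := by
      have e5 : 8 * (21 + 5 / a) * a ^ 18 = a ^ 16 * (168 * a ^ 2 + 40 * a) := by
        field_simp
        ring
      have e6 : a ^ 16 * (168 * a ^ 2 + 40 * a) ≤ a ^ 16 * 1 :=
        mul_le_mul_of_nonneg_left (by linarith only [h1, n1, n2, h0, mul_nonneg_of_nonpos_of_nonpos (le_of_lt (Mathlib.Tactic.Linarith.sub_neg_of_lt h0)) (Mathlib.Tactic.Linarith.sub_nonpos_of_le h1)]) (by positivity)
      have e7 := mul_le_mul_of_nonneg_left hμ (show 0 ≤ 8 * (21 + 5 / a) by linarith only [h1, n1, n2, e2])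
      linarith only [e5, e6, e7]
    have e5 := mul_le_mul_of_nonneg_right e4 p.le
    have e6 := mul_nonneg (show 0 ≤ 20 + 5 / a by linarith only [h1, n1, n2, e2]) (mul_nonneg m0 p.le)
    linarith only [c1, c2, c3, c4, c5, c0, e3, e5, e6]
  exact ⟨⟨xs, lo, hi, rs⟩, x1, fun j => ⟨(l1 j).1, by linarith only [l1, (l1 j).2]⟩,
    fun j => ⟨(i1 j).1, by linarith only [i1, (i1 j).2]⟩, r1, fun j => (key j).1, fun j => (key j).2⟩

variable {F : Frame} {μ K a h0 : ℝ} {u ρ : ℂ → ℝ} {S : Sel}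

theorem CH.c2_phi (h : CH F μ K a h0 u ρ S) {x x' s : ℝ} (hs : |x' - x| ≤ s) :
    |F.φ x' - F.φ x| ≤ a ^ 5 / 100 * s :=
  (h.good.φ_sub x x').trans (mul_le_mul (h.mu.trans (c2_num h.apos h.ale).2.2.2) hs
    (abs_nonneg _) (by have := h.apos; positivity))

theorem CH.rs_mem (h : CH F μ K a h0 u ρ S) (j : ℤ) : 1 ≤ S.rs j ∧ S.rs j ≤ 2 := by
  obtain ⟨n1, n2, -, -⟩ := c2_num h.apos h.ale
  obtain ⟨r1, r2⟩ := h.ok.rs j
  have := h.ale
  unfold cr0 at r1 r2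
  constructor <;> linarith only [n1, n2, r1, this, r2, pi_gt_three, pi_lt_d2]

theorem CH.c2_tgt (h : CH F μ K a h0 u ρ S) {j : ℤ} {ζ : ℂ} (hζ : |ζ.re - j * cl a| ≤ 4 * cl a) :
    ‖tgt F a ζ - cen F a j‖ ≤ S.rs j - a ^ 5 / 2 := by
  obtain ⟨n1, n2, -, -⟩ := c2_num h.apos h.ale
  have r1 := (h.ok.rs j).1
  have a1 := h.ale
  have p := abs_le.1 (h.c2_phi hζ)
  have e : a ^ 5 / 100 * (4 * cl a) ≤ a ^ 5 / 100 := by
    unfold cl
    linarith only [n1, n2, a1, mul_nonneg_of_nonpos_of_nonpos (le_of_lt (Mathlib.Tactic.Linarith.sub_neg_of_lt n1)) (Mathlib.Tactic.Linarith.sub_nonpos_of_le n2), mul_nonneg_of_nonpos_of_nonpos (le_of_lt (Mathlib.Tactic.Linarith.sub_neg_of_lt n1)) (Mathlib.Tactic.Linarith.sub_nonpos_of_le a1)]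
  have h3 : ‖tgt F a ζ - cen F a j‖ ≤ 4 * cl a + (cr0 a - a ^ 5 + a ^ 5 / 100) :=
    c2_norm (by rw [c2_tre, c2_re]; exact hζ) (by
      rw [c2_tim, c2_im, abs_le]
      unfold cr0
      constructor <;> linarith only [n1, n2, a1, p, e, pi_gt_three])
  unfold cl at h3
  linarith only [n1, r1, h3]

theorem CH.c2_x (h : CH F μ K a h0 u ρ S) {j : ℤ} {x : ℝ} (h1 : S.xs j ≤ x)
    (h2 : x < S.xs (j + 1)) : |x - j * cl a| ≤ 2 * cl a := by
  have l0 : 0 < cl a := by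
    have := h.apos
    unfold cl
    positivity
  have a1 := (h.ok.xs j).1
  have a2 := (h.ok.xs (j + 1)).2
  push_cast at a2
  rw [abs_le]
  constructor <;> linarith only [h1, l0, a1, h2, a2]

theorem CH.c2_xphi (h : CH F μ K a h0 u ρ S) {j : ℤ} {x : ℝ} (h1 : |x - j * cl a| ≤ 2 * cl a) :
    |F.φ x - F.φ (j * cl a)| ≤ a / 2 := by
  obtain ⟨n1, n2, -, -⟩ := c2_num h.apos h.ale
  have a1 := h.ale
  refine (h.c2_phi h1).trans ?_
  unfold cl
  linarith only [n1, n2, a1, mul_nonneg_of_nonpos_of_nonpos (le_of_lt (Mathlib.Tactic.Linarith.sub_neg_of_lt n1)) (Mathlib.Tactic.Linarith.sub_nonpos_of_le n2), mul_nonneg_of_nonpos_of_nonpos (le_of_lt (Mathlib.Tactic.Linarith.sub_neg_of_lt n1)) (Mathlib.Tactic.Linarith.sub_nonpos_of_le a1)]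

theorem CH.rect_geo (h : CH F μ K a h0 u ρ S) {j : ℤ} {ζ : ℂ} (hζ : ζ ∈ S.rect j) :
    |ζ.re - j * cl a| ≤ 2 * cl a ∧ ‖ζ - cen F a j‖ ≤ S.rs j - a / 4 ∧
      ‖tgt F a ζ - cen F a j‖ ≤ S.rs j - a ^ 5 / 2 ∧ a / 2 ≤ F.ht ζ ∧ F.ht ζ ≤ π - a / 2 := by
  obtain ⟨n1, n2, -, -⟩ := c2_num h.apos h.ale
  obtain ⟨z1, z2, z3, z4⟩ := hζ
  have hx := h.c2_x z1 z2
  have p := abs_le.1 (h.c2_xphi hx)
  have r1 := (h.ok.rs j).1
  have l1 := (h.ok.lo j).1
  have l2 := (h.ok.hi j).2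
  have h3 : ‖ζ - cen F a j‖ ≤ 2 * cl a + (cr0 a - a / 2) :=
    c2_norm (by rw [c2_re]; exact hx) (by
      rw [c2_im, abs_le]
      unfold cr0
      constructor <;> linarith only [z3, l1, n1, n2, z4, l2])
  refine ⟨hx, ?_, h.c2_tgt (hx.trans ?_), ?_, ?_⟩
  · unfold cl at h3
    linarith only [n1, n2, r1, h3]
  · unfold cl
    linarith only [n1]
  · unfold Frame.ht
    linarith only [z3, p, l1]
  · unfold Frame.ht
    linarith only [z4, p, l2]

theorem CH.tgt_geo (h : CH F μ K a h0 u ρ S) {j : ℤ} {ζ : ℂ} (hζ : |ζ.re - j * cl a| ≤ 4 * cl a) :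
    ‖tgt F a ζ - cen F a j‖ ≤ S.rs j - a ^ 5 / 2 := by
  exact h.c2_tgt hζ

theorem CH.disc_geo (h : CH F μ K a h0 u ρ S) {j : ℤ} {z : ℂ} (hz : ‖z - cen F a j‖ ≤ S.rs j) :
    a / 4 ≤ F.ht z ∧ F.ht z ≤ π - a ^ 5 / 2 ∧ |z.re - j * cl a| ≤ 2 := by
  obtain ⟨n1, n2, -, -⟩ := c2_num h.apos h.ale
  have h1 := (Complex.abs_re_le_norm _).trans (hz.trans (h.rs_mem j).2)
  have h2 := (Complex.abs_im_le_norm _).trans (hz.trans (h.ok.rs j).2)
  rw [Complex.sub_re, c2_re] at h1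
  rw [Complex.sub_im, c2_im, abs_le] at h2
  have p := abs_le.1 (h.c2_phi h1)
  unfold cr0 at h2
  unfold Frame.ht
  exact ⟨by linarith only [n1, n2, h2, p], by linarith only [n1, h2, p], h1⟩

theorem CH.exists_cell (h : CH F μ K a h0 u ρ S) (x : ℝ) : ∃ j : ℤ, S.xs j ≤ x ∧ x < S.xs (j + 1) := by
  have l0 : 0 < cl a := by
    have := h.apos
    unfold cl
    positivity
  have f1 : (⌊x / cl a⌋ : ℝ) * cl a ≤ x := (le_div_iff₀ l0).1 (Int.floor_le _)
  have f2 : x < (⌊x / cl a⌋ + 1) * cl a := (div_lt_iff₀ l0).1 (Int.lt_floor_add_one _)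
  by_cases c : S.xs ⌊x / cl a⌋ ≤ x
  · have a1 := (h.ok.xs (⌊x / cl a⌋ + 1)).1
    push_cast at a1
    exact ⟨_, c, by linarith only [f2, a1]⟩
  · have a1 := (h.ok.xs (⌊x / cl a⌋ - 1)).2
    push_cast at a1
    exact ⟨⌊x / cl a⌋ - 1, by linarith only [l0, f1, a1], by rw [sub_add_cancel]; exact not_le.1 c⟩

theorem CH.disjoint (h : CH F μ K a h0 u ρ S) : Pairwise (Function.onFun Disjoint S.rect) := by
  have l0 : 0 < cl a := by
    have := h.apos
    unfold cl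
    positivity
  have hm : Monotone S.xs := monotone_int_of_le_succ fun j => by
    have a1 := (h.ok.xs j).2
    have a2 := (h.ok.xs (j + 1)).1
    push_cast at a2
    linarith only [l0, a1, a2]
  have k : ∀ i j : ℤ, i < j → Disjoint (S.rect i) (S.rect j) := fun i j hij =>
    Set.disjoint_left.2 fun ζ a1 a2 => absurd (a1.2.1.trans_le (hm hij)) (not_lt.2 a2.1)
  intro i j hij
  rcases lt_or_gt_of_ne hij with c | c
  · exact k i j c
  · exact (k j i c).symm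

theorem CH.mem_rect (h : CH F μ K a h0 u ρ S) {z : ℂ} (h1 : 2 * a ≤ F.ht z) (h2 : F.ht z ≤ π - 2 * a) :
    ∃ j, z ∈ S.rect j := by
  obtain ⟨j, a1, a2⟩ := h.exists_cell z.re
  have p := abs_le.1 (h.c2_xphi (h.c2_x a1 a2))
  have l1 := (h.ok.lo j).2
  have l2 := (h.ok.hi j).1
  unfold Frame.ht at h1 h2
  exact ⟨j, a1, a2, by linarith only [h1, p, l1], by linarith only [h2, p, l2]⟩

/-- the indices of the discs near a point -/
theorem CH.near (h : CH F μ K a h0 u ρ S) (x : ℝ) : ∃ T : Finset ℤ, (T.card : ℝ) ≤ 100 / a ^ 5 ∧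
    ∀ j : ℤ, j ∈ T ↔ |x - j * cl a| ≤ 3 := by
  obtain ⟨n1, n2, -, -⟩ := c2_num h.apos h.ale
  have a1 := h.ale
  have l0 : 0 < cl a := by
    unfold cl
    linarith only [n1]
  refine ⟨Finset.Icc ⌈(x - 3) / cl a⌉ ⌊(x + 3) / cl a⌋, ?_, fun j => ?_⟩
  · have f1 := Int.floor_le ((x + 3) / cl a)
    have f2 := Int.le_ceil ((x - 3) / cl a)
    have f3 : (x + 3) / cl a - (x - 3) / cl a = 60 / a ^ 5 := by
      unfold cl
      field_simp
      ring
    have f4 : 1 ≤ 40 / a ^ 5 := by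
      rw [le_div_iff₀ n1]
      linarith only [n1, n2, a1]
    have f5 : (100 : ℝ) / a ^ 5 = 60 / a ^ 5 + 40 / a ^ 5 := by ring
    rw [Int.card_Icc, ← Int.cast_natCast, Int.toNat_eq_max]
    push_cast
    exact max_le (by linarith only [f1, f2, f3, f4, f5]) (by positivity)
  · rw [Finset.mem_Icc, Int.ceil_le, Int.le_floor, div_le_iff₀ l0, le_div_iff₀ l0, abs_le]
    constructor <;> rintro ⟨b1, b2⟩ <;> constructor <;> linarith only [b2, b1]

/-- a point inside and a point outside a rectangle are separated by one of its sides -/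
theorem Sel.sep (S : Sel) {j : ℤ} {p ζ : ℂ} (h1 : p ∈ S.rect j) (h2 : ζ ∉ S.rect j) :
    (|p.re - S.xs j| ≤ ‖p - ζ‖ ∧ |ζ.re - S.xs j| ≤ ‖p - ζ‖) ∨
    (|p.re - S.xs (j + 1)| ≤ ‖p - ζ‖ ∧ |ζ.re - S.xs (j + 1)| ≤ ‖p - ζ‖) ∨
    (|p.im - S.lo j| ≤ ‖p - ζ‖ ∧ |ζ.im - S.lo j| ≤ ‖p - ζ‖) ∨
    (|p.im - S.hi j| ≤ ‖p - ζ‖ ∧ |ζ.im - S.hi j| ≤ ‖p - ζ‖) := by
  obtain ⟨a1, a2, a3, a4⟩ := h1
  have r := abs_le.1 (Complex.abs_re_le_norm (p - ζ))
  have i := abs_le.1 (Complex.abs_im_le_norm (p - ζ))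
  rw [Complex.sub_re] at r
  rw [Complex.sub_im] at i
  simp only [Sel.rect, mem_ofPred_eq, not_and_or, not_le, not_lt] at h2
  simp only [abs_le]
  rcases h2 with c | c | c | c
  · exact Or.inl ⟨⟨by linarith only [a1, r, c], by linarith⟩, by linarith, by linarith⟩
  · exact Or.inr (Or.inl ⟨⟨by linarith, by linarith⟩, by linarith, by linarith⟩)
  · exact Or.inr (Or.inr (Or.inl ⟨⟨by linarith, by linarith⟩, by linarith, by linarith⟩))
  · exact Or.inr (Or.inr (Or.inr ⟨⟨by linarith, by linarith⟩, by linarith, by linarith⟩))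

theorem c2_mrect (S : Sel) (j : ℤ) : MeasurableSet (S.rect j) :=
  (measurableSet_le measurable_const Complex.measurable_re).inter
    ((measurableSet_lt Complex.measurable_re measurable_const).inter
      ((measurableSet_le measurable_const Complex.measurable_im).inter
        (measurableSet_le Complex.measurable_im measurable_const)))

theorem CH.c2_sub (h : CH F μ K a h0 u ρ S) (j : ℤ) : S.rect j ⊆ Metric.ball (cen F a j) 3 :=
  fun ζ hζ => by
    have h1 := (h.rect_geo hζ).2.1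
    have h2 := (h.rs_mem j).2
    have h3 := h.apos
    rw [mem_ball_iff_norm]
    linarith only [h1, h2, h3]

theorem CH.c2_le (h : CH F μ K a h0 u ρ S) {j : ℤ} {ζ : ℂ} (hζ : ζ ∈ Metric.ball (cen F a j) 3) :
    ρ ζ ≤ K * exp 6 * F.Φ (j * cl a) := by
  obtain ⟨n1, n2, -, n4⟩ := c2_num h.apos h.ale
  have h1 := (Complex.abs_re_le_norm _).trans (mem_ball_iff_norm.1 hζ).le
  rw [Complex.sub_re, c2_re] at h1
  have h2 := h.good.Φ_le (by linarith only [n2, n4, h, h.mu, h.ale]) h1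
  rw [show (2 : ℝ) * 3 = 6 by norm_num] at h2
  rw [mul_assoc]
  exact (h.dens.le ζ).trans (mul_le_mul_of_nonneg_left h2 h.dens.K_nonneg)

theorem CH.c2_gp (h : CH F μ K a h0 u ρ S) (j : ℤ) {τ : ℂ → ℂ} (hm : Measurable τ)
    (hr : ∀ ζ, (τ ζ).re = ζ.re) (hi : ∀ ζ ∈ S.rect j, ‖τ ζ - cen F a j‖ ≤ S.rs j - a ^ 5 / 2) :
    GpH (cen F a j) (S.rs j) h0 (K * exp 6 * F.Φ (j * cl a)) (S.rect j) ρ τ := by
  obtain ⟨n1, n2, n3, -⟩ := c2_num h.apos h.ale
  refine ⟨(h.rs_mem j).1, (h.rs_mem j).2, h.hpos, c2_mrect S j, h.c2_sub j, h.dens.meas,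
    fun ζ _ => h.dens.nonneg ζ, fun ζ hζ => h.c2_le (h.c2_sub j hζ),
    mul_nonneg (mul_nonneg h.dens.K_nonneg (exp_pos _).le) (F.Φ_pos _).le, hm, hr, fun ζ hζ => ?_⟩
  have h1 := hi ζ hζ
  have h2 := (dd_ge_dist (h.rs_mem j).1 (h.rs_mem j).2 (h1.trans (by linarith only [n1]))).1
  linarith only [n1, n3, h1, h2, h, h.hle]

theorem CH.gpP (h : CH F μ K a h0 u ρ S) (j : ℤ) :
    GpH (cen F a j) (S.rs j) h0 (K * exp 6 * F.Φ (j * cl a)) (S.rect j) ρ id := by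
  obtain ⟨n1, n2, -, -⟩ := c2_num h.apos h.ale
  exact h.c2_gp j measurable_id (fun _ => rfl) fun ζ hζ =>
    (h.rect_geo hζ).2.1.trans (by linarith only [n1, n2])

theorem CH.gpq (h : CH F μ K a h0 u ρ S) (j : ℤ) :
    GpH (cen F a j) (S.rs j) h0 (K * exp 6 * F.Φ (j * cl a)) (S.rect j) ρ (tgt F a) := by
  refine h.c2_gp j (Continuous.measurable ?_) (c2_tre F a) fun ζ hζ => (h.rect_geo hζ).2.2.1
  have := F.continuous_φ
  unfold tgt
  fun_prop

theorem c2_lq0 (h0 t : ℝ) : 0 ≤ lq h0 t := Real.posLog_nonneg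

theorem c2_lq1 (hp : 0 < h0) (h1 : h0 ≤ 1) (t : ℝ) : lq h0 t ≤ -Real.log h0 := by
  have h2 : 0 < max |t| h0 := lt_max_of_lt_right hp
  refine (Real.posLog_le_posLog (by positivity) (one_div_le_one_div_of_le hp (le_max_right _ _))).trans
    (le_of_eq ?_)
  rw [Real.posLog_eq_log, one_div, Real.log_inv]
  rw [abs_of_pos (by positivity), le_div_iff₀ hp]
  linarith

theorem c2_lq2 (h0 : ℝ) {t : ℝ} (ht : t ≠ 0) : lq h0 t ≤ lp t := by
  have h2 : 0 < max |t| h0 := lt_max_of_lt_left (abs_pos.2 ht)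
  exact Real.posLog_le_posLog (by positivity)
    (one_div_le_one_div_of_le (abs_pos.2 ht) (le_max_left _ _))

theorem c2_mlq (h0 : ℝ) : Measurable (lq h0) :=
  Real.continuous_posLog.measurable.comp
    (measurable_const.div (continuous_abs.measurable.max measurable_const))

theorem c2_md (S : Sel) (F : Frame) (a : ℝ) (j : ℤ) : Measurable (S.d F a j) := by
  unfold Sel.d dd
  fun_prop

theorem c2_mkq (S : Sel) (F : Frame) (a h0 : ℝ) (j : ℤ) : Measurable (S.kq F a h0 j) := by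
  have h1 := c2_mlq h0
  have h2 := c2_md S F a j
  unfold Sel.kq
  fun_prop

theorem c2_mkept (S : Sel) (F : Frame) (a h0 : ℝ) (j : ℤ) : MeasurableSet (S.kept F a h0 j) :=
  (measurableSet_le measurable_const (c2_md S F a j)).diff (MeasurableSet.iUnion (c2_mrect S))

theorem CH.c2_kept (h : CH F μ K a h0 u ρ S) {j : ℤ} {ζ : ℂ} (hζ : ζ ∈ S.kept F a h0 j) :
    ζ ∈ Metric.ball (cen F a j) 3 ∧ 0 < S.d F a j ζ ∧ S.d F a j ζ ≤ 4 := by
  have h1 : 0 < S.d F a j ζ := h.hpos.trans_le hζ.1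
  obtain ⟨r1, r2⟩ := h.rs_mem j
  have n := norm_nonneg (ζ - cen F a j)
  rw [mem_ball_iff_norm]
  unfold Sel.d dd at *
  exact ⟨by (refine lt_of_not_ge fun h_nl => ?_; linarith only [h_nl, h1, r2, r1, n, mul_nonneg_of_nonpos_of_nonpos (Mathlib.Tactic.Linarith.sub_nonpos_of_le r1) (Mathlib.Tactic.Linarith.sub_nonpos_of_le r2), mul_nonneg_of_nonpos_of_nonpos (Mathlib.Tactic.Linarith.sub_nonpos_of_le n) (Mathlib.Tactic.Linarith.sub_nonpos_of_le h_nl)]), h1, by nlinarith⟩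

theorem c2_s0 (S : Sel) (h0 : ℝ) (j : ℤ) (ζ : ℂ) : 0 ≤ 1 + lq h0 (ζ.re - S.xs j) +
    lq h0 (ζ.re - S.xs (j + 1)) + lq h0 (ζ.im - S.lo j) + lq h0 (ζ.im - S.hi j) :=
  add_nonneg (add_nonneg (add_nonneg (add_nonneg zero_le_one (c2_lq0 _ _)) (c2_lq0 _ _))
    (c2_lq0 _ _)) (c2_lq0 _ _)

theorem CH.gps (h : CH F μ K a h0 u ρ S) (j : ℤ) :
    GpH (cen F a j) (S.rs j) h0 (K * exp 6 * (4 * (1 + 4 * -Real.log h0)) * F.Φ (j * cl a))
      (S.kept F a h0 j) (fun ζ => ρ ζ * S.kq F a h0 j ζ) id := by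
  obtain ⟨n1, n2, n3, -⟩ := c2_num h.apos h.ale
  have h1 : h0 ≤ 1 := by linarith only [n2, n3, h, h.hle, h.ale]
  have h2 : 0 ≤ -Real.log h0 := (c2_lq0 h0 0).trans (c2_lq1 h.hpos h1 0)
  have h3 := mul_nonneg (mul_nonneg h.dens.K_nonneg (exp_pos 6).le) (F.Φ_pos (j * cl a)).le
  refine ⟨(h.rs_mem j).1, (h.rs_mem j).2, h.hpos, c2_mkept S F a h0 j, fun ζ hζ => (h.c2_kept hζ).1,
    h.dens.meas.mul (c2_mkq S F a h0 j),
    fun ζ hζ => mul_nonneg (h.dens.nonneg ζ) (mul_nonneg (h.c2_kept hζ).2.1.le (c2_s0 S h0 j ζ)),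
    fun ζ hζ => ?_, ?_, measurable_id, fun _ => rfl, fun ζ hζ => hζ.1⟩
  · rw [mul_right_comm]
    refine mul_le_mul (h.c2_le (h.c2_kept hζ).1) (mul_le_mul (h.c2_kept hζ).2.2 ?_
      (c2_s0 S h0 j ζ) (by norm_num)) (mul_nonneg (h.c2_kept hζ).2.1.le (c2_s0 S h0 j ζ)) h3
    linarith only [h, h1, c2_lq1 h.hpos h1 (ζ.re - S.xs j), c2_lq1 h.hpos h1 (ζ.re - S.xs (j + 1)),
      c2_lq1 h.hpos h1 (ζ.im - S.lo j), c2_lq1 h.hpos h1 (ζ.im - S.hi j)]
  · rw [mul_right_comm]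
    exact mul_nonneg h3 (by linarith only [h2])

theorem CH.mass_le (h : CH F μ K a h0 u ρ S) (j : ℤ) :
    0 ≤ S.mass ρ j ∧ S.mass ρ j ≤ μ * F.Φ (j * cl a) := by
  refine ⟨integral_nonneg h.dens.nonneg, ?_⟩
  have h1 := c2_mass h.dens ((h.c2_sub j).trans (Metric.ball_subset_ball (by norm_num)))
  rwa [c2_re] at h1

theorem CH.sum_mass (h : CH F μ K a h0 u ρ S) (x : ℝ) (T : Finset ℤ)
    (hT : ∀ j ∈ T, |x - j * cl a| ≤ 3) : ∑ j ∈ T, S.mass ρ j ≤ μ * F.Φ x := by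
  obtain ⟨n1, n2, -, -⟩ := c2_num h.apos h.ale
  have a1 := h.ale
  have e1 : ((x : ℂ) + (F.φ x + π / 2 : ℝ) * Complex.I).re = x := by simp
  have e2 : ((x : ℂ) + (F.φ x + π / 2 : ℝ) * Complex.I).im = F.φ x + π / 2 := by simp
  have h1 := c2_mass h.dens (c := (x : ℂ) + (F.φ x + π / 2 : ℝ) * Complex.I)
    (E := ⋃ j ∈ T, S.rect j) (iUnion₂_subset fun j hj ζ hζ => by
      obtain ⟨g1, -, -, g2, g3⟩ := h.rect_geo hζ
      have g4 : |ζ.re - x| ≤ 4 := by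
        have g5 := abs_le.1 (hT j hj)
        rw [abs_le] at g1 ⊢
        unfold cl at *
        constructor <;> linarith only [n1, n2, a1, g1, g5]
      have p := abs_le.1 (h.c2_phi g4)
      have g5 : ‖ζ - ((x : ℂ) + (F.φ x + π / 2 : ℝ) * Complex.I)‖ ≤ 4 + 7 / 4 :=
        c2_norm (by rw [e1]; exact g4) (by
          unfold Frame.ht at g2 g3
          rw [e2, abs_le]
          constructor <;> linarith only [n1, n2, a1, g2, p, g3, pi_lt_d2])
      rw [mem_ball_iff_norm]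
      linarith only [n1, n2, a1, g5])
  rwa [integral_biUnion_finset T (fun j _ => c2_mrect S j) (fun i _ j _ hij => h.disjoint hij)
    fun j _ => (c2_int h.dens _ 3).mono_set (h.c2_sub j), e1] at h1

/-- `kq ≤ d * lam` almost everywhere, so the amplified mass is small -/
theorem CH.int_kq (h : CH F μ K a h0 u ρ S) (j : ℤ) :
    IntegrableOn (fun ζ => ρ ζ * S.kq F a h0 j ζ / S.d F a j ζ) (S.kept F a h0 j) ∧
    ∫ ζ in S.kept F a h0 j, ρ ζ * S.kq F a h0 j ζ / S.d F a j ζ ≤ a ^ 16 * F.Φ (j * cl a) ∧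
    ∫ ζ in S.kept F a h0 j, ρ ζ * S.kq F a h0 j ζ ≤ 4 * a ^ 16 * F.Φ (j * cl a) := by
  have hs : S.kept F a h0 j ⊆ Metric.ball (cen F a j) 3 := fun ζ hζ => (h.c2_kept hζ).1
  have hm := c2_mkept S F a h0 j
  have l0 : ∀ ζ, 0 ≤ ρ ζ * S.lam F a j ζ := fun ζ => mul_nonneg (h.dens.nonneg ζ)
    (add_nonneg (add_nonneg (add_nonneg (add_nonneg (add_nonneg zero_le_one (c2_lp _)) (c2_lp _))
      (c2_lp _)) (c2_lp _)) (c2_lp _))
  have e0 : ∀ ζ ∈ S.kept F a h0 j, 0 ≤ ρ ζ * S.kq F a h0 j ζ / S.d F a j ζ := fun ζ hζ =>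
    div_nonneg (mul_nonneg (h.dens.nonneg ζ) (mul_nonneg (h.c2_kept hζ).2.1.le (c2_s0 S h0 j ζ)))
      (h.c2_kept hζ).2.1.le
  have e1 : ∀ᵐ ζ : ℂ, ζ ∈ S.kept F a h0 j →
      ρ ζ * S.kq F a h0 j ζ / S.d F a j ζ ≤ ρ ζ * S.lam F a j ζ := by
    filter_upwards [ae_re_ne (S.xs j), ae_re_ne (S.xs (j + 1)), ae_im_ne (S.lo j),
      ae_im_ne (S.hi j)] with ζ a1 a2 a3 a4 hζ
    rw [Sel.kq, mul_div_assoc, mul_div_cancel_left₀ _ (h.c2_kept hζ).2.1.ne', Sel.lam]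
    refine mul_le_mul_of_nonneg_left ?_ (h.dens.nonneg ζ)
    linarith only [a1, a2, a3, a4, c2_lq2 h0 (sub_ne_zero.2 a1), c2_lq2 h0 (sub_ne_zero.2 a2),
      c2_lq2 h0 (sub_ne_zero.2 a3), c2_lq2 h0 (sub_ne_zero.2 a4),
      c2_lp (‖ζ - cen F a j‖ - S.rs j)]
  have i0 := (h.ok.int j).mono_set hs
  have i1 : IntegrableOn (fun ζ => ρ ζ * S.kq F a h0 j ζ / S.d F a j ζ) (S.kept F a h0 j) := by
    refine Integrable.mono' i0
      ((h.dens.meas.mul (c2_mkq S F a h0 j)).div (c2_md S F a j)).aestronglyMeasurable ?_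
    rw [ae_restrict_iff' hm]
    filter_upwards [e1] with ζ a1 hζ
    rw [Real.norm_of_nonneg (e0 ζ hζ)]
    exact a1 hζ
  have i2 := (setIntegral_mono_on_ae i1 i0 hm e1).trans ((setIntegral_mono_set (h.ok.int j)
    (Eventually.of_forall l0) hs.eventuallyLE).trans (h.ok.small j))
  refine ⟨i1, i2, ?_⟩
  have i3 : ∫ ζ in S.kept F a h0 j, ρ ζ * S.kq F a h0 j ζ ≤
      ∫ ζ in S.kept F a h0 j, 4 * (ρ ζ * S.kq F a h0 j ζ / S.d F a j ζ) := by
    refine setIntegral_mono_on (h.gps j).integrable_f (i1.const_mul 4) hm fun ζ hζ => ?_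
    have a1 := mul_le_mul_of_nonneg_right (h.c2_kept hζ).2.2 (e0 ζ hζ)
    rwa [mul_div_cancel₀ _ (h.c2_kept hζ).2.1.ne'] at a1
  rw [integral_const_mul] at i3
  linarith only [i2, i3]

end

end Pool.Agent.MinMod.Mo
end

-- merged part: Pool.Agent.Work.MP_f62247_an.Mo.C3
section
/-!
# The correction: sign near the circles, continuity, subharmonicity, bounds
`layer`: for `z` in the disc with `d z ≤ h0 / 100`: `P ≥ mass * d z * (a/4) / (4 * 4 * 16)` (`Gd_ge_lin`, `‖z - ζ‖ ≥ a/8`, `‖z - ζ‖ ≤ 4`), `q ≤ mass * d z * 32 / (a^5/2)`, because `‖z - w‖ ≥ dist(w) - dist(z) ≥ d w / 8` gives `Gd ≤ 32 d z / d w` (`Gd_le_lin`, `dd_ge_dist`),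
`s ≤ 32 d z ∫ ρ kq / d ≤ 32 d z a^16 Φ` (`int_kq`). So `corr ≥ mass * d z * (a/1024 - 64 a² - 32 a³) ≥ 0`.
Continuity of `corr j`: the bracket is continuous on the closed disc (`gp_md`) and vanishes on the circle (`gp_sphere`). `tot` is locally a finite sum (`near`, `disc_geo`).
`locSub`: take `s` so small that for each `j` near: the closed ball lies in the disc (`GpH.ca_eq`), or `z` is on the circle (`corr j z = 0`, `corr j ≥ 0` nearby by `layer`), or the ball misses the closed disc. The rectangles are disjoint, so `∑ ∫_{rect j} ρ gk ≤ pot ρ s z`.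
`up`: `u = ca u 1 - pot ρ 1`, `P j ≤ ∫_{rect j} ρ gk 1 + 2 mass j` (`Gd_le_log`), `sum_mass`.
-/

open Real MeasureTheory Set Filter Topology

namespace Pool.Agent.MinMod.Mo

noncomputable section

section general

variable {c : ℂ} {r h0 Kf : ℝ} {E : Set ℂ} {f : ℂ → ℝ} {τ : ℂ → ℂ} {z w : ℂ}

theorem c3_norm_le (hr : 0 ≤ r) (hz : 0 ≤ dd c r z) : ‖z - c‖ ≤ r := by
  unfold dd at hz
  exact (pow_le_pow_iff_left₀ (norm_nonneg _) hr two_ne_zero).1 (by linarith)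

theorem c3_dd_nonneg (hz : ‖z - c‖ ≤ r) : 0 ≤ dd c r z := by
  unfold dd
  have := pow_le_pow_left₀ (norm_nonneg (z - c)) hz 2
  linarith

theorem c3_sub_le (c z w : ℂ) : ‖z - c‖ - ‖w - c‖ ≤ ‖z - w‖ := by
  have h := norm_sub_norm_le (z - c) (w - c)
  rwa [sub_sub_sub_cancel_right] at h

theorem c3_Gd_le (hr : 1 ≤ r) (hr2 : r ≤ 2) (hz : ‖z - c‖ ≤ r) (hw : 0 < dd c r w)
    (h : 8 * dd c r z ≤ dd c r w) : Gd c r z w ≤ 32 * dd c r z / dd c r w := by
  have hz0 := c3_dd_nonneg hz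
  have hw1 := c3_norm_le (by linarith) hw.le
  have h1 := (dd_ge_dist hr hr2 hz).1
  have h2 := (dd_ge_dist hr hr2 hw1).2
  have h3 := c3_sub_le c z w
  have h4 : dd c r w / 8 ≤ ‖z - w‖ := by linarith only [h, h1, h2, h3]
  have h5 : (dd c r w / 8) ^ 2 ≤ ‖z - w‖ ^ 2 := pow_le_pow_left₀ (by positivity) h4 2
  have h6 : 1 ≤ r ^ 2 := one_le_pow₀ hr
  have h7 : 2 * (dd c r w / 8) ^ 2 ≤ 2 * r ^ 2 * ‖z - w‖ ^ 2 := by
    linarith only [h5, h6, sq_nonneg ‖z - w‖, mul_nonneg_of_nonpos_of_nonpos (Mathlib.Tactic.Linarith.sub_nonpos_of_le (sq_nonneg ‖z - w‖)) (Mathlib.Tactic.Linarith.sub_nonpos_of_le h6)]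
  calc Gd c r z w ≤ dd c r z * dd c r w / (2 * r ^ 2 * ‖z - w‖ ^ 2) := Gd_le_lin hz0 hw.le
    _ ≤ dd c r z * dd c r w / (2 * (dd c r w / 8) ^ 2) :=
        div_le_div_of_nonneg_left (by positivity) (by positivity) h7
    _ = 32 * dd c r z / dd c r w := by field_simp; ring

theorem c3_Gd_ge {a : ℝ} (ha : 0 < a) (ha1 : a ≤ 1) (hr : 1 ≤ r) (hr2 : r ≤ 2) (hz : ‖z - c‖ ≤ r)
    (hd : dd c r z ≤ a ^ 2 / 64) (hw : ‖w - c‖ ≤ r - a / 4) :
    dd c r z * (a / 1024) ≤ Gd c r z w := by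
  have hz0 := c3_dd_nonneg hz
  have hw1 : ‖w - c‖ ≤ r := by linarith only [ha, hw]
  have hw0 := c3_dd_nonneg hw1
  have h1 := (dd_ge_dist hr hr2 hz).1
  have h2 := (dd_ge_dist hr hr2 hw1).1
  have h3 := c3_sub_le c z w
  have ha2 : a ^ 2 ≤ a := by linarith only [ha, ha1, mul_nonneg_of_nonpos_of_nonpos (le_of_lt (Mathlib.Tactic.Linarith.sub_neg_of_lt ha)) (Mathlib.Tactic.Linarith.sub_nonpos_of_le ha1)]
  have h4 : a / 8 ≤ ‖z - w‖ := by linarith only [ha, hd, hw, h1, h3, ha2]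
  have h5 : (a / 8) ^ 2 ≤ ‖z - w‖ ^ 2 := pow_le_pow_left₀ (by positivity) h4 2
  have h6 : ‖z - w‖ ≤ 4 := by
    have h := norm_sub_le (z - c) (w - c)
    rw [sub_sub_sub_cancel_right] at h
    linarith only [ha, hr2, hz, hw, h]
  have h7 : ‖z - w‖ ^ 2 ≤ 4 ^ 2 := pow_le_pow_left₀ (norm_nonneg _) h6 2
  have h8 : r ^ 2 ≤ 2 ^ 2 := pow_le_pow_left₀ (by linarith only [hr]) hr2 2
  have h9 : dd c r w ≤ r ^ 2 := by
    unfold dd
    linarith only [sq_nonneg ‖w - c‖, sq_nonneg ‖w - c‖]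
  have h10 : dd c r z * dd c r w ≤ r ^ 2 * ‖z - w‖ ^ 2 := by
    rw [mul_comm]
    exact mul_le_mul h9 (by linarith only [hd, h5]) hz0 (sq_nonneg _)
  have hp : 0 < ‖z - w‖ := by linarith only [ha, hd, hw, h1, h3, ha2]
  have hr0 : 0 < r := by linarith only [hr]
  have h11 : 4 * r ^ 2 * ‖z - w‖ ^ 2 ≤ 256 := by
    linarith only [h8, h7, mul_le_mul h8 h7 (sq_nonneg _) (by norm_num : (0 : ℝ) ≤ 2 ^ 2), sq_nonneg ‖z - w‖]
  calc dd c r z * (a / 1024) = dd c r z * (a / 4) / 256 := by ring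
    _ ≤ dd c r z * dd c r w / 256 := by
        gcongr
        linarith only [hw, h2]
    _ ≤ dd c r z * dd c r w / (4 * r ^ 2 * ‖z - w‖ ^ 2) :=
        div_le_div_of_nonneg_left (by positivity) (by positivity) h11
    _ ≤ Gd c r z w := Gd_ge_lin hz0 hw0 h10

theorem c3_contOn (h : GpH c r h0 Kf E f τ) : ContinuousOn (gp c r E f τ) (Metric.closedBall c r) := by
  rw [Metric.continuousOn_iff]
  intro b hb ε hε
  have hK := h.K0
  obtain ⟨d, hd, H⟩ := gp_md (η := ε / (Kf + 1)) h.hpos (by positivity)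
  refine ⟨d, hd, fun x hx hxb => ?_⟩
  rw [mem_closedBall_iff_norm] at hb hx
  rw [dist_eq_norm] at hxb
  rw [Real.dist_eq]
  refine (H c r Kf E f τ h b x hb hx hxb.le).trans_lt ?_
  rw [div_mul_eq_mul_div, div_lt_iff₀ (by positivity)]
  linarith only [hε]

theorem c3_ind_eq {g : ℂ → ℝ} (hg : ∀ z, ‖z - c‖ = r → g z = 0) (hz : ‖z - c‖ ≤ r) :
    (Metric.ball c r).indicator g z = g z := by
  rcases hz.lt_or_eq with h | h
  · exact indicator_of_mem (mem_ball_iff_norm.2 h) _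
  · rw [indicator_of_notMem (by rw [mem_ball_iff_norm]; exact h.not_lt), hg z h]

theorem c3_cross {z z' : ℂ} (hz : ‖z - c‖ ≤ r) (hz' : r ≤ ‖z' - c‖) :
    ∃ p : ℂ, ‖p - c‖ = r ∧ ‖p - z‖ ≤ ‖z' - z‖ := by
  have hc : Continuous fun t : ℝ => ‖z + (t : ℂ) * (z' - z) - c‖ := by fun_prop
  have h := intermediate_value_Icc (zero_le_one' ℝ) hc.continuousOn
  obtain ⟨t, ht, e⟩ := h (show r ∈ _ from ⟨by simpa using hz, by simpa using hz'⟩)
  refine ⟨z + (t : ℂ) * (z' - z), e, ?_⟩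
  rw [add_sub_cancel_left, norm_mul, Complex.norm_real, Real.norm_of_nonneg ht.1]
  exact mul_le_of_le_one_left (norm_nonneg _) ht.2

theorem c3_ind_md {g : ℂ → ℝ} {d B : ℝ} (hB : 0 ≤ B) (hg : ∀ z, ‖z - c‖ = r → g z = 0)
    (hm : ∀ z z' : ℂ, ‖z - c‖ ≤ r → ‖z' - c‖ ≤ r → ‖z' - z‖ ≤ d → |g z' - g z| ≤ B)
    (z z' : ℂ) (hd : ‖z' - z‖ ≤ d) :
    |(Metric.ball c r).indicator g z' - (Metric.ball c r).indicator g z| ≤ B := by
  have out : ∀ p : ℂ, r ≤ ‖p - c‖ → (Metric.ball c r).indicator g p = 0 := fun p hp =>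
    indicator_of_notMem (by rw [mem_ball_iff_norm]; exact hp.not_gt) _
  rcases le_total ‖z - c‖ r with h1 | h1 <;> rcases le_total ‖z' - c‖ r with h2 | h2
  · rw [c3_ind_eq hg h1, c3_ind_eq hg h2]
    exact hm z z' h1 h2 hd
  · obtain ⟨p, hp, hp'⟩ := c3_cross h1 h2
    rw [c3_ind_eq hg h1, out z' h2, ← hg p hp]
    exact hm z p h1 hp.le (hp'.trans hd)
  · obtain ⟨p, hp, hp'⟩ := c3_cross h2 h1
    rw [c3_ind_eq hg h2, out z h1, ← hg p hp, abs_sub_comm]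
    rw [norm_sub_rev z z'] at hp'
    exact hm z' p h2 hp.le (hp'.trans hd)
  · rw [out z h1, out z' h2]
    simpa using hB

end general

variable {F : Frame} {μ K a h0 : ℝ} {u ρ : ℂ → ℝ} {S : Sel}

/-- the coefficient of the amplification -/
def c3_co (S : Sel) (F : Frame) (a : ℝ) (ρ : ℂ → ℝ) (j : ℤ) : ℝ :=
  S.mass ρ j / (a ^ 13 * F.Φ (j * cl a))

/-- the bracket -/
def c3_br (S : Sel) (F : Frame) (a h0 : ℝ) (ρ : ℂ → ℝ) (j : ℤ) (z : ℂ) : ℝ :=
  S.P F a ρ j z - a ^ 7 * S.q F a ρ j z - c3_co S F a ρ j * S.s F a h0 ρ j z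

theorem c3_corr (j : ℤ) : S.corr F a h0 ρ j =
    (Metric.ball (cen F a j) (S.rs j)).indicator (c3_br S F a h0 ρ j) := rfl

theorem c3_br_sphere {j : ℤ} {z : ℂ} (hz : ‖z - cen F a j‖ = S.rs j) : c3_br S F a h0 ρ j z = 0 := by
  simp [c3_br, Sel.P, Sel.q, Sel.s, gp_sphere hz]

theorem CH.c3_mu (h : CH F μ K a h0 u ρ S) : μ ≤ 1 :=
  h.mu.trans (pow_le_one₀ h.apos.le (by linarith only [h, h.ale]))

theorem CH.c3_co_mem (h : CH F μ K a h0 u ρ S) (j : ℤ) :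
    0 ≤ c3_co S F a ρ j ∧ c3_co S F a ρ j ≤ 1 := by
  have ha := h.apos
  have hΦ := F.Φ_pos (j * cl a)
  obtain ⟨h1, h2⟩ := h.mass_le j
  refine ⟨div_nonneg h1 (by positivity), (div_le_one (by positivity)).2 (h2.trans ?_)⟩
  refine mul_le_mul_of_nonneg_right (h.mu.trans ?_) hΦ.le
  exact pow_le_pow_of_le_one ha.le (by linarith only [h, h.ale]) (by norm_num)

theorem CH.c3_a7 (h : CH F μ K a h0 u ρ S) : 0 ≤ a ^ 7 ∧ a ^ 7 ≤ 1 :=
  ⟨pow_nonneg h.apos.le _, pow_le_one₀ h.apos.le (by linarith only [h, h.ale])⟩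

theorem CH.c3_br_cont (h : CH F μ K a h0 u ρ S) (j : ℤ) :
    ContinuousOn (c3_br S F a h0 ρ j) (Metric.closedBall (cen F a j) (S.rs j)) :=
  ((c3_contOn (h.gpP j)).sub (continuousOn_const.mul (c3_contOn (h.gpq j)))).sub
    (continuousOn_const.mul (c3_contOn (h.gps j)))

theorem CH.c3_Φ (h : CH F μ K a h0 u ρ S) {x : ℝ} {j : ℤ} (hj : |x - j * cl a| ≤ 3) :
    F.Φ (j * cl a) ≤ exp 6 * F.Φ x := by
  have := h.good.Φ_le h.c3_mu (x := x) (x' := j * cl a) (s := 3) (by rwa [abs_sub_comm])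
  norm_num at this
  exact this

theorem CH.c3_P_ge (h : CH F μ K a h0 u ρ S) {j : ℤ} {z : ℂ} (hz : ‖z - cen F a j‖ ≤ S.rs j)
    (hd : S.d F a j z ≤ h0 / 100) : S.mass ρ j * (S.d F a j z * (a / 1024)) ≤ S.P F a ρ j z := by
  have ha := h.apos
  have ha1 : a ≤ 1 := by linarith only [h, h.ale]
  have h6 : a ^ 6 ≤ a ^ 2 := pow_le_pow_of_le_one ha.le ha1 (by norm_num)
  have hd' : dd (cen F a j) (S.rs j) z ≤ a ^ 2 / 64 := by
    have := h.hle
    have := h.hpos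
    have : dd (cen F a j) (S.rs j) z ≤ h0 / 100 := hd
    linarith
  unfold Sel.mass Sel.P gp
  rw [← integral_mul_const]
  refine setIntegral_mono_on ((h.gpP j).integrable_f.mul_const _) ((h.gpP j).integrable hz)
    (h.gpP j).mE fun ζ hζ => ?_
  exact mul_le_mul_of_nonneg_left
    (c3_Gd_ge ha ha1 (h.rs_mem j).1 (h.rs_mem j).2 hz hd' (h.rect_geo hζ).2.1) (h.dens.nonneg ζ)

theorem CH.c3_q_le (h : CH F μ K a h0 u ρ S) {j : ℤ} {z : ℂ} (hz : ‖z - cen F a j‖ ≤ S.rs j)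
    (hd : S.d F a j z ≤ h0 / 100) : S.q F a ρ j z ≤ S.mass ρ j * (64 * S.d F a j z / a ^ 5) := by
  have ha := h.apos
  have ha1 : a ≤ 1 := by linarith only [h, h.ale]
  have h6 : a ^ 6 ≤ a ^ 5 := pow_le_pow_of_le_one ha.le ha1 (by norm_num)
  have h5 : 0 < a ^ 5 := by positivity
  have hd' : dd (cen F a j) (S.rs j) z ≤ h0 / 100 := hd
  have hz0 := c3_dd_nonneg hz
  unfold Sel.mass Sel.q gp
  rw [← integral_mul_const]
  refine setIntegral_mono_on ((h.gpq j).integrable hz) ((h.gpq j).integrable_f.mul_const _)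
    (h.gpq j).mE fun ζ hζ => ?_
  refine mul_le_mul_of_nonneg_left ?_ (h.dens.nonneg ζ)
  have h1 := (h.rect_geo hζ).2.2.1
  have h2 := (dd_ge_dist (h.rs_mem j).1 (h.rs_mem j).2
    (show ‖tgt F a ζ - cen F a j‖ ≤ S.rs j by linarith only [h5, h1])).1
  have h3 : a ^ 5 / 2 ≤ dd (cen F a j) (S.rs j) (tgt F a ζ) := by linarith only [h1, h2]
  refine (c3_Gd_le (h.rs_mem j).1 (h.rs_mem j).2 hz (by linarith only [h5, h1, h2])
    (by linarith only [h6, h5, hd', h1, h2, h, h.hle, h.hpos])).trans ?_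
  calc 32 * dd (cen F a j) (S.rs j) z / dd (cen F a j) (S.rs j) (tgt F a ζ)
      ≤ 32 * dd (cen F a j) (S.rs j) z / (a ^ 5 / 2) :=
        div_le_div_of_nonneg_left (by positivity) (by positivity) h3
    _ = 64 * S.d F a j z / a ^ 5 := by
        unfold Sel.d
        field_simp
        ring

theorem CH.c3_s_le (h : CH F μ K a h0 u ρ S) {j : ℤ} {z : ℂ} (hz : ‖z - cen F a j‖ ≤ S.rs j)
    (hd : S.d F a j z ≤ h0 / 100) :
    S.s F a h0 ρ j z ≤ a ^ 16 * F.Φ (j * cl a) * (32 * S.d F a j z) := by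
  have hd' : dd (cen F a j) (S.rs j) z ≤ h0 / 100 := hd
  have hz0 : 0 ≤ S.d F a j z := c3_dd_nonneg hz
  obtain ⟨i1, i2, -⟩ := h.int_kq j
  refine le_trans ?_ (mul_le_mul_of_nonneg_right i2 (by positivity))
  unfold Sel.s gp
  rw [← integral_mul_const]
  refine setIntegral_mono_on ((h.gps j).integrable hz) (i1.mul_const _)
    (h.gps j).mE fun ζ hζ => ?_
  have h1 : h0 ≤ dd (cen F a j) (S.rs j) ζ := (h.gps j).ins ζ hζ
  have hp := h.hpos
  refine (mul_le_mul_of_nonneg_left (c3_Gd_le (w := ζ) (h.rs_mem j).1 (h.rs_mem j).2 hz (by linarith only [h1, hp])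
    (by linarith only [hd', h1, hp])) ((h.gps j).f0 ζ hζ)).trans_eq ?_
  unfold Sel.d
  ring

theorem CH.layer : ∃ a0 : ℝ, 0 < a0 ∧ ∀ (F : Frame) (μ K a h0 : ℝ) (u ρ : ℂ → ℝ) (S : Sel),
    CH F μ K a h0 u ρ S → a ≤ a0 → ∀ (j : ℤ) (z : ℂ), S.d F a j z ≤ h0 / 100 →
      0 ≤ S.corr F a h0 ρ j z := by
  refine ⟨1 / 100000, by norm_num, fun F μ K a h0 u ρ S h ha0 j z hd => ?_⟩
  rw [c3_corr]
  refine indicator_apply_nonneg fun hz => ?_
  have hz' : ‖z - cen F a j‖ ≤ S.rs j := (mem_ball_iff_norm.1 hz).le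
  have ha := h.apos
  have hΦ := F.Φ_pos (j * cl a)
  have hz0 : 0 ≤ S.d F a j z := c3_dd_nonneg hz'
  have hm := (h.mass_le j).1
  have h1 := h.c3_P_ge hz' hd
  have h2 := mul_le_mul_of_nonneg_left (h.c3_q_le hz' hd) h.c3_a7.1
  have h3 := mul_le_mul_of_nonneg_left (h.c3_s_le hz' hd) (h.c3_co_mem j).1
  have e2 : a ^ 7 * (S.mass ρ j * (64 * S.d F a j z / a ^ 5)) =
      S.mass ρ j * S.d F a j z * (64 * a ^ 2) := by field_simp
  have e3 : c3_co S F a ρ j * (a ^ 16 * F.Φ (j * cl a) * (32 * S.d F a j z)) =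
      S.mass ρ j * S.d F a j z * (32 * a ^ 3) := by
    unfold c3_co
    field_simp
  have h4 : 0 ≤ a / 1024 - 64 * a ^ 2 - 32 * a ^ 3 := by
    have : a / 1024 - 64 * a ^ 2 - 32 * a ^ 3 = a * (1 / 1024 - 64 * a - 32 * a ^ 2) := by ring
    rw [this]
    exact mul_nonneg ha.le (by linarith only [ha0, ha, mul_nonneg_of_nonpos_of_nonpos (Mathlib.Tactic.Linarith.sub_nonpos_of_le ha0) (le_of_lt (Mathlib.Tactic.Linarith.sub_neg_of_lt ha))])
  have h5 := mul_nonneg (mul_nonneg hm hz0) h4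
  unfold c3_br
  linarith only [h1, h2, h3, e2, e3, h5]

theorem CH.continuous_corr (h : CH F μ K a h0 u ρ S) (j : ℤ) : Continuous (S.corr F a h0 ρ j) := by
  have hr : S.rs j ≠ 0 := by linarith [(h.rs_mem j).1]
  rw [c3_corr]
  refine continuous_indicator (fun z hz => ?_) ?_
  · rw [frontier_ball _ hr, mem_sphere_iff_norm] at hz
    exact c3_br_sphere hz
  · rw [closure_ball _ hr]
    exact h.c3_br_cont j

theorem c3_mem {j : ℤ} {z : ℂ} (hz : S.corr F a h0 ρ j z ≠ 0) : ‖z - cen F a j‖ < S.rs j := by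
  rw [c3_corr] at hz
  exact mem_ball_iff_norm.1 (mem_of_indicator_ne_zero hz)

theorem CH.tot_eq (h : CH F μ K a h0 u ρ S) {x : ℝ} {T : Finset ℤ}
    (hT : ∀ j : ℤ, j ∈ T ↔ |x - j * cl a| ≤ 3) {z : ℂ} (hz : |z.re - x| ≤ 1) :
    S.tot F a h0 ρ z = ∑ j ∈ T, S.corr F a h0 ρ j z := by
  refine finsum_eq_sum_of_support_subset _ fun j hj => ?_
  have h1 := (h.disc_geo (c3_mem hj).le).2.2
  rw [Finset.mem_coe, hT]
  rw [abs_le] at h1 hz ⊢
  constructor <;> linarith only [hz, h1, h1.1, h1.2, hz.1, hz.2]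

theorem c3_re {z w : ℂ} {s : ℝ} (h : ‖w - z‖ ≤ s) : |w.re - z.re| ≤ s := by
  rw [← Complex.sub_re]
  exact (Complex.abs_re_le_norm _).trans h

theorem CH.continuous_tot (h : CH F μ K a h0 u ρ S) : Continuous (S.tot F a h0 ρ) := by
  rw [continuous_iff_continuousAt]
  intro z
  obtain ⟨T, -, hT⟩ := h.near z.re
  have hc : Continuous fun w => ∑ j ∈ T, S.corr F a h0 ρ j w :=
    continuous_finsetSum _ fun j _ => h.continuous_corr j
  refine hc.continuousAt.congr ?_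
  filter_upwards [Metric.closedBall_mem_nhds z one_pos] with w hw
  exact (h.tot_eq hT (c3_re (mem_closedBall_iff_norm.1 hw))).symm

theorem CH.c3_AB (h : CH F μ K a h0 u ρ S) :
    0 ≤ K * exp 6 ∧ 0 ≤ K * exp 6 * (4 * (1 + 4 * -Real.log h0)) :=
  ⟨nonneg_of_mul_nonneg_left (h.gpP 0).K0 (F.Φ_pos _),
    nonneg_of_mul_nonneg_left (h.gps 0).K0 (F.Φ_pos _)⟩

theorem CH.uc_tot (h : CH F μ K a h0 u ρ S) : F.UC (S.tot F a h0 ρ) := by
  intro η hη
  obtain ⟨hA, hB⟩ := h.c3_AB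
  set A := K * exp 6 with hAe
  set B := A * (4 * (1 + 4 * -Real.log h0)) with hBe
  have ha := h.apos
  set C := 100 / a ^ 5 * ((2 * A + B + 1) * exp 6) with hC
  have hC0 : 0 < C := by positivity
  obtain ⟨d, hd, H⟩ := gp_md (η := η / C) h.hpos (by positivity)
  refine ⟨min d 1, by positivity, fun z _ z' hz => ?_⟩
  obtain ⟨T, hc, hT⟩ := h.near z.re
  have hΦ := F.Φ_pos z.re
  rw [h.tot_eq hT (z := z) (by simp), h.tot_eq hT (c3_re (hz.trans (min_le_right _ _))),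
    ← Finset.sum_sub_distrib]
  have key : ∀ j ∈ T, |S.corr F a h0 ρ j z' - S.corr F a h0 ρ j z| ≤
      η / C * ((2 * A + B + 1) * exp 6) * F.Φ z.re := by
    intro j hj
    have hΦj := F.Φ_pos (j * cl a)
    have h1 := h.c3_Φ ((hT j).1 hj)
    rw [c3_corr]
    refine c3_ind_md (d := d) (by positivity) (fun p hp => c3_br_sphere hp) (fun p p' hp hp' hd' => ?_)
      z z' (hz.trans (min_le_left _ _))
    have b1 : |S.P F a ρ j p' - S.P F a ρ j p| ≤ η / C * (A * F.Φ (j * cl a)) :=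
      H _ _ _ _ _ _ (h.gpP j) p p' hp hp' hd'
    have b2 : |S.q F a ρ j p' - S.q F a ρ j p| ≤ η / C * (A * F.Φ (j * cl a)) :=
      H _ _ _ _ _ _ (h.gpq j) p p' hp hp' hd'
    have b3 : |S.s F a h0 ρ j p' - S.s F a h0 ρ j p| ≤ η / C * (B * F.Φ (j * cl a)) :=
      H _ _ _ _ _ _ (h.gps j) p p' hp hp' hd'
    have e : c3_br S F a h0 ρ j p' - c3_br S F a h0 ρ j p = (S.P F a ρ j p' - S.P F a ρ j p) -
        a ^ 7 * (S.q F a ρ j p' - S.q F a ρ j p) -
        c3_co S F a ρ j * (S.s F a h0 ρ j p' - S.s F a h0 ρ j p) := by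
      unfold c3_br
      ring
    have b4 : |a ^ 7 * (S.q F a ρ j p' - S.q F a ρ j p)| ≤ η / C * (A * F.Φ (j * cl a)) := by
      rw [abs_mul, abs_of_nonneg h.c3_a7.1]
      exact (mul_le_of_le_one_left (abs_nonneg _) h.c3_a7.2).trans b2
    have b5 : |c3_co S F a ρ j * (S.s F a h0 ρ j p' - S.s F a h0 ρ j p)| ≤
        η / C * (B * F.Φ (j * cl a)) := by
      rw [abs_mul, abs_of_nonneg (h.c3_co_mem j).1]
      exact (mul_le_of_le_one_left (abs_nonneg _) (h.c3_co_mem j).2).trans b3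
    rw [e]
    calc _ ≤ η / C * (A * F.Φ (j * cl a)) + η / C * (A * F.Φ (j * cl a)) +
          η / C * (B * F.Φ (j * cl a)) :=
          (abs_sub _ _).trans (add_le_add ((abs_sub _ _).trans (add_le_add b1 b4)) b5)
      _ = η / C * ((2 * A + B) * F.Φ (j * cl a)) := by ring
      _ ≤ η / C * ((2 * A + B + 1) * (exp 6 * F.Φ z.re)) :=
          mul_le_mul_of_nonneg_left (mul_le_mul (by linarith only []) h1 hΦj.le (by positivity))
            (by positivity)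
      _ = _ := by ring
  calc _ ≤ ∑ j ∈ T, |S.corr F a h0 ρ j z' - S.corr F a h0 ρ j z| := Finset.abs_sum_le_sum_abs _ _
    _ ≤ T.card • (η / C * ((2 * A + B + 1) * exp 6) * F.Φ z.re) := Finset.sum_le_card_nsmul _ _ _ key
    _ ≤ 100 / a ^ 5 * (η / C * ((2 * A + B + 1) * exp 6) * F.Φ z.re) := by
        rw [nsmul_eq_mul]
        exact mul_le_mul_of_nonneg_right hc (by positivity)
    _ = η / C * C * F.Φ z.re := by rw [hC]; ring
    _ = η * F.Φ z.re := by rw [div_mul_cancel₀ _ hC0.ne']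

theorem CH.supp (h : CH F μ K a h0 u ρ S) {z : ℂ} (hz : S.tot F a h0 ρ z ≠ 0) :
    a / 4 ≤ F.ht z ∧ F.ht z ≤ π - a ^ 5 / 2 := by
  have : ∃ j, S.corr F a h0 ρ j z ≠ 0 := by
    by_contra hn
    push Not at hn
    exact hz (finsum_eq_zero_of_forall_eq_zero hn)
  obtain ⟨j, hj⟩ := this
  have h1 := h.disc_geo (c3_mem hj).le
  exact ⟨h1.1, h1.2.1⟩

theorem CH.c3_sum_pot (h : CH F μ K a h0 u ρ S) (T : Finset ℤ) (s : ℝ) (z : ℂ) :
    ∑ j ∈ T, ∫ ζ in S.rect j, ρ ζ * gk s (ζ - z) ≤ pot ρ s z := by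
  have hi := integrable_pot_of_le h.dens.meas h.dens.nonneg h.dens.le s z
  rw [← integral_biUnion_finset T (fun j _ => (h.gpP j).mE) (h.disjoint.set_pairwise _)
    fun j _ => hi.integrableOn]
  exact setIntegral_le_integral hi
    (Eventually.of_forall fun ζ => mul_nonneg (h.dens.nonneg ζ) (gk_nonneg _ _))

theorem CH.c3_loc (h : CH F μ K a h0 u ρ S)
    (hl : ∀ (j : ℤ) (z : ℂ), S.d F a j z ≤ h0 / 100 → 0 ≤ S.corr F a h0 ρ j z) (z : ℂ) (j : ℤ) :
    ∀ᶠ s in 𝓝[>] (0 : ℝ), S.corr F a h0 ρ j z - ∫ ζ in S.rect j, ρ ζ * gk s (ζ - z) ≤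
      ca (S.corr F a h0 ρ j) z s := by
  rcases lt_or_ge ‖z - cen F a j‖ (S.rs j) with h1 | h1
  · filter_upwards [Ioo_mem_nhdsGT (sub_pos.2 h1)] with s hs
    have hb : Metric.closedBall z s ⊆ Metric.closedBall (cen F a j) (S.rs j) :=
      Metric.closedBall_subset_closedBall' (by rw [dist_eq_norm]; linarith [hs.2])
    have cP : CircleIntegrable (S.P F a ρ j) z s := ci_of_cont (c3_contOn (h.gpP j)) hs.1.le hb
    have cq : CircleIntegrable (fun w => a ^ 7 • S.q F a ρ j w) z s :=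
      ci_of_cont ((c3_contOn (h.gpq j)).const_smul (a ^ 7)) hs.1.le hb
    have cs : CircleIntegrable (fun w => c3_co S F a ρ j • S.s F a h0 ρ j w) z s :=
      ci_of_cont ((c3_contOn (h.gps j)).const_smul (c3_co S F a ρ j)) hs.1.le hb
    have e1 : ca (S.corr F a h0 ρ j) z s = ca (fun w => S.P F a ρ j w - a ^ 7 • S.q F a ρ j w -
        c3_co S F a ρ j • S.s F a h0 ρ j w) z s := by
      refine circleAverage_congr_sphere fun w hw => ?_
      rw [abs_of_pos hs.1] at hw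
      rw [c3_corr]
      exact c3_ind_eq (fun p hp => c3_br_sphere hp)
        (mem_closedBall_iff_norm.1 (hb (Metric.sphere_subset_closedBall hw)))
    have e2 : ca (fun w => S.P F a ρ j w - a ^ 7 • S.q F a ρ j w -
        c3_co S F a ρ j • S.s F a h0 ρ j w) z s = ca (S.P F a ρ j) z s -
        a ^ 7 * ca (S.q F a ρ j) z s - c3_co S F a ρ j * ca (S.s F a h0 ρ j) z s := by
      have cPq : CircleIntegrable (fun w => S.P F a ρ j w - a ^ 7 • S.q F a ρ j w) z s := cP.sub cq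
      unfold ca
      rw [circleAverage_fun_sub cPq cs, circleAverage_fun_sub cP cq, circleAverage_fun_smul,
        circleAverage_fun_smul]
      rfl
    have eP : ca (S.P F a ρ j) z s = S.P F a ρ j z - ∫ ζ in S.rect j, ρ ζ * gk s (ζ - z) :=
      (h.gpP j).ca_eq hs.1 hb
    have eq : ca (S.q F a ρ j) z s ≤ S.q F a ρ j z := by
      refine ((h.gpq j).ca_eq hs.1 hb).trans_le (sub_le_self _ ?_)
      exact setIntegral_nonneg (h.gpq j).mE fun ζ hζ =>
        mul_nonneg ((h.gpq j).f0 ζ hζ) (gk_nonneg _ _)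
    have es : ca (S.s F a h0 ρ j) z s ≤ S.s F a h0 ρ j z := by
      refine ((h.gps j).ca_eq hs.1 hb).trans_le (sub_le_self _ ?_)
      exact setIntegral_nonneg (h.gps j).mE fun ζ hζ =>
        mul_nonneg ((h.gps j).f0 ζ hζ) (gk_nonneg _ _)
    rw [e1, e2, eP, c3_corr, indicator_of_mem (mem_ball_iff_norm.2 h1)]
    unfold c3_br
    linarith only [eq, h, es, mul_le_mul_of_nonneg_left eq h.c3_a7.1,
      mul_le_mul_of_nonneg_left es (h.c3_co_mem j).1]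
  · have hp := h.hpos
    filter_upwards [Ioo_mem_nhdsGT (show (0 : ℝ) < h0 / 400 by positivity)] with s hs
    have h2 : S.corr F a h0 ρ j z = 0 := by
      by_contra hn
      exact (c3_mem hn).not_ge h1
    have h3 : 0 ≤ ∫ ζ in S.rect j, ρ ζ * gk s (ζ - z) :=
      integral_nonneg fun ζ => mul_nonneg (h.dens.nonneg ζ) (gk_nonneg _ _)
    have h4 : 0 ≤ ca (S.corr F a h0 ρ j) z s := by
      refine circleAverage_nonneg_of_nonneg fun w hw => ?_
      rw [abs_of_pos hs.1, mem_sphere_iff_norm] at hw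
      by_cases hn : S.corr F a h0 ρ j w = 0
      · exact hn.ge
      refine hl j w ?_
      have h5 := (dd_ge_dist (h.rs_mem j).1 (h.rs_mem j).2 (c3_mem hn).le).2
      have h6 := c3_sub_le (cen F a j) z w
      rw [norm_sub_rev z w, hw] at h6
      unfold Sel.d
      linarith only [h1, h5, h6, hs, hs.2]
    linarith

theorem CH.locSub (h : CH F μ K a h0 u ρ S)
    (hl : ∀ (j : ℤ) (z : ℂ), S.d F a j z ≤ h0 / 100 → 0 ≤ S.corr F a h0 ρ j z) (z : ℂ) :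
    LocSub (fun w => u w + S.tot F a h0 ρ w) z := by
  obtain ⟨T, -, hT⟩ := h.near z.re
  have h1 := ((Filter.eventually_all_finset T).2 fun j _ => h.c3_loc hl z j).and
    (Ioo_mem_nhdsGT (zero_lt_one' ℝ))
  obtain ⟨r, hr, H⟩ := (nhdsGT_basis (0 : ℝ)).eventually_iff.1 h1
  refine ⟨r, hr, fun s hs hsr => ?_⟩
  obtain ⟨H1, H2⟩ := H (show s ∈ Ioo 0 r from ⟨hs, hsr⟩)
  have e1 : ca (S.tot F a h0 ρ) z s = ∑ j ∈ T, ca (S.corr F a h0 ρ j) z s := by
    unfold ca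
    rw [← circleAverage_fun_sum fun j _ =>
      ci_of_cont (h.continuous_corr j).continuousOn hs.le (subset_univ _)]
    refine circleAverage_congr_sphere fun w hw => ?_
    rw [abs_of_pos hs, mem_sphere_iff_norm] at hw
    exact h.tot_eq hT (c3_re (hw.le.trans H2.2.le))
  have e2 : ca (fun w => u w + S.tot F a h0 ρ w) z s = ca u z s + ca (S.tot F a h0 ρ) z s :=
    circleAverage_fun_add (ci_of_cont h.dens.cont.continuousOn hs.le (subset_univ _))
      (ci_of_cont h.continuous_tot.continuousOn hs.le (subset_univ _))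
  have h2 := Finset.sum_le_sum H1
  rw [Finset.sum_sub_distrib] at h2
  have h3 := h.c3_sum_pot T s z
  show u z + S.tot F a h0 ρ z ≤ _
  rw [e2, e1, h.dens.jen z s hs H2.2.le, h.tot_eq hT (z := z) (by simp)]
  linarith

theorem CH.up_P (h : CH F μ K a h0 u ρ S) (z : ℂ) (T : Finset ℤ) (hT : ∀ j ∈ T, z ∈ S.disc F a j) :
    u z + ∑ j ∈ T, S.P F a ρ j z ≤ F.M z + 3 * μ * F.Φ z.re := by
  have hz : ∀ j ∈ T, ‖z - cen F a j‖ ≤ S.rs j := fun j hj => (mem_ball_iff_norm.1 (hT j hj)).le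
  have h1 : ∀ j ∈ T, S.P F a ρ j z ≤ (∫ ζ in S.rect j, ρ ζ * gk 1 (ζ - z)) + S.mass ρ j * 2 := by
    intro j hj
    have i1 : IntegrableOn (fun ζ => ρ ζ * gk 1 (ζ - z)) (S.rect j) :=
      (h.gpP j).integrable_gk one_pos z
    have i2 : IntegrableOn (fun ζ => ρ ζ * 2) (S.rect j) := (h.gpP j).integrable_f.mul_const _
    unfold Sel.mass Sel.P gp
    rw [← integral_mul_const, ← integral_add i1 i2]
    refine setIntegral_mono_on ((h.gpP j).integrable (hz j hj)) (i1.add i2) (h.gpP j).mE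
      fun ζ hζ => ?_
    rw [← mul_add]
    exact mul_le_mul_of_nonneg_left (Gd_le_log (by linarith [(h.rs_mem j).1]) (h.rs_mem j).2
      (c3_dd_nonneg (hz j hj)) (h.hpos.le.trans ((h.gpP j).ins ζ hζ))) (h.dens.nonneg ζ)
  have h2 := Finset.sum_le_sum h1
  rw [Finset.sum_add_distrib, ← Finset.sum_mul] at h2
  have h3 := h.c3_sum_pot T 1 z
  have h4 := h.sum_mass z.re T fun j hj => (h.disc_geo (hz j hj)).2.2.trans (by norm_num)
  have h5 := h.dens.jen z 1 one_pos le_rfl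
  have h6 := (abs_le.1 (h.dens.calm z)).2
  linarith

theorem CH.up (h : CH F μ K a h0 u ρ S) (z : ℂ) :
    u z + S.tot F a h0 ρ z ≤ F.M z + 3 * μ * F.Φ z.re := by
  classical
  obtain ⟨T, -, hT⟩ := h.near z.re
  refine le_trans ?_ (h.up_P z (T.filter fun j => z ∈ S.disc F a j) fun j hj =>
    (Finset.mem_filter.1 hj).2)
  rw [h.tot_eq hT (z := z) (by simp), Finset.sum_filter]
  refine add_le_add le_rfl (Finset.sum_le_sum fun j _ => ?_)
  rw [c3_corr]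
  split_ifs with hj
  · have hz : ‖z - cen F a j‖ ≤ S.rs j := (mem_ball_iff_norm.1 hj).le
    rw [indicator_of_mem (show z ∈ Metric.ball (cen F a j) (S.rs j) from hj)]
    have h1 : 0 ≤ S.q F a ρ j z := (h.gpq j).nonneg hz
    have h2 : 0 ≤ S.s F a h0 ρ j z := (h.gps j).nonneg hz
    unfold c3_br
    linarith [mul_nonneg h.c3_a7.1 h1, mul_nonneg (h.c3_co_mem j).1 h2]
  · exact (indicator_of_notMem (show z ∉ Metric.ball (cen F a j) (S.rs j) from hj) _).le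

theorem CH.low (h : CH F μ K a h0 u ρ S) : ∃ K' : ℝ, ∀ z, -K' * F.Φ z.re ≤ S.tot F a h0 ρ z := by
  obtain ⟨hA, hB⟩ := h.c3_AB
  set A := K * exp 6 with hAe
  set B := A * (4 * (1 + 4 * -Real.log h0)) with hBe
  have ha := h.apos
  refine ⟨100 / a ^ 5 * (100 * (A + B) * exp 6), fun z => ?_⟩
  obtain ⟨T, hc, hT⟩ := h.near z.re
  have hΦ := F.Φ_pos z.re
  have key : ∀ j ∈ T, -S.corr F a h0 ρ j z ≤ 100 * (A + B) * exp 6 * F.Φ z.re := by
    intro j hj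
    by_cases hn : S.corr F a h0 ρ j z = 0
    · rw [hn, neg_zero]
      positivity
    have hz := c3_mem hn
    have h1 := h.c3_Φ ((hT j).1 hj)
    rw [c3_corr, indicator_of_mem (mem_ball_iff_norm.2 hz)]
    have p0 : 0 ≤ S.P F a ρ j z := (h.gpP j).nonneg hz.le
    have q0 : 0 ≤ S.q F a ρ j z := (h.gpq j).nonneg hz.le
    have s0 : 0 ≤ S.s F a h0 ρ j z := (h.gps j).nonneg hz.le
    have q1 : S.q F a ρ j z ≤ 100 * (A * F.Φ (j * cl a)) := (h.gpq j).le hz.le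
    have s1 : S.s F a h0 ρ j z ≤ 100 * (B * F.Φ (j * cl a)) := (h.gps j).le hz.le
    have q2 := mul_le_of_le_one_left q0 h.c3_a7.2
    have s2 := mul_le_of_le_one_left s0 (h.c3_co_mem j).2
    have h2 := mul_le_mul_of_nonneg_left h1 (add_nonneg hA hB)
    unfold c3_br
    linarith only [p0, q1, s1, q2, s2, h2]
  have h3 := Finset.sum_le_card_nsmul _ _ _ key
  rw [Finset.sum_neg_distrib, nsmul_eq_mul] at h3
  have h4 := mul_le_mul_of_nonneg_right hc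
    (show 0 ≤ 100 * (A + B) * exp 6 * F.Φ z.re by positivity)
  rw [h.tot_eq hT (z := z) (by simp)]
  linarith only [h3, h4]

theorem c3_da_mul (k : ℝ) (f : ℂ → ℝ) (z : ℂ) (R : ℝ) : da (fun w => k * f w) z R = k * da f z R := by
  unfold da
  rw [integral_const_mul]
  ring

theorem CH.c3_int (h : CH F μ K a h0 u ρ S) (j : ℤ) (z : ℂ) :
    IntegrableOn (S.corr F a h0 ρ j) (Metric.ball z 1) :=
  ((h.continuous_corr j).continuousOn.integrableOn_compact (isCompact_closedBall z 1)).mono_set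
    Metric.ball_subset_closedBall

theorem CH.c3_avg (h : CH F μ K a h0 u ρ S) (j : ℤ) (z : ℂ) :
    -S.mass ρ j ≤ da (S.corr F a h0 ρ j) z 1 := by
  obtain ⟨i1, b1⟩ := (h.gpq j).avg z
  obtain ⟨i2, b2⟩ := (h.gps j).avg z
  have b3 := (h.int_kq j).2.2
  have ha := h.apos
  have ha1 := h.ale
  have hΦ := F.Φ_pos (j * cl a)
  have hm := (h.mass_le j).1
  have j1 := i1.const_mul (-a ^ 7)
  have j2 := i2.const_mul (-c3_co S F a ρ j)
  refine le_trans ?_ (da_mono (j1.add j2) (h.c3_int j z) (Eventually.of_forall fun w _ => ?_))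
  · have e := da_add j1 j2
    rw [c3_da_mul, c3_da_mul] at e
    refine le_trans ?_ e.ge
    have c1 := mul_le_mul_of_nonneg_left b1 h.c3_a7.1
    have c2 := mul_le_mul_of_nonneg_left (b2.trans (mul_le_mul_of_nonneg_left b3 (by norm_num)))
      (h.c3_co_mem j).1
    have e3 : c3_co S F a ρ j * (3 * (4 * a ^ 16 * F.Φ (j * cl a))) = S.mass ρ j * (12 * a ^ 3) := by
      unfold c3_co
      field_simp
      ring
    have c3 : a ^ 7 ≤ a := by simpa using pow_le_pow_of_le_one ha.le (by linarith only [ha, ha1]) (show 1 ≤ 7 by norm_num)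
    have c4 : a ^ 3 ≤ a := by simpa using pow_le_pow_of_le_one ha.le (by linarith only [ha, ha1]) (show 1 ≤ 3 by norm_num)
    have c5 := mul_nonneg hm (show 0 ≤ 1 - 3 * a ^ 7 - 12 * a ^ 3 by linarith only [ha, ha1, c3, c4])
    have c6 : ∫ ζ in S.rect j, ρ ζ = S.mass ρ j := rfl
    rw [c6] at c1
    linarith only [c1, c2, e3, c5]
  · rw [c3_corr]
    by_cases hw : w ∈ Metric.ball (cen F a j) (S.rs j)
    · have p0 : 0 ≤ S.P F a ρ j w := (h.gpP j).nonneg (mem_ball_iff_norm.1 hw).le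
      simp only [Pi.add_apply, indicator_of_mem hw]
      unfold c3_br Sel.q Sel.s
      linarith only [p0]
    · simp [indicator_of_notMem hw]

theorem CH.avg (h : CH F μ K a h0 u ρ S) (z : ℂ) :
    -μ * F.Φ z.re ≤ da (S.tot F a h0 ρ) z 1 := by
  obtain ⟨T, -, hT⟩ := h.near z.re
  have e : da (S.tot F a h0 ρ) z 1 = ∑ j ∈ T, da (S.corr F a h0 ρ j) z 1 := by
    unfold da
    rw [← Finset.mul_sum, ← integral_finsetSum _ fun j _ => h.c3_int j z]
    congr 1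
    exact setIntegral_congr_fun measurableSet_ball fun w hw =>
      h.tot_eq hT (c3_re (mem_ball_iff_norm.1 hw).le)
  have h1 := Finset.sum_le_sum fun j (_ : j ∈ T) => h.c3_avg j z
  rw [Finset.sum_neg_distrib] at h1
  have h2 := h.sum_mass z.re T fun j hj => (hT j).1 hj
  rw [e]
  linarith

end

end Pool.Agent.MinMod.Mo
end

-- merged part: Pool.Agent.Work.MP_f62247_an.Mo.C4
section
/-!
# A dip that is not removed is not harmed
Let `p` lie in no rectangle, `u p ≤ -(1 - a^11) Φ`. If `p` is in no disc there is nothing to prove. Otherwise `ht p ∈ [a/4, π - a^5/2]`, so `M p ≥ -(1 - a^10/20) Φ` and the depth `pot ρ 1 p = ca u p 1 - u p ≥ a^10 Φ / 40`.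
For each `j` with `p ∈ disc j`: `corr j p ≤ P j p - A' (mass/Φ_j) s j p`.
(a) `d p < 4 h0`: then `‖p - ζ‖ ≥ a/8` on the rectangle and `P ≤ mass * 4 h0 * 4 * 64 / a²`.
(b) `d p ≥ 4 h0`. Harm: `P j p ≤ C mass kq p / a² + K' Φ h0²`: for `‖ζ - p‖ ≥ a/8` use `Gd_le_lin`; otherwise `d p ≥ a/8` and `Gd ≤ gk 1 + 2 ≤ gk h0 + posLog (1 / max ‖p-ζ‖ h0) + 2`, with `Sel.sep` the middle term is one of the `lq`; `∫ ρ gk h0 ≤ K e^6 Φ_j π h0²/2`.
Amplification: `t = min (d p / 16) (min_i (max |gap_i p| h0) / 2)`; on `ball p t`: `d ζ ≥ d p - 4 t ≥ d p / 2 ≥ h0`, `max |gap_i ζ| h0 ≤ 3/2 max |gap_i p| h0`, so `kq ζ ≥ kq p / 8`; `Gd p ζ ≥ gk t (ζ - p)` (`Gd_ge_log`).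
Depth: a.e. `gk 1 (ζ-p) ≤ gk t (ζ-p) + posLog (1 / max t ‖ζ-p‖)` and the last term is `≤ 3 lam j ζ` (the gap of `ζ` to the line, or circle, that realises `t` is `≤ 17 max t ‖ζ - p‖`); `ball p 1 ⊆ ball (cen j) 3`;
removed mass: `∫_{rect i} ρ gk 1 (ζ-p) ≤ ∫ ρ lam i` by `Sel.sep`, at most `100/a^5` indices. So `∫_{kept ∩ ball p t} ρ gk t ≥ (a^10/40 - C a^11) Φ`, and `a^{-13} a^10 / C' ≥ C / a²`.
Finally sum over at most `100/a^5` discs and choose `h1`.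
-/

open Real MeasureTheory Set Filter Topology

namespace Pool.Agent.MinMod.Mo

noncomputable section

theorem c4_pl {x y C : ℝ} (hx : 0 < x) (hy : 0 < y) (hC : 1 ≤ C) (h : x ≤ C * y) :
    Real.posLog (1 / y) ≤ Real.posLog (1 / x) + (C - 1) := by
  have h1 : 1 / y ≤ C * (1 / x) := by
    rw [mul_one_div, div_le_div_iff₀ hy hx]
    linarith
  have h2 : Real.posLog C ≤ C - 1 := by
    rw [Real.posLog_eq_log (by rw [abs_of_pos (by linarith)]; exact hC)]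
    exact Real.log_le_sub_one_of_pos (by linarith)
  have h3 := Real.posLog_le_posLog (by positivity) h1
  have h4 : Real.posLog (C * (1 / x)) ≤ Real.posLog C + Real.posLog (1 / x) := Real.posLog_mul
  linarith

theorem c4_split {s : ℝ} (hs : 0 < s) (v : ℂ) :
    gk 1 v ≤ gk s v + Real.posLog (1 / max ‖v‖ s) := by
  rcases le_total s ‖v‖ with h | h
  · rw [max_eq_left h]
    have h1 := gk_nonneg s v
    have h2 : gk 1 v = Real.posLog (1 / ‖v‖) := rfl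
    linarith
  · rw [max_eq_right h]
    rcases le_total s 1 with h1 | h1
    · have h2 := gk_le_add hs h1 v
      have h3 : Real.log (1 / s) ≤ Real.posLog (1 / s) := le_max_right _ _
      linarith
    · have h2 := gk_mono one_pos h1 v
      have h3 : 0 ≤ Real.posLog (1 / s) := Real.posLog_nonneg
      linarith

theorem c4_lq_nonneg (h0 x : ℝ) : 0 ≤ lq h0 x := Real.posLog_nonneg

theorem c4_lp_nonneg (x : ℝ) : 0 ≤ lp x := Real.posLog_nonneg

theorem c4_amp1 {h0 t x y : ℝ} (hh : 0 < h0) (h1 : |x - y| ≤ t) (h2 : t ≤ max |y| h0 / 2) :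
    lq h0 y ≤ lq h0 x + 1 / 2 := by
  have h3 : max |x| h0 ≤ 3 / 2 * max |y| h0 := by
    have h4 := le_max_left |y| h0
    have h5 := le_max_right |y| h0
    have h6 := abs_sub_abs_le_abs_sub x y
    exact max_le (by linarith only [h1, h2, h4, h6]) (by linarith)
  have h7 := c4_pl (lt_max_of_lt_right hh) (lt_max_of_lt_right hh) (by norm_num) h3
  unfold lq
  linarith only [h7]

theorem c4_dep1 {t n x y : ℝ} (ht : 0 < t) (hx : x ≠ 0) (h1 : |x - y| ≤ n) (h2 : |y| ≤ 16 * t) :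
    Real.posLog (1 / max n t) ≤ lp x + 16 := by
  have h3 : |x| ≤ 17 * max n t := by
    have h4 := le_max_left n t
    have h5 := le_max_right n t
    have h6 := abs_sub_abs_le_abs_sub x y
    linarith
  have h7 := c4_pl (abs_pos.2 hx) (lt_max_of_lt_right ht) (by norm_num) h3
  unfold lp
  linarith

theorem c4_sep1 {h0 n y : ℝ} (hh : 0 < h0) (h : |y| ≤ n) :
    Real.posLog (1 / max n h0) ≤ lq h0 y := by
  have h7 := c4_pl (x := max |y| h0) (y := max n h0) (C := 1) (lt_max_of_lt_right hh)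
    (lt_max_of_lt_right hh) le_rfl (by rw [one_mul]; exact max_le_max h le_rfl)
  unfold lq
  linarith

theorem c4_sep2 {x : ℝ} {v : ℂ} (hx : x ≠ 0) (h : |x| ≤ ‖v‖) : gk 1 v ≤ lp x := by
  have h7 := c4_pl (x := |x|) (y := ‖v‖) (C := 1) (abs_pos.2 hx)
    (lt_of_lt_of_le (abs_pos.2 hx) h) le_rfl (by rw [one_mul]; exact h)
  unfold lp gk
  linarith

theorem c4_re (ζ p : ℂ) (x : ℝ) : |ζ.re - x - (p.re - x)| ≤ ‖ζ - p‖ := by
  have h := Complex.abs_re_le_norm (ζ - p)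
  rwa [Complex.sub_re, show ζ.re - p.re = ζ.re - x - (p.re - x) by ring] at h

theorem c4_im (ζ p : ℂ) (x : ℝ) : |ζ.im - x - (p.im - x)| ≤ ‖ζ - p‖ := by
  have h := Complex.abs_im_le_norm (ζ - p)
  rwa [Complex.sub_im, show ζ.im - p.im = ζ.im - x - (p.im - x) by ring] at h

theorem c4_nm (ζ p c : ℂ) (x : ℝ) : |‖ζ - c‖ - x - (‖p - c‖ - x)| ≤ ‖ζ - p‖ := by
  have h := abs_norm_sub_norm_le (ζ - c) (p - c)
  rwa [show ζ - c - (p - c) = ζ - p by ring,
    show ‖ζ - c‖ - ‖p - c‖ = ‖ζ - c‖ - x - (‖p - c‖ - x) by ring] at h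

theorem c4_dd_nonneg {c z : ℂ} {r : ℝ} (h : ‖z - c‖ ≤ r) : 0 ≤ dd c r z := by
  have h1 := norm_nonneg (z - c)
  unfold dd
  linarith only [h, h1, mul_nonneg_of_nonpos_of_nonpos (Mathlib.Tactic.Linarith.sub_nonpos_of_le h) (Mathlib.Tactic.Linarith.sub_nonpos_of_le h), mul_nonneg_of_nonpos_of_nonpos (Mathlib.Tactic.Linarith.sub_nonpos_of_le h) (Mathlib.Tactic.Linarith.sub_nonpos_of_le h1)]

variable {F : Frame} {μ K a h0 : ℝ} {u ρ : ℂ → ℝ} {S : Sel}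

theorem c4_mu (h : CH F μ K a h0 u ρ S) : μ ≤ 1 :=
  h.mu.trans (pow_le_one₀ h.apos.le (by linarith [h.ale]))

theorem c4_far (h : CH F μ K a h0 u ρ S) {j : ℤ} {p ζ : ℂ} (hp : ‖p - cen F a j‖ ≤ S.rs j)
    (hζ : ζ ∈ S.rect j) (hd : a / 8 ≤ ‖ζ - p‖) :
    Gd (cen F a j) (S.rs j) p ζ ≤ 32 * S.d F a j p / a ^ 2 := by
  have ha := h.apos
  have hr := (h.rs_mem j).1
  have h1 := c4_dd_nonneg hp
  have h2 : 0 ≤ dd (cen F a j) (S.rs j) ζ :=
    c4_dd_nonneg ((h.rect_geo hζ).2.1.trans (by linarith only [ha]))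
  have h3 : dd (cen F a j) (S.rs j) ζ ≤ S.rs j ^ 2 := by
    unfold dd
    linarith [sq_nonneg ‖ζ - cen F a j‖]
  refine (Gd_le_lin h1 h2).trans ?_
  rw [norm_sub_rev p ζ]
  have h4 : (a / 8) ^ 2 ≤ ‖ζ - p‖ ^ 2 := pow_le_pow_left₀ (by positivity) hd 2
  calc dd (cen F a j) (S.rs j) p * dd (cen F a j) (S.rs j) ζ / (2 * S.rs j ^ 2 * ‖ζ - p‖ ^ 2)
      ≤ dd (cen F a j) (S.rs j) p * S.rs j ^ 2 / (2 * S.rs j ^ 2 * (a / 8) ^ 2) := by
        gcongr
    _ = 32 * S.d F a j p / a ^ 2 := by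
        unfold Sel.d
        field_simp
        ring

theorem c4_harm_pt (h : CH F μ K a h0 u ρ S) {j : ℤ} {p ζ : ℂ} (hp : ‖p - cen F a j‖ ≤ S.rs j)
    (hp' : p ∉ S.rect j) (hζ : ζ ∈ S.rect j) :
    Gd (cen F a j) (S.rs j) p ζ ≤ 32 * S.kq F a h0 j p / a ^ 2 + gk h0 (ζ - p) := by
  have ha := h.apos
  have ha' := h.ale
  have hr := h.rs_mem j
  have h1 : 0 ≤ S.d F a j p := c4_dd_nonneg hp
  have l1 := c4_lq_nonneg h0 (p.re - S.xs j)
  have l2 := c4_lq_nonneg h0 (p.re - S.xs (j + 1))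
  have l3 := c4_lq_nonneg h0 (p.im - S.lo j)
  have l4 := c4_lq_nonneg h0 (p.im - S.hi j)
  have hg := gk_nonneg h0 (ζ - p)
  unfold Sel.kq
  set L := 1 + lq h0 (p.re - S.xs j) + lq h0 (p.re - S.xs (j + 1)) + lq h0 (p.im - S.lo j) +
    lq h0 (p.im - S.hi j) with hL
  rcases le_total (a / 8) ‖ζ - p‖ with hd | hd
  · have h2 := c4_far h hp hζ hd
    have h3 : 32 * S.d F a j p / a ^ 2 ≤ 32 * (S.d F a j p * L) / a ^ 2 := by
      gcongr
      (refine le_of_not_gt fun h_nl => ?_; linarith only [h_nl, ha, ha', h1, l1, l2, l3, l4, mul_pos_of_neg_of_neg (Mathlib.Tactic.Linarith.sub_neg_of_lt ha) (Mathlib.Tactic.Linarith.sub_neg_of_lt h_nl), mul_nonneg_of_nonpos_of_nonpos (Mathlib.Tactic.Linarith.sub_nonpos_of_le ha') (le_of_lt (Mathlib.Tactic.Linarith.sub_neg_of_lt h_nl)), mul_nonneg_of_nonpos_of_nonpos (Mathlib.Tactic.Linarith.sub_nonpos_of_le h1) (Mathlib.Tactic.Linarith.sub_nonpos_of_le l1), mul_nonneg_of_nonpos_of_nonpos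 (Mathlib.Tactic.Linarith.sub_nonpos_of_le h1) (Mathlib.Tactic.Linarith.sub_nonpos_of_le l2), mul_nonneg_of_nonpos_of_nonpos (Mathlib.Tactic.Linarith.sub_nonpos_of_le h1) (Mathlib.Tactic.Linarith.sub_nonpos_of_le l3), mul_nonneg_of_nonpos_of_nonpos (Mathlib.Tactic.Linarith.sub_nonpos_of_le h1) (Mathlib.Tactic.Linarith.sub_nonpos_of_le l4)])
    linarith only [hg, h2, h3]
  · have h2 := (h.rect_geo hζ).2.1
    have h3 : ‖p - cen F a j‖ ≤ S.rs j - a / 8 := by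
      have h4 := (abs_le.1 (c4_nm ζ p (cen F a j) 0)).1
      linarith only [hd, h2, h4]
    have h4 : a / 8 ≤ S.d F a j p := by
      have h5 := (dd_ge_dist hr.1 hr.2 hp).1
      unfold Sel.d
      linarith only [h3, h5]
    have h5 := Gd_le_log (by linarith only [ha, ha', hr] : 0 < S.rs j) hr.2 (c4_dd_nonneg hp)
      (c4_dd_nonneg (h2.trans (by linarith only [ha])) : 0 ≤ dd (cen F a j) (S.rs j) ζ)
    have h6 := c4_split h.hpos (ζ - p)
    have h7 : Real.posLog (1 / max ‖ζ - p‖ h0) ≤ L - 1 := by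
      rcases S.sep hζ hp' with h8 | h8 | h8 | h8 <;>
      · have h9 := c4_sep1 h.hpos h8.2
        linarith only [l2, l3, l4, h9, l1]
    have h8 : 2 * L ≤ 32 * (S.d F a j p * L) / a ^ 2 := by
      rw [le_div_iff₀ (by positivity)]
      have h9 : 2 * a ^ 2 ≤ 32 * S.d F a j p := by linarith only [ha, h4, ha', mul_nonneg_of_nonpos_of_nonpos (le_of_lt (Mathlib.Tactic.Linarith.sub_neg_of_lt ha)) (Mathlib.Tactic.Linarith.sub_nonpos_of_le ha')]
      (refine le_of_not_gt fun h_nl => ?_; linarith only [h_nl, h4, ha, ha', l1, h9, l2, l3, l4, mul_pos_of_neg_of_neg (Mathlib.Tactic.Linarith.sub_neg_of_lt ha) (Mathlib.Tactic.Linarith.sub_neg_of_lt ha), mul_nonneg_of_nonpos_of_nonpos (le_of_lt (Mathlib.Tactic.Linarith.sub_neg_of_lt ha)) (Mathlib.Tactic.Linarith.sub_nonpos_of_le ha'), mul_pos_of_neg_of_neg (Mathlib.Tactic.Linarith.sub_neg_of_lt ha) (Mathlib.Tactic.Linarith.sub_neg_of_lt h_nl), mul_nonneg_of_nonpos_of_nonpos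 (Mathlib.Tactic.Linarith.sub_nonpos_of_le ha') (le_of_lt (Mathlib.Tactic.Linarith.sub_neg_of_lt h_nl)), mul_nonneg_of_nonpos_of_nonpos (Mathlib.Tactic.Linarith.sub_nonpos_of_le l1) (Mathlib.Tactic.Linarith.sub_nonpos_of_le h9), mul_nonneg_of_nonpos_of_nonpos (Mathlib.Tactic.Linarith.sub_nonpos_of_le l2) (Mathlib.Tactic.Linarith.sub_nonpos_of_le h9), mul_nonneg_of_nonpos_of_nonpos (Mathlib.Tactic.Linarith.sub_nonpos_of_le l3) (Mathlib.Tactic.Linarith.sub_nonpos_of_le h9), mul_nonneg_of_nonpos_of_nonpos (Mathlib.Tactic.Linarith.sub_nonpos_of_le l4) (Mathlib.Tactic.Linarith.sub_nonpos_of_le h9)])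
    linarith only [l1, l2, l3, l4, h5, h6, h7, h8]

theorem c4_P_small (h : CH F μ K a h0 u ρ S) {j : ℤ} {p : ℂ} (hp : ‖p - cen F a j‖ ≤ S.rs j)
    (hd : S.d F a j p ≤ 4 * h0) : S.P F a ρ j p ≤ 128 * h0 / a ^ 2 * S.mass ρ j := by
  have ha := h.apos
  have hr := h.rs_mem j
  have h1 : h0 ≤ a / 32 := by
    have h2 : a ^ 5 ≤ (1 / 100) ^ 5 := pow_le_pow_left₀ ha.le h.ale 5
    have h3 := h.hle
    linarith only [ha, h3, h2, mul_nonneg_of_nonpos_of_nonpos (le_of_lt (Mathlib.Tactic.Linarith.sub_neg_of_lt ha)) (Mathlib.Tactic.Linarith.sub_nonpos_of_le h2)]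
  unfold Sel.P gp Sel.mass
  rw [← integral_const_mul]
  refine setIntegral_mono_on ((h.gpP j).integrable hp) ((h.gpP j).integrable_f.const_mul _)
    (h.gpP j).mE fun ζ hζ => ?_
  have h2 := (h.rect_geo hζ).2.1
  have h3 := (dd_ge_dist hr.1 hr.2 hp).1
  have h4 := (abs_le.1 (c4_nm ζ p (cen F a j) 0)).1
  have h5 : a / 8 ≤ ‖ζ - p‖ := by
    unfold Sel.d at hd
    linarith only [hd, h1, h2, h3, h4]
  have h6 : Gd (cen F a j) (S.rs j) p ζ ≤ 128 * h0 / a ^ 2 :=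
    (c4_far h hp hζ h5).trans (by gcongr ?_ / _; linarith only [hd])
  rw [mul_comm]
  exact mul_le_mul_of_nonneg_right h6 (h.dens.nonneg ζ)

theorem c4_P_harm (h : CH F μ K a h0 u ρ S) {j : ℤ} {p : ℂ} (hp : ‖p - cen F a j‖ ≤ S.rs j)
    (hp' : p ∉ S.rect j) : S.P F a ρ j p ≤ 32 * S.kq F a h0 j p / a ^ 2 * S.mass ρ j +
      K * exp 6 * F.Φ (j * cl a) * (2 * h0 ^ 2) := by
  have G := h.gpP j
  have hg : Integrable fun ζ => gk h0 (ζ - p) := (integrable_gk h0).comp_sub_right p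
  have h1 : ∫ ζ in S.rect j, gk h0 (ζ - p) ≤ 2 * h0 ^ 2 := by
    refine (setIntegral_le_integral hg (Eventually.of_forall fun ζ => gk_nonneg _ _)).trans ?_
    rw [integral_sub_right_eq_self (gk h0) p, integral_gk h.hpos]
    linarith only [Real.pi_le_four, sq_nonneg h0, mul_nonneg_of_nonpos_of_nonpos (Mathlib.Tactic.Linarith.sub_nonpos_of_le (sq_nonneg h0)) (Mathlib.Tactic.Linarith.sub_nonpos_of_le pi_le_four)]
  have h2 : S.P F a ρ j p ≤ ∫ ζ in S.rect j, (32 * S.kq F a h0 j p / a ^ 2 * ρ ζ +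
      K * exp 6 * F.Φ (j * cl a) * gk h0 (ζ - p)) := by
    refine setIntegral_mono_on (G.integrable hp)
      ((G.integrable_f.const_mul _).add (hg.integrableOn.const_mul _)) G.mE fun ζ hζ => ?_
    have h3 := mul_le_mul_of_nonneg_left (c4_harm_pt h hp hp' hζ) (h.dens.nonneg ζ)
    have h4 := mul_le_mul_of_nonneg_right (G.fK ζ hζ) (gk_nonneg h0 (ζ - p))
    simp only [id]
    linarith only [h3, h4]
  rw [integral_add (G.integrable_f.const_mul _) (hg.integrableOn.const_mul _), integral_const_mul,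
    integral_const_mul] at h2
  have h3 := mul_le_mul_of_nonneg_left h1 G.K0
  unfold Sel.mass
  linarith only [h2, h3]

/-- the radius of the amplified neighbourhood -/
structure c4_T (F : Frame) (a h0 : ℝ) (S : Sel) (j : ℤ) (p : ℂ) (t : ℝ) : Prop where
  pos : 0 < t
  d : t ≤ S.d F a j p / 16
  g1 : t ≤ max |p.re - S.xs j| h0 / 2
  g2 : t ≤ max |p.re - S.xs (j + 1)| h0 / 2
  g3 : t ≤ max |p.im - S.lo j| h0 / 2
  g4 : t ≤ max |p.im - S.hi j| h0 / 2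
  att : S.d F a j p ≤ 16 * t ∨ |p.re - S.xs j| ≤ 16 * t ∨ |p.re - S.xs (j + 1)| ≤ 16 * t ∨
    |p.im - S.lo j| ≤ 16 * t ∨ |p.im - S.hi j| ≤ 16 * t

theorem c4_exists_T (hh : 0 < h0) {j : ℤ} {p : ℂ} (hd : 0 < S.d F a j p) :
    ∃ t, c4_T F a h0 S j p t := by
  have key : ∀ y t : ℝ, t = max |y| h0 / 2 → |y| ≤ 16 * t := by
    intro y t ht
    have h1 := le_max_left |y| h0
    have h2 := abs_nonneg y
    linarith only [ht, h1, h2]
  have hm : ∀ y : ℝ, 0 < max |y| h0 / 2 := fun y => half_pos (lt_max_of_lt_right hh)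
  refine ⟨min (S.d F a j p / 16) (min (max |p.re - S.xs j| h0 / 2)
    (min (max |p.re - S.xs (j + 1)| h0 / 2) (min (max |p.im - S.lo j| h0 / 2)
      (max |p.im - S.hi j| h0 / 2)))),
    lt_min (by positivity) (lt_min (hm _) (lt_min (hm _) (lt_min (hm _) (hm _)))), min_le_left _ _,
    (min_le_right _ _).trans (min_le_left _ _),
    (min_le_right _ _).trans ((min_le_right _ _).trans (min_le_left _ _)),
    (min_le_right _ _).trans ((min_le_right _ _).trans ((min_le_right _ _).trans (min_le_left _ _))),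
    (min_le_right _ _).trans ((min_le_right _ _).trans ((min_le_right _ _).trans (min_le_right _ _))),
    ?_⟩
  rcases min_choice (S.d F a j p / 16) _ with e | e
  · rw [e]
    exact Or.inl (by linarith)
  rw [e]
  rcases min_choice (max |p.re - S.xs j| h0 / 2) _ with e | e
  · exact Or.inr (Or.inl (key _ _ e))
  rw [e]
  rcases min_choice (max |p.re - S.xs (j + 1)| h0 / 2) _ with e | e
  · exact Or.inr (Or.inr (Or.inl (key _ _ e)))
  rw [e]
  rcases min_choice (max |p.im - S.lo j| h0 / 2) (max |p.im - S.hi j| h0 / 2) with e | e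
  · exact Or.inr (Or.inr (Or.inr (Or.inl (key _ _ e))))
  · exact Or.inr (Or.inr (Or.inr (Or.inr (key _ _ e))))

theorem c4_d_near (h : CH F μ K a h0 u ρ S) {j : ℤ} {p ζ : ℂ} {t : ℝ}
    (hp : ‖p - cen F a j‖ ≤ S.rs j) (T : c4_T F a h0 S j p t) (hζ : ‖ζ - p‖ ≤ t) :
    S.d F a j p / 2 ≤ S.d F a j ζ := by
  have hr := h.rs_mem j
  have h1 := (abs_le.1 (c4_nm ζ p (cen F a j) 0)).2
  have h2 := T.d
  have h3 := T.pos
  have h4 := norm_nonneg (p - cen F a j)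
  have h5 := norm_nonneg (ζ - cen F a j)
  have h6 : ‖ζ - cen F a j‖ ^ 2 ≤ (‖p - cen F a j‖ + t) ^ 2 :=
    pow_le_pow_left₀ h5 (by linarith only [hζ, h1]) 2
  unfold Sel.d dd at *
  have h7 : t ≤ 1 := by linarith only [hr, h2, h4, hp, mul_nonneg_of_nonpos_of_nonpos (Mathlib.Tactic.Linarith.sub_nonpos_of_le hp) (Mathlib.Tactic.Linarith.sub_nonpos_of_le hp), mul_nonneg_of_nonpos_of_nonpos (Mathlib.Tactic.Linarith.sub_nonpos_of_le hp) (Mathlib.Tactic.Linarith.sub_nonpos_of_le hr.right)]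
  linarith only [h2, h3, h6, hp, hr, h7, mul_nonneg_of_nonpos_of_nonpos (Mathlib.Tactic.Linarith.sub_nonpos_of_le hp) (le_of_lt (Mathlib.Tactic.Linarith.sub_neg_of_lt h3)), mul_nonneg_of_nonpos_of_nonpos (Mathlib.Tactic.Linarith.sub_nonpos_of_le hr.right) (le_of_lt (Mathlib.Tactic.Linarith.sub_neg_of_lt h3)), mul_nonneg_of_nonpos_of_nonpos (le_of_lt (Mathlib.Tactic.Linarith.sub_neg_of_lt h3)) (Mathlib.Tactic.Linarith.sub_nonpos_of_le h7)]

theorem c4_amp (h : CH F μ K a h0 u ρ S) {j : ℤ} {p : ℂ} {t : ℝ}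
    (hp : ‖p - cen F a j‖ ≤ S.rs j) (T : c4_T F a h0 S j p t) :
    S.kq F a h0 j p / 6 * ∫ ζ in S.kept F a h0 j, ρ ζ * gk t (ζ - p) ≤ S.s F a h0 ρ j p := by
  have G := h.gps j
  have hr := h.rs_mem j
  have hi := integrable_pot_of_le h.dens.meas h.dens.nonneg h.dens.le t p
  have hd : 0 ≤ S.d F a j p := c4_dd_nonneg hp
  unfold Sel.s gp
  rw [← integral_const_mul]
  refine setIntegral_mono_on (hi.integrableOn.const_mul _) (G.integrable hp) G.mE fun ζ hζ => ?_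
  have hζ0 : 0 ≤ dd (cen F a j) (S.rs j) ζ := h.hpos.le.trans (G.ins ζ hζ)
  rcases le_total t ‖ζ - p‖ with h1 | h1
  · rw [gk_eq_zero T.pos.le h1, mul_zero, mul_zero]
    exact mul_nonneg (G.f0 ζ hζ) (Gd_nonneg hd hζ0)
  · have h2 := c4_d_near h hp T h1
    have h3 : gk t (ζ - p) ≤ Gd (cen F a j) (S.rs j) p ζ := by
      refine Gd_ge_log (by linarith only [hr]) T.pos hd hζ0 ?_
      have h4 : t ^ 2 ≤ (S.d F a j p / 16) ^ 2 := pow_le_pow_left₀ T.pos.le T.d 2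
      have h5 : S.rs j ^ 2 ≤ 4 := by linarith only [hr, mul_nonneg_of_nonpos_of_nonpos (Mathlib.Tactic.Linarith.sub_nonpos_of_le hr.left) (Mathlib.Tactic.Linarith.sub_nonpos_of_le hr.right)]
      have h6 := mul_le_mul h5 h4 (sq_nonneg t) (by norm_num)
      have h7 := mul_le_mul_of_nonneg_left h2 hd
      unfold Sel.d at *
      linarith only [h6, h7, mul_self_nonneg ((1 : ℝ) * dd (cen F a j) (S.rs j) p)]
    have h4 : S.kq F a h0 j p / 6 ≤ S.kq F a h0 j ζ := by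
      have a1 := c4_amp1 h.hpos ((c4_re ζ p (S.xs j)).trans h1) T.g1
      have a2 := c4_amp1 h.hpos ((c4_re ζ p (S.xs (j + 1))).trans h1) T.g2
      have a3 := c4_amp1 h.hpos ((c4_im ζ p (S.lo j)).trans h1) T.g3
      have a4 := c4_amp1 h.hpos ((c4_im ζ p (S.hi j)).trans h1) T.g4
      have l1 := c4_lq_nonneg h0 (ζ.re - S.xs j)
      have l2 := c4_lq_nonneg h0 (ζ.re - S.xs (j + 1))
      have l3 := c4_lq_nonneg h0 (ζ.im - S.lo j)
      have l4 := c4_lq_nonneg h0 (ζ.im - S.hi j)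
      unfold Sel.kq
      set L := 1 + lq h0 (p.re - S.xs j) + lq h0 (p.re - S.xs (j + 1)) + lq h0 (p.im - S.lo j) +
        lq h0 (p.im - S.hi j) with hL
      set L' := 1 + lq h0 (ζ.re - S.xs j) + lq h0 (ζ.re - S.xs (j + 1)) + lq h0 (ζ.im - S.lo j) +
        lq h0 (ζ.im - S.hi j) with hL'
      have h5 : L ≤ 3 * L' := by linarith only [a1, a2, a3, a4, l1, l2, l3, l4]
      have h6 : 0 ≤ L' := by linarith only [l1, l2, l3, l4]
      have h7 := mul_le_mul_of_nonneg_left h5 hd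
      have h8 := mul_le_mul_of_nonneg_right h2 h6
      linarith only [h7, h8]
    have h5 := h.dens.nonneg ζ
    have h6 := gk_nonneg t (ζ - p)
    calc S.kq F a h0 j p / 6 * (ρ ζ * gk t (ζ - p))
        ≤ S.kq F a h0 j ζ * (ρ ζ * gk t (ζ - p)) :=
          mul_le_mul_of_nonneg_right h4 (mul_nonneg h5 h6)
      _ = ρ ζ * S.kq F a h0 j ζ * gk t (ζ - p) := by ring
      _ ≤ _ := mul_le_mul_of_nonneg_left h3 (G.f0 ζ hζ)

theorem c4_lam (S : Sel) (F : Frame) (a : ℝ) (j : ℤ) (ζ : ℂ) :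
    1 + lp (ζ.re - S.xs j) ≤ S.lam F a j ζ ∧ 1 + lp (ζ.re - S.xs (j + 1)) ≤ S.lam F a j ζ ∧
      1 + lp (ζ.im - S.lo j) ≤ S.lam F a j ζ ∧ 1 + lp (ζ.im - S.hi j) ≤ S.lam F a j ζ ∧
      1 + lp (‖ζ - cen F a j‖ - S.rs j) ≤ S.lam F a j ζ ∧ 1 ≤ S.lam F a j ζ := by
  have l1 := c4_lp_nonneg (ζ.re - S.xs j)
  have l2 := c4_lp_nonneg (ζ.re - S.xs (j + 1))
  have l3 := c4_lp_nonneg (ζ.im - S.lo j)
  have l4 := c4_lp_nonneg (ζ.im - S.hi j)
  have l5 := c4_lp_nonneg (‖ζ - cen F a j‖ - S.rs j)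
  unfold Sel.lam
  refine ⟨?_, ?_, ?_, ?_, ?_, ?_⟩ <;> linarith only [l2, l3, l4, l5, l1]

theorem c4_depth_pt (h : CH F μ K a h0 u ρ S) {j : ℤ} {p ζ : ℂ} {t : ℝ} {I : Finset ℤ}
    (hp : ‖p - cen F a j‖ ≤ S.rs j) (hp' : ∀ i, p ∉ S.rect i) (hd : 4 * h0 ≤ S.d F a j p)
    (T : c4_T F a h0 S j p t) (hI : ∀ i : ℤ, i ∈ I ↔ |p.re - i * cl a| ≤ 3)
    (n1 : ∀ i, ζ.re ≠ S.xs i) (n2 : ∀ i, ζ.im ≠ S.lo i) (n3 : ∀ i, ζ.im ≠ S.hi i)
    (n4 : ‖ζ - cen F a j‖ ≠ S.rs j) :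
    ρ ζ * gk 1 (ζ - p) ≤ (S.kept F a h0 j).indicator (fun ζ => ρ ζ * gk t (ζ - p)) ζ +
      16 * (Metric.ball (cen F a j) 3).indicator (fun ζ => ρ ζ * S.lam F a j ζ) ζ +
      ∑ i ∈ I, (Metric.ball (cen F a i) 3).indicator (fun ζ => ρ ζ * S.lam F a i ζ) ζ := by
  have hρ := h.dens.nonneg ζ
  have hr := h.rs_mem j
  have t1 : 0 ≤ (S.kept F a h0 j).indicator (fun ζ => ρ ζ * gk t (ζ - p)) ζ :=
    indicator_apply_nonneg fun _ => mul_nonneg hρ (gk_nonneg _ _)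
  have t2 : ∀ i, 0 ≤ (Metric.ball (cen F a i) 3).indicator (fun ζ => ρ ζ * S.lam F a i ζ) ζ :=
    fun i => indicator_apply_nonneg fun _ =>
      mul_nonneg hρ (zero_le_one.trans (c4_lam S F a i ζ).2.2.2.2.2)
  have t3 : 0 ≤ ∑ i ∈ I, (Metric.ball (cen F a i) 3).indicator
      (fun ζ => ρ ζ * S.lam F a i ζ) ζ := Finset.sum_nonneg fun i _ => t2 i
  have t4 := t2 j
  rcases le_total 1 ‖ζ - p‖ with h1 | h1
  · rw [gk_eq_zero zero_le_one h1, mul_zero]
    linarith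
  by_cases h2 : ∃ i, ζ ∈ S.rect i
  · obtain ⟨i, hi⟩ := h2
    have h3 : i ∈ I := by
      rw [hI]
      have h4 := abs_le.1 (h.rect_geo hi).1
      have h5 := abs_le.1 ((c4_re ζ p 0).trans h1)
      have h6 : cl a ≤ 1 := by
        have h7 : a ^ 5 ≤ 1 := pow_le_one₀ h.apos.le (by linarith only [h, h.ale])
        unfold cl
        linarith
      rw [abs_le]
      constructor <;> linarith only [h4, h5, h6, h4.1, h4.2, h5.1, h5.2]
    have h4 : gk 1 (ζ - p) ≤ S.lam F a i ζ := by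
      obtain ⟨m1, m2, m3, m4, -, -⟩ := c4_lam S F a i ζ
      rcases S.sep hi (hp' i) with h8 | h8 | h8 | h8
      · linarith only [m1, n1, h8, c4_sep2 (sub_ne_zero.2 (n1 i)) h8.1]
      · linarith [c4_sep2 (sub_ne_zero.2 (n1 (i + 1))) h8.1]
      · linarith [c4_sep2 (sub_ne_zero.2 (n2 i)) h8.1]
      · linarith [c4_sep2 (sub_ne_zero.2 (n3 i)) h8.1]
    have h5 := Finset.single_le_sum (f := fun i => (Metric.ball (cen F a i) 3).indicator
      (fun ζ => ρ ζ * S.lam F a i ζ) ζ) (fun i _ => t2 i) h3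
    rw [indicator_of_mem ((h.gpP i).sub hi)] at h5
    have h6 := mul_le_mul_of_nonneg_left h4 hρ
    linarith
  · have h3 : ζ ∈ Metric.ball (cen F a j) 3 := by
      rw [mem_ball_iff_norm]
      have h4 := (abs_le.1 (c4_nm ζ p (cen F a j) 0)).2
      have h5 := (dd_ge_dist hr.1 hr.2 hp).2
      have h6 := h.hpos
      unfold Sel.d at hd
      linarith [hr.2]
    have h4 : Real.posLog (1 / max ‖ζ - p‖ t) ≤ 16 * S.lam F a j ζ := by
      obtain ⟨m1, m2, m3, m4, m5, m6⟩ := c4_lam S F a j ζ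
      rcases T.att with h8 | h8 | h8 | h8 | h8
      · have h9 : |‖p - cen F a j‖ - S.rs j| ≤ 16 * t := by
          rw [abs_sub_comm, abs_of_nonneg (by linarith)]
          exact (dd_ge_dist hr.1 hr.2 hp).1.trans h8
        linarith only [m5, m6, T, n4, h9, c4_dep1 T.pos (sub_ne_zero.2 n4) (c4_nm ζ p (cen F a j) (S.rs j)) h9]
      · linarith only [m1, m6, T, n1, h8, c4_dep1 T.pos (sub_ne_zero.2 (n1 j)) (c4_re ζ p (S.xs j)) h8]
      · linarith only [m2, m6, T, n1, h8, c4_dep1 T.pos (sub_ne_zero.2 (n1 (j + 1))) (c4_re ζ p (S.xs (j + 1))) h8]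
      · linarith only [m3, m6, T, n2, h8, c4_dep1 T.pos (sub_ne_zero.2 (n2 j)) (c4_im ζ p (S.lo j)) h8]
      · linarith only [m4, m6, T, n3, h8, c4_dep1 T.pos (sub_ne_zero.2 (n3 j)) (c4_im ζ p (S.hi j)) h8]
    have h5 : ρ ζ * gk t (ζ - p) ≤ (S.kept F a h0 j).indicator (fun ζ => ρ ζ * gk t (ζ - p)) ζ := by
      rcases le_total t ‖ζ - p‖ with h6 | h6
      · rw [gk_eq_zero T.pos.le h6, mul_zero]
        exact t1
      · have h7 := c4_d_near h hp T h6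
        have h8 : ζ ∈ S.kept F a h0 j :=
          ⟨by show h0 ≤ S.d F a j ζ; linarith only [hd, h7, h, h.hpos], fun h9 => h2 (mem_iUnion.1 h9)⟩
        rw [indicator_of_mem h8]
    rw [indicator_of_mem h3]
    have h6 := mul_le_mul_of_nonneg_left ((c4_split T.pos (ζ - p)).trans
      (add_le_add_right h4 _)) hρ
    linarith only [t3, h5, h6]

theorem c4_depth_up (h : CH F μ K a h0 u ρ S) {j : ℤ} {p : ℂ} {t : ℝ}
    (hp : ‖p - cen F a j‖ ≤ S.rs j) (hp' : ∀ i, p ∉ S.rect i) (hd : 4 * h0 ≤ S.d F a j p)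
    (T : c4_T F a h0 S j p t) :
    pot ρ 1 p ≤ (∫ ζ in S.kept F a h0 j, ρ ζ * gk t (ζ - p)) +
      116 * exp 6 * a ^ 11 * F.Φ p.re := by
  obtain ⟨I, hc, hI⟩ := h.near p.re
  have ha := h.apos
  have hΦ := F.Φ_pos p.re
  have i1 : Integrable ((S.kept F a h0 j).indicator fun ζ => ρ ζ * gk t (ζ - p)) :=
    (integrable_pot_of_le h.dens.meas h.dens.nonneg h.dens.le t p).indicator (h.gps j).mE
  have i2 : ∀ i, Integrable ((Metric.ball (cen F a i) 3).indicator fun ζ => ρ ζ * S.lam F a i ζ) :=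
    fun i => (integrable_indicator_iff measurableSet_ball).2 (h.ok.int i)
  have i3 : Integrable fun ζ => ∑ i ∈ I, (Metric.ball (cen F a i) 3).indicator
      (fun ζ => ρ ζ * S.lam F a i ζ) ζ := integrable_finsetSum _ fun i _ => i2 i
  have b2 : ∀ i : ℤ, |p.re - i * cl a| ≤ 3 → ∫ ζ, (Metric.ball (cen F a i) 3).indicator
      (fun ζ => ρ ζ * S.lam F a i ζ) ζ ≤ a ^ 16 * (exp 6 * F.Φ p.re) := by
    intro i hi
    rw [integral_indicator measurableSet_ball]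
    refine (h.ok.small i).trans (mul_le_mul_of_nonneg_left ?_ (by positivity))
    have h1 := h.good.Φ_le (c4_mu h) (x := p.re) (x' := i * cl a) (s := 3) (by rwa [abs_sub_comm])
    rwa [show (2 : ℝ) * 3 = 6 by norm_num] at h1
  have h1 : pot ρ 1 p ≤ ∫ ζ, ((S.kept F a h0 j).indicator (fun ζ => ρ ζ * gk t (ζ - p)) ζ +
      16 * (Metric.ball (cen F a j) 3).indicator (fun ζ => ρ ζ * S.lam F a j ζ) ζ +
      ∑ i ∈ I, (Metric.ball (cen F a i) 3).indicator (fun ζ => ρ ζ * S.lam F a i ζ) ζ) := by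
    refine integral_mono_ae (integrable_pot_of_le h.dens.meas h.dens.nonneg h.dens.le 1 p)
      ((i1.add ((i2 j).const_mul 16)).add i3) ?_
    filter_upwards [ae_all_iff.2 fun i => ae_re_ne (S.xs i), ae_all_iff.2 fun i => ae_im_ne (S.lo i),
      ae_all_iff.2 fun i => ae_im_ne (S.hi i), ae_norm_ne (cen F a j) (S.rs j)] with ζ n1 n2 n3 n4
    exact c4_depth_pt h hp hp' hd T hI n1 n2 n3 n4
  have i4 : Integrable fun ζ => (S.kept F a h0 j).indicator (fun ζ => ρ ζ * gk t (ζ - p)) ζ +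
      16 * (Metric.ball (cen F a j) 3).indicator (fun ζ => ρ ζ * S.lam F a j ζ) ζ :=
    i1.add ((i2 j).const_mul 16)
  rw [integral_add i4 i3, integral_add i1 ((i2 j).const_mul 16),
    integral_const_mul, integral_finsetSum _ fun i _ => i2 i,
    integral_indicator (h.gps j).mE] at h1
  have h2 := b2 j ((h.disc_geo hp).2.2.trans (by norm_num))
  have h3 := Finset.sum_le_card_nsmul I _ _ fun i hi => b2 i ((hI i).1 hi)
  rw [nsmul_eq_mul] at h3
  have h4 : (I.card : ℝ) * (a ^ 16 * (exp 6 * F.Φ p.re)) ≤ 100 * exp 6 * a ^ 11 * F.Φ p.re := by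
    refine (mul_le_mul_of_nonneg_right hc (by positivity)).trans (le_of_eq ?_)
    field_simp
  have h5 : a ^ 16 * (exp 6 * F.Φ p.re) ≤ a ^ 11 * (exp 6 * F.Φ p.re) :=
    mul_le_mul_of_nonneg_right (pow_le_pow_of_le_one ha.le (by linarith only [h, h.ale]) (by norm_num))
      (by positivity)
  linarith only [h1, h2, h3, h4, h5]

theorem c4_depth_low (h : CH F μ K a h0 u ρ S) {j : ℤ} {p : ℂ} (hp : ‖p - cen F a j‖ ≤ S.rs j)
    (hu : u p ≤ -(1 - a ^ 11) * F.Φ p.re) : (a ^ 10 / 32 - 2 * a ^ 11) * F.Φ p.re ≤ pot ρ 1 p := by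
  have ha := h.apos
  have hΦ := F.Φ_pos p.re
  obtain ⟨g1, g2, -⟩ := h.disc_geo hp
  have h1 := h.dens.jen p 1 one_pos le_rfl
  have h2 := (abs_le.1 (h.dens.calm p)).1
  have h3 : μ ≤ a ^ 11 :=
    h.mu.trans (pow_le_pow_of_le_one ha.le (by linarith only [h, h.ale]) (by norm_num))
  have h5 : 0 < a ^ 5 := by positivity
  have h4 : -(1 - a ^ 10 / 32) ≤ cos (F.ht p) := by
    have h6 := Real.cos_le_one_sub_mul_cos_sq (x := π - F.ht p)
      (by rw [abs_of_nonneg (by linarith only [g2, h5])]; linarith only [ha, g1])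
    rw [Real.cos_pi_sub] at h6
    have h7 : (a ^ 5 / 2) ^ 2 ≤ (π - F.ht p) ^ 2 := pow_le_pow_left₀ (by positivity) (by linarith only [g2]) 2
    have h8 : (1 : ℝ) / 8 ≤ 2 / π ^ 2 := by
      rw [div_le_div_iff₀ (by norm_num) (by positivity)]
      linarith only [ha, g1, g2, h5, Real.pi_le_four, Real.pi_pos, mul_nonneg_of_nonpos_of_nonpos (le_of_lt (Mathlib.Tactic.Linarith.sub_neg_of_lt ha)) (Mathlib.Tactic.Linarith.sub_nonpos_of_le pi_le_four), mul_nonneg_of_nonpos_of_nonpos (Mathlib.Tactic.Linarith.sub_nonpos_of_le g1) (Mathlib.Tactic.Linarith.sub_nonpos_of_le pi_le_four), mul_nonneg_of_nonpos_of_nonpos (Mathlib.Tactic.Linarith.sub_nonpos_of_le g2) (Mathlib.Tactic.Linarith.sub_nonpos_of_le pi_le_four), mul_nonneg_of_nonpos_of_nonpos (le_of_lt (Mathlib.Tactic.Linarith.sub_neg_of_lt h5)) (Mathlib.Tactic.Linarith.sub_nonpos_of_le pi_le_four)]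
    have h9 := mul_le_mul h8 h7 (by positivity) (by positivity)
    linarith only [h6, h9]
  have h6 := mul_le_mul_of_nonneg_left h4 hΦ.le
  have h7 := mul_le_mul_of_nonneg_right h3 hΦ.le
  unfold Frame.M at h2
  linarith only [hu, h1, h2, h6, h7]

theorem c4_corr (h : CH F μ K a h0 u ρ S) (ha0 : a ≤ 1 / (12288 * exp 6)) {p : ℂ}
    (hp' : ∀ i, p ∉ S.rect i) (hu : u p ≤ -(1 - a ^ 11) * F.Φ p.re) (j : ℤ) :
    S.corr F a h0 ρ j p ≤ (1 + 2 * |K| * exp 6) * exp 6 * h0 * F.Φ p.re := by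
  have ha := h.apos
  have hh := h.hpos
  have hΦ := F.Φ_pos p.re
  have hΦj := F.Φ_pos (j * cl a)
  have hE : 1 ≤ exp 6 := Real.one_le_exp (by norm_num)
  have ha1 : a ≤ 1 := by linarith only [h, h.ale]
  have hh1 : h0 ≤ 1 := h.hle.trans (pow_le_one₀ ha.le ha1)
  by_cases hp0 : p ∈ S.disc F a j
  swap
  · unfold Sel.corr
    rw [indicator_of_notMem hp0]
    positivity
  have hp : ‖p - cen F a j‖ ≤ S.rs j := (mem_ball_iff_norm.1 hp0).le
  have hj : F.Φ (j * cl a) ≤ exp 6 * F.Φ p.re := by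
    have h1 := h.good.Φ_le (c4_mu h) (x := p.re) (x' := j * cl a) (s := 3)
      (by rw [abs_sub_comm]; exact (h.disc_geo hp).2.2.trans (by norm_num))
    rwa [show (2 : ℝ) * 3 = 6 by norm_num] at h1
  obtain ⟨m0, m1⟩ := h.mass_le j
  have q0 : 0 ≤ a ^ 7 * S.q F a ρ j p := mul_nonneg (by positivity) ((h.gpq j).nonneg hp)
  have e1 : 0 ≤ exp 6 * h0 * F.Φ p.re := by positivity
  have e2 : 0 ≤ 2 * |K| * exp 6 * (exp 6 * h0 * F.Φ p.re) := by positivity
  unfold Sel.corr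
  rw [indicator_of_mem hp0]
  rcases le_total (S.d F a j p) (4 * h0) with hd | hd
  · have s0 : 0 ≤ S.mass ρ j / (a ^ 13 * F.Φ (j * cl a)) * S.s F a h0 ρ j p :=
      mul_nonneg (by positivity) ((h.gps j).nonneg hp)
    have h1 := c4_P_small h hp hd
    have h2 : 128 * h0 / a ^ 2 * S.mass ρ j ≤ h0 * F.Φ (j * cl a) := by
      have h3 : S.mass ρ j ≤ a ^ 2 / 128 * F.Φ (j * cl a) := by
        refine m1.trans (mul_le_mul_of_nonneg_right (h.mu.trans ?_) hΦj.le)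
        have h4 : a ^ 16 ≤ (1 / 100) ^ 16 := pow_le_pow_left₀ ha.le h.ale 16
        have h5 : a ^ 18 = a ^ 2 * a ^ 16 := by ring
        have h6 : 0 < a ^ 2 := by positivity
        linarith only [h6, h4, mul_nonneg_of_nonpos_of_nonpos (Mathlib.Tactic.Linarith.sub_nonpos_of_le (sq_nonneg a)) (Mathlib.Tactic.Linarith.sub_nonpos_of_le h4)]
      refine (mul_le_mul_of_nonneg_left h3 (by positivity)).trans (le_of_eq ?_)
      field_simp
    have h3 := mul_le_mul_of_nonneg_left hj hh.le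
    linarith only [q0, e2, s0, h1, h2, h3]
  · obtain ⟨t, T⟩ := c4_exists_T (F := F) (a := a) (S := S) (j := j) (p := p) hh (by linarith)
    have h1 := c4_P_harm h hp (hp' j)
    have h2 := c4_amp h hp T
    have h3 := c4_depth_up h hp hp' hd T
    have h4 := c4_depth_low h hp hu
    have k0 : 0 ≤ S.kq F a h0 j p := by
      have l1 := c4_lq_nonneg h0 (p.re - S.xs j)
      have l2 := c4_lq_nonneg h0 (p.re - S.xs (j + 1))
      have l3 := c4_lq_nonneg h0 (p.im - S.lo j)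
      have l4 := c4_lq_nonneg h0 (p.im - S.hi j)
      exact mul_nonneg (by linarith only [hh, hd]) (by linarith only [l1, l2, l3, l4])
    have ha2 : 12288 * exp 6 * a ≤ 1 := by
      rw [le_div_iff₀ (by positivity)] at ha0
      linarith only [ha0]
    have h5 : 192 * a ^ 11 * F.Φ (j * cl a) ≤ ∫ ζ in S.kept F a h0 j, ρ ζ * gk t (ζ - p) := by
      have h6 : 0 < a ^ 10 * F.Φ p.re := by positivity
      have h7 := mul_le_mul_of_nonneg_right ha2 h6.le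
      have h8 := mul_le_mul_of_nonneg_left hj (by positivity : 0 ≤ a ^ 11)
      have h9 := mul_le_mul_of_nonneg_right hE (by positivity : 0 ≤ a ^ 11 * F.Φ p.re)
      linarith only [h3, h4, h6, h7, h8, h9]
    have h6 : 32 * S.kq F a h0 j p / a ^ 2 * S.mass ρ j ≤
        S.mass ρ j / (a ^ 13 * F.Φ (j * cl a)) * S.s F a h0 ρ j p := by
      have h7 := (mul_le_mul_of_nonneg_left h5 (by positivity : 0 ≤ S.kq F a h0 j p / 6)).trans h2
      refine le_trans (le_of_eq ?_) (mul_le_mul_of_nonneg_left h7 (by positivity))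
      field_simp
      ring
    have h7 : K * exp 6 * F.Φ (j * cl a) * (2 * h0 ^ 2) ≤
        2 * |K| * exp 6 * (exp 6 * h0 * F.Φ p.re) := by
      have h8 : h0 ^ 2 ≤ h0 := by linarith only [hh, hh1, mul_nonneg_of_nonpos_of_nonpos (le_of_lt (Mathlib.Tactic.Linarith.sub_neg_of_lt hh)) (Mathlib.Tactic.Linarith.sub_nonpos_of_le hh1)]
      calc K * exp 6 * F.Φ (j * cl a) * (2 * h0 ^ 2)
          ≤ |K| * exp 6 * (exp 6 * F.Φ p.re) * (2 * h0) := by
            gcongr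
            exact le_abs_self K
        _ = _ := by ring
    linarith only [q0, e1, h1, h6, h7]

theorem CH.kept_le : ∃ a0 : ℝ, 0 < a0 ∧ ∀ (a K ε' : ℝ), 0 < a → a ≤ a0 → 0 < ε' → ∃ h1 : ℝ, 0 < h1 ∧
    ∀ (F : Frame) (μ h0 : ℝ) (u ρ : ℂ → ℝ) (S : Sel), CH F μ K a h0 u ρ S → h0 ≤ h1 →
      ∀ p : ℂ, (∀ j, p ∉ S.rect j) → u p ≤ -(1 - a ^ 11) * F.Φ p.re →
        S.tot F a h0 ρ p ≤ ε' * F.Φ p.re := by
  refine ⟨1 / (12288 * exp 6), by positivity, fun a K ε' ha ha0 hε =>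
    ⟨ε' * a ^ 5 / (100 * ((1 + 2 * |K| * exp 6) * exp 6)), by positivity, ?_⟩⟩
  intro F μ h0 u ρ S h hh p hp hu
  obtain ⟨I, hc, hI⟩ := h.near p.re
  have hΦ := F.Φ_pos p.re
  have h0p := h.hpos
  rw [h.tot_eq hI (by simp)]
  refine (Finset.sum_le_card_nsmul I _ _ fun j _ => c4_corr h ha0 hp hu j).trans ?_
  rw [nsmul_eq_mul]
  calc (I.card : ℝ) * ((1 + 2 * |K| * exp 6) * exp 6 * h0 * F.Φ p.re)
      ≤ 100 / a ^ 5 * ((1 + 2 * |K| * exp 6) * exp 6 *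
        (ε' * a ^ 5 / (100 * ((1 + 2 * |K| * exp 6) * exp 6))) * F.Φ p.re) := by gcongr
    _ = ε' * F.Φ p.re := by field_simp

end

end Pool.Agent.MinMod.Mo
end

-- merged part: Pool.Agent.Work.MP_f62247_an.Mo.C5
section
/-!
# A removed dip reappears below the valley
`p ∈ rect i`, `u p ≤ -(1 - a^11) Φ`; `ht p ∈ [a/2, π - a/2]` gives `M p ≥ -(1 - a²/20) Φ`, depth `pot ρ 1 p ≥ a² Φ/40`. Put `v = a^5`. Mass outside all rectangles contributes `≤ ∫ ρ lam i ≤ a^16 Φ_i` (`Sel.sep`),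
and `gk 1 ≤ gk (v/100) + log (100/v)`, mass of `ball p 1` at most `μ Φ`. So `∑_j ∫_{rect j} ρ gk (v/100) (ζ - p) ≥ a² Φ / 80`, only `j` with `|re p - j l| ≤ 4 l` contribute. For those `p' = tgt p` lies in `disc j` with `d ≥ v/2` (`tgt_geo`), `d (tgt ζ) ≥ v/2`,
so `Gd p' (tgt ζ) ≥ gk (v/4) (tgt ζ - p') ≥ gk (v/100) (ζ - p)` a.e. (`‖tgt ζ - tgt p‖ ≤ 2 |re ζ - re p|`, nonzero a.e.). Then `u p' + tot p' ≤ M p' + 3 μ Φ - a^7 a² Φ/80` (`tot_eq`, `up_P`, `q, s ≥ 0`), `M p' = -Φ cos (2 v) ≤ -(1 - 2 a^10) Φ`.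
-/

open Real MeasureTheory Set Filter Topology

namespace Pool.Agent.MinMod.Mo

noncomputable section

variable {F : Frame} {μ K a h0 : ℝ} {u ρ : ℂ → ℝ} {S : Sel}

theorem c5_lp {t : ℝ} {v : ℂ} (ht : t ≠ 0) (h : |t| ≤ ‖v‖) : gk 1 v ≤ lp t :=
  Real.posLog_le_posLog (by positivity) (one_div_le_one_div_of_le (abs_pos.2 ht) h)

theorem c5_lam0 (S : Sel) (F : Frame) (a : ℝ) (i : ℤ) (ζ : ℂ) : 0 ≤ S.lam F a i ζ := by
  have k : ∀ t, 0 ≤ lp t := fun t => Real.posLog_nonneg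
  unfold Sel.lam
  linarith only [k, k (ζ.re - S.xs i), k (ζ.re - S.xs (i + 1)), k (ζ.im - S.lo i), k (ζ.im - S.hi i),
    k (‖ζ - cen F a i‖ - S.rs i)]

theorem c5_out (S : Sel) (F : Frame) (a : ℝ) {i : ℤ} {p ζ : ℂ} (hp : p ∈ S.rect i)
    (hζ : ζ ∉ S.rect i) (h1 : ζ.re ≠ S.xs i) (h2 : ζ.re ≠ S.xs (i + 1)) (h3 : ζ.im ≠ S.lo i)
    (h4 : ζ.im ≠ S.hi i) : gk 1 (ζ - p) ≤ S.lam F a i ζ := by
  have k : ∀ t, 0 ≤ lp t := fun t => Real.posLog_nonneg
  have e := norm_sub_rev p ζ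
  unfold Sel.lam
  have := k (ζ.re - S.xs i)
  have := k (ζ.re - S.xs (i + 1))
  have := k (ζ.im - S.lo i)
  have := k (ζ.im - S.hi i)
  have := k (‖ζ - cen F a i‖ - S.rs i)
  rcases S.sep hp hζ with h | h | h | h
  · linarith [c5_lp (sub_ne_zero.2 h1) (e ▸ h.2)]
  · linarith [c5_lp (sub_ne_zero.2 h2) (e ▸ h.2)]
  · linarith [c5_lp (sub_ne_zero.2 h3) (e ▸ h.2)]
  · linarith [c5_lp (sub_ne_zero.2 h4) (e ▸ h.2)]

theorem c5_mu (h : CH F μ K a h0 u ρ S) : 0 ≤ μ ∧ μ ≤ 1 :=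
  ⟨h.good.nonneg, h.mu.trans (pow_le_one₀ h.apos.le (h.ale.trans (by norm_num)))⟩

/-- the depth at a point of a rectangle comes from the mass in the rectangle -/
theorem c5_split (h : CH F μ K a h0 u ρ S) {i : ℤ} {p : ℂ} (hp : p ∈ S.rect i) {t : ℝ} (ht : 0 < t)
    (ht1 : t ≤ 1) : pot ρ 1 p ≤ a ^ 16 * F.Φ (i * cl a) + (∫ ζ in S.rect i, ρ ζ * gk t (ζ - p)) +
      μ * F.Φ (i * cl a) * (1 / t) := by
  have mE := (h.gpP i).mE
  have ip := integrable_pot_of_le h.dens.meas h.dens.nonneg h.dens.le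
  have i1 := (h.ok.int i).integrable_indicator Metric.isOpen_ball.measurableSet
  have i2 := (ip t p).indicator mE
  have i3 : Integrable ((S.rect i).indicator fun ζ => ρ ζ * (1 / t)) :=
    IntegrableOn.integrable_indicator ((h.gpP i).integrable_f.mul_const _) mE
  have hc : ‖p - cen F a i‖ ≤ 2 := by linarith only [h, hp, (h.rect_geo hp).2.1, (h.rs_mem i).2, h.apos]
  have key : pot ρ 1 p ≤ ∫ ζ, ((Metric.ball (cen F a i) 3).indicator
      (fun ζ => ρ ζ * S.lam F a i ζ) ζ + (S.rect i).indicator (fun ζ => ρ ζ * gk t (ζ - p)) ζ +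
      (S.rect i).indicator (fun ζ => ρ ζ * (1 / t)) ζ) := by
    refine integral_mono_ae (ip 1 p) ((i1.add i2).add i3) ?_
    filter_upwards [ae_re_ne (S.xs i), ae_re_ne (S.xs (i + 1)), ae_im_ne (S.lo i),
      ae_im_ne (S.hi i)] with ζ h1 h2 h3 h4
    have r0 := h.dens.nonneg ζ
    by_cases hζ : ζ ∈ S.rect i
    · have k1 : 0 ≤ (Metric.ball (cen F a i) 3).indicator (fun ζ => ρ ζ * S.lam F a i ζ) ζ :=
        indicator_nonneg (fun ζ _ => mul_nonneg (h.dens.nonneg ζ) (c5_lam0 S F a i ζ)) ζ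
      have k2 := gk_le_add ht ht1 (ζ - p)
      have k3 := Real.log_le_self (show 0 ≤ 1 / t by positivity)
      have k4 := mul_le_mul_of_nonneg_left (k2.trans (add_le_add le_rfl k3)) r0
      rw [indicator_of_mem hζ, indicator_of_mem hζ]
      linarith only [k1, k4]
    · rw [indicator_of_notMem hζ, indicator_of_notMem hζ, add_zero, add_zero]
      by_cases hb : ζ ∈ Metric.ball (cen F a i) 3
      · rw [indicator_of_mem hb]
        exact mul_le_mul_of_nonneg_left (c5_out S F a hp hζ h1 h2 h3 h4) r0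
      · rw [indicator_of_notMem hb, gk_eq_zero zero_le_one, mul_zero]
        rw [mem_ball_iff_norm, not_lt] at hb
        linarith [norm_sub_le_norm_sub_add_norm_sub ζ p (cen F a i)]
  have e := integral_add (i1.add i2) i3
  simp only [Pi.add_apply] at e
  rw [e, integral_add i1 i2,
    integral_indicator Metric.isOpen_ball.measurableSet, integral_indicator mE,
    integral_indicator mE, integral_mul_const] at key
  have k5 : (∫ ζ in S.rect i, ρ ζ) * (1 / t) ≤ μ * F.Φ (i * cl a) * (1 / t) :=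
    mul_le_mul_of_nonneg_right (h.mass_le i).2 (by positivity)
  linarith only [key, k5, h, h.ok.small i]

theorem c5_depth (h : CH F μ K a h0 u ρ S) {i : ℤ} {p : ℂ} (hp : p ∈ S.rect i) :
    -(1 - a ^ 2 / 20 + μ) * F.Φ p.re - u p ≤ pot ρ 1 p := by
  obtain ⟨-, -, -, g1, g2⟩ := h.rect_geo hp
  have a0 := h.apos
  have a1 := h.ale
  have p3 := Real.pi_gt_three
  have k1 := h.dens.jen p 1 one_pos le_rfl
  have k2 := (abs_le.1 (h.dens.calm p)).1
  have k3 : cos (π - a / 2) ≤ cos (F.ht p) :=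
    Real.cos_le_cos_of_nonneg_of_le_pi (by linarith only [g1, a0]) (by linarith only [a0]) g2
  have k4 : cos (a / 2) ≤ 1 - 2 / π ^ 2 * (a / 2) ^ 2 :=
    Real.cos_le_one_sub_mul_cos_sq (by rw [abs_of_pos (by linarith only [a0])]; linarith only [a0, a1, p3])
  have k5 : 1 / 5 ≤ 2 / π ^ 2 := by
    rw [div_le_div_iff₀ (by norm_num) (by positivity)]
    linarith only [a0, a1, g1, g2, Real.pi_lt_d2, mul_nonneg_of_nonpos_of_nonpos (Mathlib.Tactic.Linarith.sub_nonpos_of_le g1) (Mathlib.Tactic.Linarith.sub_nonpos_of_le a1), mul_nonneg_of_nonpos_of_nonpos (Mathlib.Tactic.Linarith.sub_nonpos_of_le g1) (le_of_lt (Mathlib.Tactic.Linarith.sub_neg_of_lt pi_lt_d2)), mul_nonneg_of_nonpos_of_nonpos (Mathlib.Tactic.Linarith.sub_nonpos_of_le g2) (Mathlib.Tactic.Linarith.sub_nonpos_of_le a1), mul_nonneg_of_nonpos_of_nonpos (Mathlib.Tactic.Linarith.sub_nonpos_of_le g2) (le_of_lt (Mathlib.Tactic.Linarith.sub_neg_of_lt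 pi_lt_d2)), mul_nonneg_of_nonpos_of_nonpos (le_of_lt (Mathlib.Tactic.Linarith.sub_neg_of_lt a0)) (Mathlib.Tactic.Linarith.sub_nonpos_of_le a1)]
  have k6 := mul_le_mul_of_nonneg_right k5 (sq_nonneg (a / 2))
  rw [Real.cos_pi_sub] at k3
  have k7 : F.Φ p.re * -(1 - a ^ 2 / 20) ≤ F.M p :=
    mul_le_mul_of_nonneg_left (by linarith only [k3, k4, k6]) (F.Φ_pos _).le
  linarith only [k1, k2, k7]

theorem c5_tgt_re (F : Frame) (a : ℝ) (ζ : ℂ) : (tgt F a ζ).re = ζ.re := by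
  simp only [tgt, Complex.add_re, Complex.ofReal_re, Complex.mul_re, Complex.I_re, Complex.I_im,
    Complex.ofReal_im, mul_zero, zero_mul, sub_zero, add_zero]

theorem c5_tgt_im (F : Frame) (a : ℝ) (ζ : ℂ) : (tgt F a ζ).im = F.φ ζ.re + π - 2 * a ^ 5 := by
  simp only [tgt, Complex.add_im, Complex.ofReal_re, Complex.mul_im, Complex.I_re, Complex.I_im,
    Complex.ofReal_im, mul_zero, mul_one, zero_add, add_zero]

theorem c5_tgt (h : CH F μ K a h0 u ρ S) {p ζ : ℂ} (hne : ζ.re ≠ p.re) :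
    gk (a ^ 5 / 8) (ζ - p) ≤ gk (a ^ 5 / 4) (tgt F a ζ - tgt F a p) := by
  have a0 := h.apos
  have e1 : (tgt F a ζ - tgt F a p).re = ζ.re - p.re := by
    rw [Complex.sub_re, c5_tgt_re, c5_tgt_re]
  have e2 : (tgt F a ζ - tgt F a p).im = F.φ ζ.re - F.φ p.re := by
    rw [Complex.sub_im, c5_tgt_im, c5_tgt_im]
    ring
  have k1 := Complex.norm_le_abs_re_add_abs_im (tgt F a ζ - tgt F a p)
  have k2 := Complex.abs_re_le_norm (tgt F a ζ - tgt F a p)
  have k3 := Complex.abs_re_le_norm (ζ - p)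
  have k4 := h.good.φ_sub p.re ζ.re
  have k5 := abs_pos.2 (sub_ne_zero.2 hne)
  have k6 := mul_le_of_le_one_left k5.le (c5_mu h).2
  rw [e1, e2] at k1
  rw [e1] at k2
  rw [Complex.sub_re] at k3
  refine Real.posLog_le_posLog (by positivity) ?_
  rw [div_le_div_iff₀ (by linarith) (by linarith)]
  have : 0 < a ^ 5 := by positivity
  linarith only [k1, this, k3, k4, k6, mul_nonneg_of_nonpos_of_nonpos (Mathlib.Tactic.Linarith.sub_nonpos_of_le k1) (le_of_lt (Mathlib.Tactic.Linarith.sub_neg_of_lt this)), mul_nonneg_of_nonpos_of_nonpos (Mathlib.Tactic.Linarith.sub_nonpos_of_le k3) (le_of_lt (Mathlib.Tactic.Linarith.sub_neg_of_lt this)), mul_nonneg_of_nonpos_of_nonpos (Mathlib.Tactic.Linarith.sub_nonpos_of_le k4) (le_of_lt (Mathlib.Tactic.Linarith.sub_neg_of_lt this)), mul_nonneg_of_nonpos_of_nonpos (Mathlib.Tactic.Linarith.sub_nonpos_of_le k6) (le_of_lt (Mathlib.Tactic.Linarith.sub_neg_of_lt this))]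

theorem c5_q (h : CH F μ K a h0 u ρ S) {i : ℤ} {p : ℂ} (hp : p ∈ S.rect i) :
    ∫ ζ in S.rect i, ρ ζ * gk (a ^ 5 / 8) (ζ - p) ≤ S.q F a ρ i (tgt F a p) := by
  have a5 : 0 < a ^ 5 := pow_pos h.apos 5
  obtain ⟨r1, r2⟩ := h.rs_mem i
  have dge : ∀ ζ ∈ S.rect i, a ^ 5 / 2 ≤ dd (cen F a i) (S.rs i) (tgt F a ζ) := fun ζ hζ => by
    have k := (h.rect_geo hζ).2.2.1
    linarith only [k, r1, r2, a5, (dd_ge_dist r1 r2 (z := tgt F a ζ) (c := cen F a i) (by linarith)).1]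
  have mE := (h.gpP i).mE
  refine integral_mono_ae
    (integrable_pot_of_le h.dens.meas h.dens.nonneg h.dens.le _ p).integrableOn
    ((h.gpq i).integrable (by linarith [(h.rect_geo hp).2.2.1])) ?_
  filter_upwards [ae_restrict_mem mE, ae_restrict_of_ae (ae_re_ne p.re)] with ζ hζ hne
  refine mul_le_mul_of_nonneg_left ((c5_tgt h hne).trans ?_) (h.dens.nonneg ζ)
  have d1 := dge p hp
  have d2 := dge ζ hζ
  refine Gd_ge_log (by linarith) (by positivity) (by linarith only [a5, d1]) (by linarith only [a5, d2]) ?_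
  refine le_trans ?_ (mul_le_mul d1 d2 (by positivity) (by linarith only [a5, d1]))
  have : S.rs i ^ 2 ≤ 4 := by linarith only [r2, r1, mul_nonneg_of_nonpos_of_nonpos (Mathlib.Tactic.Linarith.sub_nonpos_of_le r1) (Mathlib.Tactic.Linarith.sub_nonpos_of_le r2)]
  linarith only [this, sq_nonneg (a ^ 5), mul_nonneg_of_nonpos_of_nonpos (Mathlib.Tactic.Linarith.sub_nonpos_of_le (sq_nonneg (a ^ (5 : ℕ)))) (Mathlib.Tactic.Linarith.sub_nonpos_of_le this)]

theorem c5_tot (h : CH F μ K a h0 u ρ S) {i : ℤ} {p : ℂ} (hp : p ∈ S.rect i) :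
    u (tgt F a p) + S.tot F a h0 ρ (tgt F a p) ≤
      F.M (tgt F a p) + 3 * μ * F.Φ p.re - a ^ 7 * S.q F a ρ i (tgt F a p) := by
  classical
  have a0 := h.apos
  have a5 : 0 < a ^ 5 := pow_pos a0 5
  have a51 : a ^ 5 ≤ 1 := pow_le_one₀ a0.le (h.ale.trans (by norm_num))
  obtain ⟨T, -, hT⟩ := h.near p.re
  obtain ⟨g0, -, g1, -, -⟩ := h.rect_geo hp
  have iT : i ∈ T := (hT i).2 (g0.trans (by unfold cl; linarith only [a51]))
  have iD : tgt F a p ∈ S.disc F a i := mem_ball_iff_norm.2 (by linarith)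
  have k := h.up_P (tgt F a p) (T.filter fun j => tgt F a p ∈ S.disc F a j)
    fun j hj => (Finset.mem_filter.1 hj).2
  rw [c5_tgt_re, Finset.sum_filter] at k
  rw [h.tot_eq hT (by rw [c5_tgt_re, sub_self, abs_zero]; exact zero_le_one)]
  have le : ∑ j ∈ T, S.corr F a h0 ρ j (tgt F a p) ≤
      ∑ j ∈ T, ((if tgt F a p ∈ S.disc F a j then S.P F a ρ j (tgt F a p) else 0) -
        if j = i then a ^ 7 * S.q F a ρ i (tgt F a p) else 0) := by
    refine Finset.sum_le_sum fun j _ => ?_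
    by_cases hj : tgt F a p ∈ S.disc F a j
    · have n := (mem_ball_iff_norm.1 hj).le
      have q0 : 0 ≤ a ^ 7 * S.q F a ρ j (tgt F a p) :=
        mul_nonneg (by positivity) ((h.gpq j).nonneg n)
      have s0 : 0 ≤ S.mass ρ j / (a ^ 13 * F.Φ (j * cl a)) * S.s F a h0 ρ j (tgt F a p) :=
        mul_nonneg (div_nonneg (h.mass_le j).1 (mul_pos (pow_pos a0 _) (F.Φ_pos _)).le)
          ((h.gps j).nonneg n)
      rw [Sel.corr, indicator_of_mem hj, if_pos hj]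
      split_ifs with e
      · subst e
        linarith only [s0]
      · linarith only [q0, s0]
    · rw [Sel.corr, indicator_of_notMem hj, if_neg hj, if_neg (by rintro rfl; exact hj iD), sub_zero]
  rw [Finset.sum_sub_distrib, Finset.sum_ite_eq' T i, if_pos iT] at le
  linarith only [k, le]

theorem CH.new_le : ∃ a0 : ℝ, 0 < a0 ∧ ∀ (F : Frame) (μ K a h0 : ℝ) (u ρ : ℂ → ℝ) (S : Sel),
    CH F μ K a h0 u ρ S → a ≤ a0 → ∀ (p : ℂ) (i : ℤ), p ∈ S.rect i →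
      u p ≤ -(1 - a ^ 11) * F.Φ p.re →
      u (tgt F a p) + S.tot F a h0 ρ (tgt F a p) ≤ -(1 + a ^ 10) * F.Φ p.re := by
  refine ⟨1 / 300, by norm_num, fun F μ K a h0 u ρ S h ha p i hp hu => ?_⟩
  have a0 := h.apos
  have a1 : a ≤ 1 := by linarith
  have a5 : 0 < a ^ 5 := pow_pos a0 5
  have a51 : a ^ 5 ≤ 1 := pow_le_one₀ a0.le a1
  have pw : ∀ n : ℕ, a ^ (n + 1) ≤ 1 / 300 := fun n => (pow_le_of_le_one a0.le a1 n.succ_ne_zero).trans ha
  have Φ0 := F.Φ_pos p.re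
  obtain ⟨μ0, μ1⟩ := c5_mu h
  have g0 := (h.rect_geo hp).1
  have Φi : F.Φ (i * cl a) ≤ 2 * F.Φ p.re := by
    have e := abs_sub_comm p.re (i * cl a)
    have k0 : |i * cl a - p.re| ≤ 1 / 4 := by unfold cl at g0 e ⊢; linarith only [ha, a0, a51, g0, e]
    have k1 := (abs_le.1 (h.good.Φ_close μ1 k0)).2
    (refine le_of_not_gt fun h_nl => ?_; linarith only [h_nl, k1, ha, a0, Φ0, k0, mul_nonneg_of_nonpos_of_nonpos (Mathlib.Tactic.Linarith.sub_nonpos_of_le ha) (le_of_lt (Mathlib.Tactic.Linarith.sub_neg_of_lt h_nl)), mul_pos_of_neg_of_neg (Mathlib.Tactic.Linarith.sub_neg_of_lt a0) (Mathlib.Tactic.Linarith.sub_neg_of_lt h_nl), mul_nonneg_of_nonpos_of_nonpos (le_of_lt (Mathlib.Tactic.Linarith.sub_neg_of_lt Φ0)) (Mathlib.Tactic.Linarith.sub_nonpos_of_le k0)])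
  have k1 := c5_split h hp (t := a ^ 5 / 8) (by positivity) (by linarith only [ha, a0, a51])
  have k2 := c5_depth h hp
  have k3 := c5_q h hp
  have k4 := c5_tot h hp
  have k5 : μ * F.Φ (i * cl a) * (1 / (a ^ 5 / 8)) ≤ a ^ 18 * (2 * F.Φ p.re) * (1 / (a ^ 5 / 8)) :=
    mul_le_mul_of_nonneg_right (mul_le_mul h.mu Φi (F.Φ_pos _).le (by positivity)) (by positivity)
  have e5 : a ^ 18 * (2 * F.Φ p.re) * (1 / (a ^ 5 / 8)) = 16 * (a ^ 13 * F.Φ p.re) := by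
    field_simp
    ring
  have k6 := mul_le_mul_of_nonneg_left Φi (pow_pos a0 16).le
  have k7 := mul_le_mul_of_nonneg_right h.mu Φ0.le
  have sm : ∀ m n : ℕ, a ^ (m + (n + 1)) * F.Φ p.re ≤ a ^ m * F.Φ p.re * (1 / 300) := fun m n => by
    rw [pow_add, mul_right_comm]
    exact mul_le_mul_of_nonneg_left (pw n) (by positivity)
  have s1 := sm 2 8
  have s2 := sm 2 15
  have s3 := sm 2 13
  have s4 := sm 3 9
  have s5 := sm 2 0
  have s6 := sm 9 0
  have s7 := sm 10 7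
  norm_num only at s1 s2 s3 s4 s5 s6 s7
  have b2 : 0 < a ^ 2 * F.Φ p.re := by positivity
  have b9 : 0 < a ^ 9 * F.Φ p.re := by positivity
  have k8 : a ^ 2 * F.Φ p.re / 80 ≤ S.q F a ρ i (tgt F a p) := by linarith only [hu, k1, k2, k3, k5, e5, k6, k7, s1, s2, s3, s4, s5, b2]
  have k9 := mul_le_mul_of_nonneg_left k8 (pow_pos a0 7).le
  have k10 : F.M (tgt F a p) ≤ F.Φ p.re * -(1 - 2 * a ^ 10) := by
    have e : F.ht (tgt F a p) = π - 2 * a ^ 5 := by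
      rw [Frame.ht, c5_tgt_re, c5_tgt_im]
      ring
    rw [Frame.M, e, c5_tgt_re, Real.cos_pi_sub]
    refine mul_le_mul_of_nonneg_left ?_ Φ0.le
    linarith only [Real.one_sub_sq_div_two_le_cos (x := 2 * a ^ 5)]
  linarith only [k4, k7, s6, s7, b9, k9, k10]

end

end Pool.Agent.MinMod.Mo
end

-- merged part: Pool.Agent.Work.MP_f62247_an.Mo.C6
section
/-!
# Relocation on both slopes
`half`: collect C2 - C5 (`c = tot`). `relocate`: apply `half` to the data and to the mirror image (`Dens.refl`), `c2 z = c' (conj z)`; `G = u + c1 + c2`, `periodise` with `h0 = -π`, `L = 2π`, `d = a^5/4`.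
Near a point at most one of `c1`, `c2` is nonzero (`LocSub.congr`; for the mirror image `ca_conj`). Every point is a translate by a multiple of `2π I` of a point with height in `[-π, π)` (`per_int`).
`Bx P = Bx u`: where `c1 ≠ 0` one has `u + c1 ≤ M + 3 μ Φ ≤ (cos (a/4) + 3μ) Φ < (1-ν1) Φ ≤ Bx u` (`Dens.Bge`; note `cos h ≤ cos (a/4)` for `a/4 ≤ h ≤ π`), and the maximum point of `u` has `c1 = c2 = 0`.
The average: for `|ht z| ≤ π` the function `P` equals `u + c1 + c2 + c1 (· + 2π I) + c2 (· - 2π I)` on the unit disc around `z`. A strong cover point satisfies `u p ≤ -(1 - a^11) Φ` as `k ≥ 1`, `ε ≤ μ`; a new point has value `≤ -(1 + a^10) Φ ≤ -k Bx u`.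
-/

open Real MeasureTheory Set Filter Topology

namespace Pool.Agent.MinMod.Mo

noncomputable section

theorem c6_re (z : ℂ) (t : ℝ) : (z + t * Complex.I).re = z.re := by simp

theorem half : ∃ a0 : ℝ, 0 < a0 ∧ ∀ (F : Frame) (μ K a ε' : ℝ) (u ρ : ℂ → ℝ), 0 < a → a ≤ a0 →
    μ ≤ a ^ 18 → F.Good μ → Dens F μ K u ρ → 0 < ε' → ∃ c : ℂ → ℝ, Continuous c ∧ F.UC c ∧
      (∀ z, c z ≠ 0 → a / 4 ≤ F.ht z ∧ F.ht z ≤ π - a ^ 5 / 2) ∧
      (∀ z, LocSub (fun w => u w + c w) z) ∧ (∀ z, u z + c z ≤ F.M z + 3 * μ * F.Φ z.re) ∧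
      (∃ K' : ℝ, ∀ z, -K' * F.Φ z.re ≤ c z) ∧ (∀ z, -μ * F.Φ z.re ≤ da c z 1) ∧
      ∀ p : ℂ, 0 ≤ F.ht p → F.ht p ≤ π → u p ≤ -(1 - a ^ 11) * F.Φ p.re →
        ((F.ht p ≤ 2 * a ∨ π - 2 * a ≤ F.ht p) ∧ c p ≤ ε' * F.Φ p.re) ∨
        ∃ p' : ℂ, p'.re = p.re ∧ F.ht p' = π - 2 * a ^ 5 ∧
          u p' + c p' ≤ -(1 + a ^ 10) * F.Φ p.re := by
  obtain ⟨a1, h1, H1⟩ := exists_sel
  obtain ⟨a2, h2, H2⟩ := CH.layer
  obtain ⟨a3, h3, H3⟩ := CH.kept_le
  obtain ⟨a4, h4, H4⟩ := CH.new_le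
  refine ⟨min (min a1 a2) (min (min a3 a4) (1 / 100)), by positivity, ?_⟩
  intro F μ K a ε' u ρ ha hle hμ hF hD hε
  simp only [le_min_iff] at hle
  obtain ⟨⟨l1, l2⟩, ⟨l3, l4⟩, l5⟩ := hle
  obtain ⟨S, hS⟩ := H1 F μ K a u ρ ha l1 hμ hF hD
  obtain ⟨t, ht, Ht⟩ := H3 a K ε' ha l3 hε
  have h : CH F μ K a (min t (a ^ 6)) u ρ S :=
    ⟨ha, l5, by positivity, min_le_right _ _, hμ, hF, hD, hS⟩
  refine ⟨S.tot F a (min t (a ^ 6)) ρ, h.continuous_tot, h.uc_tot, fun z => h.supp,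
    h.locSub (H2 _ _ _ _ _ _ _ _ h l2), h.up, h.low, h.avg, fun p _ _ hp => ?_⟩
  by_cases hr : ∃ j, p ∈ S.rect j
  · obtain ⟨j, hj⟩ := hr
    refine Or.inr ⟨tgt F a p, ?_, ?_, H4 _ _ _ _ _ _ _ _ h l4 p j hj hp⟩
    · rw [tgt, c6_re, Complex.ofReal_re]
    · rw [tgt, F.ht_mk]
      ring
  · refine Or.inl ⟨?_, Ht F μ _ u ρ S h (min_le_left _ _) p (fun j hj => hr ⟨j, hj⟩) hp⟩
    by_contra hc
    rw [not_or, not_le, not_le] at hc
    exact hr (h.mem_rect hc.1.le hc.2.le)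

/-- the properties of a correction on the side where `h` is positive -/
structure c6_H (F : Frame) (h : ℂ → ℝ) (μ a ε' : ℝ) (u c : ℂ → ℝ) : Prop where
  cont : Continuous c
  uc : F.UC c
  supp : ∀ z, c z ≠ 0 → a / 4 ≤ h z ∧ h z ≤ π - a ^ 5 / 2
  loc : ∀ z, LocSub (fun w => u w + c w) z
  up : ∀ z, u z + c z ≤ F.M z + 3 * μ * F.Φ z.re
  low : ∃ K' : ℝ, ∀ z, -K' * F.Φ z.re ≤ c z
  avg : ∀ z, -μ * F.Φ z.re ≤ da c z 1
  cov : ∀ p : ℂ, 0 ≤ h p → h p ≤ π → u p ≤ -(1 - a ^ 11) * F.Φ p.re →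
    ((h p ≤ 2 * a ∨ π - 2 * a ≤ h p) ∧ c p ≤ ε' * F.Φ p.re) ∨
    ∃ p' : ℂ, p'.re = p.re ∧ h p' = π - 2 * a ^ 5 ∧ u p' + c p' ≤ -(1 + a ^ 10) * F.Φ p.re

theorem c6_H.zero {F : Frame} {h : ℂ → ℝ} {μ a ε' : ℝ} {u c : ℂ → ℝ} (H : c6_H F h μ a ε' u c)
    {z : ℂ} (hz : h z < a / 4 ∨ π - a ^ 5 / 2 < h z) : c z = 0 := by
  by_contra hc
  have := H.supp z hc
  rcases hz with hz | hz <;> linarith only [this, hz, this.1, this.2]

theorem c6_H.refl {F : Frame} {μ a ε' : ℝ} {u c : ℂ → ℝ}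
    (H : c6_H F.refl F.refl.ht μ a ε' (fun z => u (starRingEnd ℂ z)) c) :
    c6_H F (fun z => -F.ht z) μ a ε' u fun z => c (starRingEnd ℂ z) := by
  have hΦ : F.refl.Φ = F.Φ := rfl
  refine ⟨H.cont.comp Complex.continuous_conj, fun η hη => ?_, fun z hz => ?_, fun z => ?_,
    fun z => ?_, ?_, fun z => ?_, fun p h1 h2 h3 => ?_⟩
  · obtain ⟨d, hd, h⟩ := H.uc η hη
    refine ⟨d, hd, fun z _ z' hz => ?_⟩
    have := h (starRingEnd ℂ z) (mem_univ _) (starRingEnd ℂ z')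
      (by rwa [← map_sub, Complex.norm_conj])
    rwa [Complex.conj_re, hΦ] at this
  · have := H.supp _ hz
    rwa [F.refl_ht] at this
  · obtain ⟨r, hr, h⟩ := H.loc (starRingEnd ℂ z)
    refine ⟨r, hr, fun s h1 h2 => ?_⟩
    have := h s h1 h2
    rw [← ca_conj] at this
    simpa only [Complex.conj_conj] using this
  · have := H.up (starRingEnd ℂ z)
    rwa [Complex.conj_conj, F.refl_M, Complex.conj_re, hΦ] at this
  · obtain ⟨K', h⟩ := H.low
    refine ⟨K', fun z => ?_⟩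
    have := h (starRingEnd ℂ z)
    rwa [Complex.conj_re, hΦ] at this
  · have := H.avg (starRingEnd ℂ z)
    rwa [Complex.conj_re, hΦ, ← da_conj] at this
  · have := H.cov (starRingEnd ℂ p) (by rwa [F.refl_ht]) (by rwa [F.refl_ht])
      (by rwa [Complex.conj_conj, Complex.conj_re, hΦ])
    rw [F.refl_ht, Complex.conj_re, hΦ] at this
    refine this.imp id ?_
    rintro ⟨q, e1, e2, e3⟩
    refine ⟨starRingEnd ℂ q, by rwa [Complex.conj_re], ?_, by rwa [Complex.conj_conj]⟩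
    rw [← e2, ← F.refl_ht, Complex.conj_conj]

theorem c6_shift (f : ℂ → ℝ) (z t : ℂ) (R : ℝ) : da (fun w => f (w + t)) z R = da f (z + t) R := by
  have h := (measurePreserving_add_right (volume : Measure ℂ) t).setIntegral_preimage_emb
    (MeasurableEquiv.addRight t).measurableEmbedding f (Metric.ball (z + t) R)
  have e : (fun x : ℂ => x + t) ⁻¹' Metric.ball (z + t) R = Metric.ball z R := by
    ext w
    simp [Metric.mem_ball]
  rw [e] at h
  rw [da, da, h]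

theorem c6_int {f : ℂ → ℝ} (hf : Continuous f) (z : ℂ) (R : ℝ) : IntegrableOn f (Metric.ball z R) :=
  (hf.continuousOn.integrableOn_compact (isCompact_closedBall z R)).mono_set
    Metric.ball_subset_closedBall

theorem c6_red (F : Frame) (z : ℂ) : ∃ n : ℤ, -π ≤ F.ht z + n * (2 * π) ∧
    F.ht z + n * (2 * π) ≤ π := by
  have h := toIcoMod_mem_Ico two_pi_pos (-π) (F.ht z)
  refine ⟨-toIcoDiv two_pi_pos (-π) (F.ht z), ?_⟩
  rw [toIcoMod, zsmul_eq_mul] at h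
  push_cast
  constructor <;> linarith [h.1, h.2]

theorem c6_M (F : Frame) (z : ℂ) (n : ℤ) : F.M (z + (n * (2 * π) : ℝ) * Complex.I) = F.M z := by
  rw [Frame.M, Frame.M, c6_re, F.ht_add_I, cos_add_int_mul_two_pi]

theorem c6_sin {a h : ℝ} (ha : 0 < a) (h0 : 0 ≤ h) (h1 : h ≤ π) (h2 : h ≤ 2 * a ∨ π - 2 * a ≤ h) :
    |sin h| < 2 * a := by
  have key : ∀ t : ℝ, 0 ≤ t → t ≤ 2 * a → sin t < 2 * a := by
    intro t t0 t1
    rcases t0.eq_or_lt with rfl | t2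
    · rw [sin_zero]
      linarith
    · exact (sin_lt t2).trans_le t1
  rw [abs_of_nonneg (sin_nonneg_of_nonneg_of_le_pi h0 h1)]
  rcases h2 with h2 | h2
  · exact key h h0 h2
  · rw [← sin_pi_sub]
    exact key _ (by linarith) (by linarith)

theorem c6_per {F : Frame} {μ K a ε' : ℝ} {u ρ c1 c2 : ℂ → ℝ} (ha : 0 < a) (ha1 : a ≤ 1 / 100)
    (hD : Dens F μ K u ρ) (H1 : c6_H F F.ht μ a ε' u c1)
    (H2 : c6_H F (fun z => -F.ht z) μ a ε' u c2) :
    ∃ P : ℂ → ℝ, Continuous P ∧ SubOn P univ ∧ (∀ z, P (z + (2 * π : ℝ) * Complex.I) = P z) ∧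
      ∀ z, -π - a ^ 5 / 4 < F.ht z → F.ht z < π + a ^ 5 / 4 → P z = u z + c1 z + c2 z := by
  have h5 : 0 < a ^ 5 := by positivity
  have h6 : a ^ 5 ≤ 1 := pow_le_one₀ ha.le (by linarith)
  have hπ := pi_gt_three
  refine (periodise F (G := fun z => u z + c1 z + c2 z) (L := 2 * π)
    (h0 := -π) (d := a ^ 5 / 4) (by positivity) (by linarith only [ha, ha1, h6, hπ])
    ((hD.cont.add H1.cont).add H2.cont).continuousOn (fun z _ _ => ?_) fun z hz => ?_).imp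
    fun P hP => ⟨hP.1, hP.2.1, hP.2.2.1, fun z h1 h2 => hP.2.2.2 z h1 (by linarith only [h2])⟩
  · rcases lt_or_ge (F.ht z) 0 with h | h
    · refine (H2.loc z).congr ?_
      filter_upwards [(isOpen_lt F.continuous_ht continuous_const).mem_nhds h] with w hw
      rw [H1.zero (Or.inl (by linarith only [ha, hw, show F.ht w < 0 from hw])), add_zero]
    · refine (H1.loc z).congr ?_
      filter_upwards [(isOpen_lt continuous_const F.continuous_ht).mem_nhds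
        (show -(a / 4) < F.ht z by linarith only [ha, h])] with w hw
      rw [H2.zero (Or.inl (by linarith only [hw, show -(a / 4) < F.ht w from hw])), add_zero]
  · have e := F.ht_add_I z (2 * π)
    obtain ⟨l1, l2⟩ := abs_lt.1 hz
    have e1 : u (z + (2 * π : ℝ) * Complex.I) = u z := by
      push_cast
      exact hD.per z
    show _ + _ + _ = _ + _ + _
    rw [e1, H1.zero (Or.inr (by linarith only [h5, e, l1])), H1.zero (z := z) (Or.inl (by linarith only [ha, ha1, h6, hπ, l2])),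
      H2.zero (Or.inl (by linarith only [ha, ha1, h6, hπ, e, l1])), H2.zero (z := z) (Or.inr (by linarith only [h5, l2]))]

section

variable {F : Frame} {μ K a ε' : ℝ} {u ρ c1 c2 P : ℂ → ℝ}

theorem c6_up (ha : 0 < a) (H1 : c6_H F F.ht μ a ε' u c1)
    (H2 : c6_H F (fun z => -F.ht z) μ a ε' u c2) (z : ℂ) :
    u z + c1 z + c2 z ≤ F.M z + 3 * μ * F.Φ z.re := by
  rcases lt_or_ge (F.ht z) 0 with h | h
  · rw [H1.zero (Or.inl (by linarith)), add_zero]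
    exact H2.up z
  · rw [H2.zero (Or.inl (by linarith)), add_zero]
    exact H1.up z

theorem c6_cos (ha : 0 < a) (H1 : c6_H F F.ht μ a ε' u c1)
    (H2 : c6_H F (fun z => -F.ht z) μ a ε' u c2) {z : ℂ} (hz : ¬ (c1 z = 0 ∧ c2 z = 0)) :
    F.M z ≤ cos (a / 4) * F.Φ z.re := by
  have h5 : 0 < a ^ 5 := by positivity
  rw [Frame.M, mul_comm]
  refine mul_le_mul_of_nonneg_right ?_ (F.Φ_pos _).le
  rcases not_and_or.1 hz with h | h
  · obtain ⟨l1, l2⟩ := H1.supp z h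
    exact cos_le_cos_of_nonneg_of_le_pi (by linarith only [ha]) (by linarith) l1
  · obtain ⟨l1, l2⟩ := H2.supp z h
    rw [← cos_neg (F.ht z)]
    exact cos_le_cos_of_nonneg_of_le_pi (by linarith) (by linarith only [h5, l2]) l1

theorem c6_avg (ha : 0 < a) (ha1 : a ≤ 1 / 100) (hF : F.Good μ) (hμ : μ ≤ 1 / 10)
    (hD : Dens F μ K u ρ) (H1 : c6_H F F.ht μ a ε' u c1)
    (H2 : c6_H F (fun z => -F.ht z) μ a ε' u c2) (p1 : Continuous P)
    (p3 : ∀ z, P (z + (2 * π : ℝ) * Complex.I) = P z)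
    (p4 : ∀ z, -π - a ^ 5 / 4 < F.ht z → F.ht z < π + a ^ 5 / 4 → P z = u z + c1 z + c2 z)
    {z : ℂ} (l1 : -π ≤ F.ht z) (l2 : F.ht z ≤ π) : F.M z - 64 * μ * F.Φ z.re ≤ da P z 1 := by
  have h5 : 0 < a ^ 5 := by positivity
  have h6 : a ^ 5 ≤ 1 := pow_le_one₀ ha.le (by linarith only [ha, ha1])
  have hπ := pi_gt_three
  have hu : ∀ z, u (z + (2 * π : ℝ) * Complex.I) = u z := fun z => by
    push_cast
    exact hD.per z
  have k1 : Continuous fun w => c1 (w + (2 * π : ℝ) * Complex.I) := H1.cont.comp (by fun_prop)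
  have k2 : Continuous fun w => c2 (w + (-(2 * π) : ℝ) * Complex.I) := H2.cont.comp (by fun_prop)
  have k3 : Continuous fun w => u w + c1 w := hD.cont.add H1.cont
  have k4 : Continuous fun w => u w + c1 w + c2 w := k3.add H2.cont
  have k5 : Continuous fun w => u w + c1 w + c2 w + c1 (w + (2 * π : ℝ) * Complex.I) := k4.add k1
  have key : da (fun w => u w + c1 w + c2 w + c1 (w + (2 * π : ℝ) * Complex.I) +
      c2 (w + (-(2 * π) : ℝ) * Complex.I)) z 1 ≤ da P z 1 := by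
    refine da_mono (c6_int (k5.add k2) _ _) (c6_int p1 _ _) (ae_of_all _ fun w hw => le_of_eq ?_)
    have h1 := hF.ht_sub (by linarith) z w
    rw [mem_ball_iff_norm] at hw
    obtain ⟨m1, m2⟩ := abs_le.1 h1
    have e1 := F.ht_add_I w (2 * π)
    have e2 := F.ht_add_I w (-(2 * π))
    by_cases q1 : -π - a ^ 5 / 4 < F.ht w
    · by_cases q2 : F.ht w < π + a ^ 5 / 4
      · rw [p4 w q1 q2, H1.zero (z := w + _) (Or.inr (by linarith only [h5, e1, q1])),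
          H2.zero (z := w + _) (Or.inr (by linarith only [h5, e2, q2])), add_zero, add_zero]
      · have e3 : w + (-(2 * π) : ℝ) * Complex.I + (2 * π : ℝ) * Complex.I = w := by
          push_cast
          ring
        have e4 := p3 (w + (-(2 * π) : ℝ) * Complex.I)
        have e5 := hu (w + (-(2 * π) : ℝ) * Complex.I)
        rw [e3] at e4 e5
        rw [e4, p4 _ (by linarith only [h5, e2, q2]) (by linarith only [ha, ha1, l2, h5, hπ, hw, m2, e2]), ← e5, H1.zero (z := w) (Or.inr (by linarith only [h5, q2])),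
          H2.zero (z := w) (Or.inl (by linarith only [ha, ha1, h5, hπ, q2])),
          H1.zero (z := w + (2 * π : ℝ) * Complex.I) (Or.inr (by linarith only [ha, ha1, h5, hπ, e1, q2])),
          H1.zero (z := w + (-(2 * π) : ℝ) * Complex.I) (Or.inl (by linarith only [ha, ha1, l2, hπ, hw, m2, e2]))]
        ring
    · rw [← p3 w, p4 _ (by linarith only [ha, ha1, l1, h5, hπ, hw, m1, e1]) (by linarith only [h5, e1, q1]), hu, H1.zero (z := w) (Or.inl (by linarith only [ha, ha1, h5, hπ, q1])),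
        H2.zero (z := w) (Or.inr (by linarith only [h5, q1])),
        H2.zero (z := w + (2 * π : ℝ) * Complex.I) (Or.inl (by linarith only [ha, ha1, l1, hπ, hw, m1, e1])),
        H2.zero (z := w + (-(2 * π) : ℝ) * Complex.I) (Or.inr (by linarith only [ha, ha1, h5, hπ, e2, q1]))]
      ring
  rw [da_add (c6_int k5 _ _) (c6_int k2 _ _), da_add (c6_int k4 _ _) (c6_int k1 _ _),
    da_add (c6_int k3 _ _) (c6_int H2.cont _ _), da_add (c6_int hD.cont _ _) (c6_int H1.cont _ _),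
    c6_shift c1, c6_shift c2] at key
  have a1 := hD.avg hF hμ z
  have a2 := H1.avg z
  have a3 := H2.avg z
  have a4 := H1.avg (z + (2 * π : ℝ) * Complex.I)
  have a5 := H2.avg (z + (-(2 * π) : ℝ) * Complex.I)
  rw [c6_re] at a4 a5
  linarith only [key, a1, a2, a3, a4, a5]

theorem c6_Bx {ν1 : ℝ} (ha : 0 < a) (hμ : 0 ≤ μ) (hD : Dens F μ K u ρ)
    (H1 : c6_H F F.ht μ a ε' u c1) (H2 : c6_H F (fun z => -F.ht z) μ a ε' u c2) (p1 : Continuous P)
    (p3 : ∀ z, P (z + (2 * π : ℝ) * Complex.I) = P z)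
    (p4 : ∀ z, -π - a ^ 5 / 4 < F.ht z → F.ht z < π + a ^ 5 / 4 → P z = u z + c1 z + c2 z)
    (hν : cos (a / 4) + 3 * μ < 1 - ν1) (hB : ∀ x, (1 - ν1) * F.Φ x ≤ Bx u x) (x : ℝ) :
    Bx P x = Bx u x := by
  have h5 : 0 < a ^ 5 := by positivity
  have hΦ := F.Φ_pos x
  have h7 := mul_lt_mul_of_pos_right hν hΦ
  have h8 := hB x
  have h9 := mul_nonneg hμ hΦ.le
  refine le_antisymm (Bx_le fun y => ?_) ?_
  · obtain ⟨n, l1, l2⟩ := c6_red F (x + y * Complex.I)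
    rw [← F.ht_add_I] at l1 l2
    rw [← per_int p3 n, p4 _ (by linarith only [h5, l1]) (by linarith only [h5, l2])]
    have e : (x + y * Complex.I + (n * (2 * π) : ℝ) * Complex.I : ℂ).re = x := by
      rw [c6_re, c6_re, Complex.ofReal_re]
    generalize (x + y * Complex.I + (n * (2 * π) : ℝ) * Complex.I : ℂ) = z at e
    by_cases hz : c1 z = 0 ∧ c2 z = 0
    · rw [hz.1, hz.2, add_zero, add_zero, ← e]
      exact le_Bx hD.cont hD.per z
    · have m1 := c6_up ha H1 H2 z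
      have m2 := c6_cos ha H1 H2 hz
      rw [e] at m1 m2
      linarith only [h7, h8, m1, m2]
  · obtain ⟨y, l1, l2, e1⟩ := exists_Bx hD.cont hD.per x (F.φ x - π)
    have e2 := F.ht_mk x y
    have e : (x + y * Complex.I : ℂ).re = x := by rw [c6_re, Complex.ofReal_re]
    generalize (x + y * Complex.I : ℂ) = z at e e1 e2
    by_cases hz : c1 z = 0 ∧ c2 z = 0
    · have m1 := le_Bx p1 (fun z => by simpa using p3 z) z
      rw [p4 z (by linarith only [h5, l1, e2]) (by linarith only [h5, l2, e2]), hz.1, hz.2, add_zero, add_zero, e] at m1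
      linarith
    · have m1 := hD.up z
      have m2 := c6_cos ha H1 H2 hz
      rw [e] at m1 m2
      linarith only [h7, h8, h9, e1, m1, m2]

theorem c6_cov {k ε x0 : ℝ} (ha : 0 < a) (ha1 : a ≤ 1 / 100) (hD : Dens F μ K u ρ)
    (H1 : c6_H F F.ht μ a ε' u c1) (H2 : c6_H F (fun z => -F.ht z) μ a ε' u c2)
    (p3 : ∀ z, P (z + (2 * π : ℝ) * Complex.I) = P z)
    (p4 : ∀ z, -π - a ^ 5 / 4 < F.ht z → F.ht z < π + a ^ 5 / 4 → P z = u z + c1 z + c2 z)
    (hC : CovD F k ε μ (2 * a) x0 u) (hμ : μ ≤ a ^ 11)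
    (s1 : ∀ x, -k * Bx u x + ε * F.Φ x ≤ -(1 - a ^ 11) * F.Φ x)
    (s2 : ∀ x, -(1 + a ^ 10) * F.Φ x ≤ -k * Bx u x + (ε + ε') * F.Φ x) (x : ℝ) (hx : x0 ≤ x) :
    ∃ z : ℂ, z.re = x ∧ 1 / 2 - 2 * π ≤ F.ht z ∧ F.ht z ≤ 2 * a ∧
      P z ≤ -k * Bx u x + (ε + ε') * F.Φ x := by
  have h5 : 0 < a ^ 5 := by positivity
  have h6 : a ^ 5 ≤ 1 := pow_le_one₀ ha.le (by linarith only [ha, ha1])
  have hπ := pi_gt_three
  have hΦ := F.Φ_pos x
  obtain ⟨p, e, l1, l2, hp⟩ : ∃ p : ℂ, p.re = x ∧ -π ≤ F.ht p ∧ F.ht p ≤ π ∧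
      (u p ≤ -k * Bx u x + ε * F.Φ x ∨
        (2 * a ≤ |sin (F.ht p)| ∧ u p ≤ -(1 - μ) * F.Φ x)) := by
    obtain ⟨y, hy⟩ := hC x hx
    obtain ⟨n, l1, l2⟩ := c6_red F (x + y * Complex.I)
    refine ⟨x + y * Complex.I + (n * (2 * π) : ℝ) * Complex.I, ?_, ?_, ?_, ?_⟩
    · rw [c6_re, c6_re, Complex.ofReal_re]
    · rwa [F.ht_add_I]
    · rwa [F.ht_add_I]
    · rwa [per_int (u := u) (L := 2 * π) (fun z => by simpa using hD.per z) n, F.ht_add_I, sin_add_int_mul_two_pi,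
        F.ht_mk]
  have hd : u p ≤ -(1 - a ^ 11) * F.Φ p.re := by
    rw [e]
    rcases hp with hp | hp
    · exact hp.trans (s1 x)
    · exact hp.2.trans (mul_le_mul_of_nonneg_right (by linarith) hΦ.le)
  have down : ∀ z : ℂ, z.re = x → 1 / 2 ≤ F.ht z → F.ht z ≤ π →
      P z ≤ -k * Bx u x + (ε + ε') * F.Φ x → ∃ z : ℂ, z.re = x ∧ 1 / 2 - 2 * π ≤ F.ht z ∧
        F.ht z ≤ 2 * a ∧ P z ≤ -k * Bx u x + (ε + ε') * F.Φ x := by
    intro z m0 m1 m2 m3
    have e1 := F.ht_add_I z (((-1 : ℤ) : ℝ) * (2 * π))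
    refine ⟨z + (((-1 : ℤ) : ℝ) * (2 * π) : ℝ) * Complex.I, by rwa [c6_re], ?_, ?_,
      by rwa [per_int p3]⟩
    · rw [e1]
      push_cast
      linarith only [m1]
    · rw [e1]
      push_cast
      linarith only [ha, ha1, hπ, m2]
  rcases le_total 0 (F.ht p) with h0 | h0
  · rcases H1.cov p h0 l2 hd with ⟨m1, m2⟩ | ⟨q, m1, m2, m3⟩
    · have m3 := hp.resolve_right fun h => absurd h.1 (not_le.2 (c6_sin ha h0 l2 m1))
      have m4 : P p ≤ -k * Bx u x + (ε + ε') * F.Φ x := by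
        rw [p4 p (by linarith only [ha, ha1, h5, hπ, h0]) (by linarith only [h5, l2]), H2.zero (Or.inl (by linarith))]
        rw [e] at m2
        linarith
      rcases m1 with m1 | m1
      · exact ⟨p, e, by linarith only [ha, ha1, hπ, h0], m1, m4⟩
      · exact down p e (by linarith only [ha, ha1, hπ, m1]) l2 m4
    · refine down q (m1.trans e) (by linarith only [ha, ha1, h6, hπ, m2]) (by linarith) ?_
      rw [p4 q (by linarith only [ha, ha1, h6, hπ, m2]) (by linarith only [h5, m2]), H2.zero (Or.inl (by linarith only [ha, ha1, h6, hπ, m2]))]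
      rw [e] at m3
      linarith [s2 x]
  · rcases H2.cov p (by linarith) (by linarith) hd with ⟨m1, m2⟩ | ⟨q, m1, m2, m3⟩
    · have m3 := hp.resolve_right fun h => by
        have := c6_sin ha (h := -F.ht p) (by linarith) (by linarith) m1
        rw [sin_neg, abs_neg] at this
        linarith [h.1]
      refine ⟨p, e, by linarith only [ha, ha1, hπ, l1], by linarith, ?_⟩
      rw [p4 p (by linarith only [h5, l1]) (by linarith only [h5, l2]), H1.zero (Or.inl (by linarith))]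
      rw [e] at m2
      linarith
    · refine ⟨q, m1.trans e, by linarith only [ha, ha1, h5, hπ, m2], by linarith, ?_⟩
      rw [p4 q (by linarith only [h5, m2]) (by linarith only [ha, ha1, h6, hπ, m2]), H1.zero (Or.inl (by linarith only [ha, ha1, h6, hπ, m2]))]
      rw [e] at m3
      linarith [s2 x]

end

theorem relocate : ∃ a0 : ℝ, 0 < a0 ∧ ∀ a ν : ℝ, 0 < a → a ≤ a0 → 0 < ν → ∃ μ0 : ℝ, 0 < μ0 ∧
    ∀ (F : Frame) (μ K k ε ε' x0 : ℝ) (u ρ : ℂ → ℝ), μ ≤ μ0 → F.Good μ → Dens F μ K u ρ → 1 ≤ k →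
      k ≤ 1 + μ → 0 ≤ ε → ε ≤ μ → 0 < ε' → CovD F k ε μ (2 * a) x0 u →
      ∃ (v : ℂ → ℝ) (K' : ℝ), SubD F ν K' v ∧ CovS F k (ε + ε') (2 * a) x0 v := by
  obtain ⟨a1, h1, H⟩ := half
  refine ⟨min a1 (1 / 100), by positivity, fun a ν ha hle hν => ?_⟩
  obtain ⟨l1, l2⟩ := le_min_iff.1 hle
  have hπ := pi_gt_three
  have hδ : 0 < 1 - cos (a / 4) := by
    have := cos_lt_cos_of_nonneg_of_le_pi (x := 0) (y := a / 4) le_rfl (by linarith only [ha, l2, hπ]) (by linarith)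
    rw [cos_zero] at this
    linarith
  obtain ⟨ν1, n0, n1, n2, n3⟩ : ∃ ν1 : ℝ, 0 < ν1 ∧ ν1 ≤ ν ∧ ν1 ≤ (1 - cos (a / 4)) / 4 ∧
      ν1 ≤ a ^ 11 / 2 :=
    ⟨min ν (min ((1 - cos (a / 4)) / 4) (a ^ 11 / 2)), by positivity, min_le_left _ _,
      (min_le_right _ _).trans (min_le_left _ _), (min_le_right _ _).trans (min_le_right _ _)⟩
  obtain ⟨μ1, m0, HB⟩ := Dens.Bge n0
  refine ⟨min (min μ1 (a ^ 18)) (ν1 / 64), by positivity, ?_⟩
  intro F μ K k ε ε' x0 u ρ hμ hF hD k1 k2 e0 e1 e2 hC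
  simp only [le_min_iff] at hμ
  obtain ⟨⟨m1, m2⟩, m3⟩ := hμ
  have hB := HB F μ K u ρ m1 hD
  have μ0 := hF.nonneg
  have h5 : 0 < a ^ 5 := by positivity
  have h10 : a ^ 11 ≤ a ^ 10 := pow_le_pow_of_le_one ha.le (by linarith only [ha, l2]) (by norm_num)
  have h11 : a ^ 10 ≤ 1 := pow_le_one₀ ha.le (by linarith only [ha, l2])
  obtain ⟨c1, q1, q2, q3, q4, q5, q6, q7, q8⟩ := H F μ K a ε' u ρ ha l1 m2 hF hD e2
  have H1 : c6_H F F.ht μ a ε' u c1 := ⟨q1, q2, q3, q4, q5, q6, q7, q8⟩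
  obtain ⟨c', r1, r2, r3, r4, r5, r6, r7, r8⟩ :=
    H F.refl μ K a ε' _ _ ha l1 m2 hF.refl hD.refl e2
  obtain ⟨c2, H2⟩ : ∃ c2, c6_H F (fun z => -F.ht z) μ a ε' u c2 :=
    ⟨_, c6_H.refl ⟨r1, r2, r3, r4, r5, r6, r7, r8⟩⟩
  clear q1 q2 q3 q4 q5 q6 q7 q8 r1 r2 r3 r4 r5 r6 r7 r8 H HB
  obtain ⟨P, p1, p2, p3, p4⟩ := c6_per ha l2 hD H1 H2
  have hBx := c6_Bx ha μ0 hD H1 H2 p1 p3 p4 (by linarith only [n0, n2, m3]) hB
  have red : ∀ z : ℂ, ∃ t : ℝ, (∀ w, P (w + t * Complex.I) = P w) ∧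
      F.M (z + t * Complex.I) = F.M z ∧ -π ≤ F.ht (z + t * Complex.I) ∧
      F.ht (z + t * Complex.I) ≤ π := by
    intro z
    obtain ⟨n, b1, b2⟩ := c6_red F z
    exact ⟨n * (2 * π), per_int p3 n, c6_M F z n, by rwa [F.ht_add_I], by rwa [F.ht_add_I]⟩
  obtain ⟨K1, hK1⟩ := H1.low
  obtain ⟨K2, hK2⟩ := H2.low
  refine ⟨P, 20 * K + 2 + K1 + K2, ⟨p1, fun z => by simpa using p3 z, p2, fun η hη => ?_,
    fun z => ?_, fun z => ?_, fun z => ?_, fun x => ?_⟩, fun x hx => ?_⟩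
  · obtain ⟨d, hd, hM⟩ := (hD.uc.add H1.uc).add H2.uc η hη
    refine ⟨min d (a ^ 5 / 16), by positivity, fun z _ z' hz => ?_⟩
    obtain ⟨t, b0, -, b1, b2⟩ := red z
    obtain ⟨b3, b4⟩ := le_min_iff.1 hz
    have b5 : ‖z' + t * Complex.I - (z + t * Complex.I)‖ = ‖z' - z‖ := by
      rw [add_sub_add_right_eq_sub]
    obtain ⟨b6, b7⟩ := abs_le.1 (hF.ht_sub (by linarith only [ha, l2, n3, m3, h10, h11]) (z + t * Complex.I) (z' + t * Complex.I))
    rw [b5] at b6 b7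
    have := hM (z + t * Complex.I) (mem_univ _) (z' + t * Complex.I) (b5.trans_le b3)
    rwa [← b0 z, ← b0 z', p4 _ (by linarith only [h5, b1, b4, b6]) (by linarith only [h5, b2, b4, b7]), p4 _ (by linarith only [h5, b1]) (by linarith only [h5, b2]),
      ← c6_re z t]
  · obtain ⟨t, b0, b3, b1, b2⟩ := red z
    have := c6_up ha H1 H2 (z + t * Complex.I)
    rw [← p4 _ (by linarith only [h5, b1]) (by linarith only [h5, b2]), b0, b3, c6_re] at this
    have b4 := mul_le_mul_of_nonneg_right (show 3 * μ ≤ ν by linarith only [hν, n1, m3]) (F.Φ_pos z.re).le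
    linarith only [this, b4]
  · obtain ⟨t, b0, -, b1, b2⟩ := red z
    have b3 := hD.low hF (by linarith only [ha, l2, n3, m3, h10, h11]) (z + t * Complex.I)
    have b4 := hK1 (z + t * Complex.I)
    have b5 := hK2 (z + t * Complex.I)
    rw [c6_re] at b3 b4 b5
    rw [← b0 z, p4 _ (by linarith only [h5, b1]) (by linarith only [h5, b2])]
    linarith only [b3, b4, b5]
  · obtain ⟨t, b0, b3, b1, b2⟩ := red z
    have := c6_avg ha l2 hF (by linarith only [ha, l2, n3, m3, h10, h11]) hD H1 H2 p1 p3 p4 b1 b2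
    rw [← c6_shift, b3, c6_re] at this
    simp only [b0] at this
    have b4 := mul_le_mul_of_nonneg_right (show 64 * μ ≤ ν by linarith only [n1, m3]) (F.Φ_pos z.re).le
    linarith only [this, b4]
  · rw [hBx]
    exact (mul_le_mul_of_nonneg_right (by linarith only [n1]) (F.Φ_pos x).le).trans (hB x)
  · refine (c6_cov ha l2 hD H1 H2 p3 p4 hC (by linarith only [n0, n3, m3]) (fun x => ?_) (fun x => ?_) x hx).elim
      fun z ⟨b0, b1, b2, b3⟩ => ⟨z.im, by rwa [← b0], by rwa [← b0], by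
        rw [hBx]
        convert b3
        rw [← b0]
        exact Complex.re_add_im z⟩
    · have hΦ := F.Φ_pos x
      have b0 := hB x
      have b1 : 0 ≤ Bx u x := (mul_nonneg (by linarith only [ha, l2, n3, h10, h11]) hΦ.le).trans b0
      have b2 := mul_le_mul_of_nonneg_right k1 b1
      have b3 := mul_le_mul_of_nonneg_right (show ε + ν1 ≤ a ^ 11 by linarith only [n0, n3, e1, m3]) hΦ.le
      linarith only [b0, b2, b3]
    · have hΦ := F.Φ_pos x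
      have b0 := mul_le_mul_of_nonneg_left (hD.Ble x) (show 0 ≤ k by linarith only [ha, l2, k1])
      have b1 : k * (1 + μ) ≤ 1 + a ^ 10 := by (refine le_of_not_gt fun h_nl => ?_; linarith only [h_nl, n3, k2, m3, ha, n0, l2, h10, h11, k1, mul_pos_of_neg_of_neg (Mathlib.Tactic.Linarith.sub_neg_of_lt ha) (Mathlib.Tactic.Linarith.sub_neg_of_lt n0), mul_pos_of_neg_of_neg (Mathlib.Tactic.Linarith.sub_neg_of_lt ha) (Mathlib.Tactic.Linarith.sub_neg_of_lt h_nl), mul_nonneg_of_nonpos_of_nonpos (Mathlib.Tactic.Linarith.sub_nonpos_of_le l2) (le_of_lt (Mathlib.Tactic.Linarith.sub_neg_of_lt n0)), mul_nonneg_of_nonpos_of_nonpos (Mathlib.Tactic.Linarith.sub_nonpos_of_le l2) (Mathlib.Tactic.Linarith.sub_nonpos_of_le n3), mul_nonneg_of_nonpos_of_nonpos (Mathlib.Tactic.Linarith.sub_nonpos_of_le l2) (Mathlib.Tactic.Linarith.sub_nonpos_of_le h10), mul_nonneg_of_nonpos_of_nonpos (Mathlib.Tactic.Linarith.sub_nonpos_of_le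 l2) (le_of_lt (Mathlib.Tactic.Linarith.sub_neg_of_lt h_nl)), mul_nonneg_of_nonpos_of_nonpos (le_of_lt (Mathlib.Tactic.Linarith.sub_neg_of_lt n0)) (Mathlib.Tactic.Linarith.sub_nonpos_of_le n3), mul_nonneg_of_nonpos_of_nonpos (le_of_lt (Mathlib.Tactic.Linarith.sub_neg_of_lt n0)) (Mathlib.Tactic.Linarith.sub_nonpos_of_le k2), mul_nonneg_of_nonpos_of_nonpos (le_of_lt (Mathlib.Tactic.Linarith.sub_neg_of_lt n0)) (Mathlib.Tactic.Linarith.sub_nonpos_of_le m3), mul_nonneg_of_nonpos_of_nonpos (le_of_lt (Mathlib.Tactic.Linarith.sub_neg_of_lt n0)) (Mathlib.Tactic.Linarith.sub_nonpos_of_le h10), mul_nonneg_of_nonpos_of_nonpos (le_of_lt (Mathlib.Tactic.Linarith.sub_neg_of_lt n0)) (Mathlib.Tactic.Linarith.sub_nonpos_of_le h11), mul_nonneg_of_nonpos_of_nonpos (Mathlib.Tactic.Linarith.sub_nonpos_of_le k1) (Mathlib.Tactic.Linarith.sub_nonpos_of_le m3)])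
      have b2 := mul_le_mul_of_nonneg_right b1 hΦ.le
      have b3 := mul_nonneg (show 0 ≤ ε + ε' by linarith only [e0, e2]) hΦ.le
      linarith only [b0, b2, b3]

end

end Pool.Agent.MinMod.Mo
end
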