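import Pool.Agent.Work.MP_f62247_an.Mo.K3
import Pool.Agent.Work.MP_f62247_an.SL
import Pool.Agent.Work.MP_f62247_an.Mo.B4
import Pool.Agent.Work.MP_f62247_an.BadB
import Pool.Agent.Work.MP_f62247_an.FinA
import Pool.Agent.Work.MP_f62247_an.FinC

-- merged part: Pool.Agent.Work.MP_f62247_an.Mo.E1
section
-- merged part: Pool.Agent.Work.MP_f62247_an.Mo.A0
section
/-!
# Slowly varying complex functions, calm finite configurations
`drift`: by induction on `n`, `|y - x| ≤ n` implies `‖c y - c x‖ ≤ (exp (2 μ n) - 1) ‖c x‖` (go from `x` towards `y` in steps of length at most one; a backward step: `‖c x - c y‖ ≤ μ ‖c x‖ ≤ μ/(1-μ) ‖c y‖`, `1 + μ/(1-μ) ≤ exp (2μ)`); take `n = ⌈|y - x|⌉₊`.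
`calm_real`: `k = ⌊x - y⌋₊`, `W_shift`, `W_L`, `norm_cc_step`. `B_close`: `B_le`, `B_ge` with `y = x`, `cos t ≥ 1 - t²/2`.
-/

open Real MeasureTheory Set Filter Topology

namespace Pool.Agent.MinMod.Mo

noncomputable section

theorem a0_step {c : ℝ → ℂ} {a b μ : ℝ} (h0 : 0 ≤ μ) (h1 : μ ≤ 1 / 10)
    (h : ∀ x y, a ≤ x → x ≤ y → y ≤ x + 1 → y ≤ b → ‖c y - c x‖ ≤ μ * ‖c x‖) {x y : ℝ}
    (hx : x ∈ Icc a b) (hy : y ∈ Icc a b) (hd : |y - x| ≤ 1) :
    ‖c y - c x‖ ≤ 2 * μ * ‖c x‖ := by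
  obtain ⟨d1, d2⟩ := abs_le.1 hd
  have n0 := mul_nonneg h0 (norm_nonneg (c x))
  rcases le_total x y with k | k
  · linarith only [n0, h, hx, k, d2, hy, h x y hx.1 k (by linarith) hy.2]
  · have k1 := h y x hy.1 k (by linarith) hx.2
    rw [norm_sub_rev] at k1
    have k2 := norm_sub_norm_le (c y) (c x)
    have k3 := mul_le_mul_of_nonneg_right h1 (norm_nonneg (c y))
    have k4 : μ * ‖c y‖ ≤ μ * (2 * ‖c x‖) :=
      mul_le_mul_of_nonneg_left (by linarith only [k1, k2, k3, norm_nonneg (c x)]) h0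
    linarith

theorem a0_exp_two : exp 2 ≤ 8 := by
  have h : exp 2 = exp 1 * exp 1 := by rw [← exp_add]; norm_num
  have h1 := exp_one_lt_d9
  have h2 := exp_pos 1
  linarith only [h, h1, h2, mul_pos_of_neg_of_neg (Mathlib.Tactic.Linarith.sub_neg_of_lt h1) (Mathlib.Tactic.Linarith.sub_neg_of_lt h2)]

theorem drift {c : ℝ → ℂ} {a b μ : ℝ} (h0 : 0 ≤ μ) (h1 : μ ≤ 1 / 10)
    (h : ∀ x y, a ≤ x → x ≤ y → y ≤ x + 1 → y ≤ b → ‖c y - c x‖ ≤ μ * ‖c x‖) {x y : ℝ}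
    (hx : x ∈ Icc a b) (hy : y ∈ Icc a b) :
    ‖c y - c x‖ ≤ (exp (2 * μ * (|y - x| + 1)) - 1) * ‖c x‖ := by
  have key : ∀ n : ℕ, ∀ y ∈ Icc a b, |y - x| ≤ n →
      ‖c y - c x‖ ≤ (exp (2 * μ * n) - 1) * ‖c x‖ := fun n => by
    induction n with
    | zero =>
      intro y _ hd
      rw [Nat.cast_zero, abs_nonpos_iff, sub_eq_zero] at hd
      simp [hd]
    | succ n ih =>
      intro y hy hd
      rw [Nat.cast_succ] at hd ⊢
      obtain ⟨d1, d2⟩ := abs_le.1 hd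
      have n0 : (0 : ℝ) ≤ n := n.cast_nonneg
      obtain ⟨z, hz, z1, z2⟩ : ∃ z ∈ Icc a b, |z - x| ≤ n ∧ |y - z| ≤ 1 := by
        rcases le_total y (x - n) with k | k
        · exact ⟨x - n, ⟨by linarith [hy.1], by linarith [hx.2]⟩,
            abs_le.2 ⟨by linarith, by linarith⟩, abs_le.2 ⟨by linarith, by linarith⟩⟩
        rcases le_total (x + n) y with k' | k'
        · exact ⟨x + n, ⟨by linarith [hx.1], by linarith [hy.2]⟩,
            abs_le.2 ⟨by linarith, by linarith⟩, abs_le.2 ⟨by linarith, by linarith only [d2]⟩⟩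
        · exact ⟨y, hy, abs_le.2 ⟨by linarith, by linarith⟩, by simp⟩
      have k1 := ih z hz z1
      have k2 := a0_step h0 h1 h hz hy z2
      have k3 := norm_sub_le_norm_sub_add_norm_sub (c y) (c z) (c x)
      have k4 := norm_sub_norm_le (c z) (c x)
      have k5 : 2 * μ * ‖c z‖ ≤ 2 * μ * (exp (2 * μ * n) * ‖c x‖) :=
        mul_le_mul_of_nonneg_left (by linarith only [k1, k4]) (by linarith)
      have k6 := mul_le_mul_of_nonneg_right (add_one_le_exp (2 * μ))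
        (mul_nonneg (exp_pos (2 * μ * n)).le (norm_nonneg (c x)))
      rw [mul_add, mul_one, exp_add]
      linarith only [k1, k2, k3, k5, k6]
  refine (key _ y hy (Nat.le_ceil _)).trans (mul_le_mul_of_nonneg_right (sub_le_sub_right
    (exp_le_exp.2 (mul_le_mul_of_nonneg_left ?_ (by linarith))) _) (norm_nonneg _))
  exact (Nat.ceil_lt_add_one (abs_nonneg _)).le

theorem align_transfer {c c' : ℂ} {t φ θ : ℝ} (ht : t ≤ 1 / 2) (h : ‖c' - c‖ ≤ t * ‖c‖)
    (ha : |(c * Complex.exp (θ * Complex.I)).im| ≤ φ * ‖c‖) :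
    |(c' * Complex.exp (θ * Complex.I)).im| ≤ 2 * (φ + t) * ‖c'‖ := by
  have k1 : |((c' - c) * Complex.exp (θ * Complex.I)).im| ≤ ‖c' - c‖ := by
    refine (Complex.abs_im_le_norm _).trans_eq ?_
    rw [norm_mul, Complex.norm_exp_ofReal_mul_I, mul_one]
  rw [sub_mul, Complex.sub_im] at k1
  have k2 := abs_sub_abs_le_abs_sub (c' * Complex.exp (θ * Complex.I)).im
    (c * Complex.exp (θ * Complex.I)).im
  rcases eq_or_ne c 0 with rfl | h0
  · rw [norm_zero, mul_zero, sub_zero, norm_le_zero_iff] at h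
    simp [h]
  have n0 := norm_pos_iff.2 h0
  have k3 : 0 ≤ φ + t := add_nonneg (nonneg_of_mul_nonneg_left ((abs_nonneg _).trans ha) n0)
    (nonneg_of_mul_nonneg_left ((norm_nonneg _).trans h) n0)
  have k4 := norm_sub_norm_le c c'
  rw [norm_sub_rev] at k4
  have k5 := mul_le_mul_of_nonneg_right ht n0.le
  have k6 : (φ + t) * ‖c‖ ≤ (φ + t) * (2 * ‖c'‖) := mul_le_mul_of_nonneg_left (by linarith only [h, k4, k5]) k3
  linarith only [h, ha, k1, k2, k6]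

theorem im_eq_sin (c : ℂ) (θ : ℝ) :
    (c * Complex.exp (θ * Complex.I)).im = ‖c‖ * sin (θ + Complex.arg c) := by
  conv_lhs => rw [← Complex.norm_mul_exp_arg_mul_I c]
  rw [mul_assoc, ← Complex.exp_add, Complex.im_ofReal_mul, show (Complex.arg c : ℂ) * Complex.I +
    θ * Complex.I = ((θ + Complex.arg c : ℝ) : ℂ) * Complex.I by push_cast; ring,
    Complex.exp_ofReal_mul_I_im]

theorem abs_sin_sub_le {c : ℂ} (hc : c ≠ 0) {φ θ γ : ℝ}
    (h1 : |(c * Complex.exp (θ * Complex.I)).im| ≤ φ * ‖c‖)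
    (h2 : |(c * Complex.exp (γ * Complex.I)).im| ≤ φ * ‖c‖) : |sin (θ - γ)| ≤ 2 * φ := by
  have n0 := norm_pos_iff.2 hc
  rw [im_eq_sin, abs_mul, abs_norm, mul_comm] at h1 h2
  have k1 := le_of_mul_le_mul_right h1 n0
  have k2 := le_of_mul_le_mul_right h2 n0
  rw [show θ - γ = θ + Complex.arg c - (γ + Complex.arg c) by ring, sin_sub]
  refine (abs_sub _ _).trans ?_
  rw [abs_mul, abs_mul]
  have k3 := mul_le_of_le_one_right (abs_nonneg (sin (θ + Complex.arg c)))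
    (abs_cos_le_one (γ + Complex.arg c))
  have k4 := mul_le_of_le_one_left (abs_nonneg (sin (γ + Complex.arg c)))
    (abs_cos_le_one (θ + Complex.arg c))
  linarith

theorem a0_sq (c : ℂ) : ‖c‖ ^ 2 = c.re ^ 2 + c.im ^ 2 := by
  rw [Complex.sq_norm, Complex.normSq_apply]
  ring

theorem re_le_of_im {c : ℂ} {t : ℝ} (ht : 0 ≤ t) (h : t * ‖c‖ ≤ |c.im|) :
    c.re ≤ (1 - t ^ 2 / 2) * ‖c‖ := by
  rcases eq_or_ne c 0 with rfl | h0
  · simp
  have n0 := norm_pos_iff.2 h0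
  have k1 : t ≤ 1 := le_of_mul_le_mul_right
    (h.trans ((Complex.abs_im_le_norm c).trans_eq (one_mul _).symm)) n0
  have k2 := pow_le_pow_left₀ (by positivity) h 2
  rw [sq_abs] at k2
  refine (abs_le_of_sq_le_sq' ?_ (mul_nonneg (by linarith only [k1, ht, mul_nonneg_of_nonpos_of_nonpos (Mathlib.Tactic.Linarith.sub_nonpos_of_le ht) (Mathlib.Tactic.Linarith.sub_nonpos_of_le k1)]) n0.le)).2
  linarith only [k2, a0_sq c, sq_nonneg (t ^ 2 * ‖c‖), sq_nonneg (t ^ (2 : ℕ) * ‖c‖)]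

theorem im_le_of_re {c : ℂ} {s φ : ℝ} (hφ : 0 ≤ φ) (hs : 2 * s ≤ φ ^ 2) (hs1 : s ≤ 1)
    (h : (1 - s) * ‖c‖ ≤ c.re) : |c.im| ≤ φ * ‖c‖ := by
  have k1 := pow_le_pow_left₀ (mul_nonneg (sub_nonneg.2 hs1) (norm_nonneg c)) h 2
  have k2 := mul_le_mul_of_nonneg_right hs (sq_nonneg ‖c‖)
  refine abs_le.2 (abs_le_of_sq_le_sq' ?_ (by positivity))
  linarith only [k1, k2, a0_sq c, sq_nonneg (s * ‖c‖), sq_nonneg (s * ‖c‖)]

theorem calm_real : ∃ C : ℝ, 1 ≤ C ∧ ∀ (Z : Cfg) (μ y : ℝ) (n : ℕ), 0 ≤ μ → C * μ ≤ 1 →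
    (∀ k ≤ n, 0 < ‖Z.cc (y + k)‖ ∧ Z.L (y + k) ≤ μ * ‖Z.cc (y + k)‖) →
    ∀ x ∈ Icc y (y + n), 0 < ‖Z.cc x‖ ∧ Z.W x ≤ C * μ * Z.A x := by
  obtain ⟨C, hC, hW⟩ := Cfg.W_L
  have e2 : 1 ≤ exp 2 := one_le_exp (by norm_num)
  refine ⟨2 * exp 2 * C, by linarith only [hC, e2, mul_nonneg_of_nonpos_of_nonpos (Mathlib.Tactic.Linarith.sub_nonpos_of_le hC) (Mathlib.Tactic.Linarith.sub_nonpos_of_le e2)], fun Z μ y n h0 h1 h x hx => ?_⟩
  obtain ⟨k1, k2⟩ := h ⌊x - y⌋₊ (Nat.floor_le_of_le (by linarith [hx.2]))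
  have p1 : y + ⌊x - y⌋₊ ≤ x := by linarith [Nat.floor_le (sub_nonneg.2 hx.1)]
  have p2 : x ≤ y + ⌊x - y⌋₊ + 1 := by linarith [Nat.lt_floor_add_one (x - y)]
  generalize y + ⌊x - y⌋₊ = p at k1 k2 p1 p2
  have q0 : 0 < ‖Z.cc p‖ * exp p := by positivity
  have q1 : exp 2 * Z.W p ≤ exp 2 * C * μ * (‖Z.cc p‖ * exp p) := by
    have := (hW Z p).1.trans (mul_le_mul_of_nonneg_left
      (mul_le_mul_of_nonneg_left k2 (exp_pos p).le) (by linarith))
    exact (mul_le_mul_of_nonneg_left this (by linarith)).trans_eq (by ring)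
  have q2 := mul_le_mul_of_nonneg_right h1 q0.le
  have q3 : ‖Z.cc x - Z.cc p‖ ≤ ‖Z.cc p‖ / 2 :=
    le_of_mul_le_mul_right (by linarith only [q1, q2, p1, p2, Z.norm_cc_step p1 p2]) (exp_pos p)
  have q4 := norm_sub_norm_le (Z.cc p) (Z.cc x)
  rw [norm_sub_rev] at q4
  have q5 : Z.W x ≤ exp 2 * Z.W p := by
    have := Z.W_shift p zero_le_one
    rw [mul_one] at this
    exact (Z.W_mono p2).trans this
  have q6 : ‖Z.cc p‖ * exp p ≤ 2 * ‖Z.cc x‖ * exp x :=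
    mul_le_mul (by linarith) (exp_le_exp.2 p1) (exp_pos p).le (by positivity)
  refine ⟨by linarith, q5.trans (q1.trans ((mul_le_mul_of_nonneg_left q6
    (by positivity)).trans_eq ?_))⟩
  rw [Cfg.A]
  ring

theorem calm_drift {Z : Cfg} {a b μ : ℝ} (h0 : 0 ≤ μ) (h1 : μ ≤ 1 / 100)
    (h : ∀ x ∈ Icc a b, Z.W x ≤ μ * Z.A x) {x y : ℝ} (hx : x ∈ Icc a b) (hy : y ∈ Icc a b) :
    ‖Z.cc y - Z.cc x‖ ≤ (exp (16 * μ * (|y - x| + 1)) - 1) * ‖Z.cc x‖ := by
  rw [show 16 * μ = 2 * (8 * μ) by ring]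
  refine drift (by linarith) (by linarith only [h1]) (fun p q h1 h2 h3 h4 => ?_) hx hy
  refine le_of_mul_le_mul_right ((Z.norm_cc_step h2 h3).trans ?_) (exp_pos p)
  refine (mul_le_mul a0_exp_two (h p ⟨h1, h2.trans h4⟩) (Z.W_nonneg p) (by norm_num)).trans_eq ?_
  rw [Cfg.A]
  ring

theorem B_close {ν : ℝ} (hν : 0 < ν) : ∃ μ0 : ℝ, 0 < μ0 ∧ ∀ (Z : Cfg) (x : ℝ),
    Z.W x ≤ μ0 * Z.A x → (1 - ν) * Z.A x ≤ Z.B x ∧ Z.B x ≤ (1 + ν) * Z.A x := by
  obtain ⟨C, hC, hB⟩ := Cfg.B_ge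
  obtain ⟨t, t0, t1, t2⟩ : ∃ t : ℝ, 0 < t ∧ t ≤ 1 ∧ t ≤ ν :=
    ⟨min 1 ν, by positivity, min_le_left _ _, min_le_right _ _⟩
  refine ⟨t * ν / (2 * C), by positivity, fun Z x h => ?_⟩
  have A0 : 0 ≤ Z.A x := by rw [Cfg.A]; positivity
  have k1 : C * Z.W x / t ≤ ν / 2 * Z.A x := by
    rw [div_le_iff₀ t0]
    refine (mul_le_mul_of_nonneg_left h (by linarith)).trans_eq ?_
    field_simp
  have k2 : t * ν / (2 * C) ≤ ν := by
    rw [div_le_iff₀ (by positivity)]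
    linarith only [hν, hC, t1, mul_nonneg_of_nonpos_of_nonpos (le_of_lt (Mathlib.Tactic.Linarith.sub_neg_of_lt hν)) (Mathlib.Tactic.Linarith.sub_nonpos_of_le hC), mul_nonneg_of_nonpos_of_nonpos (le_of_lt (Mathlib.Tactic.Linarith.sub_neg_of_lt hν)) (Mathlib.Tactic.Linarith.sub_nonpos_of_le t1)]
  have k3 := hB Z t x x t0 t1 le_rfl (by linarith)
  have k4 := Z.B_le (le_refl x)
  rw [sub_self, mul_zero, exp_zero, one_mul] at k4
  rw [← Cfg.A] at k3 k4
  have k5 : (1 - ν / 2) * Z.A x ≤ cos t * Z.A x :=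
    mul_le_mul_of_nonneg_right (by linarith only [t2, t0, t1, one_sub_sq_div_two_le_cos (x := t), mul_nonneg_of_nonpos_of_nonpos (le_of_lt (Mathlib.Tactic.Linarith.sub_neg_of_lt t0)) (Mathlib.Tactic.Linarith.sub_nonpos_of_le t1)]) A0
  have k6 := mul_le_mul_of_nonneg_right k2 A0
  exact ⟨by linarith only [k1, k3, k5], by linarith only [h, k4, k6]⟩

theorem B_L : ∃ C : ℝ, 1 ≤ C ∧ ∀ (Z : Cfg) (x : ℝ),
    Z.B x ≤ C * exp x * (‖Z.cc x‖ + Z.L x) ∧ exp x * (‖Z.cc x‖ + Z.L x) ≤ C * (Z.B x + Z.W x) := by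
  obtain ⟨C, hC, hW⟩ := Cfg.W_L
  obtain ⟨D, hD, hB⟩ := Cfg.B_ge
  refine ⟨2 * D + C, by linarith, fun Z x => ?_⟩
  obtain ⟨k1, k2⟩ := hW Z x
  have k3 := hB Z 1 x x one_pos le_rfl le_rfl (by linarith)
  have k4 := Z.B_le (le_refl x)
  rw [sub_self, mul_zero, exp_zero, one_mul] at k4
  rw [div_one] at k3
  have a0 : 0 ≤ ‖Z.cc x‖ * exp x := by positivity
  have a1 := mul_nonneg (exp_pos x).le (Z.L_nonneg x)
  have k5 : 1 / 2 * (‖Z.cc x‖ * exp x) ≤ cos 1 * (‖Z.cc x‖ * exp x) :=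
    mul_le_mul_of_nonneg_right (by linarith only [one_sub_sq_div_two_le_cos (x := 1)]) a0
  have k6 := mul_le_mul_of_nonneg_right (by linarith only [hC, hD] : 1 ≤ 2 * D + C) a0
  have k7 := mul_nonneg (by linarith : 0 ≤ D) a1
  have k8 := mul_le_mul_of_nonneg_right (by linarith : 2 ≤ 2 * D + C) (Z.B_nonneg x)
  exact ⟨by linarith only [k1, k4, k6, k7], by linarith only [k2, k3, k5, k8]⟩

theorem cc_step_L : ∃ C : ℝ, 1 ≤ C ∧ ∀ (Z : Cfg) (x : ℝ),
    |‖Z.cc (x + 1)‖ - ‖Z.cc x‖| ≤ C * Z.L x := by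
  obtain ⟨C, hC, hW⟩ := Cfg.W_L
  have e2 : 1 ≤ exp 2 := one_le_exp (by norm_num)
  refine ⟨exp 2 * C, by linarith only [hC, e2, mul_nonneg_of_nonpos_of_nonpos (Mathlib.Tactic.Linarith.sub_nonpos_of_le hC) (Mathlib.Tactic.Linarith.sub_nonpos_of_le e2)], fun Z x => (abs_norm_sub_norm_le _ _).trans ?_⟩
  refine le_of_mul_le_mul_right ((Z.norm_cc_step (by linarith) le_rfl).trans ?_) (exp_pos x)
  exact (mul_le_mul_of_nonneg_left (hW Z x).1 (exp_pos 2).le).trans_eq (by ring)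

end

end Pool.Agent.MinMod.Mo
end

-- merged part: Pool.Agent.Work.MP_f62247_an.Mo.N1
section
/-!
# Circle averages of the periodic kernels
`nk s φ = lg s φ + Re exp (s + i φ)`, the second term has the mean value property (`ca_re`). `ca_lg_near`: if `‖z - p‖ + s < 2π` use `ca_lg` with `κ = 1`; otherwise `‖z - p‖ > s` and `1 - exp (w - p)` has no zero in the closed disc
(a zero is `p + 2π n I`; for `n ≠ 0` its imaginary part differs from `z.im` by at least `π > 1`), `ca_log_norm`, `gk_eq_zero`.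
`ca_nk_pole`: the map `w ↦ z + p - w` carries the circle around `p` to the circle around `z` (`circleAverage_neg_radius`, `circleMap`). `ca_nk_sum`: replace `p` by the translate `p + 2π n0 I` with `|z.im - im| ≤ π` (`exists_rp`, `nk_per`); all other translates are at distance `≥ π`, so the `finsum` has one term.
`abs_ca_lg`: reduce to `|z.im - p.im| ≤ π`. If `|re z - re p| ≥ 2` use `abs_lg_sub_le`, `l0_le` on the circle; otherwise `‖w - p‖ ≤ 5` on the circle, `lg_sub_log`, `ca_log`. For `nk` with `re z - re p ≤ -2` use `abs_nk_le`.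
-/

open Real MeasureTheory Set Filter Topology

namespace Pool.Agent.MinMod.Mo

noncomputable section

theorem n1_lg (p w : ℂ) :
    lg (w.re - p.re) (w.im - p.im) = Real.log ‖1 - Complex.exp (w - p)‖ := by
  simpa using i3_lg 1 p w

theorem n1_nk (p w : ℂ) : nk (w.re - p.re) (w.im - p.im) =
    lg (w.re - p.re) (w.im - p.im) + (Complex.exp (w - p)).re := by
  rw [nk, Complex.exp_re, Complex.sub_re, Complex.sub_im]

theorem n1_ci {f : ℂ → ℝ} (h : Continuous f) (z : ℂ) (s : ℝ) : CircleIntegrable f z s :=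
  (h.comp (continuous_circleMap z s)).intervalIntegrable _ _

theorem n1_re (p : ℂ) (n : ℤ) : (p + n * (2 * π * Complex.I)).re = p.re := by simp

theorem n1_im (p : ℂ) (n : ℤ) : (p + n * (2 * π * Complex.I)).im = p.im + n * (2 * π) := by simp

theorem n1_lg_per (p w : ℂ) (n : ℤ) : lg (w.re - (p + n * (2 * π * Complex.I)).re)
    (w.im - (p + n * (2 * π * Complex.I)).im) = lg (w.re - p.re) (w.im - p.im) := by
  rw [n1_re, n1_im, ← lg_per _ _ n]
  congr 1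
  ring

theorem n1_nk_per (p w : ℂ) (n : ℤ) : nk (w.re - (p + n * (2 * π * Complex.I)).re)
    (w.im - (p + n * (2 * π * Complex.I)).im) = nk (w.re - p.re) (w.im - p.im) := by
  rw [n1_re, n1_im, ← nk_per _ _ n]
  congr 1
  ring

theorem n1_red (p z : ℂ) : ∃ n : ℤ, |z.im - (p + n * (2 * π * Complex.I)).im| ≤ π := by
  obtain ⟨k, hk⟩ := exists_rp (z.im - p.im)
  refine ⟨-k, ?_⟩
  have a1 := KerG_abs_le (z.im - p.im)
  rw [hk] at a1
  rw [n1_im]
  convert a1 using 2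
  push_cast
  ring

theorem n1_far {n : ℤ} (hn : n ≠ 0) : 2 * π ≤ |n * (2 * π)| := by
  have a1 : (1 : ℝ) ≤ |(n : ℝ)| := by exact_mod_cast Int.one_le_abs hn
  rw [abs_mul, abs_of_pos two_pi_pos]
  exact le_mul_of_one_le_left two_pi_pos.le a1

theorem ci_lg_one (p z : ℂ) (s : ℝ) :
    CircleIntegrable (fun w => lg (w.re - p.re) (w.im - p.im)) z s := by
  simpa using ci_lg 1 p z s

theorem ci_nk (p z : ℂ) (s : ℝ) :
    CircleIntegrable (fun w => nk (w.re - p.re) (w.im - p.im)) z s := by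
  simp only [n1_nk]
  exact (ci_lg_one p z s).add (n1_ci (by fun_prop) z s)

theorem ca_lg_near {p z : ℂ} {s : ℝ} (hs : 0 < s) (hs1 : s ≤ 1) (him : |z.im - p.im| ≤ π)
    (hz : z ≠ p) : ca (fun w => lg (w.re - p.re) (w.im - p.im)) z s =
      lg (z.re - p.re) (z.im - p.im) + gk s (p - z) := by
  have hpi := pi_gt_three
  rcases lt_or_ge (‖z - p‖ + s) (2 * π) with h | h
  · simpa using ca_lg (κ := 1) one_pos hs hz (by rwa [one_mul])
  · rw [gk_eq_zero hs.le (by rw [norm_sub_rev]; linarith), add_zero]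
    simp only [n1_lg]
    refine ca_log_norm hs.le fun w hw => ⟨by fun_prop, fun k => ?_⟩
    rw [mem_closedBall_iff_norm] at hw
    obtain ⟨n, hn⟩ := Complex.exp_eq_one_iff.1 (sub_eq_zero.1 k).symm
    rcases eq_or_ne n 0 with rfl | h0
    · rw [Int.cast_zero, zero_mul, sub_eq_zero] at hn
      rw [hn, norm_sub_rev] at hw
      linarith
    · have a1 := n1_far h0
      have a2 := n1_im p n
      rw [← hn, add_sub_cancel] at a2
      have a3 := (Complex.abs_im_le_norm (w - z)).trans hw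
      have a4 := abs_add_le (w - z).im (z.im - p.im)
      rw [Complex.sub_im] at a3 a4
      rw [show w.im - z.im + (z.im - p.im) = n * (2 * π) by linarith] at a4
      linarith

theorem n1_ca (p z : ℂ) {s : ℝ} (hs : 0 ≤ s) : ca (fun w => nk (w.re - p.re) (w.im - p.im)) z s =
    ca (fun w => lg (w.re - p.re) (w.im - p.im)) z s + (Complex.exp (z - p)).re := by
  simp only [n1_nk]
  rw [ca, circleAverage_fun_add (ci_lg_one p z s) (n1_ci (by fun_prop) z s)]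
  exact congrArg _ (ca_re (G := fun w => Complex.exp (w - p)) hs fun w _ => by fun_prop)

theorem ca_nk {p z : ℂ} {s : ℝ} (hs : 0 < s) (hs1 : s ≤ 1) (him : |z.im - p.im| ≤ π)
    (hz : z ≠ p) : ca (fun w => nk (w.re - p.re) (w.im - p.im)) z s =
      nk (z.re - p.re) (z.im - p.im) + gk s (p - z) := by
  rw [n1_ca p z hs.le, ca_lg_near hs hs1 him hz, n1_nk]
  ring

theorem ci_nk_pole (p z : ℂ) (s : ℝ) :
    CircleIntegrable (fun w => nk (z.re - w.re) (z.im - w.im)) p s := by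
  simp only [n1_nk, n1_lg]
  exact (MeromorphicOn.circleIntegrable_log_norm fun w _ =>
    AnalyticAt.meromorphicAt (by fun_prop)).add (n1_ci (by fun_prop) p s)

theorem ca_nk_pole {p z : ℂ} {s : ℝ} (hs : 0 < s) (hs1 : s ≤ 1) (him : |z.im - p.im| ≤ π)
    (hz : z ≠ p) : ca (fun w => nk (z.re - w.re) (z.im - w.im)) p s =
      nk (z.re - p.re) (z.im - p.im) + gk s (p - z) := by
  have a1 := ca_scale (fun w => nk ((w + (z + p)).re - p.re) ((w + (z + p)).im - p.im)) p s (-1)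
  rw [ca_shift fun w => nk (w.re - p.re) (w.im - p.im)] at a1
  simp only [ca, neg_one_mul, circleAverage_neg_radius, Complex.ofReal_neg, Complex.ofReal_one,
    neg_add_cancel_comm_assoc] at a1
  rw [← ca_nk hs hs1 him hz, ca, ca, ← a1]
  congr 1
  funext w
  congr 1 <;> simp <;> ring

theorem ca_nk_sum {p z : ℂ} {s : ℝ} (hs : 0 < s) (hs1 : s ≤ 1)
    (hz : ∀ n : ℤ, p + n * (2 * π * Complex.I) ≠ z) :
    (Function.support fun n : ℤ => gk s (p + n * (2 * π * Complex.I) - z)).Finite ∧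
    ca (fun w => nk (w.re - p.re) (w.im - p.im)) z s =
      nk (z.re - p.re) (z.im - p.im) + ∑ᶠ n : ℤ, gk s (p + n * (2 * π * Complex.I) - z) := by
  have hpi := pi_gt_three
  obtain ⟨k, hk⟩ := n1_red p z
  have h0 : ∀ n : ℤ, n ≠ k → gk s (p + n * (2 * π * Complex.I) - z) = 0 := fun n hn => by
    refine gk_eq_zero hs.le (le_trans ?_ (Complex.abs_im_le_norm _))
    have a1 := n1_far (sub_ne_zero.2 hn)
    have a2 := abs_add_le (p + n * (2 * π * Complex.I) - z).im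
      (z.im - (p + k * (2 * π * Complex.I)).im)
    rw [show (p + n * (2 * π * Complex.I) - z).im + (z.im - (p + k * (2 * π * Complex.I)).im) =
      (n - k : ℤ) * (2 * π) by rw [Complex.sub_im, n1_im, n1_im]; push_cast; ring] at a2
    linarith
  refine ⟨(finite_singleton k).subset fun n hn => by_contra fun h => hn (h0 n h), ?_⟩
  have a1 := ca_nk hs hs1 hk (hz k).symm
  simp only [n1_nk_per] at a1
  rw [finsum_eq_single _ k h0, a1]

theorem n1_abs {f g : ℂ → ℝ} {z : ℂ} {c : ℝ} (hf : CircleIntegrable f z 1)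
    (hg : CircleIntegrable g z 1) (h : ∀ w, ‖w - z‖ = 1 → |f w - g w| ≤ c) :
    |ca f z 1 - ca g z 1| ≤ c := by
  have a1 := ca_le_of_le zero_le_one (hf.sub hg) (n1_ci (f := fun _ => c) continuous_const z 1)
    fun w hw => (abs_le.1 (h w hw)).2
  have a2 := ca_le_of_le zero_le_one (n1_ci (f := fun _ => -c) continuous_const z 1) (hf.sub hg)
    fun w hw => (abs_le.1 (h w hw)).1
  rw [ca, ca, circleAverage_const, circleAverage_sub hf hg] at a1 a2
  exact abs_le.2 ⟨a2, a1⟩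

theorem n1_abs' {f : ℂ → ℝ} {z : ℂ} {c : ℝ} (hf : CircleIntegrable f z 1)
    (h : ∀ w, ‖w - z‖ = 1 → |f w| ≤ c) : |ca f z 1| ≤ c := by
  have a1 := n1_abs (c := c) hf (n1_ci (f := fun _ => 0) continuous_const z 1)
    fun w hw => by rw [sub_zero]; exact h w hw
  simpa [ca, circleAverage_const] using a1

theorem n1_log : ∃ C : ℝ, 0 ≤ C ∧ ∀ p w : ℂ, ‖w - p‖ ≤ 5 →
    |lg (w.re - p.re) (w.im - p.im) - Real.log ‖w - p‖| ≤ C := by
  obtain ⟨C, hC⟩ := lg_sub_log one_pos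
  refine ⟨|C|, abs_nonneg C, fun p w h => ?_⟩
  rcases eq_or_ne w p with rfl | k
  · simp [lg]
  · have a1 := hC (w - p) (sub_ne_zero.2 k) (by rwa [one_mul])
    rw [one_mul, one_mul, Complex.sub_re, Complex.sub_im] at a1
    exact a1.trans (le_abs_self C)

theorem n1_mid : ∃ C : ℝ, 0 ≤ C ∧ ∀ p z : ℂ, |z.re - p.re| ≤ 2 →
    |ca (fun w => lg (w.re - p.re) (w.im - p.im)) z 1| ≤ C := by
  obtain ⟨C, h0, hC⟩ := n1_log
  refine ⟨C + 3, by linarith, fun p z h => ?_⟩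
  obtain ⟨k, hk⟩ := n1_red p z
  rw [← n1_re p k] at h
  rw [← funext fun w => n1_lg_per p w k]
  generalize p + k * (2 * π * Complex.I) = q at h hk
  have a1 : ‖z - q‖ ≤ 4 := by
    refine abs_le_of_sq_le_sq' ?_ (by norm_num) |>.2
    rw [Complex.sq_norm, Complex.normSq_apply, Complex.sub_re, Complex.sub_im, ← sq, ← sq,
      ← sq_abs (z.re - _), ← sq_abs (z.im - _)]
    have b1 := pow_le_pow_left₀ (abs_nonneg _) h 2
    have b2 := pow_le_pow_left₀ (abs_nonneg _) (hk.trans pi_lt_d2.le) 2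
    linarith only [b1, b2]
  have a2 := abs_le.1 (n1_abs (ci_lg_one q z 1) (circleIntegrable_log_norm_sub_const 1)
    fun w hw => hC q w (by linarith [norm_sub_le_norm_sub_add_norm_sub w z q]))
  rw [ca_log q z one_pos, norm_sub_rev] at a2
  have a3 := Real.log_nonneg (le_max_left 1 ‖z - q‖)
  have a4 := Real.log_le_sub_one_of_pos (lt_max_of_lt_left one_pos : 0 < max 1 ‖z - q‖)
  have a5 : max 1 ‖z - q‖ ≤ 4 := max_le (by norm_num) a1
  exact abs_le.2 ⟨by linarith [a2.1], by linarith [a2.2]⟩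

theorem n1_circ {w z : ℂ} (h : ‖w - z‖ = 1) : z.re - 1 ≤ w.re ∧ w.re ≤ z.re + 1 := by
  have a1 := abs_le.1 ((Complex.abs_re_le_norm (w - z)).trans h.le)
  rw [Complex.sub_re] at a1
  exact ⟨by linarith [a1.1], by linarith [a1.2]⟩

theorem n1_nk_far {s : ℝ} (hs : s ≤ -1) (φ : ℝ) : |nk s φ| ≤ 2 * exp (2 * s) := by
  have h0 : s < 0 := by linarith only [hs]
  have a1 := l0_le (s := s) (by rw [abs_of_neg h0]; linarith)
  rw [abs_of_neg h0, neg_neg] at a1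
  refine (abs_nk_le h0.ne φ).trans ?_
  rw [env, if_pos h0, two_mul s, exp_add]
  linarith [mul_le_mul_of_nonneg_left a1 (exp_pos s).le]

theorem abs_ca_lg : ∃ C : ℝ, 0 < C ∧ ∀ p z : ℂ, p.re < z.re →
    |ca (fun w => lg (w.re - p.re) (w.im - p.im)) z 1| ≤ C * w0 (z.re - p.re) := by
  obtain ⟨C, h0, hC⟩ := n1_mid
  refine ⟨C + 3, by linarith only [h0], fun p z h => ?_⟩
  rw [w0_of_nonneg (by linarith)]
  have a0 := mul_nonneg h0 (sub_pos.2 h).le
  rcases le_total (z.re - p.re) 2 with k | k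
  · linarith only [h, a0, hC, k, hC p z (abs_le.2 ⟨by linarith, k⟩)]
  · refine n1_abs' (ci_lg_one p z 1) fun w hw => ?_
    obtain ⟨b1, b2⟩ := n1_circ hw
    have b3 : 0 < w.re - p.re := by linarith
    have a1 := abs_lg_sub_le b3.ne' (w.im - p.im)
    have a2 := l0_le (s := w.re - p.re) (by rw [abs_of_pos b3]; linarith)
    have a3 : exp (-|w.re - p.re|) ≤ 1 := exp_le_one_iff.2 (neg_nonpos.2 (abs_nonneg _))
    rw [max_eq_left b3.le, abs_le] at a1
    exact abs_le.2 ⟨by linarith only [h0, a0, k, b1, a1, a2, a3, a1.1], by linarith only [h0, a0, k, b2, a1, a2, a3, a1.2]⟩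

theorem abs_ca_nk : ∃ C : ℝ, 0 < C ∧ ∀ p z : ℂ, z.re ≤ p.re →
    |ca (fun w => nk (w.re - p.re) (w.im - p.im)) z 1| ≤ C * w0 (z.re - p.re) := by
  obtain ⟨C, h0, hC⟩ := n1_mid
  refine ⟨(C + 2) * exp 4, by positivity, fun p z h => ?_⟩
  rw [w0_of_nonpos (by linarith), mul_assoc, ← exp_add]
  rcases le_total (-2) (z.re - p.re) with k | k
  · have a1 := hC p z (abs_le.2 ⟨k, by linarith⟩)
    have a2 := Complex.abs_re_le_norm (Complex.exp (z - p))
    have a3 : exp (z - p).re ≤ 1 := exp_le_one_iff.2 (by rw [Complex.sub_re]; linarith)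
    have a4 := mul_le_mul_of_nonneg_left (one_le_exp (show 0 ≤ 4 + 2 * (z.re - p.re) by linarith))
      (show 0 ≤ C + 2 by linarith)
    rw [Complex.norm_exp] at a2
    rw [n1_ca p z zero_le_one]
    exact (abs_add_le _ _).trans (by linarith)
  · refine n1_abs' (ci_nk p z 1) fun w hw => ?_
    obtain ⟨b1, b2⟩ := n1_circ hw
    exact (n1_nk_far (by linarith only [k, b2]) _).trans (mul_le_mul (by linarith) (exp_le_exp.2 (by linarith only [b2]))
      (exp_pos _).le (by linarith))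

theorem abs_nk_le_far {s : ℝ} (hs : s ≤ -1) (φ : ℝ) : |nk s φ| ≤ 2 * exp (2 * s) := by
  exact n1_nk_far hs φ

theorem lg_two_le (s φ : ℝ) : lg (2 * s) φ ≤ 2 * w0 s := by
  rcases le_or_gt 0 s with h | h
  · have a1 := lg_le (2 * s) φ
    rw [max_eq_left (by linarith)] at a1
    rw [w0_of_nonneg h]
    linarith only [a1, log_two_lt_d9]
  · have a1 := Real.log_le_sub_one_of_pos (norm_pos_iff.2 (sub_ne_zero.2
      (exp_ne_one (s := 2 * s) (by linarith) φ).symm))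
    have a2 := norm_sub_le 1 (Complex.exp ((2 * s : ℝ) + φ * Complex.I))
    rw [KerA_norm, norm_one] at a2
    rw [w0_of_nonpos h.le, lg]
    linarith [exp_pos (2 * s)]

theorem abs_lg_two_le {s : ℝ} (hs : s ≤ -1) (φ : ℝ) : |lg (2 * s) φ| ≤ 2 * exp (2 * s) := by
  have h0 : 2 * s < 0 := by linarith
  have a1 := l0_le (s := 2 * s) (by rw [abs_of_neg h0]; linarith)
  rw [abs_of_neg h0, neg_neg] at a1
  exact (KerA_abs h0 φ).trans a1

theorem n1_loc (p : ℂ) : LocallyIntegrable fun z : ℂ => lg (z.re - p.re) (z.im - p.im) := by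
  have hm : ∀ p : ℂ, Measurable fun z : ℂ => lg (z.re - p.re) (z.im - p.im) := fun p =>
    measurable_lg.comp (f := fun z : ℂ => (z.re - p.re, z.im - p.im)) (by fun_prop)
  intro z
  by_cases h : Complex.exp (z - p) = 1
  · obtain ⟨n, hn⟩ := Complex.exp_eq_one_iff.1 h
    obtain ⟨C, -, hC⟩ := n1_log
    rw [← funext fun w => n1_lg_per p w n, ← hn, add_sub_cancel]
    refine ⟨Metric.ball z 1, Metric.ball_mem_nhds z one_pos, Integrable.mono'
      (g := fun w => C + gk 1 (w - z)) ((integrableOn_const measure_ball_lt_top.ne).add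
        ((integrable_gk 1).comp_sub_right z).integrableOn) (hm z).aestronglyMeasurable ?_⟩
    filter_upwards [ae_restrict_mem Metric.isOpen_ball.measurableSet] with w hw
    rw [mem_ball_iff_norm] at hw
    have a1 := abs_le.1 (hC z w (by linarith))
    have a2 := Real.log_nonpos (norm_nonneg _) hw.le
    have a3 : -Real.log ‖w - z‖ ≤ gk 1 (w - z) := by
      rw [gk, one_div, ← Real.log_inv]
      exact le_max_right _ _
    exact abs_le.2 ⟨by linarith [a1.1], by linarith [a1.2, gk_nonneg 1 (w - z)]⟩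
  · refine Filter.Tendsto.integrableAtFilter (hm p).stronglyMeasurable.stronglyMeasurableAtFilter
      (Measure.finiteAt_nhds _ z) (b := lg (z.re - p.re) (z.im - p.im)) ?_
    simp only [n1_lg]
    exact ContinuousAt.log (f := fun w => ‖1 - Complex.exp (w - p)‖) (by fun_prop)
      (norm_ne_zero_iff.2 (sub_ne_zero.2 (Ne.symm h)))

theorem locallyIntegrable_nk (ξ η : ℝ) :
    LocallyIntegrable fun z : ℂ => nk (z.re - ξ) (z.im - η) := by
  exact (n1_loc ⟨ξ, η⟩).add (Continuous.locallyIntegrable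
    (f := fun z : ℂ => exp (z.re - ξ) * cos (z.im - η)) (by fun_prop))

theorem measurable_nk : Measurable fun q : ℝ × ℝ => nk q.1 q.2 := by
  exact measurable_lg.add (by fun_prop)

end

end Pool.Agent.MinMod.Mo
end

-- merged part: Pool.Agent.Work.MP_f62247_an.Mo.J1
section
/-!
# A slow place: mass on both sides, the axis, two constants
`mass_two`: `mass_lower` with `l = L (-R)` (`L_mono`: `l ≤ L ≤ 2 l` on `[-R, R]`) on the windows `[-D-1, -1]` and `[1, 1+D]`, `D = C² + C`.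
`axis_near`: `select` on `[0, 1]` with `M = θ0 L 0` gives a regular `x'` with `om x' ≤ 4 e θ0 L 0`; `γ` is the minimum point at `x'`; `om_ge` with `η = 0`, `gap_ge (R + 1)` (all gaps are nonnegative: `lg_zero_le`); `U x' (γ + π) ≥ B - om`, `B_close`, `Cfg.U_le`, `L 0 ≤ C W 0 ≤ C μ A 0`, `im_le_of_re`, `calm_drift`, `align_transfer`.
`two_const`: `P z = ∏ (1 - exp (2 (z - ξ a)))`, `M = 2 exp 4 * W 0`, `G v = v² - 3 i v`. On the boundary of the rectangle `[x-1, x+1] × [0, 1]`: `‖P z * exp (-M G (z - x))‖ ≤ 1`; on the bottom side `‖P‖ ≤ 1` (`om_nonneg` at regular points, `P = 0` otherwise) and `re G ≥ 0`; on the other sides `‖P‖ ≤ exp M` (`lg_two_le`, `W_mono`, `W_shift`) and `re G = a² - b² + 3 b ≥ 1`.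
`Complex.norm_le_of_forall_mem_frontier_norm_le`, `Complex.frontier_reProdIm` (or `closure_reProdIm`, `interior_reProdIm`).
-/

open Real MeasureTheory Set Filter Topology

namespace Pool.Agent.MinMod.Mo

noncomputable section

structure Slow (Z : Cfg) (μ θ : ℝ) (R : ℕ) : Prop where
  min : ∀ x ∈ Icc (-(R : ℝ)) R, Z.Min 0 x
  calm : ∀ x ∈ Icc (0 : ℝ) 1, 0 < ‖Z.cc x‖ ∧ Z.W x ≤ μ * Z.A x
  slow : Z.L R ≤ (1 + θ) * Z.L (-R)
  pos : 0 < Z.L 0

theorem j1_mono {Z : Cfg} {μ θ : ℝ} {R : ℕ} (hS : Slow Z μ θ R) {x y : ℝ}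
    (hx : x ∈ Icc (-(R : ℝ)) R) (hy : y ∈ Icc (-(R : ℝ)) R) (h : x ≤ y) : Z.L x ≤ Z.L y :=
  Z.L_mono h fun t ht => hS.min t ⟨hx.1.trans ht.1, ht.2.trans hy.2⟩
theorem mass_two : ∃ c D : ℝ, 0 < c ∧ 1 ≤ D ∧ ∀ (Z : Cfg) (μ θ : ℝ) (R : ℕ), Slow Z μ θ R → θ ≤ 1 →
    D + 1 ≤ R → c * Z.L 0 ≤ ((Z.s.filter fun a => Z.ξ a < -1).card : ℝ) ∧
      c * Z.L 0 ≤ ∑ a ∈ Z.s.filter (fun a => 1 ≤ Z.ξ a ∧ Z.ξ a < 1 + D), exp (-2 * Z.ξ a) := by
  obtain ⟨C, hC, hm⟩ := Cfg.mass_lower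
  refine ⟨exp (-(C ^ 2 + C + 1)) / 2, C ^ 2 + C, by positivity, by linarith only [hC, sq_nonneg C],
    fun Z μ θ R hS hθ hR => ?_⟩
  have hC0 : 0 < C := by linarith
  have hD : 0 ≤ C ^ 2 + C := by positivity
  have hl0 : 0 ≤ Z.L (-R) := Z.L_nonneg _
  have hb : ∀ x ∈ Icc (-(R : ℝ)) R, Z.L (-R) ≤ Z.L x ∧ Z.L x ≤ 2 * Z.L (-R) := by
    intro x hx
    refine ⟨j1_mono hS ⟨le_rfl, by linarith [hx.1, hx.2]⟩ hx hx.1, ?_⟩
    have a1 := j1_mono hS hx ⟨by linarith [hx.1, hx.2], le_rfl⟩ hx.2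
    have a2 := hS.slow
    linarith only [a1, a2, hθ, hl0, mul_nonneg_of_nonpos_of_nonpos (Mathlib.Tactic.Linarith.sub_nonpos_of_le hθ) (Mathlib.Tactic.Linarith.sub_nonpos_of_le hl0)]
  have h0 := (hb 0 ⟨by linarith only [hR, hD], by linarith⟩).2
  have hE : 0 < exp (-(C ^ 2 + C + 1)) := exp_pos _
  have key : Z.L (-R) * (C ^ 2 + C) / C - C * Z.L (-R) = Z.L (-R) := by
    field_simp
    ring
  have fin : ∀ S : ℝ, Z.L (-R) ≤ exp (C ^ 2 + C + 1) * S →
      exp (-(C ^ 2 + C + 1)) / 2 * Z.L 0 ≤ S := by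
    intro S h
    have a1 := mul_le_mul_of_nonneg_left h hE.le
    rw [← mul_assoc, ← exp_add, neg_add_cancel, exp_zero, one_mul] at a1
    linarith only [a1, h0, hE, mul_nonneg_of_nonpos_of_nonpos (Mathlib.Tactic.Linarith.sub_nonpos_of_le h0) (le_of_lt (Mathlib.Tactic.Linarith.sub_neg_of_lt hE))]
  constructor
  · apply fin
    have a1 := hm Z (-(C ^ 2 + C) - 1) (-1) (Z.L (-R)) (by linarith)
      (fun x hx => hb x ⟨by linarith [hx.1], by linarith [hx.2]⟩)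
    rw [show (-1 : ℝ) - (-(C ^ 2 + C) - 1) = C ^ 2 + C by ring, key] at a1
    refine a1.trans ?_
    calc ∑ a ∈ Z.s.filter (fun a => -(C ^ 2 + C) - 1 ≤ Z.ξ a ∧ Z.ξ a < -1), exp (-Z.ξ a)
        ≤ ∑ a ∈ Z.s.filter (fun a => -(C ^ 2 + C) - 1 ≤ Z.ξ a ∧ Z.ξ a < -1),
            exp (C ^ 2 + C + 1) := by
          refine Finset.sum_le_sum fun a ha => exp_le_exp.2 ?_
          have := (Finset.mem_filter.1 ha).2.1
          linarith
      _ ≤ ∑ a ∈ Z.s.filter (fun a => Z.ξ a < -1), exp (C ^ 2 + C + 1) := by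
          refine Finset.sum_le_sum_of_subset_of_nonneg (fun a ha => ?_) fun _ _ _ => (exp_pos _).le
          rw [Finset.mem_filter] at ha ⊢
          exact ⟨ha.1, ha.2.2⟩
      _ = _ := by rw [Finset.sum_const, nsmul_eq_mul, mul_comm]
  · apply fin
    have a1 := hm Z 1 (1 + (C ^ 2 + C)) (Z.L (-R)) (by linarith only [hD])
      (fun x hx => hb x ⟨by linarith [hx.1], by linarith [hx.2]⟩)
    rw [show (1 : ℝ) + (C ^ 2 + C) - 1 = C ^ 2 + C by ring, key] at a1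
    refine a1.trans ?_
    rw [Finset.mul_sum]
    refine Finset.sum_le_sum fun a ha => ?_
    rw [← exp_add]
    have := (Finset.mem_filter.1 ha).2.2
    exact exp_le_exp.2 (by linarith)

theorem j1_im (c : ℂ) (x γ : ℝ) :
    |(c * Complex.exp (x + ((γ + π : ℝ) : ℂ) * Complex.I)).im| =
      exp x * |(c * Complex.exp (γ * Complex.I)).im| := by
  have h : c * Complex.exp (x + ((γ + π : ℝ) : ℂ) * Complex.I) =
      ((-exp x : ℝ) : ℂ) * (c * Complex.exp (γ * Complex.I)) := by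
    push_cast
    rw [add_mul, Complex.exp_add, Complex.exp_add, Complex.exp_pi_mul_I]
    ring
  rw [h, Complex.im_ofReal_mul, abs_mul, abs_neg, abs_of_pos (exp_pos x)]
theorem axis_near {φ κ : ℝ} (hφ : 0 < φ) (hκ : 0 < κ) {R : ℕ} (hR : 1 ≤ R) : ∃ θ0 μ1 : ℝ, 0 < θ0 ∧
    0 < μ1 ∧ ∀ (Z : Cfg) (μ θ : ℝ), Slow Z μ θ R → θ ≤ θ0 → μ ≤ μ1 → ∃ γ : ℝ,
      |(Z.cc 0 * Complex.exp (γ * Complex.I)).im| ≤ φ * ‖Z.cc 0‖ ∧
      ∑ a ∈ Z.s.filter (fun a => |Z.ξ a| ≤ R), sin (γ - Z.η a) ^ 2 ≤ κ * Z.L 0 := by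
  obtain ⟨c, hc, hgap⟩ := gap_ge ((R : ℝ) + 1)
  obtain ⟨C, hC, hWL⟩ := Cfg.W_L
  obtain ⟨C', _, hsel⟩ := Cfg.select
  obtain ⟨p, hp0, hp1, hp2⟩ : ∃ p : ℝ, 0 < p ∧ p ≤ φ / 4 ∧ p ≤ 1 / 2 :=
    ⟨min (φ / 4) (1 / 2), by positivity, min_le_left _ _, min_le_right _ _⟩
  obtain ⟨μ0, hμ0, hB⟩ := B_close (ν := p ^ 2 / 4) (by positivity)
  obtain ⟨θ0, ht0, ht1, ht2⟩ : ∃ t : ℝ, 0 < t ∧ t ≤ 1 ∧ 12 * t ≤ c * κ :=
    ⟨min 1 (c * κ / 12), by positivity, min_le_left _ _,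
      by linarith only [min_le_right 1 (c * κ / 12)]⟩
  obtain ⟨μ1, hm0, hm1, hm2, hm3⟩ : ∃ m : ℝ, 0 < m ∧ m ≤ μ0 ∧ 100 * m ≤ p ∧
      (1 + 12 * C) * m ≤ p ^ 2 / 4 := by
    have hq : 0 < 1 + 12 * C := by linarith only [hC, hp0, hp2]
    refine ⟨min μ0 (min (p / 100) (p ^ 2 / 4 / (1 + 12 * C))), by positivity, min_le_left _ _,
      ?_, ?_⟩
    · have := (min_le_right μ0 _).trans (min_le_left (p / 100) (p ^ 2 / 4 / (1 + 12 * C)))
      linarith only [this]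
    · have := (min_le_right μ0 _).trans (min_le_right (p / 100) (p ^ 2 / 4 / (1 + 12 * C)))
      rw [le_div_iff₀ hq] at this
      linarith only [this]
  refine ⟨θ0, μ1, ht0, hm0, fun Z μ θ hS hθ hμ => ?_⟩
  have hR' : (1 : ℝ) ≤ R := by exact_mod_cast hR
  have hL0 := hS.pos
  have hin : ∀ x ∈ Icc (0 : ℝ) 1, x ∈ Icc (-(R : ℝ)) R :=
    fun x hx => ⟨by linarith only [hp2, hm0, hm2, hR', hx, hx.1], by linarith only [hR', hx, hx.2]⟩
  have hA0 : ∀ x, 0 ≤ Z.A x := fun x => by unfold Cfg.A; positivity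
  have hW : ∀ x ∈ Icc (0 : ℝ) 1, Z.W x ≤ μ1 * Z.A x := fun x hx =>
    (hS.calm x hx).2.trans (mul_le_mul_of_nonneg_right hμ (hA0 x))
  have h01 : (0 : ℝ) ∈ Icc (0 : ℝ) 1 := ⟨le_rfl, zero_le_one⟩
  have hstep : Z.L (0 + 1) - Z.L 0 ≤ θ0 * Z.L 0 := by
    rw [zero_add]
    have a1 := j1_mono hS (hin 1 ⟨zero_le_one, le_rfl⟩) ⟨by linarith only [hp2, hm0, hm2, hR'], le_rfl⟩ hR'
    have a2 := j1_mono hS ⟨le_rfl, by linarith only [hp2, hm0, hm2, hR']⟩ (hin 0 h01) (by linarith only [hp2, hm0, hm2, hR'])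
    have a3 := hS.slow
    have a4 := Z.L_nonneg (-R)
    (refine le_of_not_gt fun h_nl => ?_; linarith only [h_nl, a1, a2, a3, hp2, ht0, hm0, hm2, hθ, a4, mul_nonneg_of_nonpos_of_nonpos (Mathlib.Tactic.Linarith.sub_nonpos_of_le hp2) (le_of_lt (Mathlib.Tactic.Linarith.sub_neg_of_lt h_nl)), mul_nonneg_of_nonpos_of_nonpos (le_of_lt (Mathlib.Tactic.Linarith.sub_neg_of_lt ht0)) (Mathlib.Tactic.Linarith.sub_nonpos_of_le a2), mul_pos_of_neg_of_neg (Mathlib.Tactic.Linarith.sub_neg_of_lt hm0) (Mathlib.Tactic.Linarith.sub_neg_of_lt h_nl), mul_nonneg_of_nonpos_of_nonpos (Mathlib.Tactic.Linarith.sub_nonpos_of_le hm2) (le_of_lt (Mathlib.Tactic.Linarith.sub_neg_of_lt h_nl)), mul_nonneg_of_nonpos_of_nonpos (Mathlib.Tactic.Linarith.sub_nonpos_of_le hθ) (Mathlib.Tactic.Linarith.sub_nonpos_of_le a4)])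
  obtain ⟨x, hx, hreg, hom, -⟩ := hsel Z 1 0 (θ0 * Z.L 0) ∅ one_pos le_rfl (by positivity)
    (fun x hx => hS.min x (hin x (by simpa using hx))) hstep
  rw [zero_add] at hx
  obtain ⟨γ, hγ⟩ := (hS.min x (hin x hx)).exists_U hreg
  obtain ⟨b1, b2, b3⟩ := Z.Elev_parts hreg (γ := γ) (by simpa using hγ)
  have hex1 : 1 ≤ exp x := one_le_exp hx.1
  have hex3 : exp x ≤ 3 := (exp_le_exp.2 hx.2).trans (by linarith only [hp2, hm0, hm2, exp_one_lt_d9])
  have hom' : Z.om x ≤ 12 * θ0 * Z.L 0 := by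
    have a1 := mul_le_mul_of_nonneg_left hom (exp_pos x).le
    rw [← mul_assoc, ← exp_add, add_neg_cancel, exp_zero, one_mul, div_one] at a1
    have a2 : 0 < θ0 * Z.L 0 := by positivity
    (refine le_of_not_gt fun h_nl => ?_; linarith only [h_nl, a1, hp2, hm0, hm2, b1, hex3, hex1, mul_nonneg_of_nonpos_of_nonpos (Mathlib.Tactic.Linarith.sub_nonpos_of_le hp2) (le_of_lt (Mathlib.Tactic.Linarith.sub_neg_of_lt h_nl)), mul_pos_of_neg_of_neg (Mathlib.Tactic.Linarith.sub_neg_of_lt hm0) (Mathlib.Tactic.Linarith.sub_neg_of_lt h_nl), mul_nonneg_of_nonpos_of_nonpos (Mathlib.Tactic.Linarith.sub_nonpos_of_le hm2) (le_of_lt (Mathlib.Tactic.Linarith.sub_neg_of_lt h_nl)), mul_nonneg_of_nonpos_of_nonpos (Mathlib.Tactic.Linarith.sub_nonpos_of_le b1) (Mathlib.Tactic.Linarith.sub_nonpos_of_le hex3), mul_nonneg_of_nonpos_of_nonpos (Mathlib.Tactic.Linarith.sub_nonpos_of_le hex1) (le_of_lt (Mathlib.Tactic.Linarith.sub_neg_of_lt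 h_nl))])
  refine ⟨γ, ?_, ?_⟩
  · have hL : Z.L 0 ≤ C * (μ1 * Z.A x) := by
      have a1 := j1_mono hS (hin 0 h01) (hin x hx) hx.1
      have a2 := (hWL Z x).2
      have a3 := mul_le_mul_of_nonneg_left (hW x hx) (by linarith only [hC, hp2, hm0, hm2] : 0 ≤ C)
      (refine le_of_not_gt fun h_nl => ?_; linarith only [h_nl, a1, a2, a3, hp2, hm0, hm2, hL0, hex1, mul_nonneg_of_nonpos_of_nonpos (Mathlib.Tactic.Linarith.sub_nonpos_of_le hp2) (le_of_lt (Mathlib.Tactic.Linarith.sub_neg_of_lt h_nl)), mul_pos_of_neg_of_neg (Mathlib.Tactic.Linarith.sub_neg_of_lt hm0) (Mathlib.Tactic.Linarith.sub_neg_of_lt h_nl), mul_nonneg_of_nonpos_of_nonpos (Mathlib.Tactic.Linarith.sub_nonpos_of_le hm2) (le_of_lt (Mathlib.Tactic.Linarith.sub_neg_of_lt h_nl)), mul_nonneg_of_nonpos_of_nonpos (le_of_lt (Mathlib.Tactic.Linarith.sub_neg_of_lt hL0)) (Mathlib.Tactic.Linarith.sub_nonpos_of_le hex1), mul_nonneg_of_nonpos_of_nonpos (Mathlib.Tactic.Linarith.sub_nonpos_of_le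 hex1) (Mathlib.Tactic.Linarith.sub_nonpos_of_le a1)])
    have hBx := (hB Z x ((hW x hx).trans (mul_le_mul_of_nonneg_right hm1 (hA0 x)))).1
    have hU := Z.U_le (le_refl x) hreg (γ + π)
    rw [sub_self, mul_zero, exp_zero, one_mul] at hU
    have hn : ‖Z.cc x * Complex.exp (x + ((γ + π : ℝ) : ℂ) * Complex.I)‖ = Z.A x := by
      rw [norm_mul, KerA_norm]
      rfl
    have hre : (1 - p ^ 2 / 2) * ‖Z.cc x * Complex.exp (x + ((γ + π : ℝ) : ℂ) * Complex.I)‖ ≤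
        (Z.cc x * Complex.exp (x + ((γ + π : ℝ) : ℂ) * Complex.I)).re := by
      rw [hn]
      have a1 := mul_le_mul_of_nonneg_right hm3 (hA0 x)
      have a2 := hW x hx
      have a3 : θ0 * Z.L 0 ≤ Z.L 0 := by linarith only [ht1, hL0, mul_nonneg_of_nonpos_of_nonpos (Mathlib.Tactic.Linarith.sub_nonpos_of_le ht1) (le_of_lt (Mathlib.Tactic.Linarith.sub_neg_of_lt hL0))]
      linarith only [b2, hom', hL, hBx, hU, a1, a2, a3]
    have him := im_le_of_re hp0.le (by linarith only []) (by linarith only [hp2, hm0, hm2, hp0, mul_nonneg_of_nonpos_of_nonpos (le_of_lt (Mathlib.Tactic.Linarith.sub_neg_of_lt hp0)) (Mathlib.Tactic.Linarith.sub_nonpos_of_le hp2)]) hre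
    rw [hn, j1_im] at him
    have him' : |(Z.cc x * Complex.exp (γ * Complex.I)).im| ≤ p * ‖Z.cc x‖ := by
      unfold Cfg.A at him
      have := exp_pos x
      refine le_of_mul_le_mul_left ?_ this
      linarith only [him]
    have hdr := calm_drift hm0.le (by linarith only [hp2, hm0, hm2]) hW hx h01
    have ht : exp (16 * μ1 * (|0 - x| + 1)) - 1 ≤ p := by
      have a1 : |0 - x| ≤ 1 := by
        rw [zero_sub, abs_neg, abs_of_nonneg hx.1]
        exact hx.2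
      have a2 : 0 ≤ 16 * μ1 * (|0 - x| + 1) := by positivity
      have a3 : 16 * μ1 * (|0 - x| + 1) ≤ 32 * μ1 := by linarith only [hm0, a1, mul_nonneg_of_nonpos_of_nonpos (le_of_lt (Mathlib.Tactic.Linarith.sub_neg_of_lt hm0)) (Mathlib.Tactic.Linarith.sub_nonpos_of_le a1)]
      have a4 := Real.abs_exp_sub_one_le (x := 16 * μ1 * (|0 - x| + 1))
        (by rw [abs_of_nonneg a2]; linarith only [hp2, hm0, hm2, a3])
      rw [abs_of_nonneg a2] at a4
      linarith only [hm0, hm2, a3, a4, le_abs_self (exp (16 * μ1 * (|0 - x| + 1)) - 1)]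
    have hfin := align_transfer hp2
      (hdr.trans (mul_le_mul_of_nonneg_right ht (norm_nonneg _))) him'
    refine hfin.trans (mul_le_mul_of_nonneg_right (by linarith only [hp1]) (norm_nonneg _))
  · have a1 := b3 _ (Finset.filter_subset (fun a => |Z.ξ a| ≤ R) Z.s)
    have a2 : c * ∑ a ∈ Z.s.filter (fun a => |Z.ξ a| ≤ R), sin (γ - Z.η a) ^ 2 ≤ Z.om x := by
      refine le_trans ?_ a1
      rw [Finset.mul_sum]
      refine Finset.sum_le_sum fun a ha => ?_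
      obtain ⟨ha1, ha2⟩ := Finset.mem_filter.1 ha
      refine hgap _ _ (sub_ne_zero.2 (hreg a ha1).symm) ?_
      have := abs_le.1 ha2
      exact abs_le.2 ⟨by linarith only [hp2, hm0, hm2, this, hx, hx.1], by linarith only [this, hx, hx.2]⟩
    refine le_of_mul_le_mul_left ?_ hc
    have a3 := mul_le_mul_of_nonneg_right ht2 hL0.le
    linarith only [hom', a2, a3]

def j1_P (Z : Cfg) (z : ℂ) : ℂ := ∏ a ∈ Z.s, (1 - Complex.exp (2 * (z - Z.ξ a)))

def j1_Q (Z : Cfg) (M x : ℝ) (z : ℂ) : ℂ :=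
  j1_P Z z * Complex.exp (-(M : ℂ) * ((z - x) ^ 2 - 3 * Complex.I * (z - x)))

theorem j1_P_eq (Z : Cfg) (t b : ℝ) : ‖j1_P Z (t + b * Complex.I)‖ =
    ∏ a ∈ Z.s, ‖1 - Complex.exp (((2 * (t - Z.ξ a) : ℝ) : ℂ) + ((2 * b : ℝ) : ℂ) * Complex.I)‖ := by
  unfold j1_P
  rw [norm_prod]
  refine Finset.prod_congr rfl fun a _ => ?_
  congr 3
  push_cast
  ring

theorem j1_P_norm (Z : Cfg) {t b : ℝ} (h : ∀ a ∈ Z.s,
    Complex.exp (((2 * (t - Z.ξ a) : ℝ) : ℂ) + ((2 * b : ℝ) : ℂ) * Complex.I) ≠ 1) :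
    ‖j1_P Z (t + b * Complex.I)‖ = exp (∑ a ∈ Z.s, lg (2 * (t - Z.ξ a)) (2 * b)) := by
  rw [j1_P_eq, exp_sum]
  refine Finset.prod_congr rfl fun a ha => ?_
  unfold lg
  rw [exp_log (norm_pos_iff.2 (sub_ne_zero.2 (h a ha).symm))]

theorem j1_P_le (Z : Cfg) {t : ℝ} (ht : t ≤ 2) (b : ℝ) :
    ‖j1_P Z (t + b * Complex.I)‖ ≤ exp (2 * exp 4 * Z.W 0) := by
  have h1 : ‖j1_P Z (t + b * Complex.I)‖ ≤ exp (2 * Z.W t) := by
    rw [j1_P_eq]
    unfold Cfg.W
    rw [Finset.mul_sum, exp_sum]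
    refine Finset.prod_le_prod (fun _ _ => norm_nonneg _) fun a _ => ?_
    exact (Real.le_exp_log _).trans (exp_le_exp.2 (lg_two_le (t - Z.ξ a) (2 * b)))
  refine h1.trans (exp_le_exp.2 ?_)
  have a1 := Z.W_mono ht
  have a2 := Z.W_shift 0 (t := 2) (by norm_num)
  rw [zero_add, show (2 : ℝ) * 2 = 4 by norm_num] at a2
  linarith

theorem j1_P_bot (Z : Cfg) {t : ℝ} (h : Z.Min 0 t) :
    ‖j1_P Z (t + ((0 : ℝ) : ℂ) * Complex.I)‖ ≤ 1 := by
  by_cases hr : Z.Reg t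
  · rw [j1_P_norm Z fun a ha => exp_ne_one
      (mul_ne_zero two_ne_zero (sub_ne_zero.2 (hr a ha).symm)) _, exp_le_one_iff]
    have := Z.om_nonneg hr h
    unfold Cfg.om kap at this
    rw [mul_zero]
    linarith
  · unfold Cfg.Reg at hr
    push Not at hr
    obtain ⟨a, ha, e⟩ := hr
    rw [j1_P_eq, Finset.prod_eq_zero ha (by simp [e])]
    exact zero_le_one

theorem j1_Q_norm (Z : Cfg) (M x t b : ℝ) : ‖j1_Q Z M x (t + b * Complex.I)‖ =
    ‖j1_P Z (t + b * Complex.I)‖ * exp (-M * ((t - x) ^ 2 - b ^ 2 + 3 * b)) := by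
  unfold j1_Q
  rw [norm_mul, Complex.norm_exp]
  congr 2
  simp [pow_two]
theorem two_const (Z : Cfg) (h : ∀ x ∈ Icc (-1 : ℝ) 2, Z.Min 0 x) {x φ : ℝ} (h0 : 0 ≤ x) (h1 : x ≤ 1)
    (hφ : 0 < φ) (hφ1 : φ ≤ 1) :
    ∑ a ∈ Z.s, lg (2 * (x - Z.ξ a)) (2 * φ) ≤ 6 * exp 4 * φ * Z.W 0 := by
  have hW0 := Z.W_nonneg 0
  have hM : 0 ≤ 2 * exp 4 * Z.W 0 := by positivity
  have hd : Differentiable ℂ (j1_Q Z (2 * exp 4 * Z.W 0) x) := by
    unfold j1_Q j1_P
    fun_prop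
  have hbd : Bornology.IsBounded (Icc (x - 1) (x + 1) ×ℂ Icc (0 : ℝ) 1) :=
    (Metric.isBounded_Icc _ _).reProdIm (Metric.isBounded_Icc _ _)
  have side : ∀ t b : ℝ, t ≤ 2 → 1 ≤ (t - x) ^ 2 - b ^ 2 + 3 * b →
      ‖j1_Q Z (2 * exp 4 * Z.W 0) x (t + b * Complex.I)‖ ≤ 1 := by
    intro t b ht hb
    rw [j1_Q_norm]
    refine (mul_le_mul_of_nonneg_right (j1_P_le Z ht b) (exp_pos _).le).trans ?_
    rw [← exp_add, exp_le_one_iff]
    linarith only [hM, hb, mul_nonneg_of_nonpos_of_nonpos (Mathlib.Tactic.Linarith.sub_nonpos_of_le hM) (Mathlib.Tactic.Linarith.sub_nonpos_of_le hb)]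
  have hmax := Complex.norm_le_of_forall_mem_frontier_norm_le hbd hd.diffContOnCl (C := 1)
    (z := x + φ * Complex.I) ?_ ?_
  · rw [j1_Q_norm, j1_P_norm] at hmax
    swap
    · intro a _ he
      have a1 := congrArg Complex.im he
      rw [KerA_im, Complex.one_im] at a1
      have a2 : 0 < sin (2 * φ) := sin_pos_of_pos_of_lt_pi (by linarith) (by linarith [pi_gt_three])
      have a3 := exp_pos (2 * (x - Z.ξ a))
      linarith only [a1, a2, a3, mul_pos_of_neg_of_neg (Mathlib.Tactic.Linarith.sub_neg_of_lt a2) (Mathlib.Tactic.Linarith.sub_neg_of_lt a3)]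
    rw [← exp_add, exp_le_one_iff] at hmax
    have a1 : 0 ≤ 2 * exp 4 * Z.W 0 * φ ^ 2 := by positivity
    linarith only [hmax, a1]
  · intro z hz
    rw [Complex.frontier_reProdIm, closure_Icc, closure_Icc, frontier_Icc (by linarith),
      frontier_Icc (by linarith)] at hz
    rw [← Complex.re_add_im z]
    rcases hz with ⟨hre, him⟩ | ⟨hre, him⟩
    · have hre' : z.re ∈ Icc (x - 1) (x + 1) := hre
      have him' : z.im ∈ ({0, 1} : Set ℝ) := him
      rcases him' with e | e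
      · rw [e, j1_Q_norm]
        have a1 := j1_P_bot Z (h z.re ⟨by linarith [hre'.1], by linarith [hre'.2]⟩)
        refine mul_le_one₀ a1 (exp_pos _).le ?_
        rw [exp_le_one_iff]
        have := mul_nonneg hM (sq_nonneg (z.re - x))
        linarith only [this]
      · rw [mem_singleton_iff.1 e]
        exact side _ _ (by linarith [hre'.2]) (by linarith only [sq_nonneg (z.re - x), sq_nonneg (z.re - x)])
    · have hre' : z.re ∈ ({x - 1, x + 1} : Set ℝ) := hre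
      have him' : z.im ∈ Icc (0 : ℝ) 1 := him
      have a1 : 0 ≤ z.im * (3 - z.im) := mul_nonneg him'.1 (by linarith [him'.2])
      rcases hre' with e | e
      · rw [e]
        exact side _ _ (by linarith) (by linarith only [a1])
      · rw [mem_singleton_iff.1 e]
        exact side _ _ (by linarith) (by linarith only [a1])
  · refine subset_closure ?_
    rw [Complex.mem_reProdIm]
    simp only [Complex.add_re, Complex.ofReal_re, Complex.mul_re, Complex.I_re, mul_zero,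
      Complex.ofReal_im, Complex.I_im, mul_one, sub_self, add_zero, Complex.add_im,
      Complex.mul_im, zero_add]
    exact ⟨⟨by linarith, by linarith⟩, hφ.le, hφ1⟩

theorem j1_lg (s φ : ℝ) : lg (2 * s) (2 * φ) =
    1 / 2 * Real.log ((1 - exp (2 * s)) ^ 2 + 4 * (exp (2 * s) * sin φ ^ 2)) := by
  rw [lg_eq, KerA_two (2 * s), cos_two_mul, cos_sq']
  congr 2
  ring

theorem j1_pos {s : ℝ} (hs : s ≠ 0) (φ : ℝ) :
    0 < (1 - exp (2 * s)) ^ 2 + 4 * (exp (2 * s) * sin φ ^ 2) := by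
  have h1 : 1 - exp (2 * s) ≠ 0 := by
    rw [sub_ne_zero, ne_comm, Ne, exp_eq_one_iff]
    exact mul_ne_zero two_ne_zero hs
  positivity
theorem lg_two_small {s : ℝ} (hs : s ≤ Real.log 2 / 2) (φ : ℝ) :
    lg (2 * s) (2 * φ) ≤ 2 * exp (2 * s) * sin φ ^ 2 := by
  have hu : exp (2 * s) ≤ 2 := by
    have := exp_le_exp.2 (show 2 * s ≤ Real.log 2 by linarith only [hs])
    rwa [exp_log two_pos] at this
  have hu0 := exp_pos (2 * s)
  have hq : 0 ≤ exp (2 * s) * sin φ ^ 2 := by positivity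
  rw [j1_lg]
  rcases eq_or_lt_of_le (show 0 ≤ (1 - exp (2 * s)) ^ 2 + 4 * (exp (2 * s) * sin φ ^ 2) by
    positivity) with e | e
  · rw [← e, Real.log_zero]
    linarith only [hq]
  · have := Real.log_le_sub_one_of_pos e
    linarith only [this, hu, hu0, mul_nonneg_of_nonpos_of_nonpos (Mathlib.Tactic.Linarith.sub_nonpos_of_le hu) (le_of_lt (Mathlib.Tactic.Linarith.sub_neg_of_lt hu0))]

theorem lg_two_neg {s : ℝ} (hs : s < 0) (φ : ℝ) :
    lg (2 * s) (2 * φ) ≤ -exp (2 * s) / 2 + 2 * exp (2 * s) * sin φ ^ 2 := by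
  have hu : exp (2 * s) < 1 := exp_lt_one_iff.2 (by linarith)
  have hu0 := exp_pos (2 * s)
  rw [j1_lg]
  have := Real.log_le_sub_one_of_pos (j1_pos hs.ne φ)
  linarith only [this, hu, hu0, mul_pos_of_neg_of_neg (Mathlib.Tactic.Linarith.sub_neg_of_lt hu) (Mathlib.Tactic.Linarith.sub_neg_of_lt hu0)]

theorem lg_two_mono {s φ φ' : ℝ} (hs : s ≠ 0) (h : sin φ ^ 2 ≤ sin φ' ^ 2) :
    lg (2 * s) (2 * φ) ≤ lg (2 * s) (2 * φ') := by
  rw [j1_lg, j1_lg]
  refine mul_le_mul_of_nonneg_left (Real.log_le_log (j1_pos hs φ) ?_) (by norm_num)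
  have := mul_le_mul_of_nonneg_left h (exp_pos (2 * s)).le
  linarith

theorem j1_norm_ge (s φ : ℝ) : exp s - 1 ≤ ‖1 - Complex.exp (s + φ * Complex.I)‖ := by
  have := norm_sub_norm_le (Complex.exp (s + φ * Complex.I)) 1
  rwa [KerA_norm, norm_one, norm_sub_rev] at this
theorem lg_ge_half {s : ℝ} (hs : 1 ≤ s) (φ : ℝ) : s / 2 ≤ lg s φ := by
  have h1 : exp s = exp (s / 2) ^ 2 := by
    rw [← KerA_two]
    congr 1
    ring
  have h2 : 27 / 10 ≤ exp s := le_trans (by linarith only [exp_one_gt_d9]) (exp_le_exp.2 hs)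
  have h3 := exp_pos (s / 2)
  have h4 : 41 / 25 ≤ exp (s / 2) := by
    by_contra hc
    linarith only [h1, h2, hc, h3, mul_pos_of_neg_of_neg (Mathlib.Tactic.Linarith.sub_neg_of_lt h3) (Mathlib.Tactic.Linarith.sub_neg_of_lt (lt_of_not_ge hc))]
  have h5 := j1_norm_ge s φ
  unfold lg
  rw [Real.le_log_iff_exp_le (by linarith only [h2, h5])]
  linarith only [h1, h2, h5, h3, h4, mul_nonneg_of_nonpos_of_nonpos (le_of_lt (Mathlib.Tactic.Linarith.sub_neg_of_lt h3)) (Mathlib.Tactic.Linarith.sub_nonpos_of_le h4)]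

theorem lg_nonneg {s : ℝ} (hs : Real.log 2 ≤ s) (φ : ℝ) : 0 ≤ lg s φ := by
  have h1 := exp_le_exp.2 hs
  rw [exp_log two_pos] at h1
  exact Real.log_nonneg (by linarith [j1_norm_ge s φ])

end

end Pool.Agent.MinMod.Mo
end

-- merged part: Pool.Agent.Work.MP_f62247_an.Mo.X1
section
/-!
# Elementary facts on infinite configurations
A family `a ↦ m a * φ a` is summable when `|φ a| ≤ C exp (-2 ξ a)` for `ξ a ≥ X` (`Valid.sum`; the other indices with `m a ≠ 0` form a finite set). `nk s φ = lg s φ + exp s * cos φ` and `Re (exp (-ζ) * exp z) = exp (x - ξ) cos (θ - η)` give `U_split`.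
The inequalities are termwise (`Summable.tsum_le_tsum`), compare the finite versions in `Bf.lean`, `Wf.lean` (`U_le`, `B_ge`, `norm_cc_step`). `continuous_U`: `continuous_tsum` for the far atoms, `continuousAt_lg` for the finitely many near ones.
`exists_ge`: average over `θ ∈ [θ0 - t, θ0 + t]`, `θ0 = - arg (cc x)`: the linear part is `≥ cos t * A x`, and for each atom `∫_{θ0-t}^{θ0+t} kernel ≥ - C w0` (`∫ lg s ≥ - ∫ posLog⁻`, uniformly in `s`: `lg s φ ≥ max s 0 + log |sin (φ/2)|`; see the proof of `Cfg.B_ge`).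
-/

open Real MeasureTheory Set Filter Topology

namespace Pool.Agent.MinMod.Mo

noncomputable section

namespace ICfg

variable {ι : Type} {Y : ICfg ι} {H : ℝ}

theorem Valid.summable_of (h : Y.Valid H) {φ : ι → ℝ} {C X : ℝ}
    (hφ : ∀ a, X ≤ Y.ξ a → |φ a| ≤ C * exp (-2 * Y.ξ a)) : Summable fun a => Y.m a * φ a := by
  refine Summable.of_norm_bounded_eventually (h.sum.mul_left C) ?_
  filter_upwards [(h.fin X).compl_mem_cofinite] with a ha
  rcases eq_or_ne (Y.m a) 0 with e | e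
  · simp [e]
  · have h1 := hφ a (le_of_not_ge fun h2 => ha ⟨e, h2⟩)
    rw [Real.norm_eq_abs, abs_mul, abs_of_nonneg (h.nonneg a), mul_left_comm]
    exact mul_le_mul_of_nonneg_left h1 (h.nonneg a)

theorem x1_exp (x ξ : ℝ) : exp (2 * x) * exp (-2 * ξ) = exp (2 * (x - ξ)) := by
  rw [← exp_add]
  congr 1
  ring

theorem Valid.summable_nk (h : Y.Valid H) (x θ : ℝ) :
    Summable fun a => Y.m a * nk (x - Y.ξ a) (θ - Y.η a) := by
  refine h.summable_of (C := 2 * exp (2 * x)) (X := x + 1) fun a ha => ?_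
  rw [mul_assoc, x1_exp]
  exact abs_nk_le_far (by linarith) _

theorem Valid.summable_w0 (h : Y.Valid H) (x : ℝ) : Summable fun a => Y.m a * w0 (x - Y.ξ a) := by
  refine h.summable_of (C := exp (2 * x)) (X := x) fun a ha => ?_
  rw [x1_exp, abs_of_pos (w0_pos _), w0_of_nonpos (by linarith)]

theorem Valid.summable_lg2 (h : Y.Valid H) (x θ : ℝ) :
    Summable fun a => Y.m a * lg (2 * (x - Y.ξ a)) (2 * (θ - Y.η a)) := by
  refine h.summable_of (C := 2 * exp (2 * x)) (X := x + 1) fun a ha => ?_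
  rw [mul_assoc, x1_exp]
  exact abs_lg_two_le (by linarith) _

theorem Valid.summable_cc (h : Y.Valid H) (y : ℝ) :
    Summable fun a => if Y.ξ a < y then (Y.m a : ℂ) * Complex.exp (-Y.ζ a) else 0 := by
  refine summable_of_hasFiniteSupport ((h.fin y).subset fun a ha => ?_)
  by_cases h1 : Y.ξ a < y
  · refine ⟨fun e => ha ?_, h1.le⟩
    simp [e]
  · exact absurd (if_neg h1) ha

theorem Valid.U_split (h : Y.Valid H) (y x θ : ℝ) :
    (Summable fun a => Y.m a *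
      if Y.ξ a < y then lg (x - Y.ξ a) (θ - Y.η a) else nk (x - Y.ξ a) (θ - Y.η a)) ∧
    Y.U x θ = (Y.cc y * Complex.exp (x + θ * Complex.I)).re + ∑' a, Y.m a *
      if Y.ξ a < y then lg (x - Y.ξ a) (θ - Y.η a) else nk (x - Y.ξ a) (θ - Y.η a) := by
  have h1 : Summable fun a => Y.m a *
      if Y.ξ a < y then lg (x - Y.ξ a) (θ - Y.η a) else nk (x - Y.ξ a) (θ - Y.η a) := by
    refine h.summable_of (C := 2 * exp (2 * x)) (X := max y (x + 1)) fun a ha => ?_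
    rw [if_neg (not_lt.2 (max_le_iff.1 ha).1), mul_assoc, x1_exp]
    exact abs_nk_le_far (by linarith [(max_le_iff.1 ha).2]) _
  have h2 := (h.summable_cc y).mul_right (Complex.exp (x + θ * Complex.I))
  refine ⟨h1, ?_⟩
  rw [U, cc, add_mul, Complex.add_re, ← tsum_mul_right, Complex.re_tsum h2, add_assoc]
  congr 1
  refine (tsum_congr fun a => ?_).trans ((Complex.reCLM.summable h2).tsum_add h1)
  split_ifs
  · have e : -Y.ζ a + (x + θ * Complex.I) =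
        ((x - Y.ξ a : ℝ) : ℂ) + ((θ - Y.η a : ℝ) : ℂ) * Complex.I := by
      unfold ζ
      push_cast
      ring
    rw [Complex.reCLM_apply, mul_assoc, ← Complex.exp_add, e, Complex.re_ofReal_mul, Bf_re_exp, nk]
    ring
  · simp

theorem U_per (Y : ICfg ι) (x θ : ℝ) (k : ℤ) : Y.U x (θ + k * (2 * π)) = Y.U x θ := by
  unfold U
  congr 1
  · rw [Bf_re_mul, Bf_re_mul, add_sub_right_comm, cos_add_int_mul_two_pi]
  · exact tsum_congr fun a => by rw [add_sub_right_comm, nk_per]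

theorem Valid.U_pair (h : Y.Valid H) {x : ℝ} (hx : Y.Reg x) (θ : ℝ) :
    Y.U x θ + Y.U x (θ + π) = ∑' a, Y.m a * lg (2 * (x - Y.ξ a)) (2 * (θ - Y.η a)) := by
  rw [U, U, add_add_add_comm, ← (h.summable_nk x θ).tsum_add (h.summable_nk x (θ + π)), Bf_re_mul,
    Bf_re_mul, add_sub_right_comm, cos_add_pi, mul_neg, add_neg_cancel, zero_add]
  refine tsum_congr fun a => ?_
  rcases eq_or_ne (Y.m a) 0 with e | e
  · simp [e]
  · rw [← mul_add, add_sub_right_comm, nk_add_pi (sub_ne_zero.2 (hx a e).symm)]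

theorem Valid.W_nonneg (h : Y.Valid H) (x : ℝ) : 0 ≤ Y.W x := by
  exact tsum_nonneg fun a => mul_nonneg (h.nonneg a) (w0_pos _).le

theorem Valid.W_mono (h : Y.Valid H) : Monotone Y.W := by
  exact fun x y hxy => (h.summable_w0 x).tsum_le_tsum (fun a =>
    mul_le_mul_of_nonneg_left (w0_mono (by linarith)) (h.nonneg a)) (h.summable_w0 y)

theorem Valid.W_shift (h : Y.Valid H) (x : ℝ) {t : ℝ} (ht : 0 ≤ t) :
    Y.W (x + t) ≤ exp (2 * t) * Y.W x := by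
  rw [W, W, ← tsum_mul_left]
  refine (h.summable_w0 _).tsum_le_tsum (fun a => ?_) ((h.summable_w0 x).mul_left _)
  rw [mul_left_comm, add_sub_right_comm]
  exact mul_le_mul_of_nonneg_left (w0_shift _ ht) (h.nonneg a)

theorem Valid.W_left (h : Y.Valid H) {x : ℝ} (hx : x ≤ H) : Y.W x = exp (2 * (x - H)) * Y.W H := by
  rw [W, W, ← tsum_mul_left]
  refine tsum_congr fun a => ?_
  rcases eq_or_ne (Y.m a) 0 with e | e
  · simp [e]
  · have := h.right a e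
    rw [mul_left_comm, w0_of_nonpos (by linarith), w0_of_nonpos (by linarith), ← exp_add]
    congr 2
    ring

theorem Valid.cc_left (h : Y.Valid H) {x : ℝ} (hx : x ≤ H) : Y.cc x = Y.c := by
  rw [cc, add_eq_left]
  refine (tsum_congr fun a => ?_).trans tsum_zero
  rcases eq_or_ne (Y.m a) 0 with e | e
  · simp [e]
  · exact if_neg (not_lt.2 (hx.trans (h.right a e)))

theorem Valid.cc_step (h : Y.Valid H) {y y' : ℝ} (h1 : y ≤ y') (h2 : y' ≤ y + 1) :
    ‖Y.cc y' - Y.cc y‖ * exp y ≤ exp 2 * Y.W y := by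
  rw [cc, cc, add_sub_add_left_eq_sub, ← (h.summable_cc y').tsum_sub (h.summable_cc y),
    ← le_div_iff₀ (exp_pos y), mul_div_right_comm, ← exp_sub]
  refine tsum_of_norm_bounded ((h.summable_w0 y).hasSum.mul_left _) fun a => ?_
  have h0 : 0 ≤ exp (2 - y) * (Y.m a * w0 (y - Y.ξ a)) :=
    mul_nonneg (exp_pos _).le (mul_nonneg (h.nonneg a) (w0_pos _).le)
  by_cases c : Y.ξ a < y
  · rwa [if_pos c, if_pos (c.trans_le h1), sub_self, norm_zero]
  rw [if_neg c, sub_zero]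
  split_ifs with c'
  · have e : (-Y.ζ a).re = -Y.ξ a := by simp [ζ]
    rw [norm_mul, Complex.norm_real, Real.norm_of_nonneg (h.nonneg a), Complex.norm_exp, e,
      mul_left_comm, w0_of_nonpos (by linarith), ← exp_add]
    exact mul_le_mul_of_nonneg_left (exp_le_exp.2 (by linarith)) (h.nonneg a)
  · rwa [norm_zero]

theorem Valid.U_le (h : Y.Valid H) {x : ℝ} (hx : Y.Reg x) (θ : ℝ) :
    Y.U x θ ≤ (Y.cc x * Complex.exp (x + θ * Complex.I)).re + Y.W x := by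
  obtain ⟨h1, h2⟩ := h.U_split x x θ
  rw [h2]
  refine add_le_add_right (h1.tsum_le_tsum (fun a => ?_) (h.summable_w0 x)) _
  rcases eq_or_ne (Y.m a) 0 with e | e
  · simp [e]
  refine mul_le_mul_of_nonneg_left ?_ (h.nonneg a)
  split_ifs with c
  · have h3 := lg_le (x - Y.ξ a) (θ - Y.η a)
    rw [max_eq_left (by linarith)] at h3
    rw [w0_of_nonneg (by linarith)]
    linarith only [h3, log_two_lt_d9]
  · rw [w0_of_nonpos (by linarith)]
    linarith [nk_le (sub_ne_zero.2 (hx a e).symm) (θ - Y.η a), exp_pos (2 * (x - Y.ξ a))]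

theorem Valid.continuous_U (h : Y.Valid H) {x : ℝ} (hx : Y.Reg x) : Continuous (Y.U x) := by
  have hs : Summable fun a => Y.m a * env (x - Y.ξ a) := by
    refine h.summable_of (C := 2 * exp (2 * x)) (X := x + 1) fun a ha => ?_
    have h1 : x - Y.ξ a < 0 := by linarith
    have h2 := l0_le (s := x - Y.ξ a) (by rw [abs_of_neg h1]; linarith)
    rw [abs_of_neg h1, neg_neg] at h2
    rw [mul_assoc, x1_exp, abs_of_nonneg (env_nonneg _), env, if_pos h1, two_mul (x - Y.ξ a),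
      exp_add, ← mul_left_comm]
    exact mul_le_mul_of_nonneg_left h2 (exp_pos _).le
  refine Continuous.add (by fun_prop) (continuous_tsum (fun a => ?_) hs fun a θ => ?_)
  · rcases eq_or_ne (Y.m a) 0 with e | e
    · simp only [e, zero_mul]
      exact continuous_const
    refine continuous_const.mul (Continuous.add ?_ (by fun_prop))
    exact continuous_iff_continuousAt.2 fun θ => ContinuousAt.comp_of_eq
      (f := fun θ : ℝ => (x - Y.ξ a, θ - Y.η a))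
      (continuousAt_lg (exp_ne_one (sub_ne_zero.2 (hx a e).symm) (θ - Y.η a))) (by fun_prop) rfl
  · rcases eq_or_ne (Y.m a) 0 with e | e
    · simp [e]
    rw [Real.norm_eq_abs, abs_mul, abs_of_nonneg (h.nonneg a)]
    exact mul_le_mul_of_nonneg_left (abs_nk_le (sub_ne_zero.2 (hx a e).symm) _) (h.nonneg a)

/-- the kernel of one atom after the splitting at `x` -/
def x1_k (s η θ : ℝ) : ℝ := if 0 < s then lg s (θ - η) else nk s (θ - η)

theorem x1_ii (s η a b : ℝ) : IntervalIntegrable (x1_k s η) volume a b := by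
  unfold x1_k
  split_ifs
  · exact Bf_ii_lg _ _ _ _
  · exact Bf_ii_nk _ _ _ _

theorem x1_int (s η a : ℝ) {t : ℝ} (h0 : 0 < t) (h1 : t ≤ 1) :
    -(13 * exp 2 * w0 s) ≤ ∫ θ in a..a + 2 * t, x1_k s η θ := by
  have e2 : 1 ≤ exp 2 := one_le_exp (by norm_num)
  unfold x1_k
  split_ifs with c
  · rw [w0_of_nonneg c.le]
    have := Bf_lg_ge s η a h0 h1
    linarith only [e2, c, this, mul_nonneg_of_nonpos_of_nonpos (Mathlib.Tactic.Linarith.sub_nonpos_of_le e2) (le_of_lt (Mathlib.Tactic.Linarith.sub_neg_of_lt c))]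
  · rw [w0_of_nonpos (not_lt.1 c)]
    exact Bf_nk_ge η a (by linarith) h0 h1

theorem Valid.x1_low (h : Y.Valid H) (x θ : ℝ) :
    (Y.cc x * Complex.exp (x + θ * Complex.I)).re +
      ∑ a ∈ (h.fin (x + 1)).toFinset, Y.m a * x1_k (x - Y.ξ a) (Y.η a) θ - 2 * Y.W x ≤ Y.U x θ := by
  classical
  obtain ⟨h1, h2⟩ := h.U_split x x θ
  have h3 : HasSum (fun a => if a ∈ (h.fin (x + 1)).toFinset then
      Y.m a * x1_k (x - Y.ξ a) (Y.η a) θ else 0)
      (∑ a ∈ (h.fin (x + 1)).toFinset, Y.m a * x1_k (x - Y.ξ a) (Y.η a) θ) := by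
    rw [← Finset.sum_congr rfl fun a ha => if_pos (e := 0) ha]
    exact hasSum_sum_of_ne_finset_zero fun a ha => if_neg ha
  rw [h2, add_sub_assoc]
  refine add_le_add_right (hasSum_le (fun a => ?_)
    (h3.sub ((h.summable_w0 x).hasSum.mul_left 2)) h1.hasSum) _
  have h4 := mul_nonneg (h.nonneg a) (w0_pos (x - Y.ξ a)).le
  by_cases c : a ∈ (h.fin (x + 1)).toFinset
  · simp only [if_pos c, x1_k, sub_pos]
    linarith
  rcases eq_or_ne (Y.m a) 0 with e | e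
  · simp [e]
  have h5 : x + 1 < Y.ξ a := not_le.1 fun h5 => c ((h.fin (x + 1)).mem_toFinset.2 ⟨e, h5⟩)
  have h6 := (abs_le.1 (abs_nk_le_far (s := x - Y.ξ a) (by linarith) (θ - Y.η a))).1
  rw [if_neg c, if_neg (by linarith), w0_of_nonpos (by linarith)]
  linarith [mul_le_mul_of_nonneg_left h6 (h.nonneg a)]

theorem Valid.exists_ge : ∃ C : ℝ, 1 ≤ C ∧ ∀ {ι : Type} (Y : ICfg ι) (H x t : ℝ), Y.Valid H → Y.Reg x →
    0 < t → t ≤ 1 → ∃ θ : ℝ, cos t * Y.A x - C * Y.W x / t ≤ Y.U x θ := by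
  refine ⟨13 * exp 2 + 2, by linarith [exp_pos 2], fun Y H x t h hx h0 h1 => ?_⟩
  set a := -Complex.arg (Y.cc x) - t with ha
  have hab : a ≤ a + 2 * t := by linarith
  obtain ⟨θ, -, hθ⟩ := (isCompact_Icc (a := a) (b := a + 2 * t)).exists_isMaxOn
    ⟨a, le_rfl, hab⟩ (h.continuous_U hx).continuousOn
  refine ⟨θ, ?_⟩
  have i1 : ∀ b ∈ (h.fin (x + 1)).toFinset, IntervalIntegrable
      (fun φ => Y.m b * x1_k (x - Y.ξ b) (Y.η b) φ) volume a (a + 2 * t) :=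
    fun b _ => (x1_ii _ _ _ _).const_mul _
  have i2 := IntervalIntegrable.sum _ i1
  rw [Finset.sum_fn] at i2
  have k1 := intervalIntegral.integral_mono_on (μ := volume) hab i2
    (g := fun _ => Y.U x θ + 2 * Y.W x - cos t * Y.A x) intervalIntegrable_const fun φ hφ => by
      have b1 := h.x1_low x φ
      have b2 : Y.U x φ ≤ Y.U x θ := hθ hφ
      have b3 : cos t * Y.A x ≤ (Y.cc x * Complex.exp (x + φ * Complex.I)).re := by
        rw [Bf_re_mul, mul_comm, ← cos_abs (φ - _)]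
        refine mul_le_mul_of_nonneg_left (cos_le_cos_of_nonneg_of_le_pi (abs_nonneg _)
          (by linarith [pi_gt_three]) (abs_le.2 ⟨?_, ?_⟩))
          (mul_nonneg (norm_nonneg _) (exp_pos x).le)
        · linarith [hφ.1]
        · linarith [hφ.2]
      linarith
  rw [intervalIntegral.integral_const, smul_eq_mul, intervalIntegral.integral_finsetSum i1] at k1
  have k2 : ∑ b ∈ (h.fin (x + 1)).toFinset, -(13 * exp 2) * (Y.m b * w0 (x - Y.ξ b)) ≤
      ∑ b ∈ (h.fin (x + 1)).toFinset,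
        ∫ φ in a..a + 2 * t, Y.m b * x1_k (x - Y.ξ b) (Y.η b) φ :=
    Finset.sum_le_sum fun b _ => by
      rw [intervalIntegral.integral_const_mul]
      linarith [mul_le_mul_of_nonneg_left (x1_int (x - Y.ξ b) (Y.η b) a h0 h1) (h.nonneg b)]
  rw [← Finset.mul_sum] at k2
  have k3 : ∑ b ∈ (h.fin (x + 1)).toFinset, Y.m b * w0 (x - Y.ξ b) ≤ Y.W x :=
    (h.summable_w0 x).sum_le_tsum _ fun b _ => mul_nonneg (h.nonneg b) (w0_pos _).le
  have k4 := mul_le_mul_of_nonneg_left k3 (exp_pos 2).le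
  have hW := h.W_nonneg x
  have k5 := mul_nonneg (exp_pos 2).le hW
  have k6 := mul_le_mul_of_nonneg_right h1 hW
  rw [sub_le_comm, le_div_iff₀ h0]
  linarith only [h, k1, k2, k4, k5, k6]

/-- the maximum point on a calm circle is close to the ridge -/
theorem Valid.exists_max {φ : ℝ} (hφ : 0 < φ) : ∃ μ0 : ℝ, 0 < μ0 ∧ ∀ {ι : Type} (Y : ICfg ι)
    (H x : ℝ), Y.Valid H → Y.Reg x → Y.W x ≤ μ0 * Y.A x → ∃ θ : ℝ, (∀ θ', Y.U x θ' ≤ Y.U x θ) ∧
      Y.U x θ ≤ 2 * Y.A x ∧ |(Y.cc x * Complex.exp (θ * Complex.I)).im| ≤ φ * ‖Y.cc x‖ := by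
  obtain ⟨C, C1, hC⟩ := Valid.exists_ge
  obtain ⟨t, t0, t1, t2⟩ : ∃ t : ℝ, 0 < t ∧ t ≤ 1 ∧ t ≤ φ / 2 :=
    ⟨min 1 (φ / 2), lt_min one_pos (by positivity), min_le_left _ _, min_le_right _ _⟩
  have c0 : 0 < C / t := by positivity
  obtain ⟨μ, m0, m1⟩ : ∃ μ : ℝ, 0 < μ ∧ μ * (C / t + 1) = t ^ 2 :=
    ⟨t ^ 2 / (C / t + 1), by positivity, div_mul_cancel₀ _ (by positivity)⟩
  refine ⟨μ, m0, fun Y H x h hx hW => ?_⟩
  have hp : Function.Periodic (Y.U x) (2 * π) := fun θ => by simpa using Y.U_per x θ 1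
  obtain ⟨θ, -, hθ⟩ := (isCompact_Icc (a := 0) (b := 2 * π)).exists_isMaxOn
    ⟨0, le_rfl, two_pi_pos.le⟩ (h.continuous_U hx).continuousOn
  have hm : ∀ θ', Y.U x θ' ≤ Y.U x θ := fun θ' => by
    obtain ⟨ψ, hψ, e⟩ := hp.exists_mem_Ico₀ two_pi_pos θ'
    exact e.trans_le (hθ (Ico_subset_Icc_self hψ))
  obtain ⟨θ', h1⟩ := hC Y H x t h hx t0 t1
  have h2 := h.U_le hx θ
  rw [Complex.exp_add, mul_left_comm, ← Complex.ofReal_exp, Complex.re_ofReal_mul] at h2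
  have hn : ‖Y.cc x * Complex.exp (θ * Complex.I)‖ = ‖Y.cc x‖ := by
    rw [norm_mul, Complex.norm_exp_ofReal_mul_I, mul_one]
  refine ⟨θ, hm, ?_⟩
  generalize Y.cc x * Complex.exp (θ * Complex.I) = v at *
  have h3 : v.re ≤ ‖Y.cc x‖ := hn ▸ Complex.re_le_norm v
  have h4 : v.re ^ 2 + v.im ^ 2 = ‖Y.cc x‖ ^ 2 := by
    rw [← hn, Complex.sq_norm, Complex.normSq_apply]
    ring
  have A0 : 0 ≤ Y.A x := mul_nonneg (norm_nonneg _) (exp_pos x).le
  have h5 : exp x * v.re ≤ Y.A x := by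
    rw [A, mul_comm]
    exact mul_le_mul_of_nonneg_right h3 (exp_pos x).le
  have m2 : μ ≤ 1 := by linarith only [t1, m1, m0, c0, t0, mul_pos m0 c0, mul_nonneg_of_nonpos_of_nonpos (le_of_lt (Mathlib.Tactic.Linarith.sub_neg_of_lt t0)) (Mathlib.Tactic.Linarith.sub_nonpos_of_le t1)]
  refine ⟨by linarith only [hW, h2, h5, m2, A0, mul_le_mul_of_nonneg_right m2 A0], ?_⟩
  have h6 := mul_le_mul_of_nonneg_right (one_sub_sq_div_two_le_cos (x := t)) A0
  have h7 := mul_le_mul_of_nonneg_left hW c0.le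
  have h8 : exp x * ((1 - 3 / 2 * t ^ 2) * ‖Y.cc x‖) ≤ exp x * v.re := by
    have e1 : C * Y.W x / t = C / t * Y.W x := by ring
    have e2 : C / t * (μ * Y.A x) + μ * Y.A x = t ^ 2 * Y.A x := by rw [← m1]; ring
    have e3 : exp x * ((1 - 3 / 2 * t ^ 2) * ‖Y.cc x‖) = (1 - 3 / 2 * t ^ 2) * Y.A x := by
      rw [A]
      ring
    linarith only [hW, h1, h2, h6, h7, e1, e2, e3, hm, hm θ']
  have h9 := le_of_mul_le_mul_left h8 (exp_pos x)
  have n0 := norm_nonneg (Y.cc x)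
  generalize ‖Y.cc x‖ = n at *
  refine abs_le_of_sq_le_sq ?_ (by positivity)
  have b1 : (n - v.re) * (n + v.re) ≤ 3 / 2 * t ^ 2 * n * (2 * n) := by
    rcases le_total 0 (n + v.re) with c | c
    · exact mul_le_mul (by linarith only [h9]) (by linarith only [h3]) c (by positivity)
    · exact (mul_nonpos_of_nonneg_of_nonpos (by linarith only [h3]) c).trans (by positivity)
  have b2 := mul_le_mul_of_nonneg_right (pow_le_pow_left₀ t0.le t2 2) (sq_nonneg n)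
  have b3 := mul_nonneg (sq_nonneg φ) (sq_nonneg n)
  linarith only [h4, b1, b2, b3]

theorem Valid.calm_of_right (h : Y.Valid H) {μ : ℝ}
    (hc : ∀ x, H ≤ x → 0 < ‖Y.cc x‖ ∧ Y.W x ≤ μ * Y.A x) : Y.Calm μ := by
  intro x
  rcases le_total H x with c | c
  · exact hc x c
  obtain ⟨h1, h2⟩ := hc H le_rfl
  rw [A, h.cc_left le_rfl] at h2
  rw [h.cc_left le_rfl] at h1
  rw [A, h.cc_left c, h.W_left c]
  refine ⟨h1, ?_⟩
  calc _ ≤ exp (x - H) * Y.W H :=
        mul_le_mul_of_nonneg_right (exp_le_exp.2 (by linarith)) (h.W_nonneg H)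
    _ ≤ exp (x - H) * (μ * (‖Y.c‖ * exp H)) := mul_le_mul_of_nonneg_left h2 (exp_pos _).le
    _ = _ := by
      rw [exp_sub]
      field_simp

end ICfg

end

end Pool.Agent.MinMod.Mo
end

-- merged part: Pool.Agent.Work.MP_f62247_an.Mo.E1
section
/-!
# The genus one potential of the density of `tav r g`
`N ζ = nk (re z - re ζ) (im z - im ζ)`. Integrability: `|nk s φ| ≤ env s` (`abs_nk_le`, a.e.), `int_exp_env` with `lam = 9/8`, Fubini in the coordinates `(re, im)` (`Complex.volume_preserving_equiv_real_prod`).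
`shift_strip`: for a `2π I`-periodic `P` the integral over `hstrip a b` does not depend on `b` (Fubini, `Function.Periodic.intervalIntegral_add_eq`).
`represent`: with `c = (π r²/2)⁻¹`, `∫_S (ca g ζ r) N ζ = (2π)⁻¹ ∫_θ ∫_S g (ζ + r e^{iθ}) N ζ = (2π)⁻¹ ∫_θ ∫_{S + r e^{iθ}} g ζ * N (ζ - r e^{iθ})`; the shifted strip is `hstrip (r cos θ) (r sin θ)`, which may be replaced by `S' = hstrip 0 (im z - π)` up to the integral over `|re ζ| ≤ r`,
bounded by `2π * 2 K * sup env (x - ξ) ≤ C exp x` (`x - ξ ≥ 1`, `l0_le`). Swap back: `(2π)⁻¹ ∫_θ N (ζ - r e^{iθ}) = ca N ζ r = N ζ + gk r (ζ - z)` for `ζ ∈ S'`, `ζ ≠ z` (`ca_nk_pole`). Finally `c ∫_{S'} g ζ * gk r (ζ - z) = tav r g z` as `ball z r ⊆ S'`.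
-/

open Real MeasureTheory Set Filter Topology

namespace Pool.Agent.MinMod.Mo

noncomputable section

def hstrip (a b : ℝ) : Set ℂ := {ζ | a ≤ ζ.re ∧ b ≤ ζ.im ∧ ζ.im < b + 2 * π}

theorem measurableSet_hstrip (a b : ℝ) : MeasurableSet (hstrip a b) := by
  exact (measurableSet_le measurable_const Complex.measurable_re).inter
    ((measurableSet_le measurable_const Complex.measurable_im).inter
      (measurableSet_lt Complex.measurable_im measurable_const))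

theorem e1_pre (a b : ℝ) :
    hstrip a b = Complex.measurableEquivRealProd ⁻¹' (Ici a ×ˢ Ico b (b + 2 * π)) := by
  ext ζ
  simp [hstrip]

theorem e1_ae (x : ℝ) : ∀ᵐ ζ : ℂ, ζ.re ≠ x :=
  Complex.volume_preserving_equiv_real_prod.quasiMeasurePreserving.ae
    (Measure.quasiMeasurePreserving_fst.ae (Measure.ae_ne volume x))

theorem e1_re {f : ℝ → ℝ} {a : ℝ} (hf : IntegrableOn f (Ici a)) (b : ℝ) :
    IntegrableOn (fun ζ : ℂ => f ζ.re) (hstrip a b) ∧
      ∫ ζ in hstrip a b, f ζ.re = (∫ t in Ici a, f t) * (2 * π) := by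
  have h1 : IntegrableOn (fun q : ℝ × ℝ => f q.1) (Ici a ×ˢ Ico b (b + 2 * π)) := by
    rw [IntegrableOn, Measure.volume_eq_prod, ← Measure.prod_restrict]
    exact Integrable.comp_fst hf _
  rw [e1_pre]
  refine ⟨(Complex.volume_preserving_equiv_real_prod.integrableOn_comp_preimage
    Complex.measurableEquivRealProd.measurableEmbedding).2 h1, ?_⟩
  have h2 := Complex.volume_preserving_equiv_real_prod.setIntegral_preimage_emb
    Complex.measurableEquivRealProd.measurableEmbedding (fun q : ℝ × ℝ => f q.1 * (1 : ℝ))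
    (Ici a ×ˢ Ico b (b + 2 * π))
  rw [Measure.volume_eq_prod, setIntegral_prod_mul f (fun _ => (1 : ℝ))] at h2
  simpa [Real.pi_pos.le] using h2

theorem integrableOn_exp_hstrip {t : ℝ} (ht : 0 < t) (a b : ℝ) :
    IntegrableOn (fun ζ : ℂ => exp (-t * ζ.re)) (hstrip a b) := by
  exact (e1_re (f := fun s => exp (-t * s))
    ((integrableOn_Ici_iff_integrableOn_Ioi).2 (exp_neg_integrableOn_Ioi a ht)) b).1

/-- the kernel with pole `p` -/
def e1_N (p ζ : ℂ) : ℝ := nk (p.re - ζ.re) (p.im - ζ.im)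

def e1_J : ℝ := ∫ t, exp (-(9 / 8) * t) * env t

theorem e1_env (x : ℝ) : Integrable (fun t => exp (9 / 8 * t) * env (x - t)) ∧
    ∫ t, exp (9 / 8 * t) * env (x - t) = exp (9 / 8 * x) * e1_J := by
  have h1 := int_exp_env (lam := 9 / 8) (by norm_num) (by norm_num) 0
  simp only [sub_zero] at h1
  have e : (fun t => exp (9 / 8 * t) * env (x - t)) =
      fun t => exp (9 / 8 * x) * (exp (-(9 / 8) * (x - t)) * env (x - t)) := by
    funext t
    rw [← mul_assoc, ← exp_add]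
    congr 2
    ring
  rw [e]
  refine ⟨(h1.comp_sub_left x).const_mul _, ?_⟩
  rw [integral_const_mul, integral_sub_left_eq_self (fun t => exp (-(9 / 8) * t) * env t) volume x,
    e1_J]

theorem e1_meas : Measurable fun q : ℂ × ℂ => e1_N q.1 q.2 :=
  measurable_nk.comp (f := fun q : ℂ × ℂ => (q.1.re - q.2.re, q.1.im - q.2.im)) (by fun_prop)

theorem e1_bd {ρ : ℂ → ℝ} {K a b : ℝ} (hρ : Measurable ρ)
    (hK : ∀ ζ ∈ hstrip a b, |ρ ζ| ≤ K * exp (9 / 8 * ζ.re)) (p : ℂ) :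
    IntegrableOn (fun ζ => ρ ζ * e1_N p ζ) (hstrip a b) ∧
      ∫ ζ in hstrip a b, ‖ρ ζ * e1_N p ζ‖ ≤ |K| * (exp (9 / 8 * p.re) * e1_J * (2 * π)) := by
  obtain ⟨h1, h2⟩ := e1_env p.re
  obtain ⟨h3, h4⟩ := e1_re (a := a) h1.integrableOn b
  have hle : ∀ᵐ ζ ∂volume.restrict (hstrip a b),
      ‖ρ ζ * e1_N p ζ‖ ≤ |K| * (exp (9 / 8 * ζ.re) * env (p.re - ζ.re)) := by
    filter_upwards [ae_restrict_mem (measurableSet_hstrip a b), ae_restrict_of_ae (e1_ae p.re)]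
      with ζ hζ hne
    rw [norm_mul, Real.norm_eq_abs, Real.norm_eq_abs, ← mul_assoc]
    exact mul_le_mul ((hK ζ hζ).trans (by gcongr; exact le_abs_self K))
      (abs_nk_le (sub_ne_zero.2 hne.symm) _) (abs_nonneg _) (by positivity)
  have h5 : IntegrableOn (fun ζ => ρ ζ * e1_N p ζ) (hstrip a b) :=
    Integrable.mono' (h3.const_mul |K|)
      (hρ.mul (e1_meas.comp measurable_prodMk_left)).aestronglyMeasurable hle
  refine ⟨h5, (integral_mono_ae h5.norm (h3.const_mul |K|) hle).trans ?_⟩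
  rw [integral_const_mul, h4, ← h2]
  exact mul_le_mul_of_nonneg_left (mul_le_mul_of_nonneg_right (setIntegral_le_integral h1
    (ae_of_all _ fun t => mul_nonneg (exp_pos _).le (env_nonneg _))) two_pi_pos.le) (abs_nonneg K)

theorem integrableOn_nk {ρ : ℂ → ℝ} {K a b : ℝ} (hρ : Measurable ρ)
    (hK : ∀ ζ ∈ hstrip a b, |ρ ζ| ≤ K * exp (9 / 8 * ζ.re)) (z : ℂ) :
    IntegrableOn (fun ζ => ρ ζ * nk (z.re - ζ.re) (z.im - ζ.im)) (hstrip a b) := by
  exact (e1_bd hρ hK z).1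

theorem e1_iter {P : ℂ → ℝ} {a b : ℝ} (h : IntegrableOn P (hstrip a b)) :
    ∫ ζ in hstrip a b, P ζ = ∫ t in Ici a, ∫ y in b..b + 2 * π, P (t + y * Complex.I) := by
  have e : P = (fun q : ℝ × ℝ => P (q.1 + q.2 * Complex.I)) ∘ Complex.measurableEquivRealProd := by
    funext ζ
    simp
  rw [e1_pre] at h ⊢
  have h1 : IntegrableOn (fun q : ℝ × ℝ => P (q.1 + q.2 * Complex.I))
      (Ici a ×ˢ Ico b (b + 2 * π)) :=
    (Complex.volume_preserving_equiv_real_prod.integrableOn_comp_preimage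
      Complex.measurableEquivRealProd.measurableEmbedding).1 (e ▸ h)
  have h2 := Complex.volume_preserving_equiv_real_prod.setIntegral_preimage_emb
    Complex.measurableEquivRealProd.measurableEmbedding
    (fun q : ℝ × ℝ => P (q.1 + q.2 * Complex.I)) (Ici a ×ˢ Ico b (b + 2 * π))
  rw [Measure.volume_eq_prod, setIntegral_prod _ h1] at h2
  simp only [Complex.measurableEquivRealProd_apply, Complex.re_add_im] at h2
  rw [h2]
  refine integral_congr_ae (ae_of_all _ fun t => ?_)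
  simp only
  rw [intervalIntegral.integral_of_le (by linarith [two_pi_pos]), integral_Ico_eq_integral_Ioc]

theorem shift_strip {P : ℂ → ℝ} (hp : ∀ z, P (z + 2 * π * Complex.I) = P z) {a b b' : ℝ}
    (h1 : IntegrableOn P (hstrip a b)) (h2 : IntegrableOn P (hstrip a b')) :
    ∫ ζ in hstrip a b, P ζ = ∫ ζ in hstrip a b', P ζ := by
  rw [e1_iter h1, e1_iter h2]
  refine integral_congr_ae (ae_of_all _ fun t => ?_)
  have : Function.Periodic (fun y : ℝ => P (t + y * Complex.I)) (2 * π) := fun y => by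
    simp only
    rw [← hp (t + y * Complex.I)]
    congr 1
    push_cast
    ring
  exact this.intervalIntegral_add_eq b b'

theorem e1_per (p ζ : ℂ) : e1_N p (ζ + 2 * π * Complex.I) = e1_N p ζ := by
  have := nk_per (p.re - ζ.re) (p.im - ζ.im) (-1)
  rw [e1_N, e1_N, ← this]
  congr 1 <;> simp
  ring

theorem e1_trans (g : ℂ → ℝ) (z w : ℂ) : ∫ ζ in hstrip 0 0, g (ζ + w) * e1_N z ζ =
    ∫ ζ in hstrip w.re w.im, g ζ * e1_N (z + w) ζ := by
  have e : hstrip 0 0 = (fun ζ => ζ + w) ⁻¹' hstrip w.re w.im := by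
    ext ζ
    simp only [hstrip, mem_ofPred_eq, mem_preimage, Complex.add_re, Complex.add_im]
    constructor <;> rintro ⟨h1, h2, h3⟩ <;> exact ⟨by linarith, by linarith, by linarith⟩
  rw [← (measurePreserving_add_right volume w).setIntegral_preimage_emb
    (measurableEmbedding_addRight w) (fun ζ => g ζ * e1_N (z + w) ζ), ← e]
  simp [e1_N]

theorem e1_env_le {s x : ℝ} (h1 : 1 ≤ s) (h2 : s ≤ x + 1) : env s ≤ 12 * exp x := by
  have a1 := l0_le (s := s) (by rwa [abs_of_pos (by linarith)])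
  have a2 : exp (-|s|) ≤ 1 := exp_le_one_iff.2 (by linarith [abs_nonneg s])
  have a3 := add_one_le_exp s
  have a4 : exp s ≤ exp x * exp 1 := by rw [← exp_add]; exact exp_le_exp.2 h2
  have a5 : exp x * exp 1 ≤ exp x * 3 := by gcongr; linarith only [exp_one_lt_d9]
  rw [env, if_neg (by linarith)]
  linarith

def e1_V : ℝ := volume.real (Metric.closedBall (0 : ℂ) 8)

theorem e1_edge {g : ℂ → ℝ} {K a b x : ℝ} {p : ℂ} (hg : Measurable g)
    (hK : ∀ ζ : ℂ, -1 ≤ ζ.re → |g ζ| ≤ K * exp (9 / 8 * ζ.re)) (ha : |a| ≤ 1 / 2)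
    (h1 : 3 / 2 ≤ p.re) (h2 : p.re ≤ x + 1 / 2) :
    |(∫ ζ in hstrip a b, g ζ * e1_N p ζ) - ∫ ζ in hstrip (1 / 2) b, g ζ * e1_N p ζ| ≤
      36 * |K| * e1_V * exp x := by
  obtain ⟨a0, a1⟩ := abs_le.1 ha
  have hsub : hstrip a b \ hstrip (1 / 2) b ⊆ Metric.closedBall (b * Complex.I) 8 := by
    rintro ζ ⟨⟨k1, k2, k3⟩, k4⟩
    have k5 : ζ.re < 1 / 2 := by
      by_contra h
      exact k4 ⟨not_lt.1 h, k2, k3⟩
    rw [mem_closedBall_iff_norm]
    refine (Complex.norm_le_abs_re_add_abs_im _).trans ?_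
    have k6 : |(ζ - b * Complex.I).re| ≤ 1 := by
      rw [abs_le]; constructor <;> simp <;> linarith only [a0, k1, k5]
    have k7 : |(ζ - b * Complex.I).im| ≤ 7 := by
      rw [abs_le]; constructor <;> simp <;> linarith only [k2, k3, pi_lt_d2]
    linarith only [k6, k7]
  rw [← setIntegral_sdiff (measurableSet_hstrip _ _)
    (e1_bd hg (fun ζ hζ => hK ζ (by linarith only [a0, hζ, hζ.1])) p).1
    (fun ζ hζ => ⟨a1.trans hζ.1, hζ.2⟩), ← Real.norm_eq_abs]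
  refine (norm_setIntegral_le_of_norm_le_const (C := 3 * |K| * (12 * exp x))
    ((measure_mono hsub).trans_lt measure_closedBall_lt_top) ?_).trans ?_
  · rintro ζ ⟨⟨k1, k2, k3⟩, k4⟩
    have k5 : ζ.re < 1 / 2 := by
      by_contra h
      exact k4 ⟨not_lt.1 h, k2, k3⟩
    have k6 : exp (9 / 8 * ζ.re) ≤ 3 :=
      (exp_le_exp.2 (show 9 / 8 * ζ.re ≤ 1 by linarith only [k5])).trans (by linarith only [exp_one_lt_d9])
    rw [norm_mul, Real.norm_eq_abs, Real.norm_eq_abs]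
    refine mul_le_mul ((hK ζ (by linarith only [a0, k1])).trans ?_)
      ((abs_nk_le (by linarith only [h1, k5]) _).trans (e1_env_le (by linarith only [h1, k5]) (by linarith only [h2, a0, k1]))) (abs_nonneg _)
      (by positivity)
    rw [mul_comm 3]
    exact mul_le_mul (le_abs_self K) k6 (exp_pos _).le (abs_nonneg K)
  · have hv : volume.real (hstrip a b \ hstrip (1 / 2) b) ≤ e1_V := by
      refine (measureReal_mono hsub measure_closedBall_lt_top.ne).trans (le_of_eq ?_)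
      rw [e1_V, Measure.real, Measure.real, Measure.addHaar_closedBall_center]
    calc 3 * |K| * (12 * exp x) * volume.real (hstrip a b \ hstrip (1 / 2) b)
        ≤ 3 * |K| * (12 * exp x) * e1_V := by gcongr
      _ = 36 * |K| * e1_V * exp x := by ring

/-- comparison of the two inner integrals -/
theorem e1_inner {g : ℂ → ℝ} {K : ℝ} (hg : Measurable g)
    (hp : ∀ z, g (z + 2 * π * Complex.I) = g z)
    (hK : ∀ ζ : ℂ, -1 ≤ ζ.re → |g ζ| ≤ K * exp (9 / 8 * ζ.re)) {z w : ℂ} (hz : 2 ≤ z.re)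
    (hw : ‖w‖ ≤ 1 / 2) (b : ℝ) :
    |(∫ ζ in hstrip 0 0, g (ζ + w) * e1_N z ζ) - ∫ ζ in hstrip 0 b, g ζ * e1_N (z + w) ζ| ≤
      72 * |K| * e1_V * exp z.re := by
  have h1 : |w.re| ≤ 1 / 2 := (Complex.abs_re_le_norm w).trans hw
  obtain ⟨h2, h3⟩ := abs_le.1 h1
  have h4 : 3 / 2 ≤ (z + w).re := by rw [Complex.add_re]; linarith only [hz, h2]
  have h5 : (z + w).re ≤ z.re + 1 / 2 := by rw [Complex.add_re]; linarith only [h3]
  have e1 := e1_edge (b := b) hg hK h1 h4 h5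
  have e2 := e1_edge (a := 0) (b := b) hg hK (by norm_num) h4 h5
  rw [e1_trans, shift_strip (b' := b) (fun ζ => by rw [hp, e1_per])
    (e1_bd hg (fun ζ hζ => hK ζ (by linarith only [h2, hζ, hζ.1])) _).1
    (e1_bd hg (fun ζ hζ => hK ζ (by linarith only [h2, hζ, hζ.1])) _).1]
  rw [abs_le] at e1 e2 ⊢
  constructor <;> linarith only [e1, e2, e1.1, e1.2, e2.1, e2.2]

theorem e1_swap {H : ℂ → ℝ → ℝ} {S : Set ℂ} (h : Integrable (Function.uncurry H)
    ((volume.restrict S).prod (volume.restrict (Ioc 0 (2 * π))))) :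
    IntegrableOn (fun ζ => (2 * π)⁻¹ * ∫ θ in (0 : ℝ)..2 * π, H ζ θ) S ∧
      IntervalIntegrable (fun θ => ∫ ζ in S, H ζ θ) volume 0 (2 * π) ∧
      ∫ ζ in S, (2 * π)⁻¹ * ∫ θ in (0 : ℝ)..2 * π, H ζ θ =
        (2 * π)⁻¹ * ∫ θ in (0 : ℝ)..2 * π, ∫ ζ in S, H ζ θ := by
  simp only [intervalIntegral.integral_of_le two_pi_pos.le]
  refine ⟨h.integral_prod_left.const_mul _,
    (intervalIntegrable_iff_integrableOn_Ioc_of_le two_pi_pos.le).2 h.integral_prod_right, ?_⟩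
  rw [integral_const_mul, integral_integral_swap h]

theorem e1_joint1 {g : ℂ → ℝ} {r K : ℝ} (hg : Continuous g) (hr : 0 < r) (hr1 : r ≤ 1 / 2)
    (hK : ∀ ζ : ℂ, -1 ≤ ζ.re → |g ζ| ≤ K * exp (9 / 8 * ζ.re)) (z : ℂ) :
    Integrable (Function.uncurry fun ζ θ => g (ζ + circleMap 0 r θ) * e1_N z ζ)
      ((volume.restrict (hstrip 0 0)).prod (volume.restrict (Ioc 0 (2 * π)))) := by
  have h1 := (e1_bd (ρ := fun ζ => exp (9 / 8 * ζ.re)) (K := 1) (a := 0) (b := 0) (by fun_prop)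
    (fun ζ _ => by rw [abs_of_pos (exp_pos _), one_mul]) z).1
  have h2 := ((Integrable.norm h1).const_mul (3 * |K|)).comp_fst
    (volume.restrict (Ioc 0 (2 * π)))
  have hc : Continuous fun q : ℂ × ℝ => g (q.1 + circleMap 0 r q.2) :=
    hg.comp (continuous_fst.add ((continuous_circleMap 0 r).comp continuous_snd))
  refine h2.mono' (hc.measurable.mul
    ((e1_meas.comp measurable_prodMk_left).comp measurable_fst)).aestronglyMeasurable ?_
  filter_upwards [Measure.quasiMeasurePreserving_fst.ae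
    (ae_restrict_mem (measurableSet_hstrip 0 0))] with q hq
  have h3 : |(circleMap 0 r q.2).re| ≤ 1 / 2 := by
    refine (Complex.abs_re_le_norm _).trans ?_
    rwa [norm_circleMap_zero, abs_of_pos hr]
  obtain ⟨h4, h5⟩ := abs_le.1 h3
  have h6 := hK (q.1 + circleMap 0 r q.2) (by rw [Complex.add_re]; linarith only [hr, hr1, h4, hq, hq.1])
  have h7 : exp (9 / 8 * (q.1 + circleMap 0 r q.2).re) ≤ 3 * exp (9 / 8 * q.1.re) := by
    calc _ ≤ exp (1 + 9 / 8 * q.1.re) := exp_le_exp.2 (by rw [Complex.add_re]; linarith only [hr, hr1, h5])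
      _ = exp 1 * exp (9 / 8 * q.1.re) := exp_add _ _
      _ ≤ _ := by gcongr; linarith only [hr, hr1, exp_one_lt_d9]
  have h8 : |g (q.1 + circleMap 0 r q.2)| ≤ |K| * (3 * exp (9 / 8 * q.1.re)) :=
    h6.trans (mul_le_mul (le_abs_self K) h7 (exp_pos _).le (abs_nonneg K))
  simp only [Function.uncurry, norm_mul, Real.norm_eq_abs, abs_of_pos (exp_pos _)]
  linarith only [h8, mul_le_mul_of_nonneg_right h8 (abs_nonneg (e1_N z q.1))]

theorem e1_joint2 {g : ℂ → ℝ} {r K : ℝ} (hg : Continuous g) (hr : 0 < r)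
    (hK : ∀ ζ : ℂ, -1 ≤ ζ.re → |g ζ| ≤ K * exp (9 / 8 * ζ.re)) (z : ℂ) (b : ℝ) :
    Integrable (Function.uncurry fun ζ θ => g ζ * e1_N (z + circleMap 0 r θ) ζ)
      ((volume.restrict (hstrip 0 b)).prod (volume.restrict (Ioc 0 (2 * π)))) := by
  have hc : Continuous fun q : ℂ × ℝ => (z + circleMap 0 r q.2, q.1) :=
    (continuous_const.add ((continuous_circleMap 0 r).comp continuous_snd)).prodMk continuous_fst
  have hm : AEStronglyMeasurable
      (Function.uncurry fun ζ θ => g ζ * e1_N (z + circleMap 0 r θ) ζ)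
      ((volume.restrict (hstrip 0 b)).prod (volume.restrict (Ioc 0 (2 * π)))) :=
    ((hg.measurable.comp measurable_fst).mul (e1_meas.comp hc.measurable)).aestronglyMeasurable
  have hb := fun θ => e1_bd (a := 0) (b := b) hg.measurable
    (fun ζ hζ => hK ζ (by linarith [hζ.1])) (z + circleMap 0 r θ)
  have hJ : 0 ≤ e1_J := integral_nonneg fun t => mul_nonneg (exp_pos _).le (env_nonneg _)
  refine (integrable_prod_iff' hm).2 ⟨ae_of_all _ fun θ => (hb θ).1, ?_⟩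
  refine (integrable_const (|K| * (exp (9 / 8 * (z.re + r)) * e1_J * (2 * π)))).mono'
    hm.norm.prod_swap.integral_prod_right' (ae_of_all _ fun θ => ?_)
  rw [Real.norm_of_nonneg (integral_nonneg fun _ => norm_nonneg _)]
  refine (hb θ).2.trans ?_
  have h3 : (circleMap 0 r θ).re ≤ r := by
    refine (Complex.re_le_norm _).trans ?_
    rw [norm_circleMap_zero, abs_of_pos hr]
  gcongr
  rw [Complex.add_re]
  linarith

theorem represent {g : ℂ → ℝ} {r K : ℝ} (hg : Continuous g)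
    (hp : ∀ z, g (z + 2 * π * Complex.I) = g z) (hr : 0 < r) (hr1 : r ≤ 1 / 2)
    (hK : ∀ ζ : ℂ, -1 ≤ ζ.re → |g ζ| ≤ K * exp (9 / 8 * ζ.re)) : ∃ C : ℝ, ∀ z : ℂ, 2 ≤ z.re →
    |(∫ ζ in hstrip 0 0, den r g ζ * nk (z.re - ζ.re) (z.im - ζ.im)) - tav r g z| ≤ C * exp z.re := by
  refine ⟨(π * r ^ 2 / 2)⁻¹ * (72 * |K| * e1_V), fun z hz => ?_⟩
  have hc : 0 < (π * r ^ 2 / 2)⁻¹ := by positivity
  obtain ⟨a1, a2, a3⟩ := e1_swap (e1_joint1 hg hr hr1 hK z)
  obtain ⟨-, b2, b3⟩ := e1_swap (e1_joint2 hg hr hK z (z.im - π))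
  have ea : ∀ ζ, (2 * π)⁻¹ * ∫ θ in (0 : ℝ)..2 * π, g (ζ + circleMap 0 r θ) * e1_N z ζ =
      ca g ζ r * e1_N z ζ := fun ζ => by
    rw [intervalIntegral.integral_mul_const, ← mul_assoc, ca, circleAverage_def, smul_eq_mul]
    simp only [circleMap, zero_add]
  have eb : ∀ ζ, (2 * π)⁻¹ * ∫ θ in (0 : ℝ)..2 * π, g ζ * e1_N (z + circleMap 0 r θ) ζ =
      g ζ * ca (e1_N z) ζ r := fun ζ => by
    rw [intervalIntegral.integral_const_mul, mul_left_comm, ca, ← circleAverage_neg_radius,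
      circleAverage_def, smul_eq_mul]
    congr 3
    funext θ
    simp only [e1_N, circleMap, zero_add, Complex.ofReal_neg, neg_mul, Complex.add_re,
      Complex.add_im, Complex.neg_re, Complex.neg_im]
    congr 1 <;> ring
  simp only [ea] at a1 a3
  simp only [eb] at b3
  have i0 := fun b => (e1_bd (a := 0) (b := b) hg.measurable
    (fun ζ hζ => hK ζ (by linarith only [hr, hr1, hζ, hζ.1])) z).1
  have c1 : |(∫ ζ in hstrip 0 0, ca g ζ r * e1_N z ζ) -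
      ∫ ζ in hstrip 0 (z.im - π), g ζ * ca (e1_N z) ζ r| ≤ 72 * |K| * e1_V * exp z.re := by
    rw [a3, b3, ← mul_sub, ← intervalIntegral.integral_sub a2 b2, abs_mul,
      abs_of_pos (inv_pos.2 two_pi_pos), inv_mul_le_iff₀ two_pi_pos, ← Real.norm_eq_abs]
    refine (intervalIntegral.norm_integral_le_of_norm_le_const fun θ _ =>
      e1_inner hg.measurable hp hK hz (by rwa [norm_circleMap_zero, abs_of_pos hr]) _).trans ?_
    rw [sub_zero, abs_of_pos two_pi_pos, mul_comm]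
  have c2 : ∫ ζ in hstrip 0 (z.im - π), g ζ * ca (e1_N z) ζ r =
      (∫ ζ in hstrip 0 0, g ζ * e1_N z ζ) + ∫ v, gk r v * g (z + v) := by
    have d1 : ∫ ζ in hstrip 0 (z.im - π), g ζ * gk r (ζ - z) = ∫ v, gk r v * g (z + v) := by
      rw [setIntegral_eq_integral_of_forall_compl_eq_zero,
        ← integral_add_left_eq_self (fun ζ => g ζ * gk r (ζ - z)) z]
      · simp only [add_sub_cancel_left, mul_comm]
      · intro ζ hζ
        rw [gk_eq_zero hr.le, mul_zero]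
        by_contra h
        rw [not_le] at h
        have k1 := abs_le.1 (Complex.abs_re_le_norm (ζ - z))
        have k2 := abs_le.1 (Complex.abs_im_le_norm (ζ - z))
        rw [Complex.sub_re] at k1
        rw [Complex.sub_im] at k2
        exact hζ ⟨by linarith only [hr, hr1, hz, h, k1, k1.1], by linarith only [hr, hr1, h, k2, k2.1, pi_gt_three],
          by linarith only [hr, hr1, h, k2, k2.2, pi_gt_three]⟩
    rw [shift_strip (b := 0) (b' := z.im - π) (fun ζ => by rw [hp, e1_per]) (i0 _) (i0 _), ← d1,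
      ← integral_add (i0 _) (integrable_pot hg r z).integrableOn]
    refine integral_congr_ae ?_
    filter_upwards [ae_restrict_mem (measurableSet_hstrip 0 (z.im - π)),
      ae_restrict_of_ae (e1_ae z.re)] with ζ h1 h2
    have := ca_nk_pole (p := ζ) (z := z) hr (by linarith only [hr, hr1])
      (abs_le.2 ⟨by linarith only [h1, h1.2.2], by linarith only [h1, h1.2.1]⟩) (fun h => h2 (h ▸ rfl))
    rw [← mul_add]
    exact congrArg (g ζ * ·) this
  have c3 : ∫ ζ in hstrip 0 0, den r g ζ * nk (z.re - ζ.re) (z.im - ζ.im) = (π * r ^ 2 / 2)⁻¹ *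
      ((∫ ζ in hstrip 0 0, ca g ζ r * e1_N z ζ) - ∫ ζ in hstrip 0 0, g ζ * e1_N z ζ) := by
    rw [← integral_sub a1 (i0 0), ← integral_const_mul]
    refine integral_congr_ae (ae_of_all _ fun ζ => ?_)
    simp only [den, e1_N]
    ring
  rw [c3, tav, ← mul_sub, abs_mul, abs_of_pos hc, mul_assoc]
  gcongr
  rw [sub_sub, ← c2]
  exact c1

end

end Pool.Agent.MinMod.Mo
end
end

-- merged part: Pool.Agent.Work.MP_f62247_an.Mo.E5
section
-- merged part: Pool.Agent.Work.MP_f62247_an.Mo.A1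
section
/-!
# One enumeration of all zeros
Define recursively `h 0 = g`, and `(s n, z n, h (n+1))` from `factor (h n)` with radius `n + 1` (a subtype of entire functions with value one at zero; `h (n+1) 0 = 1` follows by evaluating at zero). `h n` has no zero in the ball of radius `n`, so `‖z n a‖ ≥ n` for `a ∈ s n`.
`I = {Nat.pair n a | a ∈ s n}`, `z k = z (unpair k).1 (unpair k).2`. For `ρ ≤ n`: `g = ∏_{j < n} ∏_{a ∈ s j} (1 - w / z j a) * h n`; move the factors with `‖z‖ ≥ ρ` to the last function.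
`red_cfg2` is the proof of `red_cfg` (Red.lean) with the factorisation as a hypothesis.
-/

open Real MeasureTheory Set Filter Topology

namespace Pool.Agent.MinMod.Mo

noncomputable section

theorem a1_seq {g : ℂ → ℂ} (hg : Differentiable ℂ g) (h0 : g 0 = 1) :
    ∃ (H : ℕ → ℂ → ℂ) (s : ℕ → Finset ℕ) (z : ℕ → ℕ → ℂ), H 0 = g ∧ (∀ n, Differentiable ℂ (H n)) ∧
      (∀ n, ∀ a ∈ s n, z n a ≠ 0) ∧ (∀ (n : ℕ) (w : ℂ), ‖w‖ < n → H n w ≠ 0) ∧
      ∀ n w, H n w = (∏ a ∈ s n, (1 - w / z n a)) * H (n + 1) w := by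
  have step : ∀ (h : {h : ℂ → ℂ // Differentiable ℂ h ∧ h 0 = 1}) (n : ℕ),
      ∃ (s : Finset ℕ) (z : ℕ → ℂ) (k : {h : ℂ → ℂ // Differentiable ℂ h ∧ h 0 = 1}),
      (∀ a ∈ s, z a ≠ 0) ∧ (∀ w : ℂ, ‖w‖ < ((n + 1 : ℕ) : ℝ) → k.1 w ≠ 0) ∧
      ∀ w, h.1 w = (∏ a ∈ s, (1 - w / z a)) * k.1 w := by
    intro h n
    obtain ⟨s, z, k, hk, hz, hnz, hf⟩ := factor h.2.1 h.2.2 ((n + 1 : ℕ) : ℝ)
    have hk0 : k 0 = 1 := by
      have := hf 0
      rw [h.2.2] at this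
      simpa using this.symm
    exact ⟨s, z, ⟨k, hk, hk0⟩, fun a ha => (hz a ha).1, hnz, hf⟩
  choose S Z K h1 h2 h3 using step
  let H : ℕ → {h : ℂ → ℂ // Differentiable ℂ h ∧ h 0 = 1} := fun n =>
    Nat.rec ⟨g, hg, h0⟩ (fun n h => K h n) n
  refine ⟨fun n => (H n).1, fun n => S (H n) n, fun n => Z (H n) n, rfl, fun n => (H n).2.1,
    fun n => h1 (H n) n, fun n w hw => ?_, fun n => h3 (H n) n⟩
  cases n with
  | zero => exact absurd hw (by simp)
  | succ n => exact h2 (H n) n w hw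

theorem exists_enum {g : ℂ → ℂ} (hg : Differentiable ℂ g) (h0 : g 0 = 1) :
    ∃ (I : Set ℕ) (z : ℕ → ℂ), ∀ ρ : ℝ, ∃ (s : Finset ℕ) (h : ℂ → ℂ),
      (∀ a, a ∈ s ↔ a ∈ I ∧ ‖z a‖ < ρ) ∧ Differentiable ℂ h ∧ (∀ a ∈ s, z a ≠ 0) ∧
      (∀ w, ‖w‖ < ρ → h w ≠ 0) ∧ ∀ w, g w = (∏ a ∈ s, (1 - w / z a)) * h w := by
  obtain ⟨H, s, z, e0, hd, hz, hnz, hf⟩ := a1_seq hg h0
  have hge : ∀ n, ∀ a ∈ s n, (n : ℝ) ≤ ‖z n a‖ := by
    intro n a ha
    by_contra hlt
    refine hnz n _ (not_le.1 hlt) ?_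
    rw [hf, Finset.prod_eq_zero ha (by rw [div_self (hz n a ha), sub_self]), zero_mul]
  have hT : ∀ n : ℕ, ∃ T : Finset ℕ,
      (∀ k, k ∈ T ↔ (Nat.unpair k).1 < n ∧ (Nat.unpair k).2 ∈ s (Nat.unpair k).1) ∧
      ∀ w, g w = (∏ k ∈ T, (1 - w / z (Nat.unpair k).1 (Nat.unpair k).2)) * H n w := by
    intro n
    induction n with
    | zero => exact ⟨∅, by simp, by simp [e0]⟩
    | succ n ih =>
      obtain ⟨T, h1, h2⟩ := ih
      refine ⟨T ∪ (s n).image (Nat.pair n), fun k => ?_, fun w => ?_⟩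
      · rw [Finset.mem_union, h1, Finset.mem_image]
        constructor
        · rintro (h | ⟨a, ha, rfl⟩)
          · exact ⟨by omega, h.2⟩
          · simpa using ha
        · rintro ⟨h3, h4⟩
          rcases Nat.lt_succ_iff_lt_or_eq.1 h3 with h5 | h5
          · exact Or.inl ⟨h5, h4⟩
          · exact Or.inr ⟨(Nat.unpair k).2, h5 ▸ h4, h5 ▸ Nat.pair_unpair k⟩
      · rw [Finset.prod_union, Finset.prod_image fun a _ b _ e => (Nat.pair_eq_pair.1 e).2, h2, hf n,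
          mul_assoc]
        · simp only [Nat.unpair_pair]
        · refine Finset.disjoint_left.2 fun k hk hk' => ?_
          obtain ⟨a, -, rfl⟩ := Finset.mem_image.1 hk'
          simpa using ((h1 _).1 hk).1
  refine ⟨{k | (Nat.unpair k).2 ∈ s (Nat.unpair k).1},
    fun k => z (Nat.unpair k).1 (Nat.unpair k).2, fun ρ => ?_⟩
  obtain ⟨T, h1, h2⟩ := hT ⌈ρ⌉₊
  have hn := hd ⌈ρ⌉₊
  refine ⟨T.filter fun k => ‖z (Nat.unpair k).1 (Nat.unpair k).2‖ < ρ,
    fun w => (∏ k ∈ T.filter fun k => ¬ ‖z (Nat.unpair k).1 (Nat.unpair k).2‖ < ρ,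
      (1 - w / z (Nat.unpair k).1 (Nat.unpair k).2)) * H ⌈ρ⌉₊ w, fun a => ?_, ?_,
    fun a ha => hz _ _ ((h1 a).1 (Finset.mem_filter.1 ha).1).2, fun w hw => ?_, fun w => ?_⟩
  · rw [Finset.mem_filter, h1]
    refine ⟨fun h => ⟨h.1.2, h.2⟩, fun h => ⟨⟨?_, h.1⟩, h.2⟩⟩
    exact Nat.lt_ceil.2 ((hge _ _ h.1).trans_lt h.2)
  · exact (Differentiable.fun_finsetProd fun k _ => by fun_prop).mul hn
  · refine mul_ne_zero (Finset.prod_ne_zero_iff.2 fun k hk h => ?_)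
      (hnz _ w (hw.trans_le (Nat.le_ceil ρ)))
    obtain ⟨hk, hk'⟩ := Finset.mem_filter.1 hk
    rw [sub_eq_zero, eq_comm, div_eq_one_iff_eq (hz _ _ ((h1 k).1 hk).2)] at h
    exact hk' (h ▸ hw)
  · rw [h2, ← mul_assoc, Finset.prod_filter_mul_prod_filter_not]

theorem red_cfg2 : ∃ C : ℝ, 1 ≤ C ∧ ∀ (g h : ℂ → ℂ) (R Bm : ℝ) (s : Finset ℕ) (z : ℕ → ℂ),
    g 0 = 1 → 0 < R → 0 < Bm → (∀ w : ℂ, ‖w‖ = R → ‖g w‖ ≤ exp Bm) → Differentiable ℂ h →
    (∀ a ∈ s, z a ≠ 0 ∧ ‖z a‖ < R / 3) → (∀ w, ‖w‖ < R / 3 → h w ≠ 0) →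
    (∀ w, g w = (∏ a ∈ s, (1 - w / z a)) * h w) → ∃ Z : Cfg, Z.s = s ∧
      (Z.ξ = fun a => (Complex.log (z a)).re) ∧ (Z.η = fun a => (Complex.log (z a)).im) ∧
      (∀ x θ : ℝ, exp x ≤ R / 8 → ∃ E : ℝ, |E| ≤ C * Bm * (exp x / R) ^ 2 ∧
        ‖g (Complex.exp (x + θ * Complex.I))‖ = ‖Z.F (x + θ * Complex.I)‖ * exp E) ∧
      ∀ x : ℝ, exp x ≤ R → Z.W x ≤ C * Bm := by
  refine ⟨144, by norm_num, fun g h R Bm s z h0 hR hB hb hh hz hnz hgh => ?_⟩
  have hh0 : h 0 = 1 := by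
    have := hgh 0
    rw [h0] at this
    simpa using this.symm
  set q : ℕ → ℝ := fun a => R / ‖z a‖ - 1 with hq
  have hq2 : ∀ a ∈ s, 2 ≤ q a := by
    intro a ha
    have h1 : 0 < ‖z a‖ := norm_pos_iff.2 (hz a ha).1
    have h2 : 3 ≤ R / ‖z a‖ := by
      rw [le_div_iff₀ h1]; linarith only [hz, ha, (hz a ha).2]
    simp only [hq]; linarith
  set Q : ℝ := ∏ a ∈ s, q a with hQ
  have hQ1 : 1 ≤ Q := by
    have := Finset.prod_le_prod (s := s) (f := fun _ => (1 : ℝ)) (g := q)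
      (fun _ _ => zero_le_one) (fun a ha => by linarith [hq2 a ha])
    simpa using this
  have hfr : ∀ w ∈ frontier (Metric.ball (0 : ℂ) R), ‖h w‖ ≤ exp Bm / Q := by
    intro w hw
    rw [frontier_ball 0 hR.ne', mem_sphere_zero_iff_norm] at hw
    have h1 := hb w hw
    rw [hgh w, norm_mul, norm_prod] at h1
    have h2 : Q ≤ ∏ a ∈ s, ‖1 - w / z a‖ := by
      refine Finset.prod_le_prod (fun a ha => by linarith [hq2 a ha]) fun a ha => ?_
      have h3 := norm_sub_norm_le (w / z a) 1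
      rw [norm_div, hw, norm_one, norm_sub_rev] at h3
      exact h3
    rw [le_div_iff₀ (by linarith)]
    linarith only [h1, h2, norm_nonneg (h w), mul_nonneg_of_nonpos_of_nonpos (Mathlib.Tactic.Linarith.sub_nonpos_of_le h2) (Mathlib.Tactic.Linarith.sub_nonpos_of_le (norm_nonneg (h w)))]
  have hball : ∀ w : ℂ, ‖w‖ ≤ R → ‖h w‖ ≤ exp Bm / Q := by
    intro w hw
    refine Complex.norm_le_of_forall_mem_frontier_norm_le Metric.isBounded_ball
      hh.diffContOnCl hfr ?_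
    rw [closure_ball 0 hR.ne']
    exact mem_closedBall_zero_iff.2 hw
  have hQe : Q ≤ exp Bm := by
    have := hball 0 (by simpa using hR.le)
    rw [hh0, norm_one, le_div_iff₀ (by linarith)] at this
    linarith
  have hsum : ∑ a ∈ s, Real.log (q a) ≤ Bm := by
    rw [← Real.log_prod (fun a ha => by linarith [hq2 a ha])]
    have := Real.log_le_log (by linarith) hQe
    rwa [Real.log_exp] at this
  obtain ⟨H, hH, hH0, hexp⟩ := Red_log hh hh0 (by linarith : 0 < R / 3) hnz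
  have hre : ∀ w, ‖w‖ < R / 3 → (H w).re ≤ Bm := by
    intro w hw
    have h1 := hball w (by linarith)
    rw [hexp w hw, Complex.norm_exp] at h1
    have h2 : exp Bm / Q ≤ exp Bm := div_le_self (exp_pos _).le hQ1
    exact exp_le_exp.1 (h1.trans h2)
  obtain ⟨d, hd⟩ := Red_second hR hB hH hH0 hre
  refine ⟨⟨d - ∑ a ∈ s, 1 / z a, s, fun a => (Complex.log (z a)).re,
    fun a => (Complex.log (z a)).im⟩, rfl, rfl, rfl, fun x θ hx => ?_, fun x hx => ?_⟩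
  · set w : ℂ := Complex.exp (x + θ * Complex.I) with hw
    have hwn : ‖w‖ = exp x := by
      rw [hw, Complex.norm_exp]; simp
    refine ⟨(H w - d * w).re, ?_, ?_⟩
    · have := hd w (by rw [hwn]; linarith only [hR, hx])
      rw [hwn] at this
      exact (Complex.abs_re_le_norm _).trans this
    · rw [← Complex.norm_exp, ← norm_mul]
      congr 1
      rw [hgh w, hexp w (by rw [hwn]; linarith)]
      simp only [Cfg.F, Cfg.ζ, Complex.re_add_im]
      have e1 : ∏ a ∈ s, ((1 - Complex.exp (x + θ * Complex.I - Complex.log (z a))) *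
          Complex.exp (Complex.exp (x + θ * Complex.I - Complex.log (z a)))) =
          (∏ a ∈ s, (1 - w / z a)) * Complex.exp (∑ a ∈ s, 1 / z a * w) := by
        rw [Complex.exp_sum, ← Finset.prod_mul_distrib]
        refine Finset.prod_congr rfl fun a ha => ?_
        rw [Complex.exp_sub, Complex.exp_log (hz a ha).1, ← hw]
        congr 2
        ring
      rw [e1, ← hw, ← Finset.sum_mul]
      have e2 : Complex.exp (H w) = Complex.exp ((d - ∑ a ∈ s, 1 / z a) * w) *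
          Complex.exp ((∑ a ∈ s, 1 / z a) * w) * Complex.exp (H w - d * w) := by
        rw [← Complex.exp_add, ← Complex.exp_add]
        congr 1
        ring
      rw [e2]
      ring
  · simp only [Cfg.W]
    have h1 : ∑ a ∈ s, w0 (x - (Complex.log (z a)).re) ≤ ∑ a ∈ s, 4 * Real.log (q a) := by
      refine Finset.sum_le_sum fun a ha => Red_w0 (hq2 a ha) ?_
      have h2 : 0 < ‖z a‖ := norm_pos_iff.2 (hz a ha).1
      rw [Complex.log_re, exp_sub, exp_log h2]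
      simp only [hq, sub_add_cancel]
      gcongr
    rw [← Finset.mul_sum] at h1
    linarith

end

end Pool.Agent.MinMod.Mo
end

-- merged part: Pool.Agent.Work.MP_f62247_an.Mo.A2
section
/-!
# Reduction to finite configurations without loss
Follow the proof of `red_f` (FinA.lean) with `exists_enum`, `red_cfg2`, the error `t log M`, `t = (η - η')/10`, in place of `η/20 log M` (`point2` replaces `FinA_point`: `(1 + η')(1 + t) ≤ 1 + η - t`), and `x1 = ⌊(1 - 3 s) y⌋₊`, `x0` rounded up to a natural number (`B_mono`, `W_mono`, or redo the last estimate with `x1 ≥ (1 - 4 s) y`).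
An index `a ∈ I` with `re (log (z a)) ≤ x1` has `‖z a‖ ≤ exp x1 < exp y / 3` (`z a ≠ 0` for `a ∈ I`: take `ρ = ‖z a‖ + 1`).
-/

open Real MeasureTheory Set Filter Topology

namespace Pool.Agent.MinMod.Mo

noncomputable section

/-- the finite configuration `Z` describes `f` on `[x0, x1]` -/
structure Rd (f : ℂ → ℂ) (I : Set ℕ) (ξ ηa : ℕ → ℝ) (η' : ℝ) (x0 x1 : ℕ) (Z : Cfg) : Prop where
  hξ : Z.ξ = ξ
  hη : Z.η = ηa
  sub : ∀ a ∈ Z.s, a ∈ I
  sup : ∀ a ∈ I, ξ a ≤ x1 → a ∈ Z.s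
  min : ∀ x ∈ Icc (x0 : ℝ) x1, Z.Min η' x
  lo : ∀ x ∈ Icc (x0 : ℝ) x1, Real.log (maxMod f (exp x)) / 2 ≤ Z.B x
  hi : ∀ x ∈ Icc (x0 : ℝ) x1, Z.B x ≤ 2 * Real.log (maxMod f (exp x))

theorem Rd.mono {f : ℂ → ℂ} {I : Set ℕ} {ξ ηa : ℕ → ℝ} {η' : ℝ} {x0 x1 x2 : ℕ} {Z : Cfg}
    (h : Rd f I ξ ηa η' x0 x1 Z) (h2 : x2 ≤ x1) : Rd f I ξ ηa η' x0 x2 Z := by
  have e : (x2 : ℝ) ≤ x1 := by exact_mod_cast h2
  have e1 : Icc (x0 : ℝ) x2 ⊆ Icc (x0 : ℝ) x1 := Icc_subset_Icc_right e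
  exact ⟨h.hξ, h.hη, h.sub, fun a ha h3 => h.sup a ha (h3.trans e), fun x hx => h.min x (e1 hx),
    fun x hx => h.lo x (e1 hx), fun x hx => h.hi x (e1 hx)⟩

theorem point2 {f : ℂ → ℂ} (hf : Continuous f) (Z : Cfg) {x η η' : ℝ} (h0 : 0 < η') (h1 : η' < η)
    (hη1 : η ≤ 1) (hM : 0 < Real.log (maxMod f (exp x)))
    (hm : modRatio f (exp x) ≤ ((-1 - η : ℝ) : EReal))
    (hE : ∀ θ : ℝ, ∃ E : ℝ, |E| ≤ (η - η') / 10 * Real.log (maxMod f (exp x)) ∧
      ‖f (Complex.exp (x + θ * Complex.I))‖ = ‖Z.F (x + θ * Complex.I)‖ * exp E) :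
    Z.Min η' x ∧ Real.log (maxMod f (exp x)) / 2 ≤ Z.B x ∧
      Z.B x ≤ 2 * Real.log (maxMod f (exp x)) := by
  obtain ⟨⟨θ1, g1⟩, ⟨θ2, h2⟩, h3⟩ := exists_maxMod hf x
  obtain ⟨t, ht⟩ : ∃ t, t = (η - η') / 10 := ⟨_, rfl⟩
  rw [← ht] at hE
  set M := Real.log (maxMod f (exp x)) with hMdef
  have hM0 : 0 < maxMod f (exp x) := by
    rcases (g1 ▸ norm_nonneg _ : 0 ≤ maxMod f (exp x)).lt_or_eq with h | h
    · exact h
    · rw [hMdef, ← h, Real.log_zero] at hM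
      exact absurd hM (lt_irrefl _)
  have hMe : maxMod f (exp x) = exp M := (Real.exp_log hM0).symm
  have hup : Z.B x ≤ M + t * M := by
    obtain ⟨θ, hθ⟩ := Z.exists_norm_F_eq x
    obtain ⟨E, hE1, hE2⟩ := hE θ
    have h4 := (h3 θ).2
    rw [hE2, hθ, hMe, ← exp_add, exp_le_exp] at h4
    have := (abs_le.1 hE1).1
    linarith only [h4, this]
  have hlo : M - t * M ≤ Z.B x := by
    obtain ⟨E, hE1, hE2⟩ := hE θ1
    have h4 : exp M ≤ exp (Z.B x + E) := by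
      rw [← hMe, g1, hE2, exp_add]
      exact mul_le_mul_of_nonneg_right (Z.norm_F_le x θ1) (exp_pos E).le
    rw [exp_le_exp] at h4
    have := (abs_le.1 hE1).2
    linarith
  have htM : t * M ≤ 1 / 10 * M := mul_le_mul_of_nonneg_right (by linarith only [h0, hη1, ht]) hM.le
  have htM0 : 0 ≤ t * M := mul_nonneg (by linarith only [h1, ht]) hM.le
  refine ⟨⟨θ2, ?_⟩, by linarith only [hM, hlo, htM], by linarith only [hM, hup, htM]⟩
  obtain ⟨E, hE1, hE2⟩ := hE θ2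
  rw [← h2] at hE2
  by_cases hz : minMod f (exp x) = 0
  · rw [hz] at hE2
    rcases mul_eq_zero.1 hE2.symm with h | h
    · rw [h]
      exact (exp_pos _).le
    · exact absurd h (exp_pos E).ne'
  · have hm0 : 0 < minMod f (exp x) :=
      lt_of_le_of_ne (h2 ▸ norm_nonneg _) (Ne.symm hz)
    unfold modRatio at hm
    rw [if_neg hz] at hm
    have hm' : Real.log (minMod f (exp x)) / M ≤ -1 - η := by exact_mod_cast hm
    rw [div_le_iff₀ hM] at hm'
    have hF : ‖Z.F (x + θ2 * Complex.I)‖ = exp (Real.log (minMod f (exp x)) - E) := by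
      rw [exp_sub, Real.exp_log hm0, hE2, mul_div_assoc, div_self (exp_pos E).ne', mul_one]
    rw [hF, exp_le_exp]
    have h5 := (abs_le.1 hE1).1
    have h6 : (1 + η') * Z.B x ≤ (1 + η') * (M + t * M) :=
      mul_le_mul_of_nonneg_left hup (by linarith only [h0, h1, hη1])
    have h7 : η' * (t * M) ≤ 1 * (t * M) := mul_le_mul_of_nonneg_right (by linarith only [h1, hη1]) htM0
    have h8 : η * M = η' * M + 10 * (t * M) := by rw [ht]; ring
    linarith only [hup, hlo, hm', h5, h6, h7, h8]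

theorem a2_err {lam s δ C x y : ℝ} (h2 : lam ≤ 11 / 10) (hs0 : 0 < s) (hδ : 0 < δ) (hy0 : 0 ≤ y)
    (hx : x ≤ y - 3 * (y * s)) (hy5 : 80 * C ≤ y * s * δ) :
    C * (2 * exp ((lam + s) * y)) * (exp x / exp y) ^ 2 ≤ δ / 20 * exp ((lam - s) * x) := by
  have hys : 0 ≤ y * s := by positivity
  have e1 : C * (2 * exp ((lam + s) * y)) * (exp x / exp y) ^ 2 =
      2 * C * exp ((lam + s) * y + 2 * (x - y)) := by
    rw [← exp_sub, ← exp_nat_mul, exp_add]
    push_cast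
    ring
  have e2 : (lam + s) * y + 2 * (x - y) + y * s / 2 ≤ (lam - s) * x := by
    have e3 := mul_le_mul_of_nonneg_left hx (show 0 ≤ 2 - lam + s by linarith only [h2, hs0])
    have e4 : (9 / 10) * (y * s) ≤ (2 - lam) * (y * s) :=
      mul_le_mul_of_nonneg_right (by linarith only [h2]) hys
    have e5 : 0 ≤ s * (y * s) := by positivity
    linarith only [hys, e3, e4, e5]
  have e6 : exp ((lam + s) * y + 2 * (x - y)) * exp (y * s / 2) ≤ exp ((lam - s) * x) := by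
    rw [← exp_add]
    exact exp_le_exp.2 e2
  have e7 := add_one_le_exp (y * s / 2)
  have e8 : 2 * C ≤ δ / 20 * exp (y * s / 2) := by linarith only [hδ, hy5, e7, mul_nonneg_of_nonpos_of_nonpos (le_of_lt (Mathlib.Tactic.Linarith.sub_neg_of_lt hδ)) (Mathlib.Tactic.Linarith.sub_nonpos_of_le e7)]
  rw [e1]
  calc 2 * C * exp ((lam + s) * y + 2 * (x - y))
      ≤ δ / 20 * exp (y * s / 2) * exp ((lam + s) * y + 2 * (x - y)) :=
        mul_le_mul_of_nonneg_right e8 (exp_pos _).le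
    _ = δ / 20 * (exp ((lam + s) * y + 2 * (x - y)) * exp (y * s / 2)) := by ring
    _ ≤ δ / 20 * exp ((lam - s) * x) := mul_le_mul_of_nonneg_left e6 (by linarith only [hδ])

theorem a2_last {lam s σ C x y : ℝ} (h1 : 1 < lam) (h2 : lam ≤ 11 / 10) (hs0 : 0 < s)
    (hs1 : 20 * s ≤ σ) (hs2 : s ≤ 1 / 200) (hC1 : 1 ≤ C) (hy0 : 0 ≤ y) (hx0 : 0 ≤ x)
    (hx : y - 4 * (y * s) ≤ x) (hy6 : 6 * C ≤ y * s) :
    2 * exp ((lam + s) * y) + 2 * (C * (2 * exp ((lam + s) * y))) ≤ exp ((lam + σ) * x) := by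
  have hys : 0 ≤ y * s := by positivity
  have h7 : exp ((lam + s) * y) * exp (y * s) ≤ exp ((lam + σ) * x) := by
    rw [← exp_add, exp_le_exp]
    have e0 := mul_le_mul_of_nonneg_left hx (show 0 ≤ lam + 20 * s by linarith only [h1, hs0, hs2])
    have e1 : (lam + 20 * s) * x ≤ (lam + σ) * x := mul_le_mul_of_nonneg_right (by linarith) hx0
    have e2 : lam * (y * s) ≤ 11 / 10 * (y * s) := mul_le_mul_of_nonneg_right h2 hys
    have e3 : s * (y * s) ≤ 1 / 200 * (y * s) := mul_le_mul_of_nonneg_right hs2 hys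
    linarith only [hs0, hs2, hC1, hy6, e0, e1, e2, e3]
  have h9 := add_one_le_exp (y * s)
  have h10 := exp_pos ((lam + s) * y)
  have h11 : exp ((lam + s) * y) * (6 * C) ≤ exp ((lam + s) * y) * exp (y * s) :=
    mul_le_mul_of_nonneg_left (by linarith only [hs0, hs2, hy6, h9]) h10.le
  have h12 : exp ((lam + s) * y) * 1 ≤ exp ((lam + s) * y) * C :=
    mul_le_mul_of_nonneg_left hC1 h10.le
  linarith only [h7, h11, h12]

theorem red_sharp {f : ℂ → ℂ} (hf : Differentiable ℂ f) {lam η η' σ : ℝ} (h1 : 1 < lam)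
    (h2 : lam ≤ 11 / 10) (ho : lowerOrder f = (lam : EReal)) (h0 : 0 < η') (hη : η' < η) (hη1 : η ≤ 1)
    (hm : ∀ᶠ r in atTop, modRatio f r ≤ ((-1 - η : ℝ) : EReal)) (hσ : 0 < σ) :
    ∃ (I : Set ℕ) (ξ ηa : ℕ → ℝ) (x0 : ℕ), (∀ X : ℝ, {a | a ∈ I ∧ ξ a ≤ X}.Finite) ∧
      (∀ x : ℝ, (x0 : ℝ) ≤ x → 1 ≤ Real.log (maxMod f (exp x))) ∧
      ∀ X : ℕ, ∃ (Z : Cfg) (x1 : ℕ), X ≤ x1 ∧ Rd f I ξ ηa η' x0 x1 Z ∧
        Z.B x1 + Z.W x1 ≤ exp ((lam + σ) * x1) := by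
  obtain ⟨s, hs0, hs1, hs2⟩ : ∃ s : ℝ, 0 < s ∧ 20 * s ≤ σ ∧ s ≤ 1 / 200 :=
    ⟨min (σ / 20) (1 / 200), lt_min (by linarith only [hσ]) (by norm_num),
      by have := min_le_left (σ / 20) (1 / 200 : ℝ); linarith, min_le_right _ _⟩
  obtain ⟨hev, hfr⟩ := order_bounds hf h1 ho hs0
  have hne : ∃ z, f z ≠ 0 := by
    by_contra hcon
    push Not at hcon
    obtain ⟨x, hx⟩ := hev.exists
    obtain ⟨θ, hθ⟩ := (exists_maxMod hf.continuous x).1
    rw [hθ, hcon] at hx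
    simp only [norm_zero, Real.log_zero] at hx
    exact absurd hx (not_le.2 (exp_pos _))
  obtain ⟨a, p, g, ha, hg, hg0, hfg⟩ := exists_factor_zero hf hne
  obtain ⟨C, hC1, hC⟩ := red_cfg2
  obtain ⟨I, z, hI⟩ := exists_enum hg hg0
  have hδ : 0 < η - η' := sub_pos.2 hη
  have ha0 : 0 < ‖a‖ := norm_pos_iff.2 ha
  set la := Real.log ‖a‖ with hla
  have hae : ‖a‖ = exp la := (Real.exp_log ha0).symm
  have hnf : ∀ x θ : ℝ, ‖f (Complex.exp (x + θ * Complex.I))‖ =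
      exp (la + p * x) * ‖g (Complex.exp (x + θ * Complex.I))‖ := by
    intro x θ
    rw [hfg, norm_mul, norm_mul, norm_pow, FinA_norm_exp, hae, exp_add, exp_nat_mul]
  have hz : ∀ (b : ℕ) (X : ℝ), (Complex.log (z b)).re ≤ X → ‖z b‖ ≤ exp X := fun b X h => by
    rw [Complex.log_re] at h
    exact (Real.le_exp_log _).trans (exp_le_exp.2 h)
  obtain ⟨x0, hx0⟩ := eventually_atTop.1 (hev.and ((tendsto_exp_atTop.eventually hm).and
    ((FinA_lin |la| p ((η - η') / 20) (by linarith only [hη])).and (eventually_ge_atTop (0 : ℝ)))))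
  refine ⟨I, fun b => (Complex.log (z b)).re, fun b => (Complex.log (z b)).im, ⌈x0⌉₊, fun X => ?_,
    fun x hx => ?_, fun X => ?_⟩
  · obtain ⟨S, -, hS, -⟩ := hI (exp X + 1)
    exact S.finite_toSet.subset fun b hb => (hS b).2 ⟨hb.1, (hz b X hb.2).trans_lt (lt_add_one _)⟩
  · obtain ⟨hM, -, -, hxp⟩ := hx0 x ((Nat.le_ceil _).trans hx)
    exact (one_le_exp (mul_nonneg (by linarith only [h1, hs0, hs2]) hxp)).trans hM
  obtain ⟨y, hy, hy1, hy3, hy4, hy5, hy6⟩ := (hfr.and_eventually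
    ((eventually_ge_atTop (2 * (X : ℝ))).and
      ((eventually_ge_atTop |la|).and ((eventually_ge_atTop (7 / s)).and
        ((eventually_ge_atTop (80 * C / (η - η') / s)).and
          (eventually_ge_atTop (6 * C / s))))))).exists
  have hy0 : 0 ≤ y := (abs_nonneg _).trans hy3
  rw [div_le_iff₀ hs0] at hy4 hy5 hy6
  rw [div_le_iff₀ hδ] at hy5
  have hys2 : y * s ≤ y * (1 / 200) := mul_le_mul_of_nonneg_left hs2 hy0
  have hgB : ∀ z : ℂ, ‖z‖ = exp y → ‖g z‖ ≤ exp (2 * exp ((lam + s) * y)) := by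
    intro z hz
    obtain ⟨θ, rfl⟩ := FinA_polar hz
    have h3 := ((exists_maxMod hf.continuous y).2.2 θ).2
    rw [hnf] at h3
    have h4 : maxMod f (exp y) ≤ exp (exp ((lam + s) * y)) :=
      (Real.le_exp_log _).trans (exp_le_exp.2 hy)
    have h5 : y ≤ exp ((lam + s) * y) := by
      have := add_one_le_exp ((lam + s) * y)
      linarith only [h2, hy4, this, h1, hs0, hs2, hy1, mul_nonneg_of_nonpos_of_nonpos (Mathlib.Tactic.Linarith.sub_nonpos_of_le (Mathlib.Tactic.Linarith.natCast_nonneg ℝ X)) (le_of_lt (Mathlib.Tactic.Linarith.sub_neg_of_lt h1)), mul_pos_of_neg_of_neg (Mathlib.Tactic.Linarith.sub_neg_of_lt h1) (Mathlib.Tactic.Linarith.sub_neg_of_lt hs0), mul_nonneg_of_nonpos_of_nonpos (le_of_lt (Mathlib.Tactic.Linarith.sub_neg_of_lt h1)) (Mathlib.Tactic.Linarith.sub_nonpos_of_le hs2), mul_nonneg_of_nonpos_of_nonpos (le_of_lt (Mathlib.Tactic.Linarith.sub_neg_of_lt h1)) (Mathlib.Tactic.Linarith.sub_nonpos_of_le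 hy1)]
    have h6 : 0 ≤ (p : ℝ) * y := by positivity
    have h7 := neg_abs_le la
    have h8 : exp (exp ((lam + s) * y)) ≤ exp (la + p * y) * exp (2 * exp ((lam + s) * y)) := by
      rw [← exp_add, exp_le_exp]
      linarith only [hy3, h5, h6, h7]
    exact le_of_mul_le_mul_left (h3.trans (h4.trans h8)) (exp_pos _)
  obtain ⟨S, h, hS, hh, hS0, hh0, hgh⟩ := hI (exp y / 3)
  obtain ⟨Z, hZs, hZξ, hZη, hZ1, hZ2⟩ := hC g h (exp y) _ S z hg0 (exp_pos y) (by positivity) hgB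
    hh (fun b hb => ⟨hS0 b hb, ((hS b).1 hb).2⟩) hh0 hgh
  have k1 : ((⌊y - 3 * (y * s)⌋₊ : ℕ) : ℝ) ≤ y - 3 * (y * s) := Nat.floor_le (by linarith only [hs0, hs2, hy4, hys2])
  have k2 := Nat.lt_floor_add_one (y - 3 * (y * s))
  have k3 : X ≤ ⌊y - 3 * (y * s)⌋₊ := Nat.le_floor (by linarith only [hs0, hs2, hy1, hy4, hys2])
  generalize ⌊y - 3 * (y * s)⌋₊ = x1 at k1 k2 k3
  have h8 : ∀ x : ℝ, x ≤ x1 → exp x ≤ exp y / 8 := by
    intro x hx
    rw [le_div_iff₀ (by norm_num)]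
    have h3 : exp y = exp x * exp (y - x) := by rw [← exp_add]; ring_nf
    have h4 := add_one_le_exp (y - x)
    rw [h3]
    exact mul_le_mul_of_nonneg_left (by linarith only [hs0, hs2, hy4, k1, hx, h4]) (exp_pos x).le
  have hkey : ∀ x ∈ Icc ((⌈x0⌉₊ : ℕ) : ℝ) x1, Z.Min η' x ∧
      Real.log (maxMod f (exp x)) / 2 ≤ Z.B x ∧ Z.B x ≤ 2 * Real.log (maxMod f (exp x)) := by
    intro x hx
    obtain ⟨hM, hmx, hlin, hxp⟩ := hx0 x ((Nat.le_ceil _).trans hx.1)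
    refine point2 hf.continuous Z h0 hη hη1 ((exp_pos _).trans_le hM) hmx (fun θ => ?_)
    obtain ⟨E, hE1, hE2⟩ := hZ1 x θ (h8 x hx.2)
    refine ⟨la + p * x + E, ?_, ?_⟩
    · have h3 : exp (x / 2) ≤ exp ((lam - s) * x) := exp_le_exp.2 (by (refine le_of_not_gt fun h_nl => ?_; linarith only [h_nl, hxp, h1, h2, hs2, mul_nonneg_of_nonpos_of_nonpos (le_of_lt (Mathlib.Tactic.Linarith.sub_neg_of_lt h1)) (Mathlib.Tactic.Linarith.sub_nonpos_of_le hxp), mul_pos_of_neg_of_neg (Mathlib.Tactic.Linarith.sub_neg_of_lt h1) (Mathlib.Tactic.Linarith.sub_neg_of_lt h_nl), mul_nonneg_of_nonpos_of_nonpos (Mathlib.Tactic.Linarith.sub_nonpos_of_le h2) (le_of_lt (Mathlib.Tactic.Linarith.sub_neg_of_lt h_nl)), mul_nonneg_of_nonpos_of_nonpos (Mathlib.Tactic.Linarith.sub_nonpos_of_le hs2) (Mathlib.Tactic.Linarith.sub_nonpos_of_le hxp)]))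
      have h4 := a2_err h2 hs0 hδ hy0 (hx.2.trans k1) hy5
      have h6 : 0 ≤ (p : ℝ) * x := by positivity
      have h7 := abs_add_le (la + p * x) E
      have h9 := abs_add_le la (p * x)
      rw [abs_of_nonneg h6] at h9
      have h10 := mul_le_mul_of_nonneg_left h3 (show 0 ≤ (η - η') / 20 by linarith only [hη])
      have h11 := mul_le_mul_of_nonneg_left hM (show 0 ≤ (η - η') / 10 by linarith only [hη])
      linarith only [hlin, hE1, h4, h7, h9, h10, h11]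
    · rw [hnf, hE2, exp_add (la + p * x) E]
      ring
  refine ⟨Z, x1, k3, ⟨hZξ, hZη, fun b hb => ((hS b).1 (hZs ▸ hb)).1, fun b hb h3 => ?_,
    fun x hx => (hkey x hx).1, fun x hx => (hkey x hx).2.1, fun x hx => (hkey x hx).2.2⟩, ?_⟩
  · rw [hZs]
    have := (hz b _ h3).trans (h8 x1 le_rfl)
    exact (hS b).2 ⟨hb, by linarith only [this, exp_pos y]⟩
  have hx1le : (x1 : ℝ) ≤ y := by linarith only [hs0, hs2, hy4, k1]
  have hW := hZ2 x1 (exp_le_exp.2 hx1le)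
  obtain ⟨θ, hθ⟩ := Z.exists_norm_F_eq x1
  obtain ⟨E, hE1, hE2⟩ := hZ1 x1 θ (h8 x1 le_rfl)
  have h3 := FinA_maxp hg (exp_pos y) hgB (w := Complex.exp ((x1 : ℝ) + θ * Complex.I))
    (by rw [FinA_norm_exp]; exact exp_le_exp.2 hx1le)
  rw [hE2, hθ, ← exp_add, exp_le_exp] at h3
  have h4 : (exp x1 / exp y) ^ 2 ≤ 1 :=
    pow_le_one₀ (by positivity) ((div_le_one (exp_pos y)).2 (exp_le_exp.2 hx1le))
  have h5 := mul_le_mul_of_nonneg_left h4
    (show 0 ≤ C * (2 * exp ((lam + s) * y)) by positivity)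
  have h6 := (abs_le.1 hE1).1
  have h7 := a2_last h1 h2 hs0 hs1 hs2 hC1 hy0 (Nat.cast_nonneg x1) (by linarith only [hs0, hs2, hy4, k2]) hy6
  linarith only [hW, h3, h5, h6, h7]

end

end Pool.Agent.MinMod.Mo
end

-- merged part: Pool.Agent.Work.MP_f62247_an.Mo.A5
section
/-!
# The function is calm for ever: the limit configuration
`exists_lim`: choose `Z j` for `X = x0 + j` (`Rd.mono`); `‖cc x0‖ exp x0 = A x0 ≤ 2 B x0 ≤ 4 log M` is bounded; `tendsto_subseq_of_bounded`, and `j ≤ φ j` (`StrictMono.id_le`).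
`valid`: a finite set of indices `a ∈ I` with `x0 ≤ ξ a` lies in `(Z j).s` for large `j`, and the sum of `exp (-2 ξ a)` over it is `≤ exp (-2 x0) W x0 ≤ exp (-2 x0) A x0` (`summable_of_sum_le`).
`tendsto_cc`: for `x0 ≤ x ≤ x0 + j`, `(Z j).cc x = (Z j).cc x0 + ∑_{a ∈ I, x0 ≤ ξ a < x} exp (-ζ a)` (`cc_sub`). `W_le`: every finite partial sum is `≤ (Z j).W x ≤ μ (Z j).A x` for large `j`, pass to the limit.
-/

open Real MeasureTheory Set Filter Topology

namespace Pool.Agent.MinMod.Mo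

noncomputable section

open Classical in
def limCfg (I : Set ℕ) (ξ ηa : ℕ → ℝ) (x0 : ℕ) (c : ℂ) : ICfg ℕ :=
  ⟨c, fun a => if a ∈ I ∧ (x0 : ℝ) ≤ ξ a then 1 else 0, ξ, ηa⟩

structure Lim (f : ℂ → ℂ) (I : Set ℕ) (ξ ηa : ℕ → ℝ) (η' μ : ℝ) (x0 : ℕ) (Z : ℕ → Cfg) (c : ℂ) :
    Prop where
  fin : ∀ X : ℝ, {a | a ∈ I ∧ ξ a ≤ X}.Finite
  one : ∀ x : ℝ, (x0 : ℝ) ≤ x → 1 ≤ Real.log (maxMod f (exp x))
  mu1 : μ ≤ 1
  rd : ∀ j, Rd f I ξ ηa η' x0 (x0 + j) (Z j)
  calm : ∀ j : ℕ, ∀ x ∈ Icc (x0 : ℝ) (x0 + j), (Z j).W x ≤ μ * (Z j).A x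
  AB : ∀ j : ℕ, ∀ x ∈ Icc (x0 : ℝ) (x0 + j), (Z j).A x ≤ 2 * (Z j).B x ∧ (Z j).B x ≤ 2 * (Z j).A x
  lim : Tendsto (fun j => (Z j).cc x0) atTop (𝓝 c)

theorem exists_lim {μ : ℝ} (hμ : 0 < μ) (hμ1 : μ ≤ 1) : ∃ μ0 : ℝ, 0 < μ0 ∧ ∀ (f : ℂ → ℂ) (I : Set ℕ)
    (ξ ηa : ℕ → ℝ) (η' : ℝ) (x0 : ℕ), (∀ X : ℝ, {a | a ∈ I ∧ ξ a ≤ X}.Finite) →
    (∀ x : ℝ, (x0 : ℝ) ≤ x → 1 ≤ Real.log (maxMod f (exp x))) →
    (∀ X : ℕ, x0 ≤ X → ∃ Z : Cfg, Rd f I ξ ηa η' x0 X Z ∧
      ∀ k : ℕ, x0 ≤ k → k ≤ X → Z.L k ≤ μ0 * ‖Z.cc k‖) →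
    ∃ (Z : ℕ → Cfg) (c : ℂ), Lim f I ξ ηa η' μ x0 Z c := by
  obtain ⟨C, C1, hC⟩ := calm_real
  obtain ⟨μ1, hμ1', hB⟩ := B_close (ν := 1 / 2) (by norm_num)
  obtain ⟨C', C1', hC'⟩ := B_L
  have C0 : 0 < C := by linarith
  have m0 : 0 < min μ μ1 := lt_min hμ hμ1'
  have eC : C * (min μ μ1 / C) = min μ μ1 := mul_div_cancel₀ _ C0.ne'
  refine ⟨min μ μ1 / C, by positivity, fun f I ξ ηa η' x0 hfin hone hZ => ?_⟩
  choose Z hZ1 hZ2 using fun j : ℕ => hZ (x0 + j) (Nat.le_add_right _ _)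
  have hA0 : ∀ (j : ℕ) (x : ℝ), 0 ≤ (Z j).A x := fun j x =>
    mul_nonneg (norm_nonneg _) (exp_pos x).le
  have hW : ∀ j : ℕ, ∀ x ∈ Icc (x0 : ℝ) (x0 + j), (Z j).W x ≤ min μ μ1 * (Z j).A x := by
    intro j x hx
    rw [← eC]
    refine (hC (Z j) (min μ μ1 / C) x0 j (by positivity)
      (by rw [eC]; exact (min_le_left _ _).trans hμ1) (fun k hk => ?_) x hx).2
    have h1 := hZ2 j (x0 + k) (Nat.le_add_right _ _) (by omega)
    push_cast at h1
    refine ⟨?_, h1⟩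
    have hk' : (k : ℝ) ≤ j := by exact_mod_cast hk
    have hk0 : (0 : ℝ) ≤ k := Nat.cast_nonneg k
    have h2 := (hZ1 j).lo (x0 + k) ⟨by linarith only [], by push_cast; linarith⟩
    have h3 := hone (x0 + k) (by linarith only [])
    have h4 := (hC' (Z j) (x0 + k)).1
    refine (norm_nonneg _).lt_of_ne fun e => ?_
    rw [← e, mul_zero] at h1
    rw [← e, zero_add] at h4
    have h5 : C' * exp (x0 + k) * (Z j).L (x0 + k) ≤ 0 :=
      mul_nonpos_of_nonneg_of_nonpos (by positivity) h1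
    linarith only [h2, h3, h4, h5]
  have hAB : ∀ j : ℕ, ∀ x ∈ Icc (x0 : ℝ) (x0 + j),
      (Z j).A x ≤ 2 * (Z j).B x ∧ (Z j).B x ≤ 2 * (Z j).A x := by
    intro j x hx
    obtain ⟨h1, h2⟩ := hB (Z j) x
      ((hW j x hx).trans (mul_le_mul_of_nonneg_right (min_le_right _ _) (hA0 j x)))
    have := hA0 j x
    constructor <;> linarith only [h1, h2]
  have hbd : ∀ j : ℕ, (Z j).cc x0 ∈
      Metric.closedBall (0 : ℂ) (4 * Real.log (maxMod f (exp x0)) / exp x0) := by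
    intro j
    have hj : (0 : ℝ) ≤ j := Nat.cast_nonneg j
    have h1 := (hAB j x0 ⟨le_rfl, by linarith⟩).1
    have h2 := (hZ1 j).hi x0 ⟨le_rfl, by push_cast; linarith⟩
    rw [mem_closedBall_zero_iff, le_div_iff₀ (exp_pos _)]
    unfold Cfg.A at h1
    linarith
  obtain ⟨c, -, φ, hφ, hc⟩ := tendsto_subseq_of_bounded Metric.isBounded_closedBall hbd
  have hsub : ∀ j : ℕ, Icc (x0 : ℝ) (x0 + j) ⊆ Icc (x0 : ℝ) (x0 + φ j) := by
    intro j
    have : (j : ℝ) ≤ φ j := by exact_mod_cast hφ.id_le j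
    exact Icc_subset_Icc_right (by linarith only [this])
  refine ⟨fun j => Z (φ j), c, hfin, hone, hμ1,
    fun j => (hZ1 (φ j)).mono (Nat.add_le_add_left (hφ.id_le j) _), fun j x hx => ?_,
    fun j x hx => hAB _ x (hsub j hx), hc⟩
  exact (hW _ x (hsub j hx)).trans (mul_le_mul_of_nonneg_right (min_le_left _ _) (hA0 _ x))

variable {f : ℂ → ℂ} {I : Set ℕ} {ξ ηa : ℕ → ℝ} {η' μ : ℝ} {x0 : ℕ} {Z : ℕ → Cfg} {c : ℂ}

theorem a5_nonneg (a : ℕ) : 0 ≤ (limCfg I ξ ηa x0 c).m a := by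
  unfold limCfg
  dsimp only
  split_ifs <;> norm_num

theorem a5_ne {a : ℕ} (ha : (limCfg I ξ ηa x0 c).m a ≠ 0) : a ∈ I ∧ (x0 : ℝ) ≤ ξ a := by
  by_contra e
  exact ha (if_neg e)

theorem a5_ev (x0 : ℕ) (x : ℝ) : ∀ᶠ j : ℕ in atTop, x ≤ x0 + j := by
  filter_upwards [tendsto_natCast_atTop_atTop.eventually_ge_atTop (x - x0)] with j hj
  linarith

theorem a5_sum_le (h : Lim f I ξ ηa η' μ x0 Z c) (u : Finset ℕ) (x : ℝ) :
    ∀ᶠ j : ℕ in atTop, ∑ a ∈ u, (limCfg I ξ ηa x0 c).m a * w0 (x - (limCfg I ξ ηa x0 c).ξ a) ≤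
      (Z j).W x := by
  classical
  have h1 : ∀ᶠ j : ℕ in atTop, ∀ a ∈ u, ξ a ≤ x0 + j :=
    (Filter.eventually_all_finset u).2 fun a _ => a5_ev x0 (ξ a)
  filter_upwards [h1] with j hj
  have hr := h.rd j
  have h2 : ∑ a ∈ u, (limCfg I ξ ηa x0 c).m a * w0 (x - (limCfg I ξ ηa x0 c).ξ a) =
      ∑ a ∈ u.filter (fun a => a ∈ I ∧ (x0 : ℝ) ≤ ξ a), w0 (x - ξ a) := by
    rw [Finset.sum_filter]
    refine Finset.sum_congr rfl fun a _ => ?_
    split_ifs with e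
    · have e1 : (limCfg I ξ ηa x0 c).m a = 1 := if_pos e
      rw [e1, one_mul]
      rfl
    · have e1 : (limCfg I ξ ηa x0 c).m a = 0 := if_neg e
      rw [e1, zero_mul]
  rw [h2, Cfg.W, hr.hξ]
  refine Finset.sum_le_sum_of_subset_of_nonneg (fun a ha => ?_) fun a _ _ => (w0_pos _).le
  rw [Finset.mem_filter] at ha
  exact hr.sup a ha.2.1 (by push_cast; exact hj a ha.1)

theorem Lim.valid (h : Lim f I ξ ηa η' μ x0 Z c) : (limCfg I ξ ηa x0 c).Valid x0 := by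
  refine ⟨a5_nonneg, fun a ha => (a5_ne ha).2,
    fun X => (h.fin X).subset fun a ha => ⟨(a5_ne ha.1).1, ha.2⟩, ?_⟩
  refine summable_of_sum_le (c := exp (-2 * x0) * (4 * Real.log (maxMod f (exp x0))))
    (fun a => mul_nonneg (a5_nonneg a) (exp_pos _).le) fun u => ?_
  obtain ⟨j, hj⟩ := (a5_sum_le h u x0).exists
  have hj0 : (0 : ℝ) ≤ j := Nat.cast_nonneg j
  have h1 := h.calm j x0 ⟨le_rfl, by linarith⟩
  have h2 := (h.AB j x0 ⟨le_rfl, by linarith⟩).1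
  have h3 := (h.rd j).hi x0 ⟨le_rfl, by push_cast; linarith⟩
  have h4 : 0 ≤ (Z j).A x0 := mul_nonneg (norm_nonneg _) (exp_pos _).le
  have h5 := mul_le_mul_of_nonneg_right h.mu1 h4
  refine le_trans (le_of_eq ?_) (mul_le_mul_of_nonneg_left
    (hj.trans (by linarith)) (exp_pos (-2 * x0)).le)
  rw [Finset.mul_sum]
  refine Finset.sum_congr rfl fun a _ => ?_
  rcases eq_or_ne ((limCfg I ξ ηa x0 c).m a) 0 with e | e
  · simp [e]
  · have h6 : (x0 : ℝ) ≤ (limCfg I ξ ηa x0 c).ξ a := (a5_ne e).2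
    rw [w0_of_nonpos (by linarith), mul_left_comm, ← exp_add]
    congr 2
    ring

theorem Lim.tendsto_cc (h : Lim f I ξ ηa η' μ x0 Z c) {x : ℝ} (hx : (x0 : ℝ) ≤ x) :
    Tendsto (fun j => (Z j).cc x) atTop (𝓝 ((limCfg I ξ ηa x0 c).cc x)) := by
  classical
  unfold ICfg.cc
  refine (h.lim.add_const _).congr' ?_
  filter_upwards [a5_ev x0 x] with j hj
  have e := (Z j).cc_sub hx
  rw [sub_eq_iff_eq_add'] at e
  rw [e]
  congr 1
  have hr := h.rd j
  rw [tsum_eq_sum (s := (Z j).s.filter fun a => (x0 : ℝ) ≤ (Z j).ξ a ∧ (Z j).ξ a < x)]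
  · refine Finset.sum_congr rfl fun a ha => ?_
    rw [Finset.mem_filter, hr.hξ] at ha
    have e1 : (limCfg I ξ ηa x0 c).m a = 1 := if_pos ⟨hr.sub a ha.1, ha.2.1⟩
    have e2 : (limCfg I ξ ηa x0 c).ζ a = (Z j).ζ a := by
      unfold ICfg.ζ Cfg.ζ
      rw [hr.hξ, hr.hη]
      rfl
    rw [if_pos (show (limCfg I ξ ηa x0 c).ξ a < x from ha.2.2), e1, e2]
    simp
  · intro a ha
    split_ifs with h1
    · have h2 : ξ a < x := h1
      have e1 : (limCfg I ξ ηa x0 c).m a = 0 := by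
        by_contra e1
        obtain ⟨h3, h4⟩ := a5_ne e1
        apply ha
        rw [Finset.mem_filter, hr.hξ]
        exact ⟨hr.sup a h3 (by push_cast; linarith), h4, h2⟩
      rw [e1]
      simp
    · rfl

theorem a5_tendsto_A (h : Lim f I ξ ηa η' μ x0 Z c) {x : ℝ} (hx : (x0 : ℝ) ≤ x) :
    Tendsto (fun j => (Z j).A x) atTop (𝓝 ((limCfg I ξ ηa x0 c).A x)) :=
  (h.tendsto_cc hx).norm.mul_const _

theorem Lim.A_mem (h : Lim f I ξ ηa η' μ x0 Z c) {x : ℝ} (hx : (x0 : ℝ) ≤ x) :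
    Real.log (maxMod f (exp x)) / 4 ≤ (limCfg I ξ ηa x0 c).A x ∧
      (limCfg I ξ ηa x0 c).A x ≤ 4 * Real.log (maxMod f (exp x)) := by
  have ht := a5_tendsto_A h hx
  constructor
  · refine ge_of_tendsto ht ?_
    filter_upwards [a5_ev x0 x] with j hj
    have h1 := (h.AB j x ⟨hx, hj⟩).2
    have h2 := (h.rd j).lo x ⟨hx, by push_cast; exact hj⟩
    linarith only [h1, h2]
  · refine le_of_tendsto ht ?_
    filter_upwards [a5_ev x0 x] with j hj
    have h1 := (h.AB j x ⟨hx, hj⟩).1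
    have h2 := (h.rd j).hi x ⟨hx, by push_cast; exact hj⟩
    linarith

theorem Lim.W_le (h : Lim f I ξ ηa η' μ x0 Z c) {x : ℝ} (hx : (x0 : ℝ) ≤ x) :
    (limCfg I ξ ηa x0 c).W x ≤ μ * (limCfg I ξ ηa x0 c).A x := by
  refine (h.valid.summable_w0 x).tsum_le_of_sum_le fun u => ?_
  refine ge_of_tendsto ((a5_tendsto_A h hx).const_mul μ) ?_
  filter_upwards [a5_ev x0 x, a5_sum_le h u x] with j hj h1
  exact h1.trans (h.calm j x ⟨hx, hj⟩)

theorem Lim.isCalm (h : Lim f I ξ ηa η' μ x0 Z c) : (limCfg I ξ ηa x0 c).Calm μ := by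
  refine h.valid.calm_of_right fun x hx => ⟨?_, h.W_le hx⟩
  have h1 := (h.A_mem hx).1
  have h2 := h.one x hx
  refine (norm_nonneg _).lt_of_ne fun e => ?_
  rw [ICfg.A, ← e, zero_mul] at h1
  linarith only [h1, h2]

end

end Pool.Agent.MinMod.Mo
end

-- merged part: Pool.Agent.Work.MP_f62247_an.Mo.A6
section
/-!
# The function is calm for ever: the cover
`close`: for `x ≥ x0 + 1` and `j` large, by `Cfg.U_split` at `y = x0`: `(Z j).U x θ - Y.U x θ = Re (((Z j).cc x0 - c) exp z) + ∑_{a ∈ I, ξ a < x0} lg (x - ξ a) (θ - η a) - ∑'_{a ∈ I \ s j, x0 ≤ ξ a} nk`; the indices in the last sum have `ξ a > x0 + j`, the sum is at most `2 exp (2x)` times a tail of the summable family `m a exp (-2 ξ a)` (`abs_nk_le_far`, `tendsto_tsum_compl_atTop_zero`);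
the middle sum is at most `∑ (x - ξ a + 2) ≤ D (1 + x)` (`abs_lg_sub_le`, `l0_le`).
`cov`: a regular point of `Y` with `x ≥ x0 + 1` is regular for `Z j`; take the minimum point `y` of `Z j` (`Min.exists_U`, `U_le_B`): `U y + k U y' ≤ 3 D (1 + x) ≤ ε A x` for large `x` because `A x ≥ log M / 4 ≥ exp (x/2) / 4`.
-/

open Real MeasureTheory Set Filter Topology

namespace Pool.Agent.MinMod.Mo

noncomputable section

variable {f : ℂ → ℂ} {I : Set ℕ} {ξ ηa : ℕ → ℝ} {η' μ : ℝ} {x0 : ℕ} {Z : ℕ → Cfg} {c : ℂ}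

theorem a6_tail (h : Lim f I ξ ηa η' μ x0 Z c) :
    Tendsto (fun j => ∑' a, if a ∈ (Z j).s then 0 else
      (limCfg I ξ ηa x0 c).m a * exp (-2 * ξ a)) atTop (𝓝 0) := by
  have hv := h.valid
  have := tendsto_tsum_of_dominated_convergence (𝓕 := atTop) (g := fun _ => (0 : ℝ))
    (f := fun j a => if a ∈ (Z j).s then 0 else (limCfg I ξ ηa x0 c).m a * exp (-2 * ξ a))
    hv.sum (fun a => ?_) (Eventually.of_forall fun j a => ?_)
  · simpa only [tsum_zero] using this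
  · refine tendsto_const_nhds.congr' ?_
    by_cases ha : a ∈ I
    · filter_upwards [eventually_ge_atTop ⌈ξ a⌉₊] with j hj
      rw [if_pos ((h.rd j).sup a ha ((Nat.ceil_le.1 hj).trans (by simp)))]
    · refine Eventually.of_forall fun j => ?_
      simp [limCfg, ha]
  · have := mul_nonneg (hv.nonneg a) (exp_pos (-2 * ξ a)).le
    split_ifs
    · rwa [norm_zero]
    · exact (Real.norm_of_nonneg this).le

theorem a6_far (h : Lim f I ξ ηa η' μ x0 Z c) {x : ℝ} {j : ℕ} (hj : x + 1 ≤ j) (θ : ℝ) :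
    |∑' a, (limCfg I ξ ηa x0 c).m a * nk (x - ξ a) (θ - ηa a) -
      ∑ a ∈ (Z j).s.filter (fun a => (x0 : ℝ) ≤ ξ a), nk (x - ξ a) (θ - ηa a)| ≤
      2 * exp (2 * x) * ∑' a, if a ∈ (Z j).s then 0 else
        (limCfg I ξ ηa x0 c).m a * exp (-2 * ξ a) := by
  have hv := h.valid
  have h1 := (hv.summable_nk x θ).hasSum
  have h2 : HasSum (fun a => if a ∈ (Z j).s then
      (limCfg I ξ ηa x0 c).m a * nk (x - ξ a) (θ - ηa a) else 0)
      (∑ a ∈ (Z j).s.filter (fun a => (x0 : ℝ) ≤ ξ a), nk (x - ξ a) (θ - ηa a)) := by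
    have e : ∑ a ∈ (Z j).s.filter (fun a => (x0 : ℝ) ≤ ξ a), nk (x - ξ a) (θ - ηa a) =
        ∑ a ∈ (Z j).s, if a ∈ (Z j).s then
          (limCfg I ξ ηa x0 c).m a * nk (x - ξ a) (θ - ηa a) else 0 := by
      rw [Finset.sum_filter]
      refine Finset.sum_congr rfl fun a ha => ?_
      simp [limCfg, ha, (h.rd j).sub a ha]
    rw [e]
    exact hasSum_sum_of_ne_finset_zero fun a ha => if_neg ha
  have h3 : Summable fun a => if a ∈ (Z j).s then 0 else
      (limCfg I ξ ηa x0 c).m a * exp (-2 * ξ a) := by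
    refine hv.sum.of_nonneg_of_le (fun a => ?_) fun a => ?_
    all_goals
      have := mul_nonneg (hv.nonneg a) (exp_pos (-2 * ξ a)).le
      split_ifs
    exacts [le_rfl, this, this, le_rfl]
  refine (h1.sub h2).norm_le_of_bounded (h3.hasSum.mul_left _) fun a => ?_
  split_ifs with ha
  · simp [limCfg]
  · rw [sub_zero, norm_mul, Real.norm_of_nonneg (hv.nonneg a), mul_left_comm]
    by_cases hI : a ∈ I
    · refine mul_le_mul_of_nonneg_left ?_ (hv.nonneg a)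
      have h4 : ((x0 + j : ℕ) : ℝ) < ξ a := lt_of_not_ge fun h' => ha ((h.rd j).sup a hI h')
      have h5 : (0 : ℝ) ≤ x0 := Nat.cast_nonneg _
      rw [mul_assoc, ICfg.x1_exp]
      push_cast at h4
      exact abs_nk_le_far (s := x - ξ a) (by linarith) _
    · simp [limCfg, hI]

theorem Lim.close (h : Lim f I ξ ηa η' μ x0 Z c) : ∃ D : ℝ, 0 ≤ D ∧ ∀ x : ℝ, (x0 : ℝ) + 1 ≤ x →
    ∀ᶠ j in atTop, ∀ θ : ℝ, |(Z j).U x θ - (limCfg I ξ ηa x0 c).U x θ| ≤ D * (1 + x) := by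
  refine ⟨2 + ∑ a ∈ (h.fin x0).toFinset, (|ξ a| + 2), by positivity, fun x hx => ?_⟩
  have h0 : (0 : ℝ) ≤ x0 := Nat.cast_nonneg _
  have e1 : ∀ᶠ j in atTop, ‖(Z j).cc x0 - c‖ * exp x ≤ 1 := by
    have := (tendsto_iff_norm_sub_tendsto_zero.1 h.lim).mul_const (exp x)
    rw [zero_mul] at this
    exact this.eventually_le_const one_pos
  have e2 := (a6_tail h).const_mul (2 * exp (2 * x))
  rw [mul_zero] at e2
  filter_upwards [e1, e2.eventually_le_const one_pos, eventually_ge_atTop ⌈x + 1⌉₊]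
    with j j1 j2 j3 θ
  have a1 := (a6_far h (Nat.ceil_le.1 j3) θ).trans j2
  have a2 : |(((Z j).cc x0 - c) * Complex.exp (x + θ * Complex.I)).re| ≤ 1 := by
    refine (Complex.abs_re_le_norm _).trans ?_
    rw [norm_mul, Complex.norm_exp]
    simpa using j1
  have a3 : |∑ a ∈ (Z j).s.filter (fun a => ξ a < x0), lg (x - ξ a) (θ - ηa a)| ≤
      (∑ a ∈ (h.fin x0).toFinset, (|ξ a| + 2)) * (1 + x) := by
    rw [Finset.sum_mul]
    refine (Finset.abs_sum_le_sum_abs _ _).trans ((Finset.sum_le_sum fun a ha => ?_).trans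
      (Finset.sum_le_sum_of_subset_of_nonneg (fun a ha => ?_) fun a _ _ => ?_))
    · have b0 := (Finset.mem_filter.1 ha).2
      have b1 : 1 ≤ x - ξ a := by linarith only [hx, b0]
      have b2 := abs_le.1 (abs_lg_sub_le (s := x - ξ a) (by linarith) (θ - ηa a))
      have b3 := l0_le (s := x - ξ a) (b1.trans (le_abs_self _))
      have b4 : exp (-|x - ξ a|) ≤ 1 := exp_le_one_iff.2 (neg_nonpos.2 (abs_nonneg _))
      have b5 := neg_abs_le (ξ a)
      have b6 := mul_nonneg (abs_nonneg (ξ a)) (show 0 ≤ x by linarith)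
      rw [max_eq_left (by linarith)] at b2
      rw [abs_le]
      constructor <;> linarith only [hx, b0, b2, b3, b4, b5, b6, abs_nonneg (ξ a)]
    · rw [Finset.mem_filter] at ha
      exact (h.fin x0).mem_toFinset.2 ⟨(h.rd j).sub a ha.1, ha.2.le⟩
    · exact mul_nonneg (by positivity) (by linarith)
  rw [(Z j).U_split x0, (h.rd j).hξ, (h.rd j).hη]
  rw [sub_mul, Complex.sub_re] at a2
  change |_ - ((c * Complex.exp (x + θ * Complex.I)).re +
    ∑' a, (limCfg I ξ ηa x0 c).m a * nk (x - ξ a) (θ - ηa a))| ≤ _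
  rw [abs_le] at a1 a2 a3 ⊢
  constructor <;> linarith only [h, hx, a1, a2, a3, a1.1, a1.2, a2.1, a2.2, a3.1, a3.2]

theorem Lim.cov (h : Lim f I ξ ηa η' μ x0 Z c) (h0 : 0 ≤ η') (h1 : η' ≤ 1) {lam ε : ℝ} (hl : 1 ≤ lam)
    (ht : LoType (fun x => Real.log (maxMod f (exp x))) lam) (hε : 0 < ε) (μ' a : ℝ) :
    ∃ x1 : ℝ, (limCfg I ξ ηa x0 c).Cov (1 + η') ε μ' a x1 := by
  obtain ⟨D, hD, hc⟩ := h.close
  obtain ⟨x2, hx2⟩ := eventually_atTop.1 (ht (1 / 2) (by norm_num)).1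
  refine ⟨max (max x2 ((x0 : ℝ) + 1)) (192 * D / ε), fun x hx hr => ?_⟩
  rw [max_le_iff, max_le_iff] at hx
  obtain ⟨⟨h2, h3⟩, h4⟩ := hx
  have h5 : (0 : ℝ) ≤ x0 := Nat.cast_nonneg _
  obtain ⟨j, j1, j2⟩ := ((hc x h3).and (eventually_ge_atTop ⌈x⌉₊)).exists
  have j3 := Nat.ceil_le.1 j2
  have hreg : (Z j).Reg x := fun a ha => by
    rw [(h.rd j).hξ]
    rcases le_or_gt (x0 : ℝ) (ξ a) with h6 | h6
    · exact hr a (by simp [limCfg, h6, (h.rd j).sub a ha])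
    · linarith only [h3, h6]
  obtain ⟨y, hy⟩ := ((h.rd j).min x ⟨by linarith, by push_cast; linarith⟩).exists_U hreg
  refine ⟨y, Or.inl fun y' => ?_⟩
  have a1 := (abs_le.1 (j1 y)).1
  have a2 := (abs_le.1 (j1 y')).1
  have a3 := (Z j).U_le_B hreg y'
  have a4 := (h.A_mem (x := x) (by linarith)).1
  have a5 := hx2 x h2
  have a6 : (1 + x) * (1 + x) / 16 ≤ exp ((lam - 1 / 2) * x) := by
    have b1 : exp (x / 4) * exp (x / 4) ≤ exp ((lam - 1 / 2) * x) := by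
      rw [← exp_add, exp_le_exp]
      linarith only [hl, h3, mul_nonneg_of_nonpos_of_nonpos (Mathlib.Tactic.Linarith.sub_nonpos_of_le (Mathlib.Tactic.Linarith.natCast_nonneg ℝ x0)) (Mathlib.Tactic.Linarith.sub_nonpos_of_le hl), mul_nonneg_of_nonpos_of_nonpos (Mathlib.Tactic.Linarith.sub_nonpos_of_le hl) (Mathlib.Tactic.Linarith.sub_nonpos_of_le h3)]
    have b2 := add_one_le_exp (x / 4)
    linarith only [h3, b1, b2, mul_nonneg_of_nonpos_of_nonpos (Mathlib.Tactic.Linarith.sub_nonpos_of_le (Mathlib.Tactic.Linarith.natCast_nonneg ℝ x0)) (Mathlib.Tactic.Linarith.sub_nonpos_of_le b2), mul_nonneg_of_nonpos_of_nonpos (Mathlib.Tactic.Linarith.sub_nonpos_of_le h3) (Mathlib.Tactic.Linarith.sub_nonpos_of_le b2), mul_nonneg_of_nonpos_of_nonpos (Mathlib.Tactic.Linarith.sub_nonpos_of_le b2) (Mathlib.Tactic.Linarith.sub_nonpos_of_le b2)]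
  have a7 : 3 * (D * (1 + x)) ≤ ε * (limCfg I ξ ηa x0 c).A x := by
    rw [div_le_iff₀ hε] at h4
    have b1 : (1 + x) * (1 + x) / 64 ≤ (limCfg I ξ ηa x0 c).A x := by linarith only [a4, a5, a6]
    have b2 := mul_le_mul_of_nonneg_left b1 hε.le
    (refine le_of_not_gt fun h_nl => ?_; linarith only [h_nl, hε, hD, h4, b2, mul_pos_of_neg_of_neg (Mathlib.Tactic.Linarith.sub_neg_of_lt hε) (Mathlib.Tactic.Linarith.sub_neg_of_lt hε), mul_nonneg_of_nonpos_of_nonpos (le_of_lt (Mathlib.Tactic.Linarith.sub_neg_of_lt hε)) (Mathlib.Tactic.Linarith.sub_nonpos_of_le hD), mul_nonneg_of_nonpos_of_nonpos (le_of_lt (Mathlib.Tactic.Linarith.sub_neg_of_lt hε)) (Mathlib.Tactic.Linarith.sub_nonpos_of_le h4), mul_nonneg_of_nonpos_of_nonpos (le_of_lt (Mathlib.Tactic.Linarith.sub_neg_of_lt hε)) (Mathlib.Tactic.Linarith.sub_nonpos_of_le b2), mul_pos_of_neg_of_neg (Mathlib.Tactic.Linarith.sub_neg_of_lt hε) (Mathlib.Tactic.Linarith.sub_neg_of_lt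 h_nl), mul_nonneg_of_nonpos_of_nonpos (Mathlib.Tactic.Linarith.sub_nonpos_of_le hD) (Mathlib.Tactic.Linarith.sub_nonpos_of_le h4), mul_nonneg_of_nonpos_of_nonpos (Mathlib.Tactic.Linarith.sub_nonpos_of_le h4) (Mathlib.Tactic.Linarith.sub_nonpos_of_le h4)])
  have a8 : 0 ≤ D * (1 + x) := mul_nonneg hD (by linarith only [h3])
  have a9 := mul_le_mul_of_nonneg_left
    (show (limCfg I ξ ηa x0 c).U x y' ≤ (Z j).B x + D * (1 + x) by linarith only [a2, a3])
    (show 0 ≤ 1 + η' by linarith only [h0])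
  linarith only [hy, a1, a7, a9, h1, a8, mul_nonneg_of_nonpos_of_nonpos (Mathlib.Tactic.Linarith.sub_nonpos_of_le h1) (Mathlib.Tactic.Linarith.sub_nonpos_of_le a8)]

theorem calm_forever {μ : ℝ} (hμ : 0 < μ) : ∃ μ0 : ℝ, 0 < μ0 ∧ ∀ (f : ℂ → ℂ) (I : Set ℕ)
    (ξ ηa : ℕ → ℝ) (η' lam ε : ℝ) (x0 : ℕ), 0 ≤ η' → η' ≤ 1 → 1 ≤ lam → 0 < ε →
    LoType (fun x => Real.log (maxMod f (exp x))) lam → (∀ X : ℝ, {a | a ∈ I ∧ ξ a ≤ X}.Finite) →
    (∀ x : ℝ, (x0 : ℝ) ≤ x → 1 ≤ Real.log (maxMod f (exp x))) →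
    (∀ X : ℕ, x0 ≤ X → ∃ Z : Cfg, Rd f I ξ ηa η' x0 X Z ∧
      ∀ k : ℕ, x0 ≤ k → k ≤ X → Z.L k ≤ μ0 * ‖Z.cc k‖) →
    ∃ (Y : ICfg ℕ) (H x1 : ℝ), Y.Valid H ∧ Y.Calm μ ∧ Y.Cov (1 + η') ε μ (1 / 100) x1 ∧
      LoType Y.A lam := by
  obtain ⟨μ0, hμ0, hL⟩ := exists_lim (lt_min hμ one_pos) (min_le_right μ 1)
  refine ⟨μ0, hμ0, fun f I ξ ηa η' lam ε x0 h0 h1 hl hε ht hf ho hZ => ?_⟩
  obtain ⟨Z, c, h⟩ := hL f I ξ ηa η' x0 hf ho hZ
  obtain ⟨x1, hx1⟩ := h.cov h0 h1 hl ht hε μ (1 / 100)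
  refine ⟨_, x0, x1, h.valid, fun x => ⟨(h.isCalm x).1, (h.isCalm x).2.trans
    (mul_le_mul_of_nonneg_right (min_le_left _ _) ?_)⟩, hx1,
    ht.of_comp (c := 1 / 4) (C := 4) (by norm_num) (by norm_num) ?_⟩
  · exact mul_nonneg (norm_nonneg _) (exp_pos _).le
  · filter_upwards [eventually_ge_atTop (x0 : ℝ)] with x hx
    have := h.A_mem hx
    exact ⟨by linarith only [this, this.1], this.2⟩

end

end Pool.Agent.MinMod.Mo
end

-- merged part: Pool.Agent.Work.MP_f62247_an.Mo.E4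
section
/-!
# Lower bound of the maximum modulus, lower order
`logM_ge`: let `n = ⌈π / a⌉₊`, `h w = ∏_{j < n} f (w * exp (2π j I / n))`. For every point of the circle one of the rotated points lies on the arc `|θ - θ0| ≤ a` modulo `2π` (the step `2π/n` is at most `2a`), so `‖h w‖ ≤ exp (-N) * M ^ (n-1)`; `h 0 = 1` and the maximum principle (`FinA_maxp`, `FinA_polar`, `exists_maxMod`) give `N ≤ (n-1) log M`, `n - 1 ≤ π / a`; note `M ≥ 1`.
`order_of_type`: `le_antisymm` with `liminf_le_of_frequently_le`, `le_liminf_of_le`, substitution `r = exp x` (compare `order_bounds`, `FinC_order`).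
-/

open Real MeasureTheory Set Filter Topology

namespace Pool.Agent.MinMod.Mo

noncomputable section

theorem e4_rot {n : ℕ} (hn : 0 < n) {a : ℝ} (ha : π / n ≤ a) (x θ θ0 : ℝ) :
    ∃ j < n, ∃ θ' : ℝ, |θ' - θ0| ≤ a ∧ Complex.exp (x + θ' * Complex.I) =
      Complex.exp (x + θ * Complex.I) * Complex.exp ((j * (2 * π / n) : ℝ) * Complex.I) := by
  have n0 : (0 : ℝ) < n := Nat.cast_pos.2 hn
  have d0 : 0 < 2 * π / n := by positivity
  have d1 : 2 * π / n ≤ 2 * a := by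
    rw [mul_div_assoc]
    linarith only [ha]
  set m : ℤ := ⌈(θ0 - a - θ) / (2 * π / n)⌉ with hm
  have m1 : θ0 - a - θ ≤ m * (2 * π / n) := (div_le_iff₀ d0).1 (Int.le_ceil _)
  have m2 : (m - 1) * (2 * π / n) < θ0 - a - θ :=
    (lt_div_iff₀ d0).1 (sub_lt_iff_lt_add.2 (Int.ceil_lt_add_one _))
  have n1 : (0 : ℤ) < n := Int.natCast_pos.2 hn
  obtain ⟨j, hj⟩ := Int.eq_ofNat_of_zero_le (Int.emod_nonneg m n1.ne')
  have j1 : j < n := by
    have := Int.emod_lt_of_pos m n1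
    omega
  have j2 : (m : ℝ) = n * (m / n : ℤ) + j := by
    have := Int.mul_ediv_add_emod m n
    rw [hj] at this
    exact_mod_cast this.symm
  refine ⟨j, j1, θ + m * (2 * π / n), abs_le.2 ⟨by linarith only [m1], by linarith only [d1, m2]⟩, ?_⟩
  have j3 : (m : ℝ) * (2 * π / n) = j * (2 * π / n) + (m / n : ℤ) * (2 * π) := by
    rw [j2]
    field_simp
    rw [← j2]
    linarith only [j2]
  rw [j3, ← Complex.exp_add, ← Complex.exp_periodic.int_mul (m / n)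
    (x + θ * Complex.I + (j * (2 * π / n) : ℝ) * Complex.I)]
  refine congrArg _ ?_
  push_cast
  ring

theorem logM_ge {f : ℂ → ℂ} (hf : Differentiable ℂ f) (h0 : f 0 = 1) {x θ0 a N : ℝ} (ha : 0 < a)
    (ha1 : a ≤ 1) (h : ∀ θ : ℝ, |θ - θ0| ≤ a → ‖f (Complex.exp (x + θ * Complex.I))‖ ≤ exp (-N)) :
    a * N / π ≤ Real.log (maxMod f (exp x)) := by
  have M1 : 1 ≤ maxMod f (exp x) := by
    have := FinA_le_maxMod hf (x := x) (w := 0) (by rw [norm_zero]; exact (exp_pos x).le)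
    rwa [h0, norm_one] at this
  have p0 : 0 < π / a := div_pos pi_pos ha
  obtain ⟨k, hk⟩ : ∃ k, ⌈π / a⌉₊ = k + 1 := Nat.exists_eq_succ_of_ne_zero (Nat.ceil_pos.2 p0).ne'
  have k1 : π / a ≤ ((k + 1 : ℕ) : ℝ) := hk ▸ Nat.le_ceil _
  have k2 : (k : ℝ) ≤ π / a := by
    have := Nat.ceil_lt_add_one p0.le
    rw [hk, Nat.cast_succ] at this
    linarith only [this]
  have k3 : π / ((k + 1 : ℕ) : ℝ) ≤ a := by
    rw [div_le_iff₀ (by positivity), mul_comm]
    exact (div_le_iff₀ ha).1 k1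
  have key := FinA_maxp (g := fun w => ∏ j ∈ Finset.range (k + 1),
      f (w * Complex.exp ((j * (2 * π / (k + 1 : ℕ)) : ℝ) * Complex.I)))
    (R := exp x) (C := exp (-N) * maxMod f (exp x) ^ k) (w := 0) (by fun_prop) (exp_pos x)
    (fun z hz => ?_) (by rw [norm_zero]; exact (exp_pos x).le)
  · simp only [zero_mul, h0, Finset.prod_const_one, norm_one] at key
    have a1 := log_le_log one_pos key
    rw [log_one, log_mul (exp_pos _).ne' (by positivity), log_exp, log_pow] at a1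
    have a2 := mul_le_mul_of_nonneg_right k2 (log_nonneg M1)
    rw [div_mul_eq_mul_div, le_div_iff₀ ha] at a2
    rw [div_le_iff₀ pi_pos]
    linarith only [a2, ha, a1, mul_nonneg_of_nonpos_of_nonpos (le_of_lt (Mathlib.Tactic.Linarith.sub_neg_of_lt ha)) (Mathlib.Tactic.Linarith.sub_nonpos_of_le a1)]
  · obtain ⟨θ, rfl⟩ := FinA_polar hz
    obtain ⟨j, hj, θ', h1, h2⟩ := e4_rot k.succ_pos k3 x θ θ0
    have hj' := Finset.mem_range.2 hj
    rw [norm_prod, ← Finset.mul_prod_erase _ _ hj', ← h2]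
    refine mul_le_mul (h θ' h1) ?_ (Finset.prod_nonneg fun _ _ => norm_nonneg _) (exp_pos _).le
    refine (Finset.prod_le_prod (fun _ _ => norm_nonneg _) fun i _ => FinA_le_maxMod hf (x := x)
      (le_of_eq ?_)).trans (le_of_eq ?_)
    · rw [norm_mul, Complex.norm_exp_ofReal_mul_I, mul_one, hz]
    · rw [Finset.prod_const, Finset.card_erase_of_mem hj', Finset.card_range, Nat.succ_sub_one]

theorem order_of_type {f : ℂ → ℂ} {lam : ℝ}
    (h : LoType (fun x => Real.log (maxMod f (exp x))) lam) : lowerOrder f = (lam : EReal) := by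
  unfold lowerOrder
  refine le_antisymm (EReal.le_of_forall_lt_iff_le.1 fun z hz => ?_)
    (EReal.ge_of_forall_gt_iff_ge.1 fun z hz => ?_)
  · obtain ⟨h1, h2⟩ := h (z - lam) (sub_pos.2 (EReal.coe_lt_coe_iff.1 hz))
    refine liminf_le_of_frequently_le (tendsto_exp_atTop.frequently
      ((h2.and_eventually (h1.and (eventually_gt_atTop 0))).mono fun x hx => ?_))
    have a1 := log_le_log ((exp_pos _).trans_le hx.2.1) hx.1
    rw [log_exp, add_sub_cancel] at a1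
    rw [log_exp]
    exact EReal.coe_le_coe_iff.2 ((div_le_iff₀ hx.2.2).2 a1)
  · obtain ⟨h1, -⟩ := h (lam - z) (sub_pos.2 (EReal.coe_lt_coe_iff.1 hz))
    refine le_liminf_of_le (h := ?_)
    filter_upwards [tendsto_log_atTop.eventually h1, eventually_gt_atTop 1] with r h2 hr
    have a1 := log_le_log (exp_pos _) h2
    rw [log_exp, sub_sub_cancel, exp_log (by linarith)] at a1
    exact EReal.coe_le_coe_iff.2 ((le_div_iff₀ (log_pos hr)).2 a1)

theorem type_of_order {f : ℂ → ℂ} (hf : Differentiable ℂ f) {lam : ℝ} (h1 : 1 < lam)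
    (ho : lowerOrder f = (lam : EReal)) : LoType (fun x => Real.log (maxMod f (exp x))) lam := by
  exact fun σ hσ => order_bounds hf h1 ho hσ

theorem LoType.scale {f : ℝ → ℝ} {lam α : ℝ} (h : LoType f lam) (hα : 0 < α) :
    LoType (fun x => f (α * x)) (α * lam) := by
  intro σ hσ
  obtain ⟨h1, h2⟩ := h (σ / α) (div_pos hσ hα)
  refine ⟨((tendsto_id.const_mul_atTop hα).eventually h1).mono fun x hx => ?_,
    (tendsto_id.atTop_div_const hα).frequently (h2.mono fun x hx => ?_)⟩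
  · refine le_trans (le_of_eq (congrArg _ ?_)) hx
    rw [id]
    field_simp
  · show f (α * (x / α)) ≤ exp ((α * lam + σ) * (x / α))
    rw [mul_div_cancel₀ _ hα.ne']
    refine hx.trans (le_of_eq (congrArg _ ?_))
    field_simp

theorem ratio_le {f : ℂ → ℂ} (hf : Continuous f) {x θ0 N P : ℝ} (hN : 0 ≤ N)
    (hM : 0 < Real.log (maxMod f (exp x)))
    (h1 : ∀ θ : ℝ, ‖f (Complex.exp (x + θ * Complex.I))‖ ≤ exp P)
    (h2 : ‖f (Complex.exp (x + θ0 * Complex.I))‖ ≤ exp (-N)) :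
    modRatio f (exp x) ≤ ((-N / P : ℝ) : EReal) := by
  unfold modRatio
  split_ifs with hm
  · exact bot_le
  obtain ⟨⟨θ, h3⟩, ⟨θ', h4⟩, h5⟩ := exists_maxMod hf x
  have a1 : 0 < minMod f (exp x) := lt_of_le_of_ne (h4 ▸ norm_nonneg _) (Ne.symm hm)
  have a2 := (log_le_iff_le_exp a1).2 ((h5 θ0).1.trans h2)
  have a3 := (log_le_iff_le_exp (a1.trans_le ((h5 θ).1.trans (h5 θ).2))).2 (h3 ▸ h1 θ)
  have a4 := div_le_div_of_nonneg_left hN hM a3
  refine EReal.coe_le_coe_iff.2 ((div_le_div_of_nonneg_right a2 hM.le).trans ?_)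
  rw [neg_div, neg_div]
  exact neg_le_neg a4

end

end Pool.Agent.MinMod.Mo
end

-- merged part: Pool.Agent.Work.MP_f62247_an.Mo.E2
section
/-!
# Cells and the truncated kernel
`exists_cells`: for `n : ℕ` let `N n = ⌈exp (n/4)⌉₊`; cell `(n, i, j)`, `i, j < N n`: `n + i / N ≤ re < n + (i+1)/N`, `2π j / N ≤ im < 2π (j+1)/N`, `p` its lower left corner; other indices get the empty set. Transport along an equivalence `ℕ ≃ ℕ × ℕ × ℕ` (`Denumerable.eqv`, `Nat.pairEquiv`).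
`∑ N n ^ 2 exp (-n) ≤ ∑ 4 exp (-n/2)` (`summable_prod_of_nonneg`). A point `ζ` of the strip lies in the cell given by floors.
`kt τ w = log (max ‖1 - e^w‖ τ) + Re e^w`. `|log (max a τ) - log (max b τ)| ≤ |a - b| / τ`; `‖e^w - e^w'‖ ≤ exp (max re) ‖w - w'‖` (mean value inequality on the segment). For `re w ≤ -1`: `‖1 - e^w‖ ≥ 1/2 ≥ τ`, so `kt = nk`.
`kt_sub`: `kt - nk = posLog (τ / ‖1 - e^w‖)`; for `|im w| ≤ π`: if `‖1 - e^w‖ < τ ≤ 1/100` then `‖w‖ ≤ 4 ‖1 - e^w‖` (e.g. `|re w| ≤ 2 ‖1 - e^w‖` from `|1 - e^(re w)| ≤ ‖1 - e^w‖`, and `‖1 - e^w‖² ≥ 4 e^(re w) sin² (im w / 2)`, `|sin (y/2)| ≥ |y|/π`).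
-/

open Real MeasureTheory Set Filter Topology

namespace Pool.Agent.MinMod.Mo

noncomputable section

def e2_N (n : ℕ) : ℕ := ⌈exp ((n : ℝ) / 4)⌉₊

theorem e2_N_ge (n : ℕ) : exp ((n : ℝ) / 4) ≤ e2_N n := Nat.le_ceil _

theorem e2_N_pos (n : ℕ) : (0 : ℝ) < e2_N n := (exp_pos _).trans_le (e2_N_ge n)

theorem e2_N_le (n : ℕ) : (e2_N n : ℝ) ≤ 2 * exp ((n : ℝ) / 4) := by
  have h1 : (e2_N n : ℝ) < exp ((n : ℝ) / 4) + 1 := Nat.ceil_lt_add_one (exp_pos _).le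
  have h2 : 1 ≤ exp ((n : ℝ) / 4) := one_le_exp (by positivity)
  linarith only [h1, h2]

def e2_idx (ζ : ℂ) : ℕ × ℕ × ℕ :=
  (⌊ζ.re⌋₊, ⌊(ζ.re - ⌊ζ.re⌋₊) * e2_N ⌊ζ.re⌋₊⌋₊, ⌊ζ.im * e2_N ⌊ζ.re⌋₊⌋₊)

def e2_p (q : ℕ × ℕ × ℕ) : ℂ := ⟨q.1 + q.2.1 / e2_N q.1, q.2.2 / e2_N q.1⟩

def e2_e (q : ℕ × ℕ × ℕ) : ℝ :=
  if q.2 ∈ Finset.range (7 * e2_N q.1) ×ˢ Finset.range (7 * e2_N q.1) then exp (-q.1) else 0

theorem e2_meas : Measurable e2_idx := by
  have h1 : Measurable fun ζ : ℂ => ⌊ζ.re⌋₊ := Nat.measurable_floor.comp Complex.measurable_re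
  have h2 : Measurable fun ζ : ℂ => ((⌊ζ.re⌋₊ : ℕ) : ℝ) :=
    (measurable_of_countable fun n : ℕ => (n : ℝ)).comp h1
  have h3 : Measurable fun ζ : ℂ => (e2_N ⌊ζ.re⌋₊ : ℝ) :=
    (measurable_of_countable fun n : ℕ => (e2_N n : ℝ)).comp h1
  exact h1.prodMk ((Nat.measurable_floor.comp ((Complex.measurable_re.sub h2).mul h3)).prodMk
    (Nat.measurable_floor.comp (Complex.measurable_im.mul h3)))

theorem e2_e_nonneg (q : ℕ × ℕ × ℕ) : 0 ≤ e2_e q := by
  unfold e2_e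
  split_ifs
  · exact (exp_pos _).le
  · exact le_rfl

theorem e2_summable : Summable e2_e := by
  have h1 : ∀ n : ℕ, HasSum (fun y => e2_e (n, y))
      (∑ y ∈ Finset.range (7 * e2_N n) ×ˢ Finset.range (7 * e2_N n), e2_e (n, y)) := fun n =>
    hasSum_sum_of_ne_finset_zero fun y hy => if_neg hy
  refine (summable_prod_of_nonneg e2_e_nonneg).2 ⟨fun n => (h1 n).summable, ?_⟩
  have h2 : Summable fun n : ℕ => 196 * exp (-1 / 2 : ℝ) ^ n :=
    (summable_geometric_of_lt_one (exp_pos _).le (exp_lt_one_iff.2 (by norm_num))).mul_left _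
  refine Summable.of_nonneg_of_le (fun n => tsum_nonneg fun y => e2_e_nonneg _) (fun n => ?_) h2
  have h7 : ∑ y ∈ Finset.range (7 * e2_N n) ×ˢ Finset.range (7 * e2_N n), e2_e (n, y) =
      ∑ y ∈ Finset.range (7 * e2_N n) ×ˢ Finset.range (7 * e2_N n), exp (-(n : ℝ)) :=
    Finset.sum_congr rfl fun y hy => if_pos hy
  rw [(h1 n).tsum_eq, h7, Finset.sum_const, Finset.card_product, Finset.card_range, nsmul_eq_mul, ← exp_nat_mul]
  have h3 := e2_N_le n
  have h4 := e2_N_pos n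
  have h5 : exp ((n : ℝ) * (-1 / 2)) = exp ((n : ℝ) / 4) * exp ((n : ℝ) / 4) * exp (-(n : ℝ)) := by
    rw [← exp_add, ← exp_add]
    congr 1
    ring
  have h6 : (e2_N n : ℝ) * e2_N n ≤ 2 * exp ((n : ℝ) / 4) * (2 * exp ((n : ℝ) / 4)) :=
    mul_le_mul h3 h3 h4.le (by positivity)
  rw [h5]
  push_cast
  linarith only [h6, exp_pos (-(n : ℝ)), mul_nonneg_of_nonpos_of_nonpos (Mathlib.Tactic.Linarith.sub_nonpos_of_le h6) (le_of_lt (Mathlib.Tactic.Linarith.sub_neg_of_lt (exp_pos (-↑n))))]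

theorem e2_floor {x N : ℝ} (hx : 0 ≤ x) (hN : 0 < N) : |x - ⌊x * N⌋₊ / N| ≤ 1 / N := by
  have h1 : (⌊x * N⌋₊ : ℝ) ≤ x * N := Nat.floor_le (by positivity)
  have h2 : x * N < ⌊x * N⌋₊ + 1 := Nat.lt_floor_add_one _
  have h3 : x - ⌊x * N⌋₊ / N = (x * N - ⌊x * N⌋₊) / N := by field_simp
  rw [h3, abs_div, abs_of_pos hN]
  exact div_le_div_of_nonneg_right (abs_le.2 ⟨by linarith, by linarith⟩) hN.le

theorem e2_close {ζ : ℂ} (h : ζ ∈ hstrip 0 0) :
    ‖ζ - e2_p (e2_idx ζ)‖ ≤ 20 * exp (-ζ.re / 4) := by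
  obtain ⟨h1, h2, -⟩ := h
  have hN := e2_N_pos ⌊ζ.re⌋₊
  have h3 : (⌊ζ.re⌋₊ : ℝ) ≤ ζ.re := Nat.floor_le h1
  have h4 : ζ.re < ⌊ζ.re⌋₊ + 1 := Nat.lt_floor_add_one _
  have h5 := e2_floor (sub_nonneg.2 h3) hN
  have h6 := e2_floor h2 hN
  have h7 : (ζ - e2_p (e2_idx ζ)).re = ζ.re - ⌊ζ.re⌋₊ -
      ⌊(ζ.re - ⌊ζ.re⌋₊) * e2_N ⌊ζ.re⌋₊⌋₊ / e2_N ⌊ζ.re⌋₊ := by
    simp only [e2_p, e2_idx, Complex.sub_re]
    ring
  have h8 : (ζ - e2_p (e2_idx ζ)).im = ζ.im - ⌊ζ.im * e2_N ⌊ζ.re⌋₊⌋₊ / e2_N ⌊ζ.re⌋₊ := by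
    simp only [e2_p, e2_idx, Complex.sub_im]
  have h9 := Complex.norm_le_abs_re_add_abs_im (ζ - e2_p (e2_idx ζ))
  rw [h7, h8] at h9
  have h10 : 1 / (e2_N ⌊ζ.re⌋₊ : ℝ) ≤ exp (-(⌊ζ.re⌋₊ / 4)) := by
    rw [exp_neg, ← one_div]
    exact one_div_le_one_div_of_le (exp_pos _) (e2_N_ge _)
  have h11 : exp (-((⌊ζ.re⌋₊ : ℝ) / 4)) ≤ exp 1 * exp (-ζ.re / 4) := by
    rw [← exp_add]
    exact exp_le_exp.2 (by linarith only [h4])
  have h12 : exp 1 < 3 := exp_one_lt_d9.trans (by norm_num)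
  linarith only [h5, h6, h9, h10, h11, h12, exp_pos (-ζ.re / 4), mul_pos_of_neg_of_neg (Mathlib.Tactic.Linarith.sub_neg_of_lt h12) (Mathlib.Tactic.Linarith.sub_neg_of_lt (exp_pos (-ζ.re / (4 : ℝ))))]

theorem e2_le_e {ζ : ℂ} (h : ζ ∈ hstrip 0 0) :
    exp (-(e2_p (e2_idx ζ)).re) ≤ e2_e (e2_idx ζ) := by
  obtain ⟨h1, h2, h2'⟩ := h
  have hN := e2_N_pos ⌊ζ.re⌋₊
  have h3 : (⌊ζ.re⌋₊ : ℝ) ≤ ζ.re := Nat.floor_le h1
  have h4 : ζ.re < ⌊ζ.re⌋₊ + 1 := Nat.lt_floor_add_one _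
  have h5 : π < 3.5 := pi_lt_d2.trans (by norm_num)
  unfold e2_e
  rw [if_pos]
  · refine exp_le_exp.2 (neg_le_neg ?_)
    simp only [e2_p]
    exact le_add_of_nonneg_right (by positivity)
  · simp only [e2_idx, Finset.mem_product, Finset.mem_range]
    constructor
    · rw [Nat.floor_lt (mul_nonneg (sub_nonneg.2 h3) hN.le)]
      push_cast
      linarith only [hN, h4, mul_nonneg_of_nonpos_of_nonpos (Mathlib.Tactic.Linarith.sub_nonpos_of_le (Mathlib.Tactic.Linarith.natCast_nonneg ℝ (e2_N ⌊ζ.re⌋₊))) (le_of_lt (Mathlib.Tactic.Linarith.sub_neg_of_lt h4))]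
    · rw [Nat.floor_lt (mul_nonneg h2 hN.le)]
      push_cast
      linarith only [h5, h2', hN, mul_nonneg_of_nonpos_of_nonpos (Mathlib.Tactic.Linarith.sub_nonpos_of_le (Mathlib.Tactic.Linarith.natCast_nonneg ℝ (e2_N ⌊ζ.re⌋₊))) (le_of_lt (Mathlib.Tactic.Linarith.sub_neg_of_lt h5)), mul_pos_of_neg_of_neg (Mathlib.Tactic.Linarith.sub_neg_of_lt h2') (Mathlib.Tactic.Linarith.sub_neg_of_lt hN)]

theorem exists_cells : ∃ (Q : ℕ → Set ℂ) (p : ℕ → ℂ) (e : ℕ → ℝ), (∀ k, MeasurableSet (Q k)) ∧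
    Pairwise (Function.onFun Disjoint Q) ∧ (⋃ k, Q k) = hstrip 0 0 ∧
    (∀ k, ∀ ζ ∈ Q k, ‖ζ - p k‖ ≤ 20 * exp (-ζ.re / 4)) ∧ Summable e ∧ (∀ k, 0 ≤ e k) ∧
    ∀ k, (Q k).Nonempty → exp (-(p k).re) ≤ e k := by
  obtain ⟨φ⟩ : Nonempty (ℕ ≃ ℕ × ℕ × ℕ) := ⟨(Denumerable.eqv (ℕ × ℕ × ℕ)).symm⟩
  refine ⟨fun k => hstrip 0 0 ∩ e2_idx ⁻¹' {φ k}, fun k => e2_p (φ k), fun k => e2_e (φ k),
    fun k => (measurableSet_hstrip 0 0).inter (e2_meas (measurableSet_singleton _)), ?_, ?_, ?_,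
    (φ.summable_iff (f := e2_e)).2 e2_summable, fun k => e2_e_nonneg _, ?_⟩
  · intro k l hkl
    refine Set.disjoint_left.2 fun ζ h1 h2 => hkl (φ.injective ?_)
    exact (show e2_idx ζ = φ k from h1.2).symm.trans h2.2
  · refine Subset.antisymm (iUnion_subset fun k => inter_subset_left) fun ζ h => ?_
    exact mem_iUnion.2 ⟨φ.symm (e2_idx ζ), h, by simp⟩
  · rintro k ζ ⟨h1, h2⟩
    have h3 : e2_idx ζ = φ k := h2
    simp only [← h3]
    exact e2_close h1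
  · rintro k ⟨ζ, h1, h2⟩
    have h3 : e2_idx ζ = φ k := h2
    simp only [← h3]
    exact e2_le_e h1

def kt (τ : ℝ) (w : ℂ) : ℝ := BAtom_k τ w.re w.im

theorem e2_kt (τ : ℝ) (w : ℂ) :
    kt τ w = Real.log (max ‖1 - Complex.exp w‖ τ) + (Complex.exp w).re := by
  rw [kt, BAtom_k, Complex.re_add_im, Complex.exp_re]

theorem e2_nk (w : ℂ) : nk w.re w.im = Real.log ‖1 - Complex.exp w‖ + (Complex.exp w).re := by
  rw [nk, lg, Complex.re_add_im, Complex.exp_re]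

theorem e2_log_one {τ x y : ℝ} (h : 0 < τ) (hx : τ ≤ x) (hy : τ ≤ y) :
    Real.log x - Real.log y ≤ |x - y| / τ := by
  have hx0 := h.trans_le hx
  have hy0 := h.trans_le hy
  rw [← Real.log_div hx0.ne' hy0.ne']
  refine (Real.log_le_sub_one_of_pos (div_pos hx0 hy0)).trans ?_
  rw [div_sub_one hy0.ne']
  exact (div_le_div_of_nonneg_right (le_abs_self _) hy0.le).trans
    (div_le_div_of_nonneg_left (abs_nonneg _) h hy)

theorem e2_log {τ : ℝ} (h : 0 < τ) (a b : ℝ) :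
    |Real.log (max a τ) - Real.log (max b τ)| ≤ |a - b| / τ := by
  have h1 := e2_log_one h (le_max_right a τ) (le_max_right b τ)
  have h2 := e2_log_one h (le_max_right b τ) (le_max_right a τ)
  have h3 := div_le_div_of_nonneg_right (abs_max_sub_max_le_abs a b τ) h.le
  rw [abs_sub_comm] at h2
  exact abs_le.2 ⟨by linarith only [h2, h3], by linarith only [h1, h3]⟩

theorem e2_exp_lip (w w' : ℂ) :
    ‖Complex.exp w - Complex.exp w'‖ ≤ exp (max w.re w'.re) * ‖w - w'‖ := by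
  refine (convex_halfSpace_re_le (max w.re w'.re)).norm_image_sub_le_of_norm_deriv_le
    (𝕜 := ℂ) (fun x _ => Complex.differentiableAt_exp) (fun x hx => ?_) (le_max_right w.re w'.re)
    (le_max_left w.re w'.re)
  rw [Complex.deriv_exp, Complex.norm_exp]
  exact exp_le_exp.2 hx

theorem e2_small {w : ℂ} (hw : |w.im| ≤ π) (h : ‖1 - Complex.exp w‖ ≤ 1 / 2) :
    ‖w‖ ≤ 4 * ‖1 - Complex.exp w‖ := by
  obtain ⟨h1, h2⟩ := abs_le.1 hw
  rcases h1.eq_or_lt with h1 | h1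
  · exfalso
    have h3 := Complex.re_le_norm (1 - Complex.exp w)
    rw [Complex.sub_re, Complex.exp_re, ← h1, cos_neg, cos_pi, Complex.one_re] at h3
    linarith only [h, h3, exp_pos w.re]
  · rw [norm_sub_rev] at h ⊢
    have h3 := Complex.norm_log_one_add_half_le_self h
    rw [add_sub_cancel, Complex.log_exp h1 h2] at h3
    linarith only [h3, norm_nonneg (Complex.exp w - 1)]

theorem continuous_kt {τ : ℝ} (h : 0 < τ) : Continuous (kt τ) := by
  have : kt τ = fun w => Real.log (max ‖1 - Complex.exp w‖ τ) + (Complex.exp w).re :=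
    funext (e2_kt τ)
  rw [this]
  refine Continuous.add (Continuous.log (by fun_prop) fun s => ?_) (by fun_prop)
  exact (h.trans_le (le_max_right _ _)).ne'

theorem kt_lip {τ : ℝ} (h : 0 < τ) (w w' : ℂ) :
    |kt τ w - kt τ w'| ≤ (1 + 1 / τ) * exp (max w.re w'.re) * ‖w - w'‖ := by
  rw [e2_kt, e2_kt]
  have h1 := e2_log h ‖1 - Complex.exp w‖ ‖1 - Complex.exp w'‖
  have h2 := abs_norm_sub_norm_le (1 - Complex.exp w) (1 - Complex.exp w')
  rw [sub_sub_sub_cancel_left, norm_sub_rev (Complex.exp w')] at h2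
  have h3 := Complex.abs_re_le_norm (Complex.exp w - Complex.exp w')
  rw [Complex.sub_re] at h3
  have h4 := e2_exp_lip w w'
  have h5 := div_le_div_of_nonneg_right (h2.trans h4) h.le
  have h6 := abs_add_le (Real.log (max ‖1 - Complex.exp w‖ τ) -
    Real.log (max ‖1 - Complex.exp w'‖ τ)) ((Complex.exp w).re - (Complex.exp w').re)
  calc _ = |Real.log (max ‖1 - Complex.exp w‖ τ) - Real.log (max ‖1 - Complex.exp w'‖ τ) +
        ((Complex.exp w).re - (Complex.exp w').re)| := by congr 1; ring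
    _ ≤ exp (max w.re w'.re) * ‖w - w'‖ / τ + exp (max w.re w'.re) * ‖w - w'‖ := by linarith only [h1, h3, h4, h5, h6]
    _ = _ := by ring

theorem abs_kt_le {τ : ℝ} (h : 0 < τ) (h1 : τ ≤ 1 / 2) (w : ℂ) :
    |kt τ w| ≤ (1 + 1 / τ) * exp w.re ∧ |kt τ w| ≤ 3 * (1 + 1 / τ) * exp (2 * w.re) := by
  have hτ : 0 < 1 / τ := by positivity
  have h2 := abs_norm_sub_norm_le (1 - Complex.exp w) 1
  rw [sub_sub_cancel_left, norm_neg, Complex.norm_exp, norm_one] at h2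
  have hA : |kt τ w| ≤ (1 + 1 / τ) * exp w.re := by
    rw [e2_kt]
    have h3 := e2_log h ‖1 - Complex.exp w‖ 1
    rw [max_eq_left (show τ ≤ 1 by linarith only [h, h1]), Real.log_one, sub_zero] at h3
    have h4 := Complex.abs_re_le_norm (Complex.exp w)
    rw [Complex.norm_exp] at h4
    have h5 := div_le_div_of_nonneg_right h2 h.le
    calc _ ≤ _ := abs_add_le _ _
      _ ≤ exp w.re / τ + exp w.re := by linarith only [h3, h4, h5]
      _ = _ := by ring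
  refine ⟨hA, ?_⟩
  have h12 : exp 1 < 3 := exp_one_lt_d9.trans (by norm_num)
  rcases le_total w.re (-1) with hw | hw
  · have h3 : exp w.re ≤ 1 / 2 := by
      refine (exp_le_exp.2 hw).trans ?_
      exact (exp_neg_one_lt_d9.trans (by norm_num)).le
    have h4 : τ ≤ ‖1 - Complex.exp w‖ := by linarith only [h1, h3, h2, (abs_le.1 h2).1]
    rw [e2_kt, max_eq_left h4, ← e2_nk]
    refine (abs_nk_le_far hw _).trans ?_
    (refine le_of_not_gt fun h_nl => ?_; linarith only [h_nl, h, h1, hτ, exp_pos (2 * w.re), mul_pos_of_neg_of_neg (Mathlib.Tactic.Linarith.sub_neg_of_lt h) (Mathlib.Tactic.Linarith.sub_neg_of_lt h_nl), mul_pos_of_neg_of_neg (Mathlib.Tactic.Linarith.sub_neg_of_lt h) (Mathlib.Tactic.Linarith.sub_neg_of_lt (exp_pos ((2 : ℝ) * w.re))), mul_nonneg_of_nonpos_of_nonpos (Mathlib.Tactic.Linarith.sub_nonpos_of_le h1) (le_of_lt (Mathlib.Tactic.Linarith.sub_neg_of_lt h_nl)), mul_nonneg_of_nonpos_of_nonpos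 (Mathlib.Tactic.Linarith.sub_nonpos_of_le h1) (le_of_lt (Mathlib.Tactic.Linarith.sub_neg_of_lt (exp_pos ((2 : ℝ) * w.re)))), mul_pos_of_neg_of_neg (Mathlib.Tactic.Linarith.sub_neg_of_lt hτ) (Mathlib.Tactic.Linarith.sub_neg_of_lt (exp_pos ((2 : ℝ) * w.re)))])
  · have h3 : exp w.re ≤ exp 1 * exp (2 * w.re) := by
      rw [← exp_add]
      exact exp_le_exp.2 (by linarith only [hw])
    have h4 : exp w.re ≤ 3 * exp (2 * w.re) := by (refine le_of_not_gt fun h_nl => ?_; linarith only [h_nl, h3, h, h1, h12, exp_pos (2 * w.re), mul_pos_of_neg_of_neg (Mathlib.Tactic.Linarith.sub_neg_of_lt h) (Mathlib.Tactic.Linarith.sub_neg_of_lt h_nl), mul_nonneg_of_nonpos_of_nonpos (Mathlib.Tactic.Linarith.sub_nonpos_of_le h1) (le_of_lt (Mathlib.Tactic.Linarith.sub_neg_of_lt h_nl)), mul_pos_of_neg_of_neg (Mathlib.Tactic.Linarith.sub_neg_of_lt h12) (Mathlib.Tactic.Linarith.sub_neg_of_lt (exp_pos ((2 : ℝ) * w.re)))])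
    (refine le_of_not_gt fun h_nl => ?_; linarith only [h_nl, hA, h4, h, h1, hτ, mul_pos_of_neg_of_neg (Mathlib.Tactic.Linarith.sub_neg_of_lt h) (Mathlib.Tactic.Linarith.sub_neg_of_lt h_nl), mul_nonneg_of_nonpos_of_nonpos (Mathlib.Tactic.Linarith.sub_nonpos_of_le h1) (le_of_lt (Mathlib.Tactic.Linarith.sub_neg_of_lt h_nl)), mul_nonneg_of_nonpos_of_nonpos (le_of_lt (Mathlib.Tactic.Linarith.sub_neg_of_lt hτ)) (Mathlib.Tactic.Linarith.sub_nonpos_of_le h4)])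

theorem kt_sub {τ : ℝ} (h : 0 < τ) (h1 : τ ≤ 1 / 100) {w : ℂ} (hw : |w.im| ≤ π) (h0 : w ≠ 0) :
    kt τ w - nk w.re w.im ≤ gk (4 * τ) w := by
  rw [e2_kt, e2_nk, add_sub_add_right_eq_sub, gk]
  rcases le_total τ ‖1 - Complex.exp w‖ with h2 | h2
  · rw [max_eq_left h2, sub_self]
    exact posLog_nonneg
  · have h3 := e2_small hw (h2.trans (by linarith only [h, h1]))
    have h4 : 0 < ‖w‖ := norm_pos_iff.2 h0
    have h5 : 0 < ‖1 - Complex.exp w‖ := by linarith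
    rw [max_eq_right h2, ← Real.log_div h.ne' h5.ne']
    refine le_trans (Real.log_le_log (div_pos h h5) ?_) (le_max_right _ _)
    rw [div_le_div_iff₀ h5 h4]
    linarith only [h, h3, mul_nonneg_of_nonpos_of_nonpos (le_of_lt (Mathlib.Tactic.Linarith.sub_neg_of_lt h)) (Mathlib.Tactic.Linarith.sub_nonpos_of_le h3)]

theorem kt_per (τ : ℝ) (w : ℂ) (n : ℤ) : kt τ (w + n * (2 * π * Complex.I)) = kt τ w := by
  rw [e2_kt, e2_kt, Complex.exp_periodic.int_mul n w]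

end

end Pool.Agent.MinMod.Mo
end

-- merged part: Pool.Agent.Work.MP_f62247_an.Mo.E3
section
/-!
# Atomisation in two dimensions
Masses `M k = ∫_{Q k} ρ`, multiplicities `n k = ⌊M k⌋₊` (zero for an empty cell), zeros `a k = exp (p k)`; `exists_prod` (summability: `n k exp (-2 re p k) ≤ exp 40 ∫_{Q k} ρ exp (-2 re ζ)`, `hasSum_integral_iUnion`, `integrableOn_exp_hstrip`).
For `w = exp z` take `g k = n k * kt τ (z - p k)` (`BAtom_factor`, `Complex.exp_sub`). Termwise `g k ≤ ∫_{Q k} ρ kt τ (z - ζ) + |kt τ (z - p k)| + ∫_{Q k} ρ |kt τ (z - ζ) - kt τ (z - p k)|` (middle term only for nonempty cells);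
the middle terms sum to `≤ (1 + 1/τ) exp x ∑ e k`, the last ones to `≤ C exp x ∫ exp ((9/8 - 1 - 1/4) re ζ)`.
Truncation: `ρ (kt - nk)` is periodic, move to `hstrip 0 (im z - π)` (`shift_strip`), `kt_sub`, `∫ gk (4τ) = 8 π τ²`, and `gk (4τ) (z - ζ) = 0` unless `|re ζ - x| ≤ 1`.
-/

open Real MeasureTheory Set Filter Topology

namespace Pool.Agent.MinMod.Mo

noncomputable section

theorem e3_int {F : ℂ → ℝ} (hF : Continuous F) {B t b : ℝ} (ht : 0 < t)
    (h : ∀ ζ : ℂ, 0 ≤ ζ.re → |F ζ| ≤ B * exp (-t * ζ.re)) : IntegrableOn F (hstrip 0 b) := by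
  refine Integrable.mono' ((integrableOn_exp_hstrip ht 0 b).const_mul B)
    hF.aestronglyMeasurable ?_
  filter_upwards [ae_restrict_mem (measurableSet_hstrip 0 b)] with ζ hζ
  exact h ζ hζ.1

theorem e3_int_exp {ρ : ℂ → ℝ} {K : ℝ} (hρ : Continuous ρ) (h0 : ∀ ζ, 0 ≤ ρ ζ)
    (hK : ∀ ζ : ℂ, 0 ≤ ζ.re → ρ ζ ≤ K * exp (9 / 8 * ζ.re)) {t : ℝ} (ht : 9 / 8 < t) (b : ℝ) :
    IntegrableOn (fun ζ => ρ ζ * exp (-t * ζ.re)) (hstrip 0 b) := by
  refine e3_int (by fun_prop) (B := K) (t := t - 9 / 8) (by linarith only [ht]) fun ζ hζ => ?_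
  rw [abs_of_nonneg (mul_nonneg (h0 ζ) (exp_pos _).le)]
  calc ρ ζ * exp (-t * ζ.re) ≤ K * exp (9 / 8 * ζ.re) * exp (-t * ζ.re) := by
        gcongr
        exact hK ζ hζ
    _ = K * exp (-(t - 9 / 8) * ζ.re) := by
        rw [mul_assoc, ← exp_add]
        congr 2
        ring

theorem e3_int_kt {ρ : ℂ → ℝ} {K τ : ℝ} (hρ : Continuous ρ) (h0 : ∀ ζ, 0 ≤ ρ ζ)
    (hK : ∀ ζ : ℂ, 0 ≤ ζ.re → ρ ζ ≤ K * exp (9 / 8 * ζ.re)) (hτ : 0 < τ) (hτ1 : τ ≤ 1 / 100)
    (z : ℂ) (b : ℝ) : IntegrableOn (fun ζ => ρ ζ * kt τ (z - ζ)) (hstrip 0 b) := by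
  have hc : Continuous fun ζ => ρ ζ * kt τ (z - ζ) :=
    hρ.mul ((continuous_kt hτ).comp (by fun_prop))
  refine Integrable.mono' ((e3_int_exp hρ h0 hK (t := 2) (by norm_num) b).const_mul
    (3 * (1 + 1 / τ) * exp (2 * z.re))) hc.aestronglyMeasurable (Eventually.of_forall fun ζ => ?_)
  have h1 := (abs_kt_le hτ (by linarith only [hτ, hτ1]) (z - ζ)).2
  have e : exp (2 * (z - ζ).re) = exp (2 * z.re) * exp (-2 * ζ.re) := by
    rw [← exp_add, Complex.sub_re]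
    congr 1
    ring
  rw [e] at h1
  rw [Real.norm_eq_abs, abs_mul, abs_of_nonneg (h0 ζ)]
  calc ρ ζ * |kt τ (z - ζ)| ≤ ρ ζ * (3 * (1 + 1 / τ) * (exp (2 * z.re) * exp (-2 * ζ.re))) :=
        mul_le_mul_of_nonneg_left h1 (h0 ζ)
    _ = _ := by ring

theorem e3_trunc {ρ : ℂ → ℝ} {K τ : ℝ} (hρ : Continuous ρ) (h0 : ∀ ζ, 0 ≤ ρ ζ)
    (hp : ∀ z, ρ (z + 2 * π * Complex.I) = ρ z)
    (hK : ∀ ζ : ℂ, 0 ≤ ζ.re → ρ ζ ≤ K * exp (9 / 8 * ζ.re)) (hτ : 0 < τ) (hτ1 : τ ≤ 1 / 100)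
    (z : ℂ) {D : ℝ} (hD : ∀ ζ : ℂ, |ζ.re - z.re| ≤ 1 → ρ ζ ≤ D) :
    ∫ ζ in hstrip 0 0, ρ ζ * kt τ (z - ζ) ≤
      (∫ ζ in hstrip 0 0, ρ ζ * nk (z.re - ζ.re) (z.im - ζ.im)) + 30 * τ ^ 2 * D := by
  have hD0 : 0 ≤ D := (h0 z).trans (hD z (by simp))
  have i1 := e3_int_kt hρ h0 hK hτ hτ1 z
  have i2 : ∀ b, IntegrableOn (fun ζ => ρ ζ * nk (z.re - ζ.re) (z.im - ζ.im)) (hstrip 0 b) :=
    fun b => integrableOn_nk (K := K) hρ.measurable
      (fun ζ hζ => by rw [abs_of_nonneg (h0 ζ)]; exact hK ζ hζ.1) z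
  have i3 : ∀ b, IntegrableOn
      (fun ζ => ρ ζ * kt τ (z - ζ) - ρ ζ * nk (z.re - ζ.re) (z.im - ζ.im)) (hstrip 0 b) :=
    fun b => (i1 b).sub (i2 b)
  have hper : ∀ ζ : ℂ, ρ (ζ + 2 * π * Complex.I) * kt τ (z - (ζ + 2 * π * Complex.I)) -
      ρ (ζ + 2 * π * Complex.I) * nk (z.re - (ζ + 2 * π * Complex.I).re)
        (z.im - (ζ + 2 * π * Complex.I).im) =
      ρ ζ * kt τ (z - ζ) - ρ ζ * nk (z.re - ζ.re) (z.im - ζ.im) := by
    intro ζ
    have e1 : z - (ζ + 2 * π * Complex.I) = z - ζ + ((-1 : ℤ) : ℂ) * (2 * π * Complex.I) := by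
      push_cast
      ring
    have e2 : (ζ + 2 * π * Complex.I).re = ζ.re := by simp
    have e3 : z.im - (ζ + 2 * π * Complex.I).im = z.im - ζ.im + ((-1 : ℤ) : ℝ) * (2 * π) := by
      simp
      ring
    rw [hp, e1, kt_per, e2, e3, nk_per]
  have h1 := shift_strip (P := fun ζ => ρ ζ * kt τ (z - ζ) - ρ ζ * nk (z.re - ζ.re) (z.im - ζ.im))
    hper (i3 0) (i3 (z.im - π))
  have hg : Integrable fun ζ => D * gk (4 * τ) (z - ζ) :=
    ((integrable_gk (4 * τ)).comp_sub_left z).const_mul D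
  have hg0 : ∀ v, 0 ≤ gk (4 * τ) v := fun v => Real.posLog_nonneg
  have hne : ∀ᵐ ζ : ℂ, ζ ≠ z := by simp [ae_iff]
  have h2 : ∫ ζ in hstrip 0 (z.im - π),
      (ρ ζ * kt τ (z - ζ) - ρ ζ * nk (z.re - ζ.re) (z.im - ζ.im)) ≤
      ∫ ζ in hstrip 0 (z.im - π), D * gk (4 * τ) (z - ζ) := by
    refine integral_mono_ae (i3 _) hg.integrableOn ?_
    filter_upwards [ae_restrict_mem (measurableSet_hstrip 0 _), ae_restrict_of_ae hne] with ζ hζ hz
    have him : |(z - ζ).im| ≤ π := by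
      rw [Complex.sub_im, abs_le]
      constructor <;> linarith only [hζ, hζ.2.1, hζ.2.2]
    have h3 := kt_sub hτ hτ1 him (sub_ne_zero.2 hz.symm)
    rw [Complex.sub_re, Complex.sub_im] at h3
    rw [← mul_sub]
    refine (mul_le_mul_of_nonneg_left h3 (h0 ζ)).trans ?_
    by_cases hn : ‖z - ζ‖ ≤ 1
    · refine mul_le_mul_of_nonneg_right (hD ζ ?_) (hg0 _)
      rw [abs_sub_comm, ← Complex.sub_re]
      exact (Complex.abs_re_le_norm _).trans hn
    · have : gk (4 * τ) (z - ζ) = 0 := by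
        push Not at hn
        rw [gk, Real.posLog_eq_zero_iff, abs_of_nonneg (by positivity), div_le_one (by linarith only [hτ, hτ1, hn])]
        linarith
      simp [this]
  have h3 : ∫ ζ in hstrip 0 (z.im - π), D * gk (4 * τ) (z - ζ) ≤ ∫ ζ, D * gk (4 * τ) (z - ζ) :=
    setIntegral_le_integral hg (Eventually.of_forall fun ζ => mul_nonneg hD0 (hg0 _))
  rw [integral_const_mul D, integral_const_mul D,
    integral_sub_left_eq_self (gk (4 * τ)) volume z, integral_gk (by positivity)] at h3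
  rw [integral_const_mul D] at h2
  rw [integral_sub (i1 0) (i2 0)] at h1
  have h4 : D * (π * (4 * τ) ^ 2 / 2) ≤ 30 * τ ^ 2 * D := by
    have : 0 ≤ τ ^ 2 * D := by positivity
    (refine le_of_not_gt fun h_nl => ?_; linarith only [h_nl, this, hτ, hτ1, pi_lt_d2, mul_pos_of_neg_of_neg (Mathlib.Tactic.Linarith.sub_neg_of_lt hτ) (Mathlib.Tactic.Linarith.sub_neg_of_lt h_nl), mul_nonneg_of_nonpos_of_nonpos (Mathlib.Tactic.Linarith.sub_nonpos_of_le hτ1) (le_of_lt (Mathlib.Tactic.Linarith.sub_neg_of_lt h_nl)), mul_nonneg_of_nonpos_of_nonpos (Mathlib.Tactic.Linarith.sub_nonpos_of_le this) (le_of_lt (Mathlib.Tactic.Linarith.sub_neg_of_lt pi_lt_d2))])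
  linarith only [h1, h2, h3, h4]

theorem atomise2 {ρ : ℂ → ℝ} {K τ : ℝ} (hρ : Continuous ρ) (h0 : ∀ ζ, 0 ≤ ρ ζ)
    (hp : ∀ z, ρ (z + 2 * π * Complex.I) = ρ z) (hK : ∀ ζ : ℂ, 0 ≤ ζ.re → ρ ζ ≤ K * exp (9 / 8 * ζ.re))
    (hτ : 0 < τ) (hτ1 : τ ≤ 1 / 100) : ∃ (f : ℂ → ℂ) (C : ℝ), Differentiable ℂ f ∧ f 0 = 1 ∧
      ∀ (z : ℂ) (D : ℝ), (∀ ζ : ℂ, |ζ.re - z.re| ≤ 1 → ρ ζ ≤ D) →
        ‖f (Complex.exp z)‖ ≤ exp ((∫ ζ in hstrip 0 0, ρ ζ * nk (z.re - ζ.re) (z.im - ζ.im)) +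
          30 * τ ^ 2 * D + C * exp z.re) := by
  obtain ⟨Q, p, e, hQm, hQd, hQu, hQp, he, he0, hpe⟩ := exists_cells
  have hsub : ∀ k, Q k ⊆ hstrip 0 0 := fun k => hQu ▸ subset_iUnion Q k
  have hre : ∀ k, ∀ ζ ∈ Q k, 0 ≤ ζ.re := fun k ζ hζ => (hsub k hζ).1
  have h20 : ∀ k, ∀ ζ ∈ Q k, ‖ζ - p k‖ ≤ 20 := by
    intro k ζ hζ
    have h1 : exp (-ζ.re / 4) ≤ 1 := exp_le_one_iff.2 (by linarith only [hre, hζ, hre k ζ hζ])
    linarith only [h1, hQp, hζ, hQp k ζ hζ]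
  have hre2 : ∀ k, ∀ ζ ∈ Q k, ζ.re - (p k).re ≤ 20 := by
    intro k ζ hζ
    have := Complex.re_le_norm (ζ - p k)
    rw [Complex.sub_re] at this
    linarith [h20 k ζ hζ]
  have hiQ : ∀ k, IntegrableOn ρ (Q k) := fun k =>
    (hρ.continuousOn.integrableOn_compact (isCompact_closedBall (p k) 20)).mono_set
      fun ζ hζ => mem_closedBall_iff_norm.2 (h20 k ζ hζ)
  have hS : ∀ F : ℂ → ℝ, IntegrableOn F (hstrip 0 0) →
      HasSum (fun k => ∫ ζ in Q k, F ζ) (∫ ζ in hstrip 0 0, F ζ) := by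
    intro F hF
    have := hasSum_integral_iUnion (μ := volume) (f := F) hQm hQd (by rw [hQu]; exact hF)
    rwa [hQu] at this
  set M : ℕ → ℝ := fun k => ∫ ζ in Q k, ρ ζ with hM
  have hM0 : ∀ k, 0 ≤ M k := fun k => integral_nonneg h0
  have hna : ∀ k, ‖Complex.exp (p k)‖ = exp (p k).re := fun k => Complex.norm_exp _
  have hsum : Summable fun k => ((⌊M k⌋₊ : ℕ) : ℝ) / ‖Complex.exp (p k)‖ ^ 2 := by
    have i1 := (e3_int_exp hρ h0 hK (t := 2) (by norm_num) 0).const_mul (exp 40)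
    refine Summable.of_nonneg_of_le (fun k => by positivity) (fun k => ?_) (hS _ i1).summable
    have e1 : M k / ‖Complex.exp (p k)‖ ^ 2 = ∫ ζ in Q k, ρ ζ * exp (-2 * (p k).re) := by
      rw [integral_mul_const, hna, div_eq_mul_inv, ← exp_nat_mul, ← exp_neg]
      congr 2
      push_cast
      ring
    calc ((⌊M k⌋₊ : ℕ) : ℝ) / ‖Complex.exp (p k)‖ ^ 2 ≤ M k / ‖Complex.exp (p k)‖ ^ 2 := by
          gcongr
          exact Nat.floor_le (hM0 k)
      _ = ∫ ζ in Q k, ρ ζ * exp (-2 * (p k).re) := e1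
      _ ≤ ∫ ζ in Q k, exp 40 * (ρ ζ * exp (-2 * ζ.re)) := by
          refine setIntegral_mono_on ((hiQ k).mul_const _)
            (IntegrableOn.mono_set i1 (hsub k)) (hQm k) fun ζ hζ => ?_
          have h1 : exp (-2 * (p k).re) ≤ exp 40 * exp (-2 * ζ.re) := by
            rw [← exp_add]
            exact exp_le_exp.2 (by linarith only [hre2, hζ, hre2 k ζ hζ])
          calc ρ ζ * exp (-2 * (p k).re) ≤ ρ ζ * (exp 40 * exp (-2 * ζ.re)) :=
                mul_le_mul_of_nonneg_left h1 (h0 ζ)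
            _ = _ := by ring
  obtain ⟨f, hf, hf0, -, hfb⟩ := exists_prod (fun k => Complex.exp (p k)) (fun k => ⌊M k⌋₊)
    (fun k => Complex.exp_ne_zero _) hsum
  have i5 := e3_int_exp hρ h0 hK (t := 5 / 4) (by norm_num) 0
  set A : ℝ := (1 + 1 / τ) * (20 * exp 20) with hA
  refine ⟨f, A * (∫ ζ in hstrip 0 0, ρ ζ * exp (-(5 / 4) * ζ.re)) + (1 + 1 / τ) * ∑' k, e k,
    hf, hf0, fun z D hD => ?_⟩
  have ik := e3_int_kt hρ h0 hK hτ hτ1 z 0
  have iF : IntegrableOn (fun ζ => ρ ζ * kt τ (z - ζ) +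
      A * exp z.re * (ρ ζ * exp (-(5 / 4) * ζ.re))) (hstrip 0 0) :=
    ik.add (i5.const_mul _)
  have hg := (hS _ iF).add (he.hasSum.mul_left ((1 + 1 / τ) * exp z.re))
  have hτ' : 0 < 1 + 1 / τ := by positivity
  refine (hfb (Complex.exp z) _ hg.summable fun k => ?_).trans ?_
  · have h1 := BAtom_factor hτ (z - p k).re (z - p k).im
    rw [Complex.re_add_im, Complex.exp_sub] at h1
    refine (pow_le_pow_left₀ (norm_nonneg _) h1 _).trans ?_
    rw [← exp_nat_mul]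
    refine exp_le_exp.2 ?_
    change (⌊M k⌋₊ : ℝ) * kt τ (z - p k) ≤ _
    rcases (Q k).eq_empty_or_nonempty with hk | hk
    · have : M k = 0 := by simp [hM, hk]
      rw [this, hk]
      simp only [Nat.floor_zero, Nat.cast_zero, zero_mul, Measure.restrict_empty,
        integral_zero_measure, zero_add]
      exact mul_nonneg (by positivity) (he0 k)
    · have h2 : |kt τ (z - p k)| ≤ (1 + 1 / τ) * exp z.re * e k := by
        refine (abs_kt_le hτ (by linarith only [hτ, hτ1]) _).1.trans ?_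
        rw [Complex.sub_re, sub_eq_add_neg, exp_add, ← mul_assoc]
        exact mul_le_mul_of_nonneg_left (hpe k hk) (by positivity)
      have h3 : (⌊M k⌋₊ : ℝ) * kt τ (z - p k) ≤ M k * kt τ (z - p k) + |kt τ (z - p k)| := by
        have a1 := Nat.floor_le (hM0 k)
        have a2 := (Nat.lt_floor_add_one (M k)).le
        have a3 := neg_abs_le (kt τ (z - p k))
        have a4 := abs_nonneg (kt τ (z - p k))
        linarith only [a1, a3, a2, a4, mul_nonneg (sub_nonneg.2 a1) (sub_nonneg.2 a3),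
          mul_nonneg (sub_nonneg.2 a2) a4]
      have h4 : M k * kt τ (z - p k) ≤ ∫ ζ in Q k, (ρ ζ * kt τ (z - ζ) +
          A * exp z.re * (ρ ζ * exp (-(5 / 4) * ζ.re))) := by
        rw [hM, ← integral_mul_const]
        refine setIntegral_mono_on ((hiQ k).mul_const _)
          (IntegrableOn.mono_set iF (hsub k)) (hQm k) fun ζ hζ => ?_
        have b1 := kt_lip hτ (z - p k) (z - ζ)
        have b2 : ‖z - p k - (z - ζ)‖ = ‖ζ - p k‖ := by
          congr 1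
          ring
        have b3 : exp (max (z - p k).re (z - ζ).re) ≤ exp 20 * exp z.re * exp (-ζ.re) := by
          rw [← exp_add, ← exp_add, Complex.sub_re, Complex.sub_re]
          exact exp_le_exp.2 (max_le (by linarith only [hre2, hζ, hre2 k ζ hζ]) (by linarith only [hτ, hτ1]))
        have b4 : exp (-(5 / 4) * ζ.re) = exp (-ζ.re) * exp (-ζ.re / 4) := by
          rw [← exp_add]
          congr 1
          ring
        have b5 : kt τ (z - p k) - kt τ (z - ζ) ≤ A * exp z.re * exp (-(5 / 4) * ζ.re) := by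
          refine ((le_abs_self _).trans b1).trans ?_
          rw [b2]
          calc (1 + 1 / τ) * exp (max (z - p k).re (z - ζ).re) * ‖ζ - p k‖ ≤
                (1 + 1 / τ) * (exp 20 * exp z.re * exp (-ζ.re)) * (20 * exp (-ζ.re / 4)) := by
                gcongr
                exact hQp k ζ hζ
            _ = _ := by rw [b4, hA]; ring
        have b6 := mul_le_mul_of_nonneg_left b5 (h0 ζ)
        linarith only [b6]
      linarith only [h2, h3, h4]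
  · rw [hg.tsum_eq, integral_add ik (i5.const_mul _), integral_const_mul]
    refine exp_le_exp.2 ?_
    have := e3_trunc hρ h0 hp hK hτ hτ1 z hD
    linarith only [this]

end

end Pool.Agent.MinMod.Mo
end

-- merged part: Pool.Agent.Work.MP_f62247_an.Mo.E5
section
/-!
# From the wide subharmonic function to an entire function
`α = L / 2π ∈ [1, 11/10]`, `g z = G (α z)` (`SubOn.scale`), `2π I`-periodic, `|g ζ| ≤ K Φ (α re ζ) ≤ K' exp (9/8 re ζ)` for `re ζ ≥ -1` (`Φ_grow`, `(1 + μ) α ≤ 9/8`). `r = min d 1 / 4`, `ρ = den r g ≥ 0`, `ρ ζ ≤ K'' Φ (α x)` for `|re ζ - x| ≤ 1` (`Φ_le`); `τ` with `30 τ² K'' ≤ ε`.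
`atomise2` and `represent`: `‖f (exp z)‖ ≤ exp (tav r g z + ε Φ (α x) + C exp x)`, and `C exp x ≤ ε Φ (α x)` for large `x` (`LoType.scale`, `α lam > 1`). `tav_le`, `tav_const`: `tav r g z ≤ Bt + ε Φ` for all `θ`, and `≤ -k Bt + ε Φ` for `|θ - im p / α| ≤ r`.
`logM_ge` gives `log M ≥ c Φ (α x)`; `LoType.of_comp`, `order_of_type`; `ratio_le` and `(-k Bt + 3εΦ) / (Bt + 3εΦ) ≤ -k + 36 ε` for `Bt ≥ Φ/4`. Not constant: `f 0 = 1` and `‖f‖ < 1` somewhere.
-/

open Real MeasureTheory Set Filter Topology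

namespace Pool.Agent.MinMod.Mo

noncomputable section

theorem e5_den {g : ℂ → ℝ} (hg : Continuous g) {r A : ℝ} (hr : 0 < r) {ζ : ℂ}
    (h : ∀ w, ‖w - ζ‖ ≤ r → |g w| ≤ A) : den r g ζ ≤ (π * r ^ 2 / 2)⁻¹ * (2 * A) := by
  have h1 : ca g ζ r ≤ ca (fun _ => A) ζ r :=
    ca_le_of_le hr.le (ci_of_cont (Ω := univ) hg.continuousOn hr.le (subset_univ _))
      (ci_of_cont (Ω := univ) continuousOn_const hr.le (subset_univ _))
      fun w hw => (le_abs_self _).trans (h w hw.le)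
  rw [ca, ca, circleAverage_const] at h1
  have h2 := h ζ (by simpa using hr.le)
  have h3 := neg_abs_le (g ζ)
  unfold den
  refine mul_le_mul_of_nonneg_left ?_ (by positivity)
  change circleAverage g ζ r - g ζ ≤ 2 * A
  linarith

theorem e5_grow {F : Frame} {μ α t : ℝ} (hF : F.Good μ) (hμ : μ ≤ 1 / 100) (a1 : 1 ≤ α)
    (a2 : α ≤ 11 / 10) (ht : -1 ≤ t) : F.Φ (α * t) ≤ F.Φ (-2) * exp 4 * exp (9 / 8 * t) := by
  have h1 : -2 ≤ α * t := by linarith only [a2, ht, a1, mul_nonneg_of_nonpos_of_nonpos (Mathlib.Tactic.Linarith.sub_nonpos_of_le a1) (Mathlib.Tactic.Linarith.sub_nonpos_of_le ht)]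
  have h2 := (hF.Φ_grow h1).2
  have h3 : (1 + μ) * (α * t - -2) ≤ 4 + 9 / 8 * t := by
    have : (1 + μ) * (α * t - -2) ≤ 101 / 100 * (α * t - -2) :=
      mul_le_mul_of_nonneg_right (by linarith only [hμ]) (by linarith only [h1])
    linarith only [a1, ht, this, a2, mul_nonneg_of_nonpos_of_nonpos (Mathlib.Tactic.Linarith.sub_nonpos_of_le a2) (Mathlib.Tactic.Linarith.sub_nonpos_of_le ht)]
  calc F.Φ (α * t) ≤ exp (4 + 9 / 8 * t) * F.Φ (-2) :=
        h2.trans (mul_le_mul_of_nonneg_right (exp_le_exp.2 h3) (F.Φ_pos _).le)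
    _ = _ := by rw [exp_add]; ring

theorem e5_small {Φ : ℝ → ℝ} {β C ε : ℝ} (h : LoType Φ β) (h1 : 1 < β) (hε : 0 < ε) :
    ∀ᶠ x in atTop, C * exp x ≤ ε * Φ x := by
  have hσ : 0 < (β - 1) / 2 := by linarith only [h1]
  have h2 : Tendsto (fun x : ℝ => exp ((β - 1) / 2 * x)) atTop atTop :=
    tendsto_exp_atTop.comp (tendsto_id.const_mul_atTop hσ)
  filter_upwards [(h _ hσ).1, h2.eventually_ge_atTop (C / ε)] with x hx h3
  have h4 : exp ((β - (β - 1) / 2) * x) = exp ((β - 1) / 2 * x) * exp x := by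
    rw [← exp_add]; congr 1; ring
  rw [div_le_iff₀ hε] at h3
  calc C * exp x ≤ exp ((β - 1) / 2 * x) * ε * exp x :=
        mul_le_mul_of_nonneg_right h3 (exp_pos _).le
    _ = ε * exp ((β - (β - 1) / 2) * x) := by rw [h4]; ring
    _ ≤ ε * Φ x := mul_le_mul_of_nonneg_left hx hε.le

/-- the entire function with `log ‖f (exp z)‖ ≤ tav r g z + 2 ε Φ (α x)` -/
theorem e5_f {F : Frame} {μ ε α r K β : ℝ} {g : ℂ → ℝ} (hF : F.Good μ) (hμ : μ ≤ 1 / 100)
    (a1 : 1 ≤ α) (a2 : α ≤ 11 / 10) (hc : Continuous g) (hs : SubOn g univ)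
    (hp : ∀ z, g (z + 2 * π * Complex.I) = g z) (hK : ∀ z, |g z| ≤ K * F.Φ (α * z.re))
    (hr : 0 < r) (hr1 : r ≤ 1 / 2) (hε : 0 < ε) (ht : LoType (fun x => F.Φ (α * x)) β)
    (h1 : 1 < β) : ∃ f : ℂ → ℂ, Differentiable ℂ f ∧ f 0 = 1 ∧ ∀ᶠ x : ℝ in atTop, ∀ z : ℂ, z.re = x →
      ‖f (Complex.exp z)‖ ≤ exp (tav r g z + 2 * ε * F.Φ (α * x)) := by
  have K0 : 0 ≤ K := nonneg_of_mul_nonneg_left ((abs_nonneg _).trans (hK 0)) (F.Φ_pos _)
  have c0 : 0 < (π * r ^ 2 / 2)⁻¹ := by positivity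
  have P2 := F.Φ_pos (-2)
  have hK1 : ∀ ζ : ℂ, -1 ≤ ζ.re → |g ζ| ≤ K * (F.Φ (-2) * exp 4) * exp (9 / 8 * ζ.re) := by
    intro ζ hζ
    rw [mul_assoc]
    exact (hK ζ).trans (mul_le_mul_of_nonneg_left (e5_grow hF hμ a1 a2 hζ) K0)
  obtain ⟨C1, hC1⟩ := represent hc hp hr hr1 hK1
  have hre : ∀ w ζ : ℂ, ‖w - ζ‖ ≤ r → |w.re - ζ.re| ≤ 1 / 2 := fun w ζ h =>
    (Frame.f1_re ζ w).trans (h.trans hr1)
  have hρ0 : ∀ ζ, 0 ≤ den r g ζ := fun ζ =>
    mul_nonneg c0.le (sub_nonneg.2 (hs.2 ζ r hr (subset_univ _)))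
  have hρp : ∀ z, den r g (z + 2 * π * Complex.I) = den r g z := by
    intro z
    unfold den
    rw [← ca_shift, hp, funext hp]
  have hρK : ∀ ζ : ℂ, 0 ≤ ζ.re → den r g ζ ≤
      (π * r ^ 2 / 2)⁻¹ * (2 * (K * (F.Φ (-2) * exp 4) * exp 1)) * exp (9 / 8 * ζ.re) := by
    intro ζ hζ
    have := e5_den hc hr (ζ := ζ) (A := K * (F.Φ (-2) * exp 4) * exp 1 * exp (9 / 8 * ζ.re)) (by
      intro w hw
      have h2 := abs_le.1 (hre w ζ hw)
      refine (hK1 w (by linarith only [hr, hr1, hζ, h2])).trans ?_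
      rw [mul_assoc _ (exp 1), ← exp_add]
      exact mul_le_mul_of_nonneg_left (exp_le_exp.2 (by linarith only [hr, hr1, h2])) (by positivity))
    exact this.trans_eq (by ring)
  obtain ⟨K2, K20, hK2⟩ : ∃ K2, 0 ≤ K2 ∧ ∀ (x : ℝ) (ζ : ℂ), |ζ.re - x| ≤ 1 →
      den r g ζ ≤ K2 * F.Φ (α * x) := by
    refine ⟨(π * r ^ 2 / 2)⁻¹ * (2 * (K * exp (2 * 2))), by positivity, fun x ζ hζ => ?_⟩
    have := e5_den hc hr (ζ := ζ) (A := K * (exp (2 * 2) * F.Φ (α * x))) (by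
      intro w hw
      refine (hK w).trans (mul_le_mul_of_nonneg_left (hF.Φ_le (by linarith only [hμ, hr, hr1]) ?_) K0)
      have h2 : |w.re - x| ≤ 3 / 2 := by
        have := abs_sub_le w.re ζ.re x
        linarith only [hζ, this, hre, hw, hre w ζ hw]
      rw [← mul_sub, abs_mul, abs_of_pos (by linarith only [a1, hr, hr1] : 0 < α)]
      linarith only [a2, hr, hr1, h2, a1, abs_nonneg (w.re - x), mul_nonneg_of_nonpos_of_nonpos (Mathlib.Tactic.Linarith.sub_nonpos_of_le a1) (Mathlib.Tactic.Linarith.sub_nonpos_of_le h2)])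
    exact this.trans_eq (by ring)
  obtain ⟨τ, τ0, τ1, hτ⟩ : ∃ τ : ℝ, 0 < τ ∧ τ ≤ 1 / 100 ∧ 30 * τ ^ 2 * K2 ≤ ε := by
    refine ⟨min (1 / 100) (ε / (K2 + 1)), by positivity, min_le_left _ _, ?_⟩
    have h2 : min (1 / 100) (ε / (K2 + 1)) * (K2 + 1) ≤ ε :=
      (le_div_iff₀ (by linarith only [hr, hr1, K20])).1 (min_le_right _ _)
    have h3 : min (1 / 100) (ε / (K2 + 1)) ≤ 1 / 100 := min_le_left _ _
    have h4 : 0 < min (1 / 100) (ε / (K2 + 1)) := by positivity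
    generalize min (1 / 100) (ε / (K2 + 1)) = τ at h2 h3 h4
    (refine le_of_not_gt fun h_nl => ?_; linarith only [h_nl, hr, hr1, hε, h3, h4, h2, mul_nonneg h4.le K20, sq_nonneg τ, mul_pos_of_neg_of_neg (Mathlib.Tactic.Linarith.sub_neg_of_lt hr) (Mathlib.Tactic.Linarith.sub_neg_of_lt h_nl), mul_nonneg_of_nonpos_of_nonpos (Mathlib.Tactic.Linarith.sub_nonpos_of_le hr1) (le_of_lt (Mathlib.Tactic.Linarith.sub_neg_of_lt h_nl)), mul_nonneg_of_nonpos_of_nonpos (le_of_lt (Mathlib.Tactic.Linarith.sub_neg_of_lt hε)) (Mathlib.Tactic.Linarith.sub_nonpos_of_le h3), mul_pos_of_neg_of_neg (Mathlib.Tactic.Linarith.sub_neg_of_lt hε) (Mathlib.Tactic.Linarith.sub_neg_of_lt h4), mul_nonneg_of_nonpos_of_nonpos (Mathlib.Tactic.Linarith.sub_nonpos_of_le h2) (le_of_lt (Mathlib.Tactic.Linarith.sub_neg_of_lt h4))])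
  obtain ⟨f, C2, hf, hf0, hb⟩ := atomise2 (continuous_den hc r) hρ0 hρp hρK τ0 τ1
  refine ⟨f, hf, hf0, ?_⟩
  filter_upwards [e5_small (C := C1 + C2) ht h1 hε, eventually_ge_atTop 2] with x hx h2 z hz
  subst hz
  refine (hb z _ (hK2 z.re)).trans (exp_le_exp.2 ?_)
  have h3 := (abs_le.1 (hC1 z h2)).2
  have h4 : 30 * τ ^ 2 * (K2 * F.Φ (α * z.re)) ≤ ε * F.Φ (α * z.re) := by
    rw [← mul_assoc]
    exact mul_le_mul_of_nonneg_right hτ (F.Φ_pos _).le
  linarith only [hx, h3, h4]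

theorem realise {F : Frame} {μ k ε L x0 lam : ℝ} {G : ℂ → ℝ} (hF : F.Good μ) (hμ : μ ≤ 1 / 100)
    (hG : Wide F k ε L x0 G) (hL : 2 * π ≤ L) (hL1 : L ≤ 11 / 10 * (2 * π)) (hk : 1 ≤ k) (hk2 : k ≤ 2)
    (hε : 0 < ε) (hε1 : ε ≤ 1 / 100) (ht : LoType F.Φ lam) (h1 : 1 < L / (2 * π) * lam) :
    ∃ f : ℂ → ℂ, Differentiable ℂ f ∧ (∃ z w, f z ≠ f w) ∧
      lowerOrder f = ((L / (2 * π) * lam : ℝ) : EReal) ∧
      ∀ᶠ r in atTop, modRatio f r ≤ ((-k + 40 * ε : ℝ) : EReal) := by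
  have hπ := pi_pos
  obtain ⟨α, hα⟩ : ∃ α, α = L / (2 * π) := ⟨_, rfl⟩
  rw [← hα] at h1 ⊢
  have hL' : L = α * (2 * π) := by rw [hα]; field_simp
  have a1 : 1 ≤ α := by rw [hα, le_div_iff₀ (by positivity)]; linarith only [hL]
  have a2 : α ≤ 11 / 10 := by rw [hα, div_le_iff₀ (by positivity)]; linarith only [hL1]
  have a0 : 0 < α := by linarith only [hε, hε1, a1]
  obtain ⟨K, hK⟩ := hG.bd
  obtain ⟨Bt, d, d0, hcov⟩ := hG.cov
  obtain ⟨r, hr, hr1, hrd⟩ : ∃ r : ℝ, 0 < r ∧ r ≤ 1 / 2 ∧ 4 * r ≤ d :=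
    ⟨min d 1 / 4, by positivity, by linarith only [hε, hε1, min_le_right d 1], by linarith only [min_le_left d 1]⟩
  have hc : Continuous fun z : ℂ => G (α * z) := hG.cont.comp (continuous_const.mul continuous_id)
  have hsc := ht.scale a0
  obtain ⟨f, hf, hf0, hb⟩ := e5_f (K := K) hF hμ a1 a2 hc (hG.sub.scale a0) (fun z => by
    rw [← hG.per (α * z), hL']; congr 1; push_cast; ring)
    (fun z => by simpa using hK (α * z)) hr hr1 hε hsc h1
  have key : ∀ᶠ x : ℝ in atTop, ∃ θ0 N P : ℝ, F.Φ (α * x) / 5 ≤ N ∧ 0 < P ∧ P ≤ 3 * F.Φ (α * x) ∧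
      -N ≤ (-k + 40 * ε) * P ∧ (∀ θ : ℝ, ‖f (Complex.exp (x + θ * Complex.I))‖ ≤ exp P) ∧
      ∀ θ : ℝ, |θ - θ0| ≤ r → ‖f (Complex.exp (x + θ * Complex.I))‖ ≤ exp (-N) := by
    filter_upwards [hb, eventually_ge_atTop x0, eventually_ge_atTop 0] with x hx hx0 hx1
    obtain ⟨b1, b2, b3, p, hp, b4⟩ := hcov (α * x) (by (refine le_of_not_gt fun h_nl => ?_; linarith only [h_nl, hL, hx0, hx1, hL1, hπ, hL', mul_nonneg_of_nonpos_of_nonpos (Mathlib.Tactic.Linarith.sub_nonpos_of_le hL) (Mathlib.Tactic.Linarith.sub_nonpos_of_le hx0), mul_nonneg_of_nonpos_of_nonpos (Mathlib.Tactic.Linarith.sub_nonpos_of_le hL) (Mathlib.Tactic.Linarith.sub_nonpos_of_le hx1), mul_nonneg_of_nonpos_of_nonpos (Mathlib.Tactic.Linarith.sub_nonpos_of_le hL1) (Mathlib.Tactic.Linarith.sub_nonpos_of_le hx0), mul_pos_of_neg_of_neg (Mathlib.Tactic.Linarith.sub_neg_of_lt hπ) (Mathlib.Tactic.Linarith.sub_neg_of_lt h_nl), Mathlib.Tactic.Linarith.zero_mul_eq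 (sub_eq_zero_of_eq hL') (Mathlib.Tactic.Linarith.sub_nonpos_of_le hx1)]))
    have P0 := F.Φ_pos (α * x)
    have e1 : ε * F.Φ (α * x) ≤ 1 / 100 * F.Φ (α * x) := mul_le_mul_of_nonneg_right hε1 P0.le
    have e0 := mul_pos hε P0
    refine ⟨p.im / α, k * Bt (α * x) - 3 * ε * F.Φ (α * x), Bt (α * x) + 3 * ε * F.Φ (α * x),
      by linarith only [b1, e1, e0, hk, b2, mul_nonneg_of_nonpos_of_nonpos (Mathlib.Tactic.Linarith.sub_nonpos_of_le hk) (Mathlib.Tactic.Linarith.sub_nonpos_of_le b1), mul_nonneg_of_nonpos_of_nonpos (Mathlib.Tactic.Linarith.sub_nonpos_of_le hk) (Mathlib.Tactic.Linarith.sub_nonpos_of_le b2)], by linarith only [b1, e1, e0], by linarith only [b2, e1, e0], ?_, fun θ => ?_, fun θ hθ => ?_⟩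
    · have e2 := mul_le_mul_of_nonneg_left b1 hε.le
      have e3 := mul_le_mul_of_nonneg_right hk2 e0.le
      linarith only [e0, e2, e3, hε, mul_pos hε e0]
    · refine (hx _ (by simp)).trans (exp_le_exp.2 ?_)
      have := tav_le hc (g := fun _ => Bt (α * x) + ε * F.Φ (α * x)) continuous_const hr
        (z := x + θ * Complex.I) fun w hw => b3 _ (by
          have h2 := (Frame.f1_re _ _).trans hw
          have h3 : ((α : ℂ) * w).re - α * x = α * (w.re - (x + θ * Complex.I : ℂ).re) := by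
            simp; ring
          rw [h3, abs_mul, abs_of_pos a0]
          (refine le_of_not_gt fun h_nl => ?_; linarith only [h_nl, hL, hrd, h2, hL1, d0, hπ, hr, hL', abs_nonneg (w.re - (x + θ * Complex.I : ℂ).re), mul_nonneg_of_nonpos_of_nonpos (Mathlib.Tactic.Linarith.sub_nonpos_of_le hL) (Mathlib.Tactic.Linarith.sub_nonpos_of_le hrd), mul_nonneg_of_nonpos_of_nonpos (Mathlib.Tactic.Linarith.sub_nonpos_of_le hL) (Mathlib.Tactic.Linarith.sub_nonpos_of_le h2), mul_nonneg_of_nonpos_of_nonpos (Mathlib.Tactic.Linarith.sub_nonpos_of_le hL1) (le_of_lt (Mathlib.Tactic.Linarith.sub_neg_of_lt d0)), mul_nonneg_of_nonpos_of_nonpos (Mathlib.Tactic.Linarith.sub_nonpos_of_le hL1) (Mathlib.Tactic.Linarith.sub_nonpos_of_le hrd), mul_nonneg_of_nonpos_of_nonpos (Mathlib.Tactic.Linarith.sub_nonpos_of_le hL1) (Mathlib.Tactic.Linarith.sub_nonpos_of_le h2), mul_pos_of_neg_of_neg (Mathlib.Tactic.Linarith.sub_neg_of_lt hπ)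 (Mathlib.Tactic.Linarith.sub_neg_of_lt hr), mul_pos_of_neg_of_neg (Mathlib.Tactic.Linarith.sub_neg_of_lt hπ) (Mathlib.Tactic.Linarith.sub_neg_of_lt h_nl), Mathlib.Tactic.Linarith.zero_mul_eq (sub_eq_zero_of_eq hL') (Mathlib.Tactic.Linarith.sub_neg_of_lt hr), Mathlib.Tactic.Linarith.zero_mul_eq (sub_eq_zero_of_eq hL') (Mathlib.Tactic.Linarith.sub_nonpos_of_le h2)]))
      rw [tav_const hr] at this
      linarith only [this]
    · refine (hx _ (by simp)).trans (exp_le_exp.2 ?_)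
      have := tav_le hc (g := fun _ => -k * Bt (α * x) + ε * F.Φ (α * x)) continuous_const hr
        (z := x + θ * Complex.I) fun w hw => b4 _ (by
          have h3 : (α : ℂ) * w - p =
              α * ((w - (x + θ * Complex.I)) + ((θ - p.im / α : ℝ) : ℂ) * Complex.I) := by
            apply Complex.ext
            · simp [hp]; ring
            · simp; field_simp
          have h4 := norm_add_le (w - (x + θ * Complex.I)) (((θ - p.im / α : ℝ) : ℂ) * Complex.I)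
          rw [norm_mul, Complex.norm_I, Complex.norm_real, Real.norm_eq_abs] at h4
          rw [h3, norm_mul, Complex.norm_real, Real.norm_eq_abs, abs_of_pos a0]
          (refine le_of_not_gt fun h_nl => ?_; linarith only [h_nl, hL, hrd, hθ, hw, h4, hL1, d0, hπ, hr, hL', norm_nonneg (w - (x + θ * Complex.I) + ((θ - p.im / α : ℝ) : ℂ) * Complex.I), mul_nonneg_of_nonpos_of_nonpos (Mathlib.Tactic.Linarith.sub_nonpos_of_le hL) (Mathlib.Tactic.Linarith.sub_nonpos_of_le hrd), mul_nonneg_of_nonpos_of_nonpos (Mathlib.Tactic.Linarith.sub_nonpos_of_le hL) (Mathlib.Tactic.Linarith.sub_nonpos_of_le hθ), mul_nonneg_of_nonpos_of_nonpos (Mathlib.Tactic.Linarith.sub_nonpos_of_le hL) (Mathlib.Tactic.Linarith.sub_nonpos_of_le hw), mul_nonneg_of_nonpos_of_nonpos (Mathlib.Tactic.Linarith.sub_nonpos_of_le hL) (Mathlib.Tactic.Linarith.sub_nonpos_of_le h4), mul_nonneg_of_nonpos_of_nonpos (Mathlib.Tactic.Linarith.sub_nonpos_of_le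 hL1) (le_of_lt (Mathlib.Tactic.Linarith.sub_neg_of_lt d0)), mul_nonneg_of_nonpos_of_nonpos (Mathlib.Tactic.Linarith.sub_nonpos_of_le hL1) (Mathlib.Tactic.Linarith.sub_nonpos_of_le hrd), mul_nonneg_of_nonpos_of_nonpos (Mathlib.Tactic.Linarith.sub_nonpos_of_le hL1) (Mathlib.Tactic.Linarith.sub_nonpos_of_le hθ), mul_nonneg_of_nonpos_of_nonpos (Mathlib.Tactic.Linarith.sub_nonpos_of_le hL1) (Mathlib.Tactic.Linarith.sub_nonpos_of_le hw), mul_nonneg_of_nonpos_of_nonpos (Mathlib.Tactic.Linarith.sub_nonpos_of_le hL1) (Mathlib.Tactic.Linarith.sub_nonpos_of_le h4), mul_pos_of_neg_of_neg (Mathlib.Tactic.Linarith.sub_neg_of_lt hπ) (Mathlib.Tactic.Linarith.sub_neg_of_lt hr), mul_pos_of_neg_of_neg (Mathlib.Tactic.Linarith.sub_neg_of_lt hπ) (Mathlib.Tactic.Linarith.sub_neg_of_lt h_nl), Mathlib.Tactic.Linarith.zero_mul_eq (sub_eq_zero_of_eq hL') (Mathlib.Tactic.Linarith.sub_neg_of_lt hr), Mathlib.Tactic.Linarith.zero_mul_eq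 (sub_eq_zero_of_eq hL') (Mathlib.Tactic.Linarith.sub_nonpos_of_le hθ), Mathlib.Tactic.Linarith.zero_mul_eq (sub_eq_zero_of_eq hL') (Mathlib.Tactic.Linarith.sub_nonpos_of_le hw), Mathlib.Tactic.Linarith.zero_mul_eq (sub_eq_zero_of_eq hL') (Mathlib.Tactic.Linarith.sub_nonpos_of_le h4)]))
      rw [tav_const hr] at this
      linarith only [this]
  have key2 : ∀ᶠ x : ℝ in atTop, (r / (5 * π) * F.Φ (α * x) ≤ Real.log (maxMod f (exp x)) ∧
      Real.log (maxMod f (exp x)) ≤ 3 * F.Φ (α * x)) ∧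
      modRatio f (exp x) ≤ ((-k + 40 * ε : ℝ) : EReal) := by
    filter_upwards [key] with x ⟨θ0, N, P, c1, c2, c3, c4, c5, c6⟩
    have P0 := F.Φ_pos (α * x)
    have l1 : r / (5 * π) * F.Φ (α * x) ≤ Real.log (maxMod f (exp x)) := by
      refine le_trans ?_ (logM_ge hf hf0 hr (by linarith only [hε, hε1, hr1]) c6)
      calc r / (5 * π) * F.Φ (α * x) = r * (F.Φ (α * x) / 5) / π := by field_simp
        _ ≤ r * N / π := by gcongr
    have M1 : 1 ≤ maxMod f (exp x) := by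
      simpa [hf0] using FinA_le_maxMod hf (x := x) (w := 0) (by simpa using (exp_pos x).le)
    refine ⟨⟨l1, ?_⟩, ?_⟩
    · obtain ⟨θ, hθ⟩ := (exists_maxMod hf.continuous x).1
      refine le_trans ((Real.log_le_iff_le_exp (by linarith only [hε, hε1, M1])).2 ?_) c3
      rw [hθ]; exact c5 θ
    · refine (ratio_le hf.continuous (by linarith only [c1, P0]) (lt_of_lt_of_le (by positivity) l1) c5
        (c6 θ0 (by simpa using hr.le))).trans (EReal.coe_le_coe_iff.2 ?_)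
      rwa [div_le_iff₀ c2]
  refine ⟨f, hf, ?_, order_of_type (hsc.of_comp (by positivity) (by norm_num)
    (key2.mono fun x hx => hx.1)), ?_⟩
  · obtain ⟨x, θ0, N, P, c1, -, -, -, -, c6⟩ := key.exists
    refine ⟨0, Complex.exp (x + θ0 * Complex.I), fun h => ?_⟩
    have h2 := c6 θ0 (by simpa using hr.le)
    rw [← h, hf0, norm_one, one_le_exp_iff] at h2
    linarith only [c1, h2, F.Φ_pos (α * x)]
  · filter_upwards [tendsto_log_atTop.eventually key2, eventually_gt_atTop 0] with t h h0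
    rw [exp_log h0] at h
    exact h.2

end

end Pool.Agent.MinMod.Mo
end
end
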