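import Pool.Agent.Work.MP_f62247_an.Mo.E5
import Pool.Agent.Work.MP_f62247_an.Mo.K3

-- merged part: Pool.Agent.Work.MP_f62247_an.Mo.J4
section
-- merged part: Pool.Agent.Work.MP_f62247_an.Mo.J3
section
/-!
# The auxiliary atoms: geometric sums
`γ = 2 - 1/N`, atom `i` has weight `exp (-γ i)` and is seen at `τ = i - y`. For `i ≤ y`: `exp (-γ i) exp (2 (i - y)) = exp (-γ y) exp (-(y - i)/N)`, and `∑_j exp (-j/N) ≤ 1/(1 - exp (-1/N)) ≤ 2 N`. For `i > y - 1`: `exp (-γ i) exp (i - y) = exp (-γ y) exp (-(γ - 1)(i - y))`, `γ - 1 ≥ 1/2`, the sum is `≤ 8 exp (-γ y)`.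
`nk_aligned`: `nk s φ = Re (log (1 - u) + u)`, `u = exp (s + iφ)`, `‖log (1-u) + u + u²/2‖ ≤ ‖u‖³ / (3 (1 - ‖u‖))` (`Complex.norm_log_sub_logTaylor_le` or `norm_log_one_sub_inv_add_logTaylor_neg_le`), `Re u² = exp (2s) (1 - 2 sin² φ)`.
`aux_neg`: `y - N ≤ i ≤ y - 1` are at least `N - 1` aligned terms, each `≤ - exp (-γ y) exp (-1) / 20`; the other aligned terms are `≤ 0`; `i < y - 10 N`: `nk_le`; `i > y - 1`: `nk ≤ 3 exp τ` (`lg_le`).
-/

open Real MeasureTheory Set Filter Topology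

namespace Pool.Agent.MinMod.Mo

noncomputable section

def gam (N : ℕ) : ℝ := 2 - 1 / N

theorem nk_aligned {s φ : ℝ} (hs : s ≤ -1) (hφ : |sin φ| ≤ 1 / 4) : nk s φ ≤ -exp (2 * s) / 20 := by
  obtain ⟨u, hu⟩ : ∃ u, u = Complex.exp (s + φ * Complex.I) := ⟨_, rfl⟩
  have hre : u.re = exp s * cos φ := by simp [hu, Complex.exp_re]
  have him : u.im = exp s * sin φ := by simp [hu, Complex.exp_im]
  have hn : ‖-u‖ = exp s := by simp [hu, Complex.norm_exp]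
  have hr := exp_pos s
  have hr1 : exp s ≤ 2 / 5 := by
    have h1 : exp s * exp 1 ≤ 1 := by
      rw [← exp_add]
      exact exp_le_one_iff.2 (by linarith only [hs])
    linarith only [hr, h1, exp_one_gt_d9, mul_pos_of_neg_of_neg (Mathlib.Tactic.Linarith.sub_neg_of_lt hr) (Mathlib.Tactic.Linarith.sub_neg_of_lt exp_one_gt_d9)]
  have h1 := (Complex.re_le_norm _).trans
    (Complex.norm_log_sub_logTaylor_le 2 (z := -u) (by rw [hn]; linarith only [hr, hr1]))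
  have h2 : (Complex.logTaylor (2 + 1) (-u)).re = -u.re - (u.re ^ 2 - u.im ^ 2) / 2 := by
    have : Complex.logTaylor (2 + 1) (-u) = -u - u * u * (1 / 2 : ℝ) := by
      simp [Complex.logTaylor, Finset.sum_range_succ]
      ring
    rw [this, Complex.sub_re, Complex.neg_re, Complex.re_mul_ofReal, Complex.mul_re]
    ring
  rw [Complex.sub_re, Complex.log_re, h2, hn, hre, him, ← sub_eq_add_neg] at h1
  have h3 : exp s ^ (2 + 1) * (1 - exp s)⁻¹ / ((2 : ℕ) + 1) ≤ exp s ^ 2 / 4 := by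
    have : (1 - exp s)⁻¹ ≤ 5 / 3 := by
      rw [inv_le_comm₀ (by linarith only [hr, hr1]) (by norm_num)]
      linarith only [hr1]
    have h4 : exp s * (1 - exp s)⁻¹ ≤ 2 / 5 * (5 / 3) :=
      mul_le_mul hr1 this (inv_nonneg.2 (by linarith only [hr, hr1])) (by norm_num)
    have h5 := mul_le_mul_of_nonneg_left h4 (sq_nonneg (exp s))
    push_cast
    linarith only [h5, sq_nonneg (exp s), sq_nonneg (rexp s)]
  have h4 : sin φ ^ 2 ≤ 1 / 16 := by linarith only [hφ, sq_abs (sin φ), abs_nonneg (sin φ), mul_nonneg_of_nonpos_of_nonpos (Mathlib.Tactic.Linarith.sub_nonpos_of_le hφ) (Mathlib.Tactic.Linarith.sub_nonpos_of_le (abs_nonneg (sin φ)))]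
  have h5 := mul_le_mul_of_nonneg_left h4 (sq_nonneg (exp s))
  have h6 : exp (2 * s) = exp s ^ 2 := by rw [← exp_nat_mul]; norm_num
  have h7 : (exp s * cos φ) ^ 2 = exp s ^ 2 - exp s ^ 2 * sin φ ^ 2 := by
    rw [mul_pow, cos_sq']
    ring
  rw [nk, lg, ← hu, h6]
  linarith only [h1, h3, h5, h7, sq_nonneg (exp s), sq_nonneg (rexp s * cos φ)]

theorem j3_geom {a : ℝ} (ha : 0 < a) (S : Finset ℕ) (d : ℕ → ℕ) (hd : Set.InjOn d S) (f : ℕ → ℝ)
    (h : ∀ i ∈ S, (d i : ℝ) ≤ f i) : ∑ i ∈ S, exp (-a * f i) ≤ 1 + 1 / a := by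
  have h0 := (exp_pos (-a)).le
  have h1 : exp (-a) < 1 := exp_lt_one_iff.2 (by linarith)
  calc ∑ i ∈ S, exp (-a * f i) ≤ ∑ i ∈ S, exp (-a) ^ d i := by
        refine Finset.sum_le_sum fun i hi => ?_
        rw [← exp_nat_mul]
        exact exp_le_exp.2 (by linarith only [ha, h, hi, h i hi, mul_nonneg_of_nonpos_of_nonpos (le_of_lt (Mathlib.Tactic.Linarith.sub_neg_of_lt ha)) (Mathlib.Tactic.Linarith.sub_nonpos_of_le (h i hi))])
    _ = ∑ j ∈ S.image d, exp (-a) ^ j := (Finset.sum_image hd).symm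
    _ ≤ (1 - exp (-a))⁻¹ :=
        sum_le_hasSum _ (fun _ _ => by positivity) (hasSum_geometric_of_lt_one h0 h1)
    _ ≤ 1 + 1 / a := by
        have h2 : exp (-a) * (a + 1) ≤ 1 := by
          refine (mul_le_mul_of_nonneg_left (add_one_le_exp a) h0).trans_eq ?_
          rw [← exp_add, neg_add_cancel, exp_zero]
        rw [inv_eq_one_div, div_le_iff₀ (by linarith)]
        have h3 : (1 + 1 / a) * (1 - exp (-a)) = 1 + (1 - exp (-a) * (a + 1)) / a := by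
          field_simp
          ring
        have h4 : 0 ≤ (1 - exp (-a) * (a + 1)) / a := div_nonneg (by linarith) ha.le
        linarith only [h3, h4]

theorem j3_left {a : ℝ} (ha : 0 < a) (S : Finset ℕ) (y : ℝ) (h : ∀ i ∈ S, (i : ℝ) ≤ y) :
    ∑ i ∈ S, exp (-a * (y - i)) ≤ 1 + 1 / a := by
  have k : ∀ i ∈ S, i ≤ ⌊y⌋₊ := fun i hi => Nat.le_floor (h i hi)
  refine j3_geom ha S (fun i => ⌊y⌋₊ - i) (fun i hi j hj e => ?_) _ fun i hi => ?_
  · have := k i hi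
    have := k j hj
    beta_reduce at e
    omega
  · rw [Nat.cast_sub (k i hi)]
    linarith [Nat.floor_le (i.cast_nonneg.trans (h i hi))]

theorem j3_right {a : ℝ} (ha : 0 < a) (S : Finset ℕ) (y : ℝ) (h : ∀ i ∈ S, y ≤ i) :
    ∑ i ∈ S, exp (-a * (i - y)) ≤ 1 + 1 / a := by
  have k : ∀ i ∈ S, ⌈y⌉₊ ≤ i := fun i hi => Nat.ceil_le.2 (h i hi)
  refine j3_geom ha S (fun i => i - ⌈y⌉₊) (fun i hi j hj e => ?_) _ fun i hi => ?_
  · have := k i hi
    have := k j hj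
    beta_reduce at e
    omega
  · rw [Nat.cast_sub (k i hi)]
    linarith [Nat.le_ceil y]

theorem j3_gam {N : ℕ} (hN : 2 ≤ N) : 3 / 2 ≤ gam N ∧ gam N ≤ 2 := by
  have h2 : (2 : ℝ) ≤ N := by exact_mod_cast hN
  have h3 : 1 / (N : ℝ) ≤ 1 / 2 := one_div_le_one_div_of_le two_pos h2
  have h4 : 0 ≤ 1 / (N : ℝ) := by positivity
  unfold gam
  constructor <;> linarith only [h3, h4]

theorem j3_id (N : ℕ) (x y : ℝ) :
    exp (-gam N * x) * exp (2 * (x - y)) = exp (-(y - x) / N) * exp (-gam N * y) := by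
  rw [← exp_add, ← exp_add, gam]
  congr 1
  ring

theorem j3_exp {s : ℝ} (hs : -1 ≤ s) : 1 / 3 < exp s := by
  have h1 : 1 ≤ exp s * exp 1 := by
    rw [← exp_add]
    exact one_le_exp (by linarith)
  linarith only [h1, exp_one_lt_d9, exp_pos s, mul_pos_of_neg_of_neg (Mathlib.Tactic.Linarith.sub_neg_of_lt exp_one_lt_d9) (Mathlib.Tactic.Linarith.sub_neg_of_lt (exp_pos s))]

theorem j3_L {N : ℕ} (hN : 2 ≤ N) (S : Finset ℕ) (y z : ℝ) (h : ∀ i ∈ S, (i : ℝ) ≤ z) :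
    ∑ i ∈ S, exp (-gam N * i) * exp (2 * (i - y)) ≤
      exp (-(y - z) / N) * (1 + N) * exp (-gam N * y) := by
  have h2 : (0 : ℝ) < N := by exact_mod_cast (by omega)
  have h1 := j3_left (a := 1 / N) (by positivity) S z h
  rw [one_div_one_div] at h1
  refine le_trans (le_of_eq ?_) (mul_le_mul_of_nonneg_right
    (mul_le_mul_of_nonneg_left h1 (exp_pos _).le) (exp_pos _).le)
  rw [Finset.mul_sum, Finset.sum_mul]
  refine Finset.sum_congr rfl fun i _ => ?_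
  rw [j3_id, ← exp_add (-(y - z) / N)]
  congr 2
  ring

theorem j3_R {N : ℕ} (hN : 2 ≤ N) (S : Finset ℕ) (y : ℝ) (h : ∀ i ∈ S, y - 1 ≤ i) :
    ∑ i ∈ S, exp (-gam N * i) * exp (i - y) ≤ 9 * exp (-gam N * y) := by
  obtain ⟨g1, g2⟩ := j3_gam hN
  have h1 := j3_right (a := 1 / 2) (by norm_num) S (y - 1) h
  refine le_trans (Finset.sum_le_sum (g := fun i : ℕ =>
    exp (-(1 / 2) * (i - (y - 1))) * (3 * exp (-gam N * y))) fun i hi => ?_) ?_
  · have h3 : exp 1 ≤ 3 := by linarith only [exp_one_lt_d9]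
    refine le_trans ?_ (mul_le_mul_of_nonneg_left
      (mul_le_mul_of_nonneg_right h3 (exp_pos _).le) (exp_pos _).le)
    rw [← exp_add, ← exp_add, ← exp_add]
    refine exp_le_exp.2 ?_
    linarith only [g2, g1, h, hi, mul_nonneg (sub_nonneg.2 g1) (sub_nonneg.2 (h i hi))]
  · rw [← Finset.sum_mul]
    linarith only [h1, exp_pos (-gam N * y), mul_nonneg_of_nonpos_of_nonpos (Mathlib.Tactic.Linarith.sub_nonpos_of_le h1) (le_of_lt (Mathlib.Tactic.Linarith.sub_neg_of_lt (exp_pos (-gam N * y))))]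

theorem j3_split {N : ℕ} (hN : 2 ≤ N) (S : Finset ℕ) (y : ℝ) {A B : ℝ} (hA : 0 ≤ A) (hB : 0 ≤ B)
    {f : ℕ → ℝ} (hl : ∀ i ∈ S, (i : ℝ) ≤ y - 1 → f i ≤ A * exp (2 * (i - y)))
    (hr : ∀ i ∈ S, y - 1 < i → f i ≤ B * exp (i - y)) :
    ∑ i ∈ S, exp (-gam N * i) * f i ≤ (A * (1 + N) + 9 * B) * exp (-gam N * y) := by
  have k1 := mul_le_mul_of_nonneg_left (j3_L hN (S.filter fun i : ℕ => (i : ℝ) ≤ y - 1) y y
    fun i hi => by linarith only [hi, (Finset.mem_filter.1 hi).2]) hA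
  have k2 := mul_le_mul_of_nonneg_left (j3_R hN (S.filter fun i : ℕ => ¬(i : ℝ) ≤ y - 1) y
    fun i hi => (not_le.1 (Finset.mem_filter.1 hi).2).le) hB
  rw [sub_self, neg_zero, zero_div, exp_zero, one_mul, Finset.mul_sum] at k1
  rw [Finset.mul_sum] at k2
  rw [← Finset.sum_filter_add_sum_filter_not S fun i : ℕ => (i : ℝ) ≤ y - 1]
  refine (add_le_add ((Finset.sum_le_sum fun i hi => ?_).trans k1)
    ((Finset.sum_le_sum fun i hi => ?_).trans k2)).trans_eq (by ring)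
  · obtain ⟨a1, a2⟩ := Finset.mem_filter.1 hi
    exact (mul_le_mul_of_nonneg_left (hl i a1 a2) (exp_pos _).le).trans_eq (by ring)
  · obtain ⟨a1, a2⟩ := Finset.mem_filter.1 hi
    exact (mul_le_mul_of_nonneg_left (hr i a1 (not_le.1 a2)) (exp_pos _).le).trans_eq (by ring)

theorem j3_w0 (s : ℝ) : w0 s ≤ exp s := by
  rcases le_total 0 s with h | h
  · rw [w0_of_nonneg h]
    linarith only [add_one_le_exp s]
  · rw [w0_of_nonpos h]
    exact exp_le_exp.2 (by linarith)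

theorem j3_nk {s : ℝ} (hs : -1 ≤ s) (φ : ℝ) : nk s φ ≤ 4 * exp s := by
  have h1 := lg_le s φ
  have h2 := mul_le_mul_of_nonneg_left (cos_le_one φ) (exp_pos s).le
  have h3 := log_two_lt_d9
  have h4 := j3_exp hs
  have h5 := add_one_le_exp s
  rw [nk]
  rcases le_total 0 s with h | h
  · rw [max_eq_left h] at h1
    linarith only [h1, h2, h3, h5, h]
  · rw [max_eq_right h] at h1
    linarith only [h1, h2, h3, h4]

theorem aux_W {N : ℕ} (hN : 2 ≤ N) (T : ℕ) {y : ℝ} (hy : -1 ≤ y) :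
    ∑ i ∈ Finset.Ico 1 T, exp (-gam N * i) * w0 (i - y) ≤ 20 * N * exp (-gam N * y) := by
  have h2 : (2 : ℝ) ≤ N := by exact_mod_cast hN
  refine (j3_split hN _ y zero_le_one zero_le_one (fun i _ h => ?_) fun i _ _ => ?_).trans ?_
  · rw [w0_of_nonpos (by linarith only [h]), one_mul]
  · rw [one_mul]
    exact j3_w0 _
  · exact mul_le_mul_of_nonneg_right (by linarith) (exp_pos _).le

theorem aux_W0 {N : ℕ} (hN : 2 ≤ N) (T : ℕ) : ∑ i ∈ Finset.Ico 1 T, exp (-gam N * i) * w0 i ≤ 10 := by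
  refine le_trans (Finset.sum_le_sum fun i _ => ?_)
    ((j3_R hN (Finset.Ico 1 T) 0 fun i _ => by linarith only [i.cast_nonneg (α := ℝ)]).trans (by simp; norm_num))
  rw [sub_zero]
  exact mul_le_mul_of_nonneg_left (j3_w0 _) (exp_pos _).le

theorem aux_C {N : ℕ} (hN : 2 ≤ N) (T : ℕ) (y : ℝ) :
    ∑ i ∈ (Finset.Ico 1 T).filter (fun i : ℕ => y < i), exp (-gam N * i) * exp i ≤
      3 * exp (-(gam N - 1) * y) := by
  have hg := (j3_gam hN).1
  have h1 := j3_right (a := gam N - 1) (by linarith only [hg])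
    ((Finset.Ico 1 T).filter (fun i : ℕ => y < i)) y fun i hi => (Finset.mem_filter.1 hi).2.le
  have h2 : 1 / (gam N - 1) ≤ 2 := by
    rw [div_le_iff₀ (by linarith only [hg])]
    linarith only [hg]
  refine le_trans (le_of_eq ?_) (mul_le_mul_of_nonneg_right (h1.trans (by linarith only [h2])) (exp_pos _).le)
  rw [Finset.sum_mul]
  refine Finset.sum_congr rfl fun i _ => ?_
  rw [← exp_add, ← exp_add]
  congr 1
  ring

theorem aux_any {N : ℕ} (hN : 2 ≤ N) (T : ℕ) (y : ℝ) (φ : ℕ → ℝ) :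
    ∑ i ∈ Finset.Ico 1 T, exp (-gam N * i) * nk (i - y) (φ i) ≤ 20 * N * exp (-gam N * y) := by
  have h2 : (2 : ℝ) ≤ N := by exact_mod_cast hN
  refine (j3_split hN _ y zero_le_one (B := 4) (by norm_num) (fun i _ h => ?_)
    fun i _ h => j3_nk (by linarith only [h]) _).trans ?_
  · linarith only [h, nk_le (s := i - y) (by linarith) (φ i), exp_pos (2 * (i - y))]
  · exact mul_le_mul_of_nonneg_right (by linarith) (exp_pos _).le

theorem aux_neg {N T : ℕ} (hN : 20000 ≤ N) {y : ℝ} (h1 : 2 * N ≤ y) (h2 : y ≤ T) {φ : ℕ → ℝ}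
    (hφ : ∀ i ∈ Finset.Ico 1 T, y - 10 * N ≤ i → (i : ℝ) ≤ y - 1 → |sin (φ i)| ≤ 1 / 4) :
    ∑ i ∈ Finset.Ico 1 T, exp (-gam N * i) * nk (i - y) (φ i) ≤ -(N / 200) * exp (-gam N * y) := by
  have hN' : (20000 : ℝ) ≤ N := by exact_mod_cast hN
  have hN2 : 2 ≤ N := by omega
  have hE := exp_pos (-gam N * y)
  rw [← Finset.sum_filter_add_sum_filter_not _ fun i : ℕ => (i : ℝ) ≤ y - 1,
    ← Finset.sum_filter_add_sum_filter_not (Finset.filter _ _) fun i : ℕ => (i : ℝ) < y - 10 * N]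
  have k1 : ∑ i ∈ (Finset.Ico 1 T).filter (fun i : ℕ => ¬(i : ℝ) ≤ y - 1),
      exp (-gam N * i) * nk (i - y) (φ i) ≤ 4 * (9 * exp (-gam N * y)) := by
    refine le_trans ?_ (mul_le_mul_of_nonneg_left (j3_R hN2
      ((Finset.Ico 1 T).filter fun i : ℕ => ¬(i : ℝ) ≤ y - 1) y
      fun i hi => (not_le.1 (Finset.mem_filter.1 hi).2).le) (by norm_num))
    rw [Finset.mul_sum]
    refine Finset.sum_le_sum fun i hi => ?_
    have := mul_le_mul_of_nonneg_left (j3_nk (s := i - y)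
      (by linarith only [hi, not_le.1 (Finset.mem_filter.1 hi).2]) (φ i)) (exp_pos (-gam N * i)).le
    linarith
  have k2 : ∑ i ∈ ((Finset.Ico 1 T).filter fun i : ℕ => (i : ℝ) ≤ y - 1).filter
      (fun i : ℕ => (i : ℝ) < y - 10 * N), exp (-gam N * i) * nk (i - y) (φ i) ≤
        1 / 1000 * (1 + N) * exp (-gam N * y) := by
    refine le_trans (Finset.sum_le_sum fun i hi => ?_) ((j3_L hN2 _ y (y - 10 * N)
      fun i hi => (Finset.mem_filter.1 hi).2.le).trans ?_)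
    · have := (Finset.mem_filter.1 hi).2
      refine mul_le_mul_of_nonneg_left ?_ (exp_pos _).le
      linarith only [hN', this, nk_le (s := i - y) (by linarith) (φ i), exp_pos (2 * (i - y))]
    · have e : -(y - (y - 10 * N)) / N = -(10 : ℕ) * (1 : ℝ) := by
        field_simp
        push_cast
        ring
      have h3 : (2 : ℝ) ^ 10 ≤ exp 1 ^ 10 := by
        gcongr
        linarith only [add_one_le_exp 1]
      have h4 : exp (-(10 : ℕ) * (1 : ℝ)) ≤ 1 / 1000 := by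
        rw [neg_mul, exp_neg, exp_nat_mul, ← one_div]
        exact one_div_le_one_div_of_le (by norm_num) (le_trans (by norm_num) h3)
      rw [e]
      gcongr
  have k3 : ∑ i ∈ ((Finset.Ico 1 T).filter fun i : ℕ => (i : ℝ) ≤ y - 1).filter
      (fun i : ℕ => ¬(i : ℝ) < y - 10 * N), exp (-gam N * i) * nk (i - y) (φ i) ≤
        -((N - 1) * (exp (-gam N * y) / 60)) := by
    have hc : (⌈y - N⌉₊ : ℝ) < y - N + 1 := Nat.ceil_lt_add_one (by linarith only [h1, hN'])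
    have hc' : y - N ≤ ⌈y - N⌉₊ := Nat.le_ceil _
    have hI : ∀ i ∈ Finset.Ico ⌈y - N⌉₊ (⌈y - N⌉₊ + (N - 1)), y - N ≤ i ∧ (i : ℝ) ≤ y := by
      intro i hi
      obtain ⟨a1, a2⟩ := Finset.mem_Ico.1 hi
      have a3 : ((i + 2 : ℕ) : ℝ) ≤ (⌈y - N⌉₊ + N : ℕ) := by exact_mod_cast (by omega)
      push_cast at a3
      exact ⟨hc'.trans (by exact_mod_cast a1), by linarith only [hc, a3]⟩
    have hsub : Finset.Ico ⌈y - N⌉₊ (⌈y - N⌉₊ + (N - 1)) ⊆ ((Finset.Ico 1 T).filter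
        fun i : ℕ => (i : ℝ) ≤ y - 1).filter (fun i : ℕ => ¬(i : ℝ) < y - 10 * N) := by
      intro i hi
      obtain ⟨a1, a2⟩ := Finset.mem_Ico.1 hi
      have a3 : ((i + 2 : ℕ) : ℝ) ≤ (⌈y - N⌉₊ + N : ℕ) := by exact_mod_cast (by omega)
      push_cast at a3
      have a4 := (hI i hi).1
      have a5 : ((1 : ℕ) : ℝ) ≤ i := by push_cast; linarith only [h1, hN', a4]
      have a6 : (i : ℝ) < T := by linarith only [h2, hc, a3]
      exact Finset.mem_filter.2 ⟨Finset.mem_filter.2 ⟨Finset.mem_Ico.2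
        ⟨by exact_mod_cast a5, by exact_mod_cast a6⟩, by linarith only [hc, a3]⟩, by linarith only [hN', a4]⟩
    have hal : ∀ i ∈ ((Finset.Ico 1 T).filter fun i : ℕ => (i : ℝ) ≤ y - 1).filter
        (fun i : ℕ => ¬(i : ℝ) < y - 10 * N), exp (-gam N * i) * exp (2 * (i - y)) / 20 ≤
          -(exp (-gam N * i) * nk (i - y) (φ i)) := by
      intro i hi
      obtain ⟨a1, a2⟩ := Finset.mem_filter.1 hi
      obtain ⟨a3, a4⟩ := Finset.mem_filter.1 a1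
      have := mul_le_mul_of_nonneg_left (nk_aligned (s := i - y) (by linarith only [a4])
        (hφ i a3 (not_lt.1 a2) a4)) (exp_pos (-gam N * i)).le
      linarith only [this]
    rw [le_neg, ← Finset.sum_neg_distrib]
    refine le_trans ?_ (Finset.sum_le_sum_of_subset_of_nonneg hsub
      fun i hi _ => le_trans (by positivity) (hal i hi))
    refine le_trans (le_of_eq ?_) (Finset.card_nsmul_le_sum _ _ (exp (-gam N * y) / 60)
      fun i hi => le_trans ?_ (hal i (hsub hi)))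
    · rw [Nat.card_Ico, Nat.add_sub_cancel_left, nsmul_eq_mul, Nat.cast_sub (by omega), Nat.cast_one]
    · have a1 : -1 ≤ -(y - i) / N := by
        rw [le_div_iff₀ (by linarith only [hN'])]
        linarith only [hI, hi, (hI i hi).1]
      have a2 := (j3_exp a1).le
      rw [j3_id]
      linarith only [hE, a2, mul_nonneg_of_nonpos_of_nonpos (le_of_lt (Mathlib.Tactic.Linarith.sub_neg_of_lt hE)) (Mathlib.Tactic.Linarith.sub_nonpos_of_le a2)]
  linarith only [hE, k1, k2, k3, hN', mul_nonneg_of_nonpos_of_nonpos (Mathlib.Tactic.Linarith.sub_nonpos_of_le hN') (le_of_lt (Mathlib.Tactic.Linarith.sub_neg_of_lt hE))]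

theorem aux_pair {N : ℕ} (hN : 2 ≤ N) (T : ℕ) (y : ℝ) {φ : ℕ → ℝ}
    (hφ : ∀ i ∈ Finset.Ico 1 T, (i : ℝ) ≤ y - 1 → |sin (φ i)| ≤ 1 / 4) :
    ∑ i ∈ Finset.Ico 1 T, exp (-gam N * i) * lg (2 * (i - y)) (2 * φ i) ≤ 50 * exp (-gam N * y) := by
  refine (j3_split hN _ y le_rfl (B := 2) (by norm_num) (fun i hi h => ?_)
    fun i _ _ => ?_).trans (mul_le_mul_of_nonneg_right (by linarith only []) (exp_pos _).le)
  · have h1 := lg_two_neg (s := i - y) (by linarith) (φ i)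
    have h2 := hφ i hi h
    have h4 : sin (φ i) ^ 2 ≤ 1 / 16 := by linarith only [h2, sq_abs (sin (φ i)), abs_nonneg (sin (φ i)), mul_nonneg_of_nonpos_of_nonpos (Mathlib.Tactic.Linarith.sub_nonpos_of_le h2) (Mathlib.Tactic.Linarith.sub_nonpos_of_le (abs_nonneg (sin (φ i))))]
    linarith only [h1, h4, exp_pos (2 * (i - y)), mul_nonneg_of_nonpos_of_nonpos (Mathlib.Tactic.Linarith.sub_nonpos_of_le h4) (le_of_lt (Mathlib.Tactic.Linarith.sub_neg_of_lt (exp_pos ((2 : ℝ) * (↑i - y)))))]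
  · linarith [lg_two_le (i - y) (2 * φ i), j3_w0 (i - y)]

end

end Pool.Agent.MinMod.Mo
end

-- merged part: Pool.Agent.Work.MP_f62247_an.Mo.P1
section
/-!
# Periodic repetition of a cell
Copy `n` has masses `q^n m a`, positions `ξ a + n T`, angles `η a + n ϑ`, with `Q = cc T / c`, `q = ‖Q‖ exp T`, `ϑ = - arg Q`; so `q^n exp (-(ζ a + n T + i n ϑ)) = Q^n exp (-ζ a)`.
`valid`: `q^n exp (-2 n T) ≤ exp (-n T/2)`, `summable_prod_of_nonneg` or `Summable.mul_of_nonneg`; only `n ≤ X / T` matter in `fin`.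
`cc_eq`: for `0 ≤ x ≤ T` the atoms below `n T + x` are the copies `j < n` (each contributes `Q^j (cc T - c) = Q^j (Q - 1) c`, geometric sum) and the atoms of copy `n` below `x`.
`sum_split`: `Summable.tsum_prod`, split `∑'_j` at `n` (`Summable.sum_add_tsum_nat_add`, `Finset.sum_range_reflect`).
-/

open Real MeasureTheory Set Filter Topology

namespace Pool.Agent.MinMod.Mo

noncomputable section

namespace ICfg

variable {κ : Type}

def Q (X : ICfg κ) (T : ℝ) : ℂ := X.cc T / X.c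

def q (X : ICfg κ) (T : ℝ) : ℝ := ‖X.Q T‖ * exp T

def ang (X : ICfg κ) (T : ℝ) : ℝ := -Complex.arg (X.Q T)

def per (X : ICfg κ) (T : ℝ) : ICfg (ℕ × κ) :=
  ⟨X.c, fun b => X.q T ^ b.1 * X.m b.2, fun b => X.ξ b.2 + b.1 * T, fun b => X.η b.2 + b.1 * X.ang T⟩

/-- the sum of a kernel over the atoms -/
def ks (X : ICfg κ) (k : ℝ → ℝ → ℝ) (x θ : ℝ) : ℝ := ∑' a, X.m a * k (x - X.ξ a) (θ - X.η a)

structure Cell (X : ICfg κ) (T : ℝ) : Prop where
  valid : X.Valid 0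
  lt : ∀ a, X.m a ≠ 0 → X.ξ a < T
  c_ne : X.c ≠ 0
  T10 : 10 ≤ T
  qlo : exp (T / 2) ≤ X.q T
  qhi : X.q T ≤ exp (3 * T / 2)

variable {X : ICfg κ} {T : ℝ}

theorem Cell.p1_T (h : X.Cell T) : 0 < T := by linarith [h.T10]

theorem Cell.p1_q (h : X.Cell T) : 0 < X.q T := (exp_pos _).trans_le h.qlo

theorem Cell.p1_ne (_h : X.Cell T) {b : ℕ × κ} (hb : (X.per T).m b ≠ 0) : X.m b.2 ≠ 0 :=
  right_ne_zero_of_mul hb

theorem Cell.per_valid (h : X.Cell T) : (X.per T).Valid 0 := by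
  have hT := h.p1_T
  refine ⟨fun b => mul_nonneg (pow_nonneg h.p1_q.le _) (h.valid.nonneg _), fun b hb => ?_,
    fun Z => ?_, ?_⟩
  · have h1 := h.valid.right _ (h.p1_ne hb)
    show 0 ≤ X.ξ b.2 + b.1 * T
    positivity
  · refine ((Set.finite_Iic ⌈Z / T⌉₊).prod (h.valid.fin T)).subset fun b hb => ?_
    have h1 := h.p1_ne hb.1
    refine ⟨?_, h1, (h.lt _ h1).le⟩
    have h2 : X.ξ b.2 + b.1 * T ≤ Z := hb.2
    have h3 := h.valid.right _ h1
    have h4 : (b.1 : ℝ) ≤ Z / T := by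
      rw [le_div_iff₀ hT]
      linarith only [h2, h3]
    exact_mod_cast h4.trans (Nat.le_ceil _)
  · have h0 : 0 ≤ X.q T * exp (-2 * T) := mul_nonneg h.p1_q.le (exp_pos _).le
    have h1 : X.q T * exp (-2 * T) < 1 := by
      calc X.q T * exp (-2 * T) ≤ exp (3 * T / 2) * exp (-2 * T) :=
            mul_le_mul_of_nonneg_right h.qhi (exp_pos _).le
        _ = exp (-(T / 2)) := by
            rw [← exp_add]
            congr 1
            ring
        _ < 1 := by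
            rw [exp_lt_one_iff]
            linarith
    have h2 := (summable_geometric_of_lt_one h0 h1).mul_of_nonneg h.valid.sum
      (fun _ => pow_nonneg h0 _) fun a => mul_nonneg (h.valid.nonneg a) (exp_pos _).le
    refine h2.congr fun b => ?_
    show (X.q T * exp (-2 * T)) ^ b.1 * (X.m b.2 * exp (-2 * X.ξ b.2)) =
      X.q T ^ b.1 * X.m b.2 * exp (-2 * (X.ξ b.2 + b.1 * T))
    rw [mul_pow, ← exp_nat_mul, mul_add, exp_add]
    have e : -2 * ((b.1 : ℝ) * T) = b.1 * (-2 * T) := by ring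
    rw [e]
    ring

theorem p1_Q (X : ICfg κ) (T : ℝ) :
    X.Q T = (‖X.Q T‖ : ℝ) * Complex.exp (-(X.ang T * Complex.I)) := by
  have e : -((X.ang T : ℂ) * Complex.I) = Complex.arg (X.Q T) * Complex.I := by
    unfold ang
    push_cast
    ring
  rw [e, Complex.norm_mul_exp_arg_mul_I]

theorem p1_term (X : ICfg κ) (T : ℝ) (b : ℕ × κ) :
    ((X.per T).m b : ℂ) * Complex.exp (-(X.per T).ζ b) =
      X.Q T ^ b.1 * ((X.m b.2 : ℂ) * Complex.exp (-X.ζ b.2)) := by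
  have e1 : -(X.per T).ζ b =
      -X.ζ b.2 + (b.1 * (-(T : ℂ)) + b.1 * (-(X.ang T * Complex.I))) := by
    unfold ζ per
    push_cast
    ring
  have e2 : ((X.per T).m b : ℂ) = ((‖X.Q T‖ : ℝ) * Complex.exp T) ^ b.1 * X.m b.2 := by
    unfold per q
    push_cast
    ring
  have e3 : Complex.exp T * Complex.exp (-(T : ℂ)) = 1 := by
    rw [← Complex.exp_add, add_neg_cancel, Complex.exp_zero]
  rw [e1, e2, Complex.exp_add, Complex.exp_add, Complex.exp_nat_mul, Complex.exp_nat_mul]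
  conv_rhs => rw [p1_Q X T]
  calc _ = (Complex.exp T * Complex.exp (-(T : ℂ))) ^ b.1 *
        ((((‖X.Q T‖ : ℝ) : ℂ) * Complex.exp (-(X.ang T * Complex.I))) ^ b.1 *
          ((X.m b.2 : ℂ) * Complex.exp (-X.ζ b.2))) := by ring
    _ = _ := by rw [e3, one_pow, one_mul]

theorem p1_cc_sub (X : ICfg κ) (y : ℝ) :
    (∑' a, if X.ξ a < y then (X.m a : ℂ) * Complex.exp (-X.ζ a) else 0) = X.cc y - X.c := by
  unfold cc
  ring

theorem Cell.cc_eq (h : X.Cell T) (n : ℕ) {x : ℝ} (h0 : 0 ≤ x) (h1 : x ≤ T) :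
    (X.per T).cc (n * T + x) = X.Q T ^ n * X.cc x := by
  have hT := h.p1_T
  have hs := h.per_valid.summable_cc (n * T + x)
  have hQ : X.cc T = X.Q T * X.c := by
    unfold Q
    rw [div_mul_cancel₀ _ h.c_ne]
  set G : ℕ → ℂ := fun j => ∑' a, if (X.per T).ξ (j, a) < n * T + x then
    ((X.per T).m (j, a) : ℂ) * Complex.exp (-(X.per T).ζ (j, a)) else 0 with hG
  have key : ∀ (j : ℕ) (y : ℝ), (∀ a, X.m a ≠ 0 → (X.ξ a + j * T < n * T + x ↔ X.ξ a < y)) →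
      G j = X.Q T ^ j * (X.cc y - X.c) := by
    intro j y hy
    rw [← p1_cc_sub, ← tsum_mul_left, hG]
    refine tsum_congr fun a => ?_
    rw [p1_term]
    rcases eq_or_ne (X.m a) 0 with e | e
    · simp [e]
    · have e1 : (X.per T).ξ (j, a) < n * T + x ↔ X.ξ a < y := hy a e
      by_cases e2 : X.ξ a < y
      · rw [if_pos e2, if_pos (e1.2 e2)]
      · rw [if_neg e2, if_neg fun e3 => e2 (e1.1 e3), mul_zero]
  have g1 : ∀ j ∈ Finset.range n, G j = X.Q T ^ j * (X.Q T - 1) * X.c := by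
    intro j hj
    have hj' : (j : ℝ) + 1 ≤ n := by exact_mod_cast Finset.mem_range.1 hj
    rw [key j T fun a ha => ?_, hQ]
    · ring
    · have := h.lt a ha
      exact ⟨fun _ => this, fun _ => by linarith only [h0, this, hj', h1, mul_nonneg_of_nonpos_of_nonpos (Mathlib.Tactic.Linarith.sub_nonpos_of_le h0) (Mathlib.Tactic.Linarith.sub_nonpos_of_le hj'), mul_nonneg_of_nonpos_of_nonpos (Mathlib.Tactic.Linarith.sub_nonpos_of_le h1) (Mathlib.Tactic.Linarith.sub_nonpos_of_le hj')]⟩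
  have g2 : G n = X.Q T ^ n * (X.cc x - X.c) :=
    key n x fun a _ => ⟨fun e => by linarith, fun e => by linarith⟩
  have g3 : ∀ j ∉ Finset.range (n + 1), G j = 0 := by
    intro j hj
    have hj' : (n : ℝ) + 1 ≤ j := by
      exact_mod_cast not_lt.1 fun e => hj (Finset.mem_range.2 e)
    rw [key j 0 fun a ha => ?_, h.valid.cc_left le_rfl, sub_self, mul_zero]
    have := h.valid.right a ha
    exact ⟨fun _ => by nlinarith, fun _ => by linarith⟩
  have e : (X.per T).cc (n * T + x) = X.c + ∑' j, G j := by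
    rw [cc, hs.tsum_prod]
    rfl
  rw [e, tsum_eq_sum g3, Finset.sum_range_succ, Finset.sum_congr rfl g1, g2, ← Finset.sum_mul,
    ← Finset.sum_mul, geom_sum_mul]
  ring

theorem Cell.cc_rot (h : X.Cell T) (n : ℕ) {x : ℝ} (h0 : 0 ≤ x) (h1 : x ≤ T) (θ : ℝ) :
    (X.per T).cc (n * T + x) * Complex.exp ((θ + n * X.ang T : ℝ) * Complex.I) =
      (‖X.Q T‖ ^ n : ℝ) * (X.cc x * Complex.exp (θ * Complex.I)) := by
  have e1 : (((θ + n * X.ang T : ℝ) : ℂ) * Complex.I) =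
      θ * Complex.I + n * (X.ang T * Complex.I) := by
    push_cast
    ring
  have e3 : Complex.exp (-(X.ang T * Complex.I)) * Complex.exp (X.ang T * Complex.I) = 1 := by
    rw [← Complex.exp_add, neg_add_cancel, Complex.exp_zero]
  rw [h.cc_eq n h0 h1, e1, Complex.exp_add, Complex.exp_nat_mul, Complex.ofReal_pow]
  conv_lhs => rw [p1_Q X T]
  calc _ = (Complex.exp (-(X.ang T * Complex.I)) * Complex.exp (X.ang T * Complex.I)) ^ n *
        ((((‖X.Q T‖ : ℝ) : ℂ)) ^ n * (X.cc x * Complex.exp (θ * Complex.I))) := by ring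
    _ = _ := by rw [e3, one_pow, one_mul]

theorem Cell.A_eq (h : X.Cell T) (n : ℕ) {x : ℝ} (h0 : 0 ≤ x) (h1 : x ≤ T) :
    (X.per T).A (n * T + x) = X.q T ^ n * X.A x := by
  rw [A, h.cc_eq n h0 h1, A, q, norm_mul, norm_pow, exp_add, mul_pow, exp_nat_mul]
  ring

theorem Cell.reg (h : X.Cell T) {n : ℕ} {x : ℝ} (hx : (X.per T).Reg (n * T + x)) : X.Reg x := by
  intro a ha e
  refine hx (n, a) (mul_ne_zero (pow_ne_zero _ h.p1_q.ne') ha) ?_
  show X.ξ a + n * T = n * T + x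
  rw [e, add_comm]

theorem Cell.exists_cell (h : X.Cell T) {x : ℝ} (hx : 0 ≤ x) :
    ∃ (n : ℕ) (x' : ℝ), 0 ≤ x' ∧ x' < T ∧ x = n * T + x' := by
  have hT := h.p1_T
  refine ⟨⌊x / T⌋₊, x - ⌊x / T⌋₊ * T, ?_, ?_, by ring⟩
  · have := Nat.floor_le (div_nonneg hx hT.le)
    rw [le_div_iff₀ hT] at this
    linarith only [this]
  · have := Nat.lt_floor_add_one (x / T)
    rw [div_lt_iff₀ hT] at this
    linarith only [this]

theorem Cell.p1_fin (h : X.Cell T) : (X.cc '' Icc 0 T).Finite := by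
  classical
  refine ((h.valid.fin T).finite_subsets.image fun B : Set κ =>
    X.c + ∑' a, if a ∈ B then (X.m a : ℂ) * Complex.exp (-X.ζ a) else 0).subset ?_
  rintro _ ⟨x, hx, rfl⟩
  refine ⟨{a | X.m a ≠ 0 ∧ X.ξ a < x}, fun a ha => ⟨ha.1, ha.2.le.trans hx.2⟩, ?_⟩
  show X.c + _ = X.cc x
  unfold cc
  congr 1
  refine tsum_congr fun a => ?_
  rcases eq_or_ne (X.m a) 0 with e | e
  · simp [e]
  · simp [e]

theorem Cell.loType (h : X.Cell T) (hc : ∀ x ∈ Icc 0 T, X.cc x ≠ 0) :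
    LoType (X.per T).A (Real.log (X.q T) / T) := by
  have hT := h.p1_T
  have hq := h.p1_q
  have hne : (X.cc '' Icc 0 T).Nonempty := ⟨_, 0, ⟨le_rfl, hT.le⟩, rfl⟩
  obtain ⟨_, ⟨u, hu, rfl⟩, hlo⟩ := Set.exists_min_image _ (fun z : ℂ => ‖z‖) h.p1_fin hne
  obtain ⟨_, ⟨v, hv, rfl⟩, hhi⟩ := Set.exists_max_image _ (fun z : ℂ => ‖z‖) h.p1_fin hne
  have hu0 : 0 < ‖X.cc u‖ := norm_pos_iff.2 (hc u hu)
  have hv0 : 0 < ‖X.cc v‖ := norm_pos_iff.2 (hc v hv)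
  set lam := Real.log (X.q T) / T with hlam
  have hl : lam * T = Real.log (X.q T) := div_mul_cancel₀ _ hT.ne'
  have hl0 : 0 ≤ lam := by
    refine div_nonneg (Real.log_nonneg (le_trans ?_ h.qlo)) hT.le
    exact one_le_exp (by linarith only [hT])
  have hbase : LoType (fun x => exp (lam * x)) lam := by
    intro σ hσ
    refine ⟨?_, Eventually.frequently ?_⟩
    · filter_upwards [eventually_ge_atTop (0 : ℝ)] with x hx
      exact exp_le_exp.2 (by linarith only [hσ, hx, mul_nonneg_of_nonpos_of_nonpos (le_of_lt (Mathlib.Tactic.Linarith.sub_neg_of_lt hσ)) (Mathlib.Tactic.Linarith.sub_nonpos_of_le hx)])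
    · filter_upwards [eventually_ge_atTop (0 : ℝ)] with x hx
      exact exp_le_exp.2 (by linarith only [hσ, hx, mul_nonneg_of_nonpos_of_nonpos (le_of_lt (Mathlib.Tactic.Linarith.sub_neg_of_lt hσ)) (Mathlib.Tactic.Linarith.sub_nonpos_of_le hx)])
  refine hbase.of_comp (c := ‖X.cc u‖ / X.q T) (C := ‖X.cc v‖ * exp T) (by positivity)
    (by positivity) ?_
  filter_upwards [eventually_ge_atTop (0 : ℝ)] with x hx
  obtain ⟨n, y, hy0, hy1, rfl⟩ := h.exists_cell hx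
  have e1 : exp (lam * (n * T + y)) = X.q T ^ n * exp (lam * y) := by
    have e : lam * (n * T + y) = n * (lam * T) + lam * y := by ring
    rw [e, exp_add, exp_nat_mul, hl, exp_log hq]
  have e2 : exp (lam * y) ≤ X.q T := by
    rw [← exp_log hq, ← hl]
    exact exp_le_exp.2 (mul_le_mul_of_nonneg_left hy1.le hl0)
  have e3 : 1 ≤ exp (lam * y) := one_le_exp (mul_nonneg hl0 hy0)
  have e4 : 1 ≤ exp y := one_le_exp hy0
  have e5 : exp y ≤ exp T := exp_le_exp.2 hy1.le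
  have e6 : ‖X.cc u‖ ≤ ‖X.cc y‖ := hlo _ ⟨y, ⟨hy0, hy1.le⟩, rfl⟩
  have e7 : ‖X.cc y‖ ≤ ‖X.cc v‖ := hhi _ ⟨y, ⟨hy0, hy1.le⟩, rfl⟩
  have hqn : 0 < X.q T ^ n := pow_pos hq n
  rw [h.A_eq n hy0 hy1.le, e1, A]
  constructor
  · rw [mul_left_comm]
    refine mul_le_mul_of_nonneg_left ?_ hqn.le
    calc ‖X.cc u‖ / X.q T * exp (lam * y) ≤ ‖X.cc u‖ / X.q T * X.q T :=
          mul_le_mul_of_nonneg_left e2 (by positivity)
      _ = ‖X.cc u‖ := div_mul_cancel₀ _ hq.ne'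
      _ ≤ ‖X.cc y‖ * exp y := e6.trans (le_mul_of_one_le_right (norm_nonneg _) e4)
  · rw [mul_left_comm (‖X.cc v‖ * exp T)]
    refine mul_le_mul_of_nonneg_left ?_ hqn.le
    calc ‖X.cc y‖ * exp y ≤ ‖X.cc v‖ * exp T := mul_le_mul e7 e5 (exp_pos _).le hv0.le
      _ ≤ _ := le_mul_of_one_le_right (by positivity) e3

/-- a sum over the periodic configuration, copy by copy; the kernel may depend on the copy -/
theorem Cell.sum_split (h : X.Cell T) (k : ℕ → ℝ → ℝ → ℝ) (n : ℕ) (x θ : ℝ)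
    (hs : Summable fun b : ℕ × κ => (X.per T).m b *
      k b.1 (n * T + x - (X.per T).ξ b) (θ + n * X.ang T - (X.per T).η b)) :
    (Summable fun j : ℕ => X.q T ^ (j + 1) *
      X.ks (k (n + (j + 1))) (x - (j + 1 : ℕ) * T) (θ - (j + 1 : ℕ) * X.ang T)) ∧
    ∑' b : ℕ × κ, (X.per T).m b *
        k b.1 (n * T + x - (X.per T).ξ b) (θ + n * X.ang T - (X.per T).η b) =
      X.q T ^ n * (∑ j ∈ Finset.range n, (X.q T)⁻¹ ^ (j + 1) *
          X.ks (k (n - (j + 1))) (x + (j + 1 : ℕ) * T) (θ + (j + 1 : ℕ) * X.ang T) +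
        X.ks (k n) x θ + ∑' j : ℕ, X.q T ^ (j + 1) *
          X.ks (k (n + (j + 1))) (x - (j + 1 : ℕ) * T) (θ - (j + 1 : ℕ) * X.ang T)) := by
  have hq := h.p1_q
  set G : ℕ → ℝ := fun j => X.q T ^ j *
    X.ks (k j) (n * T + x - j * T) (θ + n * X.ang T - j * X.ang T) with hG
  have e0 : ∀ j : ℕ, ∑' a, (X.per T).m (j, a) * k j (n * T + x - (X.per T).ξ (j, a))
      (θ + n * X.ang T - (X.per T).η (j, a)) = G j := by
    intro j
    rw [hG]
    simp only [ks]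
    rw [← tsum_mul_left]
    refine tsum_congr fun a => ?_
    show X.q T ^ j * X.m a * k j (n * T + x - (X.ξ a + j * T))
      (θ + n * X.ang T - (X.η a + j * X.ang T)) = _
    rw [mul_assoc]
    congr 3 <;> ring
  have hGs : Summable G := hs.prod.congr e0
  have e1 : ∀ j : ℕ, G (j + (n + 1)) = X.q T ^ n * (X.q T ^ (j + 1) *
      X.ks (k (n + (j + 1))) (x - (j + 1 : ℕ) * T) (θ - (j + 1 : ℕ) * X.ang T)) := by
    intro j
    have e : j + (n + 1) = n + (j + 1) := by ring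
    rw [e, hG, ← mul_assoc, ← pow_add]
    simp only
    congr 2 <;> push_cast <;> ring
  have e2 : ∀ j ∈ Finset.range n, G (n - 1 - j) = X.q T ^ n * ((X.q T)⁻¹ ^ (j + 1) *
      X.ks (k (n - (j + 1))) (x + (j + 1 : ℕ) * T) (θ + (j + 1 : ℕ) * X.ang T)) := by
    intro j hj
    obtain ⟨i, rfl⟩ := Nat.exists_eq_add_of_le' (Nat.succ_le_of_lt (Finset.mem_range.1 hj))
    have e : i + j.succ - 1 - j = i := by omega
    have e' : i + j.succ - (j + 1) = i := by omega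
    rw [e, e', hG, ← mul_assoc]
    simp only
    congr 1
    · rw [pow_add, mul_assoc, ← mul_pow, mul_inv_cancel₀ hq.ne', one_pow, mul_one]
    · congr 1 <;> push_cast <;> ring
  have e3 : G n = X.q T ^ n * X.ks (k n) x θ := by
    rw [hG]
    simp only
    congr 2 <;> ring
  have hs2 : Summable fun j : ℕ => G (j + (n + 1)) := (summable_nat_add_iff (n + 1)).2 hGs
  simp only [e1] at hs2
  refine ⟨(summable_mul_left_iff (pow_ne_zero n hq.ne')).1 hs2, ?_⟩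
  rw [hs.tsum_prod, tsum_congr e0, ← hGs.sum_add_tsum_nat_add (n + 1), Finset.sum_range_succ,
    ← Finset.sum_range_reflect, Finset.sum_congr rfl e2, e3, tsum_congr e1, tsum_mul_left,
    ← Finset.mul_sum]
  ring

end ICfg

end

end Pool.Agent.MinMod.Mo
end

-- merged part: Pool.Agent.Work.MP_f62247_an.Mo.P2
section
/-!
# Upper bounds for the periodic configuration
All atoms of the cell lie in `[0, T)`, finitely many, so `W (T + t) ≤ (1 + t) W T` for `t ≥ 0` and `W x = exp (2x) W 0` for `x ≤ 0` (`W_left`).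
`past_le`: `∑_i q⁻¹^i (1 + i T) ≤ 2` (`q ≥ exp (T/2)`, `T ≥ 10`, `2 + t ≤ 4 exp (t/4)`). `fut_le`: `q exp (-2T) ≤ 1/2`.
`U_le`: `U_split` at `y = n T` (for an atom with nonzero mass `ξ < n T` iff its copy has index `< n`), `sum_split` with the kernel `if j < n then lg else nk`, `cc_rot` at `x = 0`; `lg s φ ≤ w0 s` for `s ≥ 0` (`lg_le`), `nk s φ ≤ w0 s` for `s < 0` (`nk_le`).
`pair_le`: `U_pair`, `lg_two_le`; the copy `n - 1` is kept, the copies `≤ n - 2` give `2 q⁻¹ W T ∑_{i ≥ 1} q⁻¹^i (2 + i T)`.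
-/

open Real MeasureTheory Set Filter Topology

namespace Pool.Agent.MinMod.Mo

noncomputable section

namespace ICfg

variable {κ : Type} {X : ICfg κ} {T : ℝ}

theorem Cell.p2_summable (h : X.Cell T) (f : κ → ℝ) : Summable fun a => X.m a * f a := by
  refine summable_of_hasFiniteSupport ((h.valid.fin T).subset fun a ha => ?_)
  have hm : X.m a ≠ 0 := fun h0 => ha (by simp [h0])
  exact ⟨hm, (h.lt a hm).le⟩

theorem Cell.p2_qpos (h : X.Cell T) : 0 < X.q T := (exp_pos _).trans_le h.qlo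

theorem Cell.p2_exp (h : X.Cell T) : 1 + 9 / 16 * T ≤ exp (T / 4) := by
  have h1 := h.T10
  have h2 := Real.quadratic_le_exp_of_nonneg (x := T / 4) (by linarith only [h1])
  linarith only [h1, h2, mul_nonneg_of_nonpos_of_nonpos (Mathlib.Tactic.Linarith.sub_nonpos_of_le h1) (Mathlib.Tactic.Linarith.sub_nonpos_of_le h1)]

theorem Cell.p2_qge (h : X.Cell T) : exp (T / 4) * exp (T / 4) ≤ X.q T := by
  rw [← exp_add]
  have e : T / 4 + T / 4 = T / 2 := by ring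
  rw [e]
  exact h.qlo

theorem Cell.p2_qinv (h : X.Cell T) : (X.q T)⁻¹ * (1 + T) ≤ 1 / 2 := by
  have h1 := h.T10
  have h2 := h.p2_exp
  have h3 := h.p2_qge
  rw [inv_mul_le_iff₀ h.p2_qpos]
  linarith only [h1, h2, h3, mul_nonneg_of_nonpos_of_nonpos (Mathlib.Tactic.Linarith.sub_nonpos_of_le h1) (Mathlib.Tactic.Linarith.sub_nonpos_of_le h1), mul_nonneg_of_nonpos_of_nonpos (Mathlib.Tactic.Linarith.sub_nonpos_of_le h1) (Mathlib.Tactic.Linarith.sub_nonpos_of_le h2), mul_nonneg_of_nonpos_of_nonpos (Mathlib.Tactic.Linarith.sub_nonpos_of_le h2) (Mathlib.Tactic.Linarith.sub_nonpos_of_le h2)]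

theorem Cell.p2_ks_le (h : X.Cell T) {k : ℝ → ℝ → ℝ} {x θ C : ℝ}
    (hk : ∀ a, X.m a ≠ 0 → k (x - X.ξ a) (θ - X.η a) ≤ C * w0 (x - X.ξ a)) :
    X.ks k x θ ≤ C * X.W x := by
  unfold ks W
  rw [← tsum_mul_left]
  refine Summable.tsum_le_tsum (fun a => ?_) (h.p2_summable _)
    ((h.p2_summable _).mul_left C)
  by_cases hm : X.m a = 0
  · simp [hm]
  · calc X.m a * k (x - X.ξ a) (θ - X.η a) ≤ X.m a * (C * w0 (x - X.ξ a)) :=
          mul_le_mul_of_nonneg_left (hk a hm) (h.valid.nonneg a)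
      _ = C * (X.m a * w0 (x - X.ξ a)) := by ring

theorem Cell.W_right (h : X.Cell T) {t : ℝ} (ht : 0 ≤ t) : X.W (T + t) ≤ (1 + t) * X.W T := by
  unfold W
  rw [← tsum_mul_left]
  refine Summable.tsum_le_tsum (fun a => ?_) (h.p2_summable _)
    ((h.p2_summable _).mul_left _)
  by_cases hm : X.m a = 0
  · simp [hm]
  · have h1 := h.lt a hm
    have h2 := h.valid.nonneg a
    rw [w0_of_nonneg (by linarith), w0_of_nonneg (by linarith)]
    have h3 : 0 ≤ X.m a * (t * (T - X.ξ a)) := mul_nonneg h2 (mul_nonneg ht (by linarith))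
    linarith only [h3]

theorem Cell.past_le (h : X.Cell T) (n : ℕ) {x : ℝ} (hx : 0 ≤ x) :
    ∑ j ∈ Finset.range n, (X.q T)⁻¹ ^ (j + 1) * X.W (x + (j + 1 : ℕ) * T) ≤
      2 * (X.q T)⁻¹ * (1 + x) * X.W T := by
  have hq := h.p2_qpos
  have hT := h.T10
  have hW := h.valid.W_nonneg T
  have hr : 0 ≤ (X.q T)⁻¹ := by positivity
  have key : ∀ j : ℕ, (X.q T)⁻¹ ^ (j + 1) * X.W (x + (j + 1 : ℕ) * T) ≤
      (X.q T)⁻¹ * (1 + x) * X.W T * (1 / 2) ^ j := by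
    intro j
    have hj : (0 : ℝ) ≤ j * T := by positivity
    have e : x + ((j + 1 : ℕ) : ℝ) * T = T + (x + j * T) := by push_cast; ring
    have h1 : X.W (x + ((j + 1 : ℕ) : ℝ) * T) ≤ (1 + (x + j * T)) * X.W T := by
      rw [e]; exact h.W_right (by linarith)
    have h2 : 1 + (j : ℝ) * T ≤ (1 + T) ^ j := one_add_mul_le_pow (by linarith) j
    have h3 : 1 + (x + j * T) ≤ (1 + x) * (1 + T) ^ j := by
      have : 0 ≤ x * (j * T) := mul_nonneg hx hj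
      calc 1 + (x + j * T) ≤ (1 + x) * (1 + j * T) := by linarith only [this]
        _ ≤ (1 + x) * (1 + T) ^ j := mul_le_mul_of_nonneg_left h2 (by linarith)
    have h4 : ((X.q T)⁻¹ * (1 + T)) ^ j ≤ (1 / 2) ^ j :=
      pow_le_pow_left₀ (mul_nonneg hr (by linarith)) h.p2_qinv j
    calc (X.q T)⁻¹ ^ (j + 1) * X.W (x + ((j + 1 : ℕ) : ℝ) * T)
        ≤ (X.q T)⁻¹ ^ (j + 1) * ((1 + x) * (1 + T) ^ j * X.W T) :=
          mul_le_mul_of_nonneg_left (h1.trans (mul_le_mul_of_nonneg_right h3 hW)) (by positivity)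
      _ = (X.q T)⁻¹ * (1 + x) * X.W T * ((X.q T)⁻¹ * (1 + T)) ^ j := by
          rw [mul_pow, pow_succ]; ring
      _ ≤ (X.q T)⁻¹ * (1 + x) * X.W T * (1 / 2) ^ j :=
          mul_le_mul_of_nonneg_left h4 (mul_nonneg (mul_nonneg hr (by linarith only [hx])) hW)
  calc ∑ j ∈ Finset.range n, (X.q T)⁻¹ ^ (j + 1) * X.W (x + (j + 1 : ℕ) * T)
      ≤ ∑ j ∈ Finset.range n, (X.q T)⁻¹ * (1 + x) * X.W T * (1 / 2) ^ j :=
        Finset.sum_le_sum fun j _ => key j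
    _ = (X.q T)⁻¹ * (1 + x) * X.W T * ∑ j ∈ Finset.range n, (1 / 2 : ℝ) ^ j := by
        rw [Finset.mul_sum]
    _ ≤ (X.q T)⁻¹ * (1 + x) * X.W T * 2 :=
        mul_le_mul_of_nonneg_left (sum_geometric_two_le n)
          (mul_nonneg (mul_nonneg hr (by linarith)) hW)
    _ = 2 * (X.q T)⁻¹ * (1 + x) * X.W T := by ring

theorem Cell.fut_le (h : X.Cell T) {x : ℝ} (hx : x ≤ T) :
    (Summable fun j : ℕ => X.q T ^ (j + 1) * X.W (x - (j + 1 : ℕ) * T)) ∧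
    ∑' j : ℕ, X.q T ^ (j + 1) * X.W (x - (j + 1 : ℕ) * T) ≤ 2 * exp (2 * (x - T)) * X.q T * X.W 0 := by
  have hq := h.p2_qpos
  have hT := h.T10
  have hW := h.valid.W_nonneg 0
  have hr0 : 0 ≤ X.q T * exp (-2 * T) := by positivity
  have hr : X.q T * exp (-2 * T) ≤ 1 / 2 := by
    have h1 : X.q T * exp (-2 * T) ≤ exp (3 * T / 2) * exp (-2 * T) :=
      mul_le_mul_of_nonneg_right h.qhi (exp_pos _).le
    have h2 : exp (3 * T / 2) * exp (-2 * T) * exp (T / 2) = 1 := by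
      rw [← exp_add, ← exp_add]
      have e : 3 * T / 2 + -2 * T + T / 2 = 0 := by ring
      rw [e, exp_zero]
    have h3 := Real.add_one_le_exp (T / 2)
    have h4 : 0 < exp (3 * T / 2) * exp (-2 * T) := by positivity
    linarith only [h1, h2, h4, hT, hr0, h3, mul_nonneg_of_nonpos_of_nonpos (Mathlib.Tactic.Linarith.sub_nonpos_of_le hT) (Mathlib.Tactic.Linarith.sub_nonpos_of_le hr0), mul_nonneg_of_nonpos_of_nonpos (Mathlib.Tactic.Linarith.sub_nonpos_of_le hT) (Mathlib.Tactic.Linarith.sub_nonpos_of_le h1), mul_nonneg_of_nonpos_of_nonpos (Mathlib.Tactic.Linarith.sub_nonpos_of_le hr0) (Mathlib.Tactic.Linarith.sub_nonpos_of_le h3), mul_nonneg_of_nonpos_of_nonpos (Mathlib.Tactic.Linarith.sub_nonpos_of_le h1) (Mathlib.Tactic.Linarith.sub_nonpos_of_le h3)]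
  have e : (fun j : ℕ => X.q T ^ (j + 1) * X.W (x - (j + 1 : ℕ) * T)) =
      fun j : ℕ => exp (2 * (x - T)) * X.q T * X.W 0 * (X.q T * exp (-2 * T)) ^ j := by
    funext j
    have hj : (0 : ℝ) ≤ j * T := by positivity
    have h1 : x - ((j + 1 : ℕ) : ℝ) * T ≤ 0 := by push_cast; linarith
    rw [h.valid.W_left h1, mul_pow, ← Real.exp_nat_mul, pow_succ]
    have e2 : 2 * (x - ((j + 1 : ℕ) : ℝ) * T - 0) = 2 * (x - T) + j * (-2 * T) := by
      push_cast; ring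
    rw [e2, exp_add]
    ring
  have hlt : X.q T * exp (-2 * T) < 1 := by linarith
  rw [e]
  refine ⟨(summable_geometric_of_lt_one hr0 hlt).mul_left _, ?_⟩
  rw [tsum_mul_left, tsum_geometric_of_lt_one hr0 hlt]
  have h5 : (1 - X.q T * exp (-2 * T))⁻¹ ≤ 2 := by
    rw [inv_le_comm₀ (by linarith only [hr]) (by norm_num)]
    linarith only [hr]
  calc exp (2 * (x - T)) * X.q T * X.W 0 * (1 - X.q T * exp (-2 * T))⁻¹
      ≤ exp (2 * (x - T)) * X.q T * X.W 0 * 2 :=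
        mul_le_mul_of_nonneg_left h5 (by positivity)
    _ = 2 * exp (2 * (x - T)) * X.q T * X.W 0 := by ring

theorem Cell.U_le (h : X.Cell T) (n : ℕ) {x : ℝ} (h0 : 0 ≤ x) (h1 : x < T) (θ : ℝ) :
    (X.per T).U (n * T + x) (θ + n * X.ang T) ≤ X.q T ^ n *
      (X.U x θ + 2 * exp (2 * (x - T)) * X.q T * X.W 0 + 2 * (X.q T)⁻¹ * (1 + x) * X.W T) := by
  have hq := h.p2_qpos
  have hT := h.T10
  obtain ⟨hs, hU⟩ := h.per_valid.U_split (n * T) (n * T + x) (θ + n * X.ang T)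
  let k : ℕ → ℝ → ℝ → ℝ := fun j s φ => if j < n then lg s φ else nk s φ
  have e : (fun b : ℕ × κ => (X.per T).m b * if (X.per T).ξ b < n * T then
        lg (n * T + x - (X.per T).ξ b) (θ + n * X.ang T - (X.per T).η b) else
        nk (n * T + x - (X.per T).ξ b) (θ + n * X.ang T - (X.per T).η b)) =
      fun b : ℕ × κ => (X.per T).m b *
        k b.1 (n * T + x - (X.per T).ξ b) (θ + n * X.ang T - (X.per T).η b) := by
    funext b
    by_cases hm : X.m b.2 = 0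
    · have : (X.per T).m b = 0 := by simp [per, hm]
      rw [this, zero_mul, zero_mul]
    · have h2 := h.lt b.2 hm
      have h3 := h.valid.right b.2 hm
      have hξ : (X.per T).ξ b = X.ξ b.2 + b.1 * T := rfl
      have hiff : (X.per T).ξ b < n * T ↔ b.1 < n := by
        rw [hξ]
        constructor
        · intro h4
          have h5 : (b.1 : ℝ) * T < n * T := by linarith
          exact_mod_cast lt_of_mul_lt_mul_right h5 (by linarith)
        · intro h4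
          have h5 : (b.1 : ℝ) + 1 ≤ n := by exact_mod_cast h4
          linarith only [h2, h0, h5, h1, mul_nonneg_of_nonpos_of_nonpos (Mathlib.Tactic.Linarith.sub_nonpos_of_le h0) (Mathlib.Tactic.Linarith.sub_nonpos_of_le h5), mul_nonneg_of_nonpos_of_nonpos (le_of_lt (Mathlib.Tactic.Linarith.sub_neg_of_lt h1)) (Mathlib.Tactic.Linarith.sub_nonpos_of_le h5)]
      simp only [k, hiff]
  rw [e] at hs hU
  obtain ⟨hs2, hsum⟩ := h.sum_split k n x θ hs
  have hlin : ((X.per T).cc (n * T) *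
      Complex.exp (((n * T + x : ℝ) : ℂ) + ((θ + n * X.ang T : ℝ) : ℂ) * Complex.I)).re =
      X.q T ^ n * (X.c * Complex.exp (x + θ * Complex.I)).re := by
    have h2 := h.cc_rot n (x := 0) le_rfl (by linarith only [hT]) θ
    rw [add_zero, h.valid.cc_left le_rfl] at h2
    have h3 : (X.per T).cc (n * T) *
        Complex.exp (((n * T + x : ℝ) : ℂ) + ((θ + n * X.ang T : ℝ) : ℂ) * Complex.I) =
        ((X.q T ^ n : ℝ) : ℂ) * (X.c * Complex.exp (x + θ * Complex.I)) := by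
      rw [Complex.exp_add, mul_left_comm, h2, Complex.exp_add, q, mul_pow, ← Real.exp_nat_mul]
      push_cast
      rw [Complex.exp_add]
      ring
    rw [h3, Complex.re_ofReal_mul]
  have hkn : k n = nk := by
    funext s φ
    simp [k]
  have hpast : ∑ j ∈ Finset.range n, (X.q T)⁻¹ ^ (j + 1) *
      X.ks (k (n - (j + 1))) (x + (j + 1 : ℕ) * T) (θ + (j + 1 : ℕ) * X.ang T) ≤
      2 * (X.q T)⁻¹ * (1 + x) * X.W T := by
    refine le_trans (Finset.sum_le_sum fun j hj => ?_) (h.past_le n h0)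
    refine mul_le_mul_of_nonneg_left ?_ (by positivity)
    rw [← one_mul (X.W _)]
    refine h.p2_ks_le fun a ha => ?_
    have h2 := h.lt a ha
    have hj' : n - (j + 1) < n := by have := Finset.mem_range.mp hj; omega
    have h3 : (0 : ℝ) ≤ j * T := by positivity
    have h4 : 0 ≤ x + ((j + 1 : ℕ) : ℝ) * T - X.ξ a := by push_cast; linarith only [h0, h2, h3]
    simp only [k, if_pos hj']
    refine (lg_le _ _).trans ?_
    rw [max_eq_left h4, w0_of_nonneg h4]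
    have := Real.log_two_lt_d9
    linarith only [this]
  have hfut : ∑' j : ℕ, X.q T ^ (j + 1) *
      X.ks (k (n + (j + 1))) (x - (j + 1 : ℕ) * T) (θ - (j + 1 : ℕ) * X.ang T) ≤
      2 * exp (2 * (x - T)) * X.q T * X.W 0 := by
    refine le_trans (Summable.tsum_le_tsum (fun j => ?_) hs2 (h.fut_le h1.le).1) (h.fut_le h1.le).2
    refine mul_le_mul_of_nonneg_left ?_ (by positivity)
    rw [← one_mul (X.W _)]
    refine h.p2_ks_le fun a ha => ?_
    have h2 := h.valid.right a ha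
    have hj' : ¬ n + (j + 1) < n := by omega
    have h3 : (0 : ℝ) ≤ j * T := by positivity
    have h4 : x - ((j + 1 : ℕ) : ℝ) * T - X.ξ a < 0 := by push_cast; linarith only [h1, h2, h3]
    simp only [k, if_neg hj']
    refine (nk_le h4.ne _).trans ?_
    rw [w0_of_nonpos h4.le]
    have := exp_pos (2 * (x - ((j + 1 : ℕ) : ℝ) * T - X.ξ a))
    linarith only [this]
  have hXU : X.U x θ = (X.c * Complex.exp (x + θ * Complex.I)).re + X.ks nk x θ := rfl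
  rw [hU, hlin, hsum, hkn, hXU, ← mul_add]
  refine mul_le_mul_of_nonneg_left ?_ (by positivity)
  linarith only [hpast, hfut]

theorem Cell.W_le (h : X.Cell T) (n : ℕ) {x : ℝ} (h0 : 0 ≤ x) (h1 : x ≤ T) :
    (X.per T).W (n * T + x) ≤ X.q T ^ n *
      (X.W x + 2 * exp (2 * (x - T)) * X.q T * X.W 0 + 2 * (X.q T)⁻¹ * (1 + x) * X.W T) := by
  have hq := h.p2_qpos
  obtain ⟨-, hsum⟩ := h.sum_split (fun _ s _ => w0 s) n x 0
    (h.per_valid.summable_w0 (n * T + x))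
  have e : (X.per T).W (n * T + x) = X.q T ^ n * (∑ j ∈ Finset.range n, (X.q T)⁻¹ ^ (j + 1) *
      X.W (x + (j + 1 : ℕ) * T) + X.W x + ∑' j : ℕ, X.q T ^ (j + 1) *
      X.W (x - (j + 1 : ℕ) * T)) := hsum
  rw [e]
  refine mul_le_mul_of_nonneg_left ?_ (by positivity)
  have h2 := h.past_le n h0
  have h3 := (h.fut_le h1).2
  linarith only [h2, h3]

theorem Cell.pair_le (h : X.Cell T) {n : ℕ} (hn : 1 ≤ n) {x : ℝ} (h0 : -T ≤ x) (h1 : x ≤ 1)
    (hx : (X.per T).Reg (n * T + x)) (θ : ℝ) :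
    (X.per T).U (n * T + x) (θ + n * X.ang T) + (X.per T).U (n * T + x) (θ + n * X.ang T + π) ≤
      X.q T ^ n * (X.ks (fun s φ => lg (2 * s) (2 * φ)) x θ +
        (X.q T)⁻¹ * X.ks (fun s φ => lg (2 * s) (2 * φ)) (x + T) (θ + X.ang T) +
        4 * exp (2 * (x - T)) * X.q T * X.W 0 + 10 * (X.q T)⁻¹ * exp (-T / 4) * X.W T) := by
  have hq := h.p2_qpos
  have hT := h.T10
  have hW := h.valid.W_nonneg T
  rw [h.per_valid.U_pair hx]
  obtain ⟨hs2, hsum⟩ := h.sum_split (fun _ s φ => lg (2 * s) (2 * φ)) n x θ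
    (h.per_valid.summable_lg2 (n * T + x) (θ + n * X.ang T))
  rw [hsum]
  refine mul_le_mul_of_nonneg_left ?_ (by positivity)
  obtain ⟨n, rfl⟩ : ∃ n', n = n' + 1 := ⟨n - 1, by omega⟩
  have hL : ∀ y φ : ℝ, X.ks (fun s φ => lg (2 * s) (2 * φ)) y φ ≤ 2 * X.W y :=
    fun y φ => h.p2_ks_le fun a _ => lg_two_le _ _
  have hxT : x ≤ T := by linarith only [h1, hT]
  have hfut : ∑' j : ℕ, X.q T ^ (j + 1) * X.ks (fun s φ => lg (2 * s) (2 * φ))
      (x - (j + 1 : ℕ) * T) (θ - (j + 1 : ℕ) * X.ang T) ≤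
      4 * exp (2 * (x - T)) * X.q T * X.W 0 := by
    have h2 := Summable.tsum_le_tsum (fun j => ?_) hs2 ((h.fut_le hxT).1.mul_left 2)
    · rw [tsum_mul_left] at h2
      have h3 := (h.fut_le hxT).2
      linarith only [h2, h3]
    · rw [mul_left_comm]
      exact mul_le_mul_of_nonneg_left (hL _ _) (by positivity)
  have hpast : ∑ j ∈ Finset.range n, (X.q T)⁻¹ ^ (j + 1 + 1) *
      X.ks (fun s φ => lg (2 * s) (2 * φ)) (x + (j + 1 + 1 : ℕ) * T)
        (θ + (j + 1 + 1 : ℕ) * X.ang T) ≤ 10 * (X.q T)⁻¹ * exp (-T / 4) * X.W T := by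
    have h2 := h.past_le n (x := x + T) (by linarith only [h0])
    have h3 : ∑ j ∈ Finset.range n, (X.q T)⁻¹ ^ (j + 1 + 1) *
        X.ks (fun s φ => lg (2 * s) (2 * φ)) (x + (j + 1 + 1 : ℕ) * T)
          (θ + (j + 1 + 1 : ℕ) * X.ang T) ≤ 2 * (X.q T)⁻¹ * ∑ j ∈ Finset.range n,
          (X.q T)⁻¹ ^ (j + 1) * X.W (x + T + (j + 1 : ℕ) * T) := by
      rw [Finset.mul_sum]
      refine Finset.sum_le_sum fun j _ => ?_
      have e : x + ((j + 1 + 1 : ℕ) : ℝ) * T = x + T + ((j + 1 : ℕ) : ℝ) * T := by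
        push_cast; ring
      rw [e]
      refine (mul_le_mul_of_nonneg_left (hL _ _) (by positivity)).trans (le_of_eq ?_)
      rw [pow_succ _ (j + 1)]
      ring
    have h4 : (X.q T)⁻¹ * (4 * (2 + T)) ≤ 10 * exp (-T / 4) := by
      have h5 := h.p2_exp
      have h6 := h.p2_qge
      have h7 : exp (-T / 4) * exp (T / 4) = 1 := by
        rw [← exp_add]
        have e : -T / 4 + T / 4 = 0 := by ring
        rw [e, exp_zero]
      have h8 := exp_pos (-T / 4)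
      have h9 : exp (T / 4) ≤ X.q T * exp (-T / 4) := by
        calc exp (T / 4) = exp (T / 4) * exp (T / 4) * exp (-T / 4) := by
              rw [mul_assoc, mul_comm (exp (T / 4)) (exp (-T / 4)), h7, mul_one]
          _ ≤ X.q T * exp (-T / 4) := mul_le_mul_of_nonneg_right h6 h8.le
      rw [inv_mul_le_iff₀ hq]
      linarith only [hT, h5, h9]
    have hr : 0 ≤ (X.q T)⁻¹ := by positivity
    calc _ ≤ _ := h3
      _ ≤ 2 * (X.q T)⁻¹ * (2 * (X.q T)⁻¹ * (1 + (x + T)) * X.W T) :=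
          mul_le_mul_of_nonneg_left h2 (by positivity)
      _ = (X.q T)⁻¹ * X.W T * ((X.q T)⁻¹ * (4 * (1 + (x + T)))) := by ring
      _ ≤ (X.q T)⁻¹ * X.W T * ((X.q T)⁻¹ * (4 * (2 + T))) := by
          refine mul_le_mul_of_nonneg_left (mul_le_mul_of_nonneg_left ?_ hr) (mul_nonneg hr hW)
          linarith only [h1]
      _ ≤ (X.q T)⁻¹ * X.W T * (10 * exp (-T / 4)) :=
          mul_le_mul_of_nonneg_left h4 (mul_nonneg hr hW)
      _ = 10 * (X.q T)⁻¹ * exp (-T / 4) * X.W T := by ring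
  rw [Finset.sum_range_succ']
  have e0 : (X.q T)⁻¹ ^ (0 + 1) * X.ks (fun s φ => lg (2 * s) (2 * φ)) (x + (0 + 1 : ℕ) * T)
      (θ + (0 + 1 : ℕ) * X.ang T) =
      (X.q T)⁻¹ * X.ks (fun s φ => lg (2 * s) (2 * φ)) (x + T) (θ + X.ang T) := by
    simp
  rw [e0]
  linarith only [hfut, hpast]

end ICfg

end

end Pool.Agent.MinMod.Mo
end

-- merged part: Pool.Agent.Work.MP_f62247_an.Mo.J4
section
/-!
# The cell built from a tooth
`ks_base`: `Summable.tsum_sum` (sum type), `tsum_eq_sum`. `U_base`: `Cfg.U_split` at `y = 0`. `W`, `cc` likewise (`cc_sub`).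
`facts`: `calm_drift` on `[0, T]` with `16 μ ≤ 1/10`: `‖cc y‖ ≤ 2 exp (|y - x|/8) ‖cc x‖`. With `y = T - x`: `A T * exp (-γ y) = ‖cc T‖ exp x exp (-(γ-1) y) ≤ 2 A x exp (-3y/8)`. `‖X.cc x - Z.cc x‖ ≤ σ ‖cc T‖ * 3 exp (-(γ-1) y)` (`aux_C`).
`W_L`: `Z.W 0 ≤ C0 L 0`, `Z.W T ≤ C0 exp T * L T`. `N ≤ exp (T/4)` as `4 N ≤ T`. `q ‖cc 0‖ = ‖X.cc T‖ exp T`, `log (1 + 6σ) ≤ 1`.
-/

open Real MeasureTheory Set Filter Topology

namespace Pool.Agent.MinMod.Mo

noncomputable section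

structure Tooth (Z : Cfg) (η μ δ θ c2 : ℝ) (R T : ℕ) : Prop where
  RT : R ≤ T
  min : ∀ x ∈ Icc (-(R : ℝ)) T, Z.Min η x
  calm : ∀ x ∈ Icc (0 : ℝ) T, 0 < ‖Z.cc x‖ ∧ Z.W x ≤ μ * Z.A x
  L0 : Z.L 0 = δ * ‖Z.cc 0‖
  dpos : 0 < δ
  dle : δ ≤ μ
  slow : Z.L R ≤ (1 + θ) * Z.L (-R)
  fin : Z.L T ≤ c2 * δ * ‖Z.cc T‖

theorem Tooth.toSlow {Z : Cfg} {η μ δ θ c2 : ℝ} {R T : ℕ} (h : Tooth Z η μ δ θ c2 R T) (hη : 0 ≤ η)
    (hR : 1 ≤ R) : Slow Z μ θ R := by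
  have h1 : (1 : ℝ) ≤ R := by exact_mod_cast hR
  have h2 : (R : ℝ) ≤ T := by exact_mod_cast h.RT
  refine ⟨fun x hx => (h.min x ⟨hx.1, hx.2.trans h2⟩).mono hη,
    fun x hx => h.calm x ⟨hx.1, hx.2.trans (h1.trans h2)⟩, h.slow, ?_⟩
  rw [h.L0]
  exact mul_pos h.dpos (h.calm 0 ⟨le_rfl, by linarith only [h1, h2]⟩).1

/-- the zeros in `[0, T)` and the auxiliary atoms on the ridge -/
def base (Z : Cfg) (T N : ℕ) (σ : ℝ) : ICfg (ℕ ⊕ ℕ) where
  c := Z.cc 0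
  m := Sum.elim (fun a => if a ∈ Z.s ∧ 0 ≤ Z.ξ a ∧ Z.ξ a < T then 1 else 0)
    (fun i => if i ∈ Finset.Ico 1 T then σ * Z.A T * exp (-gam N * i) else 0)
  ξ := Sum.elim Z.ξ fun i => (T : ℝ) - i
  η := Sum.elim Z.η fun i => -Complex.arg (Z.cc (T - i))

variable {Z : Cfg} {T N : ℕ} {σ : ℝ}

theorem j4_tsum {E : Type} [AddCommMonoid E] [TopologicalSpace E] (S I : Finset ℕ)
    {f : ℕ ⊕ ℕ → E} (h1 : ∀ a, a ∉ S → f (Sum.inl a) = 0) (h2 : ∀ i, i ∉ I → f (Sum.inr i) = 0) :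
    ∑' a, f a = ∑ a ∈ S, f (Sum.inl a) + ∑ i ∈ I, f (Sum.inr i) := by
  rw [tsum_eq_sum (s := S.disjSum I), Finset.sum_disjSum]
  rintro (a | i) ha
  · exact h1 a (by rwa [Finset.inl_mem_disjSum] at ha)
  · exact h2 i (by rwa [Finset.inr_mem_disjSum] at ha)

theorem j4_inl {a : ℕ} (h : (base Z T N σ).m (Sum.inl a) ≠ 0) :
    a ∈ Z.s ∧ 0 ≤ Z.ξ a ∧ Z.ξ a < T := by
  by_contra hn
  exact h (by simp only [base, Sum.elim_inl, if_neg hn])

theorem j4_inr {i : ℕ} (h : (base Z T N σ).m (Sum.inr i) ≠ 0) : i ∈ Finset.Ico 1 T := by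
  by_contra hn
  exact h (by simp only [base, Sum.elim_inr, if_neg hn])

theorem base_valid (Z : Cfg) (T N : ℕ) (hσ : 0 ≤ σ) :
    (base Z T N σ).Valid 0 ∧ ∀ a, (base Z T N σ).m a ≠ 0 → (base Z T N σ).ξ a < T := by
  have hA : 0 ≤ Z.A T := mul_nonneg (norm_nonneg _) (exp_pos _).le
  have hz : ∀ a, a ∉ Z.s.disjSum (Finset.Ico 1 T) → (base Z T N σ).m a = 0 := by
    rintro (a | i) ha
    · rw [Finset.inl_mem_disjSum] at ha
      simp [base, ha]
    · rw [Finset.inr_mem_disjSum] at ha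
      simp only [base, Sum.elim_inr, if_neg ha]
  refine ⟨⟨?_, ?_, ?_, ?_⟩, ?_⟩
  · rintro (a | i)
    · simp only [base, Sum.elim_inl]
      split_ifs <;> norm_num
    · simp only [base, Sum.elim_inr]
      split_ifs
      · positivity
      · exact le_rfl
  · rintro (a | i) ha
    · exact (j4_inl ha).2.1
    · have := (Finset.mem_Ico.1 (j4_inr ha)).2
      have h2 : (i : ℝ) < T := by exact_mod_cast this
      simp only [base, Sum.elim_inr]
      linarith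
  · intro X
    refine (Z.s.disjSum (Finset.Ico 1 T)).finite_toSet.subset fun a ha => ?_
    by_contra hn
    exact ha.1 (hz a hn)
  · refine summable_of_ne_finset_zero (s := Z.s.disjSum (Finset.Ico 1 T)) fun a ha => ?_
    rw [hz a ha, zero_mul]
  · rintro (a | i) ha
    · exact (j4_inl ha).2.2
    · have := (Finset.mem_Ico.1 (j4_inr ha)).1
      have h2 : (1 : ℝ) ≤ i := by exact_mod_cast this
      simp only [base, Sum.elim_inr]
      linarith

theorem ks_base (Z : Cfg) (T N : ℕ) (σ : ℝ) (k : ℝ → ℝ → ℝ) (x θ : ℝ) :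
    (base Z T N σ).ks k x θ =
      ∑ a ∈ Z.s.filter (fun a => 0 ≤ Z.ξ a ∧ Z.ξ a < T), k (x - Z.ξ a) (θ - Z.η a) +
        σ * Z.A T * ∑ i ∈ Finset.Ico 1 T, exp (-gam N * i) *
          k (i - (T - x)) (θ + Complex.arg (Z.cc (T - i))) := by
  unfold ICfg.ks
  rw [j4_tsum (Z.s.filter (fun a => 0 ≤ Z.ξ a ∧ Z.ξ a < T)) (Finset.Ico 1 T), Finset.mul_sum]
  · congr 1
    · refine Finset.sum_congr rfl fun a ha => ?_
      rw [Finset.mem_filter] at ha
      simp only [base, Sum.elim_inl, if_pos ha, one_mul]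
    · refine Finset.sum_congr rfl fun i hi => ?_
      simp only [base, Sum.elim_inr, if_pos hi]
      rw [show x - ((T : ℝ) - i) = i - (T - x) by ring, sub_neg_eq_add, mul_assoc]
  · intro a ha
    rw [Finset.mem_filter] at ha
    simp only [base, Sum.elim_inl, if_neg ha, zero_mul]
  · intro i hi
    simp only [base, Sum.elim_inr, if_neg hi, zero_mul]

theorem U_base (Z : Cfg) (T N : ℕ) (σ x θ : ℝ) :
    (base Z T N σ).U x θ = Z.U x θ - ∑ a ∈ Z.s.filter (fun a => Z.ξ a < 0), lg (x - Z.ξ a) (θ - Z.η a) -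
      ∑ a ∈ Z.s.filter (fun a => (T : ℝ) ≤ Z.ξ a), nk (x - Z.ξ a) (θ - Z.η a) +
        σ * Z.A T * ∑ i ∈ Finset.Ico 1 T, exp (-gam N * i) *
          nk (i - (T - x)) (θ + Complex.arg (Z.cc (T - i))) := by
  have h1 := ks_base Z T N σ nk x θ
  have h2 := Z.U_split 0 x θ
  have h3 : ∑ a ∈ Z.s.filter (fun a => 0 ≤ Z.ξ a), nk (x - Z.ξ a) (θ - Z.η a) =
      ∑ a ∈ Z.s.filter (fun a => 0 ≤ Z.ξ a ∧ Z.ξ a < T), nk (x - Z.ξ a) (θ - Z.η a) +
        ∑ a ∈ Z.s.filter (fun a => (T : ℝ) ≤ Z.ξ a), nk (x - Z.ξ a) (θ - Z.η a) := by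
    rw [Finset.sum_filter, Finset.sum_filter, Finset.sum_filter, ← Finset.sum_add_distrib]
    refine Finset.sum_congr rfl fun a _ => ?_
    have hT : (0 : ℝ) ≤ T := Nat.cast_nonneg T
    by_cases h1 : (T : ℝ) ≤ Z.ξ a
    · simp [h1, hT.trans h1, not_lt.2 h1]
    · by_cases h2 : 0 ≤ Z.ξ a <;> simp [h1, h2, not_le.1 h1]
  have h4 : (base Z T N σ).U x θ =
      (Z.cc 0 * Complex.exp (x + θ * Complex.I)).re + (base Z T N σ).ks nk x θ := rfl
  rw [h4, h1, h2, h3]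
  ring

theorem reg_base {x : ℝ} (h : (base Z T N σ).Reg x) :
    ∀ a ∈ Z.s, 0 ≤ Z.ξ a → Z.ξ a < T → Z.ξ a ≠ x := by
  intro a ha h0 h1
  refine h (Sum.inl a) ?_
  simp [base, ha, h0, h1]

theorem j4_W (Z : Cfg) (T N : ℕ) (σ x : ℝ) : (base Z T N σ).W x ≤
    Z.W x + σ * Z.A T * ∑ i ∈ Finset.Ico 1 T, exp (-gam N * i) * w0 (i - (T - x)) := by
  have h1 : (base Z T N σ).W x = (base Z T N σ).ks (fun s _ => w0 s) x 0 := rfl
  rw [h1, ks_base]
  refine add_le_add ?_ le_rfl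
  exact Finset.sum_le_sum_of_subset_of_nonneg (Finset.filter_subset _ _)
    fun a _ _ => (w0_pos _).le

theorem j4_cc (hσ : 0 ≤ σ) {x : ℝ} (hx : x ∈ Icc (0 : ℝ) T) :
    ‖(base Z T N σ).cc x - Z.cc x‖ ≤ σ * ‖Z.cc T‖ *
      ∑ i ∈ (Finset.Ico 1 T).filter (fun i : ℕ => T - x < i), exp (-gam N * i) * exp i := by
  have hA : 0 ≤ Z.A T := mul_nonneg (norm_nonneg _) (exp_pos _).le
  have h0 := Z.cc_sub hx.1
  have h1 : (base Z T N σ).cc x - Z.cc x =
      ∑ i ∈ (Finset.Ico 1 T).filter (fun i : ℕ => T - x < i),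
        ((σ * Z.A T * exp (-gam N * i) : ℝ) : ℂ) *
          Complex.exp (-(base Z T N σ).ζ (Sum.inr i)) := by
    unfold ICfg.cc
    rw [j4_tsum (Z.s.filter (fun a => 0 ≤ Z.ξ a ∧ Z.ξ a < x))
      ((Finset.Ico 1 T).filter (fun i : ℕ => T - x < i))]
    · have e1 : ∑ a ∈ Z.s.filter (fun a => 0 ≤ Z.ξ a ∧ Z.ξ a < x),
          (if (base Z T N σ).ξ (Sum.inl a) < x then
            (((base Z T N σ).m (Sum.inl a) : ℝ) : ℂ) * Complex.exp (-(base Z T N σ).ζ (Sum.inl a))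
          else 0) = Z.cc x - Z.cc 0 := by
        rw [h0]
        refine Finset.sum_congr rfl fun a ha => ?_
        rw [Finset.mem_filter] at ha
        have h2 : a ∈ Z.s ∧ 0 ≤ Z.ξ a ∧ Z.ξ a < T := ⟨ha.1, ha.2.1, ha.2.2.trans_le hx.2⟩
        have h3 : (base Z T N σ).m (Sum.inl a) = 1 := by
          simp only [base, Sum.elim_inl, if_pos h2]
        rw [if_pos (show (base Z T N σ).ξ (Sum.inl a) < x from ha.2.2), h3, Complex.ofReal_one,
          one_mul]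
        rfl
      have e2 : (base Z T N σ).c = Z.cc 0 := rfl
      rw [e1, e2]
      have e3 : ∀ u v w : ℂ, u + (v - u + w) - v = w := fun u v w => by ring
      rw [e3]
      refine Finset.sum_congr rfl fun i hi => ?_
      rw [Finset.mem_filter] at hi
      have h3 : (base Z T N σ).m (Sum.inr i) = σ * Z.A T * exp (-gam N * i) := by
        simp only [base, Sum.elim_inr, if_pos hi.1]
      rw [if_pos (show (base Z T N σ).ξ (Sum.inr i) < x by
        change (T : ℝ) - i < x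
        linarith only [hi, hi.2]), h3]
    · intro a ha
      split_ifs with h2
      · have h3 : (base Z T N σ).m (Sum.inl a) = 0 := by
          by_contra h4
          exact ha (Finset.mem_filter.2 ⟨(j4_inl h4).1, (j4_inl h4).2.1, h2⟩)
        rw [h3, Complex.ofReal_zero, zero_mul]
      · rfl
    · intro i hi
      split_ifs with h2
      · have h3 : (base Z T N σ).m (Sum.inr i) = 0 := by
          by_contra h4
          refine hi (Finset.mem_filter.2 ⟨j4_inr h4, ?_⟩)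
          change (T : ℝ) - i < x at h2
          linarith only [h2]
        rw [h3, Complex.ofReal_zero, zero_mul]
      · rfl
  rw [h1, Finset.mul_sum]
  refine (norm_sum_le _ _).trans (Finset.sum_le_sum fun i _ => le_of_eq ?_)
  have h2 : (-(base Z T N σ).ζ (Sum.inr i)).re = i - T := by
    simp [ICfg.ζ, base]
  rw [norm_mul, Complex.norm_exp, h2, Complex.norm_real, Real.norm_of_nonneg (by positivity)]
  have h3 : exp (T : ℝ) * exp ((i : ℝ) - T) = exp i := by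
    rw [← exp_add]
    congr 1
    ring
  unfold Cfg.A
  rw [← h3]
  ring

structure BF (Z : Cfg) (C μ δ c2 σ : ℝ) (T N : ℕ) : Prop where
  cell : (base Z T N σ).Cell T
  dr : ∀ x ∈ Icc (0 : ℝ) T, ∀ y ∈ Icc (0 : ℝ) T, ‖Z.cc y‖ ≤ 2 * exp (|y - x| / 8) * ‖Z.cc x‖
  AT : ∀ x ∈ Icc (0 : ℝ) T, Z.A T * exp (-gam N * (T - x)) ≤ 2 * exp (-(3 / 8) * (T - x)) * Z.A x
  cc : ∀ x ∈ Icc (0 : ℝ) T, ‖(base Z T N σ).cc x - Z.cc x‖ ≤ 6 * σ * ‖Z.cc x‖
  W : ∀ x ∈ Icc (0 : ℝ) T, (base Z T N σ).W x ≤ (μ + 40 * σ * N) * Z.A x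
  W0 : (base Z T N σ).W 0 ≤ C * δ * ‖Z.cc 0‖
  WT : (base Z T N σ).W T ≤ C * (c2 * δ + σ) * Z.A T
  ZT : Z.W T ≤ C * (c2 * δ) * Z.A T
  q1 : Z.A T ≤ 2 * ((base Z T N σ).q T * ‖Z.cc 0‖)
  q2 : (base Z T N σ).q T * ‖Z.cc 0‖ ≤ 2 * Z.A T
  lq : Real.log ((base Z T N σ).q T) ≤ T + Real.log (‖Z.cc T‖ / ‖Z.cc 0‖) + 1

theorem facts : ∃ C : ℝ, 1 ≤ C ∧ ∀ (Z : Cfg) (η μ δ θ c2 σ : ℝ) (R T N : ℕ), Tooth Z η μ δ θ c2 R T →
    μ ≤ 1 / 200 → 0 ≤ σ → σ ≤ δ → 2 ≤ N → 4 * N ≤ T → 10 ≤ T → BF Z C μ δ c2 σ T N := by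
  obtain ⟨C0, hC0, hWL⟩ := Cfg.W_L
  refine ⟨C0 + 40, by linarith only [hC0], fun Z η μ δ θ c2 σ R T N h hμ hσ hσδ hN hNT hT => ?_⟩
  have hT10 : (10 : ℝ) ≤ T := by exact_mod_cast hT
  have hT0 : (0 : ℝ) ≤ T := by linarith only [hT10]
  have hN2 : (2 : ℝ) ≤ N := by exact_mod_cast hN
  have hNT' : 4 * (N : ℝ) ≤ T := by exact_mod_cast hNT
  have hμ0 : 0 ≤ μ := h.dpos.le.trans h.dle
  have hσ1 : σ ≤ 1 / 200 := hσδ.trans (h.dle.trans hμ)
  have m0 : (0 : ℝ) ∈ Icc (0 : ℝ) T := ⟨le_rfl, hT0⟩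
  have mT : (T : ℝ) ∈ Icc (0 : ℝ) T := ⟨hT0, le_rfl⟩
  have p0 := (h.calm 0 m0).1
  have pT := (h.calm T mT).1
  have hg : 1 / 2 ≤ gam N - 1 := by
    have : (1 : ℝ) / N ≤ 1 / 2 := one_div_le_one_div_of_le (by norm_num) hN2
    unfold gam
    linarith only [this]
  have hAT : 0 < Z.A T := mul_pos pT (exp_pos _)
  have hA0 : Z.A 0 = ‖Z.cc 0‖ := by simp [Cfg.A]
  -- drift
  have dr : ∀ x ∈ Icc (0 : ℝ) T, ∀ y ∈ Icc (0 : ℝ) T,
      ‖Z.cc y‖ ≤ 2 * exp (|y - x| / 8) * ‖Z.cc x‖ := by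
    intro x hx y hy
    have h1 := calm_drift hμ0 (by linarith only [hμ]) (fun x hx => (h.calm x hx).2) hx hy
    have h2 : ‖Z.cc y‖ ≤ ‖Z.cc x‖ + ‖Z.cc y - Z.cc x‖ := norm_le_insert' _ _
    have h3 : exp (16 * μ * (|y - x| + 1)) ≤ 2 * exp (|y - x| / 8) := by
      have h4 : 16 * μ * (|y - x| + 1) ≤ 1 / 2 + |y - x| / 8 := by
        linarith only [hμ, abs_nonneg (y - x), mul_nonneg_of_nonpos_of_nonpos (Mathlib.Tactic.Linarith.sub_nonpos_of_le hμ) (Mathlib.Tactic.Linarith.sub_nonpos_of_le (abs_nonneg (y - x)))]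
      have h5 : exp (1 / 2 : ℝ) ≤ 2 := by
        have h6 : exp (1 / 2 : ℝ) * exp (1 / 2 : ℝ) = exp 1 := by rw [← exp_add]; norm_num
        (refine le_of_not_gt fun h_nl => ?_; linarith only [h_nl, h6, exp_one_lt_d9, exp_pos (1 / 2 : ℝ), mul_pos_of_neg_of_neg (Mathlib.Tactic.Linarith.sub_neg_of_lt h_nl) (Mathlib.Tactic.Linarith.sub_neg_of_lt h_nl)])
      calc exp (16 * μ * (|y - x| + 1)) ≤ exp (1 / 2 + |y - x| / 8) := exp_le_exp.2 h4
        _ = exp (1 / 2) * exp (|y - x| / 8) := exp_add _ _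
        _ ≤ 2 * exp (|y - x| / 8) := mul_le_mul_of_nonneg_right h5 (exp_pos _).le
    linarith only [h1, h2, h3, mul_le_mul_of_nonneg_right h3 (norm_nonneg (Z.cc x))]
  have key : ∀ x ∈ Icc (0 : ℝ) T, ‖Z.cc T‖ * exp (-(gam N - 1) * (T - x)) ≤
      2 * exp (-(3 / 8) * (T - x)) * ‖Z.cc x‖ := by
    intro x hx
    have h1 := dr x hx T mT
    rw [abs_of_nonneg (sub_nonneg.2 hx.2)] at h1
    have h2 : exp ((T - x) / 8) * exp (-(gam N - 1) * (T - x)) ≤ exp (-(3 / 8) * (T - x)) := by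
      rw [← exp_add, exp_le_exp]
      linarith only [hg, hx, sub_nonneg.2 hx.2, mul_nonneg_of_nonpos_of_nonpos (Mathlib.Tactic.Linarith.sub_nonpos_of_le hg) (Mathlib.Tactic.Linarith.sub_nonpos_of_le (sub_nonneg.mpr hx.right))]
    calc ‖Z.cc T‖ * exp (-(gam N - 1) * (T - x))
        ≤ 2 * exp ((T - x) / 8) * ‖Z.cc x‖ * exp (-(gam N - 1) * (T - x)) :=
          mul_le_mul_of_nonneg_right h1 (exp_pos _).le
      _ = 2 * (exp ((T - x) / 8) * exp (-(gam N - 1) * (T - x))) * ‖Z.cc x‖ := by ring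
      _ ≤ 2 * exp (-(3 / 8) * (T - x)) * ‖Z.cc x‖ := by gcongr
  have AT : ∀ x ∈ Icc (0 : ℝ) T,
      Z.A T * exp (-gam N * (T - x)) ≤ 2 * exp (-(3 / 8) * (T - x)) * Z.A x := by
    intro x hx
    have h1 := mul_le_mul_of_nonneg_right (key x hx) (exp_pos x).le
    have h2 : exp (T : ℝ) * exp (-gam N * (T - x)) = exp (-(gam N - 1) * (T - x)) * exp x := by
      rw [← exp_add, ← exp_add]
      congr 1
      ring
    unfold Cfg.A
    rw [mul_assoc, h2]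
    linarith only [h1]
  have e38 : ∀ x ∈ Icc (0 : ℝ) T, exp (-(3 / 8) * (T - x)) ≤ 1 := fun x hx =>
    exp_le_one_iff.2 (by linarith only [hx, sub_nonneg.2 hx.2])
  have cc : ∀ x ∈ Icc (0 : ℝ) T, ‖(base Z T N σ).cc x - Z.cc x‖ ≤ 6 * σ * ‖Z.cc x‖ := by
    intro x hx
    have h1 := j4_cc (Z := Z) (T := T) (N := N) hσ hx
    have h2 := aux_C hN T (T - x)
    have h3 := key x hx
    have h4 := mul_le_mul_of_nonneg_right (e38 x hx) (norm_nonneg (Z.cc x))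
    calc ‖(base Z T N σ).cc x - Z.cc x‖ ≤ _ := h1
      _ ≤ σ * ‖Z.cc T‖ * (3 * exp (-(gam N - 1) * (T - x))) :=
          mul_le_mul_of_nonneg_left h2 (mul_nonneg hσ pT.le)
      _ = 3 * σ * (‖Z.cc T‖ * exp (-(gam N - 1) * (T - x))) := by ring
      _ ≤ 3 * σ * (2 * ‖Z.cc x‖) := mul_le_mul_of_nonneg_left (by linarith only [h3, h4]) (by linarith only [hσ])
      _ = 6 * σ * ‖Z.cc x‖ := by ring
  have hW : ∀ x ∈ Icc (0 : ℝ) T, (base Z T N σ).W x ≤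
      Z.W x + 40 * σ * N * exp (-(3 / 8) * (T - x)) * Z.A x := by
    intro x hx
    have h1 := j4_W Z T N σ x
    have h2 := aux_W hN T (y := T - x) (by linarith only [hx, hx.2])
    have h3 := AT x hx
    have h4 : σ * Z.A T * ∑ i ∈ Finset.Ico 1 T, exp (-gam N * i) * w0 (i - (T - x)) ≤
        40 * σ * N * exp (-(3 / 8) * (T - x)) * Z.A x :=
      calc σ * Z.A T * ∑ i ∈ Finset.Ico 1 T, exp (-gam N * i) * w0 (i - (T - x))
          ≤ σ * Z.A T * (20 * N * exp (-gam N * (T - x))) :=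
            mul_le_mul_of_nonneg_left h2 (mul_nonneg hσ hAT.le)
        _ = 20 * σ * N * (Z.A T * exp (-gam N * (T - x))) := by ring
        _ ≤ 20 * σ * N * (2 * exp (-(3 / 8) * (T - x)) * Z.A x) :=
            mul_le_mul_of_nonneg_left h3 (by positivity)
        _ = _ := by ring
    linarith only [h1, h4]
  have hc2 : 0 ≤ c2 * δ := by
    have h1 := (Z.L_nonneg T).trans h.fin
    exact nonneg_of_mul_nonneg_left h1 pT
  have ZT : Z.W T ≤ C0 * (c2 * δ) * Z.A T := by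
    have h1 := (hWL Z T).1
    have h2 := mul_le_mul_of_nonneg_left h.fin (exp_pos (T : ℝ)).le
    have h3 := mul_le_mul_of_nonneg_left h2 (by linarith only [hC0] : 0 ≤ C0)
    unfold Cfg.A
    linarith only [h1, h3]
  have hq : (base Z T N σ).q T * ‖Z.cc 0‖ = ‖(base Z T N σ).cc T‖ * exp T := by
    have : (base Z T N σ).c = Z.cc 0 := rfl
    unfold ICfg.q ICfg.Q
    rw [this, norm_div]
    field_simp
  have hlo : ‖Z.cc T‖ ≤ 2 * ‖(base Z T N σ).cc T‖ := by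
    have h1 := cc T mT
    have h2 : ‖Z.cc T‖ ≤ ‖(base Z T N σ).cc T‖ + ‖(base Z T N σ).cc T - Z.cc T‖ :=
      norm_le_insert _ _
    linarith only [pT, h1, h2, hσ1, mul_nonneg_of_nonpos_of_nonpos (Mathlib.Tactic.Linarith.sub_nonpos_of_le hσ1) (le_of_lt (Mathlib.Tactic.Linarith.sub_neg_of_lt pT))]
  have hhi : ‖(base Z T N σ).cc T‖ ≤ 2 * ‖Z.cc T‖ := by
    have h1 := cc T mT
    have h2 : ‖(base Z T N σ).cc T‖ ≤ ‖Z.cc T‖ + ‖(base Z T N σ).cc T - Z.cc T‖ :=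
      norm_le_insert' _ _
    linarith only [pT, h1, h2, hσ1, mul_nonneg_of_nonpos_of_nonpos (Mathlib.Tactic.Linarith.sub_nonpos_of_le hσ1) (le_of_lt (Mathlib.Tactic.Linarith.sub_neg_of_lt pT))]
  have q1 : Z.A T ≤ 2 * ((base Z T N σ).q T * ‖Z.cc 0‖) := by
    rw [hq]
    unfold Cfg.A
    linarith only [hlo, exp_pos (T : ℝ), mul_nonneg_of_nonpos_of_nonpos (Mathlib.Tactic.Linarith.sub_nonpos_of_le hlo) (le_of_lt (Mathlib.Tactic.Linarith.sub_neg_of_lt (exp_pos ↑T)))]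
  have q2 : (base Z T N σ).q T * ‖Z.cc 0‖ ≤ 2 * Z.A T := by
    rw [hq]
    unfold Cfg.A
    (refine le_of_not_gt fun h_nl => ?_; linarith only [h_nl, pT, hq, hAT, hhi, hlo, q1, exp_pos (T : ℝ), Mathlib.Tactic.Linarith.mul_zero_eq (Mathlib.Tactic.Linarith.sub_neg_of_lt pT) (sub_eq_zero_of_eq hq), mul_pos_of_neg_of_neg (Mathlib.Tactic.Linarith.sub_neg_of_lt pT) (Mathlib.Tactic.Linarith.sub_neg_of_lt h_nl), mul_nonneg_of_nonpos_of_nonpos (le_of_lt (Mathlib.Tactic.Linarith.sub_neg_of_lt hAT)) (Mathlib.Tactic.Linarith.sub_nonpos_of_le hhi), Mathlib.Tactic.Linarith.zero_mul_eq (sub_eq_zero_of_eq hq) (Mathlib.Tactic.Linarith.sub_nonpos_of_le hlo), mul_nonneg_of_nonpos_of_nonpos (Mathlib.Tactic.Linarith.sub_nonpos_of_le hlo) (le_of_lt (Mathlib.Tactic.Linarith.sub_neg_of_lt h_nl)), mul_nonneg_of_nonpos_of_nonpos (Mathlib.Tactic.Linarith.sub_nonpos_of_le hhi) (Mathlib.Tactic.Linarith.sub_nonpos_of_le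 q1)])
  have d0T := dr 0 m0 T mT
  have dT0 := dr T mT 0 m0
  rw [sub_zero, abs_of_nonneg hT0] at d0T
  rw [zero_sub, abs_neg, abs_of_nonneg hT0] at dT0
  have e4 : 4 ≤ exp (3 * (T : ℝ) / 8) := by linarith only [hT10, add_one_le_exp (3 * (T : ℝ) / 8)]
  have qlo : exp ((T : ℝ) / 2) ≤ (base Z T N σ).q T := by
    refine le_of_mul_le_mul_right ?_ p0
    have h1 : exp (T : ℝ) = exp (3 * (T : ℝ) / 8) * (exp ((T : ℝ) / 2) * exp ((T : ℝ) / 8)) := by
      rw [← exp_add, ← exp_add]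
      congr 1
      ring
    have h2 := mul_le_mul_of_nonneg_left dT0 (exp_pos ((T : ℝ) / 2)).le
    have h3 : 4 * (exp ((T : ℝ) / 2) * exp ((T : ℝ) / 8)) ≤ exp (T : ℝ) := by
      rw [h1]
      exact mul_le_mul_of_nonneg_right e4 (by positivity)
    have h4 := mul_le_mul_of_nonneg_left h3 pT.le
    unfold Cfg.A at q1
    linarith only [q1, h2, h4]
  have qhi : (base Z T N σ).q T ≤ exp (3 * (T : ℝ) / 2) := by
    refine le_of_mul_le_mul_right ?_ p0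
    have h1 : exp (3 * (T : ℝ) / 2) = exp (3 * (T : ℝ) / 8) * (exp (T : ℝ) * exp ((T : ℝ) / 8)) := by
      rw [← exp_add, ← exp_add]
      congr 1
      ring
    have h2 := mul_le_mul_of_nonneg_left d0T (exp_pos (T : ℝ)).le
    have h3 : 4 * (exp (T : ℝ) * exp ((T : ℝ) / 8)) ≤ exp (3 * (T : ℝ) / 2) := by
      rw [h1]
      exact mul_le_mul_of_nonneg_right e4 (by positivity)
    have h4 := mul_le_mul_of_nonneg_left h3 p0.le
    unfold Cfg.A at q2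
    linarith only [q2, h2, h4]
  have qpos : 0 < (base Z T N σ).q T := (exp_pos _).trans_le qlo
  refine ⟨⟨(base_valid Z T N hσ).1, (base_valid Z T N hσ).2, norm_pos_iff.1 p0, hT10, qlo, qhi⟩,
    dr, AT, cc, ?_, ?_, ?_, ?_, q1, q2, ?_⟩
  · intro x hx
    have h1 := hW x hx
    have h2 := (h.calm x hx).2
    have h3 : 0 ≤ Z.A x := mul_nonneg (norm_nonneg _) (exp_pos _).le
    have h4 : 40 * σ * N * exp (-(3 / 8) * (T - x)) * Z.A x ≤ 40 * σ * N * 1 * Z.A x := by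
      have := e38 x hx
      gcongr
    linarith only [h1, h2, h4]
  · have h1 := hW 0 m0
    have h2 := (hWL Z 0).1
    rw [exp_zero, one_mul, h.L0] at h2
    rw [hA0, sub_zero] at h1
    have h3 : (N : ℝ) * exp (-(3 / 8) * T) ≤ 1 := by
      have h4 : (N : ℝ) ≤ exp (3 / 8 * T) := by linarith only [hT10, hNT', add_one_le_exp (3 / 8 * (T : ℝ))]
      calc (N : ℝ) * exp (-(3 / 8) * T) ≤ exp (3 / 8 * T) * exp (-(3 / 8) * T) :=
            mul_le_mul_of_nonneg_right h4 (exp_pos _).le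
        _ = 1 := by rw [← exp_add]; simp
    have h5 : σ * (N * exp (-(3 / 8) * T)) ≤ δ := by linarith only [hσδ, hσ, h3, mul_nonneg_of_nonpos_of_nonpos (Mathlib.Tactic.Linarith.sub_nonpos_of_le hσ) (Mathlib.Tactic.Linarith.sub_nonpos_of_le h3)]
    have h6 := mul_le_mul_of_nonneg_right h5 p0.le
    linarith only [h1, h2, h6]
  · have h1 := j4_W Z T N σ T
    simp only [sub_self, sub_zero] at h1
    have h2 := mul_le_mul_of_nonneg_left (aux_W0 hN T) (mul_nonneg hσ hAT.le)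
    have h3 := mul_nonneg hc2 hAT.le
    have h4 := mul_nonneg hσ hAT.le
    have h5 := mul_nonneg (by linarith only [hC0] : 0 ≤ C0) h4
    linarith only [ZT, h1, h2, h3, h4, h5]
  · have h3 := mul_nonneg hc2 hAT.le
    linarith only [ZT, h3]
  · have h1 : (base Z T N σ).q T ≤ exp T * (‖Z.cc T‖ / ‖Z.cc 0‖) * 2 := by
      refine le_of_mul_le_mul_right ?_ p0
      have : exp (T : ℝ) * (‖Z.cc T‖ / ‖Z.cc 0‖) * 2 * ‖Z.cc 0‖ = 2 * Z.A T := by
        unfold Cfg.A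
        field_simp
      rw [this]
      exact q2
    have h2 := Real.log_le_log qpos h1
    have h3 : 0 < ‖Z.cc T‖ / ‖Z.cc 0‖ := div_pos pT p0
    rw [Real.log_mul (by positivity) (by norm_num), Real.log_mul (by positivity) h3.ne',
      Real.log_exp] at h2
    linarith only [h2, Real.log_two_lt_d9]

end

end Pool.Agent.MinMod.Mo
end
end

-- merged part: Pool.Agent.Work.MP_f62247_an.Mo.J6
section
-- merged part: Pool.Agent.Work.MP_f62247_an.Mo.J5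
section
/-!
# The periodic configuration is calm; the cover far from the junctions
`per_calm`: `exists_cell`, `Cell.W_le`, `A_eq`, `cc_eq`, `calm_of_right`; `q ‖cc 0‖ ≤ 2 A T`, `A T exp (2 (x - T)) ≤ A T exp (-γ (T - x)) ≤ 2 A x`, `q⁻¹ A T ≤ 2 ‖cc 0‖`, `(1 + x) ‖cc 0‖ ≤ 4 A x`, `A x ≤ 2 X.A x`.
`far`: `V θ = X.U x θ + 2 exp (2(x-T)) q W 0 + 2 q⁻¹ (1+x) W T` bounds the normalised `U` (`Cell.U_le`). By `U_base`: the past sum is `≥ (x/2) c L 0 ≥ (1+x) c δ ‖cc 0‖ / 4` (`lg_ge_half`) and beats `2 q⁻¹ (1+x) W T ≤ 4 C (c2 + σ0) δ ‖cc 0‖ (1 + x)`; the future sum is at most `2 exp (2(x-T)) Z.W T` (`abs_nk_le_far`).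
If `|im (cc x e^{iθ})| ≤ ‖cc x‖ / 20` then the auxiliary atoms at distance `≤ 10 N` are aligned (`calm_drift`, `align_transfer`, `im_eq_sin`), `aux_neg` beats the two terms of size `C δ A T exp (2(x-T))`, so `V θ ≤ Z.U x θ`. For all `θ`: `V θ ≤ Z.U x θ + (40 N + 12 C) μ A x` (`aux_any`).
`y` is the minimum point of `Z` (`x` is regular for `Z`: `Cell.reg`, `reg_base`). If `|im (cc x e^{iy})| ≤ ‖cc x‖/50`: strong cover, since `V y' ≤ B x` for all `y'` (`U_le_B` if aligned; otherwise `re_le_of_im`, `Cfg.U_le`, `B_close`). Otherwise the weak alternative. Transport with `cc_rot`, `A_eq`; every `y'` is `y'' + n ϑ`.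
-/

open Real MeasureTheory Set Filter Topology

namespace Pool.Agent.MinMod.Mo

noncomputable section

def ICfg.CovAt {ι : Type} (Y : ICfg ι) (k ε μ a x : ℝ) : Prop :=
  ∃ y : ℝ, (∀ y' : ℝ, Y.U x y + k * Y.U x y' ≤ ε * Y.A x) ∨
    (a * ‖Y.cc x‖ ≤ |(Y.cc x * Complex.exp (y * Complex.I)).im| ∧ Y.U x y ≤ -(1 - μ) * Y.A x)

section

variable {Z : Cfg} {η μ δ θ c2 C σ x : ℝ} {R T N : ℕ}

theorem j5_A (h : Tooth Z η μ δ θ c2 R T) (hx : x ∈ Icc (0 : ℝ) T) : 0 < Z.A x :=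
  mul_pos (h.calm x hx).1 (exp_pos _)

theorem j5_q (b : BF Z C μ δ c2 σ T N) : 0 < (base Z T N σ).q T :=
  (exp_pos _).trans_le b.cell.qlo

theorem j5_g (N : ℕ) {T x : ℝ} (hx : x ≤ T) : exp (2 * (x - T)) ≤ exp (-gam N * (T - x)) := by
  apply exp_le_exp.2
  have h1 : (0 : ℝ) ≤ 1 / N := by positivity
  unfold gam
  linarith only [hx, h1, mul_nonneg_of_nonpos_of_nonpos (Mathlib.Tactic.Linarith.sub_nonpos_of_le hx) (Mathlib.Tactic.Linarith.sub_nonpos_of_le h1)]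

theorem j5_AT (b : BF Z C μ δ c2 σ T N) (hx : x ∈ Icc (0 : ℝ) T) :
    Z.A T * exp (-gam N * (T - x)) ≤ 2 * Z.A x := by
  have h1 : exp (-(3 / 8) * (T - x)) ≤ 1 := exp_le_one_iff.2 (by linarith only [hx, hx.2])
  have h2 : 0 ≤ Z.A x := mul_nonneg (norm_nonneg _) (exp_pos _).le
  have h3 := b.AT x hx
  linarith only [h3, h1, h2, mul_nonneg_of_nonpos_of_nonpos (Mathlib.Tactic.Linarith.sub_nonpos_of_le h1) (Mathlib.Tactic.Linarith.sub_nonpos_of_le h2)]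

theorem j5_a0 (b : BF Z C μ δ c2 σ T N) (hx : x ∈ Icc (0 : ℝ) T) :
    (1 + x) * ‖Z.cc 0‖ ≤ 4 * Z.A x := by
  have h1 := b.dr x hx 0 ⟨le_rfl, Nat.cast_nonneg _⟩
  rw [zero_sub, abs_neg, abs_of_nonneg hx.1] at h1
  have h2 : 1 + x ≤ 2 * exp (7 * x / 8) := by linarith only [hx, add_one_le_exp (7 * x / 8), hx.1]
  have h3 : exp x = exp (7 * x / 8) * exp (x / 8) := by
    rw [← exp_add]
    congr 1
    ring
  refine (mul_le_mul h2 h1 (norm_nonneg _) (by positivity)).trans (le_of_eq ?_)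
  rw [Cfg.A, h3]
  ring

theorem j5_E1 (b : BF Z C μ δ c2 σ T N) (hC : 0 ≤ C) (hδ : 0 ≤ δ) (hx : x ≤ T) :
    2 * exp (2 * (x - T)) * (base Z T N σ).q T * (base Z T N σ).W 0 ≤
      4 * C * δ * (Z.A T * exp (-gam N * (T - x))) := by
  have hq := j5_q b
  have h1 := mul_le_mul_of_nonneg_left b.W0 hq.le
  have h2 := mul_le_mul_of_nonneg_left b.q2 (mul_nonneg hC hδ)
  have h3 : (base Z T N σ).q T * (base Z T N σ).W 0 ≤ 2 * C * δ * Z.A T := by linarith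
  have h4 : 0 ≤ Z.A T := mul_nonneg (norm_nonneg _) (exp_pos _).le
  have h5 := mul_le_mul h3 (j5_g N hx) (exp_pos _).le (by positivity)
  linarith

theorem j5_E2 (b : BF Z C μ δ c2 σ T N) (hC : 0 ≤ C) {κ : ℝ} (h0 : 0 ≤ κ) (hκ : c2 * δ + σ ≤ κ)
    (hx : 0 ≤ x) : 2 * ((base Z T N σ).q T)⁻¹ * (1 + x) * (base Z T N σ).W T ≤
      4 * C * κ * ((1 + x) * ‖Z.cc 0‖) := by
  have hq := j5_q b
  have h4 : 0 ≤ Z.A T := mul_nonneg (norm_nonneg _) (exp_pos _).le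
  have h1 : (base Z T N σ).W T ≤ C * κ * (2 * ((base Z T N σ).q T * ‖Z.cc 0‖)) :=
    b.WT.trans (mul_le_mul (mul_le_mul_of_nonneg_left hκ hC) b.q1 h4 (by positivity))
  have h2 : ((base Z T N σ).q T)⁻¹ * (base Z T N σ).W T ≤ 2 * C * κ * ‖Z.cc 0‖ := by
    rw [inv_mul_le_iff₀ hq]
    linarith
  have h3 := mul_le_mul_of_nonneg_left h2 (by linarith only [hx] : 0 ≤ 2 * (1 + x))
  linarith only [h3]

theorem j5_cc (b : BF Z C μ δ c2 σ T N) (hx : x ∈ Icc (0 : ℝ) T) :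
    (1 - 6 * σ) * ‖Z.cc x‖ ≤ ‖(base Z T N σ).cc x‖ ∧
      ‖(base Z T N σ).cc x‖ ≤ (1 + 6 * σ) * ‖Z.cc x‖ := by
  have h1 := abs_le.1 ((abs_norm_sub_norm_le _ _).trans (b.cc x hx))
  constructor <;> linarith only [h1, h1.1, h1.2]

theorem j5_XA (b : BF Z C μ δ c2 σ T N) (hx : x ∈ Icc (0 : ℝ) T) :
    (1 - 6 * σ) * Z.A x ≤ (base Z T N σ).A x ∧ (base Z T N σ).A x ≤ (1 + 6 * σ) * Z.A x := by
  obtain ⟨h1, h2⟩ := j5_cc b hx
  have h3 := mul_le_mul_of_nonneg_right h1 (exp_pos x).le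
  have h4 := mul_le_mul_of_nonneg_right h2 (exp_pos x).le
  simp only [Cfg.A, ICfg.A]
  constructor <;> linarith only [h3, h4]

theorem j5_past (Z : Cfg) (hx : 1 ≤ x) (θ : ℝ) :
    ((Z.s.filter fun a => Z.ξ a < -1).card : ℝ) * ((1 + x) / 2) ≤
      ∑ a ∈ Z.s.filter (fun a => Z.ξ a < 0), lg (x - Z.ξ a) (θ - Z.η a) := by
  rw [← nsmul_eq_mul, ← Finset.sum_const]
  refine (Finset.sum_le_sum fun a ha => ?_).trans
    (Finset.sum_le_sum_of_subset_of_nonneg (fun a ha => ?_) fun a ha _ => ?_)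
  · have h1 := (Finset.mem_filter.1 ha).2
    exact le_trans (by linarith only [h1]) (lg_ge_half (by linarith) _)
  · rw [Finset.mem_filter] at ha ⊢
    exact ⟨ha.1, by linarith [ha.2]⟩
  · have h1 := (Finset.mem_filter.1 ha).2
    exact le_trans (by linarith) (lg_ge_half (by linarith) _)

theorem j5_fut (Z : Cfg) {T x : ℝ} (hx : x ≤ T - 1) (θ : ℝ) :
    -∑ a ∈ Z.s.filter (fun a => T ≤ Z.ξ a), nk (x - Z.ξ a) (θ - Z.η a) ≤
      2 * exp (2 * (x - T)) * Z.W T := by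
  rw [← Finset.sum_neg_distrib, Cfg.W, Finset.mul_sum]
  refine (Finset.sum_le_sum fun a ha => ?_).trans
    (Finset.sum_le_sum_of_subset_of_nonneg (Finset.filter_subset _ _) fun a _ _ =>
      mul_nonneg (by positivity) (w0_pos _).le)
  have h1 := (Finset.mem_filter.1 ha).2
  refine (neg_le_abs _).trans ((abs_nk_le_far (by linarith) _).trans (le_of_eq ?_))
  rw [w0_of_nonpos (by linarith), mul_assoc, ← exp_add]
  congr 2
  ring

/-- the bound for the normalised function of the periodic configuration -/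
def j5_V (X : ICfg (ℕ ⊕ ℕ)) (T x θ : ℝ) : ℝ :=
  X.U x θ + 2 * exp (2 * (x - T)) * X.q T * X.W 0 + 2 * (X.q T)⁻¹ * (1 + x) * X.W T

theorem j5_V_le {c σ0 : ℝ} (h : Tooth Z η μ δ θ c2 R T) (b : BF Z C μ δ c2 (σ0 * δ) T N)
    (hC : 1 ≤ C) (hσ : 0 < σ0) (hσ1 : σ0 ≤ 1) (hc : 32 * C * σ0 ≤ c) (h2 : c2 ≤ σ0)
    (hL : c * Z.L 0 ≤ ((Z.s.filter fun a => Z.ξ a < -1).card : ℝ)) (h0 : 1 ≤ x) (h1 : x ≤ T - 1)
    (φ : ℝ) : j5_V (base Z T N (σ0 * δ)) T x φ ≤ Z.U x φ +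
      6 * C * δ * (Z.A T * exp (-gam N * (T - x))) + σ0 * δ * Z.A T *
        ∑ i ∈ Finset.Ico 1 T, exp (-gam N * i) *
          nk (i - (T - x)) (φ + Complex.arg (Z.cc (T - i))) := by
  have hδ := h.dpos
  have hC0 : 0 ≤ C := by linarith
  have e1 := j5_E1 b hC0 hδ.le (by linarith : x ≤ T)
  have e2 := j5_E2 b hC0 (κ := 2 * σ0 * δ) (by positivity) (by linarith only [h2, hδ, mul_nonneg_of_nonpos_of_nonpos (Mathlib.Tactic.Linarith.sub_nonpos_of_le h2) (le_of_lt (Mathlib.Tactic.Linarith.sub_neg_of_lt hδ))]) (by linarith : 0 ≤ x)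
  have e3 := j5_past Z h0 φ
  have e4 := j5_fut Z h1 φ
  have hA : 0 ≤ Z.A T := mul_nonneg (norm_nonneg _) (exp_pos _).le
  have e5 : Z.W T ≤ C * δ * Z.A T := by
    refine b.ZT.trans (mul_le_mul_of_nonneg_right (mul_le_mul_of_nonneg_left ?_ hC0) hA)
    linarith only [hσ1, hδ, h2, mul_nonneg_of_nonpos_of_nonpos (Mathlib.Tactic.Linarith.sub_nonpos_of_le hσ1) (le_of_lt (Mathlib.Tactic.Linarith.sub_neg_of_lt hδ)), mul_nonneg_of_nonpos_of_nonpos (Mathlib.Tactic.Linarith.sub_nonpos_of_le h2) (le_of_lt (Mathlib.Tactic.Linarith.sub_neg_of_lt hδ))]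
  have e6 := mul_le_mul e5 (j5_g N (by linarith only [h1] : x ≤ T)) (exp_pos _).le (by positivity)
  have e7 := mul_le_mul_of_nonneg_right hL (by linarith only [h0] : 0 ≤ (1 + x) / 2)
  rw [h.L0] at e7
  have e8 := mul_le_mul_of_nonneg_right hc
    (by positivity : 0 ≤ δ * ‖Z.cc 0‖ * ((1 + x) / 2))
  have e9 : 0 ≤ C * σ0 * δ * ((1 + x) * ‖Z.cc 0‖) := by positivity
  rw [j5_V, U_base]
  linarith only [e1, e2, e3, e4, e6, e7, e8, e9]

theorem j5_align (h : Tooth Z η μ δ θ c2 R T) (hμ : μ * (160 * N + 16) ≤ 1 / 100)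
    (h0 : 0 ≤ x) (h1 : x ≤ T) {φ : ℝ}
    (ha : |(Z.cc x * Complex.exp (φ * Complex.I)).im| ≤ 1 / 20 * ‖Z.cc x‖) :
    ∀ i ∈ Finset.Ico 1 T, (T - x) - 10 * N ≤ i → (i : ℝ) ≤ (T - x) - 1 →
      |sin (φ + Complex.arg (Z.cc (T - i)))| ≤ 1 / 4 := by
  intro i hi a1 a2
  have hμ0 : 0 ≤ μ := h.dpos.le.trans h.dle
  have hN : (0 : ℝ) ≤ N := Nat.cast_nonneg _
  have hi0 : (0 : ℝ) ≤ i := Nat.cast_nonneg _
  have hy : (T : ℝ) - i ∈ Icc (0 : ℝ) T := ⟨by linarith only [h0, a2], by linarith only []⟩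
  have d1 := calm_drift hμ0 (by linarith only [hμ, hμ0, mul_nonneg_of_nonpos_of_nonpos (Mathlib.Tactic.Linarith.sub_nonpos_of_le (Mathlib.Tactic.Linarith.natCast_nonneg ℝ N)) (Mathlib.Tactic.Linarith.sub_nonpos_of_le hμ0)]) (fun z hz => (h.calm z hz).2) ⟨h0, h1⟩ hy
  have d2 : 16 * μ * (|T - i - x| + 1) ≤ 1 / 100 := by
    rw [abs_of_nonneg (by linarith only [a2])]
    (refine le_of_not_gt fun h_nl => ?_; linarith only [h_nl, hμ, a1, a2, mul_nonneg_of_nonpos_of_nonpos (Mathlib.Tactic.Linarith.sub_nonpos_of_le (Mathlib.Tactic.Linarith.natCast_nonneg ℝ N)) (le_of_lt (Mathlib.Tactic.Linarith.sub_neg_of_lt h_nl)), mul_nonneg_of_nonpos_of_nonpos (Mathlib.Tactic.Linarith.sub_nonpos_of_le hμ) (Mathlib.Tactic.Linarith.sub_nonpos_of_le a2)])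
  have d3 : exp (16 * μ * (|T - i - x| + 1)) - 1 ≤ 1 / 20 := by
    have d4 := exp_le_exp.2 d2
    have d5 := add_one_le_exp (-(1 / 100) : ℝ)
    have d6 : exp (1 / 100 : ℝ) * exp (-(1 / 100)) = 1 := by rw [← exp_add]; simp
    (refine le_of_not_gt fun h_nl => ?_; linarith only [h_nl, d4, d5, d6, exp_pos (1 / 100 : ℝ), mul_nonneg_of_nonpos_of_nonpos (Mathlib.Tactic.Linarith.sub_nonpos_of_le d4) (Mathlib.Tactic.Linarith.sub_nonpos_of_le d5), mul_nonneg_of_nonpos_of_nonpos (Mathlib.Tactic.Linarith.sub_nonpos_of_le d5) (le_of_lt (Mathlib.Tactic.Linarith.sub_neg_of_lt h_nl))])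
  have d7 := align_transfer (t := 1 / 20) (by norm_num)
    (d1.trans (mul_le_mul_of_nonneg_right d3 (norm_nonneg _))) ha
  have d8 := (h.calm _ hy).1
  rw [im_eq_sin, abs_mul, abs_norm] at d7
  (refine le_of_not_gt fun h_nl => ?_; linarith only [h_nl, d7, d8, mul_pos_of_neg_of_neg (Mathlib.Tactic.Linarith.sub_neg_of_lt d8) (Mathlib.Tactic.Linarith.sub_neg_of_lt h_nl)])

theorem j5_re (Z : Cfg) (hr : Z.Reg x) {φ : ℝ}
    (ha : 1 / 20 * ‖Z.cc x‖ ≤ |(Z.cc x * Complex.exp (φ * Complex.I)).im|) :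
    Z.U x φ ≤ (1 - 1 / 800) * Z.A x + Z.W x := by
  have h1 := Z.U_le le_rfl hr φ
  have h2 : ‖Z.cc x * Complex.exp (φ * Complex.I)‖ = ‖Z.cc x‖ := by
    rw [norm_mul, Complex.norm_exp_ofReal_mul_I, mul_one]
  have h3 := re_le_of_im (t := 1 / 20) (by norm_num) (h2 ▸ ha)
  have h4 : Z.cc x * Complex.exp (x + φ * Complex.I) =
      (exp x : ℝ) * (Z.cc x * Complex.exp (φ * Complex.I)) := by
    rw [Complex.exp_add, Complex.ofReal_exp]
    ring
  rw [h4, Complex.re_ofReal_mul, sub_self, mul_zero, exp_zero, one_mul] at h1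
  rw [h2] at h3
  have h5 := mul_le_mul_of_nonneg_left h3 (exp_pos x).le
  rw [Cfg.A]
  linarith only [h1, h5]

end

theorem per_calm {C ν : ℝ} (hC : 1 ≤ C) (hν : 0 < ν) (N : ℕ) : ∃ μ1 : ℝ, 0 < μ1 ∧
    ∀ (Z : Cfg) (η μ δ θ c2 σ : ℝ) (R T : ℕ), Tooth Z η μ δ θ c2 R T → BF Z C μ δ c2 σ T N →
      μ ≤ μ1 → 0 ≤ σ → σ ≤ δ → c2 ≤ 1 → 2 ≤ N →
      ((base Z T N σ).per T).Calm ν ∧ ∀ x ∈ Icc (0 : ℝ) T, (base Z T N σ).cc x ≠ 0 := by
  have hK : 0 < 2 * (1 + 40 * (N : ℝ) + 40 * C) := by positivity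
  refine ⟨min (1 / 12) (ν / (2 * (1 + 40 * N + 40 * C))), by positivity, ?_⟩
  intro Z η μ δ θ c2 σ R T h b hμ h0 h1 h2 _
  have hδ := h.dpos
  have hd := h.dle
  have m1 := hμ.trans (min_le_left _ _)
  have m2 := (le_div_iff₀ hK).1 (hμ.trans (min_le_right _ _))
  have hq := j5_q b
  have hne : ∀ x ∈ Icc (0 : ℝ) T, 0 < ‖(base Z T N σ).cc x‖ := fun x hx =>
    (mul_pos (by linarith only [h1, hδ, hd, m1]) (h.calm x hx).1).trans_le (j5_cc b hx).1
  refine ⟨b.cell.per_valid.calm_of_right fun x hx => ?_, fun x hx => norm_pos_iff.1 (hne x hx)⟩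
  obtain ⟨n, x', a0, a1, rfl⟩ := b.cell.exists_cell hx
  have hx' : x' ∈ Icc (0 : ℝ) T := ⟨a0, a1.le⟩
  constructor
  · rw [b.cell.cc_eq n a0 a1.le, norm_mul, norm_pow]
    exact mul_pos (pow_pos ((mul_pos_iff_of_pos_right (exp_pos _)).1 hq) _) (hne x' hx')
  refine (b.cell.W_le n a0 a1.le).trans ?_
  rw [b.cell.A_eq n a0 a1.le, mul_left_comm]
  refine mul_le_mul_of_nonneg_left ?_ (pow_pos hq _).le
  have hC0 : 0 ≤ C := by linarith only [hC, hδ, hd, m1]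
  have hN : (0 : ℝ) ≤ N := Nat.cast_nonneg _
  have hA := j5_A h hx'
  have e0 := b.W x' hx'
  have e1 := j5_E1 b hC0 hδ.le a1.le
  have e2 := j5_E2 b hC0 (κ := 2 * δ) (by positivity) (by linarith only [h1, h0, h2, mul_nonneg_of_nonpos_of_nonpos (Mathlib.Tactic.Linarith.sub_nonpos_of_le h0) (Mathlib.Tactic.Linarith.sub_nonpos_of_le h2), mul_nonneg_of_nonpos_of_nonpos (Mathlib.Tactic.Linarith.sub_nonpos_of_le h1) (Mathlib.Tactic.Linarith.sub_nonpos_of_le h2)]) a0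
  have e3 := mul_le_mul_of_nonneg_left (j5_AT b hx') (by positivity : 0 ≤ 4 * C * δ)
  have e4 := mul_le_mul_of_nonneg_left (j5_a0 b hx') (by positivity : 0 ≤ 4 * C * (2 * δ))
  have e5 := mul_le_mul_of_nonneg_right hd (by positivity : 0 ≤ 40 * C * Z.A x')
  have e6 := mul_le_mul_of_nonneg_right (h1.trans hd) (by positivity : 0 ≤ 40 * N * Z.A x')
  have e7 := mul_le_mul_of_nonneg_right m2 hA.le
  have e8 : Z.A x' ≤ 2 * (base Z T N σ).A x' := by linarith only [b, hx', h1, hA, hd, m1, (j5_XA b hx').1, mul_nonneg_of_nonpos_of_nonpos (Mathlib.Tactic.Linarith.sub_nonpos_of_le h1) (le_of_lt (Mathlib.Tactic.Linarith.sub_neg_of_lt hA)), mul_nonneg_of_nonpos_of_nonpos (Mathlib.Tactic.Linarith.sub_nonpos_of_le hd) (le_of_lt (Mathlib.Tactic.Linarith.sub_neg_of_lt hA)), mul_nonneg_of_nonpos_of_nonpos (Mathlib.Tactic.Linarith.sub_nonpos_of_le m1) (le_of_lt (Mathlib.Tactic.Linarith.sub_neg_of_lt hA))]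
  have e9 := mul_le_mul_of_nonneg_left e8 hν.le
  linarith only [e0, e1, e2, e3, e4, e5, e6, e7, e9]

theorem far {C c σ0 ν : ℝ} (hC : 1 ≤ C) (hσ : 0 < σ0) (hσ1 : σ0 ≤ 1) (hc : 32 * C * σ0 ≤ c)
    (hν : 0 < ν) {N : ℕ} (hN : 20000 ≤ N) (hN2 : 2000 * C ≤ σ0 * N) : ∃ μ1 : ℝ, 0 < μ1 ∧
    ∀ (Z : Cfg) (η μ δ θ c2 : ℝ) (R T n : ℕ) (x : ℝ), Tooth Z η μ δ θ c2 R T →
      BF Z C μ δ c2 (σ0 * δ) T N → μ ≤ μ1 → 0 ≤ c2 → c2 ≤ σ0 → 0 ≤ η →
      c * Z.L 0 ≤ ((Z.s.filter fun a => Z.ξ a < -1).card : ℝ) → 1 ≤ x → x ≤ T - 2 * N →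
      ((base Z T N (σ0 * δ)).per T).Reg (n * T + x) →
      ((base Z T N (σ0 * δ)).per T).CovAt (1 + η) 0 ν (1 / 100) (n * T + x) := by
  obtain ⟨μ0, hμ0, hB⟩ := B_close (ν := min (ν / 4) (1 / 1600)) (by positivity)
  have hK : 0 < 12 * C + 200 * (N : ℝ) + 16 := by positivity
  refine ⟨min μ0 (min (ν / 4) (1 / 1600) / (12 * C + 200 * N + 16)), by positivity, ?_⟩
  intro Z η μ δ θ c2 R T n x h b hμ _ h2 hη hL h0 h1 hreg
  have hδ := h.dpos
  have hd := h.dle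
  have hμp : 0 ≤ μ := by linarith only [hδ, hd]
  have hNr : (20000 : ℝ) ≤ N := by exact_mod_cast hN
  have m1 := hμ.trans (min_le_left _ _)
  have m2 := (le_div_iff₀ hK).1 (hμ.trans (min_le_right _ _))
  have m3 := m2.trans (min_le_left _ _)
  have m4 := m2.trans (min_le_right _ _)
  have c1 : 0 ≤ μ * C := by positivity
  have c2' : 0 ≤ μ * N := by positivity
  have hq := j5_q b
  have hx : x ∈ Icc (0 : ℝ) T := ⟨by linarith only [h0, hδ, hd, m4, c1, c2'], by linarith only [h1, hδ, hd, hNr, m4, c1, c2']⟩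
  have hA := j5_A h hx
  have hAT : 0 ≤ Z.A T := mul_nonneg (norm_nonneg _) (exp_pos _).le
  have hW := (h.calm x hx).2
  have hs : σ0 * δ ≤ μ := by linarith only [hd, hσ1, hδ, mul_nonneg_of_nonpos_of_nonpos (Mathlib.Tactic.Linarith.sub_nonpos_of_le hσ1) (le_of_lt (Mathlib.Tactic.Linarith.sub_neg_of_lt hδ))]
  have hr : Z.Reg x := by
    intro a ha e
    exact reg_base (b.cell.reg hreg) a ha (by linarith only [h0, hδ, hd, m4, c1, c2', e]) (by linarith only [h1, hδ, hd, hNr, m4, c1, c2', e]) e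
  have hB1 := (hB Z x (hW.trans (mul_le_mul_of_nonneg_right m1 hA.le))).1
  have hV := j5_V_le h b hC hσ hσ1 hc h2 hL h0 (by linarith only [h1, hδ, hd, hNr, m4, c1, c2'])
  have hg := j5_AT b hx
  have hg0 : 0 ≤ δ * (Z.A T * exp (-gam N * (T - x))) := by positivity
  have V1 : ∀ φ : ℝ, |(Z.cc x * Complex.exp (φ * Complex.I)).im| ≤ 1 / 20 * ‖Z.cc x‖ →
      j5_V (base Z T N (σ0 * δ)) T x φ ≤ Z.U x φ := by
    intro φ ha
    have e1 := aux_neg hN (y := T - x) (by linarith only [h1]) (by linarith only [h0, hδ, hd, m4, c1, c2'])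
      (j5_align h (by linarith only [hδ, hd, m4, c1, c2']) hx.1 hx.2 ha)
    have e2 := mul_le_mul_of_nonneg_left e1 (by positivity : 0 ≤ σ0 * δ * Z.A T)
    have e3 := mul_le_mul_of_nonneg_right hN2 hg0
    have e4 := mul_nonneg (by linarith only [hC, hδ, hd, m4, c1, c2'] : 0 ≤ C) hg0
    linarith only [e2, e3, e4, hV, hV φ]
  have V2 : ∀ φ : ℝ, j5_V (base Z T N (σ0 * δ)) T x φ ≤
      Z.U x φ + (12 * C + 40 * N) * μ * Z.A x := by
    intro φ
    have e1 := aux_any (N := N) (by omega) T (T - x) fun i => φ + Complex.arg (Z.cc (T - i))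
    have e2 := mul_le_mul_of_nonneg_left e1 (by positivity : 0 ≤ σ0 * δ * Z.A T)
    have e3 := mul_le_mul hd hg (by positivity) hμp
    have e4 := mul_le_mul_of_nonneg_left e3 (by positivity : 0 ≤ 6 * C + 20 * N)
    have e5 := mul_le_mul_of_nonneg_right hσ1 (mul_nonneg (by positivity : (0 : ℝ) ≤ 20 * N) hg0)
    linarith only [e2, e4, e5, hV, hV φ]
  have V3 : ∀ φ : ℝ, j5_V (base Z T N (σ0 * δ)) T x φ ≤ Z.B x := by
    intro φ
    rcases le_total |(Z.cc x * Complex.exp (φ * Complex.I)).im| (1 / 20 * ‖Z.cc x‖) with ha | ha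
    · exact (V1 φ ha).trans (Z.U_le_B hr φ)
    have e1 := j5_re Z hr ha
    have e2 := mul_le_mul_of_nonneg_right (min_le_right (ν / 4) (1 / 1600)) hA.le
    have e3 : (12 * C + 40 * N) * μ + μ ≤ 1 / 1600 := by linarith only [hδ, hd, m4, c2']
    have e4 := mul_le_mul_of_nonneg_right e3 hA.le
    linarith only [hW, hB1, e1, e2, e4, V2, V2 φ]
  have hU : ∀ φ : ℝ, ((base Z T N (σ0 * δ)).per T).U (n * T + x)
      (φ + n * (base Z T N (σ0 * δ)).ang T) ≤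
        (base Z T N (σ0 * δ)).q T ^ n * j5_V (base Z T N (σ0 * δ)) T x φ :=
    fun φ => b.cell.U_le n hx.1 (by linarith only [h1, hδ, hd, hNr, m4, c1, c2']) φ
  have hqn := (pow_pos hq n).le
  obtain ⟨y, hy⟩ := (h.min x ⟨by linarith only [h0, hδ, hd, m4, c1, c2', (Nat.cast_nonneg R : (0 : ℝ) ≤ R)], hx.2⟩).exists_U hr
  refine ⟨y + n * (base Z T N (σ0 * δ)).ang T, ?_⟩
  rcases le_total |(Z.cc x * Complex.exp (y * Complex.I)).im| (1 / 50 * ‖Z.cc x‖) with ha | ha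
  · refine Or.inl fun y' => ?_
    have e1 := (hU y).trans (mul_le_mul_of_nonneg_left
      ((V1 y (ha.trans (by linarith only [norm_nonneg (Z.cc x)]))).trans hy) hqn)
    have e2 := (hU (y' - n * (base Z T N (σ0 * δ)).ang T)).trans
      (mul_le_mul_of_nonneg_left (V3 _) hqn)
    rw [sub_add_cancel] at e2
    have e3 := mul_le_mul_of_nonneg_left e2 (by linarith only [hη, hδ, hd, m4, c1, c2'] : 0 ≤ 1 + η)
    linarith only [e1, e3]
  refine Or.inr ⟨?_, (hU y).trans ?_⟩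
  · rw [b.cell.cc_rot n hx.1 hx.2, b.cell.cc_eq n hx.1 hx.2, Complex.im_ofReal_mul, abs_mul,
      norm_mul, norm_pow, abs_of_nonneg (by positivity), mul_left_comm]
    refine mul_le_mul_of_nonneg_left ?_ (by positivity)
    have e1 := Complex.abs_im_le_norm (((base Z T N (σ0 * δ)).cc x - Z.cc x) *
      Complex.exp (y * Complex.I))
    rw [norm_mul, Complex.norm_exp_ofReal_mul_I, mul_one, sub_mul, Complex.sub_im] at e1
    have e2 := abs_sub_abs_le_abs_sub (Z.cc x * Complex.exp (y * Complex.I)).im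
      ((base Z T N (σ0 * δ)).cc x * Complex.exp (y * Complex.I)).im
    rw [abs_sub_comm] at e2
    have e3 := b.cc x hx
    have e4 := (j5_cc b hx).2
    have e5 : σ0 * δ ≤ 1 / 1600 := by linarith only [hδ, hd, m4, c1, c2', hs]
    have e6 := mul_le_mul_of_nonneg_right e5 (norm_nonneg (Z.cc x))
    linarith only [ha, e1, e2, e3, e4, e6, norm_nonneg (Z.cc x)]
  rw [b.cell.A_eq n hx.1 hx.2, mul_left_comm]
  refine mul_le_mul_of_nonneg_left ((V2 y).trans ?_) hqn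
  obtain ⟨e1, e2⟩ := j5_XA b hx
  have e3 := mul_nonneg hη (Z.B_nonneg x)
  have e4 := mul_le_mul_of_nonneg_right (min_le_left (ν / 4) (1 / 1600)) hA.le
  have e5 : (12 * C + 40 * N) * μ + 6 * (σ0 * δ) ≤ ν / 4 := by linarith only [hδ, hd, m3, c2', hs]
  have e6 := mul_le_mul_of_nonneg_right e5 hA.le
  have e7 : Z.A x ≤ 2 * (base Z T N (σ0 * δ)).A x := by
    have e8 : σ0 * δ ≤ 1 / 1600 := by linarith only [hδ, hd, m4, c1, c2', hs]
    (refine le_of_not_gt fun h_nl => ?_; linarith only [h_nl, e1, hδ, hA, hd, e2, m4, c1, c2', hs, mul_pos_of_neg_of_neg (Mathlib.Tactic.Linarith.sub_neg_of_lt hδ) (Mathlib.Tactic.Linarith.sub_neg_of_lt hA), mul_nonneg_of_nonpos_of_nonpos (le_of_lt (Mathlib.Tactic.Linarith.sub_neg_of_lt hδ)) (Mathlib.Tactic.Linarith.sub_nonpos_of_le e1), mul_pos_of_neg_of_neg (Mathlib.Tactic.Linarith.sub_neg_of_lt hδ) (Mathlib.Tactic.Linarith.sub_neg_of_lt h_nl), mul_nonneg_of_nonpos_of_nonpos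 (Mathlib.Tactic.Linarith.sub_nonpos_of_le hd) (Mathlib.Tactic.Linarith.sub_nonpos_of_le e1), mul_nonneg_of_nonpos_of_nonpos (Mathlib.Tactic.Linarith.sub_nonpos_of_le hd) (Mathlib.Tactic.Linarith.sub_nonpos_of_le e2), mul_nonneg_of_nonpos_of_nonpos (Mathlib.Tactic.Linarith.sub_nonpos_of_le hd) (le_of_lt (Mathlib.Tactic.Linarith.sub_neg_of_lt h_nl)), mul_nonneg_of_nonpos_of_nonpos (Mathlib.Tactic.Linarith.sub_nonpos_of_le m4) (Mathlib.Tactic.Linarith.sub_nonpos_of_le e2), mul_nonneg_of_nonpos_of_nonpos (Mathlib.Tactic.Linarith.sub_nonpos_of_le c1) (Mathlib.Tactic.Linarith.sub_nonpos_of_le e2), mul_nonneg_of_nonpos_of_nonpos (Mathlib.Tactic.Linarith.sub_nonpos_of_le c2') (Mathlib.Tactic.Linarith.sub_nonpos_of_le e2), mul_nonneg_of_nonpos_of_nonpos (le_of_lt (Mathlib.Tactic.Linarith.sub_neg_of_lt hA)) (Mathlib.Tactic.Linarith.sub_nonpos_of_le hs)])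
  have e9 := mul_le_mul_of_nonneg_left e7 hν.le
  linarith only [hB1, hy, e2, e3, e4, e6, e9]

end

end Pool.Agent.MinMod.Mo
end

-- merged part: Pool.Agent.Work.MP_f62247_an.Mo.J2
section
/-!
# The zeros to the right of a slow place lower the sum over antipodal points
Constants: `c`, `D` of `mass_two`, `C0` of `W_L`; then `R ≥ D + 2` large and `φ1` small, then `κ`, then `θ0`, `μ1` of `axis_near`. `W 0 ≤ C0 L 0`, `W R ≤ C0 exp R * 2 L 0`, `|sin (θ - γ)| ≤ 2 φ1` (`abs_sin_sub_le`), `sin² (θ - η) ≤ 2 sin² (θ - γ) + 2 sin² (γ - η)` (`Elev_sin_sub`).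
Case `x ≤ log 2 / 2`: termwise `lg_two_small`, and `lg_two_neg` for `1 ≤ ξ < 1 + D`: the sum is `≤ exp (2x) (- c L0 / 2 + 16 φ1² W 0 + 4 κ L0 + 2 exp (-2R) W R)`.
Case `log 2 / 2 < x ≤ 1`: all zeros differ from `x`. Sum over `0 ≤ ξ < T` = sum over all, minus `ξ < 0` (terms `≥ 0` by `lg_nonneg`, `≥ 1` for `ξ < -1` by `lg_ge_half`), minus `ξ ≥ T` (`abs_lg_two_le`).
With `φ' = 8 φ1`: sum over all `≤ ∑ lg (2τ) (2φ')` (`two_const`) plus the error: none if `sin² (θ - η) ≤ sin² φ'` (`lg_two_mono`); at most `C(φ')` for the at most `κ L0 / (4 φ1²)` other zeros with `|ξ| ≤ R` (`lg_le`, `lg_ge_of_rp`); at most `4 exp (-2|τ|)` for `|ξ| > R` (`abs_lg_sub_le`, `l0_le`).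
-/

open Real MeasureTheory Set Filter Topology

namespace Pool.Agent.MinMod.Mo

noncomputable section

theorem j2_sin {θ γ φ : ℝ} (h : |sin (θ - γ)| ≤ 2 * φ) (η : ℝ) :
    sin (θ - η) ^ 2 ≤ 8 * φ ^ 2 + 2 * sin (γ - η) ^ 2 := by
  have h1 := Cfg.Elev_sin_sub (θ - γ) (η - γ)
  have h2 : sin (η - γ) ^ 2 = sin (γ - η) ^ 2 := by
    rw [← neg_sub γ η, sin_neg, neg_sq]
  have h3 : sin (θ - γ) ^ 2 ≤ (2 * φ) ^ 2 := by
    rw [← sq_abs]
    exact pow_le_pow_left₀ (abs_nonneg _) h 2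
  rw [show θ - γ - (η - γ) = θ - η by ring, h2] at h1
  linarith only [h1, h3]

theorem j2_far {x ξ R : ℝ} (hx : x ≤ 1) (h : R ≤ ξ) :
    exp (2 * (x - ξ)) ≤ exp 2 * exp (-2 * R) * w0 (R - ξ) := by
  rw [w0_of_nonpos (by linarith), ← exp_add, ← exp_add]
  exact exp_le_exp.mpr (by linarith)

theorem j2_small_term {x θ γ φ T R D : ℝ} (hx : x ≤ Real.log 2 / 2) (hD : 1 + D ≤ T)
    (h : |sin (θ - γ)| ≤ 2 * φ) (ξ η : ℝ) :
    (if 0 ≤ ξ ∧ ξ < T then lg (2 * (x - ξ)) (2 * (θ - η)) else 0) ≤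
      exp (2 * x) * (-(1 / 2) * (if 1 ≤ ξ ∧ ξ < 1 + D then exp (-2 * ξ) else 0) +
        16 * φ ^ 2 * w0 (0 - ξ) + 4 * (if |ξ| ≤ R then sin (γ - η) ^ 2 else 0) +
        2 * exp (-2 * R) * w0 (R - ξ)) := by
  have hl : Real.log 2 < 1 := by linarith only [Real.log_two_lt_d9]
  have p1 : 0 ≤ 16 * φ ^ 2 * w0 (0 - ξ) := mul_nonneg (by positivity) (w0_pos _).le
  have p2 : 0 ≤ (if |ξ| ≤ R then sin (γ - η) ^ 2 else 0) := by split_ifs <;> positivity
  have p3 : 0 ≤ 2 * exp (-2 * R) * w0 (R - ξ) := mul_nonneg (by positivity) (w0_pos _).le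
  by_cases h0 : 0 ≤ ξ ∧ ξ < T
  · rw [if_pos h0]
    have e1 : exp (2 * (x - ξ)) = exp (2 * x) * exp (-2 * ξ) := by
      rw [← exp_add]; congr 1; ring
    have e2 : w0 (0 - ξ) = exp (-2 * ξ) := by
      rw [w0_of_nonpos (by linarith only [h0, h0.1])]; congr 1; ring
    have hE : exp (-2 * ξ) ≤ 1 := exp_le_one_iff.mpr (by linarith only [h0, h0.1])
    have hE0 := exp_pos (-2 * ξ)
    have hs := j2_sin h η
    have k : 2 * exp (-2 * ξ) * sin (θ - η) ^ 2 ≤ 16 * φ ^ 2 * w0 (0 - ξ) +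
        4 * (if |ξ| ≤ R then sin (γ - η) ^ 2 else 0) + 2 * exp (-2 * R) * w0 (R - ξ) := by
      by_cases hR : |ξ| ≤ R
      · rw [if_pos hR, e2]
        have q1 : exp (-2 * ξ) * sin (θ - η) ^ 2 ≤
            exp (-2 * ξ) * (8 * φ ^ 2 + 2 * sin (γ - η) ^ 2) := by gcongr
        have q2 : exp (-2 * ξ) * sin (γ - η) ^ 2 ≤ sin (γ - η) ^ 2 :=
          mul_le_of_le_one_left (sq_nonneg _) hE
        linarith only [p3, q1, q2]
      · rw [if_neg hR]
        rw [abs_of_nonneg h0.1, not_le] at hR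
        have e3 : exp (-2 * R) * w0 (R - ξ) = exp (-2 * ξ) := by
          rw [w0_of_nonpos (by linarith), ← exp_add]; congr 1; ring
        have q1 : exp (-2 * ξ) * sin (θ - η) ^ 2 ≤ exp (-2 * ξ) :=
          mul_le_of_le_one_right hE0.le (sin_sq_le_one _)
        linarith only [p1, e3, q1]
    by_cases h1 : 1 ≤ ξ ∧ ξ < 1 + D
    · rw [if_pos h1]
      refine (lg_two_neg (by linarith only [hx, hl, h1, h1.1]) _).trans ?_
      rw [e1]
      calc -(exp (2 * x) * exp (-2 * ξ)) / 2 + 2 * (exp (2 * x) * exp (-2 * ξ)) * sin (θ - η) ^ 2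
          = exp (2 * x) * (-(1 / 2) * exp (-2 * ξ) + 2 * exp (-2 * ξ) * sin (θ - η) ^ 2) := by ring
        _ ≤ _ := mul_le_mul_of_nonneg_left (by linarith only [k]) (exp_pos _).le
    · rw [if_neg h1]
      refine (lg_two_small (by linarith only [hx, h0, h0.1]) _).trans ?_
      rw [e1]
      calc 2 * (exp (2 * x) * exp (-2 * ξ)) * sin (θ - η) ^ 2
          = exp (2 * x) * (2 * exp (-2 * ξ) * sin (θ - η) ^ 2) := by ring
        _ ≤ _ := mul_le_mul_of_nonneg_left (by linarith only [k]) (exp_pos _).le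
  · rw [if_neg h0, if_neg (fun h1 => h0 ⟨by linarith only [h1, h1.1], by linarith only [hD, h1, h1.2]⟩)]
    exact mul_nonneg (exp_pos _).le (by linarith only [p1, p2, p3])

theorem j2_big_one {x T R : ℝ} (hx : Real.log 2 / 2 < x) (hx1 : x ≤ 1) (hR : 2 ≤ R) (hT : R ≤ T)
    (ξ ψ : ℝ) :
    (if 0 ≤ ξ ∧ ξ < T then lg (2 * (x - ξ)) ψ else 0) ≤
      lg (2 * (x - ξ)) ψ - (if ξ < -1 then 1 else 0) + 2 * (exp 2 * exp (-2 * R) * w0 (R - ξ)) := by
  have hl : 0 < Real.log 2 := Real.log_pos (by norm_num)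
  have p3 : 0 ≤ exp 2 * exp (-2 * R) * w0 (R - ξ) := mul_nonneg (by positivity) (w0_pos _).le
  by_cases h0 : 0 ≤ ξ ∧ ξ < T
  · rw [if_pos h0, if_neg (by linarith only [h0, h0.1])]
    linarith only [p3]
  rw [if_neg h0]
  by_cases h1 : ξ < -1
  · rw [if_pos h1]
    have := lg_ge_half (s := 2 * (x - ξ)) (by linarith only [hx, hl, h1]) ψ
    linarith only [hx, hl, p3, h1, this]
  rw [if_neg h1]
  by_cases h2 : ξ < 0
  · have := lg_nonneg (s := 2 * (x - ξ)) (by linarith only [hx, h2]) ψ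
    linarith
  · have h3 : T ≤ ξ := by
      by_contra h3
      exact h0 ⟨not_lt.mp h2, not_le.mp h3⟩
    have h4 := (abs_le.mp (abs_lg_two_le (s := x - ξ) (by linarith only [hx1, hR, hT, h3]) ψ)).1
    have h5 := j2_far hx1 (hT.trans h3)
    linarith only [h4, h5]

theorem j2_big_two {x θ γ φ R C : ℝ} (hx : 0 ≤ x) (hx1 : x ≤ 1) (hR : 2 ≤ R) (hφ : 0 < φ)
    (hφ1 : φ ≤ 1 / 8) (hC0 : 0 ≤ C) (hC : ∀ s, max s 0 - C ≤ lg s (2 * (8 * φ)))
    (h : |sin (θ - γ)| ≤ 2 * φ) {ξ : ℝ} (hξ : ξ ≠ x) (η : ℝ) :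
    lg (2 * (x - ξ)) (2 * (θ - η)) ≤ lg (2 * (x - ξ)) (2 * (8 * φ)) +
      (C + 1) / (4 * φ ^ 2) * (if |ξ| ≤ R then sin (γ - η) ^ 2 else 0) +
      4 * (exp 2 * exp (-2 * R) * w0 (R - ξ)) := by
  have hl : Real.log 2 < 1 := by linarith only [hφ, hφ1, Real.log_two_lt_d9]
  have p3 : 0 ≤ exp 2 * exp (-2 * R) * w0 (R - ξ) := mul_nonneg (by positivity) (w0_pos _).le
  have hτ : x - ξ ≠ 0 := sub_ne_zero.mpr hξ.symm
  by_cases h1 : |ξ| ≤ R
  · rw [if_pos h1]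
    by_cases h2 : sin (θ - η) ^ 2 ≤ sin (8 * φ) ^ 2
    · have := lg_two_mono hτ h2
      have p2 : 0 ≤ (C + 1) / (4 * φ ^ 2) * sin (γ - η) ^ 2 := by positivity
      linarith only [p3, this, p2]
    · have q1 : 4 * φ ≤ sin (8 * φ) := by
        have a1 := mul_le_sin (x := 8 * φ) (by linarith) (by linarith only [hφ, hφ1, pi_gt_three])
        have a2 : 1 / 2 ≤ 2 / π := by
          rw [div_le_div_iff₀ (by norm_num) pi_pos]
          linarith only [pi_le_four]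
        linarith only [a1, hφ, a2, mul_nonneg_of_nonpos_of_nonpos (le_of_lt (Mathlib.Tactic.Linarith.sub_neg_of_lt hφ)) (Mathlib.Tactic.Linarith.sub_nonpos_of_le a2)]
      have q2 : (4 * φ) ^ 2 ≤ sin (8 * φ) ^ 2 := by gcongr
      have q3 := j2_sin h η
      have q4 : 4 * φ ^ 2 ≤ sin (γ - η) ^ 2 := by linarith only [h2, q2, q3]
      have q5 : C + 1 ≤ (C + 1) / (4 * φ ^ 2) * sin (γ - η) ^ 2 := by
        calc C + 1 = (C + 1) / (4 * φ ^ 2) * (4 * φ ^ 2) := by field_simp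
          _ ≤ _ := by gcongr
      have q6 := lg_le (2 * (x - ξ)) (2 * (θ - η))
      have q7 := hC (2 * (x - ξ))
      linarith only [hl, p3, q5, q6, q7]
  · rw [if_neg h1, mul_zero, add_zero]
    rw [not_le] at h1
    have hτ2 : 2 * (x - ξ) ≠ 0 := mul_ne_zero two_ne_zero hτ
    have a1 := (abs_le.mp (abs_lg_sub_le hτ2 (2 * (θ - η)))).2
    have a2 := (abs_le.mp (abs_lg_sub_le hτ2 (2 * (8 * φ)))).1
    have a3 : l0 (2 * (x - ξ)) ≤ 2 * (exp 2 * exp (-2 * R) * w0 (R - ξ)) := by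
      rcases lt_abs.mp h1 with h2 | h2
      · have e : |2 * (x - ξ)| = -(2 * (x - ξ)) := abs_of_neg (by linarith only [hx1, hR, hφ, hφ1, h2])
        have a4 := l0_le (s := 2 * (x - ξ)) (by rw [e]; linarith only [hx1, hR, hφ, hφ1, h2])
        rw [e, neg_neg] at a4
        have a5 := j2_far hx1 h2.le
        linarith
      · have e : |2 * (x - ξ)| = 2 * (x - ξ) := abs_of_pos (by linarith only [hx, hR, hφ, hφ1, h2])
        have a4 := l0_le (s := 2 * (x - ξ)) (by rw [e]; linarith only [hx, hR, hφ, hφ1, h2])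
        rw [e] at a4
        have a5 : exp (-(2 * (x - ξ))) ≤ exp 2 * exp (-2 * R) := by
          rw [← exp_add]
          exact exp_le_exp.mpr (by linarith only [hx, hφ, hφ1, h2])
        have a6 : exp 2 * exp (-2 * R) ≤ exp 2 * exp (-2 * R) * w0 (R - ξ) := by
          refine le_mul_of_one_le_right (by positivity) ?_
          rw [w0_of_nonneg (by linarith only [hR, hφ, hφ1, h2])]
          linarith only [hR, hφ, hφ1, h2]
        linarith only [a4, a5, a6]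
    linarith only [a1, a2, a3]

theorem j2_small (Z : Cfg) {x θ γ φ T R D : ℝ} (hx : x ≤ Real.log 2 / 2) (hD : 1 + D ≤ T)
    (h : |sin (θ - γ)| ≤ 2 * φ) :
    ∑ a ∈ Z.s.filter (fun a => 0 ≤ Z.ξ a ∧ Z.ξ a < T), lg (2 * (x - Z.ξ a)) (2 * (θ - Z.η a)) ≤
      exp (2 * x) * (-(1 / 2) * (∑ a ∈ Z.s.filter (fun a => 1 ≤ Z.ξ a ∧ Z.ξ a < 1 + D),
        exp (-2 * Z.ξ a)) + 16 * φ ^ 2 * Z.W 0 +
        4 * (∑ a ∈ Z.s.filter (fun a => |Z.ξ a| ≤ R), sin (γ - Z.η a) ^ 2) +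
        2 * exp (-2 * R) * Z.W R) := by
  simp only [Finset.sum_filter, Cfg.W, Finset.mul_sum, ← Finset.sum_add_distrib]
  exact Finset.sum_le_sum fun a _ => j2_small_term hx hD h _ _

theorem j2_big (Z : Cfg) {x θ γ φ T R C : ℝ} (hx : Real.log 2 / 2 < x) (hx1 : x ≤ 1) (hR : 2 ≤ R)
    (hT : R ≤ T) (hφ : 0 < φ) (hφ1 : φ ≤ 1 / 8) (hC0 : 0 ≤ C)
    (hC : ∀ s, max s 0 - C ≤ lg s (2 * (8 * φ))) (h : |sin (θ - γ)| ≤ 2 * φ)
    (hne : ∀ a ∈ Z.s, Z.ξ a ≠ x) :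
    ∑ a ∈ Z.s.filter (fun a => 0 ≤ Z.ξ a ∧ Z.ξ a < T), lg (2 * (x - Z.ξ a)) (2 * (θ - Z.η a)) ≤
      ∑ a ∈ Z.s, lg (2 * (x - Z.ξ a)) (2 * (8 * φ)) - ((Z.s.filter fun a => Z.ξ a < -1).card : ℝ) +
        (C + 1) / (4 * φ ^ 2) * (∑ a ∈ Z.s.filter (fun a => |Z.ξ a| ≤ R), sin (γ - Z.η a) ^ 2) +
        6 * exp 2 * exp (-2 * R) * Z.W R := by
  have hl : 0 < Real.log 2 := Real.log_pos (by norm_num)
  rw [Finset.card_filter]
  push_cast
  simp only [Finset.sum_filter, Cfg.W, Finset.mul_sum, ← Finset.sum_add_distrib,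
    ← Finset.sum_sub_distrib]
  refine Finset.sum_le_sum fun a ha => ?_
  have h1 := j2_big_one hx hx1 hR hT (Z.ξ a) (2 * (θ - Z.η a))
  have h2 := j2_big_two (by linarith only [hx, hl]) hx1 hR hφ hφ1 hC0 hC h (hne a ha) (Z.η a)
  linarith only [h1, h2]

theorem near_sum : ∃ (c φ1 θ0 μ1 : ℝ) (R : ℕ), 0 < c ∧ 0 < φ1 ∧ 0 < θ0 ∧ θ0 ≤ 1 ∧ 0 < μ1 ∧ 2 ≤ R ∧
    ∀ (Z : Cfg) (μ T : ℝ), Slow Z μ θ0 R → μ ≤ μ1 → (R : ℝ) ≤ T →
      c * Z.L 0 ≤ ((Z.s.filter fun a => Z.ξ a < -1).card : ℝ) ∧ ∀ x θ : ℝ, x ≤ 1 →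
      (∀ a ∈ Z.s, 0 ≤ Z.ξ a → Z.ξ a < T → Z.ξ a ≠ x) →
      |(Z.cc 0 * Complex.exp (θ * Complex.I)).im| ≤ φ1 * ‖Z.cc 0‖ →
      ∑ a ∈ Z.s.filter (fun a => 0 ≤ Z.ξ a ∧ Z.ξ a < T), lg (2 * (x - Z.ξ a)) (2 * (θ - Z.η a)) ≤
        -c * Z.L 0 * exp (2 * x) := by
  obtain ⟨c, D, hc, hD, hmass⟩ := mass_two
  obtain ⟨C0, hC0, hWL⟩ := Cfg.W_L
  have hl : 0 < Real.log 2 := Real.log_pos (by norm_num)
  have he2 : 1 ≤ exp 2 := one_le_exp (by norm_num)
  have he4 : 1 ≤ exp 4 := one_le_exp (by norm_num)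
  obtain ⟨R, hR1, hR2⟩ : ∃ R : ℕ, D + 1 ≤ R ∧ 12 * exp 2 * C0 * exp (-R) ≤ c / 8 := by
    obtain ⟨R, hR⟩ := exists_nat_ge (D + 1 + 96 * exp 2 * C0 / c)
    have p : 0 ≤ 96 * exp 2 * C0 / c := by positivity
    refine ⟨R, by linarith only [hR, p], ?_⟩
    have a1 : 96 * exp 2 * C0 / c ≤ exp R := by linarith only [hD, hR, add_one_le_exp (R : ℝ)]
    rw [div_le_iff₀ hc] at a1
    rw [exp_neg, ← div_eq_mul_inv, div_le_iff₀ (exp_pos _)]
    linarith only [a1]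
  have hR2' : (2 : ℝ) ≤ R := by linarith
  have hRn : 2 ≤ R := by exact_mod_cast hR2'
  obtain ⟨φ, hφ, hφ1, hφ2⟩ : ∃ φ : ℝ, 0 < φ ∧ φ ≤ 1 / 8 ∧ 48 * exp 4 * φ * C0 ≤ c / 8 := by
    refine ⟨min (1 / 8) (c / (384 * exp 4 * C0)), by positivity, min_le_left _ _, ?_⟩
    calc 48 * exp 4 * min (1 / 8) (c / (384 * exp 4 * C0)) * C0
        ≤ 48 * exp 4 * (c / (384 * exp 4 * C0)) * C0 := by
          gcongr
          exact min_le_right _ _
      _ = c / 8 := by field_simp; norm_num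
  obtain ⟨C, hC, hC'⟩ := lg_ge_of_rp (t := 2 * (8 * φ)) (by positivity)
  have hC'' : ∀ s, max s 0 - C ≤ lg s (2 * (8 * φ)) := fun s => hC' s _ (by
    have e : |2 * (8 * φ)| = 2 * (8 * φ) := abs_of_pos (by positivity)
    rw [abs_rp_eq (by rw [e]; linarith only [hφ, hφ1, pi_gt_three]), e])
  obtain ⟨κ, hκ, hκ1, hκ2⟩ : ∃ κ : ℝ, 0 < κ ∧ κ ≤ c / 64 ∧ (C + 1) / (4 * φ ^ 2) * κ ≤ c / 8 := by
    refine ⟨min (c / 64) (c * φ ^ 2 / (2 * (C + 1))), by positivity, min_le_left _ _, ?_⟩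
    calc (C + 1) / (4 * φ ^ 2) * min (c / 64) (c * φ ^ 2 / (2 * (C + 1)))
        ≤ (C + 1) / (4 * φ ^ 2) * (c * φ ^ 2 / (2 * (C + 1))) := by
          gcongr
          exact min_le_right _ _
      _ = c / 8 := by field_simp; norm_num
  obtain ⟨θ0, μ1, hθ0, hμ1, hax⟩ := axis_near hφ hκ (R := R) (by omega)
  have hc' : c / (4 * exp 2) ≤ c / 4 := by
    gcongr
    linarith only [he2]
  refine ⟨c / (4 * exp 2), φ, min θ0 1, μ1, R, by positivity, hφ, by positivity, min_le_right _ _,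
    hμ1, hRn, fun Z μ T hS hμ hT => ?_⟩
  obtain ⟨hm1, hm2⟩ := hmass Z μ _ R hS (min_le_right _ _) hR1
  obtain ⟨γ, hγ1, hγ2⟩ := hax Z μ _ hS (min_le_left _ _) hμ
  have hL := hS.pos
  refine ⟨le_trans (by gcongr; linarith only [hκ, hκ1, hc']) hm1, fun x θ hx hne hθ => ?_⟩
  have hcc : Z.cc 0 ≠ 0 := norm_pos_iff.mp (hS.calm 0 ⟨le_rfl, zero_le_one⟩).1
  have hsin := abs_sin_sub_le hcc hθ hγ1
  have hW0 : Z.W 0 ≤ C0 * Z.L 0 := by simpa using (hWL Z 0).1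
  have hWR : exp (-2 * (R : ℝ)) * Z.W R ≤ 2 * C0 * exp (-R) * Z.L 0 := by
    have a1 : Z.L (-R) ≤ Z.L 0 :=
      Z.L_mono (by linarith only [hD, hR1, hφ, hφ1]) fun y hy => hS.min y ⟨hy.1, by linarith only [hD, hR1, hφ, hφ1, hy, hy.2]⟩
    have a2 : Z.L R ≤ 2 * Z.L 0 := by
      refine hS.slow.trans (mul_le_mul ?_ a1 (Z.L_nonneg _) (by norm_num))
      linarith only [min_le_right θ0 1]
    have a3 : exp (-2 * (R : ℝ)) * exp R = exp (-R) := by
      rw [← exp_add]; congr 1; ring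
    calc exp (-2 * (R : ℝ)) * Z.W R ≤ exp (-2 * (R : ℝ)) * (C0 * (exp R * (2 * Z.L 0))) := by
          gcongr
          exact (hWL Z R).1.trans (by gcongr)
      _ = 2 * C0 * (exp (-2 * (R : ℝ)) * exp R) * Z.L 0 := by ring
      _ = _ := by rw [a3]
  have b1 : 12 * exp 2 * C0 * exp (-R) * Z.L 0 ≤ c / 8 * Z.L 0 := by gcongr
  have b2 : 48 * exp 4 * φ * C0 * Z.L 0 ≤ c / 8 * Z.L 0 := by gcongr
  have hcL : 0 < c * Z.L 0 := by positivity
  rcases le_or_gt x (Real.log 2 / 2) with h | h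
  · refine (j2_small Z (R := R) (D := D) h (by linarith only [hR1, hT]) hsin).trans ?_
    rw [mul_comm _ (exp (2 * x))]
    refine mul_le_mul_of_nonneg_left ?_ (exp_pos _).le
    have d1 : 16 * φ ^ 2 * Z.W 0 ≤ 2 * exp 4 * φ * C0 * Z.L 0 := by
      calc 16 * φ ^ 2 * Z.W 0 ≤ 16 * φ ^ 2 * (C0 * Z.L 0) := by gcongr
        _ = 2 * (8 * φ) * φ * C0 * Z.L 0 := by ring
        _ ≤ 2 * exp 4 * φ * C0 * Z.L 0 := by gcongr; linarith only [he4, hφ1]
    have d2 : κ * Z.L 0 ≤ c / 64 * Z.L 0 := by gcongr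
    have d3 : 1 * C0 * exp (-R) * Z.L 0 ≤ exp 2 * C0 * exp (-R) * Z.L 0 := by gcongr
    have d4 : c / (4 * exp 2) * Z.L 0 ≤ c / 4 * Z.L 0 := by gcongr
    linarith only [hm2, hγ2, hWR, b1, b2, hcL, d1, d2, d3, d4]
  · have hne' : ∀ a ∈ Z.s, Z.ξ a ≠ x := fun a ha he =>
      hne a ha (by linarith only [hl, h, he]) (by linarith only [hD, hR1, hφ, hφ1, hT, hx, he]) he
    refine (j2_big Z h hx hR2' hT hφ hφ1 hC hC'' hsin hne').trans ?_
    have d0 := two_const Z (fun y hy => hS.min y ⟨by linarith only [hD, hR1, hφ, hφ1, hy, hy.1], by linarith only [hD, hR1, hy, hy.2]⟩)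
      (x := x) (φ := 8 * φ) (by linarith only [hl, h]) hx (by positivity) (by linarith only [hφ1])
    have d1 : 6 * exp 4 * (8 * φ) * Z.W 0 ≤ 6 * exp 4 * (8 * φ) * (C0 * Z.L 0) := by gcongr
    have d2 : (C + 1) / (4 * φ ^ 2) *
        (∑ a ∈ Z.s.filter (fun a => |Z.ξ a| ≤ R), sin (γ - Z.η a) ^ 2) ≤ c / 8 * Z.L 0 := by
      calc _ ≤ (C + 1) / (4 * φ ^ 2) * (κ * Z.L 0) := by gcongr
        _ = (C + 1) / (4 * φ ^ 2) * κ * Z.L 0 := by ring
        _ ≤ _ := by gcongr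
    have d3 : exp 2 * (exp (-2 * (R : ℝ)) * Z.W R) ≤ exp 2 * (2 * C0 * exp (-R) * Z.L 0) := by
      gcongr
    have d4 : c / (4 * exp 2) * Z.L 0 * exp (2 * x) ≤ c / 4 * Z.L 0 := by
      calc c / (4 * exp 2) * Z.L 0 * exp (2 * x) ≤ c / (4 * exp 2) * Z.L 0 * exp 2 := by
            gcongr
            linarith only [hx]
        _ = c / 4 * Z.L 0 := by field_simp
    linarith only [hm1, b1, b2, hcL, d0, d1, d2, d3, d4]

end

end Pool.Agent.MinMod.Mo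
end

-- merged part: Pool.Agent.Work.MP_f62247_an.Mo.J6
section
/-!
# The cover near the junctions
`Y = X.per T` is calm with a small constant `ν1` (hypothesis, from `per_calm`). Let `θ*` be the maximum point of `Y.U (nT + x)` (`exists_max` with `φ = min φ1 (1/100) / 10`), `θ* = θ + n ϑ`, cover point `θ* + π`: `U (θ*+π) + (1+η) U y' ≤ pair + η U θ*`, `U θ* ≤ 2 Y.A (nT+x) ≤ 4 q^n ‖cc 0‖ exp x`.
`drift` for `Y.cc` on `[nT - 2N, nT + 1]` (`ICfg.Valid.cc_step`), `cc_rot` at `0`: `θ` is aligned for `Z.cc 0`; `Q * cc 0 = X.cc T` is close to `Z.cc T` and to `Z.cc (T - i)`, `i ≤ 2N` (`BF.cc`, `calm_drift`), so `|sin (θ + ϑ + arg (Z.cc (T - i)))| ≤ 1/4` (`Q = ‖Q‖ exp (-i ϑ)`).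
`pair_le` and `ks_base`. With `l = δ ‖cc 0‖ = L 0`, `exp (γ x) ≤ exp 2 * exp (2x)`, `1 ≤ exp (4N) exp (2x)`: main term `≤ - c l exp (2x)` (hypothesis `hn`); auxiliary atoms of the copy `n`: `≤ 2 σ A T * 20 N exp (-γ (T - x))` (`lg_two_le`, `aux_W`), `A T exp (-γ T) ≤ 2 exp (-3T/8) ‖cc 0‖`;
copy `n - 1`: `q⁻¹ (2 Z.W (T + 1) + σ A T * 50 exp (γ x))` (`W_mono`, `W_shift`, `aux_pair` with `y = -x`); the two last terms by `W0`, `WT`, `qhi`. Each error is at most `c l exp (2x) / 10`.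
-/

open Real MeasureTheory Set Filter Topology

namespace Pool.Agent.MinMod.Mo

noncomputable section

theorem j6_exp {s d μ φ : ℝ} (h0 : 0 ≤ μ) (hs0 : 0 ≤ s) (hs : s ≤ d) (hφ : φ ≤ 1)
    (h1 : 32 * μ * (d + 1) ≤ φ) : exp (16 * μ * (s + 1)) - 1 ≤ φ := by
  have a0 : 0 ≤ 16 * μ * (s + 1) := by positivity
  have a1 : 16 * μ * (s + 1) ≤ 16 * μ * (d + 1) :=
    mul_le_mul_of_nonneg_left (by linarith) (by positivity)
  have a2 := Real.abs_exp_sub_one_le (x := 16 * μ * (s + 1)) (by rw [abs_of_nonneg a0]; linarith)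
  rw [abs_of_nonneg a0] at a2
  linarith [le_abs_self (exp (16 * μ * (s + 1)) - 1)]

theorem j6_e2 : exp 2 ≤ 8 := by
  have := Real.exp_one_lt_d9
  have h : exp 2 = exp 1 * exp 1 := by rw [← exp_add]; norm_num
  linarith only [this, h, exp_pos 1, mul_pos_of_neg_of_neg (Mathlib.Tactic.Linarith.sub_neg_of_lt this) (Mathlib.Tactic.Linarith.sub_neg_of_lt (exp_pos (1 : ℝ)))]

theorem j6_drift {ι : Type} {Y : ICfg ι} {H ν φ d x y : ℝ} (h : Y.Valid H) (hc : Y.Calm ν)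
    (h0 : 0 ≤ ν) (hφ : φ ≤ 1 / 10) (hd : |y - x| ≤ d) (h1 : 32 * ν * (d + 1) ≤ φ) :
    ‖Y.cc y - Y.cc x‖ ≤ φ * ‖Y.cc x‖ := by
  have d0 : 0 ≤ d := (abs_nonneg _).trans hd
  have a0 := mul_nonneg h0 d0
  have a1 := drift (c := Y.cc) (a := min x y) (b := max x y) (μ := 8 * ν) (by positivity)
    (by linarith only [hφ, h1, a0]) (fun u v _ h2 h3 _ => by
      have b1 := h.cc_step h2 h3
      have b2 := (hc u).2
      have b3 := mul_le_mul j6_e2 b2 (h.W_nonneg u) (by norm_num)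
      rw [ICfg.A] at b3
      refine le_of_mul_le_mul_right ?_ (exp_pos u)
      linarith only [b1, b3]) (x := x) (y := y) ⟨min_le_left _ _, le_max_left _ _⟩
      ⟨min_le_right _ _, le_max_right _ _⟩
  refine a1.trans (mul_le_mul_of_nonneg_right ?_ (norm_nonneg _))
  have a2 := j6_exp h0 (abs_nonneg (y - x)) hd (by linarith only [hφ]) h1
  rwa [show 2 * (8 * ν) = 16 * ν by ring]

theorem j6_cc0 {Z : Cfg} {T N : ℕ} {σ : ℝ} (h : (base Z T N σ).Cell T) :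
    (base Z T N σ).cc 0 = Z.cc 0 := h.valid.cc_left le_rfl

theorem j6_align {Z : Cfg} {η μ δ θ c2 C σ φ d t : ℝ} {R T N : ℕ} (h : Tooth Z η μ δ θ c2 R T)
    (hb : BF Z C μ δ c2 σ T N) (hσ : σ ≤ μ) (hφ : φ ≤ 1 / 100) (h1 : 32 * μ * (d + 1) ≤ φ)
    (ha : |(Z.cc 0 * Complex.exp (t * Complex.I)).im| ≤ 4 * φ * ‖Z.cc 0‖) {i : ℝ} (i0 : 0 ≤ i)
    (i1 : i ≤ d) (i2 : i ≤ T) :
    |sin (t + (base Z T N σ).ang T + Complex.arg (Z.cc (T - i)))| ≤ 1 / 4 := by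
  have m0 : 0 ≤ μ := h.dpos.le.trans h.dle
  have a0 := mul_nonneg m0 (i0.trans i1)
  have T0 : (T : ℝ) ∈ Icc (0 : ℝ) T := ⟨Nat.cast_nonneg T, le_rfl⟩
  have Ti : (T : ℝ) - i ∈ Icc (0 : ℝ) T := ⟨by linarith only [i2], by linarith⟩
  have a1 := hb.cell.cc_rot 1 le_rfl (Nat.cast_nonneg T) t
  have a2 := hb.cell.cc_eq 1 le_rfl (Nat.cast_nonneg T)
  have a3 : (base Z T N σ).Q T ^ 1 * (base Z T N σ).cc 0 = (base Z T N σ).cc T := by
    rw [pow_one, ICfg.Q, hb.cell.valid.cc_left le_rfl, div_mul_cancel₀ _ hb.cell.c_ne]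
  have a4 : ‖(base Z T N σ).cc T‖ = ‖(base Z T N σ).Q T‖ * ‖Z.cc 0‖ := by
    rw [← a3, pow_one, norm_mul, j6_cc0 hb.cell]
  rw [a2, a3, j6_cc0 hb.cell, Nat.cast_one, one_mul, pow_one] at a1
  have a5 : |((base Z T N σ).cc T *
      Complex.exp ((t + (base Z T N σ).ang T : ℝ) * Complex.I)).im| ≤
        4 * φ * ‖(base Z T N σ).cc T‖ := by
    rw [a1, Complex.im_ofReal_mul, abs_mul, abs_norm, a4, mul_left_comm]
    exact mul_le_mul_of_nonneg_left ha (norm_nonneg _)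
  have a6 := hb.cc T T0
  have a7 := calm_drift m0 (by linarith only [hφ, h1, a0]) (fun x hx => (h.calm x hx).2) T0 Ti
  have a8 := j6_exp (s := |T - i - T|) m0 (abs_nonneg _)
    (by rw [sub_sub_cancel_left, abs_neg, abs_of_nonneg i0]; exact i1) (by linarith only [hφ]) h1
  have n0 := norm_nonneg (Z.cc T)
  have a9 := a7.trans (mul_le_mul_of_nonneg_right a8 n0)
  have b0 : 6 * σ * ‖Z.cc T‖ ≤ φ * ‖Z.cc T‖ := mul_le_mul_of_nonneg_right (by linarith only [hσ, h1, m0, a0]) n0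
  have b1 : ‖Z.cc T‖ ≤ ‖(base Z T N σ).cc T‖ + ‖(base Z T N σ).cc T - Z.cc T‖ := by
    have := norm_sub_le ((base Z T N σ).cc T) ((base Z T N σ).cc T - Z.cc T)
    rwa [sub_sub_cancel] at this
  have b2 : φ * ‖Z.cc T‖ ≤ 1 / 100 * ‖Z.cc T‖ := mul_le_mul_of_nonneg_right hφ n0
  have p0 : 0 ≤ φ := by linarith only [h1, m0, a0]
  have b3 : φ * ‖Z.cc T‖ ≤ φ * (2 * ‖(base Z T N σ).cc T‖) :=
    mul_le_mul_of_nonneg_left (by linarith only [a6, n0, b0, b1, b2]) p0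
  have b4 : ‖Z.cc (T - i) - (base Z T N σ).cc T‖ ≤ 4 * φ * ‖(base Z T N σ).cc T‖ := by
    have := norm_sub_le (Z.cc (T - i) - Z.cc T) ((base Z T N σ).cc T - Z.cc T)
    rw [sub_sub_sub_cancel_right] at this
    linarith only [a6, a9, b0, b3, this]
  have b5 := align_transfer (by linarith only [hφ]) b4 a5
  have b6 := (h.calm _ Ti).1
  rw [im_eq_sin, abs_mul, abs_norm, mul_comm] at b5
  linarith only [hφ, b5, b6, le_of_mul_le_mul_right b5 b6]

theorem j6_gam {N : ℕ} (hN : 2 ≤ N) {x : ℝ} (hx : -(2 * N : ℝ) ≤ x) :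
    exp (gam N * x) ≤ 8 * exp (2 * x) := by
  have N0 : (0 : ℝ) < N := by exact_mod_cast (by omega : 0 < N)
  have a1 : -x / N ≤ 2 := by
    rw [div_le_iff₀ N0]
    linarith
  have a2 : gam N * x = -x / N + 2 * x := by
    unfold gam
    ring
  rw [a2, exp_add]
  exact mul_le_mul_of_nonneg_right ((exp_le_exp.2 a1).trans j6_e2) (exp_pos _).le

theorem j6_aux1 {Z : Cfg} {μ δ c2 C σ x : ℝ} {T N : ℕ} (hb : BF Z C μ δ c2 σ T N) (hN : 2 ≤ N)
    (h0 : -(2 * N : ℝ) ≤ x) (h1 : x ≤ 1) (hE : N * exp (-(T : ℝ) / 4) ≤ 1) (φ : ℕ → ℝ) :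
    Z.A T * ∑ i ∈ Finset.Ico 1 T, exp (-gam N * i) * lg (2 * (i - (T - x))) (φ i) ≤
      640 * (‖Z.cc 0‖ * exp (2 * x)) := by
  have T0 : (0 : ℝ) ≤ T := Nat.cast_nonneg T
  have a0 : 0 ≤ Z.A T := mul_nonneg (norm_nonneg _) (exp_pos _).le
  have a1 : ∑ i ∈ Finset.Ico 1 T, exp (-gam N * i) * lg (2 * (i - (T - x))) (φ i) ≤
      2 * (20 * N * exp (-gam N * (T - x))) := by
    refine le_trans ?_ (mul_le_mul_of_nonneg_left (aux_W hN T (y := T - x) (by linarith only [h1])) zero_le_two)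
    rw [Finset.mul_sum]
    refine Finset.sum_le_sum fun i _ => ?_
    rw [mul_left_comm]
    exact mul_le_mul_of_nonneg_left (lg_two_le _ _) (exp_pos _).le
  have a2 := hb.AT 0 ⟨le_rfl, T0⟩
  rw [sub_zero, Cfg.A.eq_1 Z 0, exp_zero, mul_one] at a2
  have a3 : exp (-(3 / 8) * (T : ℝ)) ≤ exp (-(T : ℝ) / 4) := exp_le_exp.2 (by linarith only [])
  have n0 := norm_nonneg (Z.cc 0)
  have N0 : (0 : ℝ) ≤ N := Nat.cast_nonneg N
  have a4 : N * (Z.A T * exp (-gam N * T)) ≤ 2 * ‖Z.cc 0‖ := by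
    have b1 := mul_le_mul_of_nonneg_left a2 N0
    have b2 := mul_le_mul_of_nonneg_right
      ((mul_le_mul_of_nonneg_left a3 N0).trans hE) n0
    linarith only [b1, b2]
  have a5 := mul_le_mul a4 (j6_gam hN h0) (exp_pos _).le (by positivity)
  have a6 : exp (-gam N * (T - x)) = exp (-gam N * T) * exp (gam N * x) := by
    rw [← exp_add]
    congr 1
    ring
  have a7 := mul_le_mul_of_nonneg_left a1 a0
  rw [a6] at a7
  linarith only [a5, a7]

theorem j6_past (Z : Cfg) (A : Finset ℕ) (hA : A ⊆ Z.s) {x y : ℝ} (h1 : x ≤ 1) (φ : ℕ → ℝ) :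
    ∑ a ∈ A, lg (2 * (x + y - Z.ξ a)) (φ a) ≤ 16 * Z.W y := by
  have a1 : ∑ a ∈ A, lg (2 * (x + y - Z.ξ a)) (φ a) ≤ 2 * Z.W (x + y) := by
    rw [Cfg.W, Finset.mul_sum]
    exact (Finset.sum_le_sum fun a _ => lg_two_le _ _).trans
      (Finset.sum_le_sum_of_subset_of_nonneg hA fun a _ _ => (mul_pos two_pos (w0_pos _)).le)
  have a2 : Z.W (x + y) ≤ Z.W (y + 1) := Z.W_mono (by linarith)
  have a3 := Z.W_shift y zero_le_one
  rw [mul_one] at a3
  linarith [mul_le_mul_of_nonneg_right j6_e2 (Z.W_nonneg y)]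

theorem j6_pair {Z : Cfg} {μ δ c2 C σ0 x t : ℝ} {T N n : ℕ} (hb : BF Z C μ δ c2 (σ0 * δ) T N)
    (hN : 2 ≤ N) (hC : 1 ≤ C) (hσ : 0 < σ0) (hσ1 : σ0 ≤ 1) (hδ : 0 < δ) (c0 : 0 ≤ c2)
    (c1 : c2 * (C * exp (4 * N)) ≤ σ0) (hE : exp (-(T : ℝ) / 4) * (C * exp (4 * N)) ≤ σ0)
    (hT : 2 * (N : ℝ) ≤ T) (hn : 1 ≤ n) (h0 : -(2 * N : ℝ) ≤ x) (h1 : x ≤ 1)
    (hx : ((base Z T N (σ0 * δ)).per T).Reg (n * T + x))
    (hs : ∀ i ∈ Finset.Ico 1 T, (i : ℝ) ≤ -x - 1 →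
      |sin (t + (base Z T N (σ0 * δ)).ang T + Complex.arg (Z.cc (T - i)))| ≤ 1 / 4) :
    ((base Z T N (σ0 * δ)).per T).U (n * T + x) (t + n * (base Z T N (σ0 * δ)).ang T) +
      ((base Z T N (σ0 * δ)).per T).U (n * T + x) (t + n * (base Z T N (σ0 * δ)).ang T + π) ≤
        (base Z T N (σ0 * δ)).q T ^ n *
          (∑ a ∈ Z.s.filter (fun a => 0 ≤ Z.ξ a ∧ Z.ξ a < T), lg (2 * (x - Z.ξ a)) (2 * (t - Z.η a)) +
            2000 * (σ0 * δ * (‖Z.cc 0‖ * exp (2 * x)))) := by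
  have q0 : 0 < (base Z T N (σ0 * δ)).q T := (exp_pos _).trans_le hb.cell.qlo
  refine (hb.cell.pair_le hn (by linarith only [hT, h0]) h1 hx t).trans
    (mul_le_mul_of_nonneg_left ?_ (pow_nonneg q0.le n))
  rw [ks_base, ks_base]
  have N0 : (0 : ℝ) ≤ N := Nat.cast_nonneg N
  have T0 : (0 : ℝ) ≤ T := Nat.cast_nonneg T
  have n0 := norm_nonneg (Z.cc 0)
  have A0 : 0 ≤ Z.A T := mul_nonneg (norm_nonneg _) (exp_pos _).le
  have E0 := exp_pos (-(T : ℝ) / 4)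
  have s0 := mul_pos hσ hδ
  have g1 : (N : ℝ) ≤ exp (4 * N) := by linarith only [add_one_le_exp (4 * (N : ℝ))]
  have g2 : 1 ≤ exp (4 * (N : ℝ)) := one_le_exp (by linarith only [])
  have g3 : exp (4 * (N : ℝ)) ≤ C * exp (4 * N) := le_mul_of_one_le_left (exp_pos _).le hC
  have g4 : C ≤ C * exp (4 * N) := le_mul_of_one_le_right (by linarith only [hC]) g2
  have g5 : 1 ≤ exp (4 * (N : ℝ)) * exp (2 * x) := by
    rw [← exp_add]
    exact one_le_exp (by linarith only [h0])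
  have a1 := mul_le_mul_of_nonneg_left (j6_aux1 hb hN h0 h1 (by
    have := mul_le_mul_of_nonneg_left (g1.trans g3) E0.le
    linarith only [hσ1, hE, this]) fun i => 2 * (t + Complex.arg (Z.cc (T - i)))) s0.le
  have a2 := (j6_past Z _ (Finset.filter_subset (fun a => 0 ≤ Z.ξ a ∧ Z.ξ a < T) _) (y := T) h1
    fun a => 2 * (t + (base Z T N (σ0 * δ)).ang T - Z.η a)).trans
      (mul_le_mul_of_nonneg_left hb.ZT (by norm_num))
  have a3 := (aux_pair hN T (-x) hs).trans (mul_le_mul_of_nonneg_left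
    (show exp (-gam N * -x) ≤ 8 * exp (2 * x) by rw [neg_mul_neg]; exact j6_gam hN h0) (by norm_num))
  have a4 := mul_le_mul_of_nonneg_left a3 (mul_nonneg s0.le A0)
  rw [show (T : ℝ) - (x + T) = -x by ring]
  have a5 : ((base Z T N (σ0 * δ)).q T)⁻¹ * Z.A T ≤ 2 * ‖Z.cc 0‖ := by
    rw [inv_mul_le_iff₀ q0]
    linarith only [hb, hb.q1]
  have a6 := mul_le_mul_of_nonneg_left (add_le_add a2 a4) (inv_pos.2 q0).le
  have a7 : exp (2 * (x - T)) * (base Z T N (σ0 * δ)).q T ≤ exp (2 * x) * exp (-(T : ℝ) / 4) := by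
    refine (mul_le_mul_of_nonneg_left hb.cell.qhi (exp_pos _).le).trans ?_
    rw [← exp_add, ← exp_add]
    exact exp_le_exp.2 (by linarith only [hT])
  have a8 := mul_le_mul a7 hb.W0 (hb.cell.valid.W_nonneg 0) (by positivity)
  have a9 := mul_le_mul_of_nonneg_left hb.WT (mul_nonneg (inv_pos.2 q0).le E0.le)
  have X0 := exp_pos (2 * x)
  have b1 := mul_le_mul_of_nonneg_left a5
    (show 0 ≤ 16 * (C * (c2 * δ)) + σ0 * δ * (400 * exp (2 * x)) by positivity)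
  have b2 := mul_le_mul_of_nonneg_left a5
    (show 0 ≤ exp (-(T : ℝ) / 4) * (C * (c2 * δ + σ0 * δ)) by positivity)
  have l0 : 0 ≤ δ * ‖Z.cc 0‖ := by positivity
  have b3 : C * c2 ≤ σ0 * exp (2 * x) := by
    have d1 := mul_le_mul_of_nonneg_left g5 (show 0 ≤ C * c2 by positivity)
    have d2 := mul_le_mul_of_nonneg_right c1 X0.le
    linarith only [d1, d2]
  have b4 : exp (-(T : ℝ) / 4) * C ≤ σ0 * exp (2 * x) := by
    have d1 := mul_le_mul_of_nonneg_left g5 (show 0 ≤ exp (-(T : ℝ) / 4) * C by positivity)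
    have d2 := mul_le_mul_of_nonneg_right hE X0.le
    linarith only [d1, d2]
  have b5 : exp (-(T : ℝ) / 4) * C ≤ σ0 := (mul_le_mul_of_nonneg_left g4 E0.le).trans hE
  have b6 : c2 + σ0 ≤ 2 := by
    have d1 := mul_le_mul_of_nonneg_left (g2.trans g3) c0
    linarith only [hσ1, c1, d1]
  have b7 := mul_le_mul_of_nonneg_right b3 l0
  have b8 := mul_le_mul_of_nonneg_right
    (mul_le_mul b4 b6 (by positivity) (by positivity)) l0
  have b9 := mul_le_mul_of_nonneg_right b5 (mul_nonneg l0 X0.le)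
  have e0 : 0 ≤ σ0 * δ * (‖Z.cc 0‖ * exp (2 * x)) := by positivity
  linarith only [a1, a6, a8, a9, b1, b2, b7, b8, b9, e0]

theorem near {C c φ1 σ0 : ℝ} (hC : 1 ≤ C) (hφ : 0 < φ1) (hσ : 0 < σ0) (hσ1 : σ0 ≤ 1)
    (hc : 10000 * σ0 ≤ c) {N : ℕ} (hN : 2 ≤ N) : ∃ (ν1 c21 η1 : ℝ) (Tb : ℕ), 0 < ν1 ∧ 0 < c21 ∧ 0 < η1 ∧
    ∀ (Z : Cfg) (η μ δ θ c2 ν : ℝ) (R T n : ℕ) (x : ℝ), Tooth Z η μ δ θ c2 R T →
      BF Z C μ δ c2 (σ0 * δ) T N → μ ≤ ν1 → ((base Z T N (σ0 * δ)).per T).Calm ν1 → 0 ≤ c2 → c2 ≤ c21 →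
      0 ≤ η → η ≤ η1 * δ → Tb ≤ T →
      (∀ x θ : ℝ, x ≤ 1 → (∀ a ∈ Z.s, 0 ≤ Z.ξ a → Z.ξ a < T → Z.ξ a ≠ x) →
        |(Z.cc 0 * Complex.exp (θ * Complex.I)).im| ≤ φ1 * ‖Z.cc 0‖ →
        ∑ a ∈ Z.s.filter (fun a => 0 ≤ Z.ξ a ∧ Z.ξ a < T), lg (2 * (x - Z.ξ a)) (2 * (θ - Z.η a)) ≤
          -c * Z.L 0 * exp (2 * x)) →
      1 ≤ n → -(2 * N : ℝ) ≤ x → x ≤ 1 → ((base Z T N (σ0 * δ)).per T).Reg (n * T + x) →
      ((base Z T N (σ0 * δ)).per T).CovAt (1 + η) 0 ν (1 / 100) (n * T + x) := by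
  obtain ⟨φ, p0, p1, p2⟩ : ∃ φ : ℝ, 0 < φ ∧ 4 * φ ≤ φ1 ∧ φ ≤ 1 / 100 :=
    ⟨min (φ1 / 4) (1 / 100), lt_min (by positivity) (by norm_num),
      by linarith only [min_le_left (φ1 / 4) (1 / 100)], min_le_right _ _⟩
  obtain ⟨μ0, m0, hm⟩ := ICfg.Valid.exists_max p0
  have N0 : (2 : ℝ) ≤ N := by exact_mod_cast hN
  have M0 : 0 < C * exp (4 * N) := by positivity
  have g1 : 4 * (N : ℝ) ≤ exp (4 * N) := by linarith only [p0, p2, add_one_le_exp (4 * (N : ℝ))]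
  have g3 : exp (4 * (N : ℝ)) ≤ C * exp (4 * N) := le_mul_of_one_le_left (exp_pos _).le hC
  obtain ⟨ν1, n0, n1, n2⟩ : ∃ ν1 : ℝ, 0 < ν1 ∧ ν1 ≤ μ0 ∧ 32 * ν1 * (2 * N + 1) ≤ φ := by
    refine ⟨min μ0 (φ / (32 * (2 * N + 1))), lt_min m0 (by positivity), min_le_left _ _, ?_⟩
    have := (le_div_iff₀ (show (0 : ℝ) < 32 * (2 * N + 1) by positivity)).1
      (min_le_right μ0 (φ / (32 * (2 * N + 1))))
    linarith only [this]
  refine ⟨ν1, σ0 / (C * exp (4 * N)), σ0 / (C * exp (4 * N)), ⌈4 * (C * exp (4 * N)) / σ0⌉₊, n0,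
    by positivity, by positivity,
    fun Z η μ δ θ c2 ν R T n x ht hb hμ hcalm c0 c1 e0 e1 hT hsum hn h0 h1 hx => ?_⟩
  have T0 : (0 : ℝ) ≤ T := Nat.cast_nonneg T
  have hT1 := (div_le_iff₀ hσ).1 (Nat.ceil_le.1 hT)
  have hT2 : 2 * (N : ℝ) ≤ T := by linarith only [p0, p2, N0, g1, g3, hT1, hσ1, T0, mul_le_mul_of_nonneg_left hσ1 T0]
  have hE : exp (-(T : ℝ) / 4) * (C * exp (4 * N)) ≤ σ0 := by
    rw [neg_div, exp_neg, inv_mul_le_iff₀ (exp_pos _)]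
    have := mul_le_mul_of_nonneg_right (add_one_le_exp ((T : ℝ) / 4)) hσ.le
    linarith only [hσ, hT1, this]
  have d0 := ht.dpos
  have u0 : 0 ≤ μ := d0.le.trans ht.dle
  have hv := hb.cell.per_valid
  obtain ⟨s, s1, s2, s3⟩ := hm _ 0 (n * T + x) hv hx ((hcalm _).2.trans
    (mul_le_mul_of_nonneg_right n1 (mul_nonneg (norm_nonneg _) (exp_pos _).le)))
  obtain ⟨t, rfl⟩ : ∃ t, s = t + n * (base Z T N (σ0 * δ)).ang T :=
    ⟨s - n * (base Z T N (σ0 * δ)).ang T, by ring⟩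
  have x0 : |x| ≤ 2 * N := abs_le.2 ⟨h0, by linarith only [p0, p2, N0, h1]⟩
  have a1 := j6_drift (x := n * T + x) (y := n * T + 0) hv hcalm n0.le (by linarith only [p0, p2])
    (by rwa [add_sub_add_left_eq_sub, zero_sub, abs_neg]) n2
  have a2 := j6_drift (x := n * T + 0) (y := n * T + x) hv hcalm n0.le (by linarith only [p0, p2])
    (by rwa [add_sub_add_left_eq_sub, sub_zero]) n2
  have a3 := align_transfer (by linarith only [p0, p2]) a1 s3
  have a4 : ‖((base Z T N (σ0 * δ)).per T).cc (n * T + 0)‖ =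
      ‖(base Z T N (σ0 * δ)).Q T‖ ^ n * ‖Z.cc 0‖ := by
    rw [hb.cell.cc_eq n le_rfl T0, norm_mul, norm_pow, j6_cc0 hb.cell]
  have q0 : 0 < (base Z T N (σ0 * δ)).q T := (exp_pos _).trans_le hb.cell.qlo
  have Q0 : 0 < ‖(base Z T N (σ0 * δ)).Q T‖ ^ n :=
    pow_pos ((mul_pos_iff_of_pos_right (exp_pos _)).1 q0) n
  rw [hb.cell.cc_rot n le_rfl T0, a4, j6_cc0 hb.cell, Complex.im_ofReal_mul, abs_mul,
    abs_of_pos Q0, mul_left_comm] at a3
  have a5 := le_of_mul_le_mul_left a3 Q0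
  have z0 := norm_nonneg (Z.cc 0)
  have a6 := hsum x t h1 (reg_base (hb.cell.reg hx))
    (a5.trans (mul_le_mul_of_nonneg_right (by linarith only [p1]) z0))
  have a7 := j6_pair (t := t) hb hN hC hσ hσ1 d0 c0 ((le_div_iff₀ M0).1 c1) hE hT2 hn h0 h1 hx
    fun i hi hi2 => j6_align (d := 2 * N) ht hb
      ((mul_le_of_le_one_left d0.le hσ1).trans ht.dle) p2
      (le_trans (by gcongr) n2) (a5.trans_eq (by ring)) (Nat.cast_nonneg i) (by linarith only [p0, p2, h0, hi2])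
      (by linarith only [p0, p2, h0, hT2, hi2])
  have a8 : ((base Z T N (σ0 * δ)).per T).A (n * T + x) ≤
      (base Z T N (σ0 * δ)).q T ^ n * (2 * (‖Z.cc 0‖ * exp x)) := by
    have b1 := norm_le_norm_add_norm_sub' (((base Z T N (σ0 * δ)).per T).cc (n * T + x))
      (((base Z T N (σ0 * δ)).per T).cc (n * T + 0))
    have b2 := mul_le_mul_of_nonneg_right (show φ ≤ 1 by linarith only [p0, p2])
      (norm_nonneg (((base Z T N (σ0 * δ)).per T).cc (n * T + 0)))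
    have b3 : ‖((base Z T N (σ0 * δ)).per T).cc (n * T + x)‖ ≤
        2 * (‖(base Z T N (σ0 * δ)).Q T‖ ^ n * ‖Z.cc 0‖) := by linarith only [a2, a4, b1, b2]
    rw [ICfg.A, ICfg.q, mul_pow, exp_add, exp_nat_mul]
    exact (mul_le_mul_of_nonneg_right b3 (by positivity)).trans_eq (by ring)
  have a9 : η * exp x ≤ σ0 * δ * exp (2 * x) := by
    have b1 : exp x ≤ C * exp (4 * N) * exp (2 * x) := by
      refine le_trans ?_ (mul_le_mul_of_nonneg_right g3 (exp_pos _).le)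
      rw [← exp_add]
      exact exp_le_exp.2 (by linarith only [p0, p2, N0, h0])
    refine (mul_le_mul e1 b1 (exp_pos _).le (by positivity)).trans_eq ?_
    field_simp
  refine ⟨t + n * (base Z T N (σ0 * δ)).ang T + π, Or.inl fun y' => ?_⟩
  have qn := (pow_pos q0 n).le
  have b1 := mul_le_mul_of_nonneg_left (s1 y') (show 0 ≤ 1 + η by linarith only [p0, p2, e0])
  have b2 := mul_le_mul_of_nonneg_left (s2.trans (mul_le_mul_of_nonneg_left a8 zero_le_two)) e0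
  have b3 := mul_le_mul_of_nonneg_left (mul_le_mul_of_nonneg_left a9 z0) qn
  rw [ht.L0] at a6
  have b4 := mul_le_mul_of_nonneg_left a6 qn
  have b5 : 0 ≤ δ * (‖Z.cc 0‖ * exp (2 * x)) := by positivity
  have b6 := mul_le_mul_of_nonneg_left (mul_le_mul_of_nonneg_right hc b5) qn
  have b7 := mul_nonneg qn (mul_nonneg hσ.le b5)
  linarith only [a7, b1, b2, b3, b4, b6, b7]

end

end Pool.Agent.MinMod.Mo
end
end
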